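import Pool.Agent.Lib.MP_0da313_nt.HC.W
import Pool.Agent.Lib.MP_89da58_nt.LargeArith

set_option autoImplicit false

/-!
Piece La (`MP_0da313_nt`, project HC, section W).
-/

namespace Pool.Agent.HC.W

open Finset Filter Polynomial
open ArithmeticFunction (vonMangoldt)
open Pool.Agent.SP80 (ex)

private theorem gc_La_nex (x : ℝ) : ‖ex x‖ = 1 := by
  unfold Pool.Agent.SP80.ex
  exact Complex.norm_exp_ofReal_mul_I _

/-- Summation by parts. -/
private theorem gc_La_parts (c : ℕ → ℝ) (g : ℕ → ℂ) (u t : ℕ) :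
    ∑ n ∈ Ioc u (u + t), (c n : ℂ) * g n = (c (u + t) : ℂ) * ∑ n ∈ Ioc u (u + t), g n -
      ∑ i ∈ range t, ((c (u + i + 1) - c (u + i) : ℝ) : ℂ) * ∑ n ∈ Ioc u (u + i), g n := by
  induction t with
  | zero => simp
  | succ t ih =>
    have h : Ioc u (u + (t + 1)) = insert (u + t + 1) (Ioc u (u + t)) := by
      ext n
      simp only [Finset.mem_insert, Finset.mem_Ioc]
      omega
    have h2 : (u + t + 1) ∉ Ioc u (u + t) := by
      simp only [Finset.mem_Ioc]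
      omega
    rw [h, Finset.sum_insert h2, Finset.sum_insert h2, ih, Finset.sum_range_succ, ← add_assoc]
    push_cast
    ring

private theorem gc_La_abel (g : ℕ → ℂ) (u v : ℕ) (C : ℝ) (hC : 0 ≤ C)
    (h : ∀ k ≤ v, ‖∑ n ∈ Ioc u k, g n‖ ≤ C) :
    ‖∑ n ∈ Ioc u v, ((Real.log (n : ℕ) : ℝ) : ℂ) * g n‖ ≤ 2 * Real.log v * C := by
  by_cases huv : v ≤ u
  · rw [Finset.Ioc_eq_empty_of_le huv, Finset.sum_empty, norm_zero]
    have := Real.log_natCast_nonneg v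
    positivity
  obtain ⟨t, rfl⟩ := Nat.exists_eq_add_of_le (not_le.1 huv).le
  have hmono : ∀ i : ℕ, 0 ≤ Real.log ((u + i + 1 : ℕ) : ℝ) - Real.log ((u + i : ℕ) : ℝ) := by
    intro i
    rw [sub_nonneg]
    by_cases h0 : u + i = 0
    · rw [h0]
      simp
    · exact Real.log_le_log (by exact_mod_cast Nat.pos_of_ne_zero h0)
        (by exact_mod_cast Nat.le_succ _)
  have htel : ∑ i ∈ range t, (Real.log ((u + i + 1 : ℕ) : ℝ) - Real.log ((u + i : ℕ) : ℝ))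
      = Real.log ((u + t : ℕ) : ℝ) - Real.log ((u : ℕ) : ℝ) := by
    have := Finset.sum_range_sub (fun i : ℕ => Real.log ((u + i : ℕ) : ℝ)) t
    simpa [add_assoc] using this
  rw [gc_La_parts (fun n => Real.log (n : ℕ)) g u t]
  refine (norm_sub_le _ _).trans ?_
  have h1 : ‖((Real.log ((u + t : ℕ) : ℝ) : ℝ) : ℂ) * ∑ n ∈ Ioc u (u + t), g n‖
      ≤ Real.log ((u + t : ℕ) : ℝ) * C := by
    rw [norm_mul, Complex.norm_real, Real.norm_of_nonneg (Real.log_natCast_nonneg _)]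
    exact mul_le_mul_of_nonneg_left (h _ le_rfl) (Real.log_natCast_nonneg _)
  have h2 : ‖∑ i ∈ range t, ((Real.log ((u + i + 1 : ℕ) : ℝ) - Real.log ((u + i : ℕ) : ℝ) : ℝ) : ℂ)
      * ∑ n ∈ Ioc u (u + i), g n‖ ≤ Real.log ((u + t : ℕ) : ℝ) * C := by
    calc ‖∑ i ∈ range t, ((Real.log ((u + i + 1 : ℕ) : ℝ) - Real.log ((u + i : ℕ) : ℝ) : ℝ) : ℂ)
          * ∑ n ∈ Ioc u (u + i), g n‖
        ≤ ∑ i ∈ range t, (Real.log ((u + i + 1 : ℕ) : ℝ) - Real.log ((u + i : ℕ) : ℝ)) * C := by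
          refine (norm_sum_le _ _).trans (Finset.sum_le_sum fun i hi => ?_)
          rw [Finset.mem_range] at hi
          rw [norm_mul, Complex.norm_real, Real.norm_of_nonneg (hmono i)]
          exact mul_le_mul_of_nonneg_left (h _ (by omega)) (hmono i)
      _ = (Real.log ((u + t : ℕ) : ℝ) - Real.log ((u : ℕ) : ℝ)) * C := by
          rw [← Finset.sum_mul, htel]
      _ ≤ Real.log ((u + t : ℕ) : ℝ) * C := by
          apply mul_le_mul_of_nonneg_right _ hC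
          have := Real.log_natCast_nonneg u
          linarith
  calc _ ≤ Real.log ((u + t : ℕ) : ℝ) * C + Real.log ((u + t : ℕ) : ℝ) * C := add_le_add h1 h2
    _ = 2 * Real.log ((u + t : ℕ) : ℝ) * C := by ring

private theorem gc_La_sum (Y W : ℕ) (κ : ℕ → ℝ) (G : ℕ → ℂ) (K : ℝ)
    (h1 : ∀ m, 1 ≤ m → m ≤ W → |κ m| ≤ K) (h2 : ∀ m, W < m → κ m = 0) :
    ‖∑ m ∈ Icc 1 Y, (κ m : ℂ) * G m‖ ≤ K * ∑ m ∈ Icc 1 W, ‖G m‖ := by
  have hr : ∑ m ∈ Icc 1 Y, (κ m : ℂ) * G m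
      = ∑ m ∈ (Icc 1 Y).filter (fun m => m ≤ W), (κ m : ℂ) * G m := by
    rw [Finset.sum_filter]
    refine Finset.sum_congr rfl fun m _ => ?_
    split_ifs with h
    · rfl
    · rw [h2 m (not_le.1 h)]; simp
  rw [hr]
  refine (norm_sum_le _ _).trans ?_
  have hs : (Icc 1 Y).filter (fun m => m ≤ W) ⊆ Icc 1 W := by
    intro m hm
    rw [Finset.mem_filter, Finset.mem_Icc] at hm
    exact Finset.mem_Icc.2 ⟨hm.1.1, hm.2⟩
  refine (Finset.sum_le_sum_of_subset_of_nonneg hs fun _ _ _ => norm_nonneg _).trans ?_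
  rw [Finset.mul_sum]
  refine Finset.sum_le_sum fun m hm => ?_
  rw [Finset.mem_Icc] at hm
  rw [norm_mul, Complex.norm_real, Real.norm_eq_abs]
  exact mul_le_mul_of_nonneg_right (h1 m hm.1 hm.2) (norm_nonneg _)

/-- The weight. -/
private noncomputable def gcLaW (U Y Q a : ℕ) (P : ℕ → ℂ) (t : ℕ) : ℂ :=
  if U < t ∧ t ≤ Y ∧ t ≡ a [MOD Q] then P t else 0

/-- The inner term. -/
private noncomputable def gcLaG (Q a : ℕ) (P : ℕ → ℂ) (m n : ℕ) : ℂ :=
  if m * n ≡ a [MOD Q] then P (m * n) else 0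

private theorem gc_La_inner (U Y Q a m : ℕ) (P : ℕ → ℂ) (φ : ℕ → ℂ) (hm : 1 ≤ m) :
    ∑ n ∈ Icc 1 Y, φ n * gcLaW U Y Q a P (m * n)
      = ∑ n ∈ Ioc (U / m) (Y / m), φ n * gcLaG Q a P m n := by
  have hs : Ioc (U / m) (Y / m) ⊆ Icc 1 Y := by
    intro n hn
    rw [Finset.mem_Ioc] at hn
    rw [Finset.mem_Icc]
    exact ⟨Nat.lt_of_le_of_lt (Nat.zero_le _) hn.1, hn.2.trans (Nat.div_le_self Y m)⟩
  rw [← Finset.sum_subset hs]
  · refine Finset.sum_congr rfl fun n hn => ?_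
    rw [Finset.mem_Ioc] at hn
    have h1 : U < m * n := by
      have := (Nat.div_lt_iff_lt_mul hm).1 hn.1
      rwa [mul_comm] at this
    have h2 : m * n ≤ Y := by
      have := (Nat.le_div_iff_mul_le hm).1 hn.2
      rwa [mul_comm] at this
    unfold gcLaW gcLaG
    congr 1
    by_cases h3 : m * n ≡ a [MOD Q]
    · rw [if_pos ⟨h1, h2, h3⟩, if_pos h3]
    · rw [if_neg (fun h => h3 h.2.2), if_neg h3]
  · intro n hn hn2
    unfold gcLaW
    rw [if_neg, mul_zero]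
    rintro ⟨h1, h2, h3⟩
    apply hn2
    rw [Finset.mem_Ioc]
    refine ⟨(Nat.div_lt_iff_lt_mul hm).2 ?_, (Nat.le_div_iff_mul_le hm).2 ?_⟩
    · rwa [mul_comm]
    · rwa [mul_comm]

private theorem gc_La_ioc (g : ℕ → ℂ) (u v : ℕ) :
    ‖∑ n ∈ Ioc u v, g n‖ ≤ ‖∑ n ∈ Icc 1 v, g n‖ + ‖∑ n ∈ Icc 1 (min u v), g n‖ := by
  by_cases h : u ≤ v
  · rw [min_eq_left h]
    have h1 : ∑ n ∈ Ioc u v, g n = ∑ n ∈ Icc 1 v, g n - ∑ n ∈ Icc 1 u, g n := by
      rw [eq_sub_iff_add_eq, add_comm]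
      have e1 : ∀ k : ℕ, Icc 1 k = Ioc 0 k := by
        intro k
        ext n
        rw [Finset.mem_Icc, Finset.mem_Ioc]
        omega
      rw [e1, e1]
      exact sum_Ioc_consecutive g (Nat.zero_le _) h
    rw [h1]
    exact norm_sub_le _ _
  · rw [Finset.Ioc_eq_empty_of_le (not_le.1 h).le, Finset.sum_empty, norm_zero]
    positivity

/-- The bound for both type I sums. -/
private theorem gc_La_t1 (Q a M Y U : ℕ) (P : ℕ → ℂ) (D : ℝ)
    (hD : ∀ v : ℕ → ℕ, (∀ m ∈ Icc 1 M, v m ≤ Y / m) →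
      ∑ m ∈ Icc 1 M, ‖∑ l ∈ (Icc 1 (v m)).filter (fun l => m * l ≡ a [MOD Q]), P (m * l)‖ ≤ D) :
    ∑ m ∈ Icc 1 M, ‖∑ n ∈ Ioc (U / m) (Y / m), gcLaG Q a P m n‖ ≤ 2 * D ∧
    ∑ m ∈ Icc 1 M, ‖∑ n ∈ Ioc (U / m) (Y / m), ((Real.log (n : ℕ) : ℝ) : ℂ) * gcLaG Q a P m n‖
      ≤ 2 * Real.log Y * (2 * D) := by
  have hkey : ∀ v : ℕ → ℕ, (∀ m ∈ Icc 1 M, v m ≤ Y / m) →
      ∑ m ∈ Icc 1 M, ‖∑ n ∈ Ioc (U / m) (v m), gcLaG Q a P m n‖ ≤ 2 * D := by
    intro v hv
    have h1 := hD v hv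
    have h2 := hD (fun m => min (U / m) (v m)) (fun m hm => (min_le_right _ _).trans (hv m hm))
    have e : ∀ m k : ℕ, ∑ l ∈ (Icc 1 k).filter (fun l => m * l ≡ a [MOD Q]), P (m * l) =
        ∑ n ∈ Icc 1 k, gcLaG Q a P m n := by
      intro m k
      rw [Finset.sum_filter]
      rfl
    simp only [e] at h1 h2
    calc ∑ m ∈ Icc 1 M, ‖∑ n ∈ Ioc (U / m) (v m), gcLaG Q a P m n‖
        ≤ ∑ m ∈ Icc 1 M, (‖∑ n ∈ Icc 1 (v m), gcLaG Q a P m n‖ +
            ‖∑ n ∈ Icc 1 (min (U / m) (v m)), gcLaG Q a P m n‖) :=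
          Finset.sum_le_sum fun m _ => gc_La_ioc _ _ _
      _ ≤ 2 * D := by
          rw [Finset.sum_add_distrib]
          linarith
  refine ⟨hkey (fun m => Y / m) (fun m _ => le_rfl), ?_⟩
  have hex : ∀ m : ℕ, ∃ k : ℕ, k ≤ Y / m ∧ ∀ k' ≤ Y / m,
      ‖∑ n ∈ Ioc (U / m) k', gcLaG Q a P m n‖ ≤ ‖∑ n ∈ Ioc (U / m) k, gcLaG Q a P m n‖ := by
    intro m
    obtain ⟨k, hk, hk2⟩ := Finset.exists_max_image (Finset.range (Y / m + 1))
      (fun k => ‖∑ n ∈ Ioc (U / m) k, gcLaG Q a P m n‖) ⟨0, by simp⟩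
    refine ⟨k, by rw [Finset.mem_range] at hk; omega, fun k' hk' => ?_⟩
    exact hk2 k' (by rw [Finset.mem_range]; omega)
  choose v hv1 hv2 using hex
  have h2 := hkey v (fun m _ => hv1 m)
  calc ∑ m ∈ Icc 1 M, ‖∑ n ∈ Ioc (U / m) (Y / m),
        ((Real.log (n : ℕ) : ℝ) : ℂ) * gcLaG Q a P m n‖
      ≤ ∑ m ∈ Icc 1 M, 2 * Real.log Y * ‖∑ n ∈ Ioc (U / m) (v m), gcLaG Q a P m n‖ := by
        refine Finset.sum_le_sum fun m _ => ?_
        refine (gc_La_abel _ _ _ _ (norm_nonneg _) (hv2 m)).trans ?_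
        apply mul_le_mul_of_nonneg_right _ (norm_nonneg _)
        apply mul_le_mul_of_nonneg_left _ (by norm_num)
        by_cases h0 : Y / m = 0
        · rw [h0]
          simpa using Real.log_natCast_nonneg Y
        · exact Real.log_le_log (by exact_mod_cast Nat.pos_of_ne_zero h0)
            (by exact_mod_cast Nat.div_le_self Y m)
    _ = 2 * Real.log Y * ∑ m ∈ Icc 1 M, ‖∑ n ∈ Ioc (U / m) (v m), gcLaG Q a P m n‖ := by
        rw [Finset.mul_sum]
    _ ≤ _ := mul_le_mul_of_nonneg_left h2 (by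
        have := Real.log_natCast_nonneg Y
        positivity)

/-! ### Dyadic blocks -/

private theorem gc_La_split (U : ℕ) (g : ℕ → ℂ) (I : ℕ) :
    ∑ m ∈ Ioc U (2 ^ I * U), g m =
      ∑ i ∈ range I, ∑ m ∈ Ioc (2 ^ i * U) (2 * (2 ^ i * U)), g m := by
  induction I with
  | zero => simp
  | succ I ih =>
    rw [sum_range_succ, ← ih, show 2 * (2 ^ I * U) = 2 ^ (I + 1) * U by ring]
    have h1 : 1 ≤ 2 ^ I := Nat.one_le_two_pow
    have h2 : 1 * U ≤ 2 ^ I * U := Nat.mul_le_mul_right U h1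
    rw [one_mul] at h2
    exact (sum_Ioc_consecutive g h2
      (Nat.mul_le_mul_right U (Nat.pow_le_pow_right (by norm_num) (Nat.le_succ I)))).symm

private theorem gc_La_dya (U V X I : ℕ) (F : ℕ → ℕ → ℂ) (hU : 1 ≤ U) (hV : 1 ≤ V) (hI : X < 2 ^ I)
    (hF : ∀ m n : ℕ, 1 ≤ m → 1 ≤ n → F m n ≠ 0 → U < m ∧ V < n ∧ m * n ≤ X) :
    ∑ m ∈ Icc 1 X, ∑ n ∈ Icc 1 X, F m n =
      ∑ p ∈ range I ×ˢ range I, ∑ m ∈ Ioc (2 ^ p.1 * U) (2 * (2 ^ p.1 * U)),
        ∑ n ∈ Ioc (2 ^ p.2 * V) (2 * (2 ^ p.2 * V)), F m n := by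
  have h1 : ∑ m ∈ Icc 1 X, ∑ n ∈ Icc 1 X, F m n =
      ∑ m ∈ Ioc U (2 ^ I * U), ∑ n ∈ Ioc V (2 ^ I * V), F m n := by
    rw [← sum_product', ← sum_product']
    apply sum_congr_of_eq_on_inter
    · rintro ⟨m, n⟩ h1 h2
      rw [mem_product, mem_Icc, mem_Icc] at h1
      rw [mem_product, mem_Ioc, mem_Ioc] at h2
      by_contra h3
      obtain ⟨h4, h5, h6⟩ := hF m n h1.1.1 h1.2.1 h3
      apply h2
      refine ⟨⟨h4, ?_⟩, ⟨h5, ?_⟩⟩
      · calc m ≤ X := h1.1.2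
          _ ≤ 2 ^ I := hI.le
          _ = 2 ^ I * 1 := (mul_one _).symm
          _ ≤ 2 ^ I * U := Nat.mul_le_mul_left _ hU
      · calc n ≤ X := h1.2.2
          _ ≤ 2 ^ I := hI.le
          _ = 2 ^ I * 1 := (mul_one _).symm
          _ ≤ 2 ^ I * V := Nat.mul_le_mul_left _ hV
    · rintro ⟨m, n⟩ h1 h2
      rw [mem_product, mem_Ioc, mem_Ioc] at h1
      rw [mem_product, mem_Icc, mem_Icc] at h2
      simp only at h1 h2
      by_contra h3
      obtain ⟨h4, h5, h6⟩ := hF m n (by omega) (by omega) h3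
      apply h2
      have hm : 1 ≤ m := by omega
      have hn : 1 ≤ n := by omega
      have h7 : m * 1 ≤ m * n := Nat.mul_le_mul_left _ hn
      have h8 : 1 * n ≤ m * n := Nat.mul_le_mul_right _ hm
      refine ⟨⟨hm, ?_⟩, ⟨hn, ?_⟩⟩ <;> omega
    · intro a _ _
      rfl
  rw [h1, gc_La_split, sum_product]
  apply sum_congr rfl
  intro i _
  simp only
  exact (sum_congr rfl fun m _ => gc_La_split V (F m) I).trans sum_comm

/-- One block. -/
private theorem gc_La_block (f : ℝ[X]) (Q a M N U Y : ℕ) (X L D : ℝ) (e : ℕ → ℝ)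
    (ht2 : ∀ α β : ℕ → ℂ, ∑ m ∈ Ioc M (2 * M), ‖α m‖ ^ 2 ≤ M * L ^ 6 →
      ∑ l ∈ Ioc N (2 * N), ‖β l‖ ^ 2 ≤ N * L ^ 6 → ‖BS f Q a M N Y α β‖ ≤ D)
    (he : ∀ n, |e n| ≤ n.divisors.card) (hL : 1000000 ≤ L) (hU1 : 1 ≤ U) (hN1 : 1 ≤ N)
    (hUM : U ≤ M) (hMl : Real.log (2 * M) ≤ 2 * L) (hNl : Real.log (2 * N) ≤ 2 * L) :
    ‖∑ m ∈ Ioc M (2 * M), ∑ n ∈ Ioc N (2 * N),
      ((if U < m then vonMangoldt m else 0 : ℝ) : ℂ) * (e n : ℂ) *
        gcLaW U Y Q a (fun t => ex (f.eval (t : ℝ))) (m * n)‖ ≤ D := by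
  have hL0 : 0 < L := by linarith
  have hM1 : 1 ≤ M := hU1.trans hUM
  have hM0 : (0 : ℝ) < M := by exact_mod_cast hM1
  have hN0 : (0 : ℝ) < N := by exact_mod_cast hN1
  have h2 : ∑ m ∈ Ioc M (2 * M), ∑ n ∈ Ioc N (2 * N),
      ((if U < m then vonMangoldt m else 0 : ℝ) : ℂ) * (e n : ℂ) *
        gcLaW U Y Q a (fun t => ex (f.eval (t : ℝ))) (m * n) =
        BS f Q a M N Y (fun m => (vonMangoldt m : ℂ)) (fun n => (e n : ℂ)) := by
    unfold BS
    refine Finset.sum_congr rfl fun m hm => Finset.sum_congr rfl fun n hn => ?_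
    rw [Finset.mem_Ioc] at hm hn
    have h3 : U < m := lt_of_le_of_lt hUM hm.1
    have h4 : U < m * n := lt_of_lt_of_le h3 (Nat.le_mul_of_pos_right m (by omega))
    rw [if_pos h3]
    unfold gcLaW
    by_cases h5 : m * n ≡ a [MOD Q] ∧ m * n ≤ Y
    · rw [if_pos h5, if_pos ⟨h4, h5.2, h5.1⟩]
    · rw [if_neg h5, if_neg (fun h6 => h5 ⟨h6.2.2, h6.2.1⟩), mul_zero]
  rw [h2]
  apply ht2
  · calc ∑ m ∈ Ioc M (2 * M), ‖(vonMangoldt m : ℂ)‖ ^ 2
        ≤ ∑ m ∈ Ioc M (2 * M), (2 * L) ^ 2 := by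
          refine Finset.sum_le_sum fun m hm => ?_
          rw [Finset.mem_Ioc] at hm
          rw [Complex.norm_real, Real.norm_of_nonneg ArithmeticFunction.vonMangoldt_nonneg]
          refine pow_le_pow_left₀ ArithmeticFunction.vonMangoldt_nonneg ?_ 2
          refine (ArithmeticFunction.vonMangoldt_le_log).trans (le_trans ?_ hMl)
          apply Real.log_le_log (by exact_mod_cast (by omega : 0 < m))
          exact_mod_cast hm.2
      _ = M * (2 * L) ^ 2 := by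
          rw [Finset.sum_const, Nat.card_Ioc, nsmul_eq_mul]
          congr 2
          omega
      _ ≤ M * L ^ 6 := by
          apply mul_le_mul_of_nonneg_left _ hM0.le
          have g1 : L ^ 3 ≤ L ^ 6 := pow_le_pow_right₀ (by linarith) (by norm_num)
          have g2 : (2 * L) ^ 2 ≤ L ^ 3 := by
            have : 0 < L ^ 2 := by positivity
            nlinarith
          linarith
  · calc ∑ n ∈ Ioc N (2 * N), ‖(e n : ℂ)‖ ^ 2
        ≤ ∑ n ∈ Ioc N (2 * N), ((n.divisors.card : ℝ)) ^ 2 := by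
          refine Finset.sum_le_sum fun n _ => ?_
          rw [Complex.norm_real, Real.norm_eq_abs]
          exact pow_le_pow_left₀ (abs_nonneg _) (he n) 2
      _ ≤ ∑ n ∈ Icc 1 (2 * N), ((n.divisors.card : ℝ)) ^ 2 := by
          refine Finset.sum_le_sum_of_subset_of_nonneg ?_ fun _ _ _ => sq_nonneg _
          intro n hn
          rw [Finset.mem_Ioc] at hn
          rw [Finset.mem_Icc]
          omega
      _ ≤ ((2 * N : ℕ) : ℝ) * (1 + Real.log ((2 * N : ℕ) : ℝ)) ^ 3 :=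
          Pool.Agent.MP89da58.sum_tau_sq _
      _ ≤ ((2 * N : ℕ) : ℝ) * (3 * L) ^ 3 := by
          apply mul_le_mul_of_nonneg_left _ (Nat.cast_nonneg _)
          have h0 : 0 ≤ Real.log ((2 * N : ℕ) : ℝ) := Real.log_natCast_nonneg _
          apply pow_le_pow_left₀ (by linarith)
          push_cast
          linarith
      _ = N * (54 * L ^ 3) := by
          push_cast
          ring
      _ ≤ N * L ^ 6 := by
          apply mul_le_mul_of_nonneg_left _ hN0.le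
          have g1 : L ^ 4 ≤ L ^ 6 := pow_le_pow_right₀ (by linarith) (by norm_num)
          have g2 : 54 * L ^ 3 ≤ L ^ 4 := by
            have : 0 < L ^ 3 := by positivity
            nlinarith
          linarith

private theorem gc_La_log (k : ℕ) : ∀ᶠ X : ℝ in atTop,
    (Real.log X) ^ k ≤ X ^ (1 / 110 : ℝ) := by
  have h := isLittleO_log_rpow_rpow_atTop (s := (1 / 110 : ℝ)) (k : ℝ) (by norm_num)
  have h2 := h.bound (show (0 : ℝ) < 1 by norm_num)
  filter_upwards [h2, eventually_ge_atTop 1] with X hX h1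
  have hl : 0 ≤ Real.log X := Real.log_nonneg h1
  rw [one_mul, Real.rpow_natCast, Real.norm_of_nonneg (pow_nonneg hl _),
    Real.norm_of_nonneg (Real.rpow_nonneg (by linarith) _)] at hX
  exact hX

/-- The type I part. -/
private theorem gc_La_typeI (Q a U Y : ℕ) (P : ℕ → ℂ) (L D : ℝ) (c dd : ℕ → ℝ)
    (hD : ∀ M : ℕ, 1 ≤ M → M ≤ U * U → ∀ v : ℕ → ℕ, (∀ m ∈ Icc 1 M, v m ≤ Y / m) →
      ∑ m ∈ Icc 1 M, ‖∑ l ∈ (Icc 1 (v m)).filter (fun l => m * l ≡ a [MOD Q]), P (m * l)‖ ≤ D)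
    (hL : 1 ≤ L) (hU1 : 1 ≤ U) (hD0 : 0 ≤ D)
    (hlY : Real.log Y ≤ 2 * L) (hlU : Real.log ((U * U : ℕ) : ℝ) ≤ L)
    (hc1 : ∀ n, |c n| ≤ 1) (hc0 : ∀ n, U < n → c n = 0)
    (hd1 : ∀ n, 1 ≤ n → |dd n| ≤ Real.log n) (hd0 : ∀ n, U * U < n → dd n = 0) :
    ‖∑ m ∈ Icc 1 Y, ∑ n ∈ Icc 1 Y, (c m : ℂ) * (Real.log n : ℂ) * gcLaW U Y Q a P (m * n)‖
      ≤ 8 * L * D ∧
    ‖∑ m ∈ Icc 1 Y, ∑ n ∈ Icc 1 Y, (dd m : ℂ) * gcLaW U Y Q a P (m * n)‖
      ≤ 2 * L * D := by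
  have hL0 : 0 < L := by linarith
  have hUU : U ≤ U * U := Nat.le_mul_of_pos_right U hU1
  constructor
  · have e1 : ∑ m ∈ Icc 1 Y, ∑ n ∈ Icc 1 Y,
        (c m : ℂ) * (Real.log n : ℂ) * gcLaW U Y Q a P (m * n)
        = ∑ m ∈ Icc 1 Y, (c m : ℂ) * ∑ n ∈ Ioc (U / m) (Y / m),
          ((Real.log (n : ℕ) : ℝ) : ℂ) * gcLaG Q a P m n := by
      refine Finset.sum_congr rfl fun m hm => ?_
      rw [Finset.mem_Icc] at hm
      rw [← gc_La_inner U Y Q a m P (fun n => ((Real.log (n : ℕ) : ℝ) : ℂ)) hm.1, Finset.mul_sum]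
      refine Finset.sum_congr rfl fun n _ => ?_
      ring
    rw [e1]
    refine (gc_La_sum Y U c _ 1 (fun m _ _ => hc1 m) hc0).trans ?_
    rw [one_mul]
    refine (gc_La_t1 Q a U Y U P D (hD U hU1 hUU)).2.trans ?_
    calc 2 * Real.log Y * (2 * D) ≤ 2 * (2 * L) * (2 * D) := by
          apply mul_le_mul_of_nonneg_right _ (by positivity)
          linarith
      _ = 8 * L * D := by ring
  · have e1 : ∑ m ∈ Icc 1 Y, ∑ n ∈ Icc 1 Y, (dd m : ℂ) * gcLaW U Y Q a P (m * n)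
        = ∑ m ∈ Icc 1 Y, (dd m : ℂ) * ∑ n ∈ Ioc (U / m) (Y / m), gcLaG Q a P m n := by
      refine Finset.sum_congr rfl fun m hm => ?_
      rw [Finset.mem_Icc] at hm
      have := gc_La_inner U Y Q a m P (fun _ => 1) hm.1
      simp only [one_mul] at this
      rw [← this, Finset.mul_sum]
    rw [e1]
    refine (gc_La_sum Y (U * U) dd _ L (fun m hm1 hm2 => (hd1 m hm1).trans ?_) hd0).trans ?_
    · refine le_trans (Real.log_le_log (by exact_mod_cast hm1) ?_) hlU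
      exact_mod_cast hm2
    · have h1 := (gc_La_t1 Q a (U * U) Y U P D (hD (U * U) (hU1.trans hUU) le_rfl)).1
      calc _ ≤ L * (2 * D) := mul_le_mul_of_nonneg_left h1 hL0.le
        _ = 2 * L * D := by ring

/-- The type II part. -/
private theorem gc_La_typeII (f : ℝ[X]) (Q a U Y : ℕ) (X L D : ℝ) (e : ℕ → ℝ)
    (ht2 : ∀ (M N : ℕ) (α β : ℕ → ℂ), U ≤ M → U ≤ N → ((M * N : ℕ) : ℝ) ≤ 2 * X →
      ∑ m ∈ Ioc M (2 * M), ‖α m‖ ^ 2 ≤ M * L ^ 6 →
      ∑ l ∈ Ioc N (2 * N), ‖β l‖ ^ 2 ≤ N * L ^ 6 → ‖BS f Q a M N Y α β‖ ≤ D)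
    (hD0 : 0 ≤ D) (hX : 0 < X) (hY1 : 1 ≤ Y) (hY : (Y : ℝ) ≤ 2 * X)
    (he : ∀ n, |e n| ≤ n.divisors.card) (he0 : ∀ n, n ≤ U → e n = 0)
    (hL : 1000000 ≤ L) (hLX : L = Real.log X) (hU1 : 1 ≤ U) :
    ‖∑ m ∈ Icc 1 Y, ∑ n ∈ Icc 1 Y,
      ((if U < m then vonMangoldt m else 0 : ℝ) : ℂ) * (e n : ℂ) *
        gcLaW U Y Q a (fun t => ex (f.eval (t : ℝ))) (m * n)‖ ≤ 16 * L ^ 2 * D := by
  have hL0 : 0 < L := by linarith
  set I : ℕ := Nat.log 2 Y + 1 with hI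
  have hI2 : Y < 2 ^ I := Nat.lt_pow_succ_log_self (by norm_num) Y
  have hlog2X : Real.log (2 * (2 * X)) ≤ 2 * L := by
    rw [← mul_assoc, Real.log_mul (by norm_num) hX.ne', ← hLX]
    have : Real.log (2 * 2) ≤ 2 * 2 - 1 := Real.log_le_sub_one_of_pos (by norm_num)
    linarith
  have hI4 : (I : ℝ) ≤ 4 * L := by
    have h1 : 2 ^ (Nat.log 2 Y) ≤ Y := Nat.pow_log_le_self 2 (by omega)
    have h2 : ((2 : ℝ)) ^ (Nat.log 2 Y) ≤ (Y : ℝ) := by exact_mod_cast h1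
    have h3 : ((2 : ℝ)) ^ (Nat.log 2 Y) ≤ 2 * (2 * X) := by linarith
    have h4 := Real.log_le_log (by positivity) h3
    rw [Real.log_pow] at h4
    have h5 := Real.log_two_gt_d9
    have h6 : (0 : ℝ) ≤ ((Nat.log 2 Y : ℕ) : ℝ) := Nat.cast_nonneg _
    have h7 : ((Nat.log 2 Y : ℕ) : ℝ) * (0.6 : ℝ) ≤ 2 * L := by
      refine le_trans ?_ (h4.trans hlog2X)
      exact mul_le_mul_of_nonneg_left (by linarith) h6
    rw [hI]
    push_cast
    linarith
  rw [gc_La_dya U U Y I _ hU1 hU1 hI2]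
  · have hblk : ∀ p ∈ range I ×ˢ range I,
        ‖∑ m ∈ Ioc (2 ^ p.1 * U) (2 * (2 ^ p.1 * U)), ∑ n ∈ Ioc (2 ^ p.2 * U) (2 * (2 ^ p.2 * U)),
          ((if U < m then vonMangoldt m else 0 : ℝ) : ℂ) * (e n : ℂ) *
          gcLaW U Y Q a (fun t => ex (f.eval (t : ℝ))) (m * n)‖ ≤ D := by
      rintro ⟨i, k⟩ _
      simp only
      have hi : 1 ≤ 2 ^ i := Nat.one_le_two_pow
      have hk : 1 ≤ 2 ^ k := Nat.one_le_two_pow
      have hUM : U ≤ 2 ^ i * U := by
        have := Nat.mul_le_mul_right U hi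
        rwa [one_mul] at this
      have hUN : U ≤ 2 ^ k * U := by
        have := Nat.mul_le_mul_right U hk
        rwa [one_mul] at this
      generalize 2 ^ i * U = M at hUM ⊢
      generalize 2 ^ k * U = N at hUN ⊢
      by_cases hMN : M * N ≤ Y
      · have hMN' : ((M * N : ℕ) : ℝ) ≤ 2 * X := by
          refine le_trans ?_ hY
          exact_mod_cast hMN
        have hM1 : 1 ≤ M := hU1.trans hUM
        have hN1 : 1 ≤ N := hU1.trans hUN
        have hM2 : (M : ℝ) ≤ 2 * X := by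
          refine le_trans ?_ hMN'
          exact_mod_cast Nat.le_mul_of_pos_right M hN1
        have hN2 : (N : ℝ) ≤ 2 * X := by
          refine le_trans ?_ hMN'
          exact_mod_cast Nat.le_mul_of_pos_left N hM1
        have hM0 : (0 : ℝ) < M := by exact_mod_cast hM1
        have hN0 : (0 : ℝ) < N := by exact_mod_cast hN1
        exact gc_La_block f Q a M N U Y X L D e (fun α β => ht2 M N α β hUM hUN hMN') he hL
          hU1 hN1 hUM
          ((Real.log_le_log (by positivity) (by linarith)).trans hlog2X)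
          ((Real.log_le_log (by positivity) (by linarith)).trans hlog2X)
      · refine le_trans (le_of_eq ?_) hD0
        rw [norm_eq_zero]
        refine Finset.sum_eq_zero fun m hm => Finset.sum_eq_zero fun n hn => ?_
        rw [Finset.mem_Ioc] at hm hn
        have hw : gcLaW U Y Q a (fun t => ex (f.eval (t : ℝ))) (m * n) = 0 := by
          unfold gcLaW
          rw [if_neg]
          rintro ⟨-, h2, -⟩
          apply hMN
          exact (Nat.mul_le_mul hm.1.le hn.1.le).trans h2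
        rw [hw, mul_zero]
    refine (norm_sum_le _ _).trans ((Finset.sum_le_sum hblk).trans ?_)
    rw [Finset.sum_const, Finset.card_product, Finset.card_range, nsmul_eq_mul]
    have h1 : ((I * I : ℕ) : ℝ) ≤ 16 * L ^ 2 := by
      push_cast
      calc (I : ℝ) * I ≤ (4 * L) * (4 * L) :=
            mul_le_mul hI4 hI4 (Nat.cast_nonneg _) (by positivity)
        _ = 16 * L ^ 2 := by ring
    exact mul_le_mul_of_nonneg_right h1 hD0
  · intro m n hm hn hne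
    have h1 : U < m := by
      by_contra h
      apply hne
      rw [if_neg h]
      simp
    have h2 : U < n := by
      by_contra h
      apply hne
      rw [he0 n (not_lt.1 h)]
      simp
    refine ⟨h1, h2, ?_⟩
    by_contra h3
    apply hne
    have hw : gcLaW U Y Q a (fun t => ex (f.eval (t : ℝ))) (m * n) = 0 := by
      unfold gcLaW
      rw [if_neg]
      rintro ⟨-, h4, -⟩
      exact h3 h4
    rw [hw, mul_zero]

/-- The small `t`. -/
private theorem gc_La_small (U Y Q a : ℕ) (P : ℕ → ℂ) (L : ℝ) (hP : ∀ t, ‖P t‖ ≤ 1)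
    (hL : Real.log U ≤ L) :
    ‖∑ t ∈ Icc 1 Y, (vonMangoldt t : ℂ) *
      (if t ≤ U ∧ t ≡ a [MOD Q] then P t else 0)‖ ≤ U * L := by
  have hL0 : 0 ≤ L := le_trans (Real.log_natCast_nonneg U) hL
  have hr : ∑ t ∈ Icc 1 Y, (vonMangoldt t : ℂ) *
      (if t ≤ U ∧ t ≡ a [MOD Q] then P t else 0)
      = ∑ t ∈ (Icc 1 Y).filter (fun t => t ≤ U), (vonMangoldt t : ℂ) *
      (if t ≤ U ∧ t ≡ a [MOD Q] then P t else 0) := by
    rw [Finset.sum_filter]
    refine Finset.sum_congr rfl fun t _ => ?_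
    by_cases h : t ≤ U
    · rw [if_pos h]
    · rw [if_neg h, if_neg (fun h2 => h h2.1), mul_zero]
  rw [hr]
  refine (norm_sum_le _ _).trans ?_
  have hs : (Icc 1 Y).filter (fun t => t ≤ U) ⊆ Icc 1 U := by
    intro m hm
    rw [Finset.mem_filter, Finset.mem_Icc] at hm
    exact Finset.mem_Icc.2 ⟨hm.1.1, hm.2⟩
  refine (Finset.sum_le_sum_of_subset_of_nonneg hs fun _ _ _ => norm_nonneg _).trans ?_
  calc ∑ t ∈ Icc 1 U, ‖(vonMangoldt t : ℂ) *
      (if t ≤ U ∧ t ≡ a [MOD Q] then P t else 0)‖ ≤ ∑ t ∈ Icc 1 U, L := by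
        refine Finset.sum_le_sum fun t ht => ?_
        rw [Finset.mem_Icc] at ht
        rw [norm_mul, Complex.norm_real, Real.norm_of_nonneg ArithmeticFunction.vonMangoldt_nonneg]
        have h1 : vonMangoldt t ≤ L := by
          refine (ArithmeticFunction.vonMangoldt_le_log).trans (le_trans ?_ hL)
          exact Real.log_le_log (by exact_mod_cast ht.1) (by exact_mod_cast ht.2)
        have h2 : ‖(if t ≤ U ∧ t ≡ a [MOD Q] then P t else 0 : ℂ)‖ ≤ 1 := by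
          split_ifs
          · exact hP t
          · simp
        calc _ ≤ L * 1 := mul_le_mul h1 h2 (norm_nonneg _) hL0
          _ = L := mul_one _
    _ = U * L := by
        rw [Finset.sum_const, Nat.card_Icc, nsmul_eq_mul]
        simp

private theorem gc_La_maj (d B1 B : ℕ) (X : ℝ) (Q : ℕ) (f : ℝ[X]) (hB : B1 ≤ B)
    (hX : 0 < X) (hL : 1 ≤ Real.log X) (h : Maj d B1 X Q f) : Maj d B X Q f := by
  obtain ⟨m, hm, b, hb⟩ := h
  have hp : (Real.log X) ^ B1 ≤ (Real.log X) ^ B := pow_le_pow_right₀ hL hB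
  refine ⟨m, ?_, b, hb.trans ?_⟩
  · rw [Finset.mem_Icc] at hm ⊢
    exact ⟨hm.1, hm.2.trans (Nat.floor_mono hp)⟩
  · exact div_le_div_of_nonneg_right hp (by positivity)

theorem p_La : S_La := by
  intro ht1 ht2 hvau d A hd
  obtain ⟨B1, hB1⟩ := ht1 d (A + 4) hd
  obtain ⟨B2, hB2⟩ := ht2 d (A + 4) hd
  refine ⟨max B1 B2, ?_⟩
  filter_upwards [hB1, hB2, gc_La_log (A + 10), Real.tendsto_log_atTop.eventually_ge_atTop 1000000,
    eventually_ge_atTop 1] with X hB1X hB2X hXy hXL hX1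
  intro Q a Y f hQ hQX haQ hf hY
  by_cases hmaj : Maj d (max B1 B2) X Q f
  · exact Or.inr hmaj
  left
  set L : ℝ := Real.log X with hLdef
  set y : ℝ := X ^ (1 / 110 : ℝ) with hy
  have hX0 : 0 < X := by linarith
  have hL0 : 0 < L := by linarith
  have hL1 : 1 ≤ L := by linarith
  have hm1 : ¬ Maj d B1 X Q f := fun h =>
    hmaj (gc_La_maj d B1 _ X Q f (le_max_left _ _) hX0 hL1 h)
  have hm2 : ¬ Maj d B2 X Q f := fun h =>
    hmaj (gc_La_maj d B2 _ X Q f (le_max_right _ _) hX0 hL1 h)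
  have hd0 : (0 : ℝ) < Q := by exact_mod_cast hQ
  have hd1 : (1 : ℝ) ≤ Q := by exact_mod_cast hQ
  have hyX : y ^ 110 = X := by
    rw [hy, ← Real.rpow_natCast, ← Real.rpow_mul hX0.le]
    norm_num
  have hyL : ∀ k : ℕ, k ≤ A + 10 → L ^ k ≤ y := fun k hk =>
    (pow_le_pow_right₀ hL1 hk).trans hXy
  have hy6 : 1000000 ≤ y := by
    have := hyL 1 (by omega)
    rw [pow_one] at this
    linarith
  have hy1 : 1 ≤ y := by linarith
  have hy0 : 0 < y := by linarith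
  have hQy : (Q : ℝ) ≤ y := by
    refine hQX.trans ?_
    rw [hy]
    exact Real.rpow_le_rpow_of_exponent_le hX1 (by norm_num)
  have hR0 : 0 ≤ X / Q / L ^ A := by positivity
  -- Y
  by_cases hY0 : Y = 0
  · subst hY0
    simpa using hR0
  have hY1 : 1 ≤ Y := Nat.pos_of_ne_zero hY0
  -- U
  obtain ⟨U, hU⟩ : ∃ U : ℕ, U = ⌊y ^ 11⌋₊ := ⟨_, rfl⟩
  have hUle : (U : ℝ) ≤ y ^ 11 := by
    rw [hU]
    exact Nat.floor_le (by positivity)
  have hy10 : y ≤ y ^ 11 := by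
    calc y = y ^ 1 := (pow_one y).symm
      _ ≤ y ^ 11 := pow_le_pow_right₀ hy1 (by norm_num)
  have hUge : y ^ 11 / 2 ≤ U := by
    have := Nat.lt_floor_add_one (y ^ 11)
    rw [← hU] at this
    linarith
  have hU1 : 1 ≤ U := by
    have : (1 : ℝ) ≤ U := by linarith
    exact_mod_cast this
  have hU10 : X ^ (1 / 11 : ℝ) ≤ U := by
    have h1 : X ^ (1 / 11 : ℝ) = y ^ 10 := by
      rw [hy, ← Real.rpow_natCast, ← Real.rpow_mul hX0.le]
      norm_num
    rw [h1]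
    refine le_trans ?_ hUge
    have h2 : 0 < y ^ 10 := by positivity
    have h3 : y ^ 11 = y * y ^ 10 := by ring
    rw [h3]
    nlinarith
  have hUU : ((U * U : ℕ) : ℝ) ≤ y ^ 22 := by
    push_cast
    calc (U : ℝ) * U ≤ y ^ 11 * y ^ 11 := mul_le_mul hUle hUle (Nat.cast_nonneg _) (by positivity)
      _ = y ^ 22 := by ring
  have hX5 : X ^ (1 / 5 : ℝ) = y ^ 22 := by
    rw [hy, ← Real.rpow_natCast, ← Real.rpow_mul hX0.le]
    norm_num
  have hlY : Real.log Y ≤ 2 * L := by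
    have h1 : Real.log Y ≤ Real.log (2 * X) := Real.log_le_log (by exact_mod_cast hY1) hY
    rw [Real.log_mul (by norm_num) hX0.ne'] at h1
    have : Real.log 2 ≤ 2 - 1 := Real.log_le_sub_one_of_pos (by norm_num)
    linarith
  have hy20 : y ^ 22 ≤ X := by
    rw [← hyX]
    exact pow_le_pow_right₀ hy1 (by norm_num)
  have hlUU : Real.log ((U * U : ℕ) : ℝ) ≤ L := by
    apply Real.log_le_log
    · exact_mod_cast Nat.mul_pos hU1 hU1
    · exact hUU.trans hy20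
  have hlU : Real.log U ≤ L := by
    refine le_trans (Real.log_le_log (by exact_mod_cast hU1) ?_) hlUU
    exact_mod_cast Nat.le_mul_of_pos_right U hU1
  -- D
  set D : ℝ := X / Q / L ^ (A + 4) with hDdef
  have hD0 : 0 ≤ D := by positivity
  obtain ⟨c, dd, e, hc1, hc0, hdd1, hdd0, he1, he0, hid⟩ := hvau U U Y
  have hid2 := hid (gcLaW U Y Q a (fun t => ex (f.eval (t : ℝ)))) (fun n hn => by
      unfold gcLaW
      rw [if_neg]
      rintro ⟨h1, -⟩
      omega) (fun n hn => by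
      unfold gcLaW
      rw [if_neg]
      rintro ⟨-, h1, -⟩
      omega)
  have hsplit : ∑ t ∈ (Icc 1 Y).filter (fun t => t ≡ a [MOD Q]),
      (vonMangoldt t : ℂ) * ex (f.eval (t : ℝ))
      = ∑ t ∈ Icc 1 Y, (vonMangoldt t : ℂ) * gcLaW U Y Q a (fun t => ex (f.eval (t : ℝ))) t +
        ∑ t ∈ Icc 1 Y, (vonMangoldt t : ℂ) *
          (if t ≤ U ∧ t ≡ a [MOD Q] then ex (f.eval (t : ℝ)) else 0) := by
    rw [Finset.sum_filter, ← Finset.sum_add_distrib]
    refine Finset.sum_congr rfl fun t ht => ?_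
    rw [Finset.mem_Icc] at ht
    unfold gcLaW
    by_cases h1 : t ≡ a [MOD Q]
    · rw [if_pos h1]
      by_cases h2 : t ≤ U
      · rw [if_neg (fun h3 => by omega), if_pos ⟨h2, h1⟩]
        simp
      · rw [if_pos ⟨by omega, ht.2, h1⟩, if_neg (fun h3 => h2 h3.1)]
        simp
    · rw [if_neg h1, if_neg (fun h3 => h1 h3.2.2), if_neg (fun h3 => h1 h3.2)]
      simp
  obtain ⟨hT1, hT2⟩ := gc_La_typeI Q a U Y (fun t => ex (f.eval (t : ℝ))) L D c dd
    (by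
      intro M hM1 hM v hv
      rcases hB1X Q a M f v hQ hQX haQ hf (by
          rw [hX5]
          refine le_trans ?_ hUU
          exact_mod_cast hM) (by
          intro m hm
          have h2 : ((v m : ℕ) : ℝ) ≤ ((Y / m : ℕ) : ℝ) := by exact_mod_cast hv m hm
          have h3 : ((Y / m : ℕ) : ℝ) ≤ Y / m := Nat.cast_div_le
          refine (h2.trans h3).trans ?_
          exact div_le_div_of_nonneg_right hY (Nat.cast_nonneg _)) with h | h
      · exact h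
      · exact absurd h hm1)
    hL1 hU1 hD0 hlY hlUU hc1 hc0 hdd1 hdd0
  have hT3 := gc_La_typeII f Q a U Y X L D e
    (by
      intro M N α β hUM hUN hMN hα hβ
      rcases hB2X Q a M N Y f α β hQ hQX haQ hf
        (hU10.trans (by exact_mod_cast hUM)) (hU10.trans (by exact_mod_cast hUN)) hMN hα hβ
        with h | h
      · exact h
      · exact absurd h hm2)
    hD0 hX0 hY1 hY he1 he0 hXL rfl hU1
  have hT4 := gc_La_small U Y Q a (fun t => ex (f.eval (t : ℝ))) L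
    (fun t => (gc_La_nex _).le) hlU
  rw [hsplit, hid2]
  refine (norm_add_le _ _).trans ?_
  refine (add_le_add ((norm_add_le _ _).trans (add_le_add ((norm_sub_le _ _).trans
    (add_le_add hT1 hT2)) hT3)) hT4).trans ?_
  have hDL : D * L ^ 4 = X / Q / L ^ A := by
    rw [hDdef, pow_add]
    field_simp
  have b1 : 8 * L * D + 2 * L * D + 16 * L ^ 2 * D ≤ X / Q / L ^ A * (1 / 2) := by
    have h2 : 52 * L ^ 2 ≤ L ^ 4 := by
      calc 52 * L ^ 2 ≤ L * L ^ 2 := mul_le_mul_of_nonneg_right (by linarith) (by positivity)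
        _ = L ^ 3 := by ring
        _ ≤ L ^ 4 := pow_le_pow_right₀ hL1 (by omega)
    have h4 : L ≤ L ^ 2 := by
      calc L = L ^ 1 := (pow_one L).symm
        _ ≤ L ^ 2 := pow_le_pow_right₀ hL1 (by norm_num)
    have h5 : 8 * L + 2 * L + 16 * L ^ 2 ≤ L ^ 4 * (1 / 2) := by linarith
    have h3 := mul_le_mul_of_nonneg_left h5 hD0
    rw [← hDL]
    linarith
  have b2 : (U : ℝ) * L ≤ X / Q / L ^ A * (1 / 2) := by
    rw [div_div, div_mul_div_comm, mul_one, le_div_iff₀ (by positivity)]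
    have h1 : 2 * L ^ (A + 1) ≤ y := by
      refine le_trans ?_ (hyL (A + 2) (by omega))
      calc 2 * L ^ (A + 1) ≤ L * L ^ (A + 1) :=
            mul_le_mul_of_nonneg_right (by linarith) (by positivity)
        _ = L ^ (A + 2) := by ring
    calc (U : ℝ) * L * (Q * L ^ A * 2) = U * Q * (2 * L ^ (A + 1)) := by ring
      _ ≤ y ^ 11 * y * y := by
          apply mul_le_mul (mul_le_mul hUle hQy hd0.le (by positivity)) h1 (by positivity)
            (by positivity)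
      _ = y ^ 13 := by ring
      _ ≤ y ^ 110 := pow_le_pow_right₀ hy1 (by norm_num)
      _ = X := hyX
  linarith

end Pool.Agent.HC.W
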