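import Pool.Agent.Lib.MP_0da313_nt.HC.M

set_option autoImplicit false

/-!
[HS T4]: the lower bound for the sum with two prime members, from the model sum and the expansion of
the error.
-/

namespace Pool.Agent.HC.M

open Finset Filter Polynomial
open Pool.Agent.MP89da58 (bil pw nn supp part kapD tri)
open Pool.Agent.MT (PJf dvI ZI)
open Pool.Agent.BVall (om rhoW PK lev RepB Dens)
open Pool.Agent.Lib.MP_0da313_nt (W)
open Pool.Agent.CH (thP)
open Pool.Agent.CM (wd z0)
open Pool.Agent.CM.F (Pre)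
open Pool.Agent.TC (Lw wN)
open Pool.Agent.NC (Hn Bn)
open Pool.Agent.NC.Q (qr)
open Pool.Agent.NC.A (Par3 sl)
open Pool.Agent.NC.M (mN)
open Pool.Agent.HC (Fam2 ErS2 DN2 rp2 Wt4 r4)

private theorem hs_T4_thP_nonneg (m : ℕ) : 0 ≤ thP m := by
  unfold thP
  split_ifs
  · exact Real.log_natCast_nonneg m
  · exact le_refl _

private theorem hs_T4_wh_nonneg {ι : Type} [Fintype ι] [DecidableEq ι] {D d E : ℕ}
    (F : NC.Fam ι D d E) (N x : ℕ) : 0 ≤ F.wh N x := by
  unfold NC.Fam.wh wd tri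
  exact le_max_left _ _

theorem p_T4 : S_T4 := by
  classical
  intro _ hpw hmd hex
  intro ι κ _ _ _ _ D d E H B0 B B1 A hD hB0 hB1
  filter_upwards [hpw ι κ D d E H B0 B1 hD hB0 hB1,
    hmd ι κ D d E H B0 B B1 A hD hB0 hB1, hex ι κ D d E H B0 B B1 hD hB0 hB1]
    with N h2 h3 h4
  intro n hn n' P hP Fp Fm hpre l j g hg hgl hqr hsl
  obtain ⟨-, h2'⟩ := h2 n hn n' P hP
  have h2'' := h2' Fp Fm hpre l j
  have h3' := h3 n hn n' P hP Fp Fm hpre l j g hg hgl hqr hsl
  have h4' := h4 n hn n' P hP Fm hpre.rm l j g hg hgl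
  -- pointwise
  have key : ∀ x ∈ Icc 1 (Hn d N), H.F.wh N x * (thP (H.M j x).toNat *
      (thP (H.F.L n l x).toNat *
      (Fm (r4 H n (wN B1 N) (z0 D n') l j x) * ZI (DN2 H P n) g x ^ 2))) ≤
      if H.F.Rg n (z0 D n') x then
        H.F.wh N x * (thP (H.F.L n l x).toNat * thP (H.M j x).toNat *
          ZI (DN2 H P n) g x ^ 2) else 0 := by
    intro x hx
    have hx1 : 1 ≤ x := (Finset.mem_Icc.mp hx).1
    have hM := hs_T4_thP_nonneg (H.M j x).toNat
    have hR : 0 ≤ if H.F.Rg n (z0 D n') x then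
        H.F.wh N x * (thP (H.F.L n l x).toNat * thP (H.M j x).toNat *
          ZI (DN2 H P n) g x ^ 2) else 0 := by
      split_ifs
      · exact mul_nonneg (hs_T4_wh_nonneg H.F N x)
          (mul_nonneg (mul_nonneg (hs_T4_thP_nonneg _) hM) (sq_nonneg _))
      · exact le_refl _
    by_cases hs : H.F.wh N x = 0
    · refine le_trans (le_of_eq ?_) hR
      rw [hs, zero_mul]
    by_cases hm0 : thP (H.M j x).toNat = 0
    · refine le_trans (le_of_eq ?_) hR
      rw [hm0, zero_mul, mul_zero]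
    · have h5 := (h2'' x hx1 hs hm0).2
      have e : H.F.wh N x * (thP (H.M j x).toNat * (thP (H.F.L n l x).toNat *
          (Fm (r4 H n (wN B1 N) (z0 D n') l j x) * ZI (DN2 H P n) g x ^ 2))) =
          H.F.wh N x * ((thP (H.F.L n l x).toNat * Fm (r4 H n (wN B1 N) (z0 D n') l j x)) *
            (thP (H.M j x).toNat * ZI (DN2 H P n) g x ^ 2)) := by ring
      rw [e]
      have hMZ : 0 ≤ thP (H.M j x).toNat * ZI (DN2 H P n) g x ^ 2 :=
        mul_nonneg hM (sq_nonneg _)
      by_cases hRg : H.F.Rg n (z0 D n') x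
      · rw [if_pos hRg]
        rw [if_pos hRg] at h5
        have e2 : H.F.wh N x * (thP (H.F.L n l x).toNat * thP (H.M j x).toNat *
            ZI (DN2 H P n) g x ^ 2) =
            H.F.wh N x * (thP (H.F.L n l x).toNat *
              (thP (H.M j x).toNat * ZI (DN2 H P n) g x ^ 2)) := by ring
        rw [e2]
        exact mul_le_mul_of_nonneg_left (mul_le_mul_of_nonneg_right h5 hMZ)
          (hs_T4_wh_nonneg H.F N x)
      · rw [if_neg hRg]
        rw [if_neg hRg] at h5
        exact mul_nonpos_of_nonneg_of_nonpos (hs_T4_wh_nonneg H.F N x)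
          (mul_nonpos_of_nonpos_of_nonneg h5 hMZ)
  have hsum := Finset.sum_le_sum key
  rw [← Finset.sum_filter] at hsum
  have hsplit : ∑ x ∈ Icc 1 (Hn d N), H.F.wh N x * (thP (H.M j x).toNat *
      (thP (H.F.L n l x).toNat *
      (Fm (r4 H n (wN B1 N) (z0 D n') l j x) * ZI (DN2 H P n) g x ^ 2))) =
      ∑ x ∈ Icc 1 (Hn d N), H.F.wh N x * (thP (H.M j x).toNat *
        (Lw (wN B1 N) (H.F.L n l x).toNat *
        (Fm (r4 H n (wN B1 N) (z0 D n') l j x) * ZI (DN2 H P n) g x ^ 2))) +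
      ∑ x ∈ Icc 1 (Hn d N), H.F.wh N x * (thP (H.M j x).toNat *
        ((thP (H.F.L n l x).toNat - Lw (wN B1 N) (H.F.L n l x).toNat) *
        (Fm (r4 H n (wN B1 N) (z0 D n') l j x) * ZI (DN2 H P n) g x ^ 2))) := by
    rw [← Finset.sum_add_distrib]
    refine Finset.sum_congr rfl fun x _ => ?_
    ring
  rw [hsplit] at hsum
  have h7 := (abs_le.1 h4').1
  refine le_trans ?_ hsum
  linarith

end Pool.Agent.HC.M
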