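import Pool.Agent.Lib.MP_0da313_nt.HC.M
import Pool.Agent.Lib.MP_0da313_nt.MT.Mertens
import Pool.Agent.Lib.MP_89da58_nt.BvW

set_option autoImplicit false

/-!
[HC U1]: the upper bound for the sum with the nonlinear prime member.
-/

namespace Pool.Agent.HC.M

open Finset Filter Polynomial
open Pool.Agent.MP89da58 (bil pw nn supp part kapD tri sum_omega_le)
open Pool.Agent.MT (PJf dvI ZI mertens kapD_pos)
open Pool.Agent.BVall (om rhoW PK lev RepB Dens mem_PK)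
open Pool.Agent.Lib.MP_0da313_nt (W)
open Pool.Agent.CH (thP)
open Pool.Agent.CM (wd z0 er sT)
open Pool.Agent.CM.F (Pre)
open Pool.Agent.TC (Lw wN)
open Pool.Agent.TC.W (qf)
open Pool.Agent.NC (Hn Bn ErS)
open Pool.Agent.NC.Q (prr nu qr od)
open Pool.Agent.NC.A (Par3 sl)
open Pool.Agent.NC.M (mN Q3 r3 d3)
open Pool.Agent.HC (Fam2 ErS2 Cm2 DN2 rn2 rp2 Wt4 Q4 r4 d4 Sj ph)

/-- `1 / kapD w ≤ log n`. -/
private lemma hs_U1_kap (B1 : ℕ) : ∀ᶠ N : ℕ in atTop, 2 ≤ wN B1 N →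
    (kapD (wN B1 N))⁻¹ ≤ Real.log N := by
  have hlog : Tendsto (fun n : ℕ => Real.log n) atTop atTop :=
    Real.tendsto_log_atTop.comp tendsto_natCast_atTop_atTop
  have h1 : ∀ᶠ x : ℝ in atTop, ‖Real.log x‖ ≤ (1 / (1000 * (B1 : ℝ) + 1)) * ‖x‖ :=
    Real.isLittleO_log_id_atTop.bound (by positivity)
  filter_upwards [hlog.eventually h1, hlog.eventually_ge_atTop 1] with N hN hL hw
  set L := Real.log N with hLdef
  have hL0 : 0 < L := by linarith
  have hlL : 0 ≤ Real.log L := Real.log_nonneg hL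
  rw [Real.norm_of_nonneg hlL, Real.norm_of_nonneg hL0.le] at hN
  have hm := mertens (wN B1 N) hw
  have hκ := kapD_pos (wN B1 N)
  have hw0 : (0 : ℝ) < (wN B1 N : ℝ) := by
    have : 0 < wN B1 N := by omega
    exact_mod_cast this
  have hwle : (wN B1 N : ℝ) ≤ L ^ B1 := Nat.floor_le (by positivity)
  have hlw : Real.log (wN B1 N : ℝ) ≤ B1 * Real.log L := by
    have h2 := Real.log_le_log hw0 hwle
    rwa [Real.log_pow] at h2
  have h3 : (kapD (wN B1 N))⁻¹ ≤ 1000 * Real.log (wN B1 N) := by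
    rw [inv_le_iff_one_le_mul₀ hκ]
    linarith
  have h4 : (1000 * (B1 : ℝ) + 1) * Real.log L ≤ L := by
    have h5 := mul_le_mul_of_nonneg_left hN (show (0 : ℝ) ≤ 1000 * (B1 : ℝ) + 1 by positivity)
    have h6 : (1000 * (B1 : ℝ) + 1) * ((1 / (1000 * (B1 : ℝ) + 1)) * L) = L := by
      field_simp
    linarith
  nlinarith

/-- The total error is small. -/
private lemma hs_U1_err (d A k : ℕ) (C : ℝ) (hd : 2 ≤ d) (hC : 0 ≤ C) :
    ∀ᶠ N : ℕ in atTop, ∀ Q : ℕ, (Q : ℝ) ≤ (Hn d N : ℝ) ^ (1 / 2000 : ℝ) →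
      Real.log N * (C * ∑ q ∈ (Icc 1 Q).filter Squarefree, (k : ℝ) ^ q.primeFactors.card) ≤
        (N : ℝ) ^ (1 / (d : ℝ)) / (Real.log N) ^ A := by
  have hdr : (0 : ℝ) < d := by
    have : 0 < d := by omega
    exact_mod_cast this
  have hs : (0 : ℝ) < 1 / (2 * d) := by positivity
  have ho := isLittleO_log_rpow_rpow_atTop ((k + 1 + A : ℕ) : ℝ) hs
  have ho1 : ∀ᶠ x : ℝ in atTop, ‖Real.log x ^ ((k + 1 + A : ℕ) : ℝ)‖ ≤
      (1 / (C * 2 ^ k + 1)) * ‖x ^ (1 / (2 * d) : ℝ)‖ := ho.bound (by positivity)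
  have hlog : Tendsto (fun n : ℕ => Real.log n) atTop atTop :=
    Real.tendsto_log_atTop.comp tendsto_natCast_atTop_atTop
  filter_upwards [tendsto_natCast_atTop_atTop.eventually ho1, hlog.eventually_ge_atTop 1,
    eventually_ge_atTop 2] with N hN hL hN2 Q hQ
  have hN1 : (1 : ℝ) ≤ N := by
    have : 1 ≤ N := by omega
    exact_mod_cast this
  have hN0 : (0 : ℝ) < N := by linarith
  set L := Real.log N with hLdef
  have hL0 : 0 < L := by linarith
  set x0 : ℝ := (N : ℝ) ^ (1 / (d : ℝ)) with hx0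
  have hx01 : 1 ≤ x0 := Real.one_le_rpow hN1 (by positivity)
  have hx0N : x0 ≤ N := by
    calc x0 ≤ (N : ℝ) ^ (1 : ℝ) := by
          apply Real.rpow_le_rpow_of_exponent_le hN1
          rw [div_le_one hdr]
          have : (2 : ℝ) ≤ d := by exact_mod_cast hd
          linarith
      _ = N := Real.rpow_one _
  have hH : (Hn d N : ℝ) ≤ x0 := Nat.floor_le (by positivity)
  have hroot : x0 ^ (1 / 2 : ℝ) = (N : ℝ) ^ (1 / (2 * d) : ℝ) := by
    rw [hx0, ← Real.rpow_mul hN0.le]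
    congr 1
    field_simp
  have hQ2 : (Q : ℝ) ≤ x0 ^ (1 / 2 : ℝ) := by
    refine hQ.trans ?_
    calc (Hn d N : ℝ) ^ (1 / 2000 : ℝ) ≤ x0 ^ (1 / 2000 : ℝ) :=
          Real.rpow_le_rpow (Nat.cast_nonneg _) hH (by norm_num)
      _ ≤ x0 ^ (1 / 2 : ℝ) := Real.rpow_le_rpow_of_exponent_le hx01 (by norm_num)
  rw [Real.rpow_natCast, Real.norm_of_nonneg (by positivity), Real.norm_of_nonneg (by positivity)]
    at hN
  have hkey : C * 2 ^ k * L ^ (k + 1 + A) ≤ x0 ^ (1 / 2 : ℝ) := by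
    rw [hroot]
    have h1 := mul_le_mul_of_nonneg_left hN (show (0 : ℝ) ≤ C * 2 ^ k + 1 by positivity)
    have h2 : (C * 2 ^ k + 1) * (1 / (C * 2 ^ k + 1) * (N : ℝ) ^ (1 / (2 * d) : ℝ)) =
        (N : ℝ) ^ (1 / (2 * d) : ℝ) := by
      field_simp
    rw [h2] at h1
    refine le_trans ?_ h1
    have h3 : 0 ≤ L ^ (k + 1 + A) := by positivity
    nlinarith
  have hsum : ∑ q ∈ (Icc 1 Q).filter Squarefree, (k : ℝ) ^ q.primeFactors.card ≤
      x0 ^ (1 / 2 : ℝ) * (2 * L) ^ k := by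
    by_cases hQ0 : Q = 0
    · subst hQ0
      simp only [show Icc 1 0 = (∅ : Finset ℕ) from rfl, Finset.filter_empty, Finset.sum_empty]
      positivity
    · have hQ1 : 1 ≤ Q := by omega
      have hQ1r : (1 : ℝ) ≤ Q := by exact_mod_cast hQ1
      have h1 : ∑ q ∈ (Icc 1 Q).filter Squarefree, (k : ℝ) ^ q.primeFactors.card ≤
          Q * ∑ q ∈ (Icc 1 Q).filter Squarefree, (k : ℝ) ^ q.primeFactors.card / q := by
        rw [Finset.mul_sum]
        refine Finset.sum_le_sum fun q hq => ?_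
        obtain ⟨h2, h3⟩ := Finset.mem_Icc.1 (Finset.mem_filter.1 hq).1
        have hq0 : (0 : ℝ) < q := by exact_mod_cast h2
        have hqQ : (q : ℝ) ≤ Q := by exact_mod_cast h3
        rw [mul_div_assoc', le_div_iff₀ hq0, mul_comm]
        exact mul_le_mul_of_nonneg_right hqQ (by positivity)
      refine h1.trans (mul_le_mul hQ2 ?_ (Finset.sum_nonneg fun q _ => by positivity)
        (by positivity))
      refine (sum_omega_le k Q hQ1).trans ?_
      have h4 : Real.log Q ≤ L := by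
        apply Real.log_le_log (by linarith)
        refine hQ2.trans (le_trans ?_ hx0N)
        calc x0 ^ (1 / 2 : ℝ) ≤ x0 ^ (1 : ℝ) := Real.rpow_le_rpow_of_exponent_le hx01 (by norm_num)
          _ = x0 := Real.rpow_one _
      exact pow_le_pow_left₀ (by linarith [Real.log_nonneg hQ1r]) (by linarith) k
  rw [le_div_iff₀ (by positivity)]
  calc L * (C * ∑ q ∈ (Icc 1 Q).filter Squarefree, (k : ℝ) ^ q.primeFactors.card) * L ^ A
      ≤ L * (C * (x0 ^ (1 / 2 : ℝ) * (2 * L) ^ k)) * L ^ A := by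
        apply mul_le_mul_of_nonneg_right _ (by positivity)
        apply mul_le_mul_of_nonneg_left _ hL0.le
        exact mul_le_mul_of_nonneg_left hsum hC
    _ = x0 ^ (1 / 2 : ℝ) * (C * 2 ^ k * L ^ (k + 1 + A)) := by
        rw [mul_pow, pow_add, pow_add]
        ring
    _ ≤ x0 ^ (1 / 2 : ℝ) * x0 ^ (1 / 2 : ℝ) := mul_le_mul_of_nonneg_left hkey (by positivity)
    _ = x0 := by
        rw [← Real.rpow_add (by linarith)]
        norm_num

/-- Pointwise bounds for the upper sieve. -/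
private lemma hs_U1_pt {ι : Type} [Fintype ι] [DecidableEq ι] {D d E : ℕ} {F : NC.Fam ι D d E}
    {n n' : ℕ} {Fp Fm : (ℕ → ℝ) → ℝ} (hpre : Pre D n' Fp Fm) (w : ℕ) (l : ι) (x : ℤ) :
    0 ≤ Fp (r3 F n w (z0 D n') l x) ∧
      (F.Rg n (z0 D n') x → 1 ≤ Fp (r3 F n w (z0 D n') l x)) := by
  classical
  have h01 : ∀ p ∈ PK (2 * D) n', 0 ≤ r3 F n w (z0 D n') l x p ∧
      r3 F n w (z0 D n') l x p ≤ 1 := by
    intro p _
    unfold r3
    split_ifs <;> norm_num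
  have h1 := (hpre.pt _ h01).2
  refine ⟨le_trans ?_ h1, fun hr => le_trans ?_ h1⟩
  · unfold W
    exact Finset.prod_nonneg fun p hp => by linarith [(h01 p hp).2]
  · unfold W
    rw [Finset.prod_eq_one]
    intro p hp
    have h2 : r3 F n w (z0 D n') l x p = 0 := by
      unfold r3
      rw [if_neg]
      rintro ⟨h2, h3, -⟩
      exact hr p (mem_PK.1 hp).1 h2 h3
    rw [h2]
    norm_num

private lemma hs_U1_thP (m : ℕ) : 0 ≤ thP m := by
  unfold thP
  split_ifs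
  · exact Real.log_natCast_nonneg m
  · exact le_refl _

theorem p_U1 : S_U1 := by
  classical
  intro hla hmas hdn hpw hdnU hex3 hgn ι κ _ _ _ _ D d E H B0 B B1 A hD hB0 hB1
  obtain ⟨K1, hK1, hla1⟩ := hla ι κ D d E H
  obtain ⟨zt, hzt⟩ := eventually_atTop.1 hla1
  set K0 := max D K1 with hK0def
  have hK0 : 1 ≤ K0 := hD.trans (le_max_left _ _)
  have hlog : Tendsto (fun n : ℕ => Real.log n) atTop atTop :=
    Real.tendsto_log_atTop.comp tendsto_natCast_atTop_atTop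
  filter_upwards [hmas ι D d E H.F, hdn ι D d E H.F hD, hpw ι D d E H.F B0 B1 hD hB0 hB1,
    hdnU ι D d E H.F hD, hex3 ι κ D d E H B0 B B1 hD hB0 hB1, hs_U1_kap B1,
    hs_U1_err d A (6 * Fintype.card (ι ⊕ κ) * K0) (3 * (B : ℝ) ^ 2 * 4) H.F.hd (by positivity),
    eventually_ge_atTop ((zt + 2) ^ B0 + 2), hlog.eventually_ge_atTop (2 : ℝ)]
    with N gmas gdn gpw gdnU gex gkap gerr gN gL
  intro n hn n' P hpar Fp Fm hpre l g hg hgl hqr hsl
  obtain ⟨m1, m2, -, -⟩ := gmas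
  obtain ⟨⟨hw1, hw2⟩, -⟩ := gpw n hn n' P hpar
  obtain ⟨e1, e2, e3, -, -, hV0, -⟩ := gdn n hn n' (wN B1 N) hw1 hw2
  have e4 := gdnU n hn n' (wN B1 N) hw1 hw2 l hsl
  have e5 := gex n hn n' P hpar Fp hpre.rp l g hg hgl
  have : Nonempty (ι ⊕ κ) := ⟨Sum.inl l⟩
  set w := wN B1 N with hwdef
  set z := z0 D n' with hzdef
  set L := Real.log N with hLdef
  have hw2' : 2 ≤ w := by
    have : (2 : ℝ) ≤ w := by nlinarith
    exact_mod_cast this
  have hκw : 0 < kapD w := kapD_pos w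
  have hκz : 0 < kapD z := kapD_pos z
  have hκinv : (kapD w)⁻¹ ≤ L := gkap hw2'
  have hκinv0 : 0 < (kapD w)⁻¹ := inv_pos.2 hκw
  -- `z` is large
  have hzl : zt ≤ z := by
    by_contra hcon
    push Not at hcon
    have h4 := Nat.pow_le_pow_left (show z ≤ zt + 2 by omega) B0
    have h5 := hpar.hzB
    rw [← hzdef] at h5
    omega
  obtain ⟨-, hz1⟩ := hzt z hzl
  obtain ⟨-, -, -, -, hod, hper, hexcl⟩ := hz1 P fun p hp => ⟨(hpar.hP p hp).1, (hpar.hP p hp).2.1⟩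
  -- the expansion
  set Y := ⌊(Hn d N : ℝ) ^ (1 / 5000 : ℝ)⌋₊ with hY
  have hYr : (Y : ℝ) ≤ (Hn d N : ℝ) ^ (1 / 5000 : ℝ) := Nat.floor_le (by positivity)
  have hdisj : Disjoint P (PK (2 * D) n') := by
    rw [Finset.disjoint_left]
    intro p hp hp'
    have h1 := (hpar.hP p hp).2.1
    have h2 := (mem_PK.1 hp').2
    have h3 : z0 D n' = 2 ^ (2 ^ (2 * D + n')) := rfl
    omega
  have hom : ∀ p ∈ PK (2 * D) n', om (Q3 H.F n w z l) p ≤ K0 := by
    intro p hp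
    have hpp := (mem_PK.1 hp).1
    have h1 := e2 l p hpp
    have hp0 : (0 : ℝ) < p := by exact_mod_cast hpp.pos
    have h2 : d3 H.F n w z l p * p = (om (Q3 H.F n w z l) p : ℝ) := by
      unfold d3
      rw [div_mul_cancel₀ _ hp0.ne']
    rw [h2] at h1
    have h3 : om (Q3 H.F n w z l) p ≤ D := by exact_mod_cast h1
    exact h3.trans (le_max_left _ _)
  have key := hgn (ι ⊕ κ) P (PK (2 * D) n') (DN2 H P n) (Q3 H.F n w z l) K0
    (fun p hp => (hpar.hP p hp).1)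
    (fun p hp => (mem_PK.1 hp).1) hdisj hK0 (hper n) (hexcl n)
    (fun j i => (hod n j i).trans (le_max_right _ _)) (fun p x y h => e1 l p x y h) hom
    (lev (2 * D) n' ^ 3) Fp hpre.rp (H.F.wh N) (Hn d N) 4 m2 g B Y hg.bd
    (fun α hα => Nat.le_floor (hg.sup α hα))
  have hQle : ((Y * Y * lev (2 * D) n' ^ 3 : ℕ) : ℝ) ≤ (Hn d N : ℝ) ^ (1 / 2000 : ℝ) := by
    rcases Nat.eq_zero_or_pos (Hn d N) with h0 | h0
    · have h1 : Y = 0 := by
        rw [hY, h0]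
        rw [Nat.cast_zero, Real.zero_rpow (by norm_num), Nat.floor_zero]
      rw [h1]
      simp only [zero_mul, Nat.cast_zero]
      positivity
    · have hH0 : (0 : ℝ) < (Hn d N : ℝ) := by exact_mod_cast h0
      push_cast
      calc (Y : ℝ) * Y * (lev (2 * D) n' : ℝ) ^ 3
          ≤ (Hn d N : ℝ) ^ (1 / 5000 : ℝ) * (Hn d N : ℝ) ^ (1 / 5000 : ℝ) *
            (Hn d N : ℝ) ^ (1 / 10000 : ℝ) :=
            mul_le_mul (mul_le_mul hYr hYr (Nat.cast_nonneg _) (by positivity)) hpar.hlev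
              (by positivity) (by positivity)
        _ = (Hn d N : ℝ) ^ (1 / 2000 : ℝ) := by
            rw [← Real.rpow_add hH0, ← Real.rpow_add hH0]
            norm_num
  have herr := gerr _ hQle
  -- the main term
  have hm0 : 0 ≤ mN H.F N := Finset.sum_nonneg fun x _ => (m1 x).1
  have hmt := (hpre.mt _ (e3 l)).1
  set Wd : ℝ := W (d3 H.F n w z l) (PK (2 * D) n') with hWd
  set V : ℝ := H.F.V n n' with hV
  set S1 : ℝ := ∑ x ∈ Icc 1 (Hn d N), H.F.wh N x * Fp (r3 H.F n w z l x) *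
    ZI (DN2 H P n) g x ^ 2 with hS1
  set Er1 : ℝ := 3 * (B : ℝ) ^ 2 * 4 * ∑ q ∈ (Icc 1 (Y * Y * lev (2 * D) n' ^ 3)).filter Squarefree,
    ((6 * Fintype.card (ι ⊕ κ) * K0 : ℕ) : ℝ) ^ q.primeFactors.card with hEr
  set q0 : ℝ := qr (rn2 H P n) g with hq0
  have key1 : |S1 - mN H.F N * Fp (d3 H.F n w z l) * q0| ≤ Er1 := key
  have key2 := (abs_le.1 key1).2
  have hFp : Fp (d3 H.F n w z l) ≤ 11 / 10 * (V / kapD z * kapD w) := by
    have h1 : 0 ≤ V / kapD z * kapD w := by positivity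
    linarith
  have hmain : (kapD w)⁻¹ * (mN H.F N * Fp (d3 H.F n w z l) * q0) ≤
      11 / 10 * (mN H.F N * (V / kapD z)) * q0 := by
    have h1 := mul_le_mul_of_nonneg_left hFp (mul_nonneg hm0 hqr)
    have h2 := mul_le_mul_of_nonneg_left h1 hκinv0.le
    refine le_trans (le_of_eq ?_) (h2.trans (le_of_eq ?_))
    · ring
    · field_simp
  have hE0 : 0 ≤ Er1 := (abs_nonneg _).trans key1
  have hfin : (kapD w)⁻¹ * S1 ≤ (kapD w)⁻¹ * (mN H.F N * Fp (d3 H.F n w z l) * q0) +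
      (kapD w)⁻¹ * Er1 := by
    rw [← mul_add]
    exact mul_le_mul_of_nonneg_left (by linarith) hκinv0.le
  have herr2 : (kapD w)⁻¹ * Er1 ≤ L * Er1 := mul_le_mul_of_nonneg_right hκinv hE0
  -- pointwise
  have hLw : ∀ m : ℕ, Lw w m ≤ (kapD w)⁻¹ := by
    intro m
    unfold Lw
    split_ifs
    · exact le_refl _
    · exact hκinv0.le
  have hS : ∑ x ∈ Icc 1 (Hn d N), H.F.wh N x * (Lw w (H.F.L n l x).toNat *
      (Fp (r3 H.F n w z l x) * ZI (DN2 H P n) g x ^ 2)) ≤ (kapD w)⁻¹ * S1 := by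
    rw [hS1, Finset.mul_sum]
    apply Finset.sum_le_sum
    intro x _
    have k1 := (hs_U1_pt (F := H.F) (n := n) hpre w l (x : ℤ)).1
    have k3 : 0 ≤ ZI (DN2 H P n) g x ^ 2 := sq_nonneg _
    have k4 : 0 ≤ H.F.wh N x * (Fp (r3 H.F n w z l x) * ZI (DN2 H P n) g x ^ 2) :=
      mul_nonneg (m1 x).1 (mul_nonneg k1 k3)
    calc H.F.wh N x * (Lw w (H.F.L n l x).toNat *
          (Fp (r3 H.F n w z l x) * ZI (DN2 H P n) g x ^ 2))
        = Lw w (H.F.L n l x).toNat *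
          (H.F.wh N x * (Fp (r3 H.F n w z l x) * ZI (DN2 H P n) g x ^ 2)) := by ring
      _ ≤ (kapD w)⁻¹ * (H.F.wh N x * (Fp (r3 H.F n w z l x) * ZI (DN2 H P n) g x ^ 2)) :=
          mul_le_mul_of_nonneg_right (hLw _) k4
      _ = _ := by ring
  have hpt : ∑ x ∈ (Icc 1 (Hn d N)).filter (fun x : ℕ => H.F.Rg n z x),
      H.F.wh N x * (thP (H.F.L n l x).toNat * ZI (DN2 H P n) g x ^ 2) ≤
      ∑ x ∈ Icc 1 (Hn d N), H.F.wh N x * (thP (H.F.L n l x).toNat *
        (Fp (r3 H.F n w z l x) * ZI (DN2 H P n) g x ^ 2)) := by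
    refine (Finset.sum_le_sum (g := fun x : ℕ => H.F.wh N x * (thP (H.F.L n l x).toNat *
        (Fp (r3 H.F n w z l x) * ZI (DN2 H P n) g x ^ 2))) ?_).trans
      (Finset.sum_le_sum_of_subset_of_nonneg (Finset.filter_subset _ _) ?_)
    · intro x hx
      obtain ⟨-, hr⟩ := Finset.mem_filter.1 hx
      have k1 := (hs_U1_pt (F := H.F) (n := n) hpre w l (x : ℤ)).2 hr
      have k3 : 0 ≤ ZI (DN2 H P n) g x ^ 2 := sq_nonneg _
      apply mul_le_mul_of_nonneg_left _ (m1 x).1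
      apply mul_le_mul_of_nonneg_left _ (hs_U1_thP _)
      exact le_mul_of_one_le_left k3 k1
    · intro x _ _
      have k1 := (hs_U1_pt (F := H.F) (n := n) hpre w l (x : ℤ)).1
      have k3 : 0 ≤ ZI (DN2 H P n) g x ^ 2 := sq_nonneg _
      exact mul_nonneg (m1 x).1 (mul_nonneg (hs_U1_thP _) (mul_nonneg k1 k3))
  have hsplit : ∑ x ∈ Icc 1 (Hn d N), H.F.wh N x * (thP (H.F.L n l x).toNat *
        (Fp (r3 H.F n w z l x) * ZI (DN2 H P n) g x ^ 2)) =
      ∑ x ∈ Icc 1 (Hn d N), H.F.wh N x * ((thP (H.F.L n l x).toNat -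
        Lw w (H.F.L n l x).toNat) * (Fp (r3 H.F n w z l x) * ZI (DN2 H P n) g x ^ 2)) +
      ∑ x ∈ Icc 1 (Hn d N), H.F.wh N x * (Lw w (H.F.L n l x).toNat *
        (Fp (r3 H.F n w z l x) * ZI (DN2 H P n) g x ^ 2)) := by
    rw [← Finset.sum_add_distrib]
    refine Finset.sum_congr rfl fun x _ => ?_
    ring
  have e6 := (abs_le.1 e5).2
  linarith

end Pool.Agent.HC.M
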