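import Pool.Agent.Lib.MP_0da313_nt.HC.M
import Pool.Agent.Lib.MP_0da313_nt.MT.Mertens

set_option autoImplicit false

/-!
[HC U2]: the upper bound for the sum with the linear prime member.
-/

namespace Pool.Agent.HC.M

open Finset Filter Polynomial
open Pool.Agent.MP89da58 (bil pw nn supp part kapD tri)
open Pool.Agent.MT (PJf dvI ZI kapD_pos)
open Pool.Agent.BVall (om rhoW PK lev RepB Dens mem_PK)
open Pool.Agent.Lib.MP_0da313_nt (W)
open Pool.Agent.CH (thP)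
open Pool.Agent.CM (wd z0 er sT)
open Pool.Agent.CM.F (Pre)
open Pool.Agent.TC (Lw wN)
open Pool.Agent.TC.W (qf)
open Pool.Agent.NC (Hn Bn ErS)
open Pool.Agent.NC.Q (prr nu qr od)
open Pool.Agent.NC.A (Par3 sl)
open Pool.Agent.NC.M (mN Q3 r3 d3)
open Pool.Agent.HC (Fam2 ErS2 Cm2 DN2 rn2 rp2 Wt4 Q4 r4 d4 Sj ph)

/-- `z0` is large. -/
private lemma hs_U2_small {ι : Type} [Fintype ι] [DecidableEq ι] {D d E : ℕ} (F : NC.Fam ι D d E)
    (B0 T : ℕ) : ∀ᶠ N : ℕ in atTop, ∀ (n' : ℕ) (P : Finset ℕ), Par3 F B0 N n' P →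
    T ≤ z0 D n' ∧ (Real.log N) ^ 2 ≤ (z0 D n' : ℝ) := by
  have h0 : ∀ᶠ n : ℕ in atTop, (Real.log n) ^ (2 * B0) < n := by
    have h1 := (Real.isLittleO_pow_log_id_atTop (n := 2 * B0)).bound
      (show (0 : ℝ) < 1 / 2 by norm_num)
    have h2 := tendsto_natCast_atTop_atTop (R := ℝ) |>.eventually h1
    filter_upwards [h2, eventually_ge_atTop 1] with n hn h1n
    have h3 : (1 : ℝ) ≤ n := by exact_mod_cast h1n
    simp only [id, Real.norm_eq_abs] at hn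
    have h4 := (le_abs_self _).trans hn
    rw [abs_of_pos (by linarith : (0 : ℝ) < n)] at h4
    linarith
  filter_upwards [eventually_ge_atTop (T ^ B0 + 4), h0] with n hn h0 n' P hp
  refine ⟨?_, ?_⟩
  · by_contra hcon
    push Not at hcon
    have h2 := Nat.pow_le_pow_left hcon.le B0
    have h3 := hp.hzB
    omega
  · by_contra hcon
    push Not at hcon
    have h2 : ((z0 D n' : ℕ) : ℝ) ^ B0 ≤ ((Real.log n) ^ 2) ^ B0 :=
      pow_le_pow_left₀ (Nat.cast_nonneg _) hcon.le B0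
    have h3 : (n : ℝ) ≤ (z0 D n' : ℝ) ^ B0 := by exact_mod_cast hp.hzB
    rw [← pow_mul] at h2
    linarith

/-- Pointwise bounds for the upper sieve. -/
private lemma hs_U2_pt {ι κ : Type} [Fintype ι] [DecidableEq ι] [Fintype κ] [DecidableEq κ]
    {D d E : ℕ} {H : Fam2 ι κ D d E} {n n' : ℕ} {Fp Fm : (ℕ → ℝ) → ℝ} (hpre : Pre D n' Fp Fm)
    (w : ℕ) (l : ι) (j : κ) (x : ℤ) :
    0 ≤ Fp (r4 H n w (z0 D n') l j x) ∧
      (H.F.Rg n (z0 D n') x → 1 ≤ Fp (r4 H n w (z0 D n') l j x)) := by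
  classical
  have h01 : ∀ p ∈ PK (2 * D) n', 0 ≤ r4 H n w (z0 D n') l j x p ∧
      r4 H n w (z0 D n') l j x p ≤ 1 := by
    intro p _
    unfold r4
    split_ifs <;> norm_num
  have h1 := (hpre.pt _ h01).2
  refine ⟨le_trans ?_ h1, fun hr => le_trans ?_ h1⟩
  · unfold W
    exact Finset.prod_nonneg fun p hp => by linarith [(h01 p hp).2]
  · unfold W
    rw [Finset.prod_eq_one]
    intro p hp
    have h2 : r4 H n w (z0 D n') l j x p = 0 := by
      unfold r4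
      rw [if_neg]
      rintro ⟨h2, h3, -, -⟩
      exact hr p (mem_PK.1 hp).1 h2 h3
    rw [h2]
    norm_num

/-- The level of the expansion. -/
private lemma hs_U2_lev (d N Y V : ℕ) (hd : 2 ≤ d) (hN : 1 ≤ N)
    (hY : (Y : ℝ) ≤ (Hn d N : ℝ) ^ (1 / 5000 : ℝ))
    (hV : (V : ℝ) ≤ (Hn d N : ℝ) ^ (1 / 10000 : ℝ)) :
    ((Y * Y * V : ℕ) : ℝ) ≤ (N : ℝ) ^ (1 / (1000 * d) : ℝ) := by
  have hN1 : (1 : ℝ) ≤ N := by exact_mod_cast hN
  have hN0 : (0 : ℝ) < N := by linarith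
  have hdr : (0 : ℝ) < d := by
    have : 0 < d := by omega
    exact_mod_cast this
  have hH1 : 1 ≤ Hn d N := by
    unfold Hn
    rw [Nat.one_le_floor_iff]
    exact Real.one_le_rpow hN1 (by positivity)
  have hH0 : (0 : ℝ) < (Hn d N : ℝ) := by exact_mod_cast hH1
  have hHN : (Hn d N : ℝ) ≤ (N : ℝ) ^ (1 / (d : ℝ)) := Nat.floor_le (by positivity)
  push_cast
  calc (Y : ℝ) * Y * V
      ≤ (Hn d N : ℝ) ^ (1 / 5000 : ℝ) * (Hn d N : ℝ) ^ (1 / 5000 : ℝ) *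
        (Hn d N : ℝ) ^ (1 / 10000 : ℝ) :=
        mul_le_mul (mul_le_mul hY hY (Nat.cast_nonneg _) (by positivity)) hV
          (by positivity) (by positivity)
    _ = (Hn d N : ℝ) ^ (1 / 2000 : ℝ) := by
        rw [← Real.rpow_add hH0, ← Real.rpow_add hH0]
        norm_num
    _ ≤ ((N : ℝ) ^ (1 / (d : ℝ))) ^ (1 / 2000 : ℝ) :=
        Real.rpow_le_rpow hH0.le hHN (by norm_num)
    _ = (N : ℝ) ^ (1 / (d : ℝ) * (1 / 2000)) := by rw [← Real.rpow_mul hN0.le]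
    _ ≤ (N : ℝ) ^ (1 / (1000 * d) : ℝ) := by
        apply Real.rpow_le_rpow_of_exponent_le hN1
        have e : 1 / (1000 * d : ℝ) = 1 / (d : ℝ) * (1 / 1000) := by field_simp
        rw [e]
        exact mul_le_mul_of_nonneg_left (by norm_num) (by positivity)

/-- The error sum. -/
private lemma hs_U2_err (x0 L b S : ℝ) (A : ℕ) (hL : 1 ≤ L) (hb : 3 * b ^ 2 ≤ L)
    (hx : 0 ≤ x0) (hS : S ≤ x0 / L ^ (A + 2)) :
    L * (3 * b ^ 2 * S) ≤ x0 / L ^ A := by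
  have hL0 : 0 < L := by linarith
  have h1 : 3 * b ^ 2 * S ≤ 3 * b ^ 2 * (x0 / L ^ (A + 2)) :=
    mul_le_mul_of_nonneg_left hS (by positivity)
  have h2 : 3 * b ^ 2 * (x0 / L ^ (A + 2)) ≤ L * (x0 / L ^ (A + 2)) :=
    mul_le_mul_of_nonneg_right hb (by positivity)
  calc L * (3 * b ^ 2 * S) ≤ L * (L * (x0 / L ^ (A + 2))) :=
        mul_le_mul_of_nonneg_left (h1.trans h2) hL0.le
    _ = x0 / L ^ A := by
        rw [pow_add]
        field_simp

private lemma hs_U2_thP (m : ℕ) : 0 ≤ thP m := by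
  unfold thP
  split_ifs
  · exact Real.log_natCast_nonneg m
  · exact le_refl _

private lemma hs_U2_wh {ι : Type} [Fintype ι] [DecidableEq ι] {D d E : ℕ} (F : NC.Fam ι D d E)
    (N x : ℕ) : 0 ≤ F.wh N x := by
  unfold NC.Fam.wh wd tri
  exact le_max_left _ _

private lemma hs_U2_W {K : ℕ} {ρ : ℕ → ℝ} (h : Dens K ρ) (n : ℕ) : 0 ≤ W ρ (PK K n) := by
  unfold W
  refine Finset.prod_nonneg fun p hp => ?_
  have h1 := h.lt p (mem_PK.1 hp).1
  have h2 : (0 : ℝ) ≤ 1 / p := by positivity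
  linarith

theorem p_U2 : S_U2 := by
  classical
  intro hla _ hbv hms hdn hgx ι κ _ _ _ _ _ D d E H B0 B A hD hB0
  obtain ⟨K1, hK1, hla1⟩ := hla ι κ D d E H
  obtain ⟨zt, hzt⟩ := eventually_atTop.1 hla1
  set K0 := max D K1 with hK0def
  have hK0 : 1 ≤ K0 := hD.trans (le_max_left _ _)
  have hlog : Tendsto (fun n : ℕ => Real.log n) atTop atTop :=
    Real.tendsto_log_atTop.comp tendsto_natCast_atTop_atTop
  have hbv' := eventually_all.2 fun j : κ =>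
    hbv ι κ D d E H j (6 * Fintype.card (ι ⊕ κ) * K0) (A + 2)
  filter_upwards [hbv', hms ι κ D d E H, hdn ι κ D d E H hD, hs_U2_small H.F B0 zt,
    eventually_ge_atTop 3, hlog.eventually_ge_atTop (2 : ℝ),
    hlog.eventually_ge_atTop (3 * (B : ℝ) ^ 2)]
    with N gbv gms gdn gsm gN gL gLB
  intro n hn n' P hpar Fp Fm hpre j g hg hgj hqr
  obtain ⟨Eq, hE0, hE1, hE2⟩ := gbv j
  obtain ⟨hzl, hzL⟩ := gsm n' P hpar
  obtain ⟨e1, e2, e3, -, e5⟩ := gdn n hn n' (z0 D n') hzL le_rfl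
  obtain ⟨l⟩ := (inferInstance : Nonempty ι)
  have : Nonempty (ι ⊕ κ) := ⟨Sum.inl l⟩
  set z := z0 D n' with hzdef
  set L := Real.log N with hLdef
  have hκz : 0 < kapD z := kapD_pos z
  have hN1 : 1 ≤ N := by omega
  obtain ⟨hz0, hz1⟩ := hzt z hzl
  obtain ⟨-, -, -, -, hod, hper, hexcl⟩ := hz1 P fun p hp => ⟨(hpar.hP p hp).1, (hpar.hP p hp).2.1⟩
  -- the expansion
  set Y := ⌊(Hn d N : ℝ) ^ (1 / 5000 : ℝ)⌋₊ with hY
  have hYr : (Y : ℝ) ≤ (Hn d N : ℝ) ^ (1 / 5000 : ℝ) := Nat.floor_le (by positivity)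
  have hdisj : Disjoint P (PK (2 * D) n') := by
    rw [Finset.disjoint_left]
    intro p hp hp'
    have h1 := (hpar.hP p hp).2.1
    have h2 := (mem_PK.1 hp').2
    have h3 : z0 D n' = 2 ^ (2 ^ (2 * D + n')) := rfl
    omega
  have hlevel : ((Y * Y * lev (2 * D) n' ^ 3 : ℕ) : ℝ) ≤ (N : ℝ) ^ (1 / (1000 * d) : ℝ) :=
    hs_U2_lev d N Y (lev (2 * D) n' ^ 3) H.F.hd hN1 hYr (by push_cast; exact hpar.hlev)
  have key := hgx (ι ⊕ κ) P (PK (2 * D) n') (DN2 H P n) (Q4 H n z z l j)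
    (fun s => s ≠ Sum.inr j) (H.u j) (H.v j) K0 (H.hu j)
    (fun p hp => ⟨(hpar.hP p hp).1, hz0 p (hpar.hP p hp).1 (hpar.hP p hp).2.1 j⟩)
    (fun p hp => (mem_PK.1 hp).1) hdisj hK0 (hper n) (hexcl n)
    (fun i s => (hod n i s).trans (le_max_right _ _))
    (by
      intro i s y hs hdd hcon
      exact hdd.2 ⟨s, Sum.inr j, y, hs, hdd.1, hcon⟩)
    (fun p x y h => e1 l j p x y h)
    (fun p x h => h.2.2.1)
    (fun p hp => (e2 l j p (mem_PK.1 hp).1).trans (le_max_left _ _))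
    (lev (2 * D) n' ^ 3) Fp hpre.rp g B Y hg.bd
    (fun α hα => Nat.le_floor (hg.sup α hα))
    (fun α hα i s hs h => hgj α hα i (by rw [hs, h]))
    (fun x : ℕ => H.F.wh N x * thP (H.M j x).toNat) (Hn d N) Eq hE0
    (by
      intro q c hq hqY hcop
      refine hE1 q c hq (le_trans ?_ hlevel) hcop
      exact_mod_cast hqY)
  have herr : ∑ q ∈ (Icc 1 (Y * Y * lev (2 * D) n' ^ 3)).filter Squarefree,
      ((6 * Fintype.card (ι ⊕ κ) * K0 : ℕ) : ℝ) ^ q.primeFactors.card * Eq q ≤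
      (N : ℝ) ^ (1 / (d : ℝ)) / L ^ (A + 2) := by
    refine le_trans ?_ hE2
    apply Finset.sum_le_sum_of_subset_of_nonneg
    · apply Finset.filter_subset_filter
      apply Finset.Icc_subset_Icc le_rfl
      exact Nat.le_floor hlevel
    · intro q _ _
      exact mul_nonneg (by positivity) (hE0 q)
  have herr2 := hs_U2_err _ L B _ A (by linarith) gLB (by positivity) herr
  -- pointwise
  have hpt : ∑ x ∈ (Icc 1 (Hn d N)).filter (fun x : ℕ => H.F.Rg n z x),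
      H.F.wh N x * (thP (H.M j x).toNat * ZI (DN2 H P n) g x ^ 2) ≤
      ∑ x ∈ Icc 1 (Hn d N), H.F.wh N x * thP (H.M j x).toNat *
        Fp (r4 H n z z l j x) * ZI (DN2 H P n) g x ^ 2 := by
    refine (Finset.sum_le_sum (g := fun x : ℕ => H.F.wh N x * thP (H.M j x).toNat *
        Fp (r4 H n z z l j x) * ZI (DN2 H P n) g x ^ 2) ?_).trans
      (Finset.sum_le_sum_of_subset_of_nonneg (Finset.filter_subset _ _) ?_)
    · intro x hx
      obtain ⟨-, hr⟩ := Finset.mem_filter.1 hx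
      have k1 := (hs_U2_pt (H := H) (n := n) hpre z l j (x : ℤ)).2 hr
      have k3 : 0 ≤ ZI (DN2 H P n) g x ^ 2 := sq_nonneg _
      rw [← mul_assoc]
      apply mul_le_mul_of_nonneg_right _ k3
      exact le_mul_of_one_le_right (mul_nonneg (hs_U2_wh _ _ _) (hs_U2_thP _)) k1
    · intro x _ _
      have k1 := (hs_U2_pt (H := H) (n := n) hpre z l j (x : ℤ)).1
      have k3 : 0 ≤ ZI (DN2 H P n) g x ^ 2 := sq_nonneg _
      exact mul_nonneg (mul_nonneg (mul_nonneg (hs_U2_wh _ _ _) (hs_U2_thP _)) k1) k3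
  -- the main term
  have hm0 : 0 ≤ mN H.F N := Finset.sum_nonneg fun x _ => hs_U2_wh _ _ _
  have hmt := (hpre.mt _ (e3 l j)).1
  have hd5 := e5 l j
  have hW0 := hs_U2_W (e3 l j) n'
  have hms1 := (gms j).2
  set W4 : ℝ := W (d4 H n z z l j) (PK (2 * D) n') with hW4
  set V : ℝ := H.F.V n n' with hV
  set c : ℝ := (H.u j : ℝ) / (Nat.totient (H.u j) : ℝ) with hc
  have hc0 : 0 ≤ c := by positivity
  set q0 : ℝ := qr (rp2 H P n) g with hq0
  set S1 : ℝ := ∑ x ∈ Icc 1 (Hn d N), H.F.wh N x * thP (H.M j x).toNat *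
        Fp (r4 H n z z l j x) * ZI (DN2 H P n) g x ^ 2 with hS1
  set Er1 : ℝ := 3 * (B : ℝ) ^ 2 * ∑ q ∈ (Icc 1 (Y * Y * lev (2 * D) n' ^ 3)).filter Squarefree,
    ((6 * Fintype.card (ι ⊕ κ) * K0 : ℕ) : ℝ) ^ q.primeFactors.card * Eq q with hEr
  have key1 : |S1 - Sj H N j * Fp (d4 H n z z l j) * q0| ≤ Er1 := key
  have key2 := (abs_le.1 key1).2
  have hSj0 : 0 ≤ Sj H N j := Finset.sum_nonneg fun x _ =>
    mul_nonneg (hs_U2_wh _ _ _) (hs_U2_thP _)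
  have hmain : Sj H N j * Fp (d4 H n z z l j) * q0 ≤
      11 / 10 * (mN H.F N * (V / kapD z)) * q0 := by
    apply mul_le_mul_of_nonneg_right _ hqr
    rw [← hd5]
    have h1 : Sj H N j * Fp (d4 H n z z l j) ≤ Sj H N j * ((1 + 1 / 1000) * W4) :=
      mul_le_mul_of_nonneg_left hmt hSj0
    have h2 : Sj H N j * ((1 + 1 / 1000) * W4) ≤
        101 / 100 * (c * mN H.F N) * ((1 + 1 / 1000) * W4) :=
      mul_le_mul_of_nonneg_right hms1 (by positivity)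
    have h3 : 0 ≤ mN H.F N * (c * W4) := by positivity
    nlinarith
  have hE0' : 0 ≤ Er1 := (abs_nonneg _).trans key1
  have herr3 : Er1 ≤ L * Er1 := le_mul_of_one_le_left hE0' (by linarith)
  linarith

end Pool.Agent.HC.M
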