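import Pool.Agent.Lib.MP_0da313_nt.HC.M
import Pool.Agent.Lib.MP_89da58_nt.BvW

set_option autoImplicit false

/-!
[HC bvx]: the theorem of Bombieri and Vinogradov for the primes of a linear member in the window.
-/

namespace Pool.Agent.HC.M

open Finset Filter Polynomial
open Pool.Agent.MP89da58 (tri)
open Pool.Agent.CH (thP)
open Pool.Agent.CM (wd sA sT er)
open Pool.Agent.NC (Hn)
open Pool.Agent.HC (Fam2 Sj ph)

namespace Bvx

/-! ### The window function -/

theorem tri_nn (a : ℝ) : 0 ≤ tri a := le_max_left _ _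

theorem tri_lip (a b : ℝ) : |tri a - tri b| ≤ |a - b| := by
  unfold tri
  rw [max_comm 0, max_comm 0]
  refine (abs_max_sub_max_le_abs _ _ _).trans ?_
  rw [show (1 - |a|) - (1 - |b|) = |b| - |a| by ring, abs_sub_comm a b]
  exact abs_abs_sub_abs_le_abs_sub b a

theorem tri_ne {a : ℝ} (h : tri a ≠ 0) : |a| < 1 := by
  by_contra hc
  apply h
  unfold tri
  exact max_eq_left (by linarith [not_lt.mp hc])

theorem loc0 {lam y : ℝ} (hl : 0 < lam) (h : tri (lam * y) ≠ 0) : |y| < 1 / lam := by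
  have h1 := tri_ne h
  rw [abs_mul, abs_of_pos hl] at h1
  rwa [lt_div_iff₀' hl]

theorem loc1 {lam t X : ℝ} (hl : 2000 ≤ lam) (ht : 0 < t) (hX : 0 < X)
    (h : tri (lam * Real.log (t / X)) ≠ 0) : X / 2 < t ∧ t < 2 * X := by
  have h1 := loc0 (by linarith) h
  have h2 : 1 / lam ≤ 1 / 2000 := one_div_le_one_div_of_le (by norm_num) hl
  have h3 := Real.log_two_gt_d9
  have h4 := abs_lt.mp h1
  have hp : 0 < t / X := div_pos ht hX
  constructor
  · have h5 : Real.log (1 / 2) < Real.log (t / X) := by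
      rw [one_div, Real.log_inv]
      linarith [h4.1]
    have h6 := (Real.log_lt_log_iff (by norm_num) hp).mp h5
    rw [lt_div_iff₀ hX] at h6
    linarith
  · have h5 : Real.log (t / X) < Real.log 2 := by linarith [h4.2]
    have h6 := (Real.log_lt_log_iff hp (by norm_num)).mp h5
    rwa [div_lt_iff₀ hX] at h6

theorem log_sub {a b m : ℝ} (hm : 0 < m) (ha : m ≤ a) (hb : m ≤ b) :
    |Real.log a - Real.log b| ≤ |a - b| / m := by
  have key : ∀ x y : ℝ, m ≤ x → m ≤ y → Real.log x - Real.log y ≤ |x - y| / m := by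
    intro x y hx hy
    have hx0 : 0 < x := by linarith
    have hy0 : 0 < y := by linarith
    rw [← Real.log_div hx0.ne' hy0.ne']
    have h1 := Real.log_le_sub_one_of_pos (div_pos hx0 hy0)
    have h2 : x / y - 1 = (x - y) / y := by
      rw [sub_div, div_self hy0.ne']
    rw [h2] at h1
    refine h1.trans ?_
    refine (div_le_div_of_nonneg_right (le_abs_self (x - y)) hy0.le).trans ?_
    exact div_le_div_of_nonneg_left (abs_nonneg _) hm hy
  rw [abs_le]
  constructor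
  · have := key b a hb ha
    rw [abs_sub_comm] at this
    linarith
  · exact key a b ha hb

theorem thP_nn (k : ℕ) : 0 ≤ thP k := by
  unfold thP
  split_ifs
  · exact Real.log_natCast_nonneg k
  · exact le_rfl

theorem thP_le {k : ℕ} (hk : 1 ≤ k) {T : ℝ} (hT : (k : ℝ) ≤ T) : thP k ≤ Real.log T := by
  have hk' : (1 : ℝ) ≤ k := by exact_mod_cast hk
  unfold thP
  split_ifs
  · exact Real.log_le_log (by linarith) hT
  · exact Real.log_nonneg (by linarith)

theorem thP_pr {k : ℕ} (h : thP k ≠ 0) : k.Prime := by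
  unfold thP at h
  by_contra hc
  exact h (if_neg hc)

/-! ### The two sequences -/

/-- The shifted window. -/
noncomputable def bf (v : ℤ) (lam Y : ℝ) (k : ℕ) : ℝ :=
  if v < (k : ℤ) then thP k * tri (lam * Real.log (((k : ℝ) - v) / Y)) else 0

theorem pt {lam Y : ℝ} {v : ℤ} {k : ℕ} (hl : 2000 ≤ lam) (hv : 8 * |(v : ℝ)| ≤ Y) (hY : 0 < Y)
    (hk1 : 1 ≤ k) (hk : (k : ℝ) ≤ 3 * Y) :
    |bf v lam Y k - thP k * wd lam Y k| ≤ Real.log (3 * Y) * (lam * (8 * |(v : ℝ)| / Y)) := by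
  have hk' : (1 : ℝ) ≤ k := by exact_mod_cast hk1
  have hlog : 0 ≤ Real.log (3 * Y) := Real.log_nonneg (by linarith)
  have hR : 0 ≤ Real.log (3 * Y) * (lam * (8 * |(v : ℝ)| / Y)) := by
    have : 0 ≤ lam := by linarith
    positivity
  have hv1 := abs_le.mp (le_refl |(v : ℝ)|)
  unfold bf wd
  by_cases h4 : (k : ℝ) ≤ Y / 4
  · have h5 : tri (lam * Real.log ((k : ℝ) / Y)) = 0 := by
      by_contra hc
      have := (loc1 hl (by linarith) hY hc).1
      linarith
    rw [h5, mul_zero, sub_zero]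
    split_ifs with h6
    · have h6' : (v : ℝ) < k := by exact_mod_cast h6
      have h7 : tri (lam * Real.log (((k : ℝ) - v) / Y)) = 0 := by
        by_contra hc
        have := (loc1 hl (by linarith) hY hc).1
        linarith [hv1.1]
      rw [h7, mul_zero, abs_zero]
      exact hR
    · rw [abs_zero]
      exact hR
  · rw [not_le] at h4
    have h6' : (v : ℝ) < k := by linarith [hv1.2]
    have h6 : v < (k : ℤ) := by exact_mod_cast h6'
    rw [if_pos h6, ← mul_sub, abs_mul, abs_of_nonneg (thP_nn k)]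
    apply mul_le_mul (thP_le hk1 hk) _ (abs_nonneg _) hlog
    refine (tri_lip _ _).trans ?_
    rw [← mul_sub, abs_mul, abs_of_nonneg (by linarith : 0 ≤ lam)]
    apply mul_le_mul_of_nonneg_left _ (by linarith)
    have h7 : (0 : ℝ) < (k : ℝ) - v := by linarith
    rw [Real.log_div h7.ne' hY.ne', Real.log_div (by linarith : (k : ℝ) ≠ 0) hY.ne',
      sub_sub_sub_cancel_right]
    have h8 := log_sub (a := (k : ℝ) - v) (b := k) (m := Y / 8) (by linarith)
      (by linarith [hv1.2]) (by linarith)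
    refine h8.trans (le_of_eq ?_)
    rw [show (k : ℝ) - v - k = -v by ring, abs_neg]
    field_simp

theorem dif {lam Y : ℝ} {v : ℤ} (hl : 2000 ≤ lam) (hv : 8 * |(v : ℝ)| ≤ Y) (hY : 1 ≤ Y) :
    ∑ k ∈ Icc 1 ⌊3 * Y⌋₊, |bf v lam Y k - thP k * wd lam Y k| ≤
      24 * lam * |(v : ℝ)| * Real.log (3 * Y) := by
  have h1 : ∀ k ∈ Icc 1 ⌊3 * Y⌋₊, |bf v lam Y k - thP k * wd lam Y k| ≤
      Real.log (3 * Y) * (lam * (8 * |(v : ℝ)| / Y)) := by
    intro k hk
    rw [Finset.mem_Icc] at hk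
    exact pt hl hv (by linarith) hk.1 ((Nat.le_floor_iff (by linarith)).mp hk.2)
  refine (Finset.sum_le_sum h1).trans ?_
  rw [Finset.sum_const, Nat.card_Icc, Nat.add_sub_cancel, nsmul_eq_mul]
  have h2 : ((⌊3 * Y⌋₊ : ℕ) : ℝ) ≤ 3 * Y := Nat.floor_le (by linarith)
  have hlog : 0 ≤ Real.log (3 * Y) := Real.log_nonneg (by linarith)
  have hR : 0 ≤ Real.log (3 * Y) * (lam * (8 * |(v : ℝ)| / Y)) := by
    have : 0 ≤ lam := by linarith
    have : 0 < Y := by linarith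
    positivity
  refine (mul_le_mul_of_nonneg_right h2 hR).trans (le_of_eq ?_)
  have : Y ≠ 0 := by linarith
  field_simp
  ring

theorem sA_dif {a a' : ℕ → ℝ} {N q b : ℕ} {K : ℝ} (h : ∑ k ∈ Icc 1 N, |a' k - a k| ≤ K) :
    |sA a' N q b - sA a N q b| ≤ K := by
  unfold sA
  rw [← Finset.sum_sub_distrib]
  refine (Finset.abs_sum_le_sum_abs _ _).trans (le_trans ?_ h)
  exact Finset.sum_le_sum_of_subset_of_nonneg (Finset.filter_subset _ _) fun _ _ _ => abs_nonneg _

theorem sT_dif {a a' : ℕ → ℝ} {N : ℕ} {K : ℝ} (h : ∑ k ∈ Icc 1 N, |a' k - a k| ≤ K) :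
    |sT a' N - sT a N| ≤ K := by
  unfold sT
  rw [← Finset.sum_sub_distrib]
  exact (Finset.abs_sum_le_sum_abs _ _).trans h

theorem er_dif {a a' : ℕ → ℝ} {N q b : ℕ} {K : ℝ} (hq : 1 ≤ q)
    (h : ∑ k ∈ Icc 1 N, |a' k - a k| ≤ K) : er a' N q b ≤ er a N q b + 2 * K := by
  have h1 := sA_dif (q := q) (b := b) h
  have h2 := sT_dif h
  have hφ : (1 : ℝ) ≤ (Nat.totient q : ℝ) := by
    exact_mod_cast Nat.totient_pos.mpr (by omega)
  have h3 : |sT a' N / (Nat.totient q : ℝ) - sT a N / (Nat.totient q : ℝ)| ≤ K := by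
    rw [← sub_div, abs_div, abs_of_pos (by linarith : (0 : ℝ) < (Nat.totient q : ℝ))]
    rw [div_le_iff₀ (by linarith)]
    have hK : 0 ≤ K := le_trans (abs_nonneg _) h2
    nlinarith
  unfold er
  have h4 : sA a' N q b - sT a' N / (Nat.totient q : ℝ) =
      (sA a N q b - sT a N / (Nat.totient q : ℝ)) + (sA a' N q b - sA a N q b) -
        (sT a' N / (Nat.totient q : ℝ) - sT a N / (Nat.totient q : ℝ)) := by ring
  rw [h4]
  refine (abs_sub _ _).trans ?_
  have h5 := abs_add_le (sA a N q b - sT a N / (Nat.totient q : ℝ)) (sA a' N q b - sA a N q b)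
  linarith

/-! ### The sum over a class -/

theorem cls {u : ℕ} {v : ℤ} {lam X : ℝ} {H0 : ℕ} (hu : 1 ≤ u) (hX : 0 < X) (hl : 2000 ≤ lam)
    (hv : |(v : ℝ)| ≤ u * X)
    (hH : ∀ x : ℕ, 1 ≤ x → tri (lam * Real.log ((x : ℝ) / X)) ≠ 0 → x ≤ H0)
    (q c : ℕ) (hq : 1 ≤ q) :
    ∑ x ∈ (Icc 1 H0).filter (fun x => x ≡ c [MOD q]),
      wd lam X x * thP ((u : ℤ) * x + v).toNat =
    sA (bf v lam (u * X)) ⌊3 * (u * X)⌋₊ (u * q)
      (((u : ℤ) * c + v) % ((u * q : ℕ) : ℤ)).toNat := by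
  have huR : (1 : ℝ) ≤ u := by exact_mod_cast hu
  have hu0 : (0 : ℝ) < u := by linarith
  have hY : 0 < (u : ℝ) * X := mul_pos hu0 hX
  have huq : 0 < u * q := Nat.mul_pos hu hq
  have huqZ : (0 : ℤ) < ((u * q : ℕ) : ℤ) := by exact_mod_cast huq
  have hb0 : ((((u : ℤ) * c + v) % ((u * q : ℕ) : ℤ)).toNat : ℤ) =
      ((u : ℤ) * c + v) % ((u * q : ℕ) : ℤ) :=
    Int.toNat_of_nonneg (Int.emod_nonneg _ huqZ.ne')
  -- the congruence
  have hcong : ∀ k : ℕ, k ≡ (((u : ℤ) * c + v) % ((u * q : ℕ) : ℤ)).toNat [MOD (u * q)] ↔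
      (((u * q : ℕ) : ℤ) ∣ (k : ℤ) - ((u : ℤ) * c + v)) := by
    intro k
    rw [← Int.natCast_modEq_iff, hb0, Int.modEq_comm, Int.modEq_iff_dvd]
    constructor
    · intro h
      have h2 : ((u * q : ℕ) : ℤ) ∣ ((u : ℤ) * c + v) % ((u * q : ℕ) : ℤ) - ((u : ℤ) * c + v) := by
        rw [← Int.modEq_iff_dvd]
        exact (Int.mod_modEq _ _).symm
      have := dvd_add h h2
      rwa [sub_add_sub_cancel] at this
    · intro h
      have h2 : ((u * q : ℕ) : ℤ) ∣ ((u : ℤ) * c + v) - ((u : ℤ) * c + v) % ((u * q : ℕ) : ℤ) := by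
        rw [← Int.modEq_iff_dvd]
        exact Int.mod_modEq _ _
      have := dvd_add h h2
      rwa [sub_add_sub_cancel] at this
  have hratio : ∀ x k : ℕ, (k : ℤ) = (u : ℤ) * x + v →
      ((k : ℝ) - v) / (u * X) = (x : ℝ) / X := by
    intro x k hk
    have hk' : (k : ℝ) = (u : ℝ) * x + v := by exact_mod_cast hk
    rw [hk']
    field_simp
    ring
  unfold sA
  refine Finset.sum_bij_ne_zero (fun x _ _ => ((u : ℤ) * x + v).toNat) ?_ ?_ ?_ ?_
  · intro x hx hne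
    rw [Finset.mem_filter, Finset.mem_Icc] at hx
    have hpr := thP_pr (right_ne_zero_of_mul hne)
    have hx1 : (1 : ℝ) ≤ x := by exact_mod_cast hx.1.1
    have hk : ((((u : ℤ) * x + v).toNat : ℕ) : ℤ) = (u : ℤ) * x + v := by
      apply Int.toNat_of_nonneg
      by_contra hc
      rw [Int.toNat_of_nonpos (by omega)] at hpr
      exact Nat.not_prime_zero hpr
    have hkR : ((((u : ℤ) * x + v).toNat : ℕ) : ℝ) = (u : ℝ) * x + v := by exact_mod_cast hk
    have hw := (loc1 hl (by linarith : (0 : ℝ) < x) hX (left_ne_zero_of_mul hne)).2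
    rw [Finset.mem_filter, Finset.mem_Icc]
    refine ⟨⟨hpr.one_le, ?_⟩, ?_⟩
    · apply Nat.le_floor
      rw [hkR]
      have h1 := (abs_le.mp hv).2
      have h2 : (u : ℝ) * x ≤ u * (2 * X) := mul_le_mul_of_nonneg_left hw.le hu0.le
      linarith
    · rw [hcong, hk]
      have h1 : ((q : ℕ) : ℤ) ∣ (x : ℤ) - c := by
        have := (Nat.modEq_iff_dvd.mp hx.2.symm)
        exact this
      obtain ⟨t, ht⟩ := h1
      refine ⟨t, ?_⟩
      push_cast
      rw [show (u : ℤ) * x + v - ((u : ℤ) * c + v) = u * (x - c) by ring, ht]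
      ring
  · intro x hx hne x' hx' hne' he
    have hpr := thP_pr (right_ne_zero_of_mul hne)
    have hpr' := thP_pr (right_ne_zero_of_mul hne')
    have h1 := hpr.pos
    have h2 := hpr'.pos
    have h3 : (u : ℤ) * x + v = (u : ℤ) * x' + v := by
      have e1 : ((((u : ℤ) * x + v).toNat : ℕ) : ℤ) = (u : ℤ) * x + v := by omega
      have e2 : ((((u : ℤ) * x' + v).toNat : ℕ) : ℤ) = (u : ℤ) * x' + v := by omega
      rw [← e1, ← e2, he]
    have h4 : (u : ℤ) * x = (u : ℤ) * x' := by linarith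
    have h5 : (x : ℤ) = x' := mul_left_cancel₀ (by omega) h4
    exact_mod_cast h5
  · intro k hk hne
    rw [Finset.mem_filter, Finset.mem_Icc] at hk
    obtain ⟨⟨hk1, hk2⟩, hk3⟩ := hk
    unfold bf at hne
    have hvk : v < (k : ℤ) := by
      by_contra hc
      exact hne (if_neg hc)
    rw [if_pos hvk] at hne
    rw [hcong] at hk3
    obtain ⟨t, ht⟩ := hk3
    have hz : (k : ℤ) - v = u * (c + q * t) := by
      push_cast at ht
      linear_combination ht
    have hpos : 0 < (c : ℤ) + q * t := by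
      by_contra hc
      have : (u : ℤ) * (c + q * t) ≤ 0 :=
        mul_nonpos_of_nonneg_of_nonpos (by positivity) (by linarith)
      linarith
    obtain ⟨x, hx⟩ : ∃ x : ℕ, (x : ℤ) = c + q * t := ⟨((c : ℤ) + q * t).toNat, by omega⟩
    have hkx : (k : ℤ) = (u : ℤ) * x + v := by rw [hx]; linarith
    have hx1 : 1 ≤ x := by omega
    have htri := right_ne_zero_of_mul hne
    rw [hratio x k hkx] at htri
    have hxH := hH x hx1 htri
    have htoNat : ((u : ℤ) * x + v).toNat = k := by rw [← hkx]; exact Int.toNat_natCast k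
    refine ⟨x, ?_, ?_, htoNat⟩
    · rw [Finset.mem_filter, Finset.mem_Icc]
      refine ⟨⟨hx1, hxH⟩, ?_⟩
      apply Nat.ModEq.symm
      rw [Nat.modEq_iff_dvd]
      exact ⟨t, by rw [hx]; ring⟩
    · rw [htoNat]
      exact mul_ne_zero htri (left_ne_zero_of_mul hne)
  · intro x hx hne
    rw [Finset.mem_filter, Finset.mem_Icc] at hx
    have hpr := thP_pr (right_ne_zero_of_mul hne)
    have hk : ((((u : ℤ) * x + v).toNat : ℕ) : ℤ) = (u : ℤ) * x + v := by
      have := hpr.pos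
      omega
    unfold bf wd
    have hx1 : (1 : ℤ) ≤ x := by exact_mod_cast hx.1.1
    have hlt : v < ((((u : ℤ) * x + v).toNat : ℕ) : ℤ) := by
      rw [hk]
      have : 0 < (u : ℤ) * x := by positivity
      linarith
    rw [if_pos hlt, hratio x _ hk, mul_comm]

/-! ### The sums over the moduli -/

theorem ph_ge {u p : ℕ} (hp : p.Prime) : (p : ℝ) / 2 ≤ ph u p := by
  have h2 : (2 : ℝ) ≤ p := by exact_mod_cast hp.two_le
  unfold ph
  split_ifs
  · linarith
  · rw [Nat.cast_sub hp.one_le, Nat.cast_one]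
    linarith

theorem prod_inv_le {u q : ℕ} (hq : Squarefree q) :
    ∏ p ∈ q.primeFactors, (ph u p)⁻¹ ≤ (2 : ℝ) ^ q.primeFactors.card / q := by
  have h1 : ∏ p ∈ q.primeFactors, (ph u p)⁻¹ ≤ ∏ p ∈ q.primeFactors, (2 / (p : ℝ)) := by
    apply Finset.prod_le_prod
    · intro p hp
      have hpp := Nat.prime_of_mem_primeFactors hp
      have h0 : (0 : ℝ) < p := by exact_mod_cast hpp.pos
      exact inv_nonneg.mpr (by linarith [ph_ge (u := u) hpp])
    · intro p hp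
      have hpp := Nat.prime_of_mem_primeFactors hp
      have h0 : (0 : ℝ) < p := by exact_mod_cast hpp.pos
      rw [← inv_div]
      exact inv_anti₀ (by linarith) (ph_ge hpp)
  refine h1.trans (le_of_eq ?_)
  rw [Finset.prod_div_distrib, Finset.prod_const, ← Nat.cast_prod,
    Nat.prod_primeFactors_of_squarefree hq]

theorem sum1 (b Q : ℕ) (hQ : 1 ≤ Q) :
    ∑ q ∈ (Icc 1 Q).filter Squarefree, (b : ℝ) ^ q.primeFactors.card ≤
      Q * (1 + Real.log Q) ^ b := by
  have h1 := Pool.Agent.MP89da58.sum_omega_le b Q hQ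
  have h2 : ∑ q ∈ (Icc 1 Q).filter Squarefree, (b : ℝ) ^ q.primeFactors.card ≤
      Q * ∑ q ∈ (Icc 1 Q).filter Squarefree, (b : ℝ) ^ q.primeFactors.card / q := by
    rw [Finset.mul_sum]
    apply Finset.sum_le_sum
    intro q hq
    rw [Finset.mem_filter, Finset.mem_Icc] at hq
    have h3 : (0 : ℝ) < q := by exact_mod_cast hq.1.1
    have h4 : (q : ℝ) ≤ Q := by exact_mod_cast hq.1.2
    rw [← mul_div_assoc, le_div_iff₀ h3, mul_comm]
    exact mul_le_mul_of_nonneg_right h4 (by positivity)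
  exact h2.trans (mul_le_mul_of_nonneg_left h1 (Nat.cast_nonneg Q))

theorem sum2 (u b Q : ℕ) (hQ : 1 ≤ Q) :
    ∑ q ∈ (Icc 1 Q).filter Squarefree, (b : ℝ) ^ q.primeFactors.card *
      ∏ p ∈ q.primeFactors, (ph u p)⁻¹ ≤ (1 + Real.log Q) ^ (2 * b) := by
  refine le_trans ?_ (Pool.Agent.MP89da58.sum_omega_le (2 * b) Q hQ)
  apply Finset.sum_le_sum
  intro q hq
  rw [Finset.mem_filter, Finset.mem_Icc] at hq
  refine (mul_le_mul_of_nonneg_left (prod_inv_le hq.2) (by positivity)).trans (le_of_eq ?_)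
  push_cast
  rw [mul_pow]
  ring

theorem inv_nn (u q : ℕ) : 0 ≤ ∏ p ∈ q.primeFactors, (ph u p)⁻¹ :=
  Finset.prod_nonneg fun _ _ => inv_nonneg.mpr (Nat.cast_nonneg _)

theorem tot {u q : ℕ} (hq : Squarefree q) : (Nat.totient (u * q) : ℝ) =
    (Nat.totient (u * 1) : ℝ) * ∏ p ∈ q.primeFactors, ph u p := by
  have h := Pool.Agent.BVall.totient_mul_prod u q.primeFactors
    (fun p hp => Nat.prime_of_mem_primeFactors hp)
  rw [Nat.prod_primeFactors_of_squarefree hq] at h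
  rw [h, mul_one]
  unfold ph
  push_cast
  rfl

/-- The comparison of a class with the total sum. -/
theorem cmp {a' : ℕ → ℝ} {N' u q b0 v0 : ℕ} (hq : Squarefree q) :
    |sA a' N' (u * q) b0 - sA a' N' (u * 1) v0 * ∏ p ∈ q.primeFactors, (ph u p)⁻¹| ≤
      er a' N' (u * q) b0 + er a' N' (u * 1) v0 * ∏ p ∈ q.primeFactors, (ph u p)⁻¹ := by
  have h1 : sT a' N' / (Nat.totient (u * q) : ℝ) =
      sT a' N' / (Nat.totient (u * 1) : ℝ) * ∏ p ∈ q.primeFactors, (ph u p)⁻¹ := by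
    rw [tot hq, Finset.prod_inv_distrib, ← div_div, div_eq_mul_inv (_ / _)]
  have h2 : sA a' N' (u * q) b0 - sA a' N' (u * 1) v0 * ∏ p ∈ q.primeFactors, (ph u p)⁻¹ =
      (sA a' N' (u * q) b0 - sT a' N' / (Nat.totient (u * q) : ℝ)) -
      (sA a' N' (u * 1) v0 - sT a' N' / (Nat.totient (u * 1) : ℝ)) *
        ∏ p ∈ q.primeFactors, (ph u p)⁻¹ := by
    rw [h1]
    ring
  rw [h2]
  refine (abs_sub _ _).trans ?_
  rw [abs_mul, abs_of_nonneg (inv_nn u q)]
  exact le_rfl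

/-! ### Large `N` -/

theorem num {L x0 q0 Y lY u D C S1 S2 S3 e1 : ℝ} {A b : ℕ} (hL : 1 ≤ L) (hx0 : 0 < x0)
    (hY : Y ≤ u * x0) (hlY : L / D ≤ lY) (hD : 1 ≤ D) (hu : 0 < u) (hC : 0 ≤ C)
    (hq0 : 1 ≤ q0) (hq : 8 * C * L ^ (2 * b + 1 + A) ≤ q0) (hqq : q0 * q0 ≤ x0)
    (hLu : 4 * u * D ^ (A + 2 * b + 1) ≤ L)
    (hS1 : S1 ≤ Y / lY ^ (A + 2 * b + 1)) (he1 : e1 ≤ Y / lY ^ (A + 2 * b + 1))
    (hS2 : S2 ≤ q0 * L ^ b) (hS3 : S3 ≤ L ^ (2 * b)) (hS30 : 0 ≤ S3) :
    S1 + 2 * (C * L) * S2 + (e1 + 2 * (C * L)) * S3 ≤ x0 / L ^ A := by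
  have hL0 : 0 < L := by linarith
  have hD0 : 0 < D := by linarith
  have hLA : 0 < L ^ A := pow_pos hL0 A
  set W : ℝ := x0 / (4 * L ^ A) with hW
  have hW0 : 0 < W := by positivity
  have hL2b : 1 ≤ L ^ (2 * b) := one_le_pow₀ hL
  -- the first error
  have hE : Y / lY ^ (A + 2 * b + 1) * L ^ (2 * b) ≤ W := by
    have h1 : (L / D) ^ (A + 2 * b + 1) ≤ lY ^ (A + 2 * b + 1) :=
      pow_le_pow_left₀ (by positivity) hlY _
    have h2 : Y / lY ^ (A + 2 * b + 1) ≤ u * x0 / (L / D) ^ (A + 2 * b + 1) := by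
      have h3 : 0 < (L / D) ^ (A + 2 * b + 1) := by positivity
      refine (div_le_div_of_nonneg_right hY (h3.le.trans h1)).trans ?_
      exact div_le_div_of_nonneg_left (by positivity) h3 h1
    refine (mul_le_mul_of_nonneg_right h2 (by positivity)).trans ?_
    have h4 : u * x0 / (L / D) ^ (A + 2 * b + 1) * L ^ (2 * b) =
        (u * D ^ (A + 2 * b + 1)) * (x0 / (L ^ A * L)) := by
      rw [div_pow, show L ^ (A + 2 * b + 1) = L ^ A * L * L ^ (2 * b) by ring]
      field_simp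
    rw [h4]
    have h5 : u * D ^ (A + 2 * b + 1) ≤ L / 4 := by linarith
    refine (mul_le_mul_of_nonneg_right h5 (by positivity)).trans (le_of_eq ?_)
    rw [hW]
    field_simp
  have hE' : Y / lY ^ (A + 2 * b + 1) ≤ W := by
    rcases le_or_gt (Y / lY ^ (A + 2 * b + 1)) 0 with h | h
    · linarith
    · nlinarith
  -- the second error
  have hK : 2 * C * L ^ (2 * b + 1) * q0 ≤ W := by
    rw [hW, le_div_iff₀ (by positivity)]
    have h1 : 8 * C * L ^ (2 * b + 1 + A) * q0 ≤ q0 * q0 :=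
      mul_le_mul_of_nonneg_right hq (by linarith)
    calc 2 * C * L ^ (2 * b + 1) * q0 * (4 * L ^ A) = 8 * C * L ^ (2 * b + 1 + A) * q0 := by ring
      _ ≤ x0 := h1.trans hqq
  have hK2 : 2 * (C * L) * S2 ≤ W := by
    refine le_trans ?_ hK
    have h1 : L ^ b ≤ L ^ (2 * b) := pow_le_pow_right₀ hL (by omega)
    calc 2 * (C * L) * S2 ≤ 2 * (C * L) * (q0 * L ^ b) :=
          mul_le_mul_of_nonneg_left hS2 (by positivity)
      _ ≤ 2 * (C * L) * (q0 * L ^ (2 * b)) := by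
          apply mul_le_mul_of_nonneg_left _ (by positivity)
          exact mul_le_mul_of_nonneg_left h1 (by linarith)
      _ = 2 * C * L ^ (2 * b + 1) * q0 := by ring
  have hK3 : 2 * (C * L) * S3 ≤ W := by
    refine le_trans ?_ hK
    calc 2 * (C * L) * S3 ≤ 2 * (C * L) * L ^ (2 * b) :=
          mul_le_mul_of_nonneg_left hS3 (by positivity)
      _ = 2 * C * L ^ (2 * b + 1) * 1 := by ring
      _ ≤ 2 * C * L ^ (2 * b + 1) * q0 := mul_le_mul_of_nonneg_left hq0 (by positivity)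
  have hE3 : e1 * S3 ≤ W := by
    rcases le_or_gt e1 0 with h | h
    · exact (mul_nonpos_of_nonpos_of_nonneg h hS30).trans hW0.le
    · calc e1 * S3 ≤ e1 * L ^ (2 * b) := mul_le_mul_of_nonneg_left hS3 h.le
        _ ≤ Y / lY ^ (A + 2 * b + 1) * L ^ (2 * b) :=
          mul_le_mul_of_nonneg_right he1 (by positivity)
        _ ≤ W := hE
  have h4 : x0 / L ^ A = 4 * W := by
    rw [hW]
    field_simp
  rw [h4]
  nlinarith

theorem logpow (k : ℕ) {ε K : ℝ} (hε : 0 < ε) (hK : 0 ≤ K) :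
    ∀ᶠ N : ℕ in atTop, K * (Real.log N) ^ k ≤ (N : ℝ) ^ ε := by
  have h := (isLittleO_log_rpow_rpow_atTop (k : ℝ) hε).bound
    (show (0 : ℝ) < 1 / (K + 1) by positivity)
  have h2 := tendsto_natCast_atTop_atTop.eventually h
  filter_upwards [h2, eventually_ge_atTop 1] with N hN h1
  have hlog : 0 ≤ Real.log N := Real.log_natCast_nonneg N
  rw [Real.rpow_natCast, Real.norm_of_nonneg (by positivity),
    Real.norm_of_nonneg (by positivity), one_div, ← div_eq_inv_mul,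
    le_div_iff₀ (by linarith)] at hN
  have : 0 ≤ (Real.log N) ^ k := by positivity
  nlinarith

open Pool.Agent.CM (BVc CP) in
theorem inner {u d E : ℕ} {v : ℤ} {s : ℝ} (b A : ℕ) (hu : 1 ≤ u) (huv : IsCoprime (u : ℤ) v)
    (hd : 2 ≤ d) (hE : 1 ≤ E) (hs0 : 1 / 4 ≤ s) (hs1 : s ≤ 1 / 2)
    (hBV : BVc CP (1000 * d * E)) : ∀ᶠ N : ℕ in atTop, ∃ Eq : ℕ → ℝ,
    (∀ q, 0 ≤ Eq q) ∧
    (∀ q c : ℕ, Squarefree q → (q : ℝ) ≤ (N : ℝ) ^ (1 / (1000 * d) : ℝ) →
      IsCoprime (q : ℤ) ((u : ℤ) * c + v) →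
      |∑ x ∈ (Icc 1 (Hn d N)).filter (fun x => x ≡ c [MOD q]),
          wd (1000 * d * E) ((s * N) ^ (1 / (d : ℝ))) x * thP ((u : ℤ) * x + v).toNat -
        (∑ x ∈ Icc 1 (Hn d N),
          wd (1000 * d * E) ((s * N) ^ (1 / (d : ℝ))) x * thP ((u : ℤ) * x + v).toNat) *
          ∏ p ∈ q.primeFactors, (ph u p)⁻¹| ≤ Eq q) ∧
    ∑ q ∈ (Icc 1 ⌊(N : ℝ) ^ (1 / (1000 * d) : ℝ)⌋₊).filter Squarefree,
      (b : ℝ) ^ q.primeFactors.card * Eq q ≤ (N : ℝ) ^ (1 / (d : ℝ)) / (Real.log N) ^ A := by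
  classical
  have hdR : (2 : ℝ) ≤ d := by exact_mod_cast hd
  have hd0 : (0 : ℝ) < d := by linarith
  have hER : (1 : ℝ) ≤ E := by exact_mod_cast hE
  have huR : (1 : ℝ) ≤ u := by exact_mod_cast hu
  have hs : 0 < s := by linarith
  set lam : ℝ := 1000 * d * E with hlam
  have hlam1 : 1000 * (d : ℝ) ≤ lam := by rw [hlam]; nlinarith
  have hl : 2000 ≤ lam := by linarith
  have hv0 : 0 ≤ |(v : ℝ)| := abs_nonneg _
  obtain ⟨C, hC⟩ : ∃ C : ℝ, C = 24 * lam * |(v : ℝ)| := ⟨_, rfl⟩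
  have hC0 : 0 ≤ C := by rw [hC]; have : 0 ≤ lam := by linarith
                         positivity
  have hX : Tendsto (fun N : ℕ => (s * N) ^ (1 / (d : ℝ))) atTop atTop :=
    (tendsto_rpow_atTop (by positivity)).comp
      (tendsto_natCast_atTop_atTop.const_mul_atTop hs)
  have hY : Tendsto (fun N : ℕ => (u : ℝ) * (s * N) ^ (1 / (d : ℝ))) atTop atTop :=
    hX.const_mul_atTop (by linarith)
  have hbv := hY.eventually (hBV (A + 2 * b + 1) u b (1 / 4) hu (by norm_num))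
  have hlogt : Tendsto (fun N : ℕ => Real.log N) atTop atTop :=
    Real.tendsto_log_atTop.comp tendsto_natCast_atTop_atTop
  have hsq : Tendsto (fun N : ℕ => (N : ℝ) ^ (1 / 2 : ℝ)) atTop atTop :=
    (tendsto_rpow_atTop (by norm_num)).comp tendsto_natCast_atTop_atTop
  filter_upwards [hbv, hX.eventually_ge_atTop (8 * |(v : ℝ)| + 1),
    logpow (2 * b + 1 + A) (K := 8 * C) (show (0 : ℝ) < 1 / (1000 * d) by positivity)
      (by positivity),
    hlogt.eventually_ge_atTop (4 * u * (2 * d) ^ (A + 2 * b + 1) + 3 + 2 * Real.log 4),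
    hsq.eventually_ge_atTop (3 * u), eventually_ge_atTop 16] with N hbv hXN hq0 hLN hsqN h16
  have hN16 : (16 : ℝ) ≤ N := by exact_mod_cast h16
  have hN0 : (0 : ℝ) < N := by linarith
  have hN1 : (1 : ℝ) ≤ N := by linarith
  have hsN : 0 < s * N := mul_pos hs hN0
  have hlog4 : 0 < Real.log 4 := Real.log_pos (by norm_num)
  obtain ⟨L, hL⟩ : ∃ L, L = Real.log N := ⟨_, rfl⟩
  obtain ⟨X, hXd⟩ : ∃ X, X = (s * (N : ℝ)) ^ (1 / (d : ℝ)) := ⟨_, rfl⟩
  obtain ⟨x0, hx0d⟩ : ∃ x0, x0 = (N : ℝ) ^ (1 / (d : ℝ)) := ⟨_, rfl⟩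
  obtain ⟨q0, hq0d⟩ : ∃ q0, q0 = (N : ℝ) ^ (1 / (1000 * d) : ℝ) := ⟨_, rfl⟩
  rw [← hL] at hLN
  have hpow0 : (0 : ℝ) ≤ 4 * u * (2 * d) ^ (A + 2 * b + 1) := by positivity
  have hL3 : 3 ≤ L := by linarith
  rw [← hXd] at hXN
  have hX1 : 1 ≤ X := by linarith
  have hXx0 : X ≤ x0 := by
    rw [hXd, hx0d]
    exact Real.rpow_le_rpow hsN.le (by nlinarith) (by positivity)
  have hx0s : x0 ≤ (N : ℝ) ^ (1 / 2 : ℝ) := by
    rw [hx0d]
    apply Real.rpow_le_rpow_of_exponent_le hN1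
    exact one_div_le_one_div_of_le (by norm_num) hdR
  obtain ⟨Y, hYd⟩ : ∃ Y, Y = (u : ℝ) * X := ⟨_, rfl⟩
  have hXY : X ≤ Y := by rw [hYd]; nlinarith
  have hYx0 : Y ≤ u * x0 := by rw [hYd]; exact mul_le_mul_of_nonneg_left hXx0 (by linarith)
  have h3Y : 3 * Y ≤ N := by
    have h1 : (N : ℝ) ^ (1 / 2 : ℝ) * (N : ℝ) ^ (1 / 2 : ℝ) = N := by
      rw [← Real.rpow_add hN0]
      norm_num
    have h2 : 3 * Y ≤ (3 * u) * (N : ℝ) ^ (1 / 2 : ℝ) := by nlinarith
    refine h2.trans ?_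
    refine (mul_le_mul_of_nonneg_right hsqN (by positivity)).trans (le_of_eq h1)
  have hlogX : Real.log X = 1 / (d : ℝ) * (Real.log s + L) := by
    rw [hXd, Real.log_rpow hsN, Real.log_mul hs.ne' hN0.ne', hL]
  have hlogs : -Real.log 4 ≤ Real.log s := by
    rw [← Real.log_inv]
    exact Real.log_le_log (by norm_num) (by linarith)
  have hlogs2 : Real.log s ≤ -Real.log 2 := by
    rw [← Real.log_inv]
    exact Real.log_le_log hs (by linarith)
  have hlogY : L / (2 * d) ≤ Real.log Y := by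
    have h1 : Real.log X ≤ Real.log Y := Real.log_le_log (by linarith) hXY
    refine le_trans ?_ h1
    rw [hlogX, div_le_iff₀ (by linarith)]
    have h2 : 1 / (d : ℝ) * (Real.log s + L) * (2 * d) = 2 * (Real.log s + L) := by
      field_simp
    rw [h2]
    linarith
  have hq0Y : q0 ≤ Y ^ (1 / 2 - 1 / 4 : ℝ) := by
    have h1 : (N : ℝ) ^ (1 / 2 : ℝ) ≤ s * N := by
      have h2 : (4 : ℝ) ≤ (N : ℝ) ^ (1 / 2 : ℝ) := by
        rw [← Real.sqrt_eq_rpow]
        exact Real.le_sqrt_of_sq_le (by linarith)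
      have h3 : (N : ℝ) ^ (1 / 2 : ℝ) * (N : ℝ) ^ (1 / 2 : ℝ) = N := by
        rw [← Real.rpow_add hN0]
        norm_num
      nlinarith
    have h2 : (N : ℝ) ^ (1 / 2 * (1 / d * (1 / 4)) : ℝ) ≤ X ^ (1 / 4 : ℝ) := by
      rw [Real.rpow_mul hN0.le, hXd, ← Real.rpow_mul hsN.le]
      exact Real.rpow_le_rpow (by positivity) h1 (by positivity)
    have h3 : X ^ (1 / 4 : ℝ) ≤ Y ^ (1 / 4 : ℝ) :=
      Real.rpow_le_rpow (by linarith) hXY (by norm_num)
    have h4 : q0 ≤ (N : ℝ) ^ (1 / 2 * (1 / d * (1 / 4)) : ℝ) := by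
      rw [hq0d]
      apply Real.rpow_le_rpow_of_exponent_le hN1
      rw [show (1 / 2 * (1 / d * (1 / 4)) : ℝ) = 1 / (8 * d) by field_simp; norm_num]
      exact one_div_le_one_div_of_le (by positivity) (by linarith)
    rw [show (1 / 2 - 1 / 4 : ℝ) = 1 / 4 by norm_num]
    exact (h4.trans h2).trans h3
  have hq01 : 1 ≤ q0 := by
    rw [hq0d]
    exact Real.one_le_rpow hN1 (by positivity)
  have hqq : q0 * q0 ≤ x0 := by
    rw [hq0d, hx0d, ← Real.rpow_add hN0]
    apply Real.rpow_le_rpow_of_exponent_le hN1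
    rw [← two_mul, mul_one_div, div_le_div_iff₀ (by positivity) hd0]
    linarith
  -- the window is inside the interval
  have hH : ∀ x : ℕ, 1 ≤ x → tri (lam * Real.log ((x : ℝ) / X)) ≠ 0 → x ≤ Hn d N := by
    intro x hx hne
    have hxR : (1 : ℝ) ≤ x := by exact_mod_cast hx
    have h1 := (abs_lt.mp (loc0 (by linarith) hne)).2
    have h2 : 1 / lam ≤ 1 / (1000 * d) := one_div_le_one_div_of_le (by positivity) hlam1
    rw [Real.log_div (by linarith) (by linarith), hlogX] at h1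
    have h3 : Real.log x ≤ Real.log x0 := by
      rw [hx0d, Real.log_rpow hN0, ← hL]
      have h4 : 1 / (d : ℝ) * (Real.log s + L) ≤ 1 / (d : ℝ) * (L - 1 / 1000) := by
        apply mul_le_mul_of_nonneg_left _ (by positivity)
        have := Real.log_two_gt_d9
        linarith
      have h5 : 1 / (d : ℝ) * (L - 1 / 1000) = 1 / d * L - 1 / (1000 * d) := by
        field_simp
      linarith
    have h6 : (x : ℝ) ≤ x0 := (Real.log_le_log_iff (by linarith) (by linarith)).mp h3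
    unfold Hn
    apply Nat.le_floor
    rw [← hx0d]
    exact h6
  -- the two sequences
  obtain ⟨K, hKd⟩ : ∃ K, K = C * L := ⟨_, rfl⟩
  have hK0 : 0 ≤ K := by rw [hKd]; exact mul_nonneg hC0 (by linarith)
  have hdif : ∑ k ∈ Icc 1 ⌊3 * Y⌋₊, |bf v lam Y k - thP k * wd lam Y k| ≤ K := by
    refine (dif hl (by linarith) (by linarith)).trans ?_
    rw [hKd, hC, hL]
    apply mul_le_mul_of_nonneg_left (Real.log_le_log (by linarith) h3Y)
    have : 0 ≤ lam := by linarith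
    positivity
  have hcls := fun q c hq => cls (u := u) (v := v) (lam := lam) (X := X) (H0 := Hn d N) hu
    (by linarith) hl (by rw [← hYd]; linarith) hH q c hq
  simp only [← hYd] at hcls
  obtain ⟨a, ha⟩ : ∃ a : ℕ → ℝ, a = fun k => thP k * wd lam Y k := ⟨_, rfl⟩
  obtain ⟨N', hN'⟩ : ∃ N', N' = ⌊3 * Y⌋₊ := ⟨_, rfl⟩
  have hmax : ∀ q : ℕ, ∃ c : ℕ, c.Coprime (u * q) ∧ ∀ c' : ℕ, c' < u * q → c'.Coprime (u * q) →
      er a N' (u * q) c' ≤ er a N' (u * q) c := by
    intro q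
    obtain ⟨c, hc, hm⟩ := Finset.exists_max_image
      ((range (u * q + 2)).filter (fun c => c.Coprime (u * q))) (fun c => er a N' (u * q) c)
      ⟨1, by
        rw [Finset.mem_filter, Finset.mem_range]
        exact ⟨by omega, Nat.coprime_one_left _⟩⟩
    rw [Finset.mem_filter] at hc
    refine ⟨c, hc.2, fun c' h1 h2 => hm c' ?_⟩
    rw [Finset.mem_filter, Finset.mem_range]
    exact ⟨by omega, h2⟩
  choose aq hcop hmx using hmax
  have hsum := hbv thP rfl aq hcop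
  rw [← hXd, ← hYd, ← ha, ← hN'] at hsum
  have hres : ∀ q c : ℕ, 1 ≤ q → IsCoprime (q : ℤ) ((u : ℤ) * c + v) →
      er (bf v lam Y) N' (u * q) (((u : ℤ) * c + v) % ((u * q : ℕ) : ℤ)).toNat ≤
        er a N' (u * q) (aq q) + 2 * K := by
    intro q c hq hco
    have huq : 1 ≤ u * q := Nat.mul_pos hu hq
    have hdif' : ∑ k ∈ Icc 1 N', |bf v lam Y k - a k| ≤ K := by
      rw [hN', ha]
      exact hdif
    refine (er_dif huq hdif').trans ?_
    have huqZ : (0 : ℤ) < ((u * q : ℕ) : ℤ) := by exact_mod_cast huq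
    have hnn := Int.emod_nonneg ((u : ℤ) * c + v) huqZ.ne'
    have hlt := Int.emod_lt_of_pos ((u : ℤ) * c + v) huqZ
    have hcast : ((((u : ℤ) * c + v) % ((u * q : ℕ) : ℤ)).toNat : ℤ) =
      ((u : ℤ) * c + v) % ((u * q : ℕ) : ℤ) := Int.toNat_of_nonneg hnn
    have h1 := hmx q (((u : ℤ) * c + v) % ((u * q : ℕ) : ℤ)).toNat (by omega) (by
      rw [← Nat.isCoprime_iff_coprime, hcast]
      have h2 : IsCoprime ((u : ℤ) * c + v) ((u * q : ℕ) : ℤ) := by
        push_cast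
        apply IsCoprime.mul_right
        · rw [isCoprime_comm, add_comm]
          exact (IsCoprime.add_mul_left_right_iff).mpr huv
        · exact hco.symm
      have h3 : ((u : ℤ) * c + v) % ((u * q : ℕ) : ℤ) =
          ((u : ℤ) * c + v) + ((u * q : ℕ) : ℤ) * (-(((u : ℤ) * c + v) / ((u * q : ℕ) : ℤ))) := by
        have := Int.emod_add_mul_ediv ((u : ℤ) * c + v) ((u * q : ℕ) : ℤ)
        linarith
      rw [h3]
      exact (IsCoprime.add_mul_left_left_iff).mpr h2)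
    linarith
  have hern : ∀ q c : ℕ, 0 ≤ er a N' q c := fun q c => abs_nonneg _
  refine ⟨fun q => er a N' (u * q) (aq q) + 2 * K + (er a N' (u * 1) (aq 1) + 2 * K) *
    ∏ p ∈ q.primeFactors, (ph u p)⁻¹, ?_, ?_, ?_⟩
  · intro q
    have h1 := hern (u * q) (aq q)
    have h2 := hern (u * 1) (aq 1)
    have h3 := inv_nn u q
    positivity
  · intro q c hsf _ hco
    have hq : 1 ≤ q := Nat.pos_of_ne_zero hsf.ne_zero
    have e1 := hcls q c hq
    have e2 := hcls 1 0 le_rfl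
    rw [Finset.filter_true_of_mem (fun x _ => Nat.modEq_one)] at e2
    rw [← hXd, e1, e2, ← hN']
    refine (cmp hsf).trans ?_
    have h1 := hres q c hq hco
    have h2 := hres 1 0 le_rfl (by
      rw [Nat.cast_one]
      exact isCoprime_one_left)
    have h3 := mul_le_mul_of_nonneg_right h2 (inv_nn u q)
    linarith
  · rw [← hq0d, ← hx0d, ← hL]
    have hQ1 : 1 ≤ ⌊q0⌋₊ := Nat.le_floor (by rw [Nat.cast_one]; exact hq01)
    have hQq0 : ((⌊q0⌋₊ : ℕ) : ℝ) ≤ q0 := Nat.floor_le (by linarith)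
    have hQ0 : (1 : ℝ) ≤ ((⌊q0⌋₊ : ℕ) : ℝ) := by exact_mod_cast hQ1
    have hlogQ : 1 + Real.log ((⌊q0⌋₊ : ℕ) : ℝ) ≤ L := by
      have h1 : Real.log ((⌊q0⌋₊ : ℕ) : ℝ) ≤ Real.log q0 := Real.log_le_log (by linarith) hQq0
      have h0 : Real.log q0 = 1 / (1000 * d : ℝ) * L := by
        rw [hq0d, Real.log_rpow hN0, ← hL]
      have h2 : 1 / (1000 * d : ℝ) * L ≤ 1 / 2 * L := by
        apply mul_le_mul_of_nonneg_right _ (by linarith)
        exact one_div_le_one_div_of_le (by norm_num) (by linarith)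
      linarith
    have hlogQ0 : 0 ≤ Real.log ((⌊q0⌋₊ : ℕ) : ℝ) := Real.log_nonneg hQ0
    obtain ⟨Q, hQ⟩ : ∃ Q, Q = ⌊q0⌋₊ := ⟨_, rfl⟩
    rw [← hQ] at hQ1 hQq0 hQ0 hlogQ hlogQ0 ⊢
    -- the sums
    have hS1 : ∑ q ∈ (Icc 1 Q).filter Squarefree, (b : ℝ) ^ q.primeFactors.card *
        er a N' (u * q) (aq q) ≤ Y / (Real.log Y) ^ (A + 2 * b + 1) := by
      refine le_trans ?_ hsum
      apply Finset.sum_le_sum_of_subset_of_nonneg
      · intro q hq
        rw [Finset.mem_filter, Finset.mem_Icc] at hq ⊢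
        refine ⟨⟨hq.1.1, hq.1.2.trans ?_⟩, hq.2⟩
        rw [hQ]
        exact Nat.floor_le_floor hq0Y
      · intro q _ _
        exact mul_nonneg (by positivity) (hern _ _)
    have he1 : er a N' (u * 1) (aq 1) ≤ Y / (Real.log Y) ^ (A + 2 * b + 1) := by
      refine le_trans ?_ hS1
      have h1 := Finset.single_le_sum (s := (Icc 1 Q).filter Squarefree)
        (f := fun q : ℕ => (b : ℝ) ^ q.primeFactors.card * er a N' (u * q) (aq q))
        (fun q _ => mul_nonneg (by positivity) (hern _ _))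
        (show (1 : ℕ) ∈ (Icc 1 Q).filter Squarefree by
          rw [Finset.mem_filter, Finset.mem_Icc]
          exact ⟨⟨le_rfl, hQ1⟩, squarefree_one⟩)
      simpa using h1
    have hS2 : ∑ q ∈ (Icc 1 Q).filter Squarefree, (b : ℝ) ^ q.primeFactors.card ≤
        q0 * L ^ b := by
      refine (sum1 b Q hQ1).trans ?_
      exact mul_le_mul hQq0 (pow_le_pow_left₀ (by linarith) hlogQ b)
        (by positivity) (by linarith)
    have hS3 : ∑ q ∈ (Icc 1 Q).filter Squarefree, (b : ℝ) ^ q.primeFactors.card *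
        ∏ p ∈ q.primeFactors, (ph u p)⁻¹ ≤ L ^ (2 * b) :=
      (sum2 u b Q hQ1).trans (pow_le_pow_left₀ (by linarith) hlogQ _)
    have hS30 : 0 ≤ ∑ q ∈ (Icc 1 Q).filter Squarefree, (b : ℝ) ^ q.primeFactors.card *
        ∏ p ∈ q.primeFactors, (ph u p)⁻¹ :=
      Finset.sum_nonneg fun q _ => mul_nonneg (by positivity) (inv_nn u q)
    have hfin := num (A := A) (b := b) (L := L) (x0 := x0) (q0 := q0) (Y := Y)
      (lY := Real.log Y) (u := u) (D := 2 * d) (C := C) (by linarith) (by linarith) hYx0 hlogY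
      (by linarith) (by linarith) hC0 hq01 (by rw [hL, hq0d]; exact hq0) hqq (by linarith)
      hS1 he1 hS2 hS3 hS30
    refine le_trans (le_of_eq ?_) hfin
    rw [← hKd, Finset.mul_sum, Finset.mul_sum, ← Finset.sum_add_distrib,
      ← Finset.sum_add_distrib]
    apply Finset.sum_congr rfl
    intro q _
    ring

end Bvx

theorem p_bvx : S_bvx := by
  intro hB ι κ _ _ _ _ D d E H j b A
  have hd : (2 : ℝ) ≤ d := by exact_mod_cast H.F.hd
  have hE : (1 : ℝ) ≤ E := by exact_mod_cast H.F.hE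
  exact Bvx.inner b A (H.hu j) (H.huv j) H.F.hd H.F.hE H.F.hs0 H.F.hs1
    (hB (1000 * d * E) (by nlinarith)).1

end Pool.Agent.HC.M
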