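import Pool.Agent.Lib.MP_0da313_nt.HC.W

set_option autoImplicit false

/-!
# Project HC: Cauchy's inequality, twice, in every residue class
-/

namespace Pool.Agent.HC.W

open Finset Polynomial
open Pool.Agent.SP80 (ex)
open Pool.Agent.NC.Wy (norm_ex ex_add conj_ex)

/-- Cauchy's inequality, twice -/
theorem cs_abs (sJ sI : Finset ℕ) (α β : ℕ → ℂ) (K : ℕ → ℕ → ℂ) :
    ‖∑ j ∈ sJ, ∑ i ∈ sI, α j * β i * K j i‖ ^ 4 ≤
      (∑ j ∈ sJ, ‖α j‖ ^ 2) ^ 2 * (∑ i ∈ sI, ‖β i‖ ^ 2) ^ 2 *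
        ∑ i1 ∈ sI, ∑ i2 ∈ sI, ‖∑ j ∈ sJ, K j i1 * (starRingEnd ℂ) (K j i2)‖ ^ 2 := by
  obtain ⟨g, hg⟩ : ∃ g : ℕ → ℂ, g = fun j => ∑ i ∈ sI, β i * K j i := ⟨_, rfl⟩
  obtain ⟨G, hG⟩ : ∃ G : ℝ, G = ∑ j ∈ sJ, ‖g j‖ ^ 2 := ⟨_, rfl⟩
  have hG0 : 0 ≤ G := by rw [hG]; positivity
  have h1 : ‖∑ j ∈ sJ, ∑ i ∈ sI, α j * β i * K j i‖ ^ 2 ≤ (∑ j ∈ sJ, ‖α j‖ ^ 2) * G := by
    have e : ∑ j ∈ sJ, ∑ i ∈ sI, α j * β i * K j i = ∑ j ∈ sJ, α j * g j := by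
      apply Finset.sum_congr rfl
      intro j _
      rw [hg, Finset.mul_sum]
      exact Finset.sum_congr rfl fun i _ => by ring
    rw [e, hG]
    calc ‖∑ j ∈ sJ, α j * g j‖ ^ 2 ≤ (∑ j ∈ sJ, ‖α j‖ * ‖g j‖) ^ 2 := by
          refine pow_le_pow_left₀ (norm_nonneg _) ?_ 2
          refine (norm_sum_le _ _).trans (le_of_eq ?_)
          exact Finset.sum_congr rfl fun j _ => norm_mul _ _
      _ ≤ _ := Finset.sum_mul_sq_le_sq_mul_sq _ _ _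
  have h2 : G ^ 2 ≤ (∑ i ∈ sI, ‖β i‖ ^ 2) ^ 2 *
      ∑ i1 ∈ sI, ∑ i2 ∈ sI, ‖∑ j ∈ sJ, K j i1 * (starRingEnd ℂ) (K j i2)‖ ^ 2 := by
    have e1 : (G : ℂ) = ∑ p ∈ sI ×ˢ sI, β p.1 * (starRingEnd ℂ) (β p.2) *
        ∑ j ∈ sJ, K j p.1 * (starRingEnd ℂ) (K j p.2) := by
      rw [hG, Complex.ofReal_sum]
      have e2 : ∀ j, ((‖g j‖ ^ 2 : ℝ) : ℂ) = ∑ p ∈ sI ×ˢ sI,
          β p.1 * K j p.1 * (starRingEnd ℂ) (β p.2 * K j p.2) := by
        intro j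
        rw [Complex.ofReal_pow, ← Complex.mul_conj', hg]
        simp only
        rw [map_sum, Finset.sum_mul_sum, ← Finset.sum_product']
      rw [Finset.sum_congr rfl fun j _ => e2 j, Finset.sum_comm]
      apply Finset.sum_congr rfl
      intro p _
      rw [Finset.mul_sum]
      apply Finset.sum_congr rfl
      intro j _
      rw [map_mul]
      ring
    have e3 : G ≤ ∑ p ∈ sI ×ˢ sI, (‖β p.1‖ * ‖β p.2‖) *
        ‖∑ j ∈ sJ, K j p.1 * (starRingEnd ℂ) (K j p.2)‖ := by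
      have e4 : G = ‖(G : ℂ)‖ := by
        rw [Complex.norm_real, Real.norm_of_nonneg hG0]
      rw [e4, e1]
      refine (norm_sum_le _ _).trans (le_of_eq ?_)
      apply Finset.sum_congr rfl
      intro p _
      rw [norm_mul, norm_mul, Complex.norm_conj]
    have e5 : (∑ i ∈ sI, ‖β i‖ ^ 2) ^ 2 = ∑ p ∈ sI ×ˢ sI, (‖β p.1‖ * ‖β p.2‖) ^ 2 := by
      rw [pow_two, Finset.sum_mul_sum, ← Finset.sum_product']
      exact Finset.sum_congr rfl fun p _ => by ring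
    have e6 : ∑ i1 ∈ sI, ∑ i2 ∈ sI, ‖∑ j ∈ sJ, K j i1 * (starRingEnd ℂ) (K j i2)‖ ^ 2 =
        ∑ p ∈ sI ×ˢ sI, ‖∑ j ∈ sJ, K j p.1 * (starRingEnd ℂ) (K j p.2)‖ ^ 2 := by
      rw [← Finset.sum_product']
    rw [e5, e6]
    exact (pow_le_pow_left₀ hG0 e3 2).trans (Finset.sum_mul_sq_le_sq_mul_sq _ _ _)
  have hA : 0 ≤ ∑ j ∈ sJ, ‖α j‖ ^ 2 := by positivity
  calc ‖∑ j ∈ sJ, ∑ i ∈ sI, α j * β i * K j i‖ ^ 4
      = (‖∑ j ∈ sJ, ∑ i ∈ sI, α j * β i * K j i‖ ^ 2) ^ 2 := by ring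
    _ ≤ ((∑ j ∈ sJ, ‖α j‖ ^ 2) * G) ^ 2 := pow_le_pow_left₀ (by positivity) h1 2
    _ = (∑ j ∈ sJ, ‖α j‖ ^ 2) ^ 2 * G ^ 2 := by ring
    _ ≤ (∑ j ∈ sJ, ‖α j‖ ^ 2) ^ 2 * ((∑ i ∈ sI, ‖β i‖ ^ 2) ^ 2 *
      ∑ i1 ∈ sI, ∑ i2 ∈ sI, ‖∑ j ∈ sJ, K j i1 * (starRingEnd ℂ) (K j i2)‖ ^ 2) :=
        mul_le_mul_of_nonneg_left h2 (by positivity)
    _ = _ := by ring

/-- A residue class in `(M, 2M]` as a progression. -/
theorem cs_class (Q μ M : ℕ) (hQ : 1 ≤ Q) (hμ : μ < Q) : ∃ m0 : ℕ,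
    (Ioc M (2 * M)).filter (fun m => m % Q = μ) =
      ((range (M / Q + 1)).filter (fun j => m0 + Q * j ≤ 2 * M)).image (fun j => m0 + Q * j) := by
  obtain ⟨c, hc⟩ : ∃ c, c = (μ + Q * (M + 1) - (M + 1)) % Q := ⟨_, rfl⟩
  have hcQ : c < Q := by
    rw [hc]
    exact Nat.mod_lt _ (by omega)
  have hmod : (M + 1 + c) % Q = μ := by
    have h1 : M + 1 ≤ Q * (M + 1) := Nat.le_mul_of_pos_left _ (by omega)
    rw [hc, Nat.add_mod, Nat.mod_mod, ← Nat.add_mod,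
      show M + 1 + (μ + Q * (M + 1) - (M + 1)) = μ + Q * (M + 1) by omega,
      Nat.add_mul_mod_self_left, Nat.mod_eq_of_lt hμ]
  refine ⟨M + 1 + c, ?_⟩
  ext m
  rw [Finset.mem_filter, Finset.mem_Ioc, Finset.mem_image]
  constructor
  · rintro ⟨⟨h1, h2⟩, h3⟩
    have h4 : M + 1 + c ≤ m := by
      by_contra h
      push Not at h
      have h5 : (M + 1 + c) ≡ m [MOD Q] := by
        unfold Nat.ModEq
        rw [hmod, h3]
      have h6 := (Nat.modEq_iff_dvd' (by omega : m ≤ M + 1 + c)).mp h5.symm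
      have h7 := Nat.le_of_dvd (by omega) h6
      omega
    have h5 : (M + 1 + c) ≡ m [MOD Q] := by
      unfold Nat.ModEq
      rw [hmod, h3]
    obtain ⟨j, hj⟩ := (Nat.modEq_iff_dvd' h4).mp h5
    refine ⟨j, ?_, by omega⟩
    rw [Finset.mem_filter, Finset.mem_range]
    refine ⟨?_, by omega⟩
    rw [Nat.lt_succ_iff, Nat.le_div_iff_mul_le (by omega), mul_comm]
    omega
  · rintro ⟨j, hj, rfl⟩
    rw [Finset.mem_filter, Finset.mem_range] at hj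
    refine ⟨⟨by omega, hj.2⟩, ?_⟩
    rw [Nat.add_mul_mod_self_left, hmod]

/-- sums over the class -/
theorem cs_sum {E : Type*} [AddCommMonoid E] {Q m0 M : ℕ} (hQ : 1 ≤ Q) {C : Finset ℕ}
    (hC : C = ((range (M / Q + 1)).filter (fun j => m0 + Q * j ≤ 2 * M)).image
      (fun j => m0 + Q * j)) (F : ℕ → E) :
    ∑ m ∈ C, F m = ∑ j ∈ range (M / Q + 1), if m0 + Q * j ≤ 2 * M then F (m0 + Q * j) else 0 := by
  rw [hC, Finset.sum_image, Finset.sum_filter]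
  intro x _ y _ hxy
  have : Q * x = Q * y := by
    simp only at hxy
    omega
  exact Nat.eq_of_mul_eq_mul_left (by omega) this

/-- One pair of classes. -/
theorem cs_block (f : ℝ[X]) (Q M L Y : ℕ) (α β : ℕ → ℂ) (T : ℝ) (hQ : 1 ≤ Q)
    (hT : ∀ m0 l0 : ℕ, TT f Q m0 l0 (M / Q + 1) (L / Q + 1) Y ≤ T) (μ ν : ℕ) (hμ : μ < Q)
    (hν : ν < Q) :
    ‖∑ m ∈ (Ioc M (2 * M)).filter (fun m => m % Q = μ),
      ∑ l ∈ (Ioc L (2 * L)).filter (fun l => l % Q = ν),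
        (if m * l ≤ Y then α m * β l * ex (f.eval ((m * l : ℕ) : ℝ)) else 0)‖ ^ 4 ≤
      (∑ m ∈ (Ioc M (2 * M)).filter (fun m => m % Q = μ), ‖α m‖ ^ 2) ^ 2 *
      (∑ l ∈ (Ioc L (2 * L)).filter (fun l => l % Q = ν), ‖β l‖ ^ 2) ^ 2 * T := by
  obtain ⟨m0, hm0⟩ := cs_class Q μ M hQ hμ
  obtain ⟨l0, hl0⟩ := cs_class Q ν L hQ hν
  obtain ⟨α', hα⟩ : ∃ α' : ℕ → ℂ, α' = fun j =>
    if m0 + Q * j ≤ 2 * M then α (m0 + Q * j) else 0 := ⟨_, rfl⟩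
  obtain ⟨β', hβ⟩ : ∃ β' : ℕ → ℂ, β' = fun i =>
    if l0 + Q * i ≤ 2 * L then β (l0 + Q * i) else 0 := ⟨_, rfl⟩
  obtain ⟨K, hK⟩ : ∃ K : ℕ → ℕ → ℂ, K = fun j i =>
    if (m0 + Q * j) * (l0 + Q * i) ≤ Y then
      ex (f.eval (((m0 + Q * j) * (l0 + Q * i) : ℕ) : ℝ)) else 0 := ⟨_, rfl⟩
  have e1 : ∑ m ∈ (Ioc M (2 * M)).filter (fun m => m % Q = μ),
      ∑ l ∈ (Ioc L (2 * L)).filter (fun l => l % Q = ν),
        (if m * l ≤ Y then α m * β l * ex (f.eval ((m * l : ℕ) : ℝ)) else 0) =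
      ∑ j ∈ range (M / Q + 1), ∑ i ∈ range (L / Q + 1), α' j * β' i * K j i := by
    rw [cs_sum hQ hm0]
    apply Finset.sum_congr rfl
    intro j _
    by_cases h : m0 + Q * j ≤ 2 * M
    · rw [if_pos h, cs_sum hQ hl0]
      apply Finset.sum_congr rfl
      intro i _
      rw [hα, hβ, hK]
      simp only
      rw [if_pos h]
      by_cases h2 : l0 + Q * i ≤ 2 * L
      · rw [if_pos h2, if_pos h2]
        by_cases h3 : (m0 + Q * j) * (l0 + Q * i) ≤ Y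
        · rw [if_pos h3, if_pos h3]
        · rw [if_neg h3, if_neg h3, mul_zero]
      · rw [if_neg h2, if_neg h2, mul_zero, zero_mul]
    · rw [if_neg h]
      symm
      apply Finset.sum_eq_zero
      intro i _
      rw [hα]
      simp only
      rw [if_neg h, zero_mul, zero_mul]
  have e2 : ∑ m ∈ (Ioc M (2 * M)).filter (fun m => m % Q = μ), ‖α m‖ ^ 2 =
      ∑ j ∈ range (M / Q + 1), ‖α' j‖ ^ 2 := by
    rw [cs_sum hQ hm0]
    apply Finset.sum_congr rfl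
    intro j _
    rw [hα]
    simp only
    by_cases h : m0 + Q * j ≤ 2 * M
    · rw [if_pos h, if_pos h]
    · rw [if_neg h, if_neg h, norm_zero]
      norm_num
  have e3 : ∑ l ∈ (Ioc L (2 * L)).filter (fun l => l % Q = ν), ‖β l‖ ^ 2 =
      ∑ i ∈ range (L / Q + 1), ‖β' i‖ ^ 2 := by
    rw [cs_sum hQ hl0]
    apply Finset.sum_congr rfl
    intro j _
    rw [hβ]
    simp only
    by_cases h : l0 + Q * j ≤ 2 * L
    · rw [if_pos h, if_pos h]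
    · rw [if_neg h, if_neg h, norm_zero]
      norm_num
  have e4 : ∑ i1 ∈ range (L / Q + 1), ∑ i2 ∈ range (L / Q + 1),
      ‖∑ j ∈ range (M / Q + 1), K j i1 * (starRingEnd ℂ) (K j i2)‖ ^ 2 =
      TT f Q m0 l0 (M / Q + 1) (L / Q + 1) Y := by
    unfold TT
    apply Finset.sum_congr rfl
    intro i1 _
    apply Finset.sum_congr rfl
    intro i2 _
    congr 2
    rw [Finset.sum_filter]
    apply Finset.sum_congr rfl
    intro j _
    rw [hK]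
    simp only
    by_cases h1 : (m0 + Q * j) * (l0 + Q * i1) ≤ Y
    · by_cases h2 : (m0 + Q * j) * (l0 + Q * i2) ≤ Y
      · rw [if_pos h1, if_pos h2, if_pos ⟨h1, h2⟩, conj_ex, ← ex_add, ← sub_eq_add_neg]
      · rw [if_pos h1, if_neg h2, if_neg (fun h => h2 h.2), map_zero, mul_zero]
    · rw [if_neg h1, zero_mul, if_neg (fun h => h1 h.1)]
  rw [e1, e2, e3]
  refine (cs_abs _ _ α' β' K).trans ?_
  rw [e4]
  exact mul_le_mul_of_nonneg_left (hT m0 l0) (by positivity)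

theorem p_cs : S_cs := by
  intro f Q a M L Y α β T hQ ha hT
  obtain ⟨A, hA⟩ : ∃ A : ℕ → ℝ, A = fun μ =>
    ∑ m ∈ (Ioc M (2 * M)).filter (fun m => m % Q = μ), ‖α m‖ ^ 2 := ⟨_, rfl⟩
  obtain ⟨B, hB⟩ : ∃ B : ℕ → ℝ, B = fun ν =>
    ∑ l ∈ (Ioc L (2 * L)).filter (fun l => l % Q = ν), ‖β l‖ ^ 2 := ⟨_, rfl⟩
  have hA0 : ∀ μ, 0 ≤ A μ := by
    intro μ
    rw [hA]
    positivity
  have hB0 : ∀ ν, 0 ≤ B ν := by
    intro ν
    rw [hB]
    positivity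
  have hT0 : 0 ≤ T := by
    refine le_trans ?_ (hT 0 0)
    unfold TT
    positivity
  have hmaps : ∀ N : ℕ, ∀ m ∈ Ioc N (2 * N), m % Q ∈ range Q := fun N m _ =>
    Finset.mem_range.mpr (Nat.mod_lt _ (by omega))
  have hAs : ∑ μ ∈ range Q, A μ = ∑ m ∈ Ioc M (2 * M), ‖α m‖ ^ 2 := by
    rw [hA]
    exact Finset.sum_fiberwise_of_maps_to (hmaps M) _
  have hBs : ∑ ν ∈ range Q, B ν = ∑ l ∈ Ioc L (2 * L), ‖β l‖ ^ 2 := by
    rw [hB]
    exact Finset.sum_fiberwise_of_maps_to (hmaps L) _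
  obtain ⟨P, hP⟩ : ∃ P : Finset (ℕ × ℕ), P = (range Q ×ˢ range Q).filter
    (fun p => p.1 * p.2 ≡ a [MOD Q]) := ⟨_, rfl⟩
  obtain ⟨S, hS⟩ : ∃ S : ℕ × ℕ → ℂ, S = fun p =>
    ∑ m ∈ (Ioc M (2 * M)).filter (fun m => m % Q = p.1),
      ∑ l ∈ (Ioc L (2 * L)).filter (fun l => l % Q = p.2),
        (if m * l ≤ Y then α m * β l * ex (f.eval ((m * l : ℕ) : ℝ)) else 0) := ⟨_, rfl⟩
  have hBS : BS f Q a M L Y α β = ∑ p ∈ P, S p := by
    unfold BS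
    rw [← Finset.sum_fiberwise_of_maps_to (hmaps M), hP, Finset.sum_filter, Finset.sum_product]
    apply Finset.sum_congr rfl
    intro μ _
    have h1 : ∀ m ∈ (Ioc M (2 * M)).filter (fun m => m % Q = μ),
        ∑ l ∈ Ioc L (2 * L), (if m * l ≡ a [MOD Q] ∧ m * l ≤ Y then
          α m * β l * ex (f.eval ((m * l : ℕ) : ℝ)) else 0) =
        ∑ ν ∈ range Q, ∑ l ∈ (Ioc L (2 * L)).filter (fun l => l % Q = ν),
          (if m * l ≡ a [MOD Q] ∧ m * l ≤ Y then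
          α m * β l * ex (f.eval ((m * l : ℕ) : ℝ)) else 0) := fun m _ =>
      (Finset.sum_fiberwise_of_maps_to (hmaps L) _).symm
    rw [Finset.sum_congr rfl h1, Finset.sum_comm]
    apply Finset.sum_congr rfl
    intro ν _
    have h2 : ∀ m ∈ (Ioc M (2 * M)).filter (fun m => m % Q = μ),
        ∀ l ∈ (Ioc L (2 * L)).filter (fun l => l % Q = ν),
        (m * l ≡ a [MOD Q] ↔ μ * ν ≡ a [MOD Q]) := by
      intro m hm l hl
      rw [Finset.mem_filter] at hm hl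
      unfold Nat.ModEq
      rw [Nat.mul_mod, hm.2, hl.2]
    by_cases h : μ * ν ≡ a [MOD Q]
    · rw [if_pos h, hS]
      apply Finset.sum_congr rfl
      intro m hm
      apply Finset.sum_congr rfl
      intro l hl
      by_cases h3 : m * l ≤ Y
      · rw [if_pos ⟨(h2 m hm l hl).mpr h, h3⟩, if_pos h3]
      · rw [if_neg (fun h' => h3 h'.2), if_neg h3]
    · rw [if_neg h]
      apply Finset.sum_eq_zero
      intro m hm
      apply Finset.sum_eq_zero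
      intro l hl
      rw [if_neg (fun h' => h ((h2 m hm l hl).mp h'.1))]
  have hcop : ∀ p ∈ P, p.1.Coprime Q ∧ p.2.Coprime Q := by
    intro p hp
    rw [hP, Finset.mem_filter] at hp
    have h1 : (p.1 * p.2).Coprime Q := by
      have h2 : Nat.gcd (p.1 * p.2) Q = Nat.gcd a Q := hp.2.gcd_eq
      unfold Nat.Coprime
      rw [h2]
      exact ha
    exact ⟨Nat.Coprime.coprime_mul_right h1, Nat.Coprime.coprime_mul_left h1⟩
  have hPA : ∑ p ∈ P, A p.1 ≤ ∑ m ∈ Ioc M (2 * M), ‖α m‖ ^ 2 := by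
    rw [← hAs]
    have h1 : Set.InjOn (fun p : ℕ × ℕ => p.1) P := by
      intro p hp q hq hpq
      have hp' : p ∈ P := hp
      have hq' : q ∈ P := hq
      have hc := (hcop p hp').1
      rw [hP, Finset.mem_filter, Finset.mem_product, Finset.mem_range, Finset.mem_range]
        at hp' hq'
      simp only at hpq
      have h2 : p.1 * p.2 ≡ p.1 * q.2 [MOD Q] := by
        have h3 := hq'.2
        rw [← hpq] at h3
        exact hp'.2.trans h3.symm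
      have h4 := Nat.ModEq.cancel_left_of_coprime (by
        rw [Nat.gcd_comm]
        exact hc) h2
      have h5 : p.2 = q.2 := by
        have h6 : p.2 % Q = q.2 % Q := h4
        rwa [Nat.mod_eq_of_lt hp'.1.2, Nat.mod_eq_of_lt hq'.1.2] at h6
      exact Prod.ext hpq h5
    rw [← Finset.sum_image (f := A) h1]
    refine Finset.sum_le_sum_of_subset_of_nonneg ?_ fun μ _ _ => hA0 μ
    intro μ hμ
    rw [Finset.mem_image] at hμ
    obtain ⟨p, hp, rfl⟩ := hμ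
    rw [hP, Finset.mem_filter, Finset.mem_product] at hp
    exact hp.1.1
  have hPB : ∑ p ∈ P, B p.2 ≤ ∑ l ∈ Ioc L (2 * L), ‖β l‖ ^ 2 := by
    rw [← hBs]
    have h1 : Set.InjOn (fun p : ℕ × ℕ => p.2) P := by
      intro p hp q hq hpq
      have hp' : p ∈ P := hp
      have hq' : q ∈ P := hq
      have hc := (hcop p hp').2
      rw [hP, Finset.mem_filter, Finset.mem_product, Finset.mem_range, Finset.mem_range]
        at hp' hq'
      simp only at hpq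
      have h2 : p.1 * p.2 ≡ q.1 * p.2 [MOD Q] := by
        have h3 := hq'.2
        rw [← hpq] at h3
        exact hp'.2.trans h3.symm
      have h4 := Nat.ModEq.cancel_right_of_coprime (by
        rw [Nat.gcd_comm]
        exact hc) h2
      have h5 : p.1 = q.1 := by
        have h6 : p.1 % Q = q.1 % Q := h4
        rwa [Nat.mod_eq_of_lt hp'.1.1, Nat.mod_eq_of_lt hq'.1.1] at h6
      exact Prod.ext h5 hpq
    rw [← Finset.sum_image (f := B) h1]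
    refine Finset.sum_le_sum_of_subset_of_nonneg ?_ fun μ _ _ => hB0 μ
    intro μ hμ
    rw [Finset.mem_image] at hμ
    obtain ⟨p, hp, rfl⟩ := hμ
    rw [hP, Finset.mem_filter, Finset.mem_product] at hp
    exact hp.1.2
  obtain ⟨τ, hτ⟩ : ∃ τ : ℝ, τ = Real.sqrt (Real.sqrt T) := ⟨_, rfl⟩
  have hτ0 : 0 ≤ τ := by
    rw [hτ]
    positivity
  have hτ4 : τ ^ 4 = T := by
    rw [show τ ^ 4 = (τ ^ 2) ^ 2 by ring, hτ, Real.sq_sqrt (Real.sqrt_nonneg _),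
      Real.sq_sqrt hT0]
  have hSp : ∀ p ∈ P, ‖S p‖ ≤ Real.sqrt (A p.1) * Real.sqrt (B p.2) * τ := by
    intro p hp
    rw [hP, Finset.mem_filter, Finset.mem_product, Finset.mem_range, Finset.mem_range] at hp
    have h1 := cs_block f Q M L Y α β T hQ hT p.1 p.2 hp.1.1 hp.1.2
    have h2 : (Real.sqrt (A p.1) * Real.sqrt (B p.2) * τ) ^ 4 = A p.1 ^ 2 * B p.2 ^ 2 * T := by
      rw [← hτ4]
      calc (Real.sqrt (A p.1) * Real.sqrt (B p.2) * τ) ^ 4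
          = (Real.sqrt (A p.1) ^ 2) ^ 2 * (Real.sqrt (B p.2) ^ 2) ^ 2 * τ ^ 4 := by ring
        _ = _ := by rw [Real.sq_sqrt (hA0 _), Real.sq_sqrt (hB0 _)]
    refine le_of_pow_le_pow_left₀ (n := 4) (by norm_num) (by positivity) ?_
    rw [h2, hA, hB, hS]
    exact h1
  have hfin : ‖BS f Q a M L Y α β‖ ≤ Real.sqrt (∑ m ∈ Ioc M (2 * M), ‖α m‖ ^ 2) *
      Real.sqrt (∑ l ∈ Ioc L (2 * L), ‖β l‖ ^ 2) * τ := by
    rw [hBS]
    calc ‖∑ p ∈ P, S p‖ ≤ ∑ p ∈ P, ‖S p‖ := norm_sum_le _ _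
      _ ≤ ∑ p ∈ P, Real.sqrt (A p.1) * Real.sqrt (B p.2) * τ := Finset.sum_le_sum hSp
      _ = (∑ p ∈ P, Real.sqrt (A p.1) * Real.sqrt (B p.2)) * τ := by rw [Finset.sum_mul]
      _ ≤ (Real.sqrt (∑ p ∈ P, A p.1) * Real.sqrt (∑ p ∈ P, B p.2)) * τ := by
          refine mul_le_mul_of_nonneg_right ?_ hτ0
          exact Real.sum_sqrt_mul_sqrt_le _ (fun p => hA0 _) (fun p => hB0 _)
      _ ≤ _ := by
          refine mul_le_mul_of_nonneg_right ?_ hτ0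
          exact mul_le_mul (Real.sqrt_le_sqrt hPA) (Real.sqrt_le_sqrt hPB) (Real.sqrt_nonneg _)
            (Real.sqrt_nonneg _)
  have hX0 : 0 ≤ ∑ m ∈ Ioc M (2 * M), ‖α m‖ ^ 2 := by positivity
  have hY0 : 0 ≤ ∑ l ∈ Ioc L (2 * L), ‖β l‖ ^ 2 := by positivity
  calc ‖BS f Q a M L Y α β‖ ^ 4
      ≤ (Real.sqrt (∑ m ∈ Ioc M (2 * M), ‖α m‖ ^ 2) *
      Real.sqrt (∑ l ∈ Ioc L (2 * L), ‖β l‖ ^ 2) * τ) ^ 4 :=
        pow_le_pow_left₀ (norm_nonneg _) hfin 4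
    _ = (Real.sqrt (∑ m ∈ Ioc M (2 * M), ‖α m‖ ^ 2) ^ 2 *
      Real.sqrt (∑ l ∈ Ioc L (2 * L), ‖β l‖ ^ 2) ^ 2) ^ 2 * τ ^ 4 := by ring
    _ = _ := by rw [Real.sq_sqrt hX0, Real.sq_sqrt hY0, hτ4]

end Pool.Agent.HC.W
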