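import Pool.Agent.Lib.MP_0da313_nt.HC.P.dn4a

set_option autoImplicit false

/-!
Project HC, section M, piece dn4: the densities for the pair `l`, `j`.
-/

namespace Pool.Agent.HC.M

open Finset Filter Polynomial
open Pool.Agent.Lib.MP_0da313_nt
open Pool.Agent.BVall (om rhoW PK Dens Cls mem_PK dvd_eval_congr)
open Pool.Agent.MP89da58 (kapD)
open Pool.Agent.MT (om_prod card_root_lin PK_eq totient_div kapD_pos)
open Pool.Agent.CM (z0)
open Pool.Agent.NC (Bn)
open Pool.Agent.NC.A (ol sl)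
open Pool.Agent.HC (Fam2 Q4 d4)

section

variable {ι κ : Type} [Fintype ι] [DecidableEq ι] [Fintype κ] [DecidableEq κ] {D d E : ℕ}
  (H : Fam2 ι κ D d E)

/-- The primes modulo which the two members have a common root contribute little. -/
lemma hc_dn4_res (l : ι) (j : κ) : ∀ᶠ N : ℕ in atTop, ∀ n ∈ Ioc N (Bn E N), ∀ (w : ℕ)
    (S : Finset ℕ), (Real.log N) ^ 2 ≤ w →
    (∀ p ∈ S, p.Prime ∧ w < p ∧ ∃ y : ℤ, (p : ℤ) ∣ H.M j y ∧ (p : ℤ) ∣ H.F.L n l y) →
    ∑ p ∈ S, 1 / (p : ℝ) ≤ 1 / 100 := by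
  obtain ⟨c0, hc0⟩ := hc_dn4_root (H.F.g l) ((H.u j : ℕ) : ℤ) (H.v j)
  rw [H.F.hg l] at hc0
  have hlog : Tendsto (fun n : ℕ => Real.log n) atTop atTop :=
    Real.tendsto_log_atTop.comp tendsto_natCast_atTop_atTop
  set b : ℤ := H.F.a l * ((H.u j : ℕ) : ℤ) ^ d with hb
  have hb0 : b ≠ 0 := by
    have h1 : ((H.u j : ℕ) : ℤ) ≠ 0 := by
      have := H.hu j
      exact_mod_cast (by omega : H.u j ≠ 0)
    exact mul_ne_zero (H.F.ha l) (pow_ne_zero _ h1)
  filter_upwards [hlog.eventually_ge_atTop 1000, eventually_ge_atTop (|b| + |c0|).toNat,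
    eventually_ge_atTop 2] with N h8 hN hN2
  intro n hn w S hw hS
  obtain ⟨hn1, hn2⟩ := Finset.mem_Ioc.1 hn
  have hnN : n ≤ N ^ 2 := by
    have h1 : N / (1000 * E) ≤ N := Nat.div_le_self _ _
    unfold Bn at hn2
    nlinarith
  have hCn : |b| + |c0| < (n : ℤ) := by
    have h1 : |b| + |c0| ≤ ((|b| + |c0|).toNat : ℤ) := Int.self_le_toNat _
    have h2 : (((|b| + |c0|).toNat : ℕ) : ℤ) ≤ N := by exact_mod_cast hN
    have h3 : (N : ℤ) < n := by exact_mod_cast hn1
    linarith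
  set R : ℤ := b * n + c0 with hR
  have hn0 : (1 : ℤ) ≤ n := by
    have := abs_nonneg b
    have := abs_nonneg c0
    linarith
  have hb1 : 1 ≤ |b| := Int.one_le_abs hb0
  have hR0 : R ≠ 0 := by
    intro h
    have h1 : b * n = -c0 := by linarith
    have h2 : |b| * n = |c0| := by
      have := congrArg abs h1
      rwa [abs_mul, Nat.abs_cast, abs_neg] at this
    nlinarith
  have hRn : R.natAbs ≤ n ^ 2 := by
    zify
    calc |R| ≤ |b * n| + |c0| := abs_add_le _ _
      _ = |b| * n + |c0| := by rw [abs_mul, Nat.abs_cast]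
      _ ≤ (|b| + |c0|) * n := by
          have := abs_nonneg c0
          nlinarith
      _ ≤ n * n := by nlinarith
      _ = (n : ℤ) ^ 2 := by ring
  have hR1 : 1 ≤ R.natAbs := Int.natAbs_pos.2 hR0
  have hdvd : ∀ p ∈ S, (p : ℤ) ∣ R := by
    intro p hp
    obtain ⟨hpp, _, y, hy1, hy2⟩ := hS p hp
    have h1 := hc0 p y hy1
    have h2 : (p : ℤ) ∣ ((H.u j : ℕ) : ℤ) ^ d * H.F.L n l y := hy2.mul_left _
    have h3 := dvd_sub h2 h1
    have e : ((H.u j : ℕ) : ℤ) ^ d * H.F.L n l y -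
        (((H.u j : ℕ) : ℤ) ^ d * (H.F.g l).eval y - c0) = R := by
      rw [hR, hb]
      unfold NC.Fam.L
      ring
    rwa [e] at h3
  have hcard : (S.card : ℝ) ≤ 8 * Real.log N := by
    have h1 : S.card ≤ R.natAbs.primeFactors.card := by
      apply Finset.card_le_card
      intro p hp
      exact Nat.mem_primeFactors.2 ⟨(hS p hp).1, Int.natCast_dvd.1 (hdvd p hp), by omega⟩
    have h2 : (S.card : ℝ) ≤ R.natAbs.primeFactors.card := by exact_mod_cast h1
    have h3 := hc_dn4_cardpf R.natAbs hR1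
    have h4 : Real.log (R.natAbs : ℝ) ≤ 4 * Real.log N := by
      have h5 : Real.log (R.natAbs : ℝ) ≤ Real.log ((N : ℝ) ^ 4) := by
        apply Real.log_le_log
        · exact_mod_cast hR1
        · have h6 : R.natAbs ≤ N ^ 4 := by
            calc R.natAbs ≤ n ^ 2 := hRn
              _ ≤ (N ^ 2) ^ 2 := Nat.pow_le_pow_left hnN 2
              _ = N ^ 4 := by ring
          exact_mod_cast h6
      rwa [Real.log_pow, Nat.cast_ofNat] at h5
    have h6 : (1 / 2 : ℝ) ≤ Real.log 2 := by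
      have := Real.log_two_gt_d9
      linarith
    have h7 : (0 : ℝ) ≤ (R.natAbs.primeFactors.card : ℝ) := Nat.cast_nonneg _
    nlinarith
  have hw0 : 0 < (w : ℝ) := by nlinarith
  have hL0 : 0 < Real.log N := by linarith
  calc ∑ p ∈ S, 1 / (p : ℝ) ≤ ∑ p ∈ S, 1 / (Real.log N) ^ 2 := by
        apply Finset.sum_le_sum
        intro p hp
        obtain ⟨hpp, hpw, _⟩ := hS p hp
        have : (w : ℝ) < p := by exact_mod_cast hpw
        apply one_div_le_one_div_of_le (by positivity)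
        linarith
    _ = S.card * (1 / (Real.log N) ^ 2) := by rw [Finset.sum_const, nsmul_eq_mul]
    _ ≤ (8 * Real.log N) * (1 / (Real.log N) ^ 2) :=
        mul_le_mul_of_nonneg_right hcard (by positivity)
    _ = 8 / Real.log N := by field_simp
    _ ≤ 1 / 100 := by
        rw [div_le_iff₀ hL0]
        linarith

end

theorem p_dn4 : S_dn4 := by
  classical
  intro hla ι κ _ _ _ _ D d E H hD
  obtain ⟨K1, hK1, hev⟩ := hla ι D d E H.F
  obtain ⟨z1, hz1⟩ := eventually_atTop.1 hev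
  have hol : ∀ p : ℕ, p.Prime → z1 < p → ∀ l n, ol H.F n l p ≤ K1 :=
    fun p hp hzp l n => (((hz1 z1 le_rfl).2 p hp hzp l).1 n)
  have hlog : Tendsto (fun n : ℕ => Real.log n) atTop atTop :=
    Real.tendsto_log_atTop.comp tendsto_natCast_atTop_atTop
  have hres := eventually_all.2 (fun l : ι => eventually_all.2 (fun j : κ => hc_dn4_res H l j))
  have hubig := eventually_all.2 (fun j : κ =>
    (show ∀ᶠ n : ℕ in atTop, (H.u j : ℝ) + 1 ≤ Real.log n from hlog.eventually_ge_atTop _))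
  filter_upwards [eventually_ge_atTop H.F.N0, hlog.eventually_ge_atTop 1,
    hlog.eventually_ge_atTop z1, hlog.eventually_ge_atTop (25 * ((K1 : ℝ) ^ 2 + 2)), hres, hubig]
    with N hN hlog1 hlogz hlogK hresN hubN
  intro n hn n' w hw hwz
  have hnN : H.F.N0 ≤ n := hN.trans (mem_Ioc.1 hn).1.le
  have hwR : Real.log N ≤ w := by nlinarith
  have hw1 : 1 ≤ w := by
    have : (1 : ℝ) ≤ w := by linarith
    exact_mod_cast this
  have hwz1 : z1 ≤ w := by
    have : (z1 : ℝ) ≤ w := by linarith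
    exact_mod_cast this
  have hu0 : ∀ j, 0 < H.u j := fun j => H.hu j
  have hbig : ∀ j (p : ℕ), w < p → ¬ p ∣ H.u j := by
    intro j p hpw hd
    have h1 := Nat.le_of_dvd (hu0 j) hd
    have h2 := hubN j
    have h3 : (p : ℝ) ≤ H.u j := by exact_mod_cast h1
    have h4 : (w : ℝ) < p := by exact_mod_cast hpw
    linarith
  have hVdef : H.F.V n n' = W (fun p => (om (fun p y => (p : ℤ) ∣ (H.F.G n).eval y) p : ℝ) / p)
      (PK (2 * D) n') := rfl
  have hg0 : ∀ p : ℕ, p.Prime →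
      0 ≤ 1 - (om (fun p y => (p : ℤ) ∣ (H.F.G n).eval y) p : ℝ) / p := by
    intro p hpp
    have hp0 : (0 : ℝ) < p := by exact_mod_cast hpp.pos
    have h1 : (om (fun p y => (p : ℤ) ∣ (H.F.G n).eval y) p : ℝ) / p ≤ 1 := by
      rw [div_le_one hp0]
      exact_mod_cast (hc_dn4_lt H hnN hpp).le
    linarith
  have hV0 : 0 ≤ H.F.V n n' := by
    rw [hVdef]
    exact Finset.prod_nonneg fun p hp => hg0 p (mem_PK.1 hp).1
  have hd4le : ∀ l j (p : ℕ), p.Prime →
      d4 H n w (z0 D n') l j p ≤ rhoW (H.u j) (hc_dn4_Q H n j) p := by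
    intro l j p hp
    unfold d4 rhoW
    apply div_le_div_of_nonneg_right _ (Nat.cast_nonneg _)
    exact_mod_cast hc_dn4_om_le p (hc_dn4_sub H hnN hp)
  -- the product over the prime factors of `u`
  have hrr : ∀ j, ∏ p ∈ PK (2 * D) n', (if p ∣ H.u j then 1 - 1 / (p : ℝ) else 1) =
      (Nat.totient (H.u j) : ℝ) / H.u j := by
    intro j
    rw [totient_div _ (hu0 j)]
    have h1 : ∏ p ∈ PK (2 * D) n', (if p ∣ H.u j then 1 - 1 / (p : ℝ) else 1) =
        ∏ p ∈ (PK (2 * D) n').filter (· ∣ H.u j), (1 - 1 / (p : ℝ)) := by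
      rw [Finset.prod_filter]
    rw [h1]
    congr 1
    ext p
    rw [Finset.mem_filter, Nat.mem_primeFactors, mem_PK]
    constructor
    · rintro ⟨⟨h2, _⟩, h3⟩
      exact ⟨h2, h3, (hu0 j).ne'⟩
    · rintro ⟨h2, h3, _⟩
      refine ⟨⟨h2, ?_⟩, h3⟩
      by_contra h4
      push Not at h4
      exact hbig j p (lt_of_le_of_lt hwz h4) h3
  have hp01 : ∀ p : ℕ, p.Prime → (0 : ℝ) < 1 - 1 / (p : ℝ) := by
    intro p hp
    have hp2 : (2 : ℝ) ≤ p := by exact_mod_cast hp.two_le
    have : 1 / (p : ℝ) ≤ 1 / 2 := one_div_le_one_div_of_le (by norm_num) hp2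
    linarith
  have eκz : ∏ p ∈ PK (2 * D) n', (1 - 1 / (p : ℝ)) = kapD (z0 D n') := by
    unfold kapD z0
    rw [← PK_eq]
  refine ⟨fun l j p x y h => hc_dn4_per H l j p x y h, ?_, ?_, ?_, ?_⟩
  · intro l j p hp
    refine le_trans (hc_dn4_om_le (Q' := fun p y => (p : ℤ) ∣ (H.F.G n).eval y) p ?_)
      (hc_dn4_le H hnN hp)
    intro y hy
    exact hy.2.1
  · intro l j
    have h := (hc_dn4_Q_cls H hnN j).dens
    rw [Int.natAbs_natCast] at h
    refine ⟨fun p => ?_, fun p hp => (hd4le l j p hp).trans (h.lt p hp),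
      fun p hp => (hd4le l j p hp).trans (h.le p hp)⟩
    unfold d4 rhoW
    positivity
  · intro l j hsl
    set z := z0 D n' with hz
    have hκz : 0 < kapD z := kapD_pos _
    have hκw : 0 < kapD w := kapD_pos _
    have hu1 : (0 : ℝ) < H.u j := by exact_mod_cast hu0 j
    have hφ : (0 : ℝ) < Nat.totient (H.u j) := by exact_mod_cast Nat.totient_pos.2 (hu0 j)
    -- the numbers of the roots of `L` which are not roots of `M`
    have hloc : ∀ p : ℕ, ∃ r : ℕ, (p.Prime ∧ w < p ∧ p ≤ z) → r ≤ ol H.F n l p ∧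
        ((ol H.F n l p ≤ r) ∨
          (ol H.F n l p ≤ r + 1 ∧ ∃ y : ℤ, (p : ℤ) ∣ H.M j y ∧ (p : ℤ) ∣ H.F.L n l y)) ∧
        (1 - (om (fun p y => (p : ℤ) ∣ (H.F.G n).eval y) p : ℝ) / p) * (1 + (r : ℝ) / p) ≤
          (1 - d4 H n w z l j p) * (1 - 1 / (p : ℝ)) := by
      intro p
      by_cases hp : p.Prime ∧ w < p ∧ p ≤ z
      · obtain ⟨r, hr⟩ := hc_dn4_loc2 H hnN l j hp.1 hp.2.2 hp.2.1 (hbig j p hp.2.1)
        exact ⟨r, fun _ => hr⟩
      · exact ⟨0, fun h => absurd h hp⟩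
    choose r hr using hloc
    set S := (Ioc w z).filter Nat.Prime with hSdef
    have hS : ∀ p ∈ S, p.Prime ∧ w < p ∧ p ≤ z := by
      intro p hp
      rw [hSdef, Finset.mem_filter, Finset.mem_Ioc] at hp
      exact ⟨hp.2, hp.1.1, hp.1.2⟩
    have hsum : -(2 / 100) ≤ ∑ p ∈ S, ((r p : ℝ) - 1) / p := by
      set T := S.filter (fun p : ℕ => ∃ y : ℤ, (p : ℤ) ∣ H.M j y ∧ (p : ℤ) ∣ H.F.L n l y) with hT
      have hT2 : ∑ p ∈ T, 1 / (p : ℝ) = ∑ p ∈ S, if ∃ y : ℤ, (p : ℤ) ∣ H.M j y ∧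
          (p : ℤ) ∣ H.F.L n l y then 1 / (p : ℝ) else 0 := Finset.sum_filter _ _
      have h1 := hresN l j n hn w T hw (fun p hp => by
        rw [hT, Finset.mem_filter] at hp
        exact ⟨(hS p hp.1).1, (hS p hp.1).2.1, hp.2⟩)
      have h2 : sl H.F n w z l ≤ ∑ p ∈ S, ((r p : ℝ) - 1) / p + ∑ p ∈ T, 1 / (p : ℝ) := by
        unfold sl
        rw [← hSdef, hT2, ← Finset.sum_add_distrib]
        apply Finset.sum_le_sum
        intro p hp
        have hp0 : (0 : ℝ) < p := by exact_mod_cast (hS p hp).1.pos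
        obtain ⟨_, h3, _⟩ := hr p (hS p hp)
        rcases h3 with h3 | ⟨h3, h4⟩
        · have h5 : (ol H.F n l p : ℝ) ≤ r p := by exact_mod_cast h3
          have h6 : ((ol H.F n l p : ℝ) - 1) / p ≤ ((r p : ℝ) - 1) / p :=
            div_le_div_of_nonneg_right (by linarith) hp0.le
          have h7 : (0 : ℝ) ≤ (if ∃ y : ℤ, (p : ℤ) ∣ H.M j y ∧ (p : ℤ) ∣ H.F.L n l y
              then 1 / (p : ℝ) else 0) := by
            split_ifs
            · positivity
            · exact le_rfl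
          linarith
        · rw [if_pos h4, ← add_div]
          have h5 : (ol H.F n l p : ℝ) ≤ r p + 1 := by exact_mod_cast h3
          exact div_le_div_of_nonneg_right (by linarith) hp0.le
      linarith
    have hP := hc_dn4_prod S (fun p => (r p : ℝ)) K1 w z hw1 hwz (Finset.filter_subset _ _)
      (fun p hp => (hS p hp).1) (fun p _ => Nat.cast_nonneg _)
      (fun p hp => by
        have h1 := (hr p (hS p hp)).1.trans
          (hol p (hS p hp).1 (lt_of_le_of_lt hwz1 (hS p hp).2.1) l n)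
        exact_mod_cast h1)
      hsum (by linarith)
    rw [Finset.prod_mul_distrib] at hP
    have hκ : kapD z = kapD w * ∏ p ∈ S, (1 - 1 / (p : ℝ)) := by
      unfold kapD
      rw [← Finset.prod_union]
      · apply Finset.prod_congr _ fun _ _ => rfl
        ext p
        simp only [hSdef, Finset.mem_union, Finset.mem_filter, Finset.mem_Icc, Finset.mem_Ioc]
        constructor
        · rintro ⟨⟨h1, h2⟩, h3⟩
          by_cases h4 : p ≤ w
          · exact Or.inl ⟨⟨h1, h4⟩, h3⟩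
          · exact Or.inr ⟨⟨by omega, h2⟩, h3⟩
        · rintro (⟨⟨h1, h2⟩, h3⟩ | ⟨⟨h1, h2⟩, h3⟩)
          · exact ⟨⟨h1, h2.trans hwz⟩, h3⟩
          · exact ⟨⟨h3.one_le, h2⟩, h3⟩
      · rw [Finset.disjoint_left]
        intro p h1 h2
        simp only [hSdef, Finset.mem_filter, Finset.mem_Icc, Finset.mem_Ioc] at h1 h2
        omega
    have hW : H.F.V n n' * ((Nat.totient (H.u j) : ℝ) / H.u j) * ∏ p ∈ S, (1 + (r p : ℝ) / p) ≤
        W (d4 H n w z l j) (PK (2 * D) n') * kapD z := by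
      have e1 : ∏ p ∈ S, (1 + (r p : ℝ) / p) =
          ∏ p ∈ PK (2 * D) n', (if w < p then 1 + (r p : ℝ) / p else 1) := by
        rw [← Finset.prod_filter]
        apply Finset.prod_congr _ fun _ _ => rfl
        ext p
        simp only [hSdef, Finset.mem_filter, mem_PK, Finset.mem_Ioc]
        constructor
        · rintro ⟨⟨h1, h2⟩, h3⟩
          exact ⟨⟨h3, h2⟩, h1⟩
        · rintro ⟨⟨h3, h2⟩, h1⟩
          exact ⟨⟨h1, h2⟩, h3⟩
      rw [e1, hVdef, ← hrr j, ← eκz]
      unfold W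
      rw [← Finset.prod_mul_distrib, ← Finset.prod_mul_distrib, ← Finset.prod_mul_distrib]
      apply Finset.prod_le_prod
      · intro p hp
        have h1 := hp01 p (mem_PK.1 hp).1
        apply mul_nonneg (mul_nonneg (hg0 p (mem_PK.1 hp).1) _)
        · split_ifs
          · positivity
          · norm_num
        · split_ifs
          · exact h1.le
          · norm_num
      · intro p hp
        obtain ⟨hpp, hpz⟩ := mem_PK.1 hp
        beta_reduce
        by_cases hwp : w < p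
        · rw [if_pos hwp, if_neg (hbig j p hwp), mul_one]
          exact (hr p ⟨hpp, hwp, hpz⟩).2.2
        · rw [if_neg hwp, mul_one]
          exact le_of_eq (hc_dn4_loc1 H hnN l j hpp hpz (by omega))
    have hS0 : 0 < ∏ p ∈ S, (1 - 1 / (p : ℝ)) := Finset.prod_pos fun p hp => hp01 p (hS p hp).1
    set A := ∏ p ∈ S, (1 + (r p : ℝ) / p) with hA
    set B := ∏ p ∈ S, (1 - 1 / (p : ℝ)) with hB
    set Wd := W (d4 H n w z l j) (PK (2 * D) n') with hWd
    set φ : ℝ := (Nat.totient (H.u j) : ℝ) with hφd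
    set u1 : ℝ := (H.u j : ℝ) with hu1d
    have h1 : H.F.V n n' * A ≤ u1 / φ * Wd * kapD z := by
      have h2 := mul_le_mul_of_nonneg_left hW (show 0 ≤ u1 / φ by positivity)
      have e : u1 / φ * (H.F.V n n' * (φ / u1) * A) = H.F.V n n' * A := by
        field_simp
      rw [e] at h2
      linarith
    have h3 : 9 / 10 * (H.F.V n n' / kapD z ^ 2 * kapD w) * kapD z =
        H.F.V n n' * (9 / 10 / B) := by
      rw [hκ]
      field_simp
    have h4 : 9 / 10 / B ≤ A := by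
      rw [div_le_iff₀ hS0]
      exact hP
    have h5 : 9 / 10 * (H.F.V n n' / kapD z ^ 2 * kapD w) * kapD z ≤ u1 / φ * Wd * kapD z := by
      rw [h3]
      exact (mul_le_mul_of_nonneg_left h4 hV0).trans h1
    exact le_of_mul_le_mul_right h5 hκz
  · intro l j
    have hκ : 0 < kapD (z0 D n') := kapD_pos _
    have hu1 : (0 : ℝ) < H.u j := by exact_mod_cast hu0 j
    have hφ : (0 : ℝ) < Nat.totient (H.u j) := by exact_mod_cast Nat.totient_pos.2 (hu0 j)
    have hprod : H.F.V n n' * ((Nat.totient (H.u j) : ℝ) / H.u j) =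
        W (d4 H n (z0 D n') (z0 D n') l j) (PK (2 * D) n') * kapD (z0 D n') := by
      rw [hVdef, ← hrr j, ← eκz]
      unfold W
      rw [← Finset.prod_mul_distrib, ← Finset.prod_mul_distrib]
      apply Finset.prod_congr rfl
      intro p hp
      obtain ⟨hpp, hpz⟩ := mem_PK.1 hp
      exact hc_dn4_loc1 H hnN l j hpp hpz hpz
    rw [eq_div_iff hκ.ne', mul_assoc, ← hprod]
    field_simp

end Pool.Agent.HC.M
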