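import Pool.Agent.Lib.MP_0da313_nt.HC.M

set_option autoImplicit false

/-!
Project HC, piece [HS dnU]: the upper bound for the density of the single member.
-/

namespace Pool.Agent.HC.M

open Finset Filter Polynomial
open Pool.Agent.MP89da58 (kapD)
open Pool.Agent.MT (PJf PK_eq kapD_pos)
open Pool.Agent.BVall (om PK Dens mem_PK)
open Pool.Agent.Lib.MP_0da313_nt
open Pool.Agent.CM (z0)
open Pool.Agent.NC (Fam Bn)
open Pool.Agent.NC.A (ol sl)
open Pool.Agent.NC.M (Q3 d3)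

section

variable {ι : Type} [Fintype ι] [DecidableEq ι] {D d E : ℕ} (F : Fam ι D d E)

private lemma dnU_eval {n : ℕ} (hn : F.N0 ≤ n) (l : ι) (y : ℤ) :
    (F.G n).eval y = F.L n l y * (F.Gc n l).eval y := by
  rw [F.hG n hn l]
  simp [Fam.L]

private lemma dnU_lt {n : ℕ} (hn : F.N0 ≤ n) {p : ℕ} (hp : p.Prime) :
    om (fun p y => (p : ℤ) ∣ (F.G n).eval y) p < p := by
  unfold om
  exact card_roots_mod_lt (F.G n) p hp (F.hloc n hn p hp)

private lemma dnU_le {n : ℕ} (hn : F.N0 ≤ n) {p : ℕ} (hp : p.Prime) :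
    om (fun p y => (p : ℤ) ∣ (F.G n).eval y) p ≤ D := by
  unfold om
  exact card_roots_mod_le (F.G n) p D hp (F.hdeg n hn) (F.hloc n hn p hp)

open Classical in
private lemma dnU_om_eq {n w z : ℕ} (l : ι) {p : ℕ} (hz : p ≤ z) (hw : p ≤ w) :
    om (Q3 F n w z l) p = om (fun p y => (p : ℤ) ∣ (F.G n).eval y) p := by
  unfold om
  congr 1
  ext x
  simp only [Finset.mem_filter]
  constructor
  · rintro ⟨h1, h2⟩
    exact ⟨h1, h2.2.1⟩
  · rintro ⟨h1, h2⟩
    exact ⟨h1, hz, h2, fun h => absurd h (by omega)⟩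

open Classical in
private lemma dnU_om_add {n w z : ℕ} (hn : F.N0 ≤ n) (l : ι) {p : ℕ} (hz : p ≤ z)
    (hw : w < p) :
    om (Q3 F n w z l) p + ol F n l p = om (fun p y => (p : ℤ) ∣ (F.G n).eval y) p := by
  unfold ol om
  rw [← Finset.card_union_of_disjoint]
  · congr 1
    ext x
    simp only [Finset.mem_filter, Finset.mem_union]
    constructor
    · rintro (⟨h1, h2⟩ | ⟨h1, h2⟩)
      · exact ⟨h1, h2.2.1⟩
      · refine ⟨h1, ?_⟩
        rw [dnU_eval F hn l]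
        exact h2.mul_right _
    · rintro ⟨h1, h2⟩
      by_cases h3 : (p : ℤ) ∣ F.L n l x
      · exact Or.inr ⟨h1, h3⟩
      · exact Or.inl ⟨h1, hz, h2, fun _ => h3⟩
  · rw [Finset.disjoint_left]
    intro x h1 h2
    rw [Finset.mem_filter] at h1 h2
    exact h1.2.2.2 hw h2.2

/-- the elementary inequality -/
private lemma dnU_loc {D K p o r : ℝ} (hp : 0 < p) (hD0 : 0 ≤ D) (hD : 2 * D ≤ p) (hr : 0 ≤ r)
    (hrK : r ≤ K) (hoD : o ≤ D) :
    1 - (o - r) / p ≤ (1 - o / p) * (1 + (r / p + 2 * K * D * (p ^ 2)⁻¹)) := by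
  have hK : 0 ≤ K := hr.trans hrK
  have e : (1 - o / p) * (1 + (r / p + 2 * K * D * (p ^ 2)⁻¹)) - (1 - (o - r) / p) =
      ((p - o) * (r * p + 2 * K * D) - r * p ^ 2) * (p ^ 3)⁻¹ := by
    field_simp
    ring
  have h1 : 0 ≤ (p - o) * (r * p + 2 * K * D) - r * p ^ 2 := by
    have h2 : (p - D) * (r * p + 2 * K * D) ≤ (p - o) * (r * p + 2 * K * D) := by
      apply mul_le_mul_of_nonneg_right (by linarith)
      positivity
    have h3 : 0 ≤ D * (p * (K - r)) := by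
      apply mul_nonneg hD0 (mul_nonneg hp.le (by linarith))
    have h4 : 0 ≤ D * (K * (p - 2 * D)) := by
      apply mul_nonneg hD0 (mul_nonneg hK (by linarith))
    nlinarith
  have h2 : 0 ≤ (p ^ 3)⁻¹ := by positivity
  have h3 := mul_nonneg h1 h2
  linarith

/-- the product of the local factors -/
private lemma dnU_prod (S : Finset ℕ) (ρ : ℕ → ℕ) (C : ℝ) (hC : 0 ≤ C) (w z : ℕ) (hw : 1 ≤ w)
    (hwz : w ≤ z) (hS : S ⊆ Ioc w z) (hS2 : ∀ p ∈ S, p.Prime)
    (hsl : ∑ p ∈ S, ((ρ p : ℝ) - 1) / p ≤ 1 / 100) (hwK : 100 * C ≤ w) :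
    ∏ p ∈ S, ((1 + ((ρ p : ℝ) / p + C * ((p : ℝ) ^ 2)⁻¹)) * (1 - 1 / (p : ℝ))) ≤ 105 / 100 := by
  have hw0 : (0 : ℝ) < w := by exact_mod_cast hw
  have h1 : ∏ p ∈ S, ((1 + ((ρ p : ℝ) / p + C * ((p : ℝ) ^ 2)⁻¹)) * (1 - 1 / (p : ℝ))) ≤
      ∏ p ∈ S, Real.exp (((ρ p : ℝ) - 1) / p + C * ((p : ℝ) ^ 2)⁻¹) := by
    apply Finset.prod_le_prod
    · intro p hp
      have hp2 : (2 : ℝ) ≤ p := by exact_mod_cast (hS2 p hp).two_le
      have h2 : 1 / (p : ℝ) ≤ 1 / 2 := one_div_le_one_div_of_le (by norm_num) hp2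
      have h3 : 0 ≤ 1 - 1 / (p : ℝ) := by linarith
      positivity
    · intro p hp
      have hp2 : (2 : ℝ) ≤ p := by exact_mod_cast (hS2 p hp).two_le
      have h2 : 1 / (p : ℝ) ≤ 1 / 2 := one_div_le_one_div_of_le (by norm_num) hp2
      have h3 : 0 ≤ 1 - 1 / (p : ℝ) := by linarith
      have e : ((ρ p : ℝ) - 1) / p + C * ((p : ℝ) ^ 2)⁻¹ =
          ((ρ p : ℝ) / p + C * ((p : ℝ) ^ 2)⁻¹) + -(1 / (p : ℝ)) := by ring
      rw [e, Real.exp_add]
      have h4 := Real.add_one_le_exp ((ρ p : ℝ) / p + C * ((p : ℝ) ^ 2)⁻¹)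
      have h5 := Real.add_one_le_exp (-(1 / (p : ℝ)))
      apply mul_le_mul (by linarith) (by linarith) h3 (Real.exp_pos _).le
  refine h1.trans ?_
  rw [← Real.exp_sum, Finset.sum_add_distrib, ← Finset.mul_sum]
  have h2 : ∑ p ∈ S, ((p : ℝ) ^ 2)⁻¹ ≤ 1 / w := by
    have h3 : ∑ p ∈ S, ((p : ℝ) ^ 2)⁻¹ ≤ ∑ p ∈ Ioc w z, ((p : ℝ) ^ 2)⁻¹ :=
      Finset.sum_le_sum_of_subset_of_nonneg hS fun p _ _ => by positivity
    have h4 := sum_Ioc_inv_sq_le_sub (α := ℝ) (k := w) (n := z) (by omega) hwz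
    have h5 : (0 : ℝ) ≤ (z : ℝ)⁻¹ := by positivity
    rw [one_div]
    linarith
  have h3 : C * ∑ p ∈ S, ((p : ℝ) ^ 2)⁻¹ ≤ 1 / 100 := by
    have h4 := mul_le_mul_of_nonneg_left h2 hC
    refine h4.trans ?_
    rw [mul_one_div, div_le_iff₀ hw0]
    linarith
  have h4 : Real.exp (∑ p ∈ S, ((ρ p : ℝ) - 1) / p + C * ∑ p ∈ S, ((p : ℝ) ^ 2)⁻¹) ≤
      Real.exp (2 / 100) := Real.exp_le_exp.2 (by linarith)
  refine h4.trans ?_
  have h5 := Real.add_one_le_exp (-(2 / 100 : ℝ))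
  have h6 : Real.exp (2 / 100) * Real.exp (-(2 / 100 : ℝ)) = 1 := by
    rw [← Real.exp_add]
    simp
  have h7 : 0 < Real.exp (2 / 100) := Real.exp_pos _
  nlinarith

end

theorem p_dnU : S_dnU := by
  classical
  intro hla ι _ _ D d E F hD
  obtain ⟨K1, hK1, hev⟩ := hla ι D d E F
  obtain ⟨z1, hz1⟩ := eventually_atTop.1 hev
  have hol : ∀ p : ℕ, p.Prime → z1 < p → ∀ l n, ol F n l p ≤ K1 :=
    fun p hp hzp l n => (((hz1 z1 le_rfl).2 p hp hzp l).1 n)
  have hlog : Tendsto (fun n : ℕ => Real.log n) atTop atTop :=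
    Real.tendsto_log_atTop.comp tendsto_natCast_atTop_atTop
  filter_upwards [eventually_ge_atTop F.N0, hlog.eventually_ge_atTop 1,
    hlog.eventually_ge_atTop z1, hlog.eventually_ge_atTop (100 * (2 * (K1 : ℝ) * D))]
    with N hN hlog1 hlogz hlogK
  intro n hn n' w hw hwz l hsl
  have hnN : F.N0 ≤ n := hN.trans (mem_Ioc.1 hn).1.le
  have hwR : Real.log N ≤ w := by nlinarith
  have hw1 : 1 ≤ w := by
    have : (1 : ℝ) ≤ w := by linarith
    exact_mod_cast this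
  have hwz1 : z1 ≤ w := by
    have : (z1 : ℝ) ≤ w := by linarith
    exact_mod_cast this
  have hK1R : (1 : ℝ) ≤ K1 := by exact_mod_cast hK1
  have hD1 : (1 : ℝ) ≤ D := by exact_mod_cast hD
  have hwD : 2 * (D : ℝ) ≤ w := by nlinarith
  have hVdef : F.V n n' = W (fun p => (om (fun p y => (p : ℤ) ∣ (F.G n).eval y) p : ℝ) / p)
      (PK (2 * D) n') := rfl
  have hg : ∀ p : ℕ, p.Prime →
      0 ≤ 1 - (om (fun p y => (p : ℤ) ∣ (F.G n).eval y) p : ℝ) / p ∧
      1 - (om (fun p y => (p : ℤ) ∣ (F.G n).eval y) p : ℝ) / p ≤ 1 := by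
    intro p hpp
    have hp0 : (0 : ℝ) < p := by exact_mod_cast hpp.pos
    have h1 : (om (fun p y => (p : ℤ) ∣ (F.G n).eval y) p : ℝ) / p ≤ 1 := by
      rw [div_le_one hp0]
      exact_mod_cast (dnU_lt F hnN hpp).le
    have h2 : 0 ≤ (om (fun p y => (p : ℤ) ∣ (F.G n).eval y) p : ℝ) / p := by positivity
    constructor <;> linarith
  have hV0 : 0 ≤ F.V n n' := by
    rw [hVdef]
    exact Finset.prod_nonneg fun p hp => (hg p (mem_PK.1 hp).1).1
  set z := z0 D n' with hz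
  have hκz : 0 < kapD z := kapD_pos _
  have hκw : 0 < kapD w := kapD_pos _
  set S := (Ioc w z).filter Nat.Prime with hSdef
  have hP := dnU_prod S (fun p => ol F n l p) (2 * (K1 : ℝ) * D) (by positivity) w z hw1 hwz
    (Finset.filter_subset _ _) (fun p hp => (Finset.mem_filter.1 hp).2) hsl (by linarith)
  rw [Finset.prod_mul_distrib] at hP
  have hκ : kapD z = kapD w * ∏ p ∈ S, (1 - 1 / (p : ℝ)) := by
    unfold kapD
    rw [← Finset.prod_union]
    · apply Finset.prod_congr _ fun _ _ => rfl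
      ext p
      simp only [hSdef, Finset.mem_union, Finset.mem_filter, Finset.mem_Icc, Finset.mem_Ioc]
      constructor
      · rintro ⟨⟨h1, h2⟩, h3⟩
        by_cases h4 : p ≤ w
        · exact Or.inl ⟨⟨h1, h4⟩, h3⟩
        · exact Or.inr ⟨⟨by omega, h2⟩, h3⟩
      · rintro (⟨⟨h1, h2⟩, h3⟩ | ⟨⟨h1, h2⟩, h3⟩)
        · exact ⟨⟨h1, h2.trans hwz⟩, h3⟩
        · exact ⟨⟨h3.one_le, h2⟩, h3⟩
    · rw [Finset.disjoint_left]
      intro p h1 h2
      simp only [hSdef, Finset.mem_filter, Finset.mem_Icc, Finset.mem_Ioc] at h1 h2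
      omega
  have hW : W (d3 F n w z l) (PK (2 * D) n') ≤
      F.V n n' * ∏ p ∈ S, (1 + ((ol F n l p : ℝ) / p + 2 * (K1 : ℝ) * D * ((p : ℝ) ^ 2)⁻¹)) := by
    have e1 : ∏ p ∈ S, (1 + ((ol F n l p : ℝ) / p + 2 * (K1 : ℝ) * D * ((p : ℝ) ^ 2)⁻¹)) =
        ∏ p ∈ PK (2 * D) n', (if w < p then
          1 + ((ol F n l p : ℝ) / p + 2 * (K1 : ℝ) * D * ((p : ℝ) ^ 2)⁻¹) else 1) := by
      rw [← Finset.prod_filter]
      apply Finset.prod_congr _ fun _ _ => rfl
      ext p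
      simp only [hSdef, Finset.mem_filter, mem_PK, Finset.mem_Ioc]
      constructor
      · rintro ⟨⟨h1, h2⟩, h3⟩
        exact ⟨⟨h3, h2⟩, h1⟩
      · rintro ⟨⟨h3, h2⟩, h1⟩
        exact ⟨⟨h1, h2⟩, h3⟩
    rw [e1, hVdef]
    unfold W
    rw [← Finset.prod_mul_distrib]
    apply Finset.prod_le_prod
    · intro p hp
      obtain ⟨hpp, hpz⟩ := mem_PK.1 hp
      have hp0 : (0 : ℝ) < p := by exact_mod_cast hpp.pos
      unfold d3
      beta_reduce
      by_cases hwp : w < p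
      · have h1 := dnU_om_add F hnN l (w := w) (z := z) (p := p) hpz hwp
        have h2 := dnU_lt F hnN hpp
        have h3 : (om (Q3 F n w z l) p : ℝ) ≤ p := by
          exact_mod_cast (show om (Q3 F n w z l) p ≤ p by omega)
        have h4 : (om (Q3 F n w z l) p : ℝ) / p ≤ 1 := by
          rw [div_le_one hp0]
          exact h3
        linarith
      · rw [dnU_om_eq F (z := z) l hpz (by omega)]
        exact (hg p hpp).1
    · intro p hp
      obtain ⟨hpp, hpz⟩ := mem_PK.1 hp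
      have hp0 : (0 : ℝ) < p := by exact_mod_cast hpp.pos
      unfold d3
      beta_reduce
      by_cases hwp : w < p
      · rw [if_pos hwp]
        have h1 := dnU_om_add F hnN l (w := w) (z := z) (p := p) hpz hwp
        have h2 : (om (Q3 F n w z l) p : ℝ) =
            (om (fun p y => (p : ℤ) ∣ (F.G n).eval y) p : ℝ) - ol F n l p := by
          rw [← h1]
          push_cast
          ring
        rw [h2]
        have h5 : (w : ℝ) ≤ p := by exact_mod_cast hwp.le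
        exact dnU_loc hp0 (by linarith) (by linarith) (Nat.cast_nonneg _)
          (by exact_mod_cast hol p hpp (lt_of_le_of_lt hwz1 hwp) l n)
          (by exact_mod_cast dnU_le F hnN hpp)
      · rw [if_neg hwp, mul_one, dnU_om_eq F (z := z) l hpz (by omega)]
  refine hW.trans ?_
  have h1 : 105 / 100 * (F.V n n' / kapD z * kapD w) =
      F.V n n' * (105 / 100 * kapD w / kapD z) := by ring
  rw [h1]
  apply mul_le_mul_of_nonneg_left _ hV0
  have hS0 : 0 < ∏ p ∈ S, (1 - 1 / (p : ℝ)) := by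
    apply Finset.prod_pos
    intro p hp
    have hp2 : (2 : ℝ) ≤ p := by exact_mod_cast (Finset.mem_filter.1 hp).2.two_le
    have : 1 / (p : ℝ) ≤ 1 / 2 := one_div_le_one_div_of_le (by norm_num) hp2
    linarith
  have e3 : 105 / 100 * kapD w / kapD z = 105 / 100 / ∏ p ∈ S, (1 - 1 / (p : ℝ)) := by
    rw [hκ]
    field_simp
  rw [e3, le_div_iff₀ hS0]
  exact hP

end Pool.Agent.HC.M
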