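import Pool.Agent.Lib.MP_0da313_nt.HC.M
import Pool.Agent.Lib.MP_0da313_nt.NC.R.ex

set_option autoImplicit false

/-!
Project HC, section M: the expansion of the error for the single member.
-/

namespace Pool.Agent.HC.M

open Finset Polynomial
open Filter hiding join
open Pool.Agent.MP89da58 (bil pw nn supp part kapD tri join compat mem_supp)
open Pool.Agent.MT (PJf ZI LocD dvI sp sp_subset quad_expandI err_sum_leI)
open Pool.Agent.BVall (om rhoW PK lev RepB Dens mem_PK dvd_eval_congr)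
open Pool.Agent.Lib.MP_0da313_nt (W)
open Pool.Agent.CH (thP)
open Pool.Agent.CM (wd z0)
open Pool.Agent.CM.F (Pre)
open Pool.Agent.CM.G (Qd Qd_mem Qd_not_mem prod_Qd prodn_sp' Qd_per mem_sp)
open Pool.Agent.TC (Lw wN)
open Pool.Agent.TC.W (qf)
open Pool.Agent.NC (Fam Hn Bn Cq Er ErS)
open Pool.Agent.NC.Q (prr nu qr od)
open Pool.Agent.NC.A (Par3 sl)
open Pool.Agent.NC.M (mN Q3 r3 d3 ns_ex_cls ns_ex_eval ns_ex_Lper ns_ex_Qper)
open Pool.Agent.HC (Fam2 ErS2 Cm2 DN2 rn2 rp2 Wt4 Q4 r4 d4 Sj ph)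

section

variable {ι κ : Type} [Fintype ι] [DecidableEq ι] [Fintype κ] [DecidableEq κ] {D d E : ℕ}

lemma ex3_dvd (H : Fam2 ι κ D d E) {n : ℕ} (hn : H.F.N0 ≤ n) (s : ι ⊕ κ) {p : ℕ} {y : ℤ}
    (h : (p : ℤ) ∣ H.L2 n s y) : (p : ℤ) ∣ (H.F.G n).eval y := by
  rcases s with l | j
  · rw [ns_ex_eval H.F hn l]
    exact Dvd.dvd.mul_right h _
  · have e : (H.F.G n).eval y = H.M j y * (H.Hc n j).eval y := by
      rw [H.hH n hn j]
      simp [Fam2.M]
    rw [e]
    exact Dvd.dvd.mul_right h _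

lemma ex3_per (H : Fam2 ι κ D d E) (n : ℕ) (s : ι ⊕ κ) {p : ℕ} {x y : ℤ}
    (h : (p : ℤ) ∣ x - y) : (p : ℤ) ∣ H.L2 n s x ↔ (p : ℤ) ∣ H.L2 n s y := by
  rcases s with l | j
  · exact ns_ex_Lper H.F n l h
  · have e : H.M j x = H.M j y + (H.u j : ℤ) * (x - y) := by
      unfold Fam2.M
      ring
    show (p : ℤ) ∣ H.M j x ↔ (p : ℤ) ∣ H.M j y
    rw [e]
    exact Int.dvd_add_left (Dvd.dvd.mul_left h _)

lemma ex3_loc (H : Fam2 ι κ D d E) (n : ℕ) (P : Finset ℕ) :
    LocD P (DN2 H P n) (fun _ => False) := by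
  refine ⟨?_, fun _ _ h => absurd h not_false⟩
  intro j s x y h
  unfold DN2
  rw [ex3_per H n s h]

lemma ex3_exc (H : Fam2 ι κ D d E) (n : ℕ) (P : Finset ℕ) (j : PJf P) (s s' : ι ⊕ κ) (y : ℤ)
    (h : s ≠ s') : ¬ (DN2 H P n j s y ∧ DN2 H P n j s' y) := by
  rintro ⟨⟨h1, h2⟩, h3, -⟩
  exact h2 ⟨s, s', y, h, h1, h3⟩

open Classical in
/-- The sum for one set of small primes and one support. -/
lemma ex3_one (H : Fam2 ι κ D d E) {n N w z : ℕ} {P : Finset ℕ} (l : ι)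
    (γ : PJf P → Option (ι ⊕ κ)) (T : Finset ℕ) (hTp : ∀ p ∈ T, p.Prime) (hdisj : Disjoint T (sp γ))
    (hP : ∀ p ∈ P, p.Prime) (hn : H.F.N0 ≤ n)
    (hγ : ∀ p, γ p ≠ some (Sum.inl l))
    (hbig : ∀ x : ℕ, 1 ≤ x → H.F.wh N x ≠ 0 → (w : ℤ) < H.F.L n l x) :
    |∑ x ∈ Icc 1 (Hn d N), (if dvI (DN2 H P n) (x : ℤ) γ then
        H.F.wh N x * (thP (H.F.L n l x).toNat - Lw w (H.F.L n l x).toNat) *
          ∏ p ∈ T, r3 H.F n w z l x p else 0)| ≤
      ∑ c ∈ Cq H.F n ((∏ p ∈ T, p) * nn (fun j : PJf P => (j : ℕ)) (supp γ)) l,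
        |Er H.F N w n l ((∏ p ∈ T, p) * nn (fun j : PJf P => (j : ℕ)) (supp γ)) c| := by
  set q := (∏ p ∈ T, p) * nn (fun j : PJf P => (j : ℕ)) (supp γ) with hq
  have hqprod : q = ∏ p ∈ T ∪ sp γ, p := (prodn_sp' hdisj).symm
  have hprime : ∀ p ∈ T ∪ sp γ, p.Prime := by
    intro p hp
    rcases Finset.mem_union.1 hp with h | h
    · exact hTp p h
    · exact hP p (sp_subset γ h)
  have hq0 : 0 < q := by
    rw [hqprod]
    exact Finset.prod_pos fun p hp => (hprime p hp).pos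
  have hdvd : ∀ p ∈ T ∪ sp γ, p ∣ q := by
    intro p hp
    rw [hqprod]
    exact Finset.dvd_prod_of_mem _ hp
  set Pd : ℤ → Prop := fun y => ∀ p ∈ T ∪ sp γ, Qd (DN2 H P n) (Q3 H.F n w z l) γ p y with hPd
  have hper : ∀ x y : ℤ, (q : ℤ) ∣ x - y → (Pd x ↔ Pd y) := by
    intro x y h
    have h1 : ∀ p ∈ T ∪ sp γ, (Qd (DN2 H P n) (Q3 H.F n w z l) γ p x ↔
        Qd (DN2 H P n) (Q3 H.F n w z l) γ p y) := by
      intro p hp
      exact Qd_per (ex3_loc H n P) (ns_ex_Qper H.F n w z l) p x y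
        ((Int.natCast_dvd_natCast.2 (hdvd p hp)).trans h)
    exact forall₂_congr h1
  have e1 : ∑ x ∈ Icc 1 (Hn d N), (if dvI (DN2 H P n) (x : ℤ) γ then
        H.F.wh N x * (thP (H.F.L n l x).toNat - Lw w (H.F.L n l x).toNat) *
          ∏ p ∈ T, r3 H.F n w z l x p else 0) =
      ∑ x ∈ (Icc 1 (Hn d N)).filter (fun x : ℕ => Pd (x : ℤ)),
        H.F.wh N x * (thP (H.F.L n l x).toNat - Lw w (H.F.L n l x).toNat) := by
    rw [Finset.sum_filter]
    apply Finset.sum_congr rfl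
    intro x _
    have h1 := prod_Qd (D := DN2 H P n) (Q := Q3 H.F n w z l) hdisj (x : ℤ)
    rw [Finset.prod_ite_zero, Finset.prod_const_one] at h1
    have h2 : ∏ p ∈ T, r3 H.F n w z l x p =
        ∏ p ∈ T, (if Q3 H.F n w z l p (x : ℤ) then (1 : ℝ) else 0) := rfl
    rw [h2]
    by_cases hd : dvI (DN2 H P n) (x : ℤ) γ
    · rw [if_pos hd, mul_one] at h1
      rw [if_pos hd, ← h1]
      by_cases hx : Pd x
      · rw [if_pos hx, if_pos hx, mul_one]
      · rw [if_neg hx, if_neg hx, mul_zero]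
    · rw [if_neg hd, mul_zero] at h1
      rw [if_neg hd]
      by_cases hx : Pd x
      · rw [if_pos hx] at h1
        exact absurd h1 one_ne_zero
      · rw [if_neg hx]
  rw [e1, ns_ex_cls (Icc 1 (Hn d N)) q hq0 Pd hper]
  refine (Finset.abs_sum_le_sum_abs _ _).trans ?_
  -- the facts at a good class
  have hspL : ∀ (p : ℕ) (hp : p ∈ sp γ) (c : ℕ), Pd (c : ℤ) →
      ∃ k, γ ⟨p, sp_subset γ hp⟩ = some k ∧ (p : ℤ) ∣ H.L2 n k c ∧ ¬ Cm2 H n p := by
    intro p hp c hc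
    obtain ⟨h1, k, h2⟩ := mem_sp.1 hp
    refine ⟨k, h2, ?_⟩
    have h3 := hc p (Finset.mem_union_right _ hp)
    exact (Qd_mem (D := DN2 H P n) (Q := Q3 H.F n w z l) ⟨p, h1⟩ h2 c).1 h3
  have hG : ∀ c : ℕ, Pd (c : ℤ) → (q : ℤ) ∣ (H.F.G n).eval (c : ℤ) := by
    intro c hc
    rw [Int.natCast_dvd, hqprod]
    apply Finset.prod_primes_dvd
    · intro p hp
      exact (hprime p hp).prime
    · intro p hp
      rw [← Int.natCast_dvd]
      by_cases hps : p ∈ sp γ
      · obtain ⟨k, -, h2, -⟩ := hspL p hps c hc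
        exact ex3_dvd H hn k h2
      · exact ((Qd_not_mem hps _).1 (hc p hp)).2.1
  have hzero : ∀ c : ℕ, Pd (c : ℤ) → c < q → c ∉ Cq H.F n q l →
      Er H.F N w n l q c = 0 := by
    intro c hc hcq hnot
    have hnc : ¬ IsCoprime (q : ℤ) (H.F.L n l c) := by
      intro h
      apply hnot
      unfold Cq
      rw [Finset.mem_filter, Finset.mem_range]
      exact ⟨hcq, hG c hc, h⟩
    rw [Int.isCoprime_iff_gcd_eq_one] at hnc
    have hnc2 : ¬ Nat.Coprime q (H.F.L n l c).natAbs := hnc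
    obtain ⟨p, hp, hpq, hpL⟩ := Nat.Prime.not_coprime_iff_dvd.1 hnc2
    rw [← Int.natCast_dvd] at hpL
    rw [hqprod, Prime.dvd_finsetProd_iff hp.prime] at hpq
    obtain ⟨p', hp', hpp'⟩ := hpq
    rw [Nat.prime_dvd_prime_iff_eq hp (hprime p' hp')] at hpp'
    subst hpp'
    have hps : p ∉ sp γ := by
      intro hps
      obtain ⟨k, h1, h2, h3⟩ := hspL p hps c hc
      have hkl : k ≠ Sum.inl l := by
        intro h
        subst h
        exact hγ _ h1
      exact h3 ⟨k, Sum.inl l, c, hkl, h2, hpL⟩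
    obtain ⟨-, -, h4⟩ := (Qd_not_mem hps _).1 (hc p hp')
    have h6 : p ≤ w := by
      by_contra hcon
      push Not at hcon
      exact h4 hcon hpL
    unfold Er
    apply Finset.sum_eq_zero
    intro x hx
    rw [Finset.mem_filter, Finset.mem_Icc] at hx
    by_cases hs : H.F.wh N x = 0
    · rw [hs, zero_mul]
    · have h7 := hbig x hx.1.1 hs
      have h8 : (p : ℤ) ∣ (x : ℤ) - (c : ℤ) := by
        have h9 : (q : ℤ) ∣ (x : ℤ) - (c : ℤ) := by
          have := (Nat.modEq_iff_dvd.1 hx.2.symm)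
          exact this
        exact (Int.natCast_dvd_natCast.2 (hdvd p hp')).trans h9
      have h10 : (p : ℤ) ∣ H.F.L n l x := (ns_ex_Lper H.F n l h8).2 hpL
      have hw0 : (0 : ℤ) ≤ w := Int.natCast_nonneg w
      have h11 : (((H.F.L n l x).toNat : ℕ) : ℤ) = H.F.L n l x := Int.toNat_of_nonneg (by omega)
      have h12 : p ∣ (H.F.L n l x).toNat := by
        rw [← Int.natCast_dvd_natCast, h11]
        exact h10
      have h13 : w < (H.F.L n l x).toNat := by omega
      have h14 : thP (H.F.L n l x).toNat = 0 := by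
        unfold thP
        rw [if_neg]
        intro hpr
        have := (Nat.prime_dvd_prime_iff_eq hp hpr).1 h12
        omega
      have h15 : Lw w (H.F.L n l x).toNat = 0 := by
        unfold Lw
        rw [if_neg]
        intro h
        exact h p hp h6 h12
      rw [h14, h15, sub_zero, mul_zero]
  have hsub : ∀ c ∈ (range q).filter (fun c : ℕ => Pd (c : ℤ)),
      |∑ x ∈ (Icc 1 (Hn d N)).filter (fun x => x ≡ c [MOD q]), H.F.wh N x *
        (thP (H.F.L n l x).toNat - Lw w (H.F.L n l x).toNat)| =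
      if c ∈ Cq H.F n q l then |Er H.F N w n l q c| else 0 := by
    intro c hc
    rw [Finset.mem_filter, Finset.mem_range] at hc
    change |Er H.F N w n l q c| = _
    split_ifs with h
    · rfl
    · rw [hzero c hc.2 hc.1 h, abs_zero]
  rw [Finset.sum_congr rfl hsub, ← Finset.sum_filter]
  apply Finset.sum_le_sum_of_subset_of_nonneg
  · intro c hc
    exact (Finset.mem_filter.1 hc).2
  · intro c _ _
    exact abs_nonneg _

end

theorem p_ex3 : S_ex3 := by
  classical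
  intro _ hwin _ hes1 ι κ _ _ _ _ D d E H B0 B B1 hD hB0 hB1
  obtain ⟨-, C, hC, hwin⟩ := hwin ι D d E H.F
  have hwn : ∀ᶠ n : ℕ in atTop, (C : ℝ) * (Real.log n) ^ B1 < n := by
    have h1 : ∀ᶠ x : ℝ in atTop, ‖Real.log x ^ B1‖ ≤ (1 / (2 * (C : ℝ))) * ‖x‖ :=
      (Real.isLittleO_pow_log_id_atTop (n := B1)).bound (by
        have : (0 : ℝ) < C := by exact_mod_cast (by omega : 0 < C)
        positivity)
    filter_upwards [tendsto_natCast_atTop_atTop.eventually h1, eventually_ge_atTop 1]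
      with n hn h1n
    have hC0 : (0 : ℝ) < C := by exact_mod_cast (by omega : 0 < C)
    have hn0 : (0 : ℝ) < n := by exact_mod_cast (by omega : 0 < n)
    have hl0 : 0 ≤ Real.log (n : ℝ) := Real.log_natCast_nonneg n
    rw [Real.norm_of_nonneg (by positivity), Real.norm_of_nonneg hn0.le] at hn
    have h2 := mul_le_mul_of_nonneg_left hn hC0.le
    have h3 : (C : ℝ) * (1 / (2 * (C : ℝ)) * n) = n / 2 := by field_simp
    rw [h3] at h2
    linarith
  filter_upwards [hwin, hwn, eventually_ge_atTop 3] with N gwin gwn gN3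
  obtain ⟨gN0, gwin⟩ := gwin
  intro n hn n' P hpar Ff hrep l g hg hgl
  have hn' := Finset.mem_Ioc.1 hn
  have hNn : N ≤ n := hn'.1.le
  have hN0 : (0 : ℝ) < N := by exact_mod_cast (by omega : 0 < N)
  have hN1 : (1 : ℝ) ≤ N := by exact_mod_cast (by omega : 1 ≤ N)
  have hnN0 : H.F.N0 ≤ n := le_trans gN0 hNn
  set w := wN B1 N with hw
  have hPp : ∀ p ∈ P, p.Prime := fun p hp => (hpar.hP p hp).1
  -- the values of the member are large
  have hbig : ∀ x : ℕ, 1 ≤ x → H.F.wh N x ≠ 0 → (w : ℤ) < H.F.L n l x := by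
    intro x hx1 hx
    obtain ⟨-, -, -, h5⟩ := gwin n hn x hx1 hx
    have h6 := (h5 l).1
    have hC0 : (0 : ℝ) < C := by exact_mod_cast (by omega : 0 < C)
    have h7 : (w : ℝ) ≤ (Real.log N) ^ B1 := by
      apply Nat.floor_le
      have := Real.log_natCast_nonneg N
      positivity
    have h8 : (C : ℝ) * w < C * (H.F.L n l x : ℝ) := by
      calc (C : ℝ) * w ≤ C * (Real.log N) ^ B1 := mul_le_mul_of_nonneg_left h7 hC0.le
        _ < N := gwn
        _ ≤ _ := h6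
    have h9 : (w : ℝ) < (H.F.L n l x : ℝ) := lt_of_mul_lt_mul_left h8 hC0.le
    exact_mod_cast h9
  -- the error function
  set Ef : ℕ → ℝ := fun q => ∑ c ∈ Cq H.F n q l, |Er H.F N w n l q c| with hEf
  have hE0 : ∀ q, 0 ≤ Ef q := fun q => Finset.sum_nonneg fun c _ => abs_nonneg _
  set Y0 := lev (2 * D) n' ^ 3 with hY0
  set P1 := PK (2 * D) n' with hP1
  set e1 : Finset (PJf P) → ℝ := fun A =>
    ∑ T ∈ P1.powerset.filter (fun T => ∏ p ∈ T, p ≤ Y0 ∧
        Disjoint T (A.map (Function.Embedding.subtype _))),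
      3 * (((1 : ℕ) : ℝ) ^ (T.card + A.card) *
        Ef ((∏ p ∈ T, p) * nn (fun j : PJf P => (j : ℕ)) A)) with he1
  have he10 : ∀ A, 0 ≤ e1 A := fun A => Finset.sum_nonneg fun T _ =>
    mul_nonneg (by norm_num) (mul_nonneg (by positivity) (hE0 _))
  have hP1P : ∀ p ∈ P1, p ∉ P := by
    intro p hp hpP
    have h1 : p ≤ z0 D n' := (mem_PK.1 hp).2
    have h2 := (hpar.hP p hpP).2.1
    omega
  obtain ⟨cc, hc1, hc2, hc3⟩ := hrep
  have key := quad_expandI (DN2 H P n) (ex3_exc H n P)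
    (fun _ => (0 : ℝ)) g (Icc 1 (Hn d N)) (fun x : ℕ => (x : ℤ))
    (fun x : ℕ => H.F.wh N x *
      (thP (H.F.L n l x).toNat - Lw w (H.F.L n l x).toNat) * Ff (r3 H.F n w (z0 D n') l x))
    0 (fun γ => e1 (supp γ)) (by
      intro α β hα hβ _
      set γ := join α β with hγ
      rw [zero_mul, sub_zero]
      have hγA : ∀ p, γ p ≠ some (Sum.inl l) := by
        intro p hl
        rcases hα' : α p with _ | m
        · have h1 : β p = some (Sum.inl l) := by
            simp only [hγ, join, hα', Option.orElse_none] at hl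
            exact hl
          exact hgl β hβ p h1
        · have h1 : m = Sum.inl l := by
            simp only [hγ, join, hα', Option.orElse_some] at hl
            exact Option.some.inj hl
          exact hgl α hα p (h1 ▸ hα')
      have e2 : ∑ x ∈ Icc 1 (Hn d N), (if dvI (DN2 H P n) (x : ℤ) γ then
            H.F.wh N x *
              (thP (H.F.L n l x).toNat - Lw w (H.F.L n l x).toNat) *
                Ff (r3 H.F n w (z0 D n') l x) else 0) =
          ∑ T ∈ P1.powerset, cc T * ∑ x ∈ Icc 1 (Hn d N), (if dvI (DN2 H P n) (x : ℤ) γ then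
            H.F.wh N x *
              (thP (H.F.L n l x).toNat - Lw w (H.F.L n l x).toNat) *
                ∏ p ∈ T, r3 H.F n w (z0 D n') l x p else 0) := by
        simp only [Finset.mul_sum]
        rw [Finset.sum_comm]
        apply Finset.sum_congr rfl
        intro x _
        rw [hc1]
        split_ifs
        · rw [Finset.mul_sum]
          apply Finset.sum_congr rfl
          intro T _
          ring
        · simp
      rw [e2]
      refine (Finset.abs_sum_le_sum_abs _ _).trans ?_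
      simp only [he1]
      rw [Finset.sum_filter]
      refine Finset.sum_le_sum fun T hT => ?_
      have hTP := Finset.mem_powerset.1 hT
      have hTp : ∀ p ∈ T, p.Prime := fun p hp => (mem_PK.1 (hTP hp)).1
      have hdisj : Disjoint T (sp γ) := by
        rw [Finset.disjoint_left]
        intro p hp hp'
        exact hP1P p (hTP hp) (sp_subset γ hp')
      have hR0 : 0 ≤ 3 * (((1 : ℕ) : ℝ) ^ (T.card + (supp γ).card) *
          Ef ((∏ p ∈ T, p) * nn (fun j : PJf P => (j : ℕ)) (supp γ))) :=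
        mul_nonneg (by norm_num) (mul_nonneg (by positivity) (hE0 _))
      rw [abs_mul]
      by_cases hcT : cc T = 0
      · rw [hcT, abs_zero, zero_mul]
        split_ifs
        · exact hR0
        · exact le_rfl
      · rw [if_pos ⟨hc3 T hT hcT, hdisj⟩]
        have h1 := ex3_one H (n := n) (N := N) (w := w) (z := z0 D n') l γ T hTp hdisj hPp
          hnN0 hγA hbig
        have h2 := hc2 T
        have h3 : 0 ≤ Ef ((∏ p ∈ T, p) * nn (fun j : PJf P => (j : ℕ)) (supp γ)) := hE0 _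
        rw [Nat.cast_one, one_pow, one_mul]
        refine (mul_le_mul h2 h1 (abs_nonneg _) (by norm_num)).trans ?_
        change 1 * Ef ((∏ p ∈ T, p) * nn (fun j : PJf P => (j : ℕ)) (supp γ)) ≤ _
        linarith)
  rw [zero_mul, sub_zero] at key
  have esum : ∑ x ∈ Icc 1 (Hn d N), H.F.wh N x *
      ((thP (H.F.L n l x).toNat - Lw w (H.F.L n l x).toNat) *
        (Ff (r3 H.F n w (z0 D n') l x) * ZI (DN2 H P n) g x ^ 2)) =
      ∑ x ∈ Icc 1 (Hn d N), H.F.wh N x *
        (thP (H.F.L n l x).toNat - Lw w (H.F.L n l x).toNat) * Ff (r3 H.F n w (z0 D n') l x) *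
          ZI (DN2 H P n) g x ^ 2 := by
    apply Finset.sum_congr rfl
    intro x _
    ring
  rw [esum]
  refine key.trans ?_
  set Y := ⌊(Hn d N : ℝ) ^ (1 / 5000 : ℝ)⌋₊ with hY
  have h2 := err_sum_leI (fun j : PJf P => (j : ℕ)) (fun j => (hPp j.1 j.2).one_le) g B Y hg.bd
    (fun α hα => Nat.le_floor (hg.sup α hα)) e1 he10
  refine h2.trans ?_
  have hκ : 1 ≤ Fintype.card (ι ⊕ κ) := Fintype.card_pos_iff.2 ⟨Sum.inl l⟩
  have h3 := hes1 P P1 hPp (fun p hp => (mem_PK.1 hp).1) (3 * Fintype.card (ι ⊕ κ)) 1 Y Y0 (by omega)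
    le_rfl Ef hE0
  rw [show 2 * (3 * Fintype.card (ι ⊕ κ)) * 1 = 6 * Fintype.card (ι ⊕ κ) by ring] at h3
  have hd0 : (0 : ℝ) < d := by
    have := H.F.hd
    exact_mod_cast (by omega : 0 < d)
  have hYN : Y * Y * Y0 ≤ ⌊(N : ℝ) ^ (1 / (1000 * d) : ℝ)⌋₊ := by
    apply Nat.le_floor
    push_cast
    have hH0 : (0 : ℝ) ≤ (Hn d N : ℝ) := Nat.cast_nonneg _
    have hY1 : (Y : ℝ) ≤ (Hn d N : ℝ) ^ (1 / 5000 : ℝ) := Nat.floor_le (by positivity)
    have hY2 : (Y0 : ℝ) ≤ (Hn d N : ℝ) ^ (1 / 10000 : ℝ) := by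
      rw [hY0]
      push_cast
      exact hpar.hlev
    have hH1 : (Hn d N : ℝ) ≤ (N : ℝ) ^ (1 / (d : ℝ)) := Nat.floor_le (by positivity)
    have hY3 : (Hn d N : ℝ) ^ (1 / 5000 : ℝ) = ((Hn d N : ℝ) ^ (1 / 10000 : ℝ)) ^ (2 : ℕ) := by
      rw [← Real.rpow_natCast, ← Real.rpow_mul hH0]
      norm_num
    calc (Y : ℝ) * Y * Y0 ≤ (Hn d N : ℝ) ^ (1 / 5000 : ℝ) * (Hn d N : ℝ) ^ (1 / 5000 : ℝ) *
          (Hn d N : ℝ) ^ (1 / 10000 : ℝ) := by
          apply mul_le_mul _ hY2 (Nat.cast_nonneg _) (by positivity)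
          exact mul_le_mul hY1 hY1 (Nat.cast_nonneg _) (by positivity)
      _ = ((Hn d N : ℝ) ^ (1 / 10000 : ℝ)) ^ (5 : ℕ) := by rw [hY3]; ring
      _ ≤ (((N : ℝ) ^ (1 / (d : ℝ))) ^ (1 / 10000 : ℝ)) ^ (5 : ℕ) := by
          apply pow_le_pow_left₀ (by positivity)
          exact Real.rpow_le_rpow hH0 hH1 (by norm_num)
      _ = (N : ℝ) ^ (1 / (d : ℝ) * (1 / 10000) * 5) := by
          rw [← Real.rpow_natCast, ← Real.rpow_mul hN0.le, ← Real.rpow_mul hN0.le]
          norm_num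
      _ ≤ (N : ℝ) ^ (1 / (1000 * d) : ℝ) := by
          apply Real.rpow_le_rpow_of_exponent_le hN1
          rw [show 1 / (d : ℝ) * (1 / 10000) * 5 = (5 / 10000) * (1 / d) by ring,
            show 1 / (1000 * (d : ℝ)) = (1 / 1000) * (1 / d) by field_simp]
          apply mul_le_mul_of_nonneg_right (by norm_num) (by positivity)
  have h4 : ∑ q ∈ (Icc 1 (Y * Y * Y0)).filter Squarefree,
      ((6 * Fintype.card (ι ⊕ κ) : ℕ) : ℝ) ^ q.primeFactors.card * Ef q ≤
      ErS H.F N w n (6 * Fintype.card (ι ⊕ κ)) l := by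
    unfold ErS
    apply Finset.sum_le_sum_of_subset_of_nonneg
    · intro q hq
      rw [Finset.mem_filter, Finset.mem_Icc] at hq ⊢
      exact ⟨⟨hq.1.1, hq.1.2.trans hYN⟩, hq.2⟩
    · intro q _ _
      exact mul_nonneg (by positivity) (hE0 q)
  calc (B : ℝ) ^ 2 * ∑ a ∈ (univ : Finset (Finset (PJf P))).filter
          (fun a => nn (fun j : PJf P => (j : ℕ)) a ≤ Y * Y),
          ((3 * Fintype.card (ι ⊕ κ) : ℕ) : ℝ) ^ a.card * e1 a
      ≤ (B : ℝ) ^ 2 * (3 * ∑ q ∈ (Icc 1 (Y * Y * Y0)).filter Squarefree,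
          ((6 * Fintype.card (ι ⊕ κ) : ℕ) : ℝ) ^ q.primeFactors.card * Ef q) :=
        mul_le_mul_of_nonneg_left h3 (sq_nonneg _)
    _ ≤ (B : ℝ) ^ 2 * (3 * ErS H.F N w n (6 * Fintype.card (ι ⊕ κ)) l) := by
        apply mul_le_mul_of_nonneg_left _ (sq_nonneg _)
        linarith
    _ = 3 * (B : ℝ) ^ 2 * ErS H.F N w n (6 * Fintype.card (ι ⊕ κ)) l := by ring

end Pool.Agent.HC.M

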