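import Pool.Agent.Lib.MP_0da313_nt.HC.F
import Pool.Agent.Lib.MP_0da313_nt.CM.P.fin
import Pool.Agent.Lib.MP_0da313_nt.CM.Fin2
import Pool.Agent.Lib.MP_0da313_nt.CM.P.app
import Pool.Agent.Lib.MP_0da313_nt.MT.Core

set_option autoImplicit false

/-!
[HF fin2]: the final theorem (compare `NC/R/fin.lean`).
-/

namespace Pool.Agent.HC.F

open Finset Filter Polynomial
open ArithmeticFunction (cardFactors)
open Pool.Agent.MP89da58 (bil pw nn supp part kapD tri)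
open Pool.Agent.MT (PJf dvI ZI)
open Pool.Agent.BVall (om PK lev RepB Dens)
open Pool.Agent.Lib.MP_0da313_nt (Admissible lineRestrict val singV W small nroots abs_val_le
  eval_lineRestrict)
open Pool.Agent.MT (choose_levS ev_err card_unit_le good_of_rough singV_le level_facts dens_poly
  W_ge card_filter_sub)
open Pool.Agent.CM (z0)
open Pool.Agent.TC (wN)
open Pool.Agent.TC.W (qf)
open Pool.Agent.NC (Hn Bn ErS)
open Pool.Agent.NC.Q (qr)
open Pool.Agent.NC.A (sl Par3)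
open Pool.Agent.HC (Fam2 ErS2 DN2 rn2 rp2 Wt4)

open Classical in
/-- The exceptional set. -/
private def fin2_S {m : ℕ} (D d : ℕ) (c0 c : ℝ) (B : ℕ) (f : Fin m → MvPolynomial (Fin 2) ℤ)
    (I J : Finset (Fin m)) : Set ℕ :=
  {n : ℕ | ¬ (c * ((n : ℝ) ^ (1 / (d : ℝ)) * singV f n) ≤
    (Set.ncard {x : ℕ | 0 < x ∧ x < n ∧ x ^ d ≤ n ∧
      (c0 * Real.log I.card ≤
          d * ((I.filter (fun k => (val (f k) x ((n : ℤ) - x)).natAbs.Prime)).card : ℝ) ∧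
        1 ≤ (I.filter (fun k => (val (f k) x ((n : ℤ) - x)).natAbs.Prime)).card) ∧
      (J.Nonempty → c0 * Real.log J.card ≤
          ((J.filter (fun k => (val (f k) x ((n : ℤ) - x)).natAbs.Prime)).card : ℝ) ∧
        1 ≤ (J.filter (fun k => (val (f k) x ((n : ℤ) - x)).natAbs.Prime)).card) ∧
      ∀ k, 1 < |val (f k) x ((n : ℤ) - x)| ∧
      (∀ p : ℕ, p.Prime → (p : ℤ) ∣ val (f k) x ((n : ℤ) - x) → n < p ^ B) ∧
      cardFactors (val (f k) x ((n : ℤ) - x)).natAbs ≤ B * D} : ℝ))}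

/-- The exceptional set is monotone. -/
private theorem fin2_mono {m : ℕ} (D d : ℕ) {c0 c0' : ℝ} (hc0 : c0 ≤ c0') {c c' : ℝ} (hc : c ≤ c')
    {B B' : ℕ} (hB : B' ≤ B) (f : Fin m → MvPolynomial (Fin 2) ℤ) (I J : Finset (Fin m)) :
    fin2_S D d c0 c B f I J ⊆ fin2_S D d c0' c' B' f I J := by
  intro n hn hcon
  apply hn
  have h1 : c * ((n : ℝ) ^ (1 / (d : ℝ)) * singV f n) ≤
      c' * ((n : ℝ) ^ (1 / (d : ℝ)) * singV f n) :=
    mul_le_mul_of_nonneg_right hc (mul_nonneg (Real.rpow_nonneg (Nat.cast_nonneg _) _)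
      (Pool.Agent.CM.singV_nonneg f n))
  refine h1.trans (hcon.trans ?_)
  refine Nat.cast_le.2 (Set.ncard_le_ncard ?_ ((Set.finite_lt_nat n).subset fun x hx => hx.2.1))
  rintro x ⟨g1, g2, g3, g4, g4', g5⟩
  have hlg : ∀ s : Finset (Fin m), c0 * Real.log s.card ≤ c0' * Real.log s.card := fun s =>
    mul_le_mul_of_nonneg_right hc0 (Real.log_natCast_nonneg _)
  refine ⟨g1, g2, g3, ⟨(hlg I).trans g4.1, g4.2⟩, fun hJ => ⟨(hlg J).trans (g4' hJ).1, (g4' hJ).2⟩,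
    fun k => ⟨(g5 k).1, fun p hp hd => ?_, ?_⟩⟩
  · exact ((g5 k).2.1 p hp hd).trans_le (Nat.pow_le_pow_right hp.pos hB)
  · exact (g5 k).2.2.trans (Nat.mul_le_mul_right D hB)

open Classical in
/-- The end of the proof for a fixed `n`. -/
private theorem fin2_n {m D d E : ℕ} {c0 c τ₁ τ₂ : ℝ} (hc : 0 < c)
    (I J : Finset (Fin m)) (H : Fam2 {k // k ∈ I} {k // k ∈ J} (m * D) d E)
    (f : Fin m → MvPolynomial (Fin 2) ℤ) (hdeg : ∀ k, (f k).totalDegree ≤ D)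
    {Cf : Fin m → ℕ}
    (hCf : ∀ k, ∀ n : ℕ, 1 ≤ n → ∀ x y : ℤ, |x| ≤ n → |y| ≤ n →
      |val (f k) x y| ≤ Cf k * (n : ℤ) ^ D)
    {N n n' B : ℕ} (hB1 : 1 ≤ B) (hCz : (∑ k, Cf k) + 2 ≤ z0 (m * D) n')
    (hzB : n ≤ z0 (m * D) n' ^ B) (hzn : z0 (m * D) n' ≤ n)
    (hFG : H.F.G n = ∏ k, lineRestrict (f k) n)
    (hirr : ∀ k, Irreducible (lineRestrict (f k) n))
    (hloc : ∀ p : ℕ, p.Prime → ¬ ∀ x : ℤ, (p : ℤ) ∣ ∏ k, (lineRestrict (f k) n).eval x)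
    (hL : ∀ (i : {k // k ∈ I}) (x : ℤ),
      (H.F.L n i x).natAbs = (val (f i) x ((n : ℤ) - x)).natAbs)
    (hM : ∀ (i : {k // k ∈ J}) (x : ℤ),
      (H.M i x).natAbs = (val (f i) x ((n : ℤ) - x)).natAbs)
    (hd1 : 1 ≤ d) (hn2 : n ≤ 2 * N)
    (hlog : c0 * Real.log (Fintype.card {k // k ∈ I}) ≤ Fintype.card {k // k ∈ I} * τ₁ / 400)
    (hlog' : c0 * Real.log (Fintype.card {k // k ∈ J}) ≤ Fintype.card {k // k ∈ J} * τ₂ / 400)
    (hwin : ∀ x : ℕ, 1 ≤ x → H.F.wh N x ≠ 0 → x < n ∧ x ^ d ≤ n)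
    (h2 : 2 * ((m * D : ℕ) : ℝ) ≤ c / 2 * ((N : ℝ) ^ (1 / (d : ℝ)) * H.F.V n n'))
    (hmain : c * ((N : ℝ) ^ (1 / (d : ℝ)) * H.F.V n n') ≤ (((Icc 1 (Hn d N)).filter (fun x : ℕ =>
      H.F.wh N x ≠ 0 ∧ H.F.Rg n (z0 (m * D) n') x ∧
      (Fintype.card {k // k ∈ I} * τ₁ / 400 ≤
        d * ((univ.filter (fun i : {k // k ∈ I} => (H.F.L n i x).natAbs.Prime)).card : ℝ) ∧
      1 ≤ (univ.filter (fun i : {k // k ∈ I} => (H.F.L n i x).natAbs.Prime)).card) ∧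
      (Fintype.card {k // k ∈ J} * τ₂ / 400 ≤
        ((univ.filter (fun i : {k // k ∈ J} => (H.M i x).natAbs.Prime)).card : ℝ) ∧
      1 ≤ (univ.filter (fun i : {k // k ∈ J} => (H.M i x).natAbs.Prime)).card))).card : ℝ)) :
    n ∉ fin2_S D d c0 (c / 4) B f I J := by
  intro hcon
  apply hcon
  have hsing : singV f n ≤ H.F.V n n' := by
    refine (singV_le f n (2 * (m * D)) n' hloc hzn).trans (le_of_eq ?_)
    unfold NC.Fam.V
    rw [hFG]
  set U := (Ioo 0 n).filter (fun x : ℕ => ∃ k, (lineRestrict (f k) n).eval (x : ℤ) ^ 2 - 1 = 0)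
    with hU
  have hUc : U.card ≤ 2 * (m * D) := by
    have h := card_unit_le f hdeg hirr (Ioo 0 n)
    refine le_trans (le_of_eq ?_) h
    rw [hU]
  have ecI : ∀ x : ℕ, (univ.filter (fun i : {k // k ∈ I} =>
      (H.F.L n i x).natAbs.Prime)).card =
      (I.filter (fun k => (val (f k) x ((n : ℤ) - x)).natAbs.Prime)).card := by
    intro x
    rw [← card_filter_sub I (fun k => (val (f k) x ((n : ℤ) - x)).natAbs.Prime)]
    congr 1
    apply Finset.filter_congr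
    intro i _
    rw [hL]
  have ecJ : ∀ x : ℕ, (univ.filter (fun i : {k // k ∈ J} =>
      (H.M i x).natAbs.Prime)).card =
      (J.filter (fun k => (val (f k) x ((n : ℤ) - x)).natAbs.Prime)).card := by
    intro x
    rw [← card_filter_sub J (fun k => (val (f k) x ((n : ℤ) - x)).natAbs.Prime)]
    congr 1
    apply Finset.filter_congr
    intro i _
    rw [hM]
  set Gd := (Icc 1 (Hn d N)).filter (fun x : ℕ =>
      H.F.wh N x ≠ 0 ∧ H.F.Rg n (z0 (m * D) n') x ∧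
      (Fintype.card {k // k ∈ I} * τ₁ / 400 ≤
        d * ((univ.filter (fun i : {k // k ∈ I} => (H.F.L n i x).natAbs.Prime)).card : ℝ) ∧
      1 ≤ (univ.filter (fun i : {k // k ∈ I} => (H.F.L n i x).natAbs.Prime)).card) ∧
      (Fintype.card {k // k ∈ J} * τ₂ / 400 ≤
        ((univ.filter (fun i : {k // k ∈ J} => (H.M i x).natAbs.Prime)).card : ℝ) ∧
      1 ≤ (univ.filter (fun i : {k // k ∈ J} => (H.M i x).natAbs.Prime)).card)) with hGd
  set good := (Ioo 0 n).filter (fun x : ℕ => x ^ d ≤ n ∧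
      (c0 * Real.log I.card ≤
          d * ((I.filter (fun k => (val (f k) x ((n : ℤ) - x)).natAbs.Prime)).card : ℝ) ∧
        1 ≤ (I.filter (fun k => (val (f k) x ((n : ℤ) - x)).natAbs.Prime)).card) ∧
      (J.Nonempty → c0 * Real.log J.card ≤
          ((J.filter (fun k => (val (f k) x ((n : ℤ) - x)).natAbs.Prime)).card : ℝ) ∧
        1 ≤ (J.filter (fun k => (val (f k) x ((n : ℤ) - x)).natAbs.Prime)).card) ∧
      ∀ k, 1 < |val (f k) x ((n : ℤ) - x)| ∧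
      (∀ p : ℕ, p.Prime → (p : ℤ) ∣ val (f k) x ((n : ℤ) - x) → n < p ^ B) ∧
      cardFactors (val (f k) x ((n : ℤ) - x)).natAbs ≤ B * D) with hgood
  have hGsub : Gd ⊆ good ∪ U := by
    intro x hx
    rw [hGd, Finset.mem_filter] at hx
    obtain ⟨hxI, hxw, hxr, ⟨hx1, hx2⟩, hx3, hx4⟩ := hx
    have hx0 := (Finset.mem_Icc.1 hxI).1
    obtain ⟨hxn, hxd⟩ := hwin x hx0 hxw
    have hxI' : x ∈ Ioo 0 n := Finset.mem_Ioo.2 ⟨by omega, hxn⟩
    by_cases hHx : ∃ k, (lineRestrict (f k) n).eval (x : ℤ) ^ 2 - 1 = 0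
    · exact Finset.mem_union_right _ (Finset.mem_filter.2 ⟨hxI', hHx⟩)
    apply Finset.mem_union_left
    rw [hgood, Finset.mem_filter]
    have hrough : ∀ k, ∀ p : ℕ, p.Prime → (p : ℤ) ∣ val (f k) x ((n : ℤ) - x) →
        z0 (m * D) n' < p := by
      intro k p hp hdv
      by_contra hcon
      apply hxr p hp (by omega)
      rw [hFG, eval_prod]
      have h5 : (p : ℤ) ∣ (lineRestrict (f k) n).eval (x : ℤ) := by
        rw [eval_lineRestrict]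
        exact hdv
      exact h5.trans (Finset.dvd_prod_of_mem _ (Finset.mem_univ k))
    rw [ecI x] at hx1 hx2
    rw [ecJ x] at hx3 hx4
    have hx1' := hlog.trans hx1
    have hx3' := hlog'.trans hx3
    rw [Fintype.card_coe] at hx1' hx3'
    refine ⟨hxI', hxd, ⟨hx1', hx2⟩, fun _ => ⟨hx3', hx4⟩, fun k => ?_⟩
    exact good_of_rough f hCf (z := z0 (m * D) n') hCz hzB hB1 (by omega) hxn
        hrough (fun k h => hHx ⟨k, h⟩) k
  have hGc : (Gd.card : ℝ) ≤ good.card + 2 * ((m * D : ℕ) : ℝ) := by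
    have h11 := (Finset.card_le_card hGsub).trans (Finset.card_union_le _ _)
    have h12 : Gd.card ≤ good.card + 2 * (m * D) := by omega
    exact_mod_cast h12
  have hset : {x : ℕ | 0 < x ∧ x < n ∧ x ^ d ≤ n ∧
      (c0 * Real.log I.card ≤
          d * ((I.filter (fun k => (val (f k) x ((n : ℤ) - x)).natAbs.Prime)).card : ℝ) ∧
        1 ≤ (I.filter (fun k => (val (f k) x ((n : ℤ) - x)).natAbs.Prime)).card) ∧
      (J.Nonempty → c0 * Real.log J.card ≤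
          ((J.filter (fun k => (val (f k) x ((n : ℤ) - x)).natAbs.Prime)).card : ℝ) ∧
        1 ≤ (J.filter (fun k => (val (f k) x ((n : ℤ) - x)).natAbs.Prime)).card) ∧
      ∀ k, 1 < |val (f k) x ((n : ℤ) - x)| ∧
      (∀ p : ℕ, p.Prime → (p : ℤ) ∣ val (f k) x ((n : ℤ) - x) → n < p ^ B) ∧
      cardFactors (val (f k) x ((n : ℤ) - x)).natAbs ≤ B * D} = (good : Set ℕ) := by
    ext x
    rw [hgood]
    simp only [Set.mem_ofPred_eq, Finset.coe_filter, Finset.mem_Ioo, and_assoc]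
  rw [hset, Set.ncard_coe_finset]
  have hd0 : (0 : ℝ) < d := by exact_mod_cast (by omega : 0 < d)
  have hpow : (n : ℝ) ^ (1 / (d : ℝ)) ≤ 2 * (N : ℝ) ^ (1 / (d : ℝ)) := by
    have h3 : (n : ℝ) ≤ 2 * N := by exact_mod_cast hn2
    calc (n : ℝ) ^ (1 / (d : ℝ)) ≤ (2 * (N : ℝ)) ^ (1 / (d : ℝ)) :=
          Real.rpow_le_rpow (Nat.cast_nonneg _) h3 (by positivity)
      _ = 2 ^ (1 / (d : ℝ)) * (N : ℝ) ^ (1 / (d : ℝ)) :=
          Real.mul_rpow (by norm_num) (Nat.cast_nonneg _)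
      _ ≤ 2 * (N : ℝ) ^ (1 / (d : ℝ)) := by
          apply mul_le_mul_of_nonneg_right _ (by positivity)
          calc (2 : ℝ) ^ (1 / (d : ℝ)) ≤ 2 ^ (1 : ℝ) := by
                apply Real.rpow_le_rpow_of_exponent_le (by norm_num)
                rw [div_le_one hd0]
                exact_mod_cast hd1
            _ = 2 := Real.rpow_one _
  have hs0 := Pool.Agent.CM.singV_nonneg f n
  have h13 : c / 4 * ((n : ℝ) ^ (1 / (d : ℝ)) * singV f n) ≤
      c / 4 * ((2 * (N : ℝ) ^ (1 / (d : ℝ))) * H.F.V n n') := by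
    apply mul_le_mul_of_nonneg_left _ (by positivity)
    exact mul_le_mul hpow hsing hs0 (by positivity)
  have h14 : c / 4 * ((2 * (N : ℝ) ^ (1 / (d : ℝ))) * H.F.V n n') =
      c / 2 * ((N : ℝ) ^ (1 / (d : ℝ)) * H.F.V n n') := by ring
  linarith only [hGc, hmain, h2, h13, h14]

private theorem fin2_H {d : ℕ} (hd : 1 ≤ d) : Tendsto (fun N : ℕ => Hn d N) atTop atTop := by
  have hd0 : (0 : ℝ) < d := by exact_mod_cast (by omega : 0 < d)
  unfold Hn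
  exact tendsto_nat_floor_atTop.comp ((tendsto_rpow_atTop (by positivity)).comp
    tendsto_natCast_atTop_atTop)

private theorem fin2_lt {d : ℕ} (hd : 1 ≤ d) (N : ℕ) : N < (Hn d N + 1) ^ d := by
  have hd0 : (0 : ℝ) < d := by exact_mod_cast (by omega : 0 < d)
  have h1 : (N : ℝ) ^ (1 / (d : ℝ)) < (Hn d N : ℝ) + 1 := Nat.lt_floor_add_one _
  have h2 : ((N : ℝ) ^ (1 / (d : ℝ))) ^ d < ((Hn d N : ℝ) + 1) ^ d :=
    pow_lt_pow_left₀ h1 (by positivity) (by omega)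
  rw [← Real.rpow_natCast, ← Real.rpow_mul (Nat.cast_nonneg _), one_div_mul_cancel hd0.ne',
    Real.rpow_one] at h2
  exact_mod_cast h2

private theorem fin2_le {d N : ℕ} (hd : 1 ≤ d) (hN : 1 ≤ N) : Hn d N ≤ N := by
  have hd0 : (0 : ℝ) < d := by exact_mod_cast (by omega : 0 < d)
  have hN1 : (1 : ℝ) ≤ N := by exact_mod_cast hN
  unfold Hn
  apply Nat.floor_le_of_le
  calc (N : ℝ) ^ (1 / (d : ℝ)) ≤ (N : ℝ) ^ (1 : ℝ) := by
        apply Real.rpow_le_rpow_of_exponent_le hN1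
        rw [div_le_one hd0]
        exact_mod_cast hd
    _ = N := Real.rpow_one _

/-- The tenth root. -/
private theorem fin2_root {a x : ℝ} (hx : 0 ≤ x) (h : a ^ 10 ≤ x ^ (1 / 1000 : ℝ)) :
    a ≤ x ^ (1 / 10000 : ℝ) := by
  have h1 : (x ^ (1 / 10000 : ℝ)) ^ 10 = x ^ (1 / 1000 : ℝ) := by
    rw [← Real.rpow_natCast, ← Real.rpow_mul hx]
    norm_num
  rw [← h1] at h
  exact le_of_pow_le_pow_left₀ (by norm_num) (Real.rpow_nonneg hx _) h

/-- The size of the sifting limit. -/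
private theorem fin2_B0 {d N z e : ℕ} (hd : 1 ≤ d) (hH : 2 ≤ Hn d N) (h : Hn d N ≤ z ^ e) :
    N ≤ z ^ (2 * d * e) := by
  have h1 := fin2_lt hd N
  have h2 : Hn d N + 1 ≤ Hn d N ^ 2 := by nlinarith
  calc N ≤ (Hn d N + 1) ^ d := h1.le
    _ ≤ (Hn d N ^ 2) ^ d := Nat.pow_le_pow_left h2 d
    _ ≤ ((z ^ e) ^ 2) ^ d := Nat.pow_le_pow_left (Nat.pow_le_pow_left h 2) d
    _ = z ^ (2 * d * e) := by
        rw [← pow_mul, ← pow_mul]
        congr 1
        ring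

/-- The main term is large. -/
private theorem fin2_big {d : ℕ} (hd : 1 ≤ d) {C c : ℝ} (hC : 0 < C) (hc : 0 < c) (k : ℕ) :
    ∀ᶠ N : ℕ in atTop, C ≤ (N : ℝ) ^ (1 / (d : ℝ)) * (c * (1 / Real.log N ^ k)) := by
  have hd0 : (0 : ℝ) < d := by exact_mod_cast (by omega : 0 < d)
  have h := (tendsto_natCast_atTop_atTop (R := ℝ)).eventually
    (ev_err (s := 1 - 1 / (d : ℝ)) hc hC k (by
      have : 0 < 1 / (d : ℝ) := by positivity
      linarith))
  filter_upwards [h, eventually_ge_atTop 1] with N h1 hN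
  have hN0 : (0 : ℝ) < N := by exact_mod_cast (by omega : 0 < N)
  have h2 : (N : ℝ) = (N : ℝ) ^ (1 - 1 / (d : ℝ)) * (N : ℝ) ^ (1 / (d : ℝ)) := by
    rw [← Real.rpow_add hN0]
    norm_num
  have h3 : 0 < (N : ℝ) ^ (1 - 1 / (d : ℝ)) := Real.rpow_pos_of_pos hN0 _
  have h4 : (N : ℝ) ^ (1 - 1 / (d : ℝ)) * C ≤ (N : ℝ) ^ (1 - 1 / (d : ℝ)) *
      ((N : ℝ) ^ (1 / (d : ℝ)) * (c * (1 / Real.log N ^ k))) := by
    rw [← mul_assoc, ← h2, mul_comm _ C]
    exact h1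
  exact le_of_mul_le_mul_left h4 h3


/-- Cardinality of a union. -/
private theorem fin2_un {α : Type} [Fintype α] [DecidableEq α] (T : α → Finset ℕ) {x : ℝ}
    (hT : ∀ l, ((T l).card : ℝ) ≤ x) :
    ((univ.biUnion T).card : ℝ) ≤ Fintype.card α * x := by
  have h1 : ((univ.biUnion T).card : ℝ) ≤ ∑ l, ((T l).card : ℝ) := by
    exact_mod_cast Finset.card_biUnion_le (s := univ) (t := T)
  refine h1.trans ((Finset.sum_le_sum fun l _ => hT l).trans (le_of_eq ?_))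
  rw [Finset.sum_const, nsmul_eq_mul, Finset.card_univ]

open Classical in
/-- The theorem for fixed `I`, `J` and `d`. -/
private theorem fin2_Id (hEX2 : HC.R_EX2) (hEX : NC.R_EX) {c' : ℝ} (hc'0 : 0 < c')
    (hsy : ∀ (ι κ : Type) [Fintype ι] [DecidableEq ι] [Nonempty ι] [Fintype κ] [DecidableEq κ]
      [Nonempty κ], ∃ M : ℕ, 1 ≤ M ∧ ∀ B0 : ℕ, 1 ≤ B0 →
  ∃ B : ℕ, 1 ≤ B ∧ ∀ (D d E A : ℕ) (H : Fam2 ι κ D d E), 1 ≤ D → ∀ᶠ N : ℕ in atTop, ∀ n' : ℕ,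
  N ≤ z0 D n' ^ B0 → (lev (2 * D) n' : ℝ) ^ (3 * M) ≤ (Hn d N : ℝ) ^ (1 / 10000 : ℝ) →
  ∃ (P : Finset ℕ) (τ₁ τ₂ : ℝ) (g : (PJf P → Option (ι ⊕ κ)) → ℝ)
    (g1 : ι → (PJf P → Option (ι ⊕ κ)) → ℝ) (g2 : κ → (PJf P → Option (ι ⊕ κ)) → ℝ)
    (g12 : ι → κ → (PJf P → Option (ι ⊕ κ)) → ℝ) (a₁ a₂ β₁ β₂ : ℝ),
    Par3 H.F B0 N n' P ∧
    Sys2 d N B (kapD (z0 D n') * Real.log (Hn d N)) (1 / (Real.log N) ^ A) τ₁ τ₂ g g1 g2 g12
      a₁ a₂ β₁ β₂ ∧
    (c' / (Fintype.card ι * B0) ≤ τ₁ ∧ τ₁ ≤ 1 ∧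
      c' * Real.log (Fintype.card ι) ≤ Fintype.card ι * τ₁) ∧
    (c' / (Fintype.card κ * B0) ≤ τ₂ ∧ τ₂ ≤ 1 ∧
      c' * Real.log (Fintype.card κ) ≤ Fintype.card κ * τ₂))
    (hcn : R_cn4) (hfm : R_fm2) (hgq : A.R_gq2) (hgs : A.R_gs2) (hwin : NC.M.R_win)
    (hbk : TC.F.R_bk)
    (m D : ℕ) (hm : 1 ≤ m) (hD : 1 ≤ D) (I J : Finset (Fin m)) (hI : I.Nonempty)
    (hJ : J.Nonempty) (d : ℕ)
    (hd : 2 ≤ d) : ∃ (B : ℕ) (c : ℝ), 0 < c ∧
    ∀ f : Fin m → MvPolynomial (Fin 2) ℤ, Admissible f → (∀ k, (f k).totalDegree ≤ D) →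
    ∀ (a : Fin m → ℤ) (g : Fin m → ℤ[X]) (u v : Fin m → ℤ),
    (∀ k ∈ I, a k ≠ 0 ∧ (g k).natDegree = d ∧ f k = MvPolynomial.C (a k) *
      (MvPolynomial.X 0 + MvPolynomial.X 1) + aeval (MvPolynomial.X 0) (g k)) →
    (∀ k ∈ I, ∀ l ∈ I, k ≠ l → f k ≠ f l ∧ f k ≠ - f l) →
    (∀ k ∈ J, u k ≠ 0 ∧ f k = MvPolynomial.C (u k) * MvPolynomial.X 0 + MvPolynomial.C (v k)) →
    (∀ k ∈ J, ∀ l ∈ J, k ≠ l → f k ≠ f l ∧ f k ≠ - f l) →
    ∀ A : ℕ, ∀ᶠ N : ℕ in atTop,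
      (((Icc 1 N).filter (fun n => n ∈ fin2_S D d (c' / 400) c B f I J)).card : ℝ) ≤
        N / (Real.log N) ^ A := by
  have hne : Nonempty {k // k ∈ I} := ⟨⟨hI.choose, hI.choose_spec⟩⟩
  have hne' : Nonempty {k // k ∈ J} := ⟨⟨hJ.choose, hJ.choose_spec⟩⟩
  obtain ⟨M, hM1, hM⟩ := hsy {k // k ∈ I} {k // k ∈ J}
  have hD1 : 1 ≤ m * D := Nat.mul_pos (by omega) (by omega)
  obtain ⟨e, he⟩ : ∃ e, e = 128000 * (2 * (m * D)) * (30 * M) := ⟨_, rfl⟩
  have he1 : 1 ≤ e := by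
    rw [he]
    exact Nat.mul_pos (by omega) (by omega)
  obtain ⟨B0, hB0⟩ : ∃ B0, B0 = 2 * d * e := ⟨_, rfl⟩
  have hB01 : 1 ≤ B0 := by
    rw [hB0]
    exact Nat.mul_pos (by omega) (by omega)
  obtain ⟨B', hB'1, hM⟩ := hM B0 hB01
  have hB0r : (0 : ℝ) < B0 := by exact_mod_cast (by omega : 0 < B0)
  have hcI : (0 : ℝ) < Fintype.card {k // k ∈ I} := by exact_mod_cast Fintype.card_pos
  have hcJ : (0 : ℝ) < Fintype.card {k // k ∈ J} := by exact_mod_cast Fintype.card_pos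
  obtain ⟨t0, ht0⟩ : ∃ t0, t0 = min (c' / (Fintype.card {k // k ∈ I} * B0))
    (c' / (Fintype.card {k // k ∈ J} * B0)) := ⟨_, rfl⟩
  have ht00 : 0 < t0 := by
    rw [ht0]
    exact lt_min (by positivity) (by positivity)
  have ht01 : t0 ≤ c' / (Fintype.card {k // k ∈ I} * B0) := by
    rw [ht0]
    exact min_le_left _ _
  have ht02 : t0 ≤ c' / (Fintype.card {k // k ∈ J} * B0) := by
    rw [ht0]
    exact min_le_right _ _
  obtain ⟨c, hc, hcF⟩ := hcn {k // k ∈ I} {k // k ∈ J} (m * D) d (16 * (m + 1)) B0 B' t0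
    hD1 hd (by omega) hB01 ht00
  refine ⟨B0 + 1, c / 4, by positivity, ?_⟩
  intro f hf hdeg a g u v hfg hnf hfu hnu
  obtain ⟨_, H, hFG, hFirr, hFL, hFM⟩ := hfm m D hm hD f hf hdeg d I J hd a g u v hfg hnf hfu hnu
  obtain ⟨N₀, hN₀⟩ := hf
  have hCf : ∀ k, ∃ C : ℕ, ∀ n : ℕ, 1 ≤ n → ∀ x y : ℤ, |x| ≤ n → |y| ≤ n →
      |val (f k) x y| ≤ C * (n : ℤ) ^ D := fun k => abs_val_le (f k) D (hdeg k)
  choose Cf hCf using hCf
  obtain ⟨_, Cw, _, hevw⟩ := hwin {k // k ∈ I} (m * D) d (16 * (m + 1)) H.F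
  apply hbk (fin2_S D d (c' / 400) (c / 4) (B0 + 1) f I J) (1000 * (16 * (m + 1))) (by omega)
  intro A
  obtain ⟨A', hA'⟩ : ∃ A' : ℕ, A' = max (A + 1) (8 * (m * D) + 8) := ⟨_, rfl⟩
  obtain ⟨K, hK⟩ : ∃ K : ℕ, K = Fintype.card ({k // k ∈ I} ⊕ {k // k ∈ J}) := ⟨_, rfl⟩
  obtain ⟨K1, hK1⟩ : ∃ K1 : ℕ, K1 = Fintype.card {k // k ∈ I} := ⟨_, rfl⟩
  obtain ⟨K2, hK2⟩ : ∃ K2 : ℕ, K2 = Fintype.card {k // k ∈ J} := ⟨_, rfl⟩
  have hEX1 := fun l : {k // k ∈ I} => hEX {k // k ∈ I} (m * D) d (16 * (m + 1)) H.F l A' (6 * K)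
  choose BE hBE using hEX1
  have hEX3 := fun l : {k // k ∈ I} × {k // k ∈ J} =>
    hEX2 {k // k ∈ I} {k // k ∈ J} (m * D) d (16 * (m + 1)) H l.1 l.2 A' (6 * K)
  choose BF hBF using hEX3
  have hgs1 := fun l : {k // k ∈ I} => hgs {k // k ∈ I} (m * D) d (16 * (m + 1)) H.F l A'
  choose BS hBS using hgs1
  obtain ⟨B1, hB1⟩ : ∃ B1 : ℕ, B1 = 3 + ∑ l, BE l + ∑ l, BS l + ∑ l, BF l := ⟨_, rfl⟩
  have hB13 : 3 ≤ B1 := by omega
  have hBE1 : ∀ l, BE l ≤ B1 := by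
    intro l
    have := Finset.single_le_sum (f := BE) (fun i _ => Nat.zero_le _) (Finset.mem_univ l)
    omega
  have hBS1 : ∀ l, BS l ≤ B1 := by
    intro l
    have := Finset.single_le_sum (f := BS) (fun i _ => Nat.zero_le _) (Finset.mem_univ l)
    omega
  have hBF1 : ∀ l, BF l ≤ B1 := by
    intro l
    have := Finset.single_le_sum (f := BF) (fun i _ => Nat.zero_le _) (Finset.mem_univ l)
    omega
  have evE : ∀ᶠ N : ℕ in atTop, ∀ l : {k // k ∈ I},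
      (((Ioc N (Bn (16 * (m + 1)) N)).filter (fun n =>
        (N : ℝ) ^ (1 / (d : ℝ)) / (Real.log N) ^ A' < ErS H.F N (wN B1 N) n (6 * K) l)).card : ℝ) ≤
        N / (Real.log N) ^ A' := by
    rw [Filter.eventually_all]
    intro l
    exact hBE l B1 (hBE1 l)
  have evF : ∀ᶠ N : ℕ in atTop, ∀ l : {k // k ∈ I} × {k // k ∈ J},
      (((Ioc N (Bn (16 * (m + 1)) N)).filter (fun n =>
        (N : ℝ) ^ (1 / (d : ℝ)) / (Real.log N) ^ A' <
          ErS2 H N (wN B1 N) n (6 * K) l.1 l.2)).card : ℝ) ≤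
        N / (Real.log N) ^ A' := by
    rw [Filter.eventually_all]
    intro l
    exact hBF l B1 (hBF1 l)
  have evS : ∀ᶠ N : ℕ in atTop, ∀ l : {k // k ∈ I}, ∀ z : ℕ,
      (z : ℝ) ≤ (N : ℝ) ^ (1 / 10 : ℝ) →
      (((Ioc N (Bn (16 * (m + 1)) N)).filter (fun n =>
        1 / 100 < |sl H.F n (wN B1 N) z l|)).card : ℝ) ≤ N / (Real.log N) ^ A' := by
    rw [Filter.eventually_all]
    intro l
    exact hBS l B1 (hBS1 l)
  have evQ := hgq {k // k ∈ I} {k // k ∈ J} (m * D) d (16 * (m + 1)) H B0 B' A' hD1 hB01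
  have evY := hM (m * D) d (16 * (m + 1)) (8 * (m * D) + 8) H hD1
  have evC := hcF H B1 hB13
  have hcast : Tendsto (fun n : ℕ => (n : ℝ)) atTop atTop := tendsto_natCast_atTop_atTop
  have hHt := fin2_H (show 1 ≤ d by omega)
  have evL := (hcast.comp hHt).eventually (choose_levS (2 * (m * D)) (30 * M) (by omega)
    (by omega) ((∑ k, Cf k) + 2))
  have evH := hHt.eventually_ge_atTop 2
  have hmd0 : (0 : ℝ) < 2 * ((m * D : ℕ) : ℝ) := by
    have : (0 : ℝ) < ((m * D : ℕ) : ℝ) := by exact_mod_cast hD1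
    positivity
  have hc1pos : 0 < ∏ p ∈ small (2 * (m * D)), (1 / (p : ℝ)) := by
    apply Finset.prod_pos
    intro p hp
    have hpp : p.Prime := (Finset.mem_filter.mp hp).2
    have : (0 : ℝ) < p := by exact_mod_cast hpp.pos
    positivity
  have evB := fin2_big (show 1 ≤ d by omega) hmd0
    (show 0 < c / 2 * ∏ p ∈ small (2 * (m * D)), (1 / (p : ℝ)) by positivity) (8 * (m * D))
  have evK : ∀ᶠ N : ℕ in atTop, (3 * K1 + K2 + 2 * (K1 * K2) : ℝ) ≤ Real.log (N : ℝ) :=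
    (Real.tendsto_log_atTop.comp hcast).eventually_ge_atTop _
  have evO : ∀ᶠ N : ℕ in atTop, (1 : ℝ) ≤ Real.log (N : ℝ) :=
    (Real.tendsto_log_atTop.comp hcast).eventually_ge_atTop _
  filter_upwards [evE, evF, evS, evQ, evY, evC, evL, evH, evB, evK, evO, hevw,
    eventually_ge_atTop (N₀ + H.F.N0 + 100000)] with N hE hF hS hQ hY hC hL hH hBg hKl hlog1 hw
      hNbig
  obtain ⟨n', hl1, hl2, hl3, hl4⟩ := hL
  simp only [Function.comp_apply] at hl1 hl2 hl3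
  have hN1 : (1 : ℝ) ≤ N := by exact_mod_cast (by omega : 1 ≤ N)
  have hlog0 : 0 < Real.log (N : ℝ) := by linarith
  have hHN : Hn d N ≤ N := fin2_le (by omega) (by omega)
  have hH0 : (0 : ℝ) ≤ Hn d N := Nat.cast_nonneg _
  have hHe : Hn d N ≤ z0 (m * D) n' ^ e := by
    unfold z0
    rw [he]
    exact_mod_cast hl2
  have hzB : N ≤ z0 (m * D) n' ^ B0 := by
    rw [hB0]
    exact fin2_B0 (by omega) hH hHe
  have hlev : (lev (2 * (m * D)) n' : ℝ) ^ (3 * M) ≤ (Hn d N : ℝ) ^ (1 / 10000 : ℝ) := by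
    apply fin2_root hH0
    rw [← pow_mul, show 3 * M * 10 = 30 * M by ring]
    exact hl1
  have hl3' : (2 : ℝ) ^ (2 * (m * D) + n') ≤ Real.log N := by
    refine hl3.trans ?_
    apply Real.log_le_log
    · exact_mod_cast (by omega : 0 < Hn d N)
    · exact_mod_cast hHN
  obtain ⟨P, τ₁, τ₂, w, w1, w2, w12, a₁, a₂, β₁, β₂, hPar, hSys, ⟨hτ0, hτ1, hτ⟩, hσ0, hσ1, hσ⟩ :=
    hY n' hzB hlev
  have hz2 : 2 ≤ z0 (m * D) n' := by
    have : (∑ k, Cf k) + 2 ≤ z0 (m * D) n' := by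
      unfold z0; exact hl4
    omega
  have hzle : (z0 (m * D) n' : ℝ) ≤ (N : ℝ) ^ (1 / 10 : ℝ) := by
    have h1 : (z0 (m * D) n' : ℝ) ≤ lev (2 * (m * D)) n' := by
      exact_mod_cast Pool.Agent.CM.F.z0_le_lev (m * D) n'
    have h2 : (1 : ℝ) ≤ lev (2 * (m * D)) n' := by
      have : (2 : ℝ) ≤ z0 (m * D) n' := by exact_mod_cast hz2
      linarith
    have h3 : (lev (2 * (m * D)) n' : ℝ) ≤ (lev (2 * (m * D)) n' : ℝ) ^ (3 * M) :=
      le_self_pow₀ h2 (by omega)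
    have h4 : (Hn d N : ℝ) ^ (1 / 10000 : ℝ) ≤ (N : ℝ) ^ (1 / 10000 : ℝ) :=
      Real.rpow_le_rpow hH0 (by exact_mod_cast hHN) (by norm_num)
    have h5 : (N : ℝ) ^ (1 / 10000 : ℝ) ≤ (N : ℝ) ^ (1 / 10 : ℝ) :=
      Real.rpow_le_rpow_of_exponent_le hN1 (by norm_num)
    exact h1.trans (h3.trans (hlev.trans (h4.trans h5)))
  have hzN : z0 (m * D) n' ≤ N := by
    have h5 : (N : ℝ) ^ (1 / 10 : ℝ) ≤ N := by
      calc (N : ℝ) ^ (1 / 10 : ℝ) ≤ (N : ℝ) ^ (1 : ℝ) :=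
            Real.rpow_le_rpow_of_exponent_le hN1 (by norm_num)
        _ = N := Real.rpow_one _
    exact_mod_cast hzle.trans h5
  have hQ1 := fun l => (hQ n' P hPar (w1 l) (hSys.w1 l).1).1
  have hQ2 := fun l => (hQ n' P hPar (w2 l) (hSys.w2 l).1).2
  have hQ3 := fun l : {k // k ∈ I} × {k // k ∈ J} =>
    (hQ n' P hPar (w12 l.1 l.2) (hSys.w12 l.1 l.2).1).2
  have hS1 := fun l => hS l (z0 (m * D) n') hzle
  set T1 := fun l : {k // k ∈ I} => (Ioc N (Bn (16 * (m + 1)) N)).filter (fun n =>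
    1 / (Real.log N) ^ A' < |qr (rn2 H P n) (w1 l) - qf (w1 l)|) with hT1
  set T2 := fun l : {k // k ∈ J} => (Ioc N (Bn (16 * (m + 1)) N)).filter (fun n =>
    1 / (Real.log N) ^ A' < |qr (rp2 H P n) (w2 l) - qf (w2 l)|) with hT2
  set T3 := fun l : {k // k ∈ I} × {k // k ∈ J} => (Ioc N (Bn (16 * (m + 1)) N)).filter (fun n =>
    1 / (Real.log N) ^ A' < |qr (rp2 H P n) (w12 l.1 l.2) - qf (w12 l.1 l.2)|) with hT3
  set T4 := fun l : {k // k ∈ I} => (Ioc N (Bn (16 * (m + 1)) N)).filter (fun n =>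
    (N : ℝ) ^ (1 / (d : ℝ)) / (Real.log N) ^ A' < ErS H.F N (wN B1 N) n (6 * K) l) with hT4
  set T5 := fun l : {k // k ∈ I} × {k // k ∈ J} => (Ioc N (Bn (16 * (m + 1)) N)).filter (fun n =>
    (N : ℝ) ^ (1 / (d : ℝ)) / (Real.log N) ^ A' < ErS2 H N (wN B1 N) n (6 * K) l.1 l.2) with hT5
  set T6 := fun l : {k // k ∈ I} => (Ioc N (Bn (16 * (m + 1)) N)).filter (fun n =>
    1 / 100 < |sl H.F n (wN B1 N) (z0 (m * D) n') l|) with hT6
  have hsub : (Ioc N (N + N / (1000 * (16 * (m + 1))))).filter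
      (fun n => n ∈ fin2_S D d (c' / 400) (c / 4) (B0 + 1) f I J) ⊆
      univ.biUnion T1 ∪ (univ.biUnion T2 ∪ (univ.biUnion T3 ∪ (univ.biUnion T4 ∪
        (univ.biUnion T5 ∪ univ.biUnion T6)))) := by
    intro n hn
    obtain ⟨hn1, hn2⟩ := Finset.mem_filter.1 hn
    have hn1' : n ∈ Ioc N (Bn (16 * (m + 1)) N) := hn1
    by_contra hcon
    rw [Finset.mem_union, Finset.mem_union, Finset.mem_union, Finset.mem_union,
      Finset.mem_union] at hcon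
    push Not at hcon
    obtain ⟨k1, k2, k3, k4, k5, k6⟩ := hcon
    have k1' : ∀ l, |qr (rn2 H P n) (w1 l) - qf (w1 l)| ≤ 1 / (Real.log N) ^ A' := by
      intro l
      by_contra h
      exact k1 (Finset.mem_biUnion.2 ⟨l, Finset.mem_univ l,
        Finset.mem_filter.2 ⟨hn1', not_le.1 h⟩⟩)
    have k2' : ∀ l, |qr (rp2 H P n) (w2 l) - qf (w2 l)| ≤ 1 / (Real.log N) ^ A' := by
      intro l
      by_contra h
      exact k2 (Finset.mem_biUnion.2 ⟨l, Finset.mem_univ l,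
        Finset.mem_filter.2 ⟨hn1', not_le.1 h⟩⟩)
    have k3' : ∀ l j, |qr (rp2 H P n) (w12 l j) - qf (w12 l j)| ≤ 1 / (Real.log N) ^ A' := by
      intro l j
      by_contra h
      exact k3 (Finset.mem_biUnion.2 ⟨(l, j), Finset.mem_univ _,
        Finset.mem_filter.2 ⟨hn1', not_le.1 h⟩⟩)
    have k4' : ∀ l, ErS H.F N (wN B1 N) n (6 * K) l ≤
        (N : ℝ) ^ (1 / (d : ℝ)) / (Real.log N) ^ A' := by
      intro l
      by_contra h
      exact k4 (Finset.mem_biUnion.2 ⟨l, Finset.mem_univ l,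
        Finset.mem_filter.2 ⟨hn1', not_le.1 h⟩⟩)
    have k5' : ∀ l j, ErS2 H N (wN B1 N) n (6 * K) l j ≤
        (N : ℝ) ^ (1 / (d : ℝ)) / (Real.log N) ^ A' := by
      intro l j
      by_contra h
      exact k5 (Finset.mem_biUnion.2 ⟨(l, j), Finset.mem_univ _,
        Finset.mem_filter.2 ⟨hn1', not_le.1 h⟩⟩)
    have k6' : ∀ l, |sl H.F n (wN B1 N) (z0 (m * D) n') l| ≤ 1 / 100 := by
      intro l
      by_contra h
      exact k6 (Finset.mem_biUnion.2 ⟨l, Finset.mem_univ l,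
        Finset.mem_filter.2 ⟨hn1', not_le.1 h⟩⟩)
    have hA8 : (Real.log (N : ℝ)) ^ (8 * (m * D) + 8) ≤ (Real.log N) ^ A' :=
      pow_le_pow_right₀ hlog1 (by omega)
    have hA8' : 1 / (Real.log (N : ℝ)) ^ A' ≤ 1 / (Real.log N) ^ (8 * (m * D) + 8) :=
      one_div_le_one_div_of_le (by positivity) hA8
    have hA8'' : (N : ℝ) ^ (1 / (d : ℝ)) / (Real.log (N : ℝ)) ^ A' ≤
        (N : ℝ) ^ (1 / (d : ℝ)) / (Real.log N) ^ (8 * (m * D) + 8) :=
      div_le_div_of_nonneg_left (by positivity) (by positivity) hA8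
    have hmain := hC n hn1' n' P hPar hl3' τ₁ τ₂ w w1 w2 w12 a₁ a₂ β₁ β₂ hSys
      (ht01.trans hτ0) hτ1 (ht02.trans hσ0) hσ1
      (fun l j => by rw [← hK]; exact (k5' l j).trans hA8'')
      (fun l => by rw [← hK]; exact (k4' l).trans hA8'')
      (fun l => (k1' l).trans hA8') (fun l => (k2' l).trans hA8')
      (fun l j => (k3' l j).trans hA8') k6'
    have hnN := (Finset.mem_Ioc.1 hn1).1
    have hn2N : n ≤ 2 * N := by
      have h1 := (Finset.mem_Ioc.1 hn1).2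
      have h2 : N / (1000 * (16 * (m + 1))) ≤ N := Nat.div_le_self _ _
      omega
    obtain ⟨hirr, hloc⟩ := hN₀ n (by omega)
    have hV : (∏ p ∈ small (2 * (m * D)), (1 / (p : ℝ))) *
        (1 / (Real.log N) ^ (8 * (m * D))) ≤ H.F.V n n' := by
      have hdens := dens_poly (H.F.G n) (m * D) (2 * (m * D)) (H.F.hdeg n (by omega)) (by omega)
        (H.F.hloc n (by omega))
      have h := W_ge hdens n' hl3'
      rw [show 4 * (2 * (m * D)) = 8 * (m * D) by ring] at h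
      refine h.trans (le_of_eq ?_)
      unfold NC.Fam.V
      rfl
    refine fin2_n hc I J H f hdeg hCf (B := B0 + 1) (N := N) (n' := n') (τ₁ := τ₁) (τ₂ := τ₂)
      (by omega) (by unfold z0; exact hl4) ?_ (by omega) (hFG n (by omega)) hirr hloc
      (fun i x => hFL n i x) (fun i x => hFM n i x) (by omega) hn2N ?_ ?_ ?_ ?_ hmain hn2
    · calc n ≤ 2 * N := hn2N
        _ ≤ z0 (m * D) n' * z0 (m * D) n' ^ B0 := Nat.mul_le_mul hz2 hzB
        _ = z0 (m * D) n' ^ (B0 + 1) := by ring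
    · linarith only [hτ]
    · linarith only [hσ]
    · intro x hx1 hx2
      have h := hw.2 n hn1' x hx1 hx2
      exact ⟨h.2.1, h.2.2.1⟩
    · refine hBg.trans ?_
      calc (N : ℝ) ^ (1 / (d : ℝ)) * (c / 2 * (∏ p ∈ small (2 * (m * D)), (1 / (p : ℝ))) *
            (1 / Real.log N ^ (8 * (m * D)))) =
            c / 2 * ((N : ℝ) ^ (1 / (d : ℝ)) * ((∏ p ∈ small (2 * (m * D)), (1 / (p : ℝ))) *
            (1 / Real.log N ^ (8 * (m * D))))) := by ring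
        _ ≤ _ := by
            apply mul_le_mul_of_nonneg_left _ (by positivity)
            exact mul_le_mul_of_nonneg_left hV (by positivity)
  have hcardle : (((Ioc N (N + N / (1000 * (16 * (m + 1))))).filter
      (fun n => n ∈ fin2_S D d (c' / 400) (c / 4) (B0 + 1) f I J)).card : ℝ) ≤
      ((univ.biUnion T1).card : ℝ) + ((univ.biUnion T2).card + ((univ.biUnion T3).card +
        ((univ.biUnion T4).card + ((univ.biUnion T5).card + (univ.biUnion T6).card)))) := by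
    have h1 := Finset.card_le_card hsub
    have h2 := Finset.card_union_le (univ.biUnion T1) (univ.biUnion T2 ∪ (univ.biUnion T3 ∪
      (univ.biUnion T4 ∪ (univ.biUnion T5 ∪ univ.biUnion T6))))
    have h3 := Finset.card_union_le (univ.biUnion T2) (univ.biUnion T3 ∪
      (univ.biUnion T4 ∪ (univ.biUnion T5 ∪ univ.biUnion T6)))
    have h4 := Finset.card_union_le (univ.biUnion T3) (univ.biUnion T4 ∪ (univ.biUnion T5 ∪
      univ.biUnion T6))
    have h5 := Finset.card_union_le (univ.biUnion T4) (univ.biUnion T5 ∪ univ.biUnion T6)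
    have h6 := Finset.card_union_le (univ.biUnion T5) (univ.biUnion T6)
    have h7 : ((Ioc N (N + N / (1000 * (16 * (m + 1))))).filter
        (fun n => n ∈ fin2_S D d (c' / 400) (c / 4) (B0 + 1) f I J)).card ≤
        (univ.biUnion T1).card + ((univ.biUnion T2).card + ((univ.biUnion T3).card +
        ((univ.biUnion T4).card + ((univ.biUnion T5).card + (univ.biUnion T6).card)))) := by
      omega
    exact_mod_cast h7
  have h1 := fin2_un T1 hQ1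
  have h2 := fin2_un T2 hQ2
  have h3 := fin2_un T3 hQ3
  have h4 := fin2_un T4 (fun l => hE l)
  have h5 := fin2_un T5 (fun l => hF l)
  have h6 := fin2_un T6 hS1
  rw [Fintype.card_prod, Nat.cast_mul, ← hK1, ← hK2] at h3 h5
  rw [← hK1] at h1 h4 h6
  rw [← hK2] at h2
  have htot : (((Ioc N (N + N / (1000 * (16 * (m + 1))))).filter
      (fun n => n ∈ fin2_S D d (c' / 400) (c / 4) (B0 + 1) f I J)).card : ℝ) ≤
      (3 * K1 + K2 + 2 * (K1 * K2)) * (N / (Real.log N) ^ A') := by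
    linarith only [hcardle, h1, h2, h3, h4, h5, h6]
  have hb : (N : ℝ) / (Real.log N) ^ A' ≤ N / (Real.log N) ^ (A + 1) := by
    apply div_le_div_of_nonneg_left (Nat.cast_nonneg _) (by positivity)
    exact pow_le_pow_right₀ hlog1 (by omega)
  refine htot.trans ?_
  calc (3 * (K1 : ℝ) + K2 + 2 * (K1 * K2)) * (N / (Real.log N) ^ A') ≤
        Real.log N * (N / (Real.log N) ^ (A + 1)) := by
        apply mul_le_mul hKl hb (by positivity) (by positivity)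
    _ = N / (Real.log N) ^ A := by
        rw [pow_succ]
        field_simp

/-- The final theorem. -/
theorem p_fin2 : S_fin2 := by
  classical
  intro hEX2 hEX hfin0 hsy hcn hfm hgq hgs hwin hbk
  obtain ⟨c', hc'0, hc'1, hsy⟩ := hsy
  obtain ⟨c00, hc00, hfin0⟩ := hfin0
  refine ⟨min (c' / 400) c00, lt_min (by positivity) hc00, fun m D hm hD => ?_⟩
  obtain ⟨Be, ce, hce, hfin0⟩ := hfin0 m D hm hD
  have hcore : ∀ p : (Finset (Fin m) × Finset (Fin m)) × ℕ, ∃ (B : ℕ) (c : ℝ), 0 < c ∧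
      (p.1.1.Nonempty → p.1.2.Nonempty → 2 ≤ p.2 →
      ∀ f : Fin m → MvPolynomial (Fin 2) ℤ, Admissible f → (∀ k, (f k).totalDegree ≤ D) →
      ∀ (a : Fin m → ℤ) (g : Fin m → ℤ[X]) (u v : Fin m → ℤ),
      (∀ k ∈ p.1.1, a k ≠ 0 ∧ (g k).natDegree = p.2 ∧ f k = MvPolynomial.C (a k) *
        (MvPolynomial.X 0 + MvPolynomial.X 1) + aeval (MvPolynomial.X 0) (g k)) →
      (∀ k ∈ p.1.1, ∀ l ∈ p.1.1, k ≠ l → f k ≠ f l ∧ f k ≠ - f l) →
      (∀ k ∈ p.1.2, u k ≠ 0 ∧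
        f k = MvPolynomial.C (u k) * MvPolynomial.X 0 + MvPolynomial.C (v k)) →
      (∀ k ∈ p.1.2, ∀ l ∈ p.1.2, k ≠ l → f k ≠ f l ∧ f k ≠ - f l) →
      ∀ A : ℕ, ∀ᶠ N : ℕ in atTop,
        (((Icc 1 N).filter (fun n => n ∈ fin2_S D p.2 (c' / 400) c B f p.1.1 p.1.2)).card : ℝ) ≤
          N / (Real.log N) ^ A) := by
    rintro ⟨⟨I, J⟩, d⟩
    by_cases h : I.Nonempty ∧ J.Nonempty ∧ 2 ≤ d
    · obtain ⟨B, c, h1, h2⟩ := fin2_Id hEX2 hEX hc'0 hsy hcn hfm hgq hgs hwin hbk m D hm hD I J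
        h.1 h.2.1 d h.2.2
      refine ⟨B, c, h1, fun _ _ _ => ?_⟩
      intro f g1 g2 a g u v g3 g4 g5 g6 A
      refine (h2 f g1 g2 a g u v g3 g4 g5 g6 A).mono fun N hN => ?_
      refine le_trans (le_of_eq ?_) hN
      congr 2
    · exact ⟨0, 1, one_pos, fun h1 h2 h3 => absurd ⟨h1, h2, h3⟩ h⟩
  choose Bf cf hcf0 hcfp using hcore
  obtain ⟨R, hR⟩ : ∃ R, R = ((univ : Finset (Finset (Fin m))) ×ˢ
    (univ : Finset (Finset (Fin m)))) ×ˢ range (D + 1) := ⟨_, rfl⟩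
  obtain ⟨c, hc0', hcle⟩ : ∃ c : ℝ, 0 < c ∧ ∀ p ∈ R, c ≤ cf p := by
    have h1 : ∀ s : Finset ((Finset (Fin m) × Finset (Fin m)) × ℕ),
        ∃ c : ℝ, 0 < c ∧ ∀ p ∈ s, c ≤ cf p := by
      intro s
      induction s using Finset.induction_on with
      | empty => exact ⟨1, one_pos, fun K hK => absurd hK (by simp)⟩
      | insert a s _ ih =>
        obtain ⟨c, h2, h4⟩ := ih
        refine ⟨min c (cf a), lt_min h2 (hcf0 a), ?_⟩
        intro K hK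
        rw [Finset.mem_insert] at hK
        rcases hK with h | h
        · rw [h]; exact min_le_right _ _
        · exact (min_le_left _ _).trans (h4 K h)
    exact h1 _
  refine ⟨∑ p ∈ R, Bf p + Be, min c ce, lt_min hc0' hce, ?_⟩
  intro f hf hdeg d I J hd hI a g u v hfg hnf hfu hnu A
  by_cases hJ : J.Nonempty
  · have hdD : d ≤ D := (hfm m D hm hD f hf hdeg d I J hd a g u v hfg hnf hfu hnu).1 hI
    have hmem : ((I, J), d) ∈ R := by
      rw [hR]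
      exact Finset.mem_product.2 ⟨Finset.mem_product.2 ⟨Finset.mem_univ _, Finset.mem_univ _⟩,
        Finset.mem_range.2 (by show d < D + 1; omega)⟩
    have hBle : Bf ((I, J), d) ≤ ∑ p ∈ R, Bf p + Be :=
      (Finset.single_le_sum (f := Bf) (fun i _ => Nat.zero_le _) hmem).trans (Nat.le_add_right _ _)
    refine (hcfp ((I, J), d) hI hJ hd f hf hdeg a g u v hfg hnf hfu hnu A).mono fun N hN => ?_
    refine le_trans ?_ hN
    refine Nat.cast_le.2 (Finset.card_le_card ?_)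
    intro n hn
    obtain ⟨h1, h2⟩ := Finset.mem_filter.1 hn
    refine Finset.mem_filter.2 ⟨h1, ?_⟩
    exact fin2_mono D d (min_le_left _ _) ((min_le_left _ _).trans (hcle ((I, J), d) hmem)) hBle
      f I J h2
  · refine (hfin0 f hf hdeg d I hd hI a g hfg hnf A).mono fun N hN => ?_
    refine le_trans ?_ hN
    refine Nat.cast_le.2 (Finset.card_le_card ?_)
    intro n hn
    obtain ⟨h1, h2⟩ := Finset.mem_filter.1 hn
    refine Finset.mem_filter.2 ⟨h1, fun hcon => ?_⟩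
    have h3 : n ∈ fin2_S D d (min (c' / 400) c00) (min c ce) (∑ p ∈ R, Bf p + Be) f I J := h2
    have h4 := fin2_mono D d (min_le_right _ _) (min_le_right _ _) (Nat.le_add_left _ _)
      f I J h3
    apply h4
    refine hcon.trans (Nat.cast_le.2 (Set.ncard_le_ncard ?_
      ((Set.finite_lt_nat n).subset fun x hx => hx.2.1)))
    rintro x ⟨e1, e2, e3, e4, e5⟩
    exact ⟨e1, e2, e3, e4, fun h => absurd h hJ, e5⟩

end Pool.Agent.HC.F
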