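import Pool.Agent.Lib.MP_0da313_nt.HC.F
import Pool.Agent.Lib.MP_0da313_nt.Poly

set_option autoImplicit false

/-!
Project HC, section F: existence of the family data for two clusters.
-/

namespace Pool.Agent.HC.F

open Finset Filter Polynomial
open Pool.Agent.Lib.MP_0da313_nt

theorem p_fm2 : S_fm2 := by
  intro hfm m D hm hD f hf hdeg d I J hd a g u v hI hne hJ hneJ
  classical
  obtain ⟨hdD, F, hFG, hFirr, hFL⟩ := hfm m D hm hD f hf hdeg d I hd a g hI hne
  refine ⟨hdD, ?_⟩
  have hline : ∀ k ∈ J, ∀ n : ℕ, lineRestrict (f k) n = C (u k) * X + C (v k) := by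
    intro k hk n
    have h1 := (hJ k hk).2
    unfold lineRestrict
    rw [h1, map_add, map_mul]
    simp
  have hval : ∀ k ∈ J, ∀ (n : ℕ) (x : ℤ), val (f k) x ((n : ℤ) - x) = u k * x + v k := by
    intro k hk n x
    rw [← eval_lineRestrict, hline k hk n]
    simp
  have hco : ∀ k ∈ J, IsCoprime (u k) (v k) := by
    intro k hk
    have h1 := hFirr F.N0 le_rfl k
    rw [hline k hk F.N0] at h1
    have h2 : (C (u k) * X + C (v k) : ℤ[X]).natDegree ≠ 0 := by
      rw [natDegree_linear (hJ k hk).1]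
      exact one_ne_zero
    have h3 := h1.isPrimitive h2
    have h4 : IsUnit ((Int.gcd (u k) (v k) : ℕ) : ℤ) := by
      apply h3
      exact dvd_add (Dvd.dvd.mul_right (map_dvd C (Int.gcd_dvd_left ..)) X)
        (map_dvd C (Int.gcd_dvd_right ..))
    rw [Int.isCoprime_iff_gcd_eq_one]
    exact_mod_cast Int.isUnit_iff_natAbs_eq.1 h4
  have hss : ∀ k ∈ J, (u k).sign * (u k).sign = 1 := by
    intro k hk
    have h0 := (hJ k hk).1
    rcases lt_or_gt_of_ne h0 with h | h
    · rw [Int.sign_eq_neg_one_of_neg h]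
      norm_num
    · rw [Int.sign_eq_one_of_pos h]
      norm_num
  have hs1 : ∀ k ∈ J, (u k).sign = 1 ∨ (u k).sign = -1 := by
    intro k hk
    have h0 := (hJ k hk).1
    rcases lt_or_gt_of_ne h0 with h | h
    · exact Or.inr (Int.sign_eq_neg_one_of_neg h)
    · exact Or.inl (Int.sign_eq_one_of_pos h)
  have hU : ∀ k ∈ J, (((u k).natAbs : ℕ) : ℤ) = (u k).sign * u k := by
    intro k hk
    have h1 := Int.sign_mul_natAbs (u k)
    have h2 := hss k hk
    calc (((u k).natAbs : ℕ) : ℤ) = ((u k).sign * (u k).sign) * ((u k).natAbs : ℤ) := by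
          rw [h2, one_mul]
      _ = (u k).sign * ((u k).sign * ((u k).natAbs : ℤ)) := by ring
      _ = (u k).sign * u k := by rw [h1]
  have hcop : ∀ k ∈ J, IsCoprime (((u k).natAbs : ℕ) : ℤ) ((u k).sign * v k) := by
    intro k hk
    obtain ⟨x, y, hxy⟩ := hco k hk
    refine ⟨x * (u k).sign, y * (u k).sign, ?_⟩
    rw [hU k hk]
    linear_combination (x * u k + y * v k) * hss k hk + hxy
  refine ⟨⟨F, fun j => (u j).natAbs, fun j => (u j).sign * v j,
    fun n j => C ((u j).sign) * ∏ k ∈ univ.erase (j : Fin m), lineRestrict (f k) n,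
    ?_, ?_, ?_, ?_⟩, hFG, hFirr, hFL, ?_⟩
  · intro n hn j
    rw [hFG n hn, ← Finset.mul_prod_erase univ (fun k => lineRestrict (f k) n)
      (Finset.mem_univ (j : Fin m)), hline j j.2 n, hU j j.2]
    have e2 : (C ((u j).sign) * C ((u j).sign) : ℤ[X]) = 1 := by
      rw [← C_mul, hss j j.2, C_1]
    rw [C_mul, C_mul]
    linear_combination (-(C (u j) * X + C (v j)) *
      ∏ k ∈ univ.erase (j : Fin m), lineRestrict (f k) n) * e2
  · intro j
    exact Int.natAbs_pos.2 (hJ j j.2).1
  · intro j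
    exact hcop j j.2
  · intro j j' hjj h
    have hne' : (j : Fin m) ≠ j' := fun h' => hjj (Subtype.ext h')
    obtain ⟨n1, n2⟩ := hneJ j j.2 j' j'.2 hne'
    have h1 : (((u j).natAbs : ℕ) : ℤ) ∣ (((u j').natAbs : ℕ) : ℤ) := by
      apply (hcop j j.2).dvd_of_dvd_mul_right
      rw [← h]
      exact Dvd.intro _ rfl
    have h2 : (((u j').natAbs : ℕ) : ℤ) ∣ (((u j).natAbs : ℕ) : ℤ) := by
      apply (hcop j' j'.2).dvd_of_dvd_mul_right
      rw [h]
      exact Dvd.intro _ rfl
    have h3 : (u j).natAbs = (u j').natAbs :=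
      Nat.dvd_antisymm (Int.natCast_dvd_natCast.1 h1) (Int.natCast_dvd_natCast.1 h2)
    have h4 : (u j').sign * v j' = (u j).sign * v j := by
      rw [← h3] at h
      have h5 : (((u j).natAbs : ℕ) : ℤ) ≠ 0 := by
        have := (hJ j j.2).1
        simpa using this
      exact mul_left_cancel₀ h5 h
    have h5 : (u j').sign * u j' = (u j).sign * u j := by
      rw [← hU j j.2, ← hU j' j'.2, h3]
    have hfj := (hJ j j.2).2
    have hfj' := (hJ j' j'.2).2
    rcases hs1 j j.2 with h6 | h6 <;> rcases hs1 j' j'.2 with h7 | h7 <;>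
      rw [h6, h7] at h4 h5
    · apply n1
      rw [one_mul, one_mul] at h4 h5
      rw [hfj, hfj', h4, h5]
    · apply n2
      have h8 : u j = - u j' := by linarith
      have h9 : v j = - v j' := by linarith
      rw [hfj, hfj', h8, h9, map_neg, map_neg]
      ring
    · apply n2
      have h8 : u j = - u j' := by linarith
      have h9 : v j = - v j' := by linarith
      rw [hfj, hfj', h8, h9, map_neg, map_neg]
      ring
    · apply n1
      have h8 : u j = u j' := by linarith
      have h9 : v j = v j' := by linarith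
      rw [hfj, hfj', h8, h9]
  · intro n j x
    have e1 : (((u j).natAbs : ℕ) : ℤ) * x + (u j).sign * v j =
        (u j).sign * val (f j) x ((n : ℤ) - x) := by
      rw [hval j j.2 n x, hU j j.2]
      ring
    change ((((u j).natAbs : ℕ) : ℤ) * x + (u j).sign * v j).natAbs = _
    rw [e1, Int.natAbs_mul]
    have e2 : ((u j).sign).natAbs = 1 := by
      rcases hs1 j j.2 with h | h <;> rw [h] <;> rfl
    rw [e2, one_mul]

end Pool.Agent.HC.F
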