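import Pool.Agent.Lib.MP_0da313_nt.HC.W
import Pool.Agent.Lib.MP_0da313_nt.NC.Wy.Main

set_option autoImplicit false

/-!
Project HC, piece gb: the bound for `GG` if `x` has a rational approximation.
-/

namespace Pool.Agent.HC.W

open Finset Filter Polynomial
open Pool.Agent.SP80 (ex mn)
open Pool.Agent.NC.Wy (tk RR WP)

/-- Cauchy's inequality. -/
theorem gb_cauchy (k W V r : ℕ) (hW : 1 ≤ W) (x : ℝ) (b : ℤ) (hr : 0 < r)
    (hb : IsCoprime b (r : ℤ)) (hx : |x - b / r| ≤ 1 / (r : ℝ) ^ 2) :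
    (∑ m ∈ Icc 1 W, (tk k m : ℝ) * mn V (m * x)) ^ 2 ≤
      ((W : ℝ) * (1 + Real.log W) ^ (k * k)) *
        (V * (6 * ((W : ℝ) / r + 1) * (V + r * (1 + Real.log r)))) := by
  have hV0 : (0 : ℝ) ≤ V := Nat.cast_nonneg V
  have h1 := Finset.sum_mul_sq_le_sq_mul_sq (Icc 1 W) (fun m => (tk k m : ℝ))
    (fun m => mn V (m * x))
  refine h1.trans ?_
  have h2 := NC.Wy.tk_sq k W hW
  have h3 : ∑ m ∈ Icc 1 W, mn V (m * x) ^ 2 ≤
      V * (6 * ((W : ℝ) / r + 1) * (V + r * (1 + Real.log r))) := by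
    have h4 := SP80.sw3 x b r W V hr hb hx hV0
    calc ∑ m ∈ Icc 1 W, mn V (m * x) ^ 2 ≤ ∑ m ∈ Icc 1 W, V * mn V (m * x) := by
          refine Finset.sum_le_sum fun m _ => ?_
          rw [sq]
          exact mul_le_mul_of_nonneg_right (NC.Wy.mn_le _ _) (NC.Wy.mn_nonneg hV0 _)
      _ = V * ∑ m ∈ Icc 1 W, mn V (m * x) := by rw [Finset.mul_sum]
      _ ≤ _ := mul_le_mul_of_nonneg_left h4 hV0
  exact mul_le_mul h2 h3 (Finset.sum_nonneg fun m _ => sq_nonneg _)
    (le_trans (Finset.sum_nonneg fun m _ => sq_nonneg _) h2)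

/-- The real inequality. -/
theorem gb_real (S W V r l p : ℝ) (D : ℕ) (hW : 0 < W) (hV : 0 < V) (hr : 0 < r) (hl : 1 ≤ l)
    (hp : 1 ≤ p) (h : S ^ 2 ≤ (W * l ^ D) * (V * (6 * (W / r + 1) * (V + r * p)))) :
    S ≤ (V * W) * (3 * l ^ D * p * Real.sqrt (1 / r + 1 / V + 1 / W + r / (V * W))) := by
  set E : ℝ := 1 / r + 1 / V + 1 / W + r / (V * W) with hE
  have hE0 : 0 < E := by positivity
  have hlD : 1 ≤ l ^ D := one_le_pow₀ hl
  have h1 : (W / r + 1) * (V + r * p) ≤ p * ((V * W) * E) := by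
    have e1 : (V * W) * E = (W / r + 1) * (V + r) := by
      rw [hE]
      field_simp
      ring
    have e2 : V + r * p ≤ p * (V + r) := by nlinarith
    rw [e1]
    have e3 : 0 ≤ W / r + 1 := by positivity
    calc (W / r + 1) * (V + r * p) ≤ (W / r + 1) * (p * (V + r)) :=
          mul_le_mul_of_nonneg_left e2 e3
      _ = _ := by ring
  have h2 : S ^ 2 ≤ ((V * W) * (3 * l ^ D * p * Real.sqrt E)) ^ 2 := by
    have e1 : ((V * W) * (3 * l ^ D * p * Real.sqrt E)) ^ 2 =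
        9 * ((V * W) ^ 2 * E) * (l ^ D * l ^ D) * (p * p) := by
      have e2 : Real.sqrt E ^ 2 = E := Real.sq_sqrt hE0.le
      calc ((V * W) * (3 * l ^ D * p * Real.sqrt E)) ^ 2 =
            9 * ((V * W) ^ 2 * Real.sqrt E ^ 2) * (l ^ D * l ^ D) * (p * p) := by ring
        _ = _ := by rw [e2]
    rw [e1]
    refine h.trans ?_
    calc (W * l ^ D) * (V * (6 * (W / r + 1) * (V + r * p))) =
          6 * (V * W) * l ^ D * ((W / r + 1) * (V + r * p)) := by ring
      _ ≤ 6 * (V * W) * l ^ D * (p * ((V * W) * E)) :=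
          mul_le_mul_of_nonneg_left h1 (by positivity)
      _ = 6 * ((V * W) ^ 2 * E) * (l ^ D * 1) * (p * 1) := by ring
      _ ≤ 9 * ((V * W) ^ 2 * E) * (l ^ D * l ^ D) * (p * p) := by
          have e3 : 0 ≤ (V * W) ^ 2 * E := by positivity
          have e4 : (0 : ℝ) ≤ l ^ D := by positivity
          have e5 : 0 ≤ p := by linarith
          gcongr
          · norm_num
  exact le_of_sq_le_sq h2 (by positivity)

theorem p_gb : S_gb := by
  intro hrl d U V r x b hd hU hV hr hb hx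
  obtain ⟨t, ht⟩ : ∃ t, t = List.replicate d U ++ List.replicate (d - 1) V := ⟨_, rfl⟩
  have hU0 : (0 : ℝ) < U := by exact_mod_cast hU
  have hV0 : (0 : ℝ) < V := by exact_mod_cast hV
  have hr0 : (0 : ℝ) < r := by exact_mod_cast hr
  have hprod : t.prod = U ^ d * V ^ (d - 1) := by
    rw [ht, List.prod_append, List.prod_replicate, List.prod_replicate]
  have hlen : t.length = 2 * d - 1 := by
    rw [ht, List.length_append, List.length_replicate, List.length_replicate]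
    omega
  have hsum : (t.map (fun U : ℕ => 1 / (U : ℝ))).sum = d * (1 / U) + ((d - 1 : ℕ) : ℝ) * (1 / V) := by
    rw [ht, List.map_append, List.sum_append, List.map_replicate, List.map_replicate,
      List.sum_replicate, List.sum_replicate, nsmul_eq_mul, nsmul_eq_mul]
  have h1 := hrl t V x (by
    intro u hu
    rw [ht, List.mem_append, List.mem_replicate, List.mem_replicate] at hu
    rcases hu with hu | hu
    · rw [hu.2]; exact hU
    · rw [hu.2]; exact hV) hV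
  rw [hprod, hlen, hsum] at h1
  have hW1 : 1 ≤ U ^ d * V ^ (d - 1) := Nat.mul_pos (Nat.pow_pos hU) (Nat.pow_pos hV)
  have hZ : (V : ℝ) * ((U : ℝ) ^ d * (V : ℝ) ^ (d - 1)) = ((U : ℝ) * V) ^ d := by
    obtain ⟨e, rfl⟩ : ∃ e, d = e + 1 := ⟨d - 1, by omega⟩
    rw [Nat.add_sub_cancel]
    ring
  have h2 := gb_cauchy (2 * d - 1) (U ^ d * V ^ (d - 1)) V r hW1 x b hr hb hx
  have hWc : ((U ^ d * V ^ (d - 1) : ℕ) : ℝ) = (U : ℝ) ^ d * (V : ℝ) ^ (d - 1) := by push_cast; ring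
  rw [hWc] at h1 h2
  have hW0 : (0 : ℝ) < (U : ℝ) ^ d * (V : ℝ) ^ (d - 1) := by positivity
  have hWr1 : (1 : ℝ) ≤ (U : ℝ) ^ d * (V : ℝ) ^ (d - 1) := by
    rw [← hWc]
    exact_mod_cast hW1
  have h3 := gb_real _ _ _ _ _ _ _ hW0 hV0 hr0
    (by have := Real.log_nonneg hWr1; linarith)
    (by have := Real.log_nonneg (show (1 : ℝ) ≤ r by exact_mod_cast hr); linarith) h2
  rw [hZ] at h3
  have hGG : GG d U V x = RL t V x := by rw [ht]; rfl
  rw [hGG]
  refine h1.trans ?_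
  refine le_trans (add_le_add ?_ h3) (le_of_eq (mul_add _ _ _).symm)
  rw [hZ]
  apply mul_le_mul_of_nonneg_left _ (by positivity)
  have e1 : ((d - 1 : ℕ) : ℝ) ≤ d := by exact_mod_cast Nat.sub_le _ _
  have e2 : (0 : ℝ) ≤ d := Nat.cast_nonneg d
  have e3 : (0 : ℝ) < 1 / U := by positivity
  have e4 : (0 : ℝ) < 1 / V := by positivity
  nlinarith [mul_le_mul_of_nonneg_right e1 e4.le, mul_nonneg e2 e3.le, mul_nonneg e2 e4.le]

end Pool.Agent.HC.W
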