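import Pool.Agent.Lib.MP_0da313_nt.HC.E

set_option autoImplicit false

/-!
Project HC, section E, piece gmi2: the trivial bound and the minor arcs.
-/

namespace Pool.Agent.HC.E

open Finset Filter Polynomial
open Pool.Agent.MP89da58 (tri tri_nonneg tri_le_one)
open Pool.Agent.CH (thP)
open Pool.Agent.CM (wd)
open Pool.Agent.SP80 (ex)
open Pool.Agent.NC (Hn Bn)
open Pool.Agent.HC (Fam2)

/-- The total variation of a unimodal function. -/
private lemma gmi2_tv (h : ℕ → ℝ) (h01 : ∀ y, 0 ≤ h y ∧ h y ≤ 1) (m : ℕ)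
    (hup : ∀ y < m, h y ≤ h (y + 1)) (hdn : ∀ y, m < y → h (y + 1) ≤ h y) (Y : ℕ) :
    ∑ y ∈ range Y, |h (y + 1) - h y| ≤ 3 := by
  have key : ∀ Y, ∑ y ∈ range Y, |h (y + 1) - h y| ≤
      if Y ≤ m then h Y - h 0 else (h m - h 0) + |h (m + 1) - h m| + (h (m + 1) - h Y) := by
    intro Y
    induction Y with
    | zero =>
      simp
    | succ Y ih =>
      rw [Finset.sum_range_succ]
      rcases lt_trichotomy Y m with hlt | heq | hgt
      · rw [if_pos hlt.le] at ih
        rw [if_pos (by omega)]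
        rw [abs_of_nonneg (by linarith [hup Y hlt])]
        linarith
      · subst heq
        rw [if_pos le_rfl] at ih
        rw [if_neg (by omega)]
        linarith
      · rw [if_neg (by omega)] at ih
        rw [if_neg (by omega)]
        rw [abs_of_nonpos (by linarith [hdn Y hgt])]
        linarith
  refine (key Y).trans ?_
  split
  · linarith [(h01 Y).2, (h01 0).1]
  · have h1 : |h (m + 1) - h m| ≤ 1 := by
      rw [abs_le]
      constructor <;> linarith [(h01 (m + 1)).1, (h01 (m + 1)).2, (h01 m).1, (h01 m).2]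
    linarith [(h01 m).2, (h01 0).1, (h01 (m + 1)).2, (h01 Y).1]

/-- The window as a function of `t = u x + v`. -/
private noncomputable def g2h (lam Z : ℝ) (u : ℕ) (v : ℤ) (t : ℕ) : ℝ :=
  if v + u ≤ (t : ℤ) then tri (lam * Real.log (((t : ℝ) - v) / (u * Z))) else 0

private lemma g2h_bd (lam Z : ℝ) (u : ℕ) (v : ℤ) (t : ℕ) :
    0 ≤ g2h lam Z u v t ∧ g2h lam Z u v t ≤ 1 := by
  unfold g2h
  split
  · exact ⟨tri_nonneg _, tri_le_one _⟩
  · exact ⟨le_rfl, zero_le_one⟩

private lemma g2h_up (lam Z : ℝ) (hlam : 0 ≤ lam) (hZ : 0 < Z) (u : ℕ) (hu : 1 ≤ u) (v : ℤ)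
    (t t' : ℕ) (htt : t ≤ t') (ht' : (t' : ℝ) ≤ u * Z + v) :
    g2h lam Z u v t ≤ g2h lam Z u v t' := by
  by_cases ht : v + u ≤ (t : ℤ)
  · have htz : (t : ℤ) ≤ t' := by exact_mod_cast htt
    have hu0 : (0 : ℝ) < u := by exact_mod_cast hu
    have h0 : (v : ℝ) + u ≤ t := by exact_mod_cast ht
    have htr : (t : ℝ) ≤ t' := by exact_mod_cast htt
    unfold g2h
    rw [if_pos ht, if_pos (ht.trans htz)]
    have hp : 0 < (t : ℝ) - v := by linarith
    have h1 : Real.log (((t : ℝ) - v) / (u * Z)) ≤ Real.log (((t' : ℝ) - v) / (u * Z)) := by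
      apply Real.log_le_log (by positivity)
      exact div_le_div_of_nonneg_right (by linarith) (by positivity)
    have h2 : Real.log (((t' : ℝ) - v) / (u * Z)) ≤ 0 := by
      apply Real.log_nonpos
      · have : 0 ≤ (t' : ℝ) - v := by linarith
        positivity
      · rw [div_le_one (by positivity)]
        linarith
    unfold MP89da58.tri
    apply max_le_max le_rfl
    rw [abs_of_nonpos (mul_nonpos_of_nonneg_of_nonpos hlam (h1.trans h2)),
      abs_of_nonpos (mul_nonpos_of_nonneg_of_nonpos hlam h2)]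
    have := mul_le_mul_of_nonneg_left h1 hlam
    linarith
  · have h1 : g2h lam Z u v t = 0 := if_neg ht
    rw [h1]
    exact (g2h_bd _ _ _ _ _).1

private lemma g2h_dn (lam Z : ℝ) (hlam : 0 ≤ lam) (hZ : 1 ≤ Z) (u : ℕ) (hu : 1 ≤ u) (v : ℤ)
    (t t' : ℕ) (htt : t ≤ t') (ht : u * Z + v < (t : ℝ)) :
    g2h lam Z u v t' ≤ g2h lam Z u v t := by
  have hu0 : (0 : ℝ) < u := by exact_mod_cast hu
  have hZ0 : 0 < Z := by linarith
  have htr : (t : ℝ) ≤ t' := by exact_mod_cast htt
  have htz : (t : ℤ) ≤ t' := by exact_mod_cast htt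
  have huZ : (u : ℝ) ≤ u * Z := le_mul_of_one_le_right hu0.le hZ
  have h0 : v + u ≤ (t : ℤ) := by
    have : (v : ℝ) + u ≤ t := by linarith
    exact_mod_cast this
  unfold g2h
  rw [if_pos h0, if_pos (h0.trans htz)]
  have h1 : Real.log (((t : ℝ) - v) / (u * Z)) ≤ Real.log (((t' : ℝ) - v) / (u * Z)) := by
    apply Real.log_le_log
    · have : 0 < (t : ℝ) - v := by linarith
      positivity
    · exact div_le_div_of_nonneg_right (by linarith) (by positivity)
  have h2 : 0 ≤ Real.log (((t : ℝ) - v) / (u * Z)) := by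
    apply Real.log_nonneg
    rw [le_div_iff₀ (by positivity)]
    linarith
  unfold MP89da58.tri
  apply max_le_max le_rfl
  rw [abs_of_nonneg (mul_nonneg hlam h2), abs_of_nonneg (mul_nonneg hlam (h2.trans h1))]
  have := mul_le_mul_of_nonneg_left h1 hlam
  linarith

/-- The value at `t = u x + v`. -/
private lemma g2h_val (lam Z : ℝ) (u : ℕ) (hu : 1 ≤ u) (v : ℤ) (t x : ℕ) (hx : 1 ≤ x)
    (ht : (t : ℤ) = u * x + v) : g2h lam Z u v t = wd lam Z x := by
  have hu0 : (0 : ℝ) < u := by exact_mod_cast hu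
  unfold g2h CM.wd
  have h1 : v + u ≤ (t : ℤ) := by
    rw [ht]
    have h2 : (u : ℤ) * 1 ≤ u * x := by
      apply mul_le_mul_of_nonneg_left _ (Int.natCast_nonneg u)
      exact_mod_cast hx
    linarith
  rw [if_pos h1]
  have h3 : (t : ℝ) - v = u * x := by
    have : ((t : ℤ) : ℝ) = ((u * x + v : ℤ) : ℝ) := by rw [ht]
    push_cast at this
    linarith
  rw [h3, mul_div_mul_left _ _ hu0.ne']

/-- The number of the elements of a class in `[1, H]`. -/
private lemma gmi2_card (H q c : ℕ) :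
    ((Icc 1 H).filter (fun x => x ≡ c [MOD q])).card ≤ H / q + 1 := by
  have h1 : ((Icc 1 H).filter (fun x => x ≡ c [MOD q])).card ≤ (range (H / q + 1)).card := by
    refine Finset.card_le_card_of_injOn (fun x => x / q) ?_ ?_
    · intro x hx
      have hx' := Finset.mem_coe.1 hx
      rw [mem_filter, mem_Icc] at hx'
      have : x / q ≤ H / q := Nat.div_le_div_right hx'.1.2
      exact Finset.mem_coe.2 (mem_range.2 (Nat.lt_succ_of_le this))
    · intro x hx y hy hxy
      have hx' := Finset.mem_coe.1 hx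
      have hy' := Finset.mem_coe.1 hy
      rw [mem_filter] at hx' hy'
      have h2 : x % q = y % q := hx'.2.trans hy'.2.symm
      have h3 : x / q = y / q := hxy
      rw [← Nat.div_add_mod x q, ← Nat.div_add_mod y q, h2, h3]
  rwa [card_range] at h1

private lemma gmi2_thP_nonneg (k : ℕ) : 0 ≤ thP k := by
  unfold CH.thP
  split_ifs with h
  · exact Real.log_natCast_nonneg k
  · exact le_refl 0

private lemma gmi2_thP_le (k : ℕ) : thP k ≤ Real.log k := by
  unfold CH.thP
  split_ifs with h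
  · exact le_refl _
  · exact Real.log_natCast_nonneg k

private lemma gmi2_thP_zero : thP 0 = 0 := by
  unfold CH.thP
  rw [if_neg (by norm_num)]

private lemma gmi2_alg (α b F2 a0 U m Q : ℝ) (hF : F2 ≠ 0) (ha : a0 ≠ 0) (hU : U ≠ 0)
    (hm : m ≠ 0) (hQ : Q ≠ 0) : α - b / (F2 * a0 * U * m * Q) =
      U / a0 * (-α * (-a0 * U⁻¹) - b / (F2 * m * (U ^ 2 * Q))) := by
  field_simp

private lemma gmi2_alg' (α b F2 a0 U m Q : ℝ) (hF : F2 ≠ 0) (ha : a0 ≠ 0) (hU : U ≠ 0)
    (hm : m ≠ 0) (hQ : Q ≠ 0) : α - (-b) / (F2 * a0 * U * m * Q) =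
      -(U / a0 * (-α * (a0 * U⁻¹) - b / (F2 * m * (U ^ 2 * Q)))) := by
  field_simp
  ring

theorem p_gmi2 : S_gmi2 := by
  intro hW hloc ι κ _ _ _ _ D d E H l j A
  have hd2 := H.F.hd
  obtain ⟨B, hB⟩ := hW d (A + 1) hd2
  refine ⟨B, ?_⟩
  obtain ⟨X1, hX1⟩ := eventually_atTop.1 hB
  have hlocF := hloc ι D d E H.F
  set u : ℕ := H.u j with hu
  set v : ℤ := H.v j with hv
  have hu1 : 1 ≤ u := H.hu j
  have hu0 : (0 : ℝ) < u := by exact_mod_cast hu1
  have hu1r : (1 : ℝ) ≤ u := by exact_mod_cast hu1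
  have hd0 : (0 : ℝ) < d := by exact_mod_cast (by omega : 0 < d)
  have hd1 : (2 : ℝ) ≤ d := by exact_mod_cast hd2
  have hE1 : (1 : ℝ) ≤ E := by exact_mod_cast H.F.hE
  have hcast : Tendsto (fun n : ℕ => (n : ℝ)) atTop atTop := tendsto_natCast_atTop_atTop
  have hlogt : Tendsto (fun N : ℕ => Real.log N) atTop atTop := Real.tendsto_log_atTop.comp hcast
  have hpowt : Tendsto (fun N : ℕ => (N : ℝ) ^ (1 / (d : ℝ))) atTop atTop :=
    (tendsto_rpow_atTop (by positivity)).comp hcast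
  filter_upwards [hlocF, hpowt.eventually (eventually_ge_atTop (max X1
      (max ((u : ℝ) ^ 1000) (4 * |(v : ℝ)| + u + 4)))),
    hlogt.eventually (eventually_ge_atTop (max 1 (8 * (d : ℝ) ^ (A + 1)))),
    eventually_ge_atTop 1] with N hlN hN1 hN2 hN3
  intro q c α hq hqN hcop
  set Y : ℝ := (N : ℝ) ^ (1 / (d : ℝ)) with hY
  set L : ℝ := Real.log N with hL
  have hL1 : 1 ≤ L := (le_max_left _ _).trans hN2
  have hL8 : 8 * (d : ℝ) ^ (A + 1) ≤ L := (le_max_right _ _).trans hN2
  have hNr : (1 : ℝ) ≤ N := by exact_mod_cast hN3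
  have hN0 : (0 : ℝ) < N := by linarith
  have hYX1 : X1 ≤ Y := (le_max_left _ _).trans hN1
  have hYu : (u : ℝ) ^ 1000 ≤ Y := ((le_max_left _ _).trans (le_max_right _ _)).trans hN1
  have hYv : 4 * |(v : ℝ)| + u + 4 ≤ Y := ((le_max_right _ _).trans (le_max_right _ _)).trans hN1
  have hv0 : 0 ≤ |(v : ℝ)| := abs_nonneg _
  have hY4 : 4 ≤ Y := by linarith
  have hY0 : 0 < Y := by linarith
  have hYd : Y ^ d = N := by
    rw [hY, one_div]
    exact Real.rpow_inv_natCast_pow hN0.le (by omega)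
  have hY2 : Y * Y ≤ N := by
    rw [← hYd, ← sq]
    exact pow_le_pow_right₀ (by linarith) hd2
  have hq0 : (0 : ℝ) < q := by exact_mod_cast hq
  have hq1 : (1 : ℝ) ≤ q := by exact_mod_cast hq
  have hYN : Y ≤ N := by nlinarith
  have hqY' : (q : ℝ) ≤ Y ^ (1 / 1000 : ℝ) := by
    refine hqN.trans (le_of_eq ?_)
    rw [hY, ← Real.rpow_mul hN0.le]
    congr 1
    field_simp
  have hqY : (q : ℝ) ≤ Y := by
    refine hqY'.trans ?_
    calc Y ^ (1 / 1000 : ℝ) ≤ Y ^ (1 : ℝ) :=
          Real.rpow_le_rpow_of_exponent_le (by linarith) (by norm_num)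
      _ = Y := Real.rpow_one _
  set H0 : ℕ := Hn d N with hH0
  have hHY : (H0 : ℝ) ≤ Y := Nat.floor_le (by positivity)
  -- the window
  set lam : ℝ := 1000 * d * E with hlam
  have hlam0 : 0 ≤ lam := by positivity
  have hlam1 : 2000 ≤ lam := by
    have : (2 : ℝ) * 1 ≤ d * E := mul_le_mul hd1 hE1 (by norm_num) (by linarith)
    rw [hlam]
    linarith
  set Z : ℝ := H.F.X N with hZ
  have hs0 := H.F.hs0
  have hs1 := H.F.hs1
  have hZY : Y / 2 ≤ Z := by
    have h1 : (Y / 2) ^ d ≤ H.F.s * N := by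
      rw [div_pow, hYd]
      have h2 : (4 : ℝ) ≤ 2 ^ d := by
        calc (4 : ℝ) = 2 ^ 2 := by norm_num
          _ ≤ 2 ^ d := pow_le_pow_right₀ (by norm_num) hd2
      calc (N : ℝ) / 2 ^ d ≤ N / 4 := div_le_div_of_nonneg_left hN0.le (by norm_num) h2
        _ ≤ H.F.s * N := by nlinarith
    have h3 : Y / 2 = ((Y / 2) ^ d) ^ (1 / (d : ℝ)) := by
      rw [one_div, Real.pow_rpow_inv_natCast (by positivity) (by omega)]
    rw [h3, hZ]
    unfold NC.Fam.X
    exact Real.rpow_le_rpow (by positivity) h1 (by positivity)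
  have hZ2 : 2 * |(v : ℝ)| + 2 ≤ Z := by linarith
  have hZ1 : 1 ≤ Z := by linarith
  have hZ0 : 0 < Z := by linarith
  have hwh : ∀ x, 0 ≤ H.F.wh N x ∧ H.F.wh N x ≤ 1 := fun x => ⟨tri_nonneg _, tri_le_one _⟩
  have hthP0 : ∀ k, 0 ≤ thP k := gmi2_thP_nonneg
  -- the elements of the window are large
  have hbig : ∀ x : ℕ, 1 ≤ x → H.F.wh N x ≠ 0 → (1 : ℤ) ≤ u * x + v := by
    intro x hx hne
    have hx0 : (0 : ℝ) < x := by exact_mod_cast hx
    have h1 : |lam * Real.log (x / Z)| < 1 := by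
      by_contra hcon
      apply hne
      show tri (lam * Real.log (x / Z)) = 0
      unfold MP89da58.tri
      exact max_eq_left (by linarith)
    have h2 : -(1 / 2) ≤ Real.log (x / Z) := by
      rw [abs_mul, abs_of_nonneg hlam0] at h1
      have h3 : |Real.log (x / Z)| ≤ 1 / 2 := by
        by_contra hcon
        push Not at hcon
        have : 2000 * (1 / 2) ≤ lam * |Real.log (x / Z)| :=
          mul_le_mul hlam1 hcon.le (by norm_num) (by linarith)
        linarith
      exact (abs_le.1 h3).1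
    have h4 : (1 : ℝ) / 2 ≤ x / Z := by
      have h5 : Real.exp (-(1 / 2)) ≤ x / Z := by
        rwa [← Real.le_log_iff_exp_le (by positivity)]
      have h6 := Real.add_one_le_exp (-(1 / 2) : ℝ)
      linarith
    rw [div_le_div_iff₀ (by norm_num) hZ0] at h4
    have h7 : (1 : ℝ) ≤ (u : ℝ) * x + v := by
      have h8 : (x : ℝ) ≤ u * x := le_mul_of_one_le_left hx0.le hu1r
      have h9 := neg_abs_le (v : ℝ)
      linarith
    exact_mod_cast h7
  constructor
  · -- the trivial bound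
    have h1 : ∀ x ∈ (Icc 1 H0).filter (fun x => x ≡ c [MOD q]),
        ‖((H.F.wh N x * thP (H.M j x).toNat : ℝ) : ℂ) *
          ex (-α * (((H.F.g l).eval (x : ℤ) : ℤ) : ℝ))‖ ≤ L := by
      intro x hx
      rw [mem_filter, mem_Icc] at hx
      rw [norm_mul, NC.Wy.norm_ex, mul_one, Complex.norm_real, Real.norm_of_nonneg
        (mul_nonneg (hwh x).1 (hthP0 _))]
      have h2 : thP (H.M j x).toNat ≤ L := by
        rcases Nat.eq_zero_or_pos (H.M j x).toNat with h0 | h0
        · rw [h0, gmi2_thP_zero]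
          linarith
        · refine (gmi2_thP_le _).trans ?_
          apply Real.log_le_log (by exact_mod_cast h0)
          have h3 : (((H.M j x).toNat : ℤ) : ℝ) = ((H.M j x : ℤ) : ℝ) := by
            rw [Int.toNat_of_nonneg (by omega)]
          have h4 : (((H.M j x).toNat : ℕ) : ℝ) = (u : ℝ) * x + v := by
            rw [← Int.cast_natCast, h3]
            unfold HC.Fam2.M
            push_cast
            rfl
          rw [h4]
          have h5 : (x : ℝ) ≤ Y := by
            refine le_trans ?_ hHY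
            exact_mod_cast hx.1.2
          have h6 : (u : ℝ) * x ≤ u * Y := mul_le_mul_of_nonneg_left h5 hu0.le
          have h7 := le_abs_self (v : ℝ)
          have h8 : (u + |(v : ℝ)|) * Y ≤ Y * Y :=
            mul_le_mul_of_nonneg_right (by linarith) hY0.le
          have h9 : |(v : ℝ)| ≤ |(v : ℝ)| * Y := le_mul_of_one_le_right hv0 (by linarith)
          linarith [add_mul (u : ℝ) |(v : ℝ)| Y]
      calc H.F.wh N x * thP (H.M j x).toNat ≤ 1 * L :=
            mul_le_mul (hwh x).2 h2 (hthP0 _) zero_le_one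
        _ = L := one_mul _
    unfold Gh2
    refine (norm_sum_le _ _).trans ((Finset.sum_le_sum h1).trans ?_)
    rw [Finset.sum_const, nsmul_eq_mul]
    have h2 : (((Icc 1 H0).filter (fun x => x ≡ c [MOD q])).card : ℝ) ≤ 2 * Y / q := by
      have h3 : (((Icc 1 H0).filter (fun x => x ≡ c [MOD q])).card : ℝ) ≤ ((H0 / q : ℕ) : ℝ) + 1 := by
        exact_mod_cast gmi2_card H0 q c
      have h4 : ((H0 / q : ℕ) : ℝ) ≤ (H0 : ℝ) / q := Nat.cast_div_le
      have h5 : (H0 : ℝ) / q ≤ Y / q := div_le_div_of_nonneg_right hHY hq0.le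
      have h6 : 1 ≤ Y / q := by
        rw [le_div_iff₀ hq0]
        linarith
      have h7 : 2 * Y / q = Y / q + Y / q := by ring
      rw [h7]
      linarith
    calc (((Icc 1 H0).filter (fun x => x ≡ c [MOD q])).card : ℝ) * L ≤ (2 * Y / q) * L :=
          mul_le_mul_of_nonneg_right h2 (by linarith)
      _ = 2 * L * Y / q := by ring
  -- the second claim
  set X : ℝ := (u + 1) * Y with hX
  have hXY : Y ≤ X := by
    rw [hX]
    have : 0 ≤ (u : ℝ) * Y := by positivity
    linarith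
  have hX0 : 0 < X := by linarith
  have hX1' : X1 ≤ X := hYX1.trans hXY
  have hXN : X ≤ N := by
    refine le_trans ?_ hY2
    rw [hX]
    exact mul_le_mul_of_nonneg_right (by linarith) hY0.le
  have huvX : (u : ℝ) * Y + |(v : ℝ)| ≤ X := by
    rw [hX]
    linarith [add_mul (u : ℝ) 1 Y]
  have hlogX : Real.log X ≤ L := Real.log_le_log hX0 hXN
  have hlogX' : 1 / d * L ≤ Real.log X := by
    have h1 := Real.log_le_log hY0 hXY
    rwa [hY, Real.log_rpow hN0] at h1
  have hlogX0 : 0 < Real.log X := by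
    have : 0 < 1 / (d : ℝ) * L := by positivity
    linarith
  -- the class
  set a : ℕ := ((u * c + v) % ((u * q : ℕ) : ℤ)).toNat with ha
  have huq : 1 ≤ u * q := Nat.mul_pos hu1 hq
  have haz : (a : ℤ) = (u * c + v) % ((u * q : ℕ) : ℤ) := by
    rw [ha]
    exact Int.toNat_of_nonneg (Int.emod_nonneg _ (by exact_mod_cast (by omega : u * q ≠ 0)))
  have hamod : (a : ℤ) ≡ u * c + v [ZMOD ((u * q : ℕ) : ℤ)] := by
    rw [haz]
    exact Int.mod_modEq _ _
  have hacop : a.Coprime (u * q) := by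
    rw [← Nat.isCoprime_iff_coprime]
    have h1 : IsCoprime ((u : ℤ) * c + v) (u : ℤ) := by
      have h2 : IsCoprime (v : ℤ) (u : ℤ) := (H.huv j).symm
      have h3 := h2.add_mul_left_left (c : ℤ)
      rw [add_comm] at h3
      exact h3
    have h2 : IsCoprime ((u : ℤ) * c + v) (q : ℤ) := hcop.symm
    have h3 : IsCoprime ((u : ℤ) * c + v) ((u * q : ℕ) : ℤ) := by
      push_cast
      exact h1.mul_right h2
    have h4 : (a : ℤ) = (u * c + v) + ((u * q : ℕ) : ℤ) * (-((u * c + v) / ((u * q : ℕ) : ℤ))) := by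
      rw [haz, Int.emod_def]
      ring
    rw [h4]
    exact h3.add_mul_left_left _
  have hQX : ((u * q : ℕ) : ℝ) ≤ X ^ (1 / 500 : ℝ) := by
    have h1 : (u : ℝ) ≤ Y ^ (1 / 1000 : ℝ) := by
      have h2 : (u : ℝ) = ((u : ℝ) ^ 1000) ^ (1 / 1000 : ℝ) := by
        have := Real.pow_rpow_inv_natCast hu0.le (n := 1000) (by norm_num)
        rw [one_div]
        exact_mod_cast this.symm
      rw [h2]
      exact Real.rpow_le_rpow (by positivity) hYu (by norm_num)
    push_cast
    calc (u : ℝ) * q ≤ Y ^ (1 / 1000 : ℝ) * Y ^ (1 / 1000 : ℝ) :=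
          mul_le_mul h1 hqY' hq0.le (by positivity)
      _ = Y ^ (1 / 500 : ℝ) := by
          rw [← Real.rpow_add hY0]
          norm_num
      _ ≤ X ^ (1 / 500 : ℝ) := Real.rpow_le_rpow hY0.le hXY (by norm_num)
  -- the polynomial
  set A0 : ℤ := (H.F.g l).coeff d with hA0
  set G : ℝ[X] := (H.F.g l).map (Int.castRingHom ℝ) with hG
  have hGdeg : G.natDegree = d := by
    rw [hG, Polynomial.natDegree_map_eq_of_injective (RingHom.injective_int _), H.F.hg]
  have hGlead : G.leadingCoeff = (A0 : ℝ) := by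
    unfold Polynomial.leadingCoeff
    rw [hGdeg, hG, Polynomial.coeff_map]
    rfl
  have hA00 : A0 ≠ 0 := by
    intro h0
    have h1 : (H.F.g l).leadingCoeff = 0 := by
      unfold Polynomial.leadingCoeff
      rw [H.F.hg]
      exact h0
    have h2 := Polynomial.leadingCoeff_eq_zero.1 h1
    have h3 := H.F.hg l
    rw [h2, Polynomial.natDegree_zero] at h3
    omega
  set f : ℝ[X] := C (-α) * G.comp (C ((u : ℝ)⁻¹) * Polynomial.X + C (-(v : ℝ) / u)) with hf
  have hlin : (C ((u : ℝ)⁻¹) * Polynomial.X + C (-(v : ℝ) / u)).natDegree = 1 :=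
    Polynomial.natDegree_linear (inv_ne_zero hu0.ne')
  have hfdeg : f.natDegree ≤ d := by
    rw [hf]
    refine (Polynomial.natDegree_C_mul_le _ _).trans ?_
    rw [Polynomial.natDegree_comp, hlin, mul_one, hGdeg]
  have hfc : f.coeff d = -α * (A0 * ((u : ℝ)⁻¹) ^ d) := by
    rw [hf, Polynomial.coeff_C_mul]
    congr 1
    have h1 := Polynomial.coeff_comp_degree_mul_degree (p := G)
      (q := C ((u : ℝ)⁻¹) * Polynomial.X + C (-(v : ℝ) / u)) (by rw [hlin]; norm_num)
    rw [hlin, hGdeg, mul_one, hGlead, Polynomial.leadingCoeff_linear (inv_ne_zero hu0.ne')] at h1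
    exact h1
  have hfe : ∀ t x : ℕ, (t : ℤ) = u * x + v →
      f.eval (t : ℝ) = -α * (((H.F.g l).eval (x : ℤ) : ℤ) : ℝ) := by
    intro t x htx
    rw [hf, Polynomial.eval_mul, Polynomial.eval_C, Polynomial.eval_comp]
    congr 1
    have h1 : (C ((u : ℝ)⁻¹) * Polynomial.X + C (-(v : ℝ) / u)).eval (t : ℝ) =
        ((x : ℤ) : ℝ) := by
      have h2 : (t : ℝ) = u * x + v := by
        have : ((t : ℤ) : ℝ) = ((u * x + v : ℤ) : ℝ) := by rw [htx]
        push_cast at this
        exact this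
      rw [h2]
      simp
      field_simp
      ring
    rw [h1, hG, Polynomial.eval_intCast_map]
    rfl
  -- the weight
  set h : ℕ → ℝ := g2h lam Z u v with hh
  have hval : ∀ t x : ℕ, 1 ≤ x → (t : ℤ) = u * x + v → h t = H.F.wh N x := by
    intro t x hx ht
    exact g2h_val lam Z u hu1 v t x hx ht
  have hV1 : |h 0| ≤ 4 := by
    rw [abs_of_nonneg (g2h_bd lam Z u v 0).1]
    linarith [(g2h_bd lam Z u v 0).2]
  have huZv : 0 ≤ (u : ℝ) * Z + v := by
    have h1 : Z ≤ u * Z := le_mul_of_one_le_left hZ0.le hu1r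
    have h2 := neg_abs_le (v : ℝ)
    linarith
  have hV2 : ∑ y ∈ range ⌊2 * X⌋₊, |h (y + 1) - h y| ≤ 4 := by
    refine (gmi2_tv h (g2h_bd lam Z u v) ⌊(u : ℝ) * Z + v⌋₊ ?_ ?_ _).trans (by norm_num)
    · intro y hy
      apply g2h_up lam Z hlam0 hZ0 u hu1 v y (y + 1) (by omega)
      exact (Nat.le_floor_iff huZv).1 hy
    · intro y hy
      apply g2h_dn lam Z hlam0 hZ1 u hu1 v y (y + 1) (by omega)
      exact (Nat.floor_lt huZv).1 hy
  -- the substitution
  have hsum : Gh2 H N l j q c α = ∑ t ∈ (Icc 1 ⌊2 * X⌋₊).filter (fun t => t ≡ a [MOD (u * q)]),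
      ((thP t * h t : ℝ) : ℂ) * ex (f.eval (t : ℝ)) := by
    unfold Gh2
    rw [← Finset.sum_filter_of_ne (s := (Icc 1 (Hn d N)).filter (fun x => x ≡ c [MOD q]))
        (p := fun x => H.F.wh N x ≠ 0) (by
        intro x _ hne h0
        apply hne
        rw [h0]
        simp),
      ← Finset.sum_filter_of_ne (s := (Icc 1 ⌊2 * X⌋₊).filter (fun t => t ≡ a [MOD (u * q)]))
        (p := fun t => h t ≠ 0) (by
        intro x _ hne h0
        apply hne
        rw [h0]
        simp)]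
    have hfwd : ∀ x ∈ ((Icc 1 (Hn d N)).filter (fun x => x ≡ c [MOD q])).filter
        (fun x => H.F.wh N x ≠ 0), 1 ≤ x ∧ (((u * x + v).toNat : ℕ) : ℤ) = u * x + v := by
      intro x hx
      rw [mem_filter, mem_filter, mem_Icc] at hx
      exact ⟨hx.1.1.1, Int.toNat_of_nonneg (by have := hbig x hx.1.1.1 hx.2; omega)⟩
    have hbwd : ∀ t ∈ ((Icc 1 ⌊2 * X⌋₊).filter (fun t => t ≡ a [MOD (u * q)])).filter
        (fun t => h t ≠ 0), ∃ x : ℕ, 1 ≤ x ∧ (t : ℤ) = u * x + v ∧ x ≡ c [MOD q] ∧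
          (((t : ℤ) - v) / u).toNat = x := by
      intro t ht
      rw [mem_filter, mem_filter, mem_Icc] at ht
      obtain ⟨⟨⟨ht1, ht2⟩, hta⟩, hne⟩ := ht
      have h1 : v + u ≤ (t : ℤ) := by
        by_contra hcon
        exact hne (if_neg hcon)
      have h2 : (t : ℤ) ≡ u * c + v [ZMOD ((u * q : ℕ) : ℤ)] :=
        (Int.natCast_modEq_iff.2 hta).trans hamod
      have h3 : ((u * q : ℕ) : ℤ) ∣ (u * c + v) - t := h2.dvd
      have h4 : (u : ℤ) ∣ (t : ℤ) - v := by
        have h5 : (u : ℤ) ∣ (u * c + v) - t := by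
          refine dvd_trans ?_ h3
          push_cast
          exact dvd_mul_right _ _
        have h6 : (t : ℤ) - v = u * c - ((u * c + v) - t) := by ring
        rw [h6]
        exact dvd_sub (dvd_mul_right _ _) h5
      obtain ⟨x, hx⟩ := h4
      have huz : (0 : ℤ) < u := by exact_mod_cast hu1
      have hx1 : 1 ≤ x := by
        have h7 : (u : ℤ) * 1 ≤ u * x := by linarith
        exact le_of_mul_le_mul_left h7 huz
      obtain ⟨x', rfl⟩ := Int.eq_ofNat_of_zero_le (by omega : 0 ≤ x)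
      refine ⟨x', by exact_mod_cast hx1, by linarith, ?_, ?_⟩
      · rw [← Int.natCast_modEq_iff]
        have h8 : (u : ℤ) * q ∣ u * ((c : ℤ) - x') := by
          have h9 : (u * c + v) - (t : ℤ) = u * ((c : ℤ) - x') := by
            rw [mul_sub, ← hx]
            ring
          rw [← h9]
          exact_mod_cast h3
        have h10 : (q : ℤ) ∣ (c : ℤ) - x' := Int.dvd_of_mul_dvd_mul_left (by omega) h8
        exact Int.modEq_of_dvd h10
      · rw [hx, Int.mul_ediv_cancel_left _ huz.ne', Int.toNat_natCast]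
    refine Finset.sum_nbij' (fun x => (u * x + v).toNat) (fun t => (((t : ℤ) - v) / u).toNat)
      ?_ ?_ ?_ ?_ ?_
    · intro x hx
      obtain ⟨hx1, hxt⟩ := hfwd x hx
      rw [mem_filter, mem_filter, mem_Icc] at hx
      obtain ⟨⟨⟨_, hxH⟩, hxc⟩, hne⟩ := hx
      rw [mem_filter, mem_filter, mem_Icc]
      have hb := hbig x hx1 hne
      refine ⟨⟨⟨by omega, ?_⟩, ?_⟩, ?_⟩
      · apply Nat.le_floor
        have h1 : (((u * x + v).toNat : ℕ) : ℝ) = (u : ℝ) * x + v := by
          rw [← Int.cast_natCast, hxt]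
          push_cast
          rfl
        rw [h1]
        have h2 : (x : ℝ) ≤ Y := by
          refine le_trans ?_ hHY
          exact_mod_cast hxH
        have h3 : (u : ℝ) * x ≤ u * Y := mul_le_mul_of_nonneg_left h2 hu0.le
        have h4 := le_abs_self (v : ℝ)
        linarith
      · rw [← Int.natCast_modEq_iff, hxt]
        refine Int.ModEq.trans ?_ hamod.symm
        apply Int.ModEq.add_right
        have h1 : (x : ℤ) ≡ c [ZMOD (q : ℤ)] := Int.natCast_modEq_iff.2 hxc
        have h2 := Int.ModEq.mul_left' (c := (u : ℤ)) h1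
        push_cast
        exact h2
      · rw [hval _ x hx1 hxt]
        exact hne
    · intro t ht
      obtain ⟨x, hx1, hxt, hxc, hxe⟩ := hbwd t ht
      rw [mem_filter, mem_filter, mem_Icc] at ht
      have hne : H.F.wh N x ≠ 0 := by
        rw [← hval t x hx1 hxt]
        exact ht.2
      rw [hxe, mem_filter, mem_filter, mem_Icc]
      exact ⟨⟨⟨hx1, hlN.1 x hx1 hne⟩, hxc⟩, hne⟩
    · intro x hx
      obtain ⟨hx1, hxt⟩ := hfwd x hx
      have huz : (u : ℤ) ≠ 0 := by omega
      show (((((u * x + v).toNat : ℕ) : ℤ) - v) / u).toNat = x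
      rw [hxt, add_sub_cancel_right, Int.mul_ediv_cancel_left _ huz, Int.toNat_natCast]
    · intro t ht
      obtain ⟨x, hx1, hxt, hxc, hxe⟩ := hbwd t ht
      show ((u : ℤ) * ((((t : ℤ) - v) / u).toNat : ℕ) + v).toNat = t
      rw [hxe, ← hxt, Int.toNat_natCast]
    · intro x hx
      obtain ⟨hx1, hxt⟩ := hfwd x hx
      show ((H.F.wh N x * thP (H.M j x).toNat : ℝ) : ℂ) *
        ex (-α * (((H.F.g l).eval (x : ℤ) : ℤ) : ℝ)) =
        ((thP (u * x + v).toNat * h (u * x + v).toNat : ℝ) : ℂ) *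
          ex (f.eval (((u * x + v).toNat : ℕ) : ℝ))
      rw [hval _ x hx1 hxt, hfe _ x hxt, mul_comm (H.F.wh N x)]
      rfl
  have hR := hX1 X hX1' (u * q) a f huq hQX hacop hfdeg
  rcases hR with hR | hR
  · left
    rw [hsum]
    refine (hR h 4 hV1 hV2).trans ?_
    have h1 : X / ((u * q : ℕ) : ℝ) ≤ 2 * Y / q := by
      rw [hX]
      push_cast
      rw [div_le_div_iff₀ (by positivity) hq0]
      have h2 : ((u : ℝ) + 1) ≤ 2 * u := by linarith
      calc ((u : ℝ) + 1) * Y * q ≤ (2 * u) * Y * q := by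
            apply mul_le_mul_of_nonneg_right _ hq0.le
            exact mul_le_mul_of_nonneg_right h2 hY0.le
        _ = 2 * Y * (u * q) := by ring
    have h2 : (1 / d * L) ^ (A + 1) ≤ Real.log X ^ (A + 1) :=
      pow_le_pow_left₀ (by positivity) hlogX' _
    have h3 : (1 / d * L) ^ (A + 1) = L ^ (A + 1) / (d : ℝ) ^ (A + 1) := by
      rw [← div_pow]
      congr 1
      ring
    rw [h3] at h2
    have hLp : 0 < L ^ (A + 1) / (d : ℝ) ^ (A + 1) := by positivity
    calc 4 * (X / ((u * q : ℕ) : ℝ) / Real.log X ^ (A + 1))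
        ≤ 4 * ((2 * Y / q) / (L ^ (A + 1) / (d : ℝ) ^ (A + 1))) := by
          apply mul_le_mul_of_nonneg_left _ (by norm_num)
          exact div_le_div₀ (by positivity) h1 hLp h2
      _ = (8 * (d : ℝ) ^ (A + 1)) / L * (Y / q / L ^ A) := by
          rw [pow_succ L A]
          field_simp
          ring
      _ ≤ 1 * (Y / q / L ^ A) := by
          apply mul_le_mul_of_nonneg_right _ (by positivity)
          rw [div_le_one (by linarith)]
          exact hL8
      _ = _ := one_mul _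
  · right
    obtain ⟨m, hm, b, hb⟩ := hR
    rw [mem_Icc] at hm
    have hPL : Real.log X ^ B ≤ L ^ B := pow_le_pow_left₀ hlogX0.le hlogX _
    have hmL : m ≤ ⌊L ^ B⌋₊ := hm.2.trans (Nat.floor_le_floor hPL)
    have hm0 : (0 : ℝ) < m := by exact_mod_cast hm.1
    refine ⟨m, mem_Icc.2 ⟨hm.1, hmL⟩, ?_⟩
    have hfact : (0 : ℝ) < (d.factorial : ℝ) := by exact_mod_cast Nat.factorial_pos d
    have ha0 : (1 : ℝ) ≤ (A0.natAbs : ℝ) := by
      exact_mod_cast Int.natAbs_pos.2 hA00
    have ha00 : (0 : ℝ) < (A0.natAbs : ℝ) := by linarith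
    have hccA : ((cc2 H l j * m * q ^ (2 * d) : ℕ) : ℝ) =
        (d.factorial : ℝ) ^ 2 * (A0.natAbs : ℝ) * (u : ℝ) ^ d * m * (q : ℝ) ^ (2 * d) := by
      unfold cc2
      push_cast
      rfl
    have hfin : (u : ℝ) ^ d / (A0.natAbs : ℝ) * |f.coeff d -
        b / ((d.factorial ^ 2 * m * (u * q) ^ (2 * d) : ℕ) : ℝ)| ≤ L ^ B / N := by
      have h1 : (u : ℝ) ^ d / (A0.natAbs : ℝ) ≤ (u + 1 : ℝ) ^ d := by
        refine (div_le_self (by positivity) ha0).trans ?_
        exact pow_le_pow_left₀ hu0.le (by linarith) _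
      have h2 : X ^ d = (u + 1 : ℝ) ^ d * N := by
        rw [hX, mul_pow, hYd]
      calc (u : ℝ) ^ d / (A0.natAbs : ℝ) * |f.coeff d -
            b / ((d.factorial ^ 2 * m * (u * q) ^ (2 * d) : ℕ) : ℝ)|
          ≤ (u + 1 : ℝ) ^ d * (Real.log X ^ B / X ^ d) :=
            mul_le_mul h1 hb (abs_nonneg _) (by positivity)
        _ = Real.log X ^ B / N := by
            rw [h2]
            field_simp
        _ ≤ L ^ B / N := div_le_div_of_nonneg_right hPL hN0.le
    rcases lt_or_gt_of_ne hA00 with hneg | hpos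
    · refine ⟨b, ?_⟩
      have hA0r : (A0 : ℝ) = -(A0.natAbs : ℝ) := by
        have : (A0 : ℤ) = -(A0.natAbs : ℤ) := by omega
        exact_mod_cast this
      have h6 : α - (b : ℝ) / ((cc2 H l j * m * q ^ (2 * d) : ℕ) : ℝ) =
          (u : ℝ) ^ d / (A0.natAbs : ℝ) * (f.coeff d -
            b / ((d.factorial ^ 2 * m * (u * q) ^ (2 * d) : ℕ) : ℝ)) := by
        rw [hccA, hfc, hA0r, gmi2_alg α b _ _ _ _ _ (by positivity : (d.factorial : ℝ) ^ 2 ≠ 0)
          ha00.ne' (by positivity : (u : ℝ) ^ d ≠ 0) hm0.ne'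
          (by positivity : (q : ℝ) ^ (2 * d) ≠ 0), inv_pow]
        congr 3
        push_cast
        ring
      rw [h6, abs_mul, abs_of_pos (by positivity : (0 : ℝ) < (u : ℝ) ^ d / (A0.natAbs : ℝ))]
      exact hfin
    · refine ⟨-b, ?_⟩
      have hA0r : (A0 : ℝ) = (A0.natAbs : ℝ) := by
        rw [← Int.cast_natCast, Int.natAbs_of_nonneg hpos.le]
      have h6 : α - ((-b : ℤ) : ℝ) / ((cc2 H l j * m * q ^ (2 * d) : ℕ) : ℝ) =
          -((u : ℝ) ^ d / (A0.natAbs : ℝ) * (f.coeff d -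
            b / ((d.factorial ^ 2 * m * (u * q) ^ (2 * d) : ℕ) : ℝ))) := by
        rw [hccA, hfc, hA0r, Int.cast_neg, gmi2_alg' α b _ _ _ _ _
          (by positivity : (d.factorial : ℝ) ^ 2 ≠ 0)
          ha00.ne' (by positivity : (u : ℝ) ^ d ≠ 0) hm0.ne'
          (by positivity : (q : ℝ) ^ (2 * d) ≠ 0), inv_pow]
        congr 4
        push_cast
        ring
      rw [h6, abs_neg, abs_mul, abs_of_pos (by positivity : (0 : ℝ) < (u : ℝ) ^ d / (A0.natAbs : ℝ))]
      exact hfin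

end Pool.Agent.HC.E
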