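import Pool.Agent.Lib.MP_0da313_nt.HC.A

set_option autoImplicit false

/-!
The mean value of the number of roots for almost all `n`, from both sides (compare `NC/R/gs.lean`).
-/

namespace Pool.Agent.HC.A

open Finset Filter Topology
open Pool.Agent.TC (wN)
open Pool.Agent.NC (Bn)
open Pool.Agent.NC.A (sl ol)

private theorem hs_gs2_per (q : ℕ) (g : ℕ → ℝ) (hg : ∀ n, g (n + q) = g n)
    (h0 : ∑ n ∈ range q, g n = 0) : ∀ m, ∑ i ∈ range q, g (m + i) = 0 := by
  intro m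
  induction m with
  | zero => simpa using h0
  | succ m ih =>
    have a := Finset.sum_range_succ (fun i => g (m + i)) q
    have b := Finset.sum_range_succ' (fun i => g (m + i)) q
    rw [a, ih, hg m] at b
    simp only [add_zero] at b
    have c : ∑ i ∈ range q, g (m + 1 + i) = ∑ i ∈ range q, g (m + (i + 1)) :=
      Finset.sum_congr rfl fun i _ => by rw [show m + 1 + i = m + (i + 1) by ring]
    rw [c]
    linarith

private theorem hs_gs2_bd (q : ℕ) (hq : 0 < q) (g : ℕ → ℝ) (K : ℝ) (hg : ∀ n, g (n + q) = g n)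
    (h0 : ∑ n ∈ range q, g n = 0) (hK : ∀ n, |g n| ≤ K) :
    ∀ k m, |∑ i ∈ range k, g (m + i)| ≤ K * q := by
  have hK0 : 0 ≤ K := (abs_nonneg _).trans (hK 0)
  intro k
  induction k using Nat.strong_induction_on with
  | _ k ih =>
    intro m
    rcases lt_or_ge k q with h | h
    · refine (Finset.abs_sum_le_sum_abs _ _).trans ?_
      have h1 : ∑ i ∈ range k, |g (m + i)| ≤ ∑ _i ∈ range k, K :=
        Finset.sum_le_sum fun i _ => hK _
      rw [Finset.sum_const, card_range, nsmul_eq_mul] at h1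
      have h2 : (k : ℝ) ≤ q := by exact_mod_cast h.le
      have h3 := mul_le_mul_of_nonneg_right h2 hK0
      linarith
    · obtain ⟨k', rfl⟩ := Nat.exists_eq_add_of_le h
      rw [Finset.sum_range_add, hs_gs2_per q g hg h0 m, zero_add]
      have h1 := ih k' (by omega) (m + q)
      have c : ∑ i ∈ range k', g (m + (q + i)) = ∑ i ∈ range k', g (m + q + i) :=
        Finset.sum_congr rfl fun i _ => by rw [add_assoc]
      rw [c]
      exact h1

private theorem hs_gs2_Ioc (q : ℕ) (hq : 0 < q) (g : ℕ → ℝ) (K : ℝ) (hg : ∀ n, g (n + q) = g n)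
    (h0 : ∑ n ∈ range q, g n = 0) (hK : ∀ n, |g n| ≤ K) (N N' : ℕ) :
    |∑ n ∈ Ioc N N', g n| ≤ K * q := by
  have h1 : Ioc N N' = Ico (N + 1) (N' + 1) := by
    ext x; simp only [mem_Ioc, mem_Ico]; omega
  rw [h1, Finset.sum_Ico_eq_sum_range]
  exact hs_gs2_bd q hq g K hg h0 hK _ _

/-- the second moment -/
private theorem hs_gs2_mom (h2 : Pool.Agent.NC.Q.R_cr) (f : ℕ → ℕ → ℝ) (Qs : Finset ℕ) (K : ℝ) (hK0 : 0 ≤ K)
    (hpr : ∀ p ∈ Qs, p.Prime) (hper : ∀ p ∈ Qs, ∀ n n' : ℕ, n ≡ n' [MOD p] → f p n = f p n')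
    (h0 : ∀ p ∈ Qs, ∑ n ∈ range p, f p n = 0) (hK : ∀ p ∈ Qs, ∀ n, |f p n| ≤ K) (N N' : ℕ) :
    ∑ n ∈ Ioc N N', (∑ p ∈ Qs, f p n / p) ^ 2 ≤
      K ^ 2 * ((N' - N : ℕ) : ℝ) * ∑ p ∈ Qs, ((p : ℝ) ^ 2)⁻¹ + K ^ 2 * (Qs.card : ℝ) ^ 2 := by
  have e1 : ∑ n ∈ Ioc N N', (∑ p ∈ Qs, f p n / p) ^ 2 =
      ∑ p ∈ Qs, ∑ p' ∈ Qs, (∑ n ∈ Ioc N N', f p n * f p' n) / ((p : ℝ) * p') := by
    have e2 : ∀ n, (∑ p ∈ Qs, f p n / p) ^ 2 =
        ∑ p ∈ Qs, ∑ p' ∈ Qs, f p n * f p' n / ((p : ℝ) * p') := by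
      intro n
      rw [pow_two, Finset.sum_mul_sum]
      refine Finset.sum_congr rfl fun p _ => Finset.sum_congr rfl fun p' _ => ?_
      rw [div_mul_div_comm]
    simp only [e2]
    rw [Finset.sum_comm]
    refine Finset.sum_congr rfl fun p _ => ?_
    rw [Finset.sum_comm]
    refine Finset.sum_congr rfl fun p' _ => ?_
    rw [Finset.sum_div]
  have e3 : ∀ p ∈ Qs, ∀ p' ∈ Qs, (∑ n ∈ Ioc N N', f p n * f p' n) / ((p : ℝ) * p') ≤
      (if p = p' then K ^ 2 * ((N' - N : ℕ) : ℝ) * ((p : ℝ) ^ 2)⁻¹ else 0) + K ^ 2 := by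
    intro p hp p' hp'
    have hp0 : (0 : ℝ) < p := by exact_mod_cast (hpr p hp).pos
    have hp'0 : (0 : ℝ) < p' := by exact_mod_cast (hpr p' hp').pos
    have hKK : ∀ n, |f p n * f p' n| ≤ K ^ 2 := by
      intro n
      rw [abs_mul, pow_two]
      exact mul_le_mul (hK p hp n) (hK p' hp' n) (abs_nonneg _) hK0
    by_cases hpp : p = p'
    · subst hpp
      rw [if_pos rfl]
      have h3 : ∑ n ∈ Ioc N N', f p n * f p n ≤ ∑ _n ∈ Ioc N N', K ^ 2 :=
        Finset.sum_le_sum fun n _ => (le_abs_self _).trans (hKK n)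
      rw [Finset.sum_const, Nat.card_Ioc, nsmul_eq_mul] at h3
      have h4 : (∑ n ∈ Ioc N N', f p n * f p n) / ((p : ℝ) * p) ≤
          K ^ 2 * ((N' - N : ℕ) : ℝ) * ((p : ℝ) ^ 2)⁻¹ := by
        rw [div_eq_mul_inv, ← pow_two]
        apply mul_le_mul_of_nonneg_right _ (by positivity)
        linarith
      have : 0 ≤ K ^ 2 := sq_nonneg K
      linarith
    · rw [if_neg hpp, zero_add, div_le_iff₀ (by positivity)]
      have hprod : ∏ x ∈ ({p, p'} : Finset ℕ), x = p * p' := Finset.prod_pair hpp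
      have h3 := h2 {p, p'} (by
        intro x hx
        rw [mem_insert, mem_singleton] at hx
        rcases hx with rfl | rfl
        · exact hpr _ hp
        · exact hpr _ hp') f (by
        intro x hx
        rw [mem_insert, mem_singleton] at hx
        rcases hx with rfl | rfl
        · exact hper _ hp
        · exact hper _ hp')
      rw [hprod, Finset.prod_pair hpp, h0 p hp, zero_mul] at h3
      simp only [Finset.prod_pair hpp] at h3
      have h4 := hs_gs2_Ioc (p * p') (Nat.mul_pos (hpr p hp).pos (hpr p' hp').pos)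
        (fun n => f p n * f p' n) (K ^ 2) (by
          intro n
          rw [hper p hp (n + p * p') n (by simp [Nat.ModEq]),
            hper p' hp' (n + p * p') n (by simp [Nat.ModEq])]) h3 hKK N N'
      have h5 := (le_abs_self _).trans h4
      push_cast at h5
      exact h5
  rw [e1]
  calc ∑ p ∈ Qs, ∑ p' ∈ Qs, (∑ n ∈ Ioc N N', f p n * f p' n) / ((p : ℝ) * p')
      ≤ ∑ p ∈ Qs, ∑ p' ∈ Qs, ((if p = p' then K ^ 2 * ((N' - N : ℕ) : ℝ) * ((p : ℝ) ^ 2)⁻¹
          else 0) + K ^ 2) :=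
        Finset.sum_le_sum fun p hp => Finset.sum_le_sum fun p' hp' => e3 p hp p' hp'
    _ = _ := by
        simp only [Finset.sum_add_distrib, Finset.sum_const, nsmul_eq_mul]
        congr 1
        · rw [Finset.mul_sum]
          refine Finset.sum_congr rfl fun p hp => ?_
          rw [Finset.sum_ite_eq, if_pos hp]
        · ring

theorem p_gs2 : S_gs2 := by
  intro hla hcr ι _ _ D d E F l A
  refine ⟨A + 1, ?_⟩
  intro B1 hB1
  obtain ⟨K1, hK1, hev⟩ := hla ι D d E F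
  obtain ⟨z1, hz1⟩ := eventually_atTop.1 hev
  have hz1' := (hz1 z1 le_rfl).2
  -- growth
  have hlog : Tendsto (fun N : ℕ => Real.log N) atTop atTop :=
    Real.tendsto_log_atTop.comp tendsto_natCast_atTop_atTop
  have g1 : ∀ᶠ N : ℕ in atTop, (z1 : ℝ) + 2 ≤ Real.log N := hlog.eventually_ge_atTop _
  have g2 : ∀ᶠ N : ℕ in atTop, 40000 * (K1 : ℝ) ^ 2 ≤ Real.log N := hlog.eventually_ge_atTop _
  have g3 : ∀ᶠ N : ℕ in atTop, 20000 * (K1 : ℝ) ^ 2 * (Real.log N) ^ A ≤ (N : ℝ) ^ (4 / 5 : ℝ) := by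
    have h1 := (isLittleO_log_rpow_rpow_atTop (A : ℝ) (show (0 : ℝ) < 4 / 5 by norm_num)).def
      (show (0 : ℝ) < 1 / (20000 * (K1 : ℝ) ^ 2) by positivity)
    have h2 := tendsto_natCast_atTop_atTop.eventually h1
    filter_upwards [h2, hlog.eventually_ge_atTop 1, eventually_ge_atTop 1] with N hN hl hN1
    rw [Real.norm_eq_abs, Real.norm_eq_abs, abs_of_nonneg (by positivity),
      abs_of_nonneg (by positivity), Real.rpow_natCast] at hN
    have h3 : (0 : ℝ) < 20000 * (K1 : ℝ) ^ 2 := by positivity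
    rw [one_div, inv_mul_eq_div, le_div_iff₀ h3] at hN
    linarith
  filter_upwards [g1, g2, g3, eventually_ge_atTop 1] with N h1 h2 h3 hN1
  intro z hz
  set L := Real.log N with hL
  set w := wN B1 N with hw
  have hL2 : 2 ≤ L := by
    have : (0 : ℝ) ≤ z1 := Nat.cast_nonneg _
    linarith
  have hL0 : 0 < L := by linarith
  have hN0 : (0 : ℝ) < N := by exact_mod_cast hN1
  have hK10 : (1 : ℝ) ≤ K1 := by exact_mod_cast hK1
  -- size of w
  have hw1 : L ^ (A + 1) / 2 ≤ w := by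
    have a1 : L ^ (A + 1) ≤ L ^ B1 := pow_le_pow_right₀ (by linarith) hB1
    have a2 : L ^ B1 < (w : ℝ) + 1 := by
      rw [hw]
      unfold wN
      exact Nat.lt_floor_add_one _
    have a3 : L ≤ L ^ (A + 1) := by
      calc L = L ^ 1 := (pow_one L).symm
        _ ≤ L ^ (A + 1) := pow_le_pow_right₀ (by linarith) (by omega)
    linarith
  have hw2 : (z1 : ℝ) ≤ w := by
    have a1 : L ≤ L ^ B1 := by
      calc L = L ^ 1 := (pow_one L).symm
        _ ≤ L ^ B1 := pow_le_pow_right₀ (by linarith) (by omega)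
    have a2 : L ^ B1 < (w : ℝ) + 1 := by
      rw [hw]
      unfold wN
      exact Nat.lt_floor_add_one _
    linarith
  have hw3 : z1 ≤ w := by exact_mod_cast hw2
  have hw0 : (0 : ℝ) < w := lt_of_lt_of_le (by positivity) hw1
  have hw0' : w ≠ 0 := by
    intro h
    rw [h] at hw0
    simp at hw0
  set Qs := (Ioc w z).filter Nat.Prime with hQs
  have hQp : ∀ p ∈ Qs, p.Prime ∧ z1 < p := by
    intro p hp
    rw [hQs, mem_filter, mem_Ioc] at hp
    exact ⟨hp.2, lt_of_le_of_lt hw3 hp.1.1⟩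
  have hmom := hs_gs2_mom hcr (fun p n => (ol F n l p : ℝ) - 1) Qs K1 (by positivity)
    (fun p hp => (hQp p hp).1)
    (by
      intro p hp n n' hnn
      rw [(hz1' p (hQp p hp).1 (hQp p hp).2 l).2.1 n n' hnn])
    (by
      intro p hp
      rw [Finset.sum_sub_distrib, Finset.sum_const, card_range, nsmul_eq_mul, mul_one,
        ← Nat.cast_sum, (hz1' p (hQp p hp).1 (hQp p hp).2 l).2.2, sub_self])
    (by
      intro p hp n
      have b1 := (hz1' p (hQp p hp).1 (hQp p hp).2 l).1 n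
      have b2 : ((ol F n l p : ℕ) : ℝ) ≤ K1 := by exact_mod_cast b1
      have b3 : (0 : ℝ) ≤ (ol F n l p : ℕ) := Nat.cast_nonneg _
      rw [abs_le]
      constructor <;> linarith) N (Bn E N)
  -- bound of the right hand side
  have hBn : ((Bn E N - N : ℕ) : ℝ) ≤ N := by
    have : Bn E N - N ≤ N := by
      unfold Bn
      have := Nat.div_le_self N (1000 * E)
      omega
    exact_mod_cast this
  have hinv : ∑ p ∈ Qs, ((p : ℝ) ^ 2)⁻¹ ≤ (w : ℝ)⁻¹ := by
    rcases le_or_gt w z with h | h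
    · calc ∑ p ∈ Qs, ((p : ℝ) ^ 2)⁻¹ ≤ ∑ p ∈ Ioc w z, ((p : ℝ) ^ 2)⁻¹ := by
            apply Finset.sum_le_sum_of_subset_of_nonneg (Finset.filter_subset _ _)
            intro p _ _
            positivity
        _ ≤ (w : ℝ)⁻¹ - (z : ℝ)⁻¹ := sum_Ioc_inv_sq_le_sub hw0' h
        _ ≤ (w : ℝ)⁻¹ := by
            have : (0 : ℝ) ≤ (z : ℝ)⁻¹ := by positivity
            linarith
    · have : Qs = ∅ := by
        rw [hQs, Ioc_eq_empty_of_le h.le, filter_empty]
      rw [this, sum_empty]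
      positivity
  have hcard : (Qs.card : ℝ) ^ 2 ≤ (N : ℝ) ^ (1 / 5 : ℝ) := by
    have a1 : Qs.card ≤ z := by
      calc Qs.card ≤ (Ioc w z).card := Finset.card_filter_le _ _
        _ = z - w := Nat.card_Ioc _ _
        _ ≤ z := Nat.sub_le _ _
    have a2 : (Qs.card : ℝ) ≤ (N : ℝ) ^ (1 / 10 : ℝ) := by
      refine le_trans ?_ hz
      exact_mod_cast a1
    calc (Qs.card : ℝ) ^ 2 ≤ ((N : ℝ) ^ (1 / 10 : ℝ)) ^ 2 :=
          pow_le_pow_left₀ (Nat.cast_nonneg _) a2 2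
      _ = (N : ℝ) ^ (1 / 5 : ℝ) := by
          rw [← Real.rpow_natCast, ← Real.rpow_mul hN0.le]
          norm_num
  have hM : ∑ n ∈ Ioc N (Bn E N), (sl F n w z l) ^ 2 ≤
      (K1 : ℝ) ^ 2 * N * (w : ℝ)⁻¹ + (K1 : ℝ) ^ 2 * (N : ℝ) ^ (1 / 5 : ℝ) := by
    have e : ∑ n ∈ Ioc N (Bn E N), (sl F n w z l) ^ 2 =
        ∑ n ∈ Ioc N (Bn E N), (∑ p ∈ Qs, ((ol F n l p : ℝ) - 1) / p) ^ 2 := rfl
    rw [e]
    refine hmom.trans (add_le_add ?_ ?_)
    · apply mul_le_mul _ hinv (Finset.sum_nonneg fun p _ => by positivity) (by positivity)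
      exact mul_le_mul_of_nonneg_left hBn (by positivity)
    · exact mul_le_mul_of_nonneg_left hcard (by positivity)
  -- Chebyshev
  set X := (Ioc N (Bn E N)).filter (fun n => 1 / 100 < |sl F n w z l|) with hX
  have hcheb : (X.card : ℝ) * (1 / 10000) ≤ ∑ n ∈ Ioc N (Bn E N), (sl F n w z l) ^ 2 := by
    calc (X.card : ℝ) * (1 / 10000) = ∑ _n ∈ X, (1 / 10000 : ℝ) := by
          rw [Finset.sum_const, nsmul_eq_mul]
      _ ≤ ∑ n ∈ X, (sl F n w z l) ^ 2 := by
          apply Finset.sum_le_sum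
          intro n hn
          rw [hX, mem_filter] at hn
          have hn2 := hn.2
          rw [← sq_abs]
          nlinarith [hn2]
      _ ≤ _ := by
          apply Finset.sum_le_sum_of_subset_of_nonneg (Finset.filter_subset _ _)
          intro n _ _
          positivity
  have hwinv : (w : ℝ)⁻¹ ≤ 2 / L ^ (A + 1) := by
    rw [inv_eq_one_div, div_le_div_iff₀ hw0 (by positivity)]
    linarith
  have c1 : 10000 * ((K1 : ℝ) ^ 2 * N * (w : ℝ)⁻¹) ≤ 1 / 2 * (N / L ^ A) := by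
    have d1 : (K1 : ℝ) ^ 2 * N * (w : ℝ)⁻¹ ≤ (K1 : ℝ) ^ 2 * N * (2 / L ^ (A + 1)) :=
      mul_le_mul_of_nonneg_left hwinv (by positivity)
    have d2 : 10000 * ((K1 : ℝ) ^ 2 * N * (2 / L ^ (A + 1))) =
        (20000 * (K1 : ℝ) ^ 2) / L * (N / L ^ A) := by
      rw [pow_succ]
      field_simp
      ring
    have d3 : (20000 * (K1 : ℝ) ^ 2) / L ≤ 1 / 2 := by
      rw [div_le_iff₀ hL0]
      linarith
    have d4 : (20000 * (K1 : ℝ) ^ 2) / L * (N / L ^ A) ≤ 1 / 2 * (N / L ^ A) :=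
      mul_le_mul_of_nonneg_right d3 (by positivity)
    linarith
  have c2 : 10000 * ((K1 : ℝ) ^ 2 * (N : ℝ) ^ (1 / 5 : ℝ)) ≤ 1 / 2 * (N / L ^ A) := by
    have hLA : 0 < L ^ A := by positivity
    have d0 : 1 / 2 * ((N : ℝ) / L ^ A) = (1 / 2 * N) / L ^ A := by ring
    rw [d0, le_div_iff₀ hLA]
    have d1 : (N : ℝ) = (N : ℝ) ^ (1 / 5 : ℝ) * (N : ℝ) ^ (4 / 5 : ℝ) := by
      rw [← Real.rpow_add hN0]
      norm_num
    have d2 : (0 : ℝ) ≤ (N : ℝ) ^ (1 / 5 : ℝ) := by positivity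
    have d3 := mul_le_mul_of_nonneg_left h3 d2
    rw [← d1] at d3
    linarith
  have c3 := hcheb.trans hM
  linarith

end Pool.Agent.HC.A
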