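import Pool.Agent.Lib.MP_0da313_nt.HC.W

set_option autoImplicit false

/-!
Project HC, section W, [HW gw]: the sum over all pairs.
-/

namespace Pool.Agent.HC.W

open Finset Filter Polynomial
open Pool.Agent.SP80 (ex mn)
open Pool.Agent.NC.Wy (norm_ex ex_add conj_ex WP)

namespace Gw

/-- The indicator of `y + s < u`. -/
noncomputable def ind (s u y : ℕ) : ℂ := if y + s < u then 1 else 0

theorem conj_ind (s u y : ℕ) : (starRingEnd ℂ) (ind s u y) = ind s u y := by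
  unfold ind
  split_ifs <;> simp

theorem sum_range_ind (U s u1 u2 : ℕ) (h1 : u1 ≤ U) (g : ℕ → ℂ) :
    ∑ y ∈ range (min u1 u2 - s), g y = ∑ y ∈ range U, ind s u1 y * ind s u2 y * g y := by
  have e : range (min u1 u2 - s) = (range U).filter (fun y => y + s < u1 ∧ y + s < u2) := by
    ext y
    simp only [mem_range, mem_filter]
    omega
  rw [e, sum_filter]
  refine sum_congr rfl fun y _ => ?_
  unfold ind
  by_cases a : y + s < u1 <;> by_cases b : y + s < u2 <;> simp [a, b]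

theorem sum_filter_ind (V s y1 y2 : ℕ) (u : ℕ → ℕ) (g : ℕ → ℂ) :
    ∑ i ∈ (range V).filter (fun i => y1 + s < u i ∧ y2 + s < u i), g i =
      ∑ i ∈ range V, ind s (u i) y1 * ind s (u i) y2 * g i := by
  rw [sum_filter]
  refine sum_congr rfl fun i _ => ?_
  unfold ind
  by_cases a : y1 + s < u i <;> by_cases b : y2 + s < u i <;> simp [a, b]

theorem norm_sq (z : ℂ) : ((‖z‖ ^ 2 : ℝ) : ℂ) = z * (starRingEnd ℂ) z := by
  rw [Complex.mul_conj, Complex.normSq_eq_norm_sq]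

/-- The exchange of the sums. -/
theorem exch (U V s : ℕ) (u : ℕ → ℕ) (hu : ∀ i, u i ≤ U) (c : ℕ → ℝ) (K : ℝ) :
    ∑ i1 ∈ range V, ∑ i2 ∈ range V,
      ‖∑ y ∈ range (min (u i1) (u i2) - s), ex ((y : ℝ) * (K * (c i1 - c i2)))‖ ^ 2 =
    ∑ y1 ∈ range U, ∑ y2 ∈ range U,
      ‖∑ i ∈ (range V).filter (fun i => y1 + s < u i ∧ y2 + s < u i),
        ex (K * c i * ((y1 : ℝ) - y2))‖ ^ 2 := by
  have key : (((∑ i1 ∈ range V, ∑ i2 ∈ range V,
      ‖∑ y ∈ range (min (u i1) (u i2) - s), ex ((y : ℝ) * (K * (c i1 - c i2)))‖ ^ 2 : ℝ)) : ℂ) =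
    ((∑ y1 ∈ range U, ∑ y2 ∈ range U,
      ‖∑ i ∈ (range V).filter (fun i => y1 + s < u i ∧ y2 + s < u i),
        ex (K * c i * ((y1 : ℝ) - y2))‖ ^ 2 : ℝ) : ℂ) := by
    rw [Complex.ofReal_sum, Complex.ofReal_sum]
    simp only [Complex.ofReal_sum, norm_sq]
    have L : ∀ i1 i2 : ℕ, (∑ y ∈ range (min (u i1) (u i2) - s),
          ex ((y : ℝ) * (K * (c i1 - c i2)))) *
        (starRingEnd ℂ) (∑ y ∈ range (min (u i1) (u i2) - s),
          ex ((y : ℝ) * (K * (c i1 - c i2)))) =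
        ∑ y1 ∈ range U, ∑ y2 ∈ range U,
          ind s (u i1) y1 * ind s (u i2) y1 * (ind s (u i1) y2 * ind s (u i2) y2) *
            ex (K * c i1 * ((y1 : ℝ) - y2) + -(K * c i2 * ((y1 : ℝ) - y2))) := by
      intro i1 i2
      rw [sum_range_ind U s (u i1) (u i2) (hu i1), map_sum, sum_mul_sum]
      refine sum_congr rfl fun y1 _ => sum_congr rfl fun y2 _ => ?_
      rw [map_mul, map_mul, conj_ind, conj_ind, conj_ex]
      have e : ex (K * c i1 * ((y1 : ℝ) - y2) + -(K * c i2 * ((y1 : ℝ) - y2))) =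
          ex ((y1 : ℝ) * (K * (c i1 - c i2))) * ex (-((y2 : ℝ) * (K * (c i1 - c i2)))) := by
        rw [← ex_add]
        congr 1
        ring
      rw [e]
      ring
    have R : ∀ y1 y2 : ℕ, (∑ i ∈ (range V).filter (fun i => y1 + s < u i ∧ y2 + s < u i),
          ex (K * c i * ((y1 : ℝ) - y2))) *
        (starRingEnd ℂ) (∑ i ∈ (range V).filter (fun i => y1 + s < u i ∧ y2 + s < u i),
          ex (K * c i * ((y1 : ℝ) - y2))) =
        ∑ i1 ∈ range V, ∑ i2 ∈ range V,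
          ind s (u i1) y1 * ind s (u i2) y1 * (ind s (u i1) y2 * ind s (u i2) y2) *
            ex (K * c i1 * ((y1 : ℝ) - y2) + -(K * c i2 * ((y1 : ℝ) - y2))) := by
      intro y1 y2
      rw [sum_filter_ind, map_sum, sum_mul_sum]
      refine sum_congr rfl fun i1 _ => sum_congr rfl fun i2 _ => ?_
      rw [map_mul, map_mul, conj_ind, conj_ind, conj_ex, ex_add]
      ring
    simp only [L, R]
    -- exchange
    have s1 : ∀ F : ℕ → ℕ → ℕ → ℕ → ℂ,
        ∑ i1 ∈ range V, ∑ i2 ∈ range V, ∑ y1 ∈ range U, ∑ y2 ∈ range U, F i1 i2 y1 y2 =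
        ∑ y1 ∈ range U, ∑ y2 ∈ range U, ∑ i1 ∈ range V, ∑ i2 ∈ range V, F i1 i2 y1 y2 := by
      intro F
      have a1 : ∀ i1, ∑ i2 ∈ range V, ∑ y1 ∈ range U, ∑ y2 ∈ range U, F i1 i2 y1 y2 =
          ∑ y1 ∈ range U, ∑ y2 ∈ range U, ∑ i2 ∈ range V, F i1 i2 y1 y2 := by
        intro i1
        rw [sum_comm]
        exact sum_congr rfl fun y1 _ => sum_comm
      simp only [a1]
      rw [sum_comm]
      exact sum_congr rfl fun y1 _ => sum_comm
    exact s1 _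
  exact_mod_cast key

end Gw

open Gw in
theorem p_gw : S_gw := by
  intro hms hwd k U V φ c u hU hu hWP
  obtain ⟨_, hmono, hsum, hmul, hpow, _, _, _⟩ := hms
  have hk : k + 1 ≤ 2 ^ k := Nat.lt_two_pow_self
  have hpos : (0 : ℝ) ≤ (U : ℝ) := Nat.cast_nonneg U
  -- one pair
  have h1 : ∀ i1 i2, ‖∑ y ∈ range (min (u i1) (u i2)), ex (φ y i1 - φ y i2)‖ ^ (2 ^ (k + 1)) ≤
      2 ^ (2 ^ (k + 1) - 2) * (U : ℝ) ^ (2 ^ (k + 1) - (k + 2)) *
      MS k U (fun s p => ‖∑ y ∈ range (min (u i1) (u i2) - s),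
        ex ((y : ℝ) * (((k + 1).factorial : ℝ) * p * (c i1 - c i2)))‖ ^ 2) 0 1 := by
    intro i1 i2
    have a1 := hwd k (c i1 - c i2) (fun y => φ y i1 - φ y i2) (hWP i1 i2) U
      (min (u i1) (u i2)) hU ((min_le_left _ _).trans (hu i1))
    have a2 := hpow k U 1 (fun s p => ‖∑ y ∈ range (min (u i1) (u i2) - s),
        ex ((y : ℝ) * (((k + 1).factorial : ℝ) * p * (c i1 - c i2)))‖)
        (fun _ _ => norm_nonneg _) 0 1
    have a3 := a2.2
    rw [pow_one] at a3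
    have e0 : ‖∑ y ∈ range (min (u i1) (u i2)), ex (φ y i1 - φ y i2)‖ ^ (2 ^ (k + 1)) =
        (‖∑ y ∈ range (min (u i1) (u i2)), ex (φ y i1 - φ y i2)‖ ^ (2 ^ k)) ^ 2 := by
      rw [← pow_mul, pow_succ]
    rw [e0]
    refine (pow_le_pow_left₀ (pow_nonneg (norm_nonneg _) _) a1 2).trans ?_
    rw [mul_pow, mul_pow, ← pow_mul, ← pow_mul]
    have e1 : (2 ^ k - 1) * 2 = 2 ^ (k + 1) - 2 := by
      rw [pow_succ]
      omega
    have e2 : 2 ^ (k + 1) - (k + 2) = (2 ^ k - (k + 1)) * 2 + k := by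
      rw [pow_succ]
      omega
    rw [e1, e2, pow_add (U : ℝ)]
    have e3 : ∀ m : ℝ, (2 : ℝ) ^ (2 ^ (k + 1) - 2) * ((U : ℝ) ^ ((2 ^ k - (k + 1)) * 2) *
        (U : ℝ) ^ k) * m = 2 ^ (2 ^ (k + 1) - 2) * (U : ℝ) ^ ((2 ^ k - (k + 1)) * 2) *
        ((U : ℝ) ^ k * m) := fun m => by ring
    rw [e3]
    exact mul_le_mul_of_nonneg_left a3 (by positivity)
  have h2 : ∑ i1 ∈ range V, ∑ i2 ∈ range V,
      MS k U (fun s p => ‖∑ y ∈ range (min (u i1) (u i2) - s),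
        ex ((y : ℝ) * (((k + 1).factorial : ℝ) * p * (c i1 - c i2)))‖ ^ 2) 0 1 =
      MS k U (fun s p => ∑ y1 ∈ range U, ∑ y2 ∈ range U,
      ‖∑ i ∈ (range V).filter (fun i => y1 + s < u i ∧ y2 + s < u i),
        ex (((k + 1).factorial : ℝ) * p * c i * ((y1 : ℝ) - y2))‖ ^ 2) 0 1 := by
    have b1 : ∀ i1, ∑ i2 ∈ range V,
        MS k U (fun s p => ‖∑ y ∈ range (min (u i1) (u i2) - s),
          ex ((y : ℝ) * (((k + 1).factorial : ℝ) * p * (c i1 - c i2)))‖ ^ 2) 0 1 =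
        MS k U (fun s p => ∑ i2 ∈ range V, ‖∑ y ∈ range (min (u i1) (u i2) - s),
          ex ((y : ℝ) * (((k + 1).factorial : ℝ) * p * (c i1 - c i2)))‖ ^ 2) 0 1 := by
      intro i1
      exact (hsum k U (range V) (fun i2 s p => ‖∑ y ∈ range (min (u i1) (u i2) - s),
          ex ((y : ℝ) * (((k + 1).factorial : ℝ) * p * (c i1 - c i2)))‖ ^ 2) 0 1).symm
    simp only [b1]
    rw [← hsum k U (range V) (fun i1 s p => ∑ i2 ∈ range V,
      ‖∑ y ∈ range (min (u i1) (u i2) - s),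
          ex ((y : ℝ) * (((k + 1).factorial : ℝ) * p * (c i1 - c i2)))‖ ^ 2) 0 1]
    congr 1
    funext s p
    exact exch U V s u hu c (((k + 1).factorial : ℝ) * p)
  rw [← h2, mul_sum]
  refine sum_le_sum fun i1 _ => ?_
  rw [mul_sum]
  exact sum_le_sum fun i2 _ => h1 i1 i2

end Pool.Agent.HC.W
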