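import Pool.Agent.Lib.MP_0da313_nt.HC.M
import Pool.Agent.Lib.MP_0da313_nt.NC.R.gn

set_option autoImplicit false

/-!
Project HC, piece gx: the general expansion over the integers `x` for which `u x + v` is a prime.
-/

namespace Pool.Agent.HC.M

open Finset Filter Polynomial
open Pool.Agent.MP89da58 (bil pw nn supp part join compat kapD mem_supp)
open Pool.Agent.MT (PJf dvI ZI sp sp_subset disj_sp)
open Pool.Agent.BVall (om PK RepB rhoW)
open Pool.Agent.CM.G (Qd Qd_mem Qd_not_mem mem_sp prod_Qd prod_sp' card_sp' prodn_sp' om_Qd_not_mem)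
open Pool.Agent.NC.Q (prr nu qr od ns_gn_count ns_gn_per ns_gn_om ns_gn_prr)

open Classical in
/-- the sum over the integers satisfying the conditions -/
lemma gx_cls (hcr : NC.Q.R_cr) (T : Finset ℕ) (hT : ∀ p ∈ T, p.Prime) (Q : ℕ → ℤ → Prop)
    (hQ : ∀ p ∈ T, ∀ x y : ℤ, (p : ℤ) ∣ x - y → (Q p x ↔ Q p y)) (u : ℕ) (v : ℤ)
    (hQu : ∀ p ∈ T, ∀ x : ℤ, Q p x → ¬ (p : ℤ) ∣ (u : ℤ) * x + v) (h : ℕ → ℝ) (M : ℕ) (e : ℝ)
    (he : ∀ c : ℕ, IsCoprime ((∏ p ∈ T, p : ℕ) : ℤ) ((u : ℤ) * c + v) →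
      |∑ x ∈ (Icc 1 M).filter (fun x => x ≡ c [MOD ∏ p ∈ T, p]), h x -
      (∑ x ∈ Icc 1 M, h x) * ∏ p ∈ T, (ph u p)⁻¹| ≤ e) :
    |∑ x ∈ Icc 1 M, h x * ∏ p ∈ T, (if Q p (x : ℤ) then (1 : ℝ) else 0) -
      (∑ x ∈ Icc 1 M, h x) * ∏ p ∈ T, (om Q p : ℝ) / ph u p| ≤ e * ∏ p ∈ T, (om Q p : ℝ) := by
  set q : ℕ := ∏ p ∈ T, p with hq
  have hq0 : 0 < q := Finset.prod_pos fun p hp => (hT p hp).pos
  set f : ℕ → ℝ := fun c => ∏ p ∈ T, (if Q p (c : ℤ) then (1 : ℝ) else 0) with hf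
  have hf0 : ∀ c, 0 ≤ f c := fun c => Finset.prod_nonneg fun p _ => by
    split_ifs
    · exact zero_le_one
    · exact le_rfl
  have hfp : ∀ x c : ℕ, x ≡ c [MOD q] → f x = f c := by
    intro x c hxc
    apply Finset.prod_congr rfl
    intro p hp
    have h0 : x ≡ c [MOD p] := hxc.of_dvd (Finset.dvd_prod_of_mem (fun p => p) hp)
    have h1 : (p : ℤ) ∣ (c : ℤ) - x := (Nat.modEq_iff_dvd.1 h0)
    have h2 := hQ p hp c x h1
    simp only [h2]
  have hcop : ∀ c : ℕ, f c ≠ 0 → IsCoprime ((q : ℕ) : ℤ) ((u : ℤ) * c + v) := by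
    intro c hc
    rw [hq]
    push_cast
    apply IsCoprime.prod_left
    intro p hp
    have h1 : Q p (c : ℤ) := by
      by_contra hn
      exact hc (Finset.prod_eq_zero hp (if_neg hn))
    exact (Nat.prime_iff_prime_int.1 (hT p hp)).coprime_iff_not_dvd.2 (hQu p hp _ h1)
  have e1 : ∑ x ∈ Icc 1 M, h x * f x =
      ∑ c ∈ range q, f c * ∑ x ∈ (Icc 1 M).filter (fun x => x ≡ c [MOD q]), h x := by
    have h1 : ∀ x ∈ Icc 1 M, x % q ∈ range q := fun x _ => Finset.mem_range.2 (Nat.mod_lt _ hq0)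
    rw [← Finset.sum_fiberwise_of_maps_to h1]
    apply Finset.sum_congr rfl
    intro c hc
    rw [Finset.mul_sum]
    have h2 : (Icc 1 M).filter (fun x => x % q = c) =
        (Icc 1 M).filter (fun x => x ≡ c [MOD q]) := by
      apply Finset.filter_congr
      intro x _
      rw [Nat.ModEq, Nat.mod_eq_of_lt (Finset.mem_range.1 hc)]
    rw [h2]
    apply Finset.sum_congr rfl
    intro x hx
    rw [hfp x c (Finset.mem_filter.1 hx).2]
    ring
  have hcount := ns_gn_count hcr T hT Q hQ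
  have e2 : (∑ x ∈ Icc 1 M, h x) * ∏ p ∈ T, (om Q p : ℝ) / ph u p =
      ∑ c ∈ range q, f c * ((∑ x ∈ Icc 1 M, h x) * ∏ p ∈ T, (ph u p)⁻¹) := by
    rw [← Finset.sum_mul, hcount, Finset.prod_div_distrib, Finset.prod_inv_distrib]
    ring
  rw [e1, e2, ← Finset.sum_sub_distrib, ← hcount, Finset.mul_sum]
  refine (Finset.abs_sum_le_sum_abs _ _).trans (Finset.sum_le_sum fun c _ => ?_)
  rw [← mul_sub, abs_mul, abs_of_nonneg (hf0 c), mul_comm e]
  by_cases hc : f c = 0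
  · rw [hc, zero_mul]
    show 0 ≤ f c * e
    rw [hc, zero_mul]
  · exact mul_le_mul_of_nonneg_left (he c (hcop c hc)) (hf0 c)

variable {ι : Type} [Fintype ι] [DecidableEq ι] {P : Finset ℕ}

lemma gx_sq (T : Finset ℕ) (hT : ∀ p ∈ T, p.Prime) : Squarefree (∏ p ∈ T, p) := by
  apply Finset.squarefree_prod_of_pairwise_isCoprime
  · intro a ha b hb hab
    show IsRelPrime a b
    rw [← Nat.coprime_iff_isRelPrime]
    exact (Nat.coprime_primes (hT a ha) (hT b hb)).2 hab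
  · intro p hp
    exact (Nat.prime_iff.1 (hT p hp)).squarefree

open Classical in
/-- one pair `(γ, T)` -/
lemma gx_one (hcr : NC.Q.R_cr) {P1 : Finset ℕ} {Dd : PJf P → ι → ℤ → Prop} {Q : ℕ → ℤ → Prop}
    {K0 : ℕ} {Al : ι → Prop} {u : ℕ} {v : ℤ} (hP : ∀ p ∈ P, p.Prime ∧ ¬ p ∣ u)
    (hP1 : ∀ p ∈ P1, p.Prime) (hdis : Disjoint P P1)
    (hD : ∀ (j : PJf P) (l : ι) (x y : ℤ), ((j : ℕ) : ℤ) ∣ x - y → (Dd j l x ↔ Dd j l y))
    (hod : ∀ j l, od Dd j l ≤ K0)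
    (hDu : ∀ (j : PJf P) (l : ι) (y : ℤ), Al l → Dd j l y → ¬ ((j : ℕ) : ℤ) ∣ (u : ℤ) * y + v)
    (hQ : ∀ (p : ℕ) (x y : ℤ), (p : ℤ) ∣ x - y → (Q p x ↔ Q p y))
    (hQu : ∀ (p : ℕ) (x : ℤ), Q p x → ¬ (p : ℤ) ∣ (u : ℤ) * x + v)
    (hom : ∀ p ∈ P1, om Q p ≤ K0)
    (h : ℕ → ℝ) (M : ℕ) (Eq : ℕ → ℝ) (hEq : ∀ q, 0 ≤ Eq q) (Z : ℕ)
    (he : ∀ q c : ℕ, Squarefree q → q ≤ Z → IsCoprime (q : ℤ) ((u : ℤ) * c + v) →
      |∑ x ∈ (Icc 1 M).filter (fun x => x ≡ c [MOD q]), h x -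
      (∑ x ∈ Icc 1 M, h x) * ∏ p ∈ q.primeFactors, (ph u p)⁻¹| ≤ Eq q)
    (T : Finset ℕ) (hT : T ⊆ P1) (γ : PJf P → Option ι) (hγ : ∀ j l, γ j = some l → Al l)
    (hZ : (∏ p ∈ T, p) * nn (fun j : PJf P => (j : ℕ)) (supp γ) ≤ Z) :
    |∑ x ∈ Icc 1 M, (if dvI Dd (x : ℤ) γ then
        h x * ∏ p ∈ T, (if Q p (x : ℤ) then (1 : ℝ) else 0) else 0) -
      (∑ x ∈ Icc 1 M, h x) * (∏ p ∈ T, rhoW u Q p) *
        prr (fun (j : PJf P) l => (od Dd j l : ℝ) / (((j : ℕ) : ℝ) - 1)) γ| ≤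
      (K0 : ℝ) ^ (T.card + (supp γ).card) *
        Eq ((∏ p ∈ T, p) * nn (fun j : PJf P => (j : ℕ)) (supp γ)) := by
  have hd : Disjoint T (sp γ) := disj_sp ((hdis.symm).mono_left hT) γ
  have hTp2 : ∀ p ∈ T ∪ sp γ, p.Prime := by
    intro p hp
    rw [Finset.mem_union] at hp
    rcases hp with hp | hp
    · exact hP1 p (hT hp)
    · exact (hP p (sp_subset γ hp)).1
  have hQdu : ∀ p ∈ T ∪ sp γ, ∀ x : ℤ, Qd Dd Q γ p x → ¬ (p : ℤ) ∣ (u : ℤ) * x + v := by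
    intro p _ x hx
    by_cases hp : p ∈ sp γ
    · obtain ⟨h1, l, h2⟩ := mem_sp.1 hp
      have e1 := Qd_mem (D := Dd) (Q := Q) ⟨p, h1⟩ h2 x
      rw [show ((⟨p, h1⟩ : PJf P) : ℕ) = p from rfl] at e1
      exact hDu ⟨p, h1⟩ l x (hγ _ _ h2) (e1.1 hx)
    · exact hQu p x ((Qd_not_mem hp x).1 hx)
  have hpf : (∏ p ∈ T ∪ sp γ, p).primeFactors = T ∪ sp γ := Nat.primeFactors_prod hTp2
  have h2 := gx_cls hcr (T ∪ sp γ) hTp2 (Qd Dd Q γ)
    (fun p _ => ns_gn_per hD hQ p) u v hQdu h M (Eq (∏ p ∈ T ∪ sp γ, p))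
    (fun c hc => by
      have h3 := he (∏ p ∈ T ∪ sp γ, p) c (gx_sq _ hTp2) (by rw [prodn_sp' hd]; exact hZ) hc
      rwa [hpf] at h3)
  have e4 : ∀ p ∈ T, (om (Qd Dd Q γ) p : ℝ) / ph u p = rhoW u Q p := by
    intro p hp
    rw [om_Qd_not_mem (fun h => (Finset.disjoint_left.1 hd) hp h)]
    rfl
  have e6 : ∀ j ∈ supp γ, (om (Qd Dd Q γ) (j : ℕ) : ℝ) / ph u (j : ℕ) =
      (γ j).elim 1 (fun l => (od Dd j l : ℝ) / (((j : ℕ) : ℝ) - 1)) := by
    intro j hj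
    obtain ⟨l, hl⟩ := Option.ne_none_iff_exists'.1 (mem_supp.1 hj)
    obtain ⟨hjp, hju⟩ := hP j.1 j.2
    have h5 : ph u (j : ℕ) = ((j : ℕ) : ℝ) - 1 := by
      unfold ph
      rw [if_neg hju, Nat.cast_sub hjp.one_le, Nat.cast_one]
    rw [ns_gn_om j hl, hl, h5]
    rfl
  simp only [prod_Qd hd] at h2
  rw [prod_sp' hd (fun p => (om (Qd Dd Q γ) p : ℝ) / ph u p), Finset.prod_congr rfl e4,
    Finset.prod_congr rfl e6] at h2
  rw [ns_gn_prr]
  have e8 : ∀ n : ℕ, (if dvI Dd (n : ℤ) γ then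
      h n * ∏ p ∈ T, (if Q p (n : ℤ) then (1 : ℝ) else 0) else 0) =
      h n * ((∏ p ∈ T, (if Q p (n : ℤ) then (1 : ℝ) else 0)) *
        (if dvI Dd (n : ℤ) γ then (1 : ℝ) else 0)) := by
    intro n
    split_ifs <;> ring
  simp only [e8]
  rw [mul_assoc]
  refine h2.trans ?_
  rw [mul_comm (Eq _), prodn_sp' hd]
  refine mul_le_mul_of_nonneg_right ?_ (hEq _)
  rw [← card_sp' hd, ← Finset.prod_const]
  apply Finset.prod_le_prod
  · intro p _
    positivity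
  · intro p hp
    rw [Finset.mem_union] at hp
    rcases hp with hp | hp
    · rw [om_Qd_not_mem (fun h => (Finset.disjoint_left.1 hd) hp h)]
      exact_mod_cast hom p (hT hp)
    · obtain ⟨h1, l, h2⟩ := mem_sp.1 hp
      have h3 := ns_gn_om (D := Dd) (Q := Q) ⟨p, h1⟩ h2
      rw [show ((⟨p, h1⟩ : PJf P) : ℕ) = p from rfl] at h3
      rw [h3]
      exact_mod_cast hod _ _

open Classical in
theorem p_gx : S_gx := by
  intro hnu hcr hes1 ι _ _ _ P P1 Dd Q Al u v K0 hu hP hP1 hdis hK0 hD hcop hod hDu hQ hQu hom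
    Y0 Ff hF g B Y hB hY hAl h M Eq hEq he
  obtain ⟨c, hc1, hc2, hc3⟩ := hF
  obtain ⟨n1, n2, n3, _, n5⟩ := hnu ι (PJf P) g
  have e1 := n1 Dd hcop (Icc 1 M)
    (fun x => h x * Ff (fun p => if Q p (x : ℤ) then (1 : ℝ) else 0))
  rw [e1]
  unfold qr
  rw [Finset.mul_sum, ← Finset.sum_sub_distrib]
  set Sh : ℝ := ∑ x ∈ Icc 1 M, h x with hSh
  set R : PJf P → ι → ℝ := fun (j : PJf P) l => (od Dd j l : ℝ) / (((j : ℕ) : ℝ) - 1) with hR
  -- the error for one support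
  set E1 : Finset (PJf P) → ℝ := fun A =>
    ∑ T ∈ P1.powerset.filter (fun T => ∏ p ∈ T, p ≤ Y0),
      (K0 : ℝ) ^ (T.card + A.card) * Eq ((∏ p ∈ T, p) * nn (fun j : PJf P => (j : ℕ)) A) with hE1
  have hE10 : ∀ A, 0 ≤ E1 A := fun A => Finset.sum_nonneg fun T _ =>
    mul_nonneg (by positivity) (hEq _)
  have hone : ∀ γ : PJf P → Option ι, (∀ j l, γ j = some l → Al l) →
      nn (fun j : PJf P => (j : ℕ)) (supp γ) ≤ Y * Y →
      |(∑ x ∈ Icc 1 M, if dvI Dd (x : ℤ) γ then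
          h x * Ff (fun p => if Q p (x : ℤ) then (1 : ℝ) else 0) else 0) -
        Sh * Ff (fun p => rhoW u Q p) * prr R γ| ≤ E1 (supp γ) := by
    intro γ hγ hγY
    have f1 : (∑ x ∈ Icc 1 M, if dvI Dd (x : ℤ) γ then
          h x * Ff (fun p => if Q p (x : ℤ) then (1 : ℝ) else 0) else 0) =
        ∑ T ∈ P1.powerset, c T * ∑ x ∈ Icc 1 M, (if dvI Dd (x : ℤ) γ then
          h x * ∏ p ∈ T, (if Q p (x : ℤ) then (1 : ℝ) else 0) else 0) := by
      simp only [Finset.mul_sum]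
      rw [Finset.sum_comm]
      apply Finset.sum_congr rfl
      intro n _
      rw [hc1]
      split_ifs
      · rw [Finset.mul_sum]
        apply Finset.sum_congr rfl
        intro T _
        ring
      · simp
    have f2 : Sh * Ff (fun p => rhoW u Q p) * prr R γ =
        ∑ T ∈ P1.powerset, c T * (Sh * (∏ p ∈ T, rhoW u Q p) * prr R γ) := by
      rw [hc1, Finset.mul_sum, Finset.sum_mul]
      apply Finset.sum_congr rfl
      intro T _
      ring
    rw [f1, f2, ← Finset.sum_sub_distrib]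
    refine (Finset.abs_sum_le_sum_abs _ _).trans ?_
    simp only [hE1]
    rw [Finset.sum_filter]
    refine Finset.sum_le_sum fun T hT => ?_
    rw [← mul_sub, abs_mul]
    by_cases hcT : c T = 0
    · rw [hcT, abs_zero, zero_mul]
      split_ifs
      · exact mul_nonneg (by positivity) (hEq _)
      · exact le_rfl
    · rw [if_pos (hc3 T hT hcT)]
      have g1 := gx_one hcr hP hP1 hdis hD hod hDu hQ hQu hom h M Eq hEq (Y * Y * Y0) he T
        (Finset.mem_powerset.1 hT) γ hγ (by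
          rw [mul_comm]
          exact Nat.mul_le_mul hγY (hc3 T hT hcT))
      calc |c T| * _ ≤ 1 * ((K0 : ℝ) ^ (T.card + (supp γ).card) *
            Eq ((∏ p ∈ T, p) * nn (fun j : PJf P => (j : ℕ)) (supp γ))) :=
            mul_le_mul (hc2 T) g1 (abs_nonneg _) zero_le_one
        _ = _ := one_mul _
  -- the sum over `γ`
  have hsum : |∑ γ : PJf P → Option ι,
      (nu g γ * (∑ x ∈ Icc 1 M, if dvI Dd (x : ℤ) γ then
          h x * Ff (fun p => if Q p (x : ℤ) then (1 : ℝ) else 0) else 0) -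
        Sh * Ff (fun p => rhoW u Q p) * (nu g γ * prr R γ))| ≤
      B ^ 2 * ∑ γ : PJf P → Option ι, (fun A : Finset (PJf P) =>
        if nn (fun j : PJf P => (j : ℕ)) A ≤ Y * Y then (3 : ℝ) ^ A.card * E1 A else 0)
          (supp γ) := by
    refine (Finset.abs_sum_le_sum_abs _ _).trans ?_
    rw [Finset.mul_sum]
    refine Finset.sum_le_sum fun γ _ => ?_
    have g1 : nu g γ * (∑ x ∈ Icc 1 M, if dvI Dd (x : ℤ) γ then
          h x * Ff (fun p => if Q p (x : ℤ) then (1 : ℝ) else 0) else 0) -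
        Sh * Ff (fun p => rhoW u Q p) * (nu g γ * prr R γ) =
        nu g γ * ((∑ x ∈ Icc 1 M, if dvI Dd (x : ℤ) γ then
          h x * Ff (fun p => if Q p (x : ℤ) then (1 : ℝ) else 0) else 0) -
        Sh * Ff (fun p => rhoW u Q p) * prr R γ) := by ring
    rw [g1, abs_mul]
    beta_reduce
    by_cases h0 : nu g γ = 0
    · rw [h0, abs_zero, zero_mul]
      refine mul_nonneg (sq_nonneg B) ?_
      split_ifs
      · exact mul_nonneg (by positivity) (hE10 _)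
      · exact le_rfl
    · obtain ⟨α, β, hα, hβ, hs, hαβ⟩ := n3 γ h0
      have hp1 : ∀ j : PJf P, 1 ≤ (j : ℕ) := fun j => (hP j.1 j.2).1.one_le
      have hnn : nn (fun j : PJf P => (j : ℕ)) (supp γ) ≤ Y * Y := by
        rw [hs]
        exact (Pool.Agent.MP89da58.nn_union_le hp1 _ _).trans (Nat.mul_le_mul (hY _ hα) (hY _ hβ))
      have hγ : ∀ j l, γ j = some l → Al l := by
        intro j l hl
        rcases hαβ j l hl with h' | h'
        · exact hAl α hα j l h'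
        · exact hAl β hβ j l h'
      rw [if_pos hnn]
      calc |nu g γ| * _ ≤ (B ^ 2 * 3 ^ (supp γ).card) * E1 (supp γ) :=
            mul_le_mul (n2 B hB γ) (hone γ hγ hnn) (abs_nonneg _) (by positivity)
        _ = _ := by ring
  refine hsum.trans ?_
  rw [n5 (fun A : Finset (PJf P) =>
        if nn (fun j : PJf P => (j : ℕ)) A ≤ Y * Y then (3 : ℝ) ^ A.card * E1 A else 0)]
  have hι : 1 ≤ Fintype.card ι := Fintype.card_pos
  have h3 := hes1 P P1 (fun p hp => (hP p hp).1) hP1 (3 * Fintype.card ι) K0 Y Y0 (by omega) hK0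
    Eq hEq
  rw [show 2 * (3 * Fintype.card ι) * K0 = 6 * Fintype.card ι * K0 by ring] at h3
  have h4 : ∑ A : Finset (PJf P), (Fintype.card ι : ℝ) ^ A.card *
      (if nn (fun j : PJf P => (j : ℕ)) A ≤ Y * Y then (3 : ℝ) ^ A.card * E1 A else 0) =
      (1 / 3) * ∑ a ∈ (univ : Finset (Finset (PJf P))).filter
        (fun a => nn (fun j : PJf P => (j : ℕ)) a ≤ Y * Y),
      ((3 * Fintype.card ι : ℕ) : ℝ) ^ a.card *
        ∑ T ∈ P1.powerset.filter (fun T => ∏ p ∈ T, p ≤ Y0 ∧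
          Disjoint T (a.map (Function.Embedding.subtype _))),
          3 * ((K0 : ℝ) ^ (T.card + a.card) *
            Eq ((∏ p ∈ T, p) * nn (fun j : PJf P => (j : ℕ)) a)) := by
    rw [Finset.sum_filter, Finset.mul_sum]
    apply Finset.sum_congr rfl
    intro A _
    split_ifs
    · have h5 : P1.powerset.filter (fun T => ∏ p ∈ T, p ≤ Y0 ∧
          Disjoint T (A.map (Function.Embedding.subtype _))) =
          P1.powerset.filter (fun T => ∏ p ∈ T, p ≤ Y0) := by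
        apply Finset.filter_congr
        intro T hT
        constructor
        · intro h'
          exact h'.1
        · intro h'
          exact ⟨h', ((hdis.symm).mono_left (Finset.mem_powerset.1 hT)).mono_right
            (Finset.map_subtype_subset _)⟩
      rw [h5, ← Finset.mul_sum]
      simp only [hE1]
      push_cast
      rw [mul_pow]
      ring
    · simp
  rw [h4]
  have hsq : 0 ≤ B ^ 2 := sq_nonneg B
  have h6 : (1 / 3 : ℝ) * ∑ a ∈ (univ : Finset (Finset (PJf P))).filter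
        (fun a => nn (fun j : PJf P => (j : ℕ)) a ≤ Y * Y),
      ((3 * Fintype.card ι : ℕ) : ℝ) ^ a.card *
        ∑ T ∈ P1.powerset.filter (fun T => ∏ p ∈ T, p ≤ Y0 ∧
          Disjoint T (a.map (Function.Embedding.subtype _))),
          3 * ((K0 : ℝ) ^ (T.card + a.card) *
            Eq ((∏ p ∈ T, p) * nn (fun j : PJf P => (j : ℕ)) a)) ≤
      ∑ q ∈ (Icc 1 (Y * Y * Y0)).filter Squarefree,
        ((6 * Fintype.card ι * K0 : ℕ) : ℝ) ^ q.primeFactors.card * Eq q := by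
    linarith [h3]
  have h7 : 0 ≤ ∑ q ∈ (Icc 1 (Y * Y * Y0)).filter Squarefree,
      ((6 * Fintype.card ι * K0 : ℕ) : ℝ) ^ q.primeFactors.card * Eq q :=
    Finset.sum_nonneg fun q _ => mul_nonneg (by positivity) (hEq _)
  calc B ^ 2 * _ ≤ B ^ 2 * ∑ q ∈ (Icc 1 (Y * Y * Y0)).filter Squarefree,
        ((6 * Fintype.card ι * K0 : ℕ) : ℝ) ^ q.primeFactors.card * Eq q :=
        mul_le_mul_of_nonneg_left h6 hsq
    _ ≤ 3 * B ^ 2 * ∑ q ∈ (Icc 1 (Y * Y * Y0)).filter Squarefree,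
        ((6 * Fintype.card ι * K0 : ℕ) : ℝ) ^ q.primeFactors.card * Eq q := by
        have h9 := mul_nonneg hsq h7
        linarith

end Pool.Agent.HC.M
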