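import Pool.Agent.Lib.MP_0da313_nt.HC.W
import Mathlib.NumberTheory.Chebyshev

set_option autoImplicit false

/-!
Project HC, piece hw: the primes with a weight of bounded variation, by Abel summation.
-/

namespace Pool.Agent.HC.W

open Finset Filter Polynomial
open ArithmeticFunction (vonMangoldt)
open Pool.Agent.CH (thP)
open Pool.Agent.SP80 (ex mn)

/-- Abel summation -/
private theorem hw_abel (x : ℕ → ℂ) (g : ℕ → ℝ) (N : ℕ) :
    ∑ n ∈ Icc 1 N, x n * (g n : ℂ) =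
      (∑ m ∈ Icc 1 N, x m) * (g N : ℂ) +
        ∑ n ∈ range N, (∑ m ∈ Icc 1 n, x m) * ((g n - g (n + 1) : ℝ) : ℂ) := by
  induction N with
  | zero => simp
  | succ N ih =>
    rw [sum_Icc_succ_top (by omega), ih, sum_Icc_succ_top (by omega), sum_range_succ]
    push_cast
    ring

private theorem hw_abel_le (x : ℕ → ℂ) (g : ℕ → ℝ) (r V : ℝ) (N : ℕ) (hr : 0 ≤ r)
    (hx : ∀ n ≤ N, ‖∑ m ∈ Icc 1 n, x m‖ ≤ r) (h0 : |g 0| ≤ V)
    (hV : ∑ n ∈ range N, |g (n + 1) - g n| ≤ V) :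
    ‖∑ n ∈ Icc 1 N, x n * (g n : ℂ)‖ ≤ 3 * V * r := by
  rw [hw_abel]
  refine (norm_add_le _ _).trans ?_
  have hgN : |g N| ≤ 2 * V := by
    have e1 : g N = g 0 + ∑ y ∈ range N, (g (y + 1) - g y) := by
      rw [Finset.sum_range_sub]
      ring
    rw [e1]
    refine (abs_add_le _ _).trans ?_
    have e2 := (Finset.abs_sum_le_sum_abs (fun y => g (y + 1) - g y) (range N)).trans hV
    linarith
  have h1 : ‖(∑ m ∈ Icc 1 N, x m) * (g N : ℂ)‖ ≤ r * (2 * V) := by
    rw [norm_mul, Complex.norm_real, Real.norm_eq_abs]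
    exact mul_le_mul (hx N le_rfl) hgN (abs_nonneg _) hr
  have h2 : ‖∑ n ∈ range N, (∑ m ∈ Icc 1 n, x m) * ((g n - g (n + 1) : ℝ) : ℂ)‖ ≤
      r * V := by
    refine le_trans ?_ (mul_le_mul_of_nonneg_left hV hr)
    rw [mul_sum]
    refine (norm_sum_le _ _).trans (sum_le_sum fun n hn => ?_)
    rw [norm_mul, Complex.norm_real, Real.norm_eq_abs, abs_sub_comm]
    exact mul_le_mul_of_nonneg_right (hx n (mem_range.1 hn).le) (abs_nonneg _)
  linarith

private theorem hw_th (t : ℕ) : 0 ≤ vonMangoldt t - thP t := by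
  unfold thP
  split_ifs with h
  · rw [ArithmeticFunction.vonMangoldt_apply_prime h, sub_self]
  · rw [sub_zero]
    exact ArithmeticFunction.vonMangoldt_nonneg

private theorem hw_pp (Y : ℕ) (hY : 1 ≤ Y) :
    ∑ t ∈ Icc 1 Y, (vonMangoldt t - thP t) ≤ 2 * Real.sqrt Y * Real.log Y := by
  have h1 : (1 : ℝ) ≤ (Y : ℝ) := by exact_mod_cast hY
  refine le_trans (le_of_eq ?_) (Chebyshev.psi_sub_theta_le h1)
  rw [Chebyshev.psi_sub_theta_eq_sum_not_prime, Nat.floor_natCast, sum_filter]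
  have h2 : Icc 1 Y = Ioc 0 Y := by
    ext t
    simp only [mem_Icc, mem_Ioc]
    omega
  rw [h2]
  refine sum_congr rfl fun t _ => ?_
  unfold thP
  split_ifs with h
  · rw [ArithmeticFunction.vonMangoldt_apply_prime h, sub_self]
  · rw [sub_zero]

private theorem hw_ev (A : ℕ) : ∀ᶠ X : ℝ in atTop,
    8 * (Real.log X) ^ (A + 2) ≤ X ^ (249 / 500 : ℝ) := by
  have h := (isLittleO_log_rpow_rpow_atTop ((A + 2 : ℕ) : ℝ)
    (by norm_num : (0 : ℝ) < 249 / 500)).bound (by norm_num : (0 : ℝ) < 1 / 8)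
  filter_upwards [h, eventually_ge_atTop (1 : ℝ)] with X hX h1
  rw [Real.rpow_natCast, Real.norm_of_nonneg (pow_nonneg (Real.log_nonneg h1) _),
    Real.norm_of_nonneg (Real.rpow_nonneg (by linarith) _)] at hX
  linarith

private theorem hw_norm_ex (x : ℝ) : ‖ex x‖ = 1 := by
  unfold Pool.Agent.SP80.ex
  exact Complex.norm_exp_ofReal_mul_I _

theorem p_hw : S_hw := by
  intro hLa d A hd
  obtain ⟨B, hB⟩ := hLa d (A + 1) hd
  refine ⟨B, ?_⟩
  have hlog : ∀ᶠ X : ℝ in atTop, (6 : ℝ) ≤ Real.log X :=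
    Real.tendsto_log_atTop.eventually_ge_atTop 6
  filter_upwards [hB, hw_ev A, hlog, eventually_ge_atTop (2 : ℝ)] with X g1 g3 g4 g5
  intro Q a f hQ hQX hcop hf
  by_cases hM : Maj d B X Q f
  · exact Or.inr hM
  left
  intro h V h0 hV
  have hX0 : (0 : ℝ) < X := by linarith
  have hL1 : (1 : ℝ) ≤ Real.log X := by linarith
  have hQ0 : (0 : ℝ) < Q := by exact_mod_cast hQ
  set L := Real.log X with hLdef
  have hL0 : 0 < L := by linarith
  set r : ℝ := X / Q / L ^ (A + 1) with hr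
  have hr0 : 0 ≤ r := by positivity
  -- the prime powers
  have hpw : ∀ Y : ℕ, (Y : ℝ) ≤ 2 * X → ∑ t ∈ Icc 1 Y, (vonMangoldt t - thP t) ≤ r := by
    intro Y hY
    rcases Nat.eq_zero_or_pos Y with rfl | hY0
    · simpa using hr0
    have hY1 : (1 : ℝ) ≤ Y := by exact_mod_cast hY0
    refine (hw_pp Y hY0).trans ?_
    have e1 : Real.sqrt Y ≤ 2 * Real.sqrt X := by
      rw [show (2 : ℝ) * Real.sqrt X = Real.sqrt (4 * X) by
        rw [Real.sqrt_mul (by norm_num), show (4 : ℝ) = 2 ^ 2 by norm_num,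
          Real.sqrt_sq (by norm_num)]]
      exact Real.sqrt_le_sqrt (by linarith)
    have e2 : Real.log Y ≤ 2 * L := by
      have h := Real.log_le_log (by linarith) (hY.trans (mul_le_mul_of_nonneg_right g5 hX0.le))
      rw [Real.log_mul hX0.ne' hX0.ne'] at h
      linarith
    have e3 : 0 ≤ Real.log Y := Real.log_nonneg hY1
    have e4 : 2 * Real.sqrt Y * Real.log Y ≤ 8 * Real.sqrt X * L := by
      have := mul_le_mul e1 e2 e3 (by positivity)
      nlinarith
    refine e4.trans ?_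
    have e5 : X ^ (499 / 500 : ℝ) ≤ X / Q := by
      rw [le_div_iff₀ hQ0]
      calc X ^ (499 / 500 : ℝ) * Q ≤ X ^ (499 / 500 : ℝ) * X ^ (1 / 500 : ℝ) :=
            mul_le_mul_of_nonneg_left hQX (Real.rpow_nonneg hX0.le _)
        _ = X := by
            rw [← Real.rpow_add hX0]
            norm_num
    rw [hr, le_div_iff₀ (by positivity)]
    refine le_trans ?_ e5
    have e6 : X ^ (499 / 500 : ℝ) = Real.sqrt X * X ^ (249 / 500 : ℝ) := by
      rw [Real.sqrt_eq_rpow, ← Real.rpow_add hX0]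
      norm_num
    rw [e6]
    calc 8 * Real.sqrt X * L * L ^ (A + 1) = Real.sqrt X * (8 * L ^ (A + 2)) := by ring
      _ ≤ _ := mul_le_mul_of_nonneg_left g3 (Real.sqrt_nonneg _)
  -- the partial sums
  have hpar : ∀ n ≤ ⌊2 * X⌋₊, ‖∑ t ∈ Icc 1 n, (if t ≡ a [MOD Q] then
      (thP t : ℂ) * ex (f.eval (t : ℝ)) else 0)‖ ≤ 2 * r := by
    intro Y hY
    have hY2 : (Y : ℝ) ≤ 2 * X :=
      le_trans (by exact_mod_cast hY) (Nat.floor_le (by linarith))
    have a1 := (g1 Q a Y f hQ hQX hcop hf hY2).resolve_right hM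
    have a3 : ‖∑ t ∈ (Icc 1 Y).filter (fun t => t ≡ a [MOD Q]),
        ((vonMangoldt t - thP t : ℝ) : ℂ) * ex (f.eval (t : ℝ))‖ ≤ r := by
      refine (norm_sum_le _ _).trans (le_trans ?_ (hpw Y hY2))
      refine le_trans (sum_le_sum (g := fun t => vonMangoldt t - thP t) fun t _ => ?_)
        (sum_le_sum_of_subset_of_nonneg (filter_subset _ _) fun t _ _ => hw_th t)
      rw [norm_mul, hw_norm_ex, mul_one, Complex.norm_real, Real.norm_of_nonneg (hw_th t)]
    rw [← sum_filter]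
    have a4 : ∑ t ∈ (Icc 1 Y).filter (fun t => t ≡ a [MOD Q]),
        (thP t : ℂ) * ex (f.eval (t : ℝ)) =
        ∑ t ∈ (Icc 1 Y).filter (fun t => t ≡ a [MOD Q]),
          (vonMangoldt t : ℂ) * ex (f.eval (t : ℝ)) -
        ∑ t ∈ (Icc 1 Y).filter (fun t => t ≡ a [MOD Q]),
          ((vonMangoldt t - thP t : ℝ) : ℂ) * ex (f.eval (t : ℝ)) := by
      rw [← sum_sub_distrib]
      refine sum_congr rfl fun t _ => ?_
      push_cast
      ring
    rw [a4]
    refine (norm_sub_le _ _).trans ?_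
    linarith
  have habel := hw_abel_le (fun t => if t ≡ a [MOD Q] then
      (thP t : ℂ) * ex (f.eval (t : ℝ)) else 0) h (2 * r) V ⌊2 * X⌋₊ (by positivity) hpar h0 hV
  have hES : ∑ t ∈ (Icc 1 ⌊2 * X⌋₊).filter (fun t => t ≡ a [MOD Q]),
      ((thP t * h t : ℝ) : ℂ) * ex (f.eval (t : ℝ)) =
      ∑ n ∈ Icc 1 ⌊2 * X⌋₊, (if n ≡ a [MOD Q] then
        (thP n : ℂ) * ex (f.eval (n : ℝ)) else 0) * (h n : ℂ) := by
    rw [sum_filter]
    refine sum_congr rfl fun t _ => ?_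
    split_ifs
    · push_cast
      ring
    · rw [zero_mul]
  rw [hES]
  refine habel.trans ?_
  have hV0 : 0 ≤ V := (abs_nonneg _).trans h0
  have hfin : 3 * V * (2 * r) = 6 / L * (V * (X / Q / L ^ A)) := by
    rw [hr]
    field_simp
    ring
  rw [hfin]
  have h6 : 6 / L ≤ 1 := by
    rw [div_le_one hL0]
    exact g4
  have hpos : 0 ≤ V * (X / Q / L ^ A) := by positivity
  calc 6 / L * (V * (X / Q / L ^ A)) ≤ 1 * (V * (X / Q / L ^ A)) :=
        mul_le_mul_of_nonneg_right h6 hpos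
    _ = V * (X / Q / L ^ A) := one_mul _

end Pool.Agent.HC.W
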