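import Pool.Agent.Lib.MP_0da313_nt.HC.A
import Pool.Agent.Lib.MP_0da313_nt.NC.R.la

set_option autoImplicit false

/-!
[HC la2] The local densities of the family with both kinds of members.
-/

namespace Pool.Agent.HC.A

open Finset Filter Polynomial
open Pool.Agent.MT (PJf)
open Pool.Agent.BVall (om)
open Pool.Agent.NC.Q (od)
open Pool.Agent.NC.A (Ld Cm ns_la_nd ns_la_one ns_la_dvd_n ns_la_dvd_y ns_la_few ns_la_sum ns_la_cm
  ns_la_mem_ol ol)
open Pool.Agent.HC (Fam2 Cm2 DN2 rn2 rp2)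

variable {ι κ : Type} [Fintype ι] [DecidableEq ι] [Fintype κ] [DecidableEq κ] {D d E : ℕ}

/-- periodicity in `n` -/
lemma la2_dvd_n (H : Fam2 ι κ D d E) (n n' p : ℕ) (h : n ≡ n' [MOD p]) (s : ι ⊕ κ) (y : ℤ) :
    (p : ℤ) ∣ H.L2 n s y ↔ (p : ℤ) ∣ H.L2 n' s y := by
  cases s with
  | inl l => exact ns_la_dvd_n H.F n n' p h l y
  | inr j => exact Iff.rfl

/-- periodicity in `y` -/
lemma la2_dvd_y (H : Fam2 ι κ D d E) (n p : ℕ) (x y : ℤ) (h : (p : ℤ) ∣ x - y) (s : ι ⊕ κ) :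
    (p : ℤ) ∣ H.L2 n s x ↔ (p : ℤ) ∣ H.L2 n s y := by
  cases s with
  | inl l => exact ns_la_dvd_y H.F n p x y h l
  | inr j =>
    show (p : ℤ) ∣ H.M j x ↔ (p : ℤ) ∣ H.M j y
    apply dvd_iff_dvd_of_dvd_sub
    have h1 : H.M j x - H.M j y = (H.u j : ℤ) * (x - y) := by
      rw [Fam2.M, Fam2.M]
      ring
    rw [h1]
    exact Dvd.dvd.mul_left h _

lemma la2_Cm (H : Fam2 ι κ D d E) (n n' p : ℕ) (h : n ≡ n' [MOD p]) : Cm2 H n p ↔ Cm2 H n' p := by
  rw [Cm2, Cm2]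
  refine exists_congr fun s => exists_congr fun s' => exists_congr fun y => ?_
  rw [la2_dvd_n H n n' p h s y, la2_dvd_n H n n' p h s' y]

lemma la2_mem_od (H : Fam2 ι κ D d E) (P : Finset ℕ) (n : ℕ) (j : PJf P) (s : ι ⊕ κ) :
    ∃ S : Finset ℕ, S.card = od (DN2 H P n) j s ∧ ∀ y, y ∈ S ↔ y < (j : ℕ) ∧
      (((j : ℕ) : ℤ) ∣ H.L2 n s y ∧ ¬ Cm2 H n (j : ℕ)) := by
  classical
  unfold od
  refine ⟨_, rfl, fun y => ?_⟩
  refine Finset.mem_filter.trans ?_
  rw [mem_range]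
  rfl

open Classical in
/-- the number of the roots -/
noncomputable def la2_ow (H : Fam2 ι κ D d E) (n : ℕ) (s : ι ⊕ κ) (p : ℕ) : ℕ :=
  ((range p).filter (fun y : ℕ => (p : ℤ) ∣ H.L2 n s (y : ℤ))).card

/-- the one root of a linear member -/
lemma la2_root (H : Fam2 ι κ D d E) (p : ℕ) (hp : p.Prime) (hu : ∀ j, ¬ (p : ℤ) ∣ (H.u j : ℤ))
    (j : κ) : ∃ y0 < p, ∀ y < p, ((p : ℤ) ∣ H.M j (y : ℤ) ↔ y = y0) :=
  ns_la_one p hp (H.u j) (H.v j) (hu j)

/-- the number of the roots of a member -/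
lemma la2_few (H : Fam2 ι κ D d E) (p : ℕ) (hp : p.Prime)
    (h2 : ∀ l, ¬ (p : ℤ) ∣ (H.F.g l).coeff d) (hu : ∀ j, ¬ (p : ℤ) ∣ (H.u j : ℤ))
    (n : ℕ) (s : ι ⊕ κ) (S : Finset ℕ)
    (hS : ∀ y ∈ S, y < p ∧ (p : ℤ) ∣ H.L2 n s y) : S.card ≤ d := by
  cases s with
  | inl l => exact ns_la_few H.F p hp h2 n l S hS
  | inr j =>
    obtain ⟨y0, hy0, hy⟩ := la2_root H p hp hu j
    have h1 : S ⊆ {y0} := by
      intro y hyS
      obtain ⟨h3, h4⟩ := hS y hyS
      rw [mem_singleton]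
      exact (hy y h3).mp h4
    have h3 := card_le_card h1
    rw [card_singleton] at h3
    have := H.F.hd
    omega

lemma la2_ow_le (H : Fam2 ι κ D d E) (p : ℕ) (hp : p.Prime)
    (h2 : ∀ l, ¬ (p : ℤ) ∣ (H.F.g l).coeff d) (hu : ∀ j, ¬ (p : ℤ) ∣ (H.u j : ℤ))
    (n : ℕ) (s : ι ⊕ κ) : la2_ow H n s p ≤ d := by
  classical
  refine la2_few H p hp h2 hu n s _ fun y hy => ?_
  rw [mem_filter, mem_range] at hy
  exact hy

/-- the number of the pairs -/
lemma la2_sum (H : Fam2 ι κ D d E) (p : ℕ) (hp : p.Prime) (h1 : ∀ l, ¬ (p : ℤ) ∣ H.F.a l)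
    (hu : ∀ j, ¬ (p : ℤ) ∣ (H.u j : ℤ)) (s : ι ⊕ κ) :
    ∑ n ∈ range p, la2_ow H n s p = p := by
  classical
  cases s with
  | inl l =>
    refine Eq.trans (sum_congr rfl fun n _ => ?_) (ns_la_sum H.F p hp h1 l)
    obtain ⟨S, hS, hm⟩ := ns_la_mem_ol H.F n l p
    unfold la2_ow
    rw [← hS]
    congr 1
    ext y
    rw [hm, mem_filter, mem_range]
    exact Iff.rfl
  | inr j =>
    obtain ⟨y0, hy0, hy⟩ := la2_root H p hp hu j
    have h3 : ∀ n ∈ range p, la2_ow H n (Sum.inr j) p = 1 := by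
      intro n _
      unfold la2_ow
      rw [card_eq_one]
      refine ⟨y0, ?_⟩
      ext y
      rw [mem_filter, mem_range, mem_singleton]
      constructor
      · rintro ⟨h4, h5⟩
        exact (hy y h4).mp h5
      · rintro rfl
        exact ⟨hy0, (hy y hy0).mpr rfl⟩
    rw [sum_congr rfl h3, sum_const, card_range, smul_eq_mul, mul_one]

/-- the number of the classes with a common root of two members -/
lemma la2_cm (H : Fam2 ι κ D d E) (p : ℕ) (hp : p.Prime) (h1 : ∀ l, ¬ (p : ℤ) ∣ H.F.a l)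
    (h3 : ∀ l l', l ≠ l' →
      ¬ (p : ℤ) ∣ (C (H.F.a l') * H.F.g l - C (H.F.a l) * H.F.g l').leadingCoeff)
    (hu : ∀ j, ¬ (p : ℤ) ∣ (H.u j : ℤ))
    (hdet : ∀ j j', j ≠ j' → ¬ (p : ℤ) ∣ (H.u j : ℤ) * H.v j' - (H.u j' : ℤ) * H.v j)
    (S : Finset ℕ) (hS : ∀ n ∈ S, n < p ∧ Cm2 H n p) :
    S.card ≤ Fintype.card ι ^ 2 * d + Fintype.card ι * Fintype.card κ := by
  classical
  have hp0 : (0 : ℤ) < p := by exact_mod_cast hp.pos
  obtain ⟨S1, hS1⟩ : ∃ S1 : Finset ℕ, S1 = S.filter (fun n => Cm H.F n p) := ⟨_, rfl⟩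
  obtain ⟨T, hT⟩ : ∃ T : ι × κ → Finset ℕ, T = fun q => S.filter (fun n =>
      ∃ y : ℤ, (p : ℤ) ∣ H.F.L n q.1 y ∧ (p : ℤ) ∣ H.M q.2 y) := ⟨_, rfl⟩
  have hsub : S ⊆ S1 ∪ (univ : Finset (ι × κ)).biUnion T := by
    intro n hn
    obtain ⟨_, s, s', y, hss, hy, hy'⟩ := hS n hn
    rw [mem_union, mem_biUnion]
    cases s with
    | inl l =>
      cases s' with
      | inl l' =>
        left
        rw [hS1, mem_filter]
        exact ⟨hn, l, l', y, fun h => hss (by rw [h]), hy, hy'⟩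
      | inr j =>
        right
        refine ⟨(l, j), mem_univ _, ?_⟩
        rw [hT]
        exact mem_filter.mpr ⟨hn, y, hy, hy'⟩
    | inr j =>
      cases s' with
      | inl l =>
        right
        refine ⟨(l, j), mem_univ _, ?_⟩
        rw [hT]
        exact mem_filter.mpr ⟨hn, y, hy', hy⟩
      | inr j' =>
        exfalso
        apply hdet j j' (fun h => hss (by rw [h]))
        have e : (H.u j : ℤ) * H.v j' - (H.u j' : ℤ) * H.v j =
            (H.u j : ℤ) * H.M j' y - (H.u j' : ℤ) * H.M j y := by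
          rw [Fam2.M, Fam2.M]
          ring
        rw [e]
        exact dvd_sub (Dvd.dvd.mul_left hy' _) (Dvd.dvd.mul_left hy _)
  have hc1 : S1.card ≤ Fintype.card ι ^ 2 * d := by
    refine ns_la_cm H.F p hp h1 h3 S1 fun n hn => ?_
    rw [hS1, mem_filter] at hn
    exact ⟨(hS n hn.1).1, hn.2⟩
  have hc2 : ((univ : Finset (ι × κ)).biUnion T).card ≤ Fintype.card ι * Fintype.card κ := by
    have h5 := card_biUnion_le_card_mul (univ : Finset (ι × κ)) T 1 (by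
      rintro ⟨l, j⟩ _
      rw [card_le_one]
      intro n hn n' hn'
      rw [hT] at hn hn'
      obtain ⟨hn1, y, hy1, hy2⟩ := mem_filter.mp hn
      obtain ⟨hn2, y', hy1', hy2'⟩ := mem_filter.mp hn'
      have hpp : Prime (p : ℤ) := Nat.prime_iff_prime_int.mp hp
      have h6 : (p : ℤ) ∣ y - y' := by
        have h7 : (p : ℤ) ∣ (H.u j : ℤ) * (y - y') := by
          have e : (H.u j : ℤ) * (y - y') = H.M j y - H.M j y' := by
            rw [Fam2.M, Fam2.M]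
            ring
          rw [e]
          exact dvd_sub hy2 hy2'
        exact (hpp.dvd_or_dvd h7).resolve_left (hu j)
      have h8 : (p : ℤ) ∣ H.F.L n l y' := (ns_la_dvd_y H.F n p y y' h6 l).mp hy1
      obtain ⟨n0, _, hn0⟩ := ns_la_one p hp (H.F.a l) ((H.F.g l).eval y') (h1 l)
      rw [(hn0 n (hS n hn1).1).mp h8, (hn0 n' (hS n' hn2).1).mp hy1'])
    rw [card_univ, Fintype.card_prod, mul_one] at h5
    exact h5
  exact (card_le_card hsub).trans ((card_union_le _ _).trans (Nat.add_le_add hc1 hc2))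

theorem p_la2 : S_la2 := by
  intro ι κ _ _ _ _ D d E H
  classical
  have hd2 := H.F.hd
  obtain ⟨K0, hK0⟩ : ∃ K0 : ℕ, K0 = (Fintype.card ι ^ 2 * d + Fintype.card ι * Fintype.card κ) * d :=
    ⟨_, rfl⟩
  obtain ⟨K1, hK1⟩ : ∃ K1 : ℕ, K1 = 2 * K0 + 2 * d + 4 := ⟨_, rfl⟩
  refine ⟨K1, by omega, ?_⟩
  obtain ⟨kk, hkk⟩ : ∃ kk : ι × ι → ℤ, kk = fun q =>
    (C (H.F.a q.2) * H.F.g q.1 - C (H.F.a q.1) * H.F.g q.2).leadingCoeff := ⟨_, rfl⟩
  obtain ⟨dt, hdt⟩ : ∃ dt : κ × κ → ℤ, dt = fun q =>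
    (H.u q.1 : ℤ) * H.v q.2 - (H.u q.2 : ℤ) * H.v q.1 := ⟨_, rfl⟩
  obtain ⟨Z0, hZ0⟩ : ∃ Z0 : ℕ, Z0 = (∑ l, (H.F.a l).natAbs) + (∑ l, ((H.F.g l).coeff d).natAbs) +
    (∑ q, (kk q).natAbs) + (∑ j, H.u j) + (∑ q, (dt q).natAbs) +
    (Fintype.card ι + Fintype.card κ) * K1 + 2 := ⟨_, rfl⟩
  filter_upwards [eventually_ge_atTop Z0] with z hz
  have hg0 : ∀ l, (H.F.g l).coeff d ≠ 0 := by
    intro l h
    have h1 : H.F.g l ≠ 0 := by
      intro h0
      have := H.F.hg l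
      rw [h0, natDegree_zero] at this
      omega
    have h2 := leadingCoeff_ne_zero.mpr h1
    rw [leadingCoeff, H.F.hg l] at h2
    exact h2 h
  have hpa : ∀ p : ℕ, z < p → ∀ l, ¬ (p : ℤ) ∣ H.F.a l := by
    intro p hp l
    refine ns_la_nd _ _ (H.F.ha l) ?_
    have := single_le_sum (f := fun l => (H.F.a l).natAbs) (fun _ _ => Nat.zero_le _) (mem_univ l)
    omega
  have hpg : ∀ p : ℕ, z < p → ∀ l, ¬ (p : ℤ) ∣ (H.F.g l).coeff d := by
    intro p hp l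
    refine ns_la_nd _ _ (hg0 l) ?_
    have := single_le_sum (f := fun l => ((H.F.g l).coeff d).natAbs) (fun _ _ => Nat.zero_le _)
      (mem_univ l)
    omega
  have hpk : ∀ p : ℕ, z < p → ∀ l l', l ≠ l' →
      ¬ (p : ℤ) ∣ (C (H.F.a l') * H.F.g l - C (H.F.a l) * H.F.g l').leadingCoeff := by
    intro p hp l l' hll
    refine ns_la_nd _ _ ?_ ?_
    · rw [Ne, leadingCoeff_eq_zero, sub_eq_zero]
      exact H.F.hk l l' hll
    · have h6 : (kk (l, l')).natAbs ≤ ∑ q, (kk q).natAbs :=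
        single_le_sum (f := fun q => (kk q).natAbs) (fun _ _ => Nat.zero_le _) (mem_univ (l, l'))
      have h7 : kk (l, l') = (C (H.F.a l') * H.F.g l - C (H.F.a l) * H.F.g l').leadingCoeff := by
        rw [hkk]
      rw [← h7]
      omega
  have hpu : ∀ p : ℕ, z < p → ∀ j, ¬ (p : ℤ) ∣ (H.u j : ℤ) := by
    intro p hp j
    have h8 := H.hu j
    refine ns_la_nd _ _ (by exact_mod_cast (by omega : H.u j ≠ 0)) ?_
    have := single_le_sum (f := fun j => H.u j) (fun _ _ => Nat.zero_le _) (mem_univ j)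
    rw [Int.natAbs_natCast]
    omega
  have hpd : ∀ p : ℕ, z < p → ∀ j j', j ≠ j' →
      ¬ (p : ℤ) ∣ (H.u j : ℤ) * H.v j' - (H.u j' : ℤ) * H.v j := by
    intro p hp j j' hjj
    refine ns_la_nd _ _ (sub_ne_zero.mpr (H.hdet j j' hjj)) ?_
    have h6 : (dt (j, j')).natAbs ≤ ∑ q, (dt q).natAbs :=
      single_le_sum (f := fun q => (dt q).natAbs) (fun _ _ => Nat.zero_le _) (mem_univ (j, j'))
    have h7 : dt (j, j') = (H.u j : ℤ) * H.v j' - (H.u j' : ℤ) * H.v j := by rw [hdt]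
    rw [← h7]
    omega
  have hcard : (Fintype.card ι + Fintype.card κ) * K1 < z := by omega
  refine ⟨fun p _ hzp j h => hpu p hzp j (by exact_mod_cast h), fun P hP => ?_⟩
  have hprime : ∀ j : PJf P, (j : ℕ).Prime ∧ z < (j : ℕ) := fun j => hP j j.2
  have hod : ∀ (n : ℕ) (j : PJf P) (s : ι ⊕ κ), od (DN2 H P n) j s ≤ la2_ow H n s (j : ℕ) := by
    intro n j s
    obtain ⟨S, hS, hm⟩ := la2_mem_od H P n j s
    rw [← hS]
    unfold la2_ow
    refine card_le_card fun y hy => ?_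
    rw [hm] at hy
    rw [mem_filter, mem_range]
    exact ⟨hy.1, hy.2.1⟩
  have hodd : ∀ n (j : PJf P) s, od (DN2 H P n) j s ≤ d := fun n j s =>
    (hod n j s).trans (la2_ow_le H _ (hprime j).1 (hpg _ (hprime j).2) (hpu _ (hprime j).2) n s)
  have hj2 : ∀ j : PJf P, (2 : ℝ) ≤ ((j : ℕ) : ℝ) := fun j => by
    exact_mod_cast (hprime j).1.two_le
  have hodp : ∀ (j : PJf P) (s : ι ⊕ κ) (n n' : ℕ), n ≡ n' [MOD (j : ℕ)] →
      od (DN2 H P n) j s = od (DN2 H P n') j s := by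
    intro j s n n' h
    obtain ⟨S, hS, hm⟩ := la2_mem_od H P n j s
    obtain ⟨T, hT, hm'⟩ := la2_mem_od H P n' j s
    rw [← hS, ← hT]
    congr 1
    ext y
    rw [hm, hm', la2_dvd_n H n n' _ h s y, la2_Cm H n n' _ h]
  have hle : ∀ n (j : PJf P) s, rn2 H P n j s ≤ K1 / ((j : ℕ) : ℝ) := by
    intro n j s
    rw [rn2]
    refine div_le_div_of_nonneg_right ?_ (Nat.cast_nonneg _)
    exact_mod_cast (hodd n j s).trans (by omega)
  have hlep : ∀ n (j : PJf P) s, rp2 H P n j s ≤ K1 / ((j : ℕ) : ℝ) := by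
    intro n j s
    have h2 := hj2 j
    rw [rp2, div_le_div_iff₀ (by linarith) (by linarith)]
    have h3 : (od (DN2 H P n) j s : ℝ) ≤ d := by exact_mod_cast hodd n j s
    have h4 : (2 : ℝ) * d ≤ K1 := by
      have : 2 * d ≤ K1 := by omega
      exact_mod_cast this
    have h5 : (0 : ℝ) ≤ d := Nat.cast_nonneg d
    have h6 : (od (DN2 H P n) j s : ℝ) * ((j : ℕ) : ℝ) ≤ d * ((j : ℕ) : ℝ) :=
      mul_le_mul_of_nonneg_right h3 (by linarith)
    nlinarith [mul_le_mul_of_nonneg_right h4 (show (0 : ℝ) ≤ ((j : ℕ) : ℝ) - 1 by linarith)]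
  -- the sums over the classes
  have hsums : ∀ (j : PJf P) (s : ι ⊕ κ), ∑ n ∈ range (j : ℕ), od (DN2 H P n) j s ≤ (j : ℕ) ∧
      (j : ℕ) ≤ ∑ n ∈ range (j : ℕ), od (DN2 H P n) j s + K0 := by
    intro j s
    obtain ⟨p, hp⟩ : ∃ p : ℕ, p = (j : ℕ) := ⟨_, rfl⟩
    have hpp : p.Prime := by rw [hp]; exact (hprime j).1
    have hpz : z < p := by rw [hp]; exact (hprime j).2
    rw [← hp]
    obtain ⟨S, hS⟩ : ∃ S : Finset ℕ, S = (range p).filter (fun n => Cm2 H n p) := ⟨_, rfl⟩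
    have hScard : S.card ≤ Fintype.card ι ^ 2 * d + Fintype.card ι * Fintype.card κ := by
      refine la2_cm H p hpp (hpa p hpz) (hpk p hpz) (hpu p hpz) (hpd p hpz) S fun n hn => ?_
      rw [hS, mem_filter, mem_range] at hn
      exact hn
    have hsum := la2_sum H p hpp (hpa p hpz) (hpu p hpz) s
    constructor
    · calc ∑ n ∈ range p, od (DN2 H P n) j s ≤ ∑ n ∈ range p, la2_ow H n s p :=
            sum_le_sum fun n _ => by rw [hp]; exact hod n j s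
        _ = p := hsum
    · have h1 : ∀ n ∈ range p, la2_ow H n s p ≤
          od (DN2 H P n) j s + (if Cm2 H n p then d else 0) := by
        intro n _
        by_cases hc : Cm2 H n p
        · rw [if_pos hc]
          exact (la2_ow_le H p hpp (hpg p hpz) (hpu p hpz) n s).trans (Nat.le_add_left _ _)
        · rw [if_neg hc, add_zero]
          obtain ⟨T, hT, hm⟩ := la2_mem_od H P n j s
          rw [← hT]
          unfold la2_ow
          refine card_le_card fun y hy => ?_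
          rw [mem_filter, mem_range] at hy
          rw [hm, ← hp]
          exact ⟨hy.1, hy.2, hc⟩
      have h2 := sum_le_sum h1
      rw [hsum, sum_add_distrib, ← sum_filter, ← hS, sum_const, smul_eq_mul] at h2
      have h3 : S.card * d ≤ K0 := by
        rw [hK0]
        exact Nat.mul_le_mul_right _ hScard
      omega
  have hKr : (2 : ℝ) * K0 + 4 ≤ K1 := by
    have : 2 * K0 + 4 ≤ K1 := by omega
    exact_mod_cast this
  have hK0r : (0 : ℝ) ≤ K0 := Nat.cast_nonneg _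
  refine ⟨⟨hP, ?_, ?_, hle, ?_⟩, ⟨hP, ?_, ?_, hlep, ?_⟩, ?_, ?_,
    fun n j s => (hodd n j s).trans (by omega), ?_, ?_⟩
  · intro j s n n' h
    show rn2 H P n j s = rn2 H P n' j s
    rw [rn2, rn2, hodp j s n n' h]
  · intro n j s
    show 0 ≤ rn2 H P n j s
    rw [rn2]
    positivity
  · intro j s
    obtain ⟨hup, hlow⟩ := hsums j s
    have hr : ∑ n ∈ range (j : ℕ), rn2 H P n j s =
        ((∑ n ∈ range (j : ℕ), od (DN2 H P n) j s : ℕ) : ℝ) / (((j : ℕ) : ℕ) : ℝ) := by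
      rw [Nat.cast_sum, sum_div]
      refine sum_congr rfl fun n _ => ?_
      rw [rn2]
    show |(∑ n ∈ range (j : ℕ), rn2 H P n j s) / ((j : ℕ) : ℝ) - 1 / (((j : ℕ) : ℝ) - 1)| ≤
      K1 / ((j : ℕ) : ℝ) ^ 2
    rw [hr]
    obtain ⟨t, ht⟩ : ∃ t : ℝ, t = ((∑ n ∈ range (j : ℕ), od (DN2 H P n) j s : ℕ) : ℝ) := ⟨_, rfl⟩
    obtain ⟨x, hx⟩ : ∃ x : ℝ, x = ((j : ℕ) : ℝ) := ⟨_, rfl⟩
    have hs1 : t ≤ x := by rw [ht, hx]; exact_mod_cast hup
    have hs2 : x ≤ t + K0 := by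
      rw [ht, hx]
      exact_mod_cast hlow
    have hs0 : 0 ≤ t := by rw [ht]; exact Nat.cast_nonneg _
    have hx2 : 2 ≤ x := by rw [hx]; exact hj2 j
    rw [← ht, ← hx, abs_le]
    have hx0 : 0 < x := by linarith
    have hx1 : 0 < x - 1 := by linarith
    have hxx : 0 < x ^ 2 := by positivity
    have e1 : t / x / x = t / x ^ 2 := by rw [div_div, sq]
    rw [e1]
    constructor
    · have h5 : 1 / (x - 1) ≤ (t + K1) / x ^ 2 := by
        rw [div_le_div_iff₀ hx1 hxx]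
        nlinarith
      rw [add_div] at h5
      linarith
    · have h5 : t / x ^ 2 ≤ 1 / (x - 1) := by
        rw [div_le_div_iff₀ hxx hx1]
        nlinarith
      have h6 : 0 ≤ (K1 : ℝ) / x ^ 2 := by positivity
      linarith
  · intro j s n n' h
    show rp2 H P n j s = rp2 H P n' j s
    rw [rp2, rp2, hodp j s n n' h]
  · intro n j s
    show 0 ≤ rp2 H P n j s
    rw [rp2]
    have := hj2 j
    exact div_nonneg (Nat.cast_nonneg _) (by linarith)
  · intro j s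
    obtain ⟨hup, hlow⟩ := hsums j s
    have hr : ∑ n ∈ range (j : ℕ), rp2 H P n j s =
        ((∑ n ∈ range (j : ℕ), od (DN2 H P n) j s : ℕ) : ℝ) / ((((j : ℕ) : ℕ) : ℝ) - 1) := by
      rw [Nat.cast_sum, sum_div]
      refine sum_congr rfl fun n _ => ?_
      rw [rp2]
    show |(∑ n ∈ range (j : ℕ), rp2 H P n j s) / ((j : ℕ) : ℝ) - 1 / (((j : ℕ) : ℝ) - 1)| ≤
      K1 / ((j : ℕ) : ℝ) ^ 2
    rw [hr]
    obtain ⟨t, ht⟩ : ∃ t : ℝ, t = ((∑ n ∈ range (j : ℕ), od (DN2 H P n) j s : ℕ) : ℝ) := ⟨_, rfl⟩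
    obtain ⟨x, hx⟩ : ∃ x : ℝ, x = ((j : ℕ) : ℝ) := ⟨_, rfl⟩
    have hs1 : t ≤ x := by rw [ht, hx]; exact_mod_cast hup
    have hs2 : x ≤ t + K0 := by
      rw [ht, hx]
      exact_mod_cast hlow
    have hx2 : 2 ≤ x := by rw [hx]; exact hj2 j
    rw [← ht, ← hx]
    have hx0 : 0 < x := by linarith
    have hx1 : 0 < x - 1 := by linarith
    have hxx : 0 < x ^ 2 := by positivity
    have e1 : t / (x - 1) / x - 1 / (x - 1) = -((x - t) / ((x - 1) * x)) := by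
      field_simp
      ring
    rw [e1, abs_neg, abs_of_nonneg (div_nonneg (by linarith) (by positivity)),
      div_le_div_iff₀ (by positivity) hxx]
    have h7 : (x - t) * x ^ 2 ≤ K0 * x ^ 2 := mul_le_mul_of_nonneg_right (by linarith) hxx.le
    have h8 : (K0 : ℝ) * x ^ 2 ≤ 2 * K0 * ((x - 1) * x) := by nlinarith [mul_nonneg hK0r hx0.le]
    have h9 : 2 * K0 * ((x - 1) * x) ≤ K1 * ((x - 1) * x) :=
      mul_le_mul_of_nonneg_right (by linarith) (by positivity)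
    linarith
  · intro n j
    have h1 : ∑ s, rn2 H P n j s ≤ ∑ s : ι ⊕ κ, (K1 : ℝ) / ((j : ℕ) : ℝ) :=
      sum_le_sum fun s _ => hle n j s
    rw [sum_const, card_univ, nsmul_eq_mul, Fintype.card_sum] at h1
    refine h1.trans ?_
    have hj0 : (0 : ℝ) < ((j : ℕ) : ℝ) := by exact_mod_cast (hprime j).1.pos
    rw [mul_div_assoc', div_le_one hj0]
    have h2 : (Fintype.card ι + Fintype.card κ) * K1 ≤ (j : ℕ) := by
      have := (hprime j).2
      omega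
    exact_mod_cast h2
  · intro n j
    have h1 : ∑ s, rp2 H P n j s ≤ ∑ s : ι ⊕ κ, (K1 : ℝ) / ((j : ℕ) : ℝ) :=
      sum_le_sum fun s _ => hlep n j s
    rw [sum_const, card_univ, nsmul_eq_mul, Fintype.card_sum] at h1
    refine h1.trans ?_
    have hj0 : (0 : ℝ) < ((j : ℕ) : ℝ) := by exact_mod_cast (hprime j).1.pos
    rw [mul_div_assoc', div_le_one hj0]
    have h2 : (Fintype.card ι + Fintype.card κ) * K1 ≤ (j : ℕ) := by
      have := (hprime j).2
      omega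
    exact_mod_cast h2
  · intro n j s x y hxy
    show (((j : ℕ) : ℤ) ∣ H.L2 n s x ∧ ¬ Cm2 H n (j : ℕ)) ↔
      (((j : ℕ) : ℤ) ∣ H.L2 n s y ∧ ¬ Cm2 H n (j : ℕ))
    rw [la2_dvd_y H n _ x y hxy s]
  · rintro n j s s' y hss ⟨⟨h1, h2⟩, h3, _⟩
    exact h2 ⟨s, s', y, hss, h1, h3⟩

end Pool.Agent.HC.A
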