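import Pool.Agent.Lib.MP_0da313_nt.HC.M
import Pool.Agent.Lib.MP_0da313_nt.MT.Mertens

set_option autoImplicit false

/-!
[HC md4]: the lower bound for the model sum.
-/

namespace Pool.Agent.HC.M

open Finset Filter Polynomial
open Pool.Agent.MP89da58 (bil pw nn supp part kapD tri)
open Pool.Agent.MT (PJf dvI ZI mertens kapD_pos)
open Pool.Agent.BVall (om rhoW PK lev RepB Dens mem_PK)
open Pool.Agent.Lib.MP_0da313_nt (W)
open Pool.Agent.CH (thP)
open Pool.Agent.CM (wd z0 er sT)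
open Pool.Agent.CM.F (Pre)
open Pool.Agent.TC (Lw wN)
open Pool.Agent.TC.W (qf)
open Pool.Agent.NC (Hn Bn ErS)
open Pool.Agent.NC.Q (prr nu qr od)
open Pool.Agent.NC.A (Par3 sl)
open Pool.Agent.NC.M (mN Q3 r3 d3)
open Pool.Agent.HC (Fam2 ErS2 Cm2 DN2 rn2 rp2 Wt4 Q4 r4 d4 Sj ph)

/-- `1 / kapD w ≤ log n`. -/
private lemma hs_md4_kap (B1 : ℕ) : ∀ᶠ N : ℕ in atTop, 2 ≤ wN B1 N →
    (kapD (wN B1 N))⁻¹ ≤ Real.log N := by
  have hlog : Tendsto (fun n : ℕ => Real.log n) atTop atTop :=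
    Real.tendsto_log_atTop.comp tendsto_natCast_atTop_atTop
  have h1 : ∀ᶠ x : ℝ in atTop, ‖Real.log x‖ ≤ (1 / (1000 * (B1 : ℝ) + 1)) * ‖x‖ :=
    Real.isLittleO_log_id_atTop.bound (by positivity)
  filter_upwards [hlog.eventually h1, hlog.eventually_ge_atTop 1] with N hN hL hw
  set L := Real.log N with hLdef
  have hL0 : 0 < L := by linarith
  have hlL : 0 ≤ Real.log L := Real.log_nonneg hL
  rw [Real.norm_of_nonneg hlL, Real.norm_of_nonneg hL0.le] at hN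
  have hm := mertens (wN B1 N) hw
  have hκ := kapD_pos (wN B1 N)
  have hw0 : (0 : ℝ) < (wN B1 N : ℝ) := by
    have : 0 < wN B1 N := by omega
    exact_mod_cast this
  have hwle : (wN B1 N : ℝ) ≤ L ^ B1 := Nat.floor_le (by positivity)
  have hlw : Real.log (wN B1 N : ℝ) ≤ B1 * Real.log L := by
    have h2 := Real.log_le_log hw0 hwle
    rwa [Real.log_pow] at h2
  have h3 : (kapD (wN B1 N))⁻¹ ≤ 1000 * Real.log (wN B1 N) := by
    rw [inv_le_iff_one_le_mul₀ hκ]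
    linarith
  have h4 : (1000 * (B1 : ℝ) + 1) * Real.log L ≤ L := by
    have h5 := mul_le_mul_of_nonneg_left hN (show (0 : ℝ) ≤ 1000 * (B1 : ℝ) + 1 by positivity)
    have h6 : (1000 * (B1 : ℝ) + 1) * ((1 / (1000 * (B1 : ℝ) + 1)) * L) = L := by
      field_simp
    linarith
  nlinarith

/-- The level of the expansion. -/
private lemma hs_md4_lev (d N Y V : ℕ) (hd : 2 ≤ d) (hN : 1 ≤ N)
    (hY : (Y : ℝ) ≤ (Hn d N : ℝ) ^ (1 / 5000 : ℝ))
    (hV : (V : ℝ) ≤ (Hn d N : ℝ) ^ (1 / 10000 : ℝ)) :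
    ((Y * Y * V : ℕ) : ℝ) ≤ (N : ℝ) ^ (1 / (1000 * d) : ℝ) := by
  have hN1 : (1 : ℝ) ≤ N := by exact_mod_cast hN
  have hN0 : (0 : ℝ) < N := by linarith
  have hdr : (0 : ℝ) < d := by
    have : 0 < d := by omega
    exact_mod_cast this
  have hH1 : 1 ≤ Hn d N := by
    unfold Hn
    rw [Nat.one_le_floor_iff]
    exact Real.one_le_rpow hN1 (by positivity)
  have hH0 : (0 : ℝ) < (Hn d N : ℝ) := by exact_mod_cast hH1
  have hHN : (Hn d N : ℝ) ≤ (N : ℝ) ^ (1 / (d : ℝ)) := Nat.floor_le (by positivity)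
  push_cast
  calc (Y : ℝ) * Y * V
      ≤ (Hn d N : ℝ) ^ (1 / 5000 : ℝ) * (Hn d N : ℝ) ^ (1 / 5000 : ℝ) *
        (Hn d N : ℝ) ^ (1 / 10000 : ℝ) :=
        mul_le_mul (mul_le_mul hY hY (Nat.cast_nonneg _) (by positivity)) hV
          (by positivity) (by positivity)
    _ = (Hn d N : ℝ) ^ (1 / 2000 : ℝ) := by
        rw [← Real.rpow_add hH0, ← Real.rpow_add hH0]
        norm_num
    _ ≤ ((N : ℝ) ^ (1 / (d : ℝ))) ^ (1 / 2000 : ℝ) :=
        Real.rpow_le_rpow hH0.le hHN (by norm_num)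
    _ = (N : ℝ) ^ (1 / (d : ℝ) * (1 / 2000)) := by rw [← Real.rpow_mul hN0.le]
    _ ≤ (N : ℝ) ^ (1 / (1000 * d) : ℝ) := by
        apply Real.rpow_le_rpow_of_exponent_le hN1
        have e : 1 / (1000 * d : ℝ) = 1 / (d : ℝ) * (1 / 1000) := by field_simp
        rw [e]
        exact mul_le_mul_of_nonneg_left (by norm_num) (by positivity)

/-- The error sum. -/
private lemma hs_md4_err (x0 L b S : ℝ) (A : ℕ) (hL : 1 ≤ L) (hb : 3 * b ^ 2 ≤ L)
    (hx : 0 ≤ x0) (hS : S ≤ x0 / L ^ (A + 2)) :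
    L * (3 * b ^ 2 * S) ≤ x0 / L ^ A := by
  have hL0 : 0 < L := by linarith
  have h1 : 3 * b ^ 2 * S ≤ 3 * b ^ 2 * (x0 / L ^ (A + 2)) :=
    mul_le_mul_of_nonneg_left hS (by positivity)
  have h2 : 3 * b ^ 2 * (x0 / L ^ (A + 2)) ≤ L * (x0 / L ^ (A + 2)) :=
    mul_le_mul_of_nonneg_right hb (by positivity)
  calc L * (3 * b ^ 2 * S) ≤ L * (L * (x0 / L ^ (A + 2))) :=
        mul_le_mul_of_nonneg_left (h1.trans h2) hL0.le
    _ = x0 / L ^ A := by
        rw [pow_add]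
        field_simp

private lemma hs_md4_thP (m : ℕ) : 0 ≤ thP m := by
  unfold thP
  split_ifs
  · exact Real.log_natCast_nonneg m
  · exact le_refl _

private lemma hs_md4_wh {ι : Type} [Fintype ι] [DecidableEq ι] {D d E : ℕ} (F : NC.Fam ι D d E)
    (N x : ℕ) : 0 ≤ F.wh N x := by
  unfold NC.Fam.wh wd tri
  exact le_max_left _ _

private lemma hs_md4_W {K : ℕ} {ρ : ℕ → ℝ} (h : Dens K ρ) (n : ℕ) : 0 ≤ W ρ (PK K n) := by
  unfold W
  refine Finset.prod_nonneg fun p hp => ?_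
  have h1 := h.lt p (mem_PK.1 hp).1
  have h2 : (0 : ℝ) ≤ 1 / p := by positivity
  linarith

theorem p_md4 : S_md4 := by
  classical
  intro hla hbv hms hdn hgx hpw ι κ _ _ _ _ D d E H B0 B B1 A hD hB0 hB1
  obtain ⟨K1, hK1, hla1⟩ := hla ι κ D d E H
  obtain ⟨zt, hzt⟩ := eventually_atTop.1 hla1
  set K0 := max D K1 with hK0def
  have hK0 : 1 ≤ K0 := hD.trans (le_max_left _ _)
  have hlog : Tendsto (fun n : ℕ => Real.log n) atTop atTop :=
    Real.tendsto_log_atTop.comp tendsto_natCast_atTop_atTop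
  have hbv' := eventually_all.2 fun j : κ =>
    hbv ι κ D d E H j (6 * Fintype.card (ι ⊕ κ) * K0) (A + 2)
  filter_upwards [hbv', hms ι κ D d E H, hdn ι κ D d E H hD, hpw ι κ D d E H B0 B1 hD hB0 hB1,
    hs_md4_kap B1, eventually_ge_atTop ((zt + 2) ^ B0 + 2), hlog.eventually_ge_atTop (2 : ℝ),
    hlog.eventually_ge_atTop (3 * (B : ℝ) ^ 2)]
    with N gbv gms gdn gpw gkap gN gL gLB
  intro n hn n' P hpar Fp Fm hpre l j g hg hgl hqr hsl
  obtain ⟨Eq, hE0, hE1, hE2⟩ := gbv j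
  obtain ⟨⟨hw1, hw2⟩, hpw'⟩ := gpw n hn n' P hpar
  have hpw2 := hpw' Fp Fm hpre l j
  obtain ⟨e1, e2, e3, e4, e5⟩ := gdn n hn n' (wN B1 N) hw1 hw2
  obtain ⟨-, -, e6, -, -⟩ := gdn n hn n' (z0 D n') (hw1.trans (by exact_mod_cast hw2)) le_rfl
  have : Nonempty (ι ⊕ κ) := ⟨Sum.inl l⟩
  set w := wN B1 N with hwdef
  set z := z0 D n' with hzdef
  set L := Real.log N with hLdef
  have hw2' : 2 ≤ w := by
    have : (2 : ℝ) ≤ w := by nlinarith
    exact_mod_cast this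
  have hκw : 0 < kapD w := kapD_pos w
  have hκz : 0 < kapD z := kapD_pos z
  have hκinv : (kapD w)⁻¹ ≤ L := gkap hw2'
  have hκinv0 : 0 < (kapD w)⁻¹ := inv_pos.2 hκw
  have hN1 : 1 ≤ N := by omega
  -- `z` is large
  have hzl : zt ≤ z := by
    by_contra hcon
    push Not at hcon
    have h4 := Nat.pow_le_pow_left (show z ≤ zt + 2 by omega) B0
    have h5 := hpar.hzB
    rw [← hzdef] at h5
    omega
  obtain ⟨hz0, hz1⟩ := hzt z hzl
  obtain ⟨-, -, -, -, hod, hper, hexcl⟩ := hz1 P fun p hp => ⟨(hpar.hP p hp).1, (hpar.hP p hp).2.1⟩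
  -- the expansion
  set Y := ⌊(Hn d N : ℝ) ^ (1 / 5000 : ℝ)⌋₊ with hY
  have hYr : (Y : ℝ) ≤ (Hn d N : ℝ) ^ (1 / 5000 : ℝ) := Nat.floor_le (by positivity)
  have hdisj : Disjoint P (PK (2 * D) n') := by
    rw [Finset.disjoint_left]
    intro p hp hp'
    have h1 := (hpar.hP p hp).2.1
    have h2 := (mem_PK.1 hp').2
    have h3 : z0 D n' = 2 ^ (2 ^ (2 * D + n')) := rfl
    omega
  have hlevel : ((Y * Y * lev (2 * D) n' ^ 3 : ℕ) : ℝ) ≤ (N : ℝ) ^ (1 / (1000 * d) : ℝ) :=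
    hs_md4_lev d N Y (lev (2 * D) n' ^ 3) H.F.hd hN1 hYr (by push_cast; exact hpar.hlev)
  have key := hgx (ι ⊕ κ) P (PK (2 * D) n') (DN2 H P n) (Q4 H n w z l j)
    (fun s => s ≠ Sum.inl l ∧ s ≠ Sum.inr j) (H.u j) (H.v j) K0 (H.hu j)
    (fun p hp => ⟨(hpar.hP p hp).1, hz0 p (hpar.hP p hp).1 (hpar.hP p hp).2.1 j⟩)
    (fun p hp => (mem_PK.1 hp).1) hdisj hK0 (hper n) (hexcl n)
    (fun i s => (hod n i s).trans (le_max_right _ _))
    (by
      intro i s y hs hdd hcon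
      exact hdd.2 ⟨s, Sum.inr j, y, hs.2, hdd.1, hcon⟩)
    (fun p x y h => e1 l j p x y h)
    (fun p x h => h.2.2.1)
    (fun p hp => (e2 l j p (mem_PK.1 hp).1).trans (le_max_left _ _))
    (lev (2 * D) n' ^ 3) Fm hpre.rm g B Y hg.bd
    (fun α hα => Nat.le_floor (hg.sup α hα))
    (fun α hα i s hs => ⟨fun h => (hgl α hα i).1 (by rw [hs, h]),
      fun h => (hgl α hα i).2 (by rw [hs, h])⟩)
    (fun x : ℕ => H.F.wh N x * thP (H.M j x).toNat) (Hn d N) Eq hE0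
    (by
      intro q c hq hqY hcop
      refine hE1 q c hq (le_trans ?_ hlevel) hcop
      exact_mod_cast hqY)
  have herr : ∑ q ∈ (Icc 1 (Y * Y * lev (2 * D) n' ^ 3)).filter Squarefree,
      ((6 * Fintype.card (ι ⊕ κ) * K0 : ℕ) : ℝ) ^ q.primeFactors.card * Eq q ≤
      (N : ℝ) ^ (1 / (d : ℝ)) / L ^ (A + 2) := by
    refine le_trans ?_ hE2
    apply Finset.sum_le_sum_of_subset_of_nonneg
    · apply Finset.filter_subset_filter
      apply Finset.Icc_subset_Icc le_rfl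
      exact Nat.le_floor hlevel
    · intro q _ _
      exact mul_nonneg (by positivity) (hE0 q)
  have herr2 := hs_md4_err _ L B _ A (by linarith) gLB (by positivity) herr
  -- the pointwise inequality
  have hsum : (kapD w)⁻¹ * ∑ x ∈ Icc 1 (Hn d N), H.F.wh N x * thP (H.M j x).toNat *
        Fm (r4 H n w z l j x) * ZI (DN2 H P n) g x ^ 2 ≤
      ∑ x ∈ Icc 1 (Hn d N), H.F.wh N x * (thP (H.M j x).toNat * (Lw w (H.F.L n l x).toNat *
        (Fm (r4 H n w z l j x) * ZI (DN2 H P n) g x ^ 2))) := by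
    rw [Finset.mul_sum]
    apply Finset.sum_le_sum
    intro x hx
    by_cases h0 : H.F.wh N x = 0
    · rw [h0]; simp
    by_cases h00 : thP (H.M j x).toNat = 0
    · rw [h00]; simp
    have h1 := (hpw2 x (Finset.mem_Icc.1 hx).1 h0 h00).1
    have h3 : 0 ≤ H.F.wh N x * thP (H.M j x).toNat * ZI (DN2 H P n) g x ^ 2 :=
      mul_nonneg (mul_nonneg (hs_md4_wh _ _ _) (hs_md4_thP _)) (sq_nonneg _)
    calc (kapD w)⁻¹ * (H.F.wh N x * thP (H.M j x).toNat * Fm (r4 H n w z l j x) *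
          ZI (DN2 H P n) g x ^ 2)
        = (H.F.wh N x * thP (H.M j x).toNat * ZI (DN2 H P n) g x ^ 2) *
          ((kapD w)⁻¹ * Fm (r4 H n w z l j x)) := by ring
      _ ≤ (H.F.wh N x * thP (H.M j x).toNat * ZI (DN2 H P n) g x ^ 2) *
          (Lw w (H.F.L n l x).toNat * Fm (r4 H n w z l j x)) :=
          mul_le_mul_of_nonneg_left h1 h3
      _ = _ := by ring
  -- the main term
  have hm0 : 0 ≤ mN H.F N := Finset.sum_nonneg fun x _ => hs_md4_wh _ _ _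
  have hmt := (hpre.mt _ (e3 l j)).2
  have hd4 := e4 l j hsl
  have hd5 := e5 l j
  have hW0 := hs_md4_W (e3 l j) n'
  have hW1 := hs_md4_W (e6 l j) n'
  have hms1 := (gms j).1
  set W4 : ℝ := W (d4 H n w z l j) (PK (2 * D) n') with hW4
  set W5 : ℝ := W (d4 H n z z l j) (PK (2 * D) n') with hW5
  set V : ℝ := H.F.V n n' with hV
  set c : ℝ := (H.u j : ℝ) / (Nat.totient (H.u j) : ℝ) with hc
  have hc0 : 0 ≤ c := by positivity
  have hV0 : 0 ≤ V / (kapD z) ^ 2 := by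
    have h1 : V / (kapD z) ^ 2 = c * W5 / kapD z := by
      rw [hd5]
      field_simp
    rw [h1]
    positivity
  set q0 : ℝ := qr (rp2 H P n) g with hq0
  set S1 : ℝ := ∑ x ∈ Icc 1 (Hn d N), H.F.wh N x * thP (H.M j x).toNat *
        Fm (r4 H n w z l j x) * ZI (DN2 H P n) g x ^ 2 with hS1
  set Er1 : ℝ := 3 * (B : ℝ) ^ 2 * ∑ q ∈ (Icc 1 (Y * Y * lev (2 * D) n' ^ 3)).filter Squarefree,
    ((6 * Fintype.card (ι ⊕ κ) * K0 : ℕ) : ℝ) ^ q.primeFactors.card * Eq q with hEr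
  have key1 : |S1 - Sj H N j * Fm (d4 H n w z l j) * q0| ≤ Er1 := key
  have key2 := (abs_le.1 key1).1
  have hmain : 8 / 10 * (mN H.F N * (V / (kapD z) ^ 2)) * q0 ≤
      (kapD w)⁻¹ * (Sj H N j * Fm (d4 H n w z l j) * q0) := by
    have h1 : 999 / 1000 * W4 ≤ Fm (d4 H n w z l j) := by linarith
    have h2 : 99 / 100 * (c * mN H.F N) * (999 / 1000 * W4) ≤
        Sj H N j * Fm (d4 H n w z l j) :=
      mul_le_mul hms1 h1 (by positivity) (le_trans (by positivity) hms1)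
    have h3 : 89 / 100 * (mN H.F N * (V / (kapD z) ^ 2 * kapD w)) ≤
        99 / 100 * (c * mN H.F N) * (999 / 1000 * W4) := by
      have h4 := mul_le_mul_of_nonneg_left hd4 hm0
      have h5 : 0 ≤ mN H.F N * (V / (kapD z) ^ 2 * kapD w) := by positivity
      nlinarith
    have h6 : 89 / 100 * (mN H.F N * (V / (kapD z) ^ 2 * kapD w)) * q0 ≤
        Sj H N j * Fm (d4 H n w z l j) * q0 :=
      mul_le_mul_of_nonneg_right (h3.trans h2) hqr
    have h7 := mul_le_mul_of_nonneg_left h6 hκinv0.le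
    refine le_trans ?_ h7
    have h8 : (kapD w)⁻¹ * (89 / 100 * (mN H.F N * (V / (kapD z) ^ 2 * kapD w)) * q0) =
        89 / 100 * (mN H.F N * (V / (kapD z) ^ 2)) * q0 := by
      field_simp
    rw [h8]
    have h9 : 0 ≤ mN H.F N * (V / (kapD z) ^ 2) * q0 := by positivity
    nlinarith
  have hE0' : 0 ≤ Er1 := (abs_nonneg _).trans key1
  have hfin : (kapD w)⁻¹ * (Sj H N j * Fm (d4 H n w z l j) * q0) -
      (kapD w)⁻¹ * Er1 ≤ (kapD w)⁻¹ * S1 := by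
    rw [← mul_sub]
    exact mul_le_mul_of_nonneg_left (by linarith) hκinv0.le
  have herr3 : (kapD w)⁻¹ * Er1 ≤ L * Er1 := mul_le_mul_of_nonneg_right hκinv hE0'
  linarith

end Pool.Agent.HC.M
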