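import Pool.Agent.Lib.MP_0da313_nt.HC.W

/-!
Project HC, piece ms: elementary properties of the multiple sums `MS` and `RL`.
-/

set_option autoImplicit false

namespace Pool.Agent.HC.W

open Finset
open Pool.Agent.SP80 (ex mn)
open Pool.Agent.NC.Wy (RR)

private theorem ms_shift (k U : ℕ) (Ψ : ℕ → ℕ → ℝ) (s' p' : ℕ) : ∀ s p : ℕ,
    MS k U Ψ (s + s') (p * p') = MS k U (fun a b => Ψ (a + s') (b * p')) s p := by
  induction k with
  | zero =>
    intro s p
    rfl
  | succ k ih =>
    intro s p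
    unfold MS
    refine Finset.sum_congr rfl fun h _ => ?_
    rw [← ih (s + h) (p * h)]
    have e1 : s + s' + h = s + h + s' := by omega
    have e2 : p * p' * h = p * h * p' := by ring
    rw [e1, e2]

private theorem ms_mono (k U : ℕ) (Ψ Φ : ℕ → ℕ → ℝ) (h0 : ∀ a b, Ψ a b ≤ Φ a b) :
    ∀ s p : ℕ, MS k U Ψ s p ≤ MS k U Φ s p := by
  induction k with
  | zero =>
    intro s p
    exact h0 s p
  | succ k ih =>
    intro s p
    unfold MS
    exact Finset.sum_le_sum fun h _ => ih _ _

private theorem ms_sum (k U : ℕ) (I : Finset ℕ) (Ψ : ℕ → ℕ → ℕ → ℝ) : ∀ s p : ℕ,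
    MS k U (fun a b => ∑ i ∈ I, Ψ i a b) s p = ∑ i ∈ I, MS k U (Ψ i) s p := by
  induction k with
  | zero =>
    intro s p
    rfl
  | succ k ih =>
    intro s p
    unfold MS
    rw [Finset.sum_comm]
    exact Finset.sum_congr rfl fun h _ => ih _ _

private theorem ms_mul (k U : ℕ) (c : ℝ) (Ψ : ℕ → ℕ → ℝ) : ∀ s p : ℕ,
    MS k U (fun a b => c * Ψ a b) s p = c * MS k U Ψ s p := by
  induction k with
  | zero =>
    intro s p
    rfl
  | succ k ih =>
    intro s p
    unfold MS
    rw [Finset.mul_sum]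
    exact Finset.sum_congr rfl fun h _ => ih _ _

private theorem ms_nonneg (k U : ℕ) (Ψ : ℕ → ℕ → ℝ) (h0 : ∀ a b, 0 ≤ Ψ a b) :
    ∀ s p : ℕ, 0 ≤ MS k U Ψ s p := by
  induction k with
  | zero =>
    intro s p
    exact h0 s p
  | succ k ih =>
    intro s p
    unfold MS
    exact Finset.sum_nonneg fun h _ => ih _ _

private theorem ms_pow (k U n : ℕ) (Ψ : ℕ → ℕ → ℝ) (h0 : ∀ a b, 0 ≤ Ψ a b) :
    ∀ s p : ℕ, (MS k U Ψ s p) ^ (n + 1) ≤
      ((U : ℝ) ^ k) ^ n * MS k U (fun a b => Ψ a b ^ (n + 1)) s p := by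
  induction k with
  | zero =>
    intro s p
    rw [pow_zero, one_pow, one_mul]
    exact le_refl _
  | succ k ih =>
    intro s p
    unfold MS
    rcases Nat.eq_zero_or_pos U with hU | hU
    · subst hU
      simp
    · have hU0 : (0 : ℝ) < U := by exact_mod_cast hU
      have h3 := pow_sum_div_card_le_sum_pow (s := range U)
        (f := fun h => MS k U Ψ (s + h) (p * h)) (fun h _ => ms_nonneg k U Ψ h0 _ _) n
      rw [card_range, div_le_iff₀ (by positivity)] at h3
      refine h3.trans ?_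
      have h4 : ∑ h ∈ range U, (MS k U Ψ (s + h) (p * h)) ^ (n + 1) ≤
          ((U : ℝ) ^ k) ^ n *
            ∑ h ∈ range U, MS k U (fun a b => Ψ a b ^ (n + 1)) (s + h) (p * h) := by
        rw [Finset.mul_sum]
        exact Finset.sum_le_sum fun h _ => ih _ _
      calc (∑ h ∈ range U, (MS k U Ψ (s + h) (p * h)) ^ (n + 1)) * (U : ℝ) ^ n
          ≤ (((U : ℝ) ^ k) ^ n *
            ∑ h ∈ range U, MS k U (fun a b => Ψ a b ^ (n + 1)) (s + h) (p * h)) * (U : ℝ) ^ n :=
            mul_le_mul_of_nonneg_right h4 (by positivity)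
        _ = ((U : ℝ) ^ (k + 1)) ^ n *
            ∑ h ∈ range U, MS k U (fun a b => Ψ a b ^ (n + 1)) (s + h) (p * h) := by
            rw [pow_succ (U : ℝ) k, mul_pow]
            ring

private theorem ms_rl (k U V : ℕ) (t : List ℕ) (x : ℝ) : ∀ s p : ℕ,
    MS k U (fun _ b => RL t V (b * x)) s p = RL (List.replicate k U ++ t) V (p * x) := by
  induction k with
  | zero =>
    intro s p
    rfl
  | succ k ih =>
    intro s p
    have e : List.replicate (k + 1) U ++ t = U :: (List.replicate k U ++ t) := by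
      rw [List.replicate_succ, List.cons_append]
    rw [e]
    have e1 : MS (k + 1) U (fun _ b => RL t V (b * x)) s p =
        ∑ h ∈ range U, MS k U (fun _ b => RL t V (b * x)) (s + h) (p * h) := rfl
    have e2 : RL (U :: (List.replicate k U ++ t)) V (p * x) =
        ∑ h ∈ range U, RL (List.replicate k U ++ t) V (h * (p * x)) := rfl
    rw [e1, e2]
    refine Finset.sum_congr rfl fun h _ => ?_
    rw [ih (s + h) (p * h)]
    congr 1
    push_cast
    ring

private theorem ms_rr (k V : ℕ) : ∀ x : ℝ, RR k V x = RL (List.replicate k V) V x := by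
  induction k with
  | zero =>
    intro x
    rfl
  | succ k ih =>
    intro x
    rw [List.replicate_succ]
    unfold RR RL
    exact Finset.sum_congr rfl fun h _ => ih _

private theorem ms_abs (x : ℝ) : |(-x) - round (-x)| = |x - round x| := by
  apply le_antisymm
  · have h := round_le (-x) (-round x)
    refine h.trans (le_of_eq ?_)
    rw [← abs_neg]
    congr 1
    push_cast
    ring
  · have h := round_le x (-round (-x))
    refine h.trans (le_of_eq ?_)
    rw [← abs_neg]
    congr 1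
    push_cast
    ring

private theorem ms_mn (H x : ℝ) : mn H (-x) = mn H x := by
  have h : ∀ y : ℝ, y = round y ↔ |y - round y| = 0 := by
    intro y
    rw [abs_eq_zero, sub_eq_zero]
  unfold mn
  have h1 : (-x = round (-x)) ↔ (x = round x) := by
    rw [h (-x), h x, ms_abs]
  rw [ms_abs]
  by_cases hx : x = round x
  · rw [if_pos hx, if_pos (h1.mpr hx)]
  · rw [if_neg hx, if_neg (fun h' => hx (h1.mp h'))]

private theorem ms_last (V : ℕ) (t : List ℕ) : ∀ x : ℝ,
    RL t V (-x) = RL t V x ∧ 0 ≤ RL t V x ∧ RL t V x ≤ V * (t.prod : ℝ) := by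
  induction t with
  | nil =>
    intro x
    unfold RL
    refine ⟨ms_mn _ _, NC.Wy.mn_nonneg (Nat.cast_nonneg V) x, ?_⟩
    rw [List.prod_nil, Nat.cast_one, mul_one]
    exact NC.Wy.mn_le _ _
  | cons U t ih =>
    intro x
    unfold RL
    refine ⟨?_, ?_, ?_⟩
    · refine Finset.sum_congr rfl fun h _ => ?_
      rw [mul_neg]
      exact (ih _).1
    · exact Finset.sum_nonneg fun h _ => (ih _).2.1
    · refine (Finset.sum_le_sum fun h _ => (ih _).2.2).trans (le_of_eq ?_)
      rw [Finset.sum_const, card_range, nsmul_eq_mul, List.prod_cons]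
      push_cast
      ring

theorem p_ms : S_ms := by
  refine ⟨?_, ?_, ?_, ?_, ?_, ?_, ?_, ?_⟩
  · intro k U Ψ s s' p p'
    exact ms_shift k U Ψ s' p' s p
  · intro k U Ψ Φ h0 s p
    exact ms_mono k U Ψ Φ h0 s p
  · intro k U I Ψ s p
    exact ms_sum k U I Ψ s p
  · intro k U c Ψ s p
    exact ms_mul k U c Ψ s p
  · intro k U n Ψ h0 s p
    exact ⟨ms_nonneg k U Ψ h0 s p, ms_pow k U n Ψ h0 s p⟩
  · intro k U V t x s p
    exact ms_rl k U V t x s p
  · intro k V x
    exact ms_rr k V x
  · intro t V x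
    exact ms_last V t x

end Pool.Agent.HC.W
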