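import Pool.Agent.Lib.MP_0da313_nt.HC.M

set_option autoImplicit false

/-!
Project HC, section M, piece ms2: the masses of the linear members.
-/

namespace Pool.Agent.HC.M

open Finset Filter
open Pool.Agent.MP89da58 (tri)
open Pool.Agent.CH (thP)
open Pool.Agent.CM (wd mu sA sT er BVc CP)
open Pool.Agent.NC (Hn)
open Pool.Agent.NC.M (mN)
open Pool.Agent.HC (Fam2 Sj)

/-! ### The mass of the window -/

private theorem ms2_tri (u : ℝ) :
    tri u = ∫ s in Set.Icc (0 : ℝ) 1, (Set.Ici |u|).indicator (fun _ => (1 : ℝ)) s := by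
  have h : Set.Icc (0 : ℝ) 1 ∩ Set.Ici |u| = Set.Icc |u| 1 := by
    ext s
    simp only [Set.mem_inter_iff, Set.mem_Icc, Set.mem_Ici]
    constructor
    · rintro ⟨⟨-, h1⟩, h2⟩
      exact ⟨h2, h1⟩
    · rintro ⟨h1, h2⟩
      exact ⟨⟨(abs_nonneg u).trans h1, h2⟩, h1⟩
  rw [MeasureTheory.setIntegral_indicator measurableSet_Ici, h, MeasureTheory.setIntegral_const,
    Real.volume_real_Icc]
  unfold tri
  rw [max_comm, smul_eq_mul, mul_one]

private theorem ms2_int (u : ℝ) : MeasureTheory.IntegrableOn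
    ((Set.Ici |u|).indicator (fun _ => (1 : ℝ))) (Set.Icc (0 : ℝ) 1) := by
  apply MeasureTheory.Integrable.indicator _ measurableSet_Ici
  exact MeasureTheory.integrableOn_const (by simp) (by simp)

private theorem ms2_one (X lam s : ℝ) (N : ℕ) (hlam : 1 ≤ lam) (hX : 1 ≤ X)
    (hN : X * Real.exp (1 / lam) ≤ N) (hs0 : 0 ≤ s) (hs1 : s ≤ 1) :
    |∑ n ∈ Icc 1 N, (Set.Ici |lam * Real.log (n / X)|).indicator (fun _ => (1 : ℝ)) s -
        X * (Real.exp (s / lam) - Real.exp (-(s / lam)))| ≤ 2 := by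
  have hX0 : 0 < X := by linarith
  have hl0 : 0 < lam := by linarith
  obtain ⟨y, hy⟩ : ∃ y : ℝ, y = s / lam := ⟨_, rfl⟩
  rw [← hy]
  have hy0 : 0 ≤ y := by rw [hy]; exact div_nonneg hs0 hl0.le
  have hy1 : y ≤ 1 / lam := by
    rw [hy]
    exact div_le_div_of_nonneg_right hs1 hl0.le
  set a : ℕ := ⌈X * Real.exp (-y)⌉₊ with ha
  set b : ℕ := ⌊X * Real.exp y⌋₊ with hb
  have ha1 : X * Real.exp (-y) ≤ a := Nat.le_ceil _
  have ha2 : (a : ℝ) < X * Real.exp (-y) + 1 := Nat.ceil_lt_add_one (by positivity)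
  have hb1 : (b : ℝ) ≤ X * Real.exp y := Nat.floor_le (by positivity)
  have hb2 : X * Real.exp y < b + 1 := Nat.lt_floor_add_one _
  have ha0 : 1 ≤ a := by
    rw [ha]
    exact Nat.one_le_ceil_iff.2 (by positivity)
  have hmono : X * Real.exp (-y) ≤ X * Real.exp y :=
    mul_le_mul_of_nonneg_left (Real.exp_le_exp.2 (by linarith)) hX0.le
  have hbN : b ≤ N := by
    have h1 : (b : ℝ) ≤ N :=
      hb1.trans ((mul_le_mul_of_nonneg_left (Real.exp_le_exp.2 hy1) hX0.le).trans hN)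
    exact_mod_cast h1
  have hab : a ≤ b + 1 := by
    have : (a : ℝ) < b + 2 := by linarith
    have h : a < b + 2 := by exact_mod_cast this
    omega
  have hcond : ∀ n ∈ Icc 1 N, (s ∈ Set.Ici |lam * Real.log (n / X)|) ↔ (a ≤ n ∧ n ≤ b) := by
    intro n hn
    have hn1 : 1 ≤ n := (Finset.mem_Icc.1 hn).1
    have hnr : (0 : ℝ) < n := by exact_mod_cast hn1
    have hnx : 0 < (n : ℝ) / X := by positivity
    rw [Set.mem_Ici, abs_mul, abs_of_pos hl0, mul_comm, ← le_div_iff₀ hl0, ← hy, abs_le,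
      Real.le_log_iff_exp_le hnx, Real.log_le_iff_le_exp hnx, le_div_iff₀ hX0, div_le_iff₀ hX0,
      ha, hb, Nat.ceil_le, Nat.le_floor_iff (by positivity), mul_comm (Real.exp (-y)) X,
      mul_comm (Real.exp y) X]
  have hF : ∑ n ∈ Icc 1 N,
      (Set.Ici |lam * Real.log (n / X)|).indicator (fun _ => (1 : ℝ)) s = (b : ℝ) + 1 - a := by
    have h1 : ∑ n ∈ Icc 1 N,
        (Set.Ici |lam * Real.log (n / X)|).indicator (fun _ => (1 : ℝ)) s =
        ∑ n ∈ (Icc 1 N).filter (fun n => a ≤ n ∧ n ≤ b), (1 : ℝ) := by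
      rw [Finset.sum_filter]
      apply Finset.sum_congr rfl
      intro n hn
      by_cases h : a ≤ n ∧ n ≤ b
      · rw [if_pos h, Set.indicator_of_mem ((hcond n hn).2 h)]
      · rw [if_neg h, Set.indicator_of_notMem (fun h' => h ((hcond n hn).1 h'))]
    have h2 : (Icc 1 N).filter (fun n => a ≤ n ∧ n ≤ b) = Icc a b := by
      ext n
      rw [Finset.mem_filter, Finset.mem_Icc, Finset.mem_Icc]
      omega
    rw [h1, h2, Finset.sum_const, Nat.card_Icc, nsmul_eq_mul, mul_one, Nat.cast_sub hab]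
    push_cast
    ring
  rw [hF, abs_le]
  constructor <;> linarith

private theorem ms2_F (X lam : ℝ) (hlam : 1 ≤ lam) :
    ∫ s in Set.Icc (0 : ℝ) 1, X * (Real.exp (s / lam) - Real.exp (-(s / lam))) =
      mu lam * X := by
  have hl0 : lam ≠ 0 := by linarith
  rw [MeasureTheory.integral_Icc_eq_integral_Ioc, ← intervalIntegral.integral_of_le zero_le_one]
  have h1 : ∀ s ∈ Set.uIcc (0 : ℝ) 1,
      HasDerivAt (fun s => X * (lam * (Real.exp (s / lam) + Real.exp (-(s / lam)))))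
        (X * (Real.exp (s / lam) - Real.exp (-(s / lam)))) s := by
    intro s _
    have h2 : HasDerivAt (fun s : ℝ => s / lam) (1 / lam) s := (hasDerivAt_id s).div_const lam
    have h3 := (h2.exp.add h2.neg.exp).const_mul lam
    have h4 := h3.const_mul X
    have h5 : X * (Real.exp (s / lam) - Real.exp (-(s / lam))) =
        X * (lam * (Real.exp (s / lam) * (1 / lam) + Real.exp (-(s / lam)) * -(1 / lam))) := by
      field_simp
      ring
    rw [h5]
    exact h4
  rw [intervalIntegral.integral_eq_sub_of_hasDerivAt h1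
    (Continuous.intervalIntegrable (by fun_prop) _ _)]
  unfold mu
  rw [Real.cosh_eq]
  simp
  ring

private theorem ms2_sum (X lam : ℝ) (N : ℕ) (hlam : 1 ≤ lam) (hX : 1 ≤ X)
    (hN : X * Real.exp (1 / lam) ≤ N) :
    |∑ n ∈ Icc 1 N, wd lam X n - mu lam * X| ≤ 2 := by
  have h1 : ∑ n ∈ Icc 1 N, wd lam X n =
      ∫ s in Set.Icc (0 : ℝ) 1, ∑ n ∈ Icc 1 N,
        (Set.Ici |lam * Real.log (n / X)|).indicator (fun _ => (1 : ℝ)) s := by
    rw [MeasureTheory.integral_finsetSum]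
    · apply Finset.sum_congr rfl
      intro n _
      exact ms2_tri _
    · intro n _
      exact ms2_int _
  have hint1 : MeasureTheory.IntegrableOn (fun s => ∑ n ∈ Icc 1 N,
        (Set.Ici |lam * Real.log (n / X)|).indicator (fun _ => (1 : ℝ)) s)
        (Set.Icc (0 : ℝ) 1) := by
    apply MeasureTheory.integrable_finsetSum
    intro n _
    exact ms2_int _
  have hint2 : MeasureTheory.IntegrableOn
      (fun s : ℝ => X * (Real.exp (s / lam) - Real.exp (-(s / lam)))) (Set.Icc (0 : ℝ) 1) := by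
    apply ContinuousOn.integrableOn_Icc
    fun_prop
  rw [h1, ← ms2_F X lam hlam, ← MeasureTheory.integral_sub hint1 hint2]
  have h3 := MeasureTheory.norm_setIntegral_le_of_norm_le_const (μ := MeasureTheory.volume)
    (s := Set.Icc (0 : ℝ) 1)
    (f := fun s => ∑ n ∈ Icc 1 N,
        (Set.Ici |lam * Real.log (n / X)|).indicator (fun _ => (1 : ℝ)) s -
          X * (Real.exp (s / lam) - Real.exp (-(s / lam))))
    (C := 2) (by simp) (fun s hs => by
      rw [Real.norm_eq_abs]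
      exact ms2_one X lam s N hlam hX hN hs.1 hs.2)
  rw [Real.norm_eq_abs, Real.volume_real_Icc] at h3
  simpa using h3

/-! ### Elementary facts -/

private theorem ms2_wd {lam Y : ℝ} {n : ℕ} (hlam : 1 ≤ lam) (hY : 0 < Y) (hn : 1 ≤ n)
    (h : wd lam Y n ≠ 0) : Y * Real.exp (-(1 / lam)) < n ∧ (n : ℝ) < Y * Real.exp (1 / lam) := by
  have hl0 : 0 < lam := by linarith
  have hnr : (0 : ℝ) < n := by exact_mod_cast hn
  have h1 : |lam * Real.log (n / Y)| < 1 := by
    by_contra h2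
    push Not at h2
    apply h
    unfold wd tri
    exact max_eq_left (by linarith)
  rw [abs_lt] at h1
  have hny : 0 < (n : ℝ) / Y := by positivity
  constructor
  · have h2 : -(1 / lam) < Real.log (n / Y) := by
      rw [neg_lt, ← mul_lt_mul_iff_right₀ hl0]
      rw [mul_one_div_cancel hl0.ne']
      linarith [h1.1]
    rw [Real.lt_log_iff_exp_lt hny, lt_div_iff₀ hY] at h2
    linarith
  · have h2 : Real.log (n / Y) < 1 / lam := by
      rw [← mul_lt_mul_iff_right₀ hl0, mul_one_div_cancel hl0.ne']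
      exact h1.2
    rw [Real.log_lt_iff_lt_exp hny, div_lt_iff₀ hY] at h2
    linarith

private theorem ms2_exp3 {lam : ℝ} (hlam : 1 ≤ lam) :
    Real.exp (1 / lam) ≤ 3 ∧ 1 / 3 ≤ Real.exp (-(1 / lam)) := by
  have h1 : 1 / lam ≤ 1 := by
    rw [div_le_one (by linarith)]
    exact hlam
  have h2 : Real.exp (1 / lam) ≤ 3 := by
    have h3 := Real.exp_one_lt_d9
    have h4 := Real.exp_le_exp.2 h1
    linarith
  refine ⟨h2, ?_⟩
  rw [Real.exp_neg, ← one_div]
  exact one_div_le_one_div_of_le (Real.exp_pos _) h2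

private theorem ms2_lip (u v : ℝ) : |tri u - tri v| ≤ |u - v| := by
  unfold tri
  have h1 := abs_max_sub_max_le_abs (1 - |u|) (1 - |v|) 0
  rw [max_comm 0, max_comm 0]
  refine h1.trans ?_
  rw [show (1 - |u|) - (1 - |v|) = -(|u| - |v|) by ring, abs_neg]
  exact abs_abs_sub_abs_le _ _

private theorem ms2_log {t : ℝ} (ht : |t| ≤ 1 / 2) : |Real.log (1 + t)| ≤ 2 * |t| := by
  rw [abs_le] at ht
  have h0 : 0 < 1 + t := by linarith [ht.1]
  have h1 := Real.log_le_sub_one_of_pos h0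
  have h2 := Real.one_sub_inv_le_log_of_pos h0
  have h3 : 1 - (1 + t)⁻¹ = t / (1 + t) := by
    field_simp
    ring
  rw [h3] at h2
  have h4 : -(2 * |t|) ≤ t / (1 + t) := by
    rw [le_div_iff₀ h0]
    have h5 : -|t| ≤ t := neg_abs_le t
    have h6 : 0 ≤ |t| := abs_nonneg t
    nlinarith [ht.1]
  rw [abs_le]
  exact ⟨h4.trans h2, by linarith [le_abs_self t, abs_nonneg t]⟩

/-- one term of the comparison -/
private theorem ms2_term {lam X : ℝ} {u : ℕ} {v : ℤ} {x : ℕ} (hlam : 1 ≤ lam) (hu : 1 ≤ u)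
    (hX : 12 * |(v : ℝ)| + 1 ≤ X) (hx : 1 ≤ x) :
    |wd lam X x * thP ((u : ℤ) * x + v).toNat -
      thP ((u : ℤ) * x + v).toNat * wd lam (u * X) ((u : ℤ) * x + v).toNat| ≤
      if (x : ℝ) ≤ 4 * X then lam * (8 * |(v : ℝ)| / X) * Real.log (5 * (u * X)) else 0 := by
  have hv0 := abs_nonneg (v : ℝ)
  have hX0 : 0 < X := by linarith
  have hur : (1 : ℝ) ≤ u := by exact_mod_cast hu
  have hY : 0 < u * X := by positivity
  have hXY : X ≤ u * X := by nlinarith
  have hxr : (1 : ℝ) ≤ x := by exact_mod_cast hx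
  have hlog0 : 0 ≤ Real.log (5 * (u * X)) := Real.log_nonneg (by nlinarith)
  have hrhs : 0 ≤ if (x : ℝ) ≤ 4 * X then
      lam * (8 * |(v : ℝ)| / X) * Real.log (5 * (u * X)) else 0 := by
    split_ifs
    · positivity
    · exact le_rfl
  set n : ℕ := ((u : ℤ) * x + v).toNat with hn
  by_cases hp : thP n = 0
  · rw [hp, mul_zero, zero_mul, sub_zero, abs_zero]
    exact hrhs
  have hpr : n.Prime := by
    by_contra hc
    apply hp
    unfold thP
    exact if_neg hc
  have hn1 : 1 ≤ n := hpr.one_lt.le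
  have hnz : (n : ℤ) = (u : ℤ) * x + v := by
    rw [hn]
    apply Int.toNat_of_nonneg
    omega
  have hnr : (n : ℝ) = u * x + v := by exact_mod_cast hnz
  have hvle := le_abs_self (v : ℝ)
  have hvge := neg_abs_le (v : ℝ)
  obtain ⟨e1, e2⟩ := ms2_exp3 hlam
  by_cases hz : wd lam X x = 0 ∧ wd lam (u * X) n = 0
  · rw [hz.1, hz.2, mul_zero, zero_mul, sub_zero, abs_zero]
    exact hrhs
  have hrange : X / 4 ≤ x ∧ (x : ℝ) ≤ 4 * X := by
    by_cases hz1 : wd lam X x = 0
    · have hz2 : wd lam (u * X) n ≠ 0 := fun h => hz ⟨hz1, h⟩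
      obtain ⟨g1, g2⟩ := ms2_wd hlam hY hn1 hz2
      have g3 : u * X * (1 / 3) < n := lt_of_le_of_lt (mul_le_mul_of_nonneg_left e2 hY.le) g1
      have g4 : (n : ℝ) < u * X * 3 := lt_of_lt_of_le g2 (mul_le_mul_of_nonneg_left e1 hY.le)
      rw [hnr] at g3 g4
      constructor
      · have : (u : ℝ) * (X / 4) ≤ u * x := by nlinarith
        exact le_of_mul_le_mul_left this (by linarith)
      · have : (u : ℝ) * x ≤ u * (4 * X) := by nlinarith
        exact le_of_mul_le_mul_left this (by linarith)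
    · obtain ⟨g1, g2⟩ := ms2_wd hlam hX0 hx hz1
      have g3 : X * (1 / 3) < x := lt_of_le_of_lt (mul_le_mul_of_nonneg_left e2 hX0.le) g1
      have g4 : (x : ℝ) < X * 3 := lt_of_lt_of_le g2 (mul_le_mul_of_nonneg_left e1 hX0.le)
      constructor <;> linarith
  rw [if_pos hrange.2]
  have hux : X / 4 ≤ u * x := by nlinarith [hrange.1]
  have hux0 : (0 : ℝ) < u * x := by positivity
  have ht : |(v : ℝ) / (u * x)| ≤ 4 * |(v : ℝ)| / X := by
    rw [abs_div, abs_of_pos hux0, div_le_div_iff₀ hux0 hX0]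
    nlinarith
  have ht2 : 4 * |(v : ℝ)| / X ≤ 1 / 2 := by
    rw [div_le_iff₀ hX0]
    linarith
  have hlogd : |Real.log (x / X) - Real.log (n / (u * X))| ≤ 8 * |(v : ℝ)| / X := by
    have hnr0 : (0 : ℝ) < n := by exact_mod_cast hn1
    have h1 : (n : ℝ) = u * x * (1 + v / (u * x)) := by
      rw [hnr]
      field_simp
    have h1p : (0 : ℝ) < 1 + v / (u * x) := by
      rw [h1] at hnr0
      exact pos_of_mul_pos_right hnr0 hux0.le
    have h2 : Real.log (x / X) - Real.log (n / (u * X)) = - Real.log (1 + v / (u * x)) := by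
      rw [Real.log_div (by positivity) hX0.ne', Real.log_div hnr0.ne' hY.ne', h1,
        Real.log_mul hux0.ne' h1p.ne', Real.log_mul (by positivity) (by positivity),
        Real.log_mul (by positivity) hX0.ne']
      ring
    rw [h2, abs_neg]
    refine (ms2_log (ht.trans ht2)).trans ?_
    calc 2 * |(v : ℝ) / (u * x)| ≤ 2 * (4 * |(v : ℝ)| / X) := by linarith
      _ = 8 * |(v : ℝ)| / X := by ring
  have hwd : |wd lam X x - wd lam (u * X) n| ≤ lam * (8 * |(v : ℝ)| / X) := by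
    unfold wd
    refine (ms2_lip _ _).trans ?_
    rw [← mul_sub, abs_mul, abs_of_pos (by linarith : 0 < lam)]
    exact mul_le_mul_of_nonneg_left hlogd (by linarith)
  have hth : |thP n| ≤ Real.log (5 * (u * X)) := by
    unfold thP
    rw [if_pos hpr, abs_of_nonneg (Real.log_natCast_nonneg n)]
    apply Real.log_le_log (by exact_mod_cast hn1)
    rw [hnr]
    have : (u : ℝ) * x ≤ u * (4 * X) := mul_le_mul_of_nonneg_left hrange.2 (by linarith)
    linarith
  rw [mul_comm (wd lam X x), ← mul_sub, abs_mul, mul_comm]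
  exact mul_le_mul hwd hth (abs_nonneg _) (by positivity)

/-- the sum over the class is the sum over `x` -/
private theorem ms2_bij {lam X : ℝ} {u : ℕ} {v : ℤ} {H b : ℕ} (hlam : 1 ≤ lam) (hu : 1 ≤ u)
    (hb : (b : ℤ) ≡ v [ZMOD u]) (hX : 12 * |(v : ℝ)| + 1 ≤ X)
    (hH : X * Real.exp (1 / lam) + |(v : ℝ)| + 1 ≤ H) :
    ∑ x ∈ Icc 1 H, thP ((u : ℤ) * x + v).toNat * wd lam (u * X) ((u : ℤ) * x + v).toNat =
      sA (fun n => thP n * wd lam (u * X) n) ⌊3 * (u * X)⌋₊ u b := by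
  have hv0 := abs_nonneg (v : ℝ)
  have hX0 : 0 < X := by linarith
  have hur : (1 : ℝ) ≤ u := by exact_mod_cast hu
  have hY : 0 < u * X := by positivity
  have hXY : X ≤ u * X := by nlinarith
  have hvle := le_abs_self (v : ℝ)
  have hvge := neg_abs_le (v : ℝ)
  obtain ⟨e1, e2⟩ := ms2_exp3 hlam
  have hpos : ∀ x : ℕ, thP ((u : ℤ) * x + v).toNat ≠ 0 →
      1 ≤ ((u : ℤ) * x + v).toNat ∧ ((((u : ℤ) * x + v).toNat : ℕ) : ℤ) = (u : ℤ) * x + v := by
    intro x hx
    have hpr : (((u : ℤ) * x + v).toNat).Prime := by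
      by_contra hc
      apply hx
      unfold thP
      exact if_neg hc
    have h1 := hpr.one_lt.le
    refine ⟨h1, Int.toNat_of_nonneg ?_⟩
    omega
  unfold sA
  refine Finset.sum_bij_ne_zero (fun x _ _ => ((u : ℤ) * x + v).toNat) ?_ ?_ ?_ ?_
  · intro x hx hne
    have h1 : thP ((u : ℤ) * x + v).toNat ≠ 0 := left_ne_zero_of_mul hne
    have h2 : wd lam (u * X) ((u : ℤ) * x + v).toNat ≠ 0 := right_ne_zero_of_mul hne
    obtain ⟨h3, h4⟩ := hpos x h1
    obtain ⟨g1, g2⟩ := ms2_wd hlam hY h3 h2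
    rw [Finset.mem_filter, Finset.mem_Icc]
    refine ⟨⟨h3, Nat.le_floor ?_⟩, ?_⟩
    · have := mul_le_mul_of_nonneg_left e1 hY.le
      linarith
    · rw [← Int.natCast_modEq_iff, h4]
      refine Int.ModEq.trans ?_ hb.symm
      have h5 : (u : ℤ) * x + v ≡ 0 + v [ZMOD u] :=
        Int.ModEq.add_right _ ((Int.modEq_zero_iff_dvd).2 (dvd_mul_right _ _))
      rwa [zero_add] at h5
  · intro x hx hne y hy hne' hxy
    obtain ⟨-, h4⟩ := hpos x (left_ne_zero_of_mul hne)
    obtain ⟨-, h5⟩ := hpos y (left_ne_zero_of_mul hne')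
    have h6 : (u : ℤ) * x + v = (u : ℤ) * y + v := by
      rw [← h4, ← h5]
      exact_mod_cast hxy
    have h7 : (u : ℤ) * x = (u : ℤ) * y := by linarith
    have h8 : (x : ℤ) = y := mul_left_cancel₀ (by positivity) h7
    exact_mod_cast h8
  · intro n hn hne
    rw [Finset.mem_filter, Finset.mem_Icc] at hn
    obtain ⟨⟨hn1, hn2⟩, hn3⟩ := hn
    obtain ⟨g1, g2⟩ := ms2_wd hlam hY hn1 (right_ne_zero_of_mul hne)
    have g3 : u * X * (1 / 3) < n := lt_of_le_of_lt (mul_le_mul_of_nonneg_left e2 hY.le) g1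
    have hmod : (n : ℤ) ≡ v [ZMOD u] := by
      refine Int.ModEq.trans ?_ hb
      exact (Int.natCast_modEq_iff).2 hn3
    obtain ⟨k, hk⟩ := hmod.symm.dvd
    have hkr : (n : ℝ) = u * k + v := by
      have : (n : ℤ) = u * k + v := by linarith
      exact_mod_cast this
    have hk0 : (0 : ℝ) < k := by
      have h1 : (0 : ℝ) < u * k := by linarith
      exact pos_of_mul_pos_right h1 (by linarith)
    have hk1 : 0 < k := by exact_mod_cast hk0
    obtain ⟨x, rfl⟩ := Int.eq_ofNat_of_zero_le hk1.le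
    have hnx : ((u : ℤ) * ((x : ℕ) : ℤ) + v).toNat = n := by
      have : (u : ℤ) * ((x : ℕ) : ℤ) + v = n := by
        have := hk
        linarith
      rw [this, Int.toNat_natCast]
    have hkr' : (n : ℝ) = u * x + v := by
      rw [hkr]
      push_cast
      ring
    have hxH : (x : ℝ) ≤ H := by
      have h1 : (u : ℝ) * x ≤ u * (X * Real.exp (1 / lam) + |(v : ℝ)|) := by
        have h2 : |(v : ℝ)| ≤ u * |(v : ℝ)| := by nlinarith
        nlinarith
      have h2 := le_of_mul_le_mul_left h1 (by linarith)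
      linarith
    refine ⟨x, Finset.mem_Icc.2 ⟨by exact_mod_cast hk1, by exact_mod_cast hxH⟩, ?_, hnx⟩
    rw [hnx]
    exact hne
  · intro x hx hne
    rfl

/-- the sum over the primes `u x + v` -/
private theorem ms2_B (hB : CM.B.R_B) (hm1 : CM.M.R_m1) (lam δ : ℝ) (hlam : 1 ≤ lam)
    (hδ : 0 < δ) (u : ℕ) (v : ℤ) (hu : 1 ≤ u) (huv : IsCoprime (u : ℤ) v) :
    ∀ᶠ X : ℝ in atTop, ∀ H : ℕ, X * Real.exp (1 / lam) + |(v : ℝ)| + 1 ≤ H →
      |∑ x ∈ Icc 1 H, wd lam X x * thP ((u : ℤ) * x + v).toNat -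
        (u : ℝ) / (Nat.totient u : ℝ) * (mu lam * X)| ≤ δ * X := by
  have hur : (1 : ℝ) ≤ u := by exact_mod_cast hu
  have hu0 : (0 : ℝ) < u := by linarith
  have huz : (u : ℤ) ≠ 0 := by positivity
  have htend : Tendsto (fun X : ℝ => (u : ℝ) * X) atTop atTop :=
    tendsto_id.const_mul_atTop hu0
  obtain ⟨b, hb⟩ : ∃ b : ℕ, (b : ℤ) = v % u := ⟨(v % u).toNat,
    Int.toNat_of_nonneg (Int.emod_nonneg _ huz)⟩
  have hbm : (b : ℤ) ≡ v [ZMOD u] := by
    rw [hb]
    exact Int.mod_modEq v u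
  have hbc : b.Coprime u := by
    rw [← Nat.isCoprime_iff_coprime, hb]
    obtain ⟨c, d, hcd⟩ := huv
    refine ⟨d, c + d * (v / u), ?_⟩
    have h1 := Int.emod_add_mul_ediv v u
    calc d * (v % u) + (c + d * (v / u)) * u = c * u + d * (v % u + u * (v / u)) := by ring
      _ = 1 := by rw [h1, hcd]
  have hφ : (1 : ℝ) ≤ (Nat.totient u : ℝ) := by
    have : 0 < Nat.totient u := Nat.totient_pos.2 (by omega)
    exact_mod_cast this
  -- the theorem of Bombieri and Vinogradov for the modulus `u`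
  have h1 := (hB lam hlam).1 1 u 1 (1 / 4) hu (by norm_num)
  have h2 := hm1 lam (δ / (4 * u)) hlam (by positivity)
  have h3 : ∀ᶠ X : ℝ in atTop, 4 * u / δ ≤ Real.log X :=
    Real.tendsto_log_atTop.eventually_ge_atTop _
  have h4 : ∀ᶠ y : ℝ in atTop, ‖Real.log y‖ ≤
      δ / (4 * (32 * lam * (|(v : ℝ)| + 1)) * (5 * u)) * ‖y‖ :=
    (Real.isLittleO_log_id_atTop).def (by positivity)
  have h5 : Tendsto (fun X : ℝ => 5 * ((u : ℝ) * X)) atTop atTop :=
    htend.const_mul_atTop (by norm_num)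
  filter_upwards [htend.eventually h1, htend.eventually h2, htend.eventually h3,
    h5.eventually h4, eventually_ge_atTop (12 * |(v : ℝ)| + 1), eventually_ge_atTop 1]
    with X g1 g2 g3 g4 g5 g6
  intro H hH
  have hX0 : 0 < X := by linarith
  have hY : 0 < u * X := by positivity
  have hv0 := abs_nonneg (v : ℝ)
  have hl0 : 0 < lam := by linarith
  -- (1)
  have k1 : er (fun n => thP n * wd lam (u * X) n) ⌊3 * (u * X)⌋₊ u b ≤
      u * X / Real.log (u * X) := by
    have h6 := g1 thP rfl (fun q => if q = 1 then b else 1) (by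
      intro q
      by_cases hq : q = 1
      · rw [if_pos hq, hq, mul_one]
        exact hbc
      · rw [if_neg hq]
        exact Nat.coprime_one_left _)
    rw [pow_one] at h6
    refine le_trans ?_ h6
    have h7 : (1 : ℕ) ∈ (Icc 1 ⌊((u : ℝ) * X) ^ (1 / 2 - 1 / 4 : ℝ)⌋₊).filter Squarefree := by
      rw [Finset.mem_filter, Finset.mem_Icc]
      refine ⟨⟨le_rfl, Nat.le_floor ?_⟩, squarefree_one⟩
      rw [Nat.cast_one]
      exact Real.one_le_rpow (by nlinarith) (by norm_num)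
    refine le_trans (le_of_eq ?_) (Finset.single_le_sum (f := fun q : ℕ =>
      ((1 : ℕ) : ℝ) ^ q.primeFactors.card * er (fun n => thP n * wd lam (u * X) n)
        ⌊3 * (u * X)⌋₊ (u * q) (if q = 1 then b else 1)) (fun q _ => ?_) h7)
    · simp
    · unfold er
      positivity
  have k2 : u * X / Real.log (u * X) ≤ δ / 4 * X := by
    have hlog : 0 < Real.log (u * X) := lt_of_lt_of_le (by positivity) g3
    rw [div_le_iff₀ hlog]
    rw [div_le_iff₀ hδ] at g3
    nlinarith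
  have k3 : |sT (fun n => thP n * wd lam (u * X) n) ⌊3 * (u * X)⌋₊ / (Nat.totient u : ℝ) -
      (u : ℝ) / (Nat.totient u : ℝ) * (mu lam * X)| ≤ δ / 4 * X := by
    have h6 : sT (fun n => thP n * wd lam (u * X) n) ⌊3 * (u * X)⌋₊ / (Nat.totient u : ℝ) -
      (u : ℝ) / (Nat.totient u : ℝ) * (mu lam * X) =
      (∑ n ∈ Icc 1 ⌊3 * (u * X)⌋₊, thP n * wd lam (u * X) n - mu lam * (u * X)) /
        (Nat.totient u : ℝ) := by
      unfold sT
      field_simp
    rw [h6, abs_div, abs_of_pos (by linarith : (0 : ℝ) < (Nat.totient u : ℝ)),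
      div_le_iff₀ (by linarith)]
    refine g2.trans ?_
    have h7 : δ / (4 * u) * (u * X) = δ / 4 * X := by
      field_simp
    rw [h7]
    have h8 : 0 ≤ δ / 4 * X := by positivity
    nlinarith
  -- (2)
  have k4 : |∑ x ∈ Icc 1 H, wd lam X x * thP ((u : ℤ) * x + v).toNat -
      ∑ x ∈ Icc 1 H, thP ((u : ℤ) * x + v).toNat *
        wd lam (u * X) ((u : ℤ) * x + v).toNat| ≤ δ / 4 * X := by
    rw [← Finset.sum_sub_distrib]
    refine (Finset.abs_sum_le_sum_abs _ _).trans ?_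
    have h6 : ∀ x ∈ Icc 1 H, |wd lam X x * thP ((u : ℤ) * x + v).toNat -
      thP ((u : ℤ) * x + v).toNat * wd lam (u * X) ((u : ℤ) * x + v).toNat| ≤
      if (x : ℝ) ≤ 4 * X then lam * (8 * |(v : ℝ)| / X) * Real.log (5 * (u * X)) else 0 :=
      fun x hx => ms2_term hlam hu g5 (Finset.mem_Icc.1 hx).1
    refine (Finset.sum_le_sum h6).trans ?_
    rw [← Finset.sum_filter, Finset.sum_const, nsmul_eq_mul]
    have h7 : (((Icc 1 H).filter (fun x : ℕ => (x : ℝ) ≤ 4 * X)).card : ℝ) ≤ 4 * X := by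
      have h8 : (Icc 1 H).filter (fun x : ℕ => (x : ℝ) ≤ 4 * X) ⊆ Icc 1 ⌊4 * X⌋₊ := by
        intro x hx
        rw [Finset.mem_filter, Finset.mem_Icc] at hx
        rw [Finset.mem_Icc]
        exact ⟨hx.1.1, Nat.le_floor hx.2⟩
      have h9 := Finset.card_le_card h8
      rw [Nat.card_Icc, Nat.add_sub_cancel] at h9
      have h10 : ((⌊4 * X⌋₊ : ℕ) : ℝ) ≤ 4 * X := Nat.floor_le (by linarith)
      have h11 : (((Icc 1 H).filter (fun x : ℕ => (x : ℝ) ≤ 4 * X)).card : ℝ) ≤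
        ((⌊4 * X⌋₊ : ℕ) : ℝ) := by exact_mod_cast h9
      linarith
    have hlog0 : 0 ≤ Real.log (5 * (u * X)) := Real.log_nonneg (by nlinarith)
    have h8 : Real.log (5 * (u * X)) ≤
        δ / (4 * (32 * lam * (|(v : ℝ)| + 1)) * (5 * u)) * (5 * (u * X)) := by
      rw [Real.norm_of_nonneg hlog0, Real.norm_of_nonneg (by positivity)] at g4
      exact g4
    have h9 : δ / (4 * (32 * lam * (|(v : ℝ)| + 1)) * (5 * u)) * (5 * (u * X)) =
        δ * X / (4 * (32 * lam * (|(v : ℝ)| + 1))) := by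
      field_simp
    rw [h9, le_div_iff₀ (by positivity)] at h8
    have h10 : 0 ≤ lam * (8 * |(v : ℝ)| / X) * Real.log (5 * (u * X)) := by positivity
    calc _ ≤ 4 * X * (lam * (8 * |(v : ℝ)| / X) * Real.log (5 * (u * X))) :=
          mul_le_mul_of_nonneg_right h7 h10
      _ = 32 * lam * |(v : ℝ)| * Real.log (5 * (u * X)) := by
          field_simp
          ring
      _ ≤ 32 * lam * (|(v : ℝ)| + 1) * Real.log (5 * (u * X)) := by
          apply mul_le_mul_of_nonneg_right _ hlog0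
          apply mul_le_mul_of_nonneg_left _ (by positivity)
          linarith
      _ ≤ δ / 4 * X := by linarith
  rw [ms2_bij hlam hu hbm g5 hH] at k4
  unfold er at k1
  have k1' := k1.trans k2
  rw [abs_le] at k1' k3 k4 ⊢
  constructor <;> linarith [k1'.1, k1'.2, k3.1, k3.2, k4.1, k4.2]

/-! ### The masses -/

theorem p_ms2 : S_ms2 := by
  intro hB hmu hm1 ι κ _ _ _ _ D d E H
  have hd : (2 : ℝ) ≤ d := by exact_mod_cast H.F.hd
  have hE : (1 : ℝ) ≤ E := by exact_mod_cast H.F.hE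
  have hd0 : (0 : ℝ) < d := by linarith
  obtain ⟨lam, hlamd⟩ : ∃ lam : ℝ, lam = 1000 * d * E := ⟨_, rfl⟩
  have hdE : (2 : ℝ) ≤ (d : ℝ) * E := by nlinarith
  have hlam : 1 ≤ lam := by rw [hlamd]; nlinarith
  have hl0 : 0 < lam := by linarith
  obtain ⟨hmu1, -⟩ := hmu lam hlam
  have hs0 := H.F.hs0
  have hs1 := H.F.hs1
  have hdi : 0 < 1 / (d : ℝ) := by positivity
  -- the tendency to infinity
  have hx0 : Tendsto (fun N : ℕ => (N : ℝ) ^ (1 / (d : ℝ))) atTop atTop :=
    (tendsto_rpow_atTop hdi).comp tendsto_natCast_atTop_atTop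
  have hXt : Tendsto (fun N : ℕ => H.F.X N) atTop atTop := by
    have h1 : Tendsto (fun N : ℕ => H.F.s * (N : ℝ)) atTop atTop :=
      tendsto_natCast_atTop_atTop.const_mul_atTop (by linarith)
    exact (tendsto_rpow_atTop hdi).comp h1
  -- the constant
  obtain ⟨c, hc⟩ : ∃ c : ℝ, c = Real.exp ((1 / 1000 - Real.log 2) / d) := ⟨_, rfl⟩
  have hc1 : c < 1 := by
    rw [hc, Real.exp_lt_one_iff]
    apply div_neg_of_neg_of_pos _ hd0
    have := Real.log_two_gt_d9
    linarith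
  have hXc : ∀ N : ℕ, H.F.X N * Real.exp (1 / lam) ≤ c * (N : ℝ) ^ (1 / (d : ℝ)) := by
    intro N
    have h1 : H.F.X N = H.F.s ^ (1 / (d : ℝ)) * (N : ℝ) ^ (1 / (d : ℝ)) := by
      unfold NC.Fam.X
      rw [Real.mul_rpow (by linarith) (Nat.cast_nonneg N)]
    have h2 : H.F.s ^ (1 / (d : ℝ)) ≤ Real.exp (-Real.log 2 / d) := by
      have h3 : H.F.s ^ (1 / (d : ℝ)) ≤ (1 / 2 : ℝ) ^ (1 / (d : ℝ)) :=
        Real.rpow_le_rpow (by linarith) hs1 hdi.le
      refine h3.trans (le_of_eq ?_)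
      rw [Real.rpow_def_of_pos (by norm_num)]
      congr 1
      rw [one_div 2, Real.log_inv]
      ring
    have h3 : Real.exp (1 / lam) ≤ Real.exp (1 / 1000 / d) := by
      apply Real.exp_le_exp.2
      rw [hlamd, div_div]
      apply one_div_le_one_div_of_le (by positivity)
      nlinarith
    have h4 : c = Real.exp (-Real.log 2 / d) * Real.exp (1 / 1000 / d) := by
      rw [hc, ← Real.exp_add]
      congr 1
      ring
    have h5 : (0 : ℝ) ≤ (N : ℝ) ^ (1 / (d : ℝ)) := Real.rpow_nonneg (Nat.cast_nonneg N) _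
    have h6 : H.F.s ^ (1 / (d : ℝ)) * Real.exp (1 / lam) ≤ c := by
      rw [h4]
      exact mul_le_mul h2 h3 (Real.exp_pos _).le (Real.exp_pos _).le
    rw [h1]
    calc _ = H.F.s ^ (1 / (d : ℝ)) * Real.exp (1 / lam) * (N : ℝ) ^ (1 / (d : ℝ)) := by ring
      _ ≤ _ := mul_le_mul_of_nonneg_right h6 h5
  have hHn : ∀ K : ℝ, ∀ᶠ N : ℕ in atTop, H.F.X N * Real.exp (1 / lam) + K + 1 ≤ (Hn d N : ℝ) := by
    intro K
    filter_upwards [hx0.eventually_ge_atTop ((K + 2) / (1 - c))] with N hN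
    have h1 := Nat.lt_floor_add_one ((N : ℝ) ^ (1 / (d : ℝ)))
    have h2 := hXc N
    rw [div_le_iff₀ (by linarith)] at hN
    unfold Hn
    linarith
  rw [eventually_all]
  intro j
  have hB' := ms2_B hB hm1 lam (1 / (1000 * lam)) hlam (by positivity) (H.u j) (H.v j) (H.hu j)
    (H.huv j)
  filter_upwards [hXt.eventually hB', hHn |((H.v j : ℤ) : ℝ)|, hHn 0,
    hXt.eventually_ge_atTop (2000 * lam)] with N g1 g2 g3 g4
  have hX0 : 0 < H.F.X N := by nlinarith
  have k1 := g1 (Hn d N) g2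
  have k2 := ms2_sum (H.F.X N) lam (Hn d N) hlam (by nlinarith) (by linarith)
  have hSj : Sj H N j = ∑ x ∈ Icc 1 (Hn d N), wd lam (H.F.X N) x *
      thP ((H.u j : ℤ) * x + H.v j).toNat := by
    unfold Sj Fam2.M NC.Fam.wh
    rw [hlamd]
  have hm : mN H.F N = ∑ x ∈ Icc 1 (Hn d N), wd lam (H.F.X N) x := by
    unfold mN NC.Fam.wh
    rw [hlamd]
  rw [← hSj] at k1
  rw [← hm] at k2
  obtain ⟨M, hM⟩ : ∃ M : ℝ, M = mu lam * H.F.X N := ⟨_, rfl⟩
  rw [← hM] at k1 k2
  have hMX : H.F.X N / lam ≤ M := by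
    rw [hM]
    calc H.F.X N / lam = 1 / lam * H.F.X N := by ring
      _ ≤ _ := mul_le_mul_of_nonneg_right hmu1 hX0.le
  have hM2 : 2 ≤ 1 / 1000 * M := by
    have : 2000 ≤ H.F.X N / lam := by
      rw [le_div_iff₀ hl0]
      exact g4
    linarith
  have hM0 : 0 < M := by linarith
  have hM3 : 1 / (1000 * lam) * H.F.X N ≤ 1 / 1000 * M := by
    calc 1 / (1000 * lam) * H.F.X N = 1 / 1000 * (H.F.X N / lam) := by
          field_simp
      _ ≤ _ := by linarith
  obtain ⟨r, hr⟩ : ∃ r : ℝ, r = (H.u j : ℝ) / (Nat.totient (H.u j) : ℝ) := ⟨_, rfl⟩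
  have hr1 : 1 ≤ r := by
    have h1 : 0 < Nat.totient (H.u j) := Nat.totient_pos.2 (H.hu j)
    have h2 : (0 : ℝ) < (Nat.totient (H.u j) : ℝ) := by exact_mod_cast h1
    rw [hr, le_div_iff₀ h2, one_mul]
    exact_mod_cast Nat.totient_le _
  rw [← hr] at k1 ⊢
  have k1' := k1.trans hM3
  have k2' := k2.trans hM2
  rw [abs_le] at k1' k2'
  have hrM : M ≤ r * M := by nlinarith
  constructor
  · have : r * mN H.F N ≤ r * (1001 / 1000 * M) :=
      mul_le_mul_of_nonneg_left (by linarith [k2'.2]) (by linarith)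
    linarith [k1'.1]
  · have : r * (999 / 1000 * M) ≤ r * mN H.F N :=
      mul_le_mul_of_nonneg_left (by linarith [k2'.1]) (by linarith)
    linarith [k1'.2]

end Pool.Agent.HC.M
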