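import Pool.Agent.Lib.MP_0da313_nt.HC.F

set_option autoImplicit false

/-!
Project HC, piece [HF nu2]: the numerical inequality behind the final count.
-/

namespace Pool.Agent.HC.F

private theorem nu2_core (Ψ Q ρ₁ ρ₂ e E x T T1 T2 s12 s1 s2 a₁ a₂ β₁ β₂ R : ℝ)
    (hΨ : 0 ≤ Ψ) (hQ : 0 ≤ Q) (hρ₁ : 0 ≤ ρ₁) (hρ₂ : 0 ≤ ρ₂)
    (h12 : β₁ * β₂ - E * e ≤ s12) (h1 : s1 ≤ β₁ * (2 * a₂) + E * e)
    (h2 : s2 ≤ 2 * a₁ * β₂ + E * e)
    (hT : 8 / 10 * Ψ * s12 - E * (x * e) ≤ T) (hT1 : T1 ≤ 11 / 10 * Q * s1 + E * (x * e))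
    (hT2 : T2 ≤ 11 / 10 * Q * s2 + E * (x * e))
    (hA1 : ρ₁ * (11 / 10 * Q * (2 * a₁ * β₂)) ≤ 22 / 1000 * (Ψ * (β₁ * β₂)))
    (hA2 : ρ₂ * (11 / 10 * Q * (β₁ * (2 * a₂))) ≤ 22 / 1000 * (Ψ * (β₁ * β₂)))
    (hR0 : 0 ≤ R) (hR : R ≤ Ψ * (β₁ * β₂))
    (hX : E * e * (8 / 10 * Ψ + x + (ρ₁ + ρ₂) * (11 / 10 * Q + x)) ≤ 1 / 4 * R) :
    1 / 2 * R ≤ T - ρ₁ * T2 - ρ₂ * T1 := by
  have b1 : 8 / 10 * Ψ * (β₁ * β₂ - E * e) ≤ 8 / 10 * Ψ * s12 :=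
    mul_le_mul_of_nonneg_left h12 (by positivity)
  have b2 : 11 / 10 * Q * s1 ≤ 11 / 10 * Q * (β₁ * (2 * a₂) + E * e) :=
    mul_le_mul_of_nonneg_left h1 (by positivity)
  have b3 : 11 / 10 * Q * s2 ≤ 11 / 10 * Q * (2 * a₁ * β₂ + E * e) :=
    mul_le_mul_of_nonneg_left h2 (by positivity)
  have b4 : ρ₂ * T1 ≤ ρ₂ * (11 / 10 * Q * (β₁ * (2 * a₂) + E * e) + E * (x * e)) :=
    mul_le_mul_of_nonneg_left (by linarith) hρ₂
  have b5 : ρ₁ * T2 ≤ ρ₁ * (11 / 10 * Q * (2 * a₁ * β₂ + E * e) + E * (x * e)) :=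
    mul_le_mul_of_nonneg_left (by linarith) hρ₁
  linarith

theorem p_nu2 : S_nu2 := by
  intro D d C K1 K2 c1 t0 E hd hC hK1 hK2 hc1 ht0 hE
  have hdR : (1 : ℝ) ≤ d := by exact_mod_cast hd
  have hd0 : (0 : ℝ) < d := by linarith
  have hCR : (1 : ℝ) ≤ C := by exact_mod_cast hC
  set C0 : ℝ := 800000 + C + (K1 + K2) * (11 + C / 100) with hC0
  have hC0p : 0 < C0 := by
    have : 0 ≤ (K1 + K2) * (11 + (C : ℝ) / 100) := by positivity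
    linarith
  have hden : 0 < c1 * t0 ^ 2 := by positivity
  refine ⟨max 1 (16 * d ^ 2 * (E * C0) / (c1 * t0 ^ 2)), ?_⟩
  intro l h m x v k τ₁ τ₂ a₁ a₂ β₁ β₂ q12 q1 q2 T T1 T2 hl hlh hhl hm hmx hxm hv hv1 hk hkl
    hτ₁ hτ₂ hτ₁1 hτ₂1 ha₁ ha₂ hβ₁ hβ₂ h12 h1 h2 hT hT1 hT2
  have hl1 : 1 ≤ l := le_trans (le_max_left _ _) hl
  have hl2 : 16 * d ^ 2 * (E * C0) / (c1 * t0 ^ 2) ≤ l := le_trans (le_max_right _ _) hl
  have hl0 : 0 < l := by linarith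
  have hh0 : 0 < h := by
    by_contra hcon
    have : 2 * (d : ℝ) * h ≤ 0 := mul_nonpos_of_nonneg_of_nonpos (by positivity) (by linarith)
    linarith
  have hLp : 0 < l ^ (8 * D) := pow_pos hl0 _
  have hv0 : 0 < v := lt_of_lt_of_le (by positivity) hv
  have hτ₁0 : 0 < τ₁ := lt_of_lt_of_le ht0 hτ₁
  have hτ₂0 : 0 < τ₂ := lt_of_lt_of_le ht0 hτ₂
  have hK10 : 0 < K1 := by linarith
  have hK20 : 0 < K2 := by linarith
  have hx0 : 0 ≤ x := hm.trans hmx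
  set e : ℝ := 1 / l ^ (8 * D + 8) with he
  have he0 : 0 < e := by positivity
  have hEe : ∀ y : ℝ, E * (y / l ^ (8 * D + 8)) = E * (y * e) := by
    intro y
    rw [he, mul_one_div]
  have hEe2 : E / l ^ (8 * D + 8) = E * e := by
    rw [he, mul_one_div]
  rw [hEe2] at h12 h1 h2
  rw [hEe] at hT hT1 hT2
  -- `1 / k`
  have hu : 1 / k ≤ 1000 * l := by
    rw [div_le_iff₀ hk]
    linarith
  have hu0 : 0 < 1 / k := by positivity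
  set Ψ : ℝ := m * (v / k ^ 2) with hΨ
  set Q : ℝ := m * (v / k) with hQ
  have hΨ0 : 0 ≤ Ψ := by positivity
  have hQ0 : 0 ≤ Q := by positivity
  have hQΨ : Q = Ψ * k := by
    rw [hQ, hΨ]; field_simp
  have hb₁ : 0 ≤ K1 * (τ₁ * (k * h) * a₁) := by positivity
  have hb₂ : 0 ≤ K2 * (τ₂ * (k * h) * a₂) := by positivity
  have hβ₁0 : 0 ≤ β₁ := hb₁.trans hβ₁
  have hβ₂0 : 0 ≤ β₂ := hb₂.trans hβ₂
  -- the two main terms
  have hA1 : (K1 * τ₁ * h / 100) * (11 / 10 * Q * (2 * a₁ * β₂)) ≤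
      22 / 1000 * (Ψ * (β₁ * β₂)) := by
    have h3 : (K1 * τ₁ * h / 100) * (11 / 10 * Q * (2 * a₁ * β₂)) =
        22 / 1000 * (Ψ * β₂) * (K1 * (τ₁ * (k * h) * a₁)) := by
      rw [hQΨ]; ring
    rw [h3]
    have h4 := mul_le_mul_of_nonneg_left hβ₁ (by positivity : 0 ≤ 22 / 1000 * (Ψ * β₂))
    calc 22 / 1000 * (Ψ * β₂) * (K1 * (τ₁ * (k * h) * a₁)) ≤ 22 / 1000 * (Ψ * β₂) * β₁ := h4
      _ = 22 / 1000 * (Ψ * (β₁ * β₂)) := by ring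
  have hA2 : (K2 * τ₂ * h / 100) * (11 / 10 * Q * (β₁ * (2 * a₂))) ≤
      22 / 1000 * (Ψ * (β₁ * β₂)) := by
    have h3 : (K2 * τ₂ * h / 100) * (11 / 10 * Q * (β₁ * (2 * a₂))) =
        22 / 1000 * (Ψ * β₁) * (K2 * (τ₂ * (k * h) * a₂)) := by
      rw [hQΨ]; ring
    rw [h3]
    have h4 := mul_le_mul_of_nonneg_left hβ₂ (by positivity : 0 ≤ 22 / 1000 * (Ψ * β₁))
    calc 22 / 1000 * (Ψ * β₁) * (K2 * (τ₂ * (k * h) * a₂)) ≤ 22 / 1000 * (Ψ * β₁) * β₂ := h4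
      _ = 22 / 1000 * (Ψ * (β₁ * β₂)) := by ring
  set R : ℝ := m * v * (K1 * K2 * (τ₁ * τ₂) * h ^ 2) with hR
  have hR0 : 0 ≤ R := by positivity
  have hRle : R ≤ Ψ * (β₁ * β₂) := by
    have h3 : (K1 * (τ₁ * (k * h) * a₁)) * (K2 * (τ₂ * (k * h) * a₂)) ≤ β₁ * β₂ :=
      mul_le_mul hβ₁ hβ₂ hb₂ hβ₁0
    have h4 := mul_le_mul_of_nonneg_left h3 hΨ0
    have h5 : Ψ * ((K1 * (τ₁ * (k * h) * a₁)) * (K2 * (τ₂ * (k * h) * a₂))) = R * (a₁ * a₂) := by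
      rw [hΨ, hR]
      field_simp
    have h6 : 1 ≤ a₁ * a₂ := one_le_mul_of_one_le_of_one_le ha₁ ha₂
    rw [h5] at h4
    exact (le_mul_of_one_le_right hR0 h6).trans h4
  -- the errors
  have hRge : m * (c1 / l ^ (8 * D)) * (t0 ^ 2 * (l ^ 2 / (4 * d ^ 2))) ≤ R := by
    rw [hR]
    have h7 : l ^ 2 / (4 * d ^ 2) ≤ h ^ 2 := by
      rw [div_le_iff₀ (by positivity)]
      have h8 : l ^ 2 ≤ (2 * d * h) ^ 2 := pow_le_pow_left₀ hl0.le hlh 2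
      linarith
    have h3 : t0 ^ 2 * (l ^ 2 / (4 * d ^ 2)) ≤ K1 * K2 * (τ₁ * τ₂) * h ^ 2 := by
      apply mul_le_mul _ h7 (by positivity) (by positivity)
      have h4 : t0 * t0 ≤ τ₁ * τ₂ := mul_le_mul hτ₁ hτ₂ ht0.le hτ₁0.le
      have h5 : 1 ≤ K1 * K2 := one_le_mul_of_one_le_of_one_le hK1 hK2
      have h6 : τ₁ * τ₂ ≤ K1 * K2 * (τ₁ * τ₂) :=
        le_mul_of_one_le_left (mul_pos hτ₁0 hτ₂0).le h5
      rw [pow_two]
      exact h4.trans h6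
    apply mul_le_mul (mul_le_mul_of_nonneg_left hv hm) h3 (by positivity) (by positivity)
  have hQle : Q ≤ m * (1000 * l) := by
    have h3 : v / k ≤ 1 * (1000 * l) := by
      rw [div_eq_mul_one_div]
      exact mul_le_mul hv1 hu hu0.le (by norm_num)
    calc Q ≤ m * (1 * (1000 * l)) := mul_le_mul_of_nonneg_left h3 hm
      _ = m * (1000 * l) := by ring
  have hΨle : Ψ ≤ m * (1000000 * l ^ 2) := by
    have h3 : v / k ^ 2 ≤ 1 * ((1000 * l) * (1000 * l)) := by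
      have h4 : v / k ^ 2 = v * ((1 / k) * (1 / k)) := by
        field_simp
      rw [h4]
      exact mul_le_mul hv1 (mul_le_mul hu hu hu0.le (by positivity)) (by positivity) (by norm_num)
    calc Ψ ≤ m * (1 * ((1000 * l) * (1000 * l))) := mul_le_mul_of_nonneg_left h3 hm
      _ = m * (1000000 * l ^ 2) := by ring
  have hρ₁ : 0 ≤ K1 * τ₁ * h / 100 := by positivity
  have hρ₂ : 0 ≤ K2 * τ₂ * h / 100 := by positivity
  have hρ : K1 * τ₁ * h / 100 + K2 * τ₂ * h / 100 ≤ (K1 + K2) * l / 100 := by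
    have h3 : K1 * τ₁ ≤ K1 * 1 := mul_le_mul_of_nonneg_left hτ₁1 hK10.le
    have h4 : K2 * τ₂ ≤ K2 * 1 := mul_le_mul_of_nonneg_left hτ₂1 hK20.le
    have h5 := mul_le_mul h3 hhl hh0.le (by positivity)
    have h6 := mul_le_mul h4 hhl hh0.le (by positivity)
    linarith
  have hsum : 8 / 10 * Ψ + x +
      (K1 * τ₁ * h / 100 + K2 * τ₂ * h / 100) * (11 / 10 * Q + x) ≤ m * l ^ 2 * C0 := by
    have hl21 : 1 ≤ l ^ 2 := one_le_pow₀ hl1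
    have hmC : 0 ≤ m * C := by positivity
    have hxm' : x ≤ m * C := by linarith
    have h3 : 11 / 10 * Q + x ≤ m * l * (1100 + C) := by
      have h5 : m * C ≤ m * C * l := le_mul_of_one_le_right hmC hl1
      linarith
    have h4 : (K1 * τ₁ * h / 100 + K2 * τ₂ * h / 100) * (11 / 10 * Q + x) ≤
        (K1 + K2) * l / 100 * (m * l * (1100 + C)) :=
      mul_le_mul hρ h3 (by positivity) (by positivity)
    have h5 : m * C ≤ m * C * l ^ 2 := le_mul_of_one_le_right hmC hl21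
    have h6 : m * l ^ 2 * C0 = m * l ^ 2 * 800000 + m * C * l ^ 2 +
        (K1 + K2) * l / 100 * (m * l * (1100 + C)) := by
      rw [hC0]; ring
    rw [h6]
    linarith
  have hX : E * e * (8 / 10 * Ψ + x +
      (K1 * τ₁ * h / 100 + K2 * τ₂ * h / 100) * (11 / 10 * Q + x)) ≤ 1 / 4 * R := by
    have h3 := mul_le_mul_of_nonneg_left hsum (show 0 ≤ E * e by positivity)
    refine h3.trans ?_
    have h4 : 16 * d ^ 2 * (E * C0) ≤ (c1 * t0 ^ 2) * l ^ 8 := by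
      rw [div_le_iff₀ hden] at hl2
      have h5 : l ≤ l ^ 8 := le_self_pow₀ hl1 (by norm_num)
      have h6 := mul_le_mul_of_nonneg_right h5 hden.le
      linarith
    have h5 : E * e * (m * l ^ 2 * C0) =
        m * l ^ 2 * (1 / (16 * d ^ 2)) * e * (16 * d ^ 2 * (E * C0)) := by
      field_simp
    have h6 := mul_le_mul_of_nonneg_left h4
      (show 0 ≤ m * l ^ 2 * (1 / (16 * (d : ℝ) ^ 2)) * e by positivity)
    have h7 : m * l ^ 2 * (1 / (16 * (d : ℝ) ^ 2)) * e * ((c1 * t0 ^ 2) * l ^ 8) =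
        1 / 4 * (m * (c1 / l ^ (8 * D)) * (t0 ^ 2 * (l ^ 2 / (4 * d ^ 2)))) := by
      rw [he, pow_add]
      field_simp
      ring
    rw [h5]
    rw [h7] at h6
    linarith
  have hfin := nu2_core Ψ Q (K1 * τ₁ * h / 100) (K2 * τ₂ * h / 100) e E x T T1 T2 q12 q1 q2
    a₁ a₂ β₁ β₂ R hΨ0 hQ0 hρ₁ hρ₂ h12 h1 h2 hT hT1 hT2 hA1 hA2 hR0 hRle hX
  have hfin2 : 1 / 2 * (m * v) * (K1 * K2 * (τ₁ * τ₂) * h ^ 2) = 1 / 2 * R := by
    rw [hR]; ring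
  rw [hfin2]
  exact hfin

end Pool.Agent.HC.F
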