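import Pool.Agent.Lib.MP_0da313_nt.HC.E

set_option autoImplicit false

/-!
Project HC, section E, piece qs2: grouping by classes modulo `q`.
-/

namespace Pool.Agent.HC.E

open Finset Filter Polynomial
open Pool.Agent.CH (thP)
open Pool.Agent.TC (Lw wN)
open Pool.Agent.GC (tz Pm)
open Pool.Agent.NC (Hn Bn)
open Pool.Agent.NC.G (EL Rn)
open Pool.Agent.HC (Fam2 Cq2 Er2 ErS2)

private lemma qs2_cop {q a b : ℤ} (h : q ∣ a - b) : IsCoprime q a ↔ IsCoprime q b := by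
  obtain ⟨t, ht⟩ := h
  have e : a = b + q * t := by linarith
  rw [e]
  exact IsCoprime.add_mul_left_right_iff

private lemma qs2_Cq {ι κ : Type} [Fintype ι] [DecidableEq ι] [Fintype κ] [DecidableEq κ]
    {D d E : ℕ} (H : Fam2 ι κ D d E) (l : ι) (j : κ) (q n n' : ℕ) (hn : H.F.N0 ≤ n)
    (hn' : H.F.N0 ≤ n') (h : n ≡ n' [MOD q]) : Cq2 H n q l j = Cq2 H n' q l j := by
  classical
  unfold Cq2
  refine filter_congr fun c _ => ?_
  have hq : (q : ℤ) ∣ (n' : ℤ) - n := Nat.modEq_iff_dvd.1 h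
  have hG := H.F.hper n n' q hn hn' h c
  have h1 : ((q : ℤ) ∣ (H.F.G n).eval (c : ℤ)) ↔ ((q : ℤ) ∣ (H.F.G n').eval (c : ℤ)) :=
    dvd_iff_dvd_of_dvd_sub hG
  have h2 : IsCoprime (q : ℤ) (H.F.L n l c * H.M j c) ↔
      IsCoprime (q : ℤ) (H.F.L n' l c * H.M j c) := by
    apply qs2_cop
    have e : H.F.L n l c * H.M j c - H.F.L n' l c * H.M j c =
        -(H.F.a l * H.M j c * ((n' : ℤ) - n)) := by
      unfold NC.Fam.L; ring
    rw [e]
    exact dvd_neg.2 (Dvd.dvd.mul_left hq _)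
  rw [h1, h2]

private lemma qs2_sub {ι κ : Type} [Fintype ι] [DecidableEq ι] [Fintype κ] [DecidableEq κ]
    {D d E : ℕ} (H : Fam2 ι κ D d E) (l : ι) (j : κ) (q n : ℕ) :
    Cq2 H n q l j ⊆ NC.Cq H.F n q l := by
  classical
  intro c hc
  simp only [Cq2, mem_filter] at hc
  simp only [NC.Cq, mem_filter]
  exact ⟨hc.1, hc.2.1, hc.2.2.of_mul_right_left⟩

/-- Summation over classes. -/
private lemma qs2_sum {S : Finset ℕ} {q : ℕ} (hq : 1 ≤ q) (C : ℕ → Finset ℕ) (f : ℕ → ℕ → ℝ)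
    (K T : ℝ) (hT : 0 ≤ T) (hK : 0 ≤ K)
    (hC : ∀ n ∈ S, ∀ n' ∈ S, n ≡ n' [MOD q] → C n = C n')
    (hcard : ∀ n ∈ S, ((C n).card : ℝ) ≤ K)
    (hf : ∀ n0 ∈ S, ∀ c ∈ C n0, ∑ n ∈ S.filter (fun n => n ≡ n0 [MOD q]), f n c ≤ T) :
    ∑ n ∈ S, ∑ c ∈ C n, f n c ≤ q * (K * T) := by
  have h1 : ∑ n ∈ S, ∑ c ∈ C n, f n c =
      ∑ ν ∈ range q, ∑ n ∈ S.filter (fun n => n % q = ν), ∑ c ∈ C n, f n c := by
    symm
    apply sum_fiberwise_of_maps_to
    intro n _
    exact mem_range.2 (Nat.mod_lt _ hq)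
  rw [h1]
  have h2 : ∀ ν ∈ range q, ∑ n ∈ S.filter (fun n => n % q = ν), ∑ c ∈ C n, f n c ≤ K * T := by
    intro ν _
    rcases (S.filter (fun n => n % q = ν)).eq_empty_or_nonempty with h | ⟨n0, hn0⟩
    · rw [h, sum_empty]
      positivity
    · rw [mem_filter] at hn0
      obtain ⟨hn0, hν⟩ := hn0
      have e : S.filter (fun n => n % q = ν) = S.filter (fun n => n ≡ n0 [MOD q]) := by
        refine filter_congr fun n _ => ?_
        unfold Nat.ModEq
        rw [hν]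
      rw [e]
      have h3 : ∑ n ∈ S.filter (fun n => n ≡ n0 [MOD q]), ∑ c ∈ C n, f n c =
          ∑ c ∈ C n0, ∑ n ∈ S.filter (fun n => n ≡ n0 [MOD q]), f n c := by
        rw [sum_comm]
        refine sum_congr rfl fun n hn => ?_
        rw [mem_filter] at hn
        rw [hC n hn.1 n0 hn0 hn.2]
      rw [h3]
      calc ∑ c ∈ C n0, ∑ n ∈ S.filter (fun n => n ≡ n0 [MOD q]), f n c
          ≤ ∑ _c ∈ C n0, T := sum_le_sum fun c hc => hf n0 hn0 c hc
        _ = (C n0).card * T := by rw [sum_const, nsmul_eq_mul]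
        _ ≤ K * T := mul_le_mul_of_nonneg_right (hcard n0 hn0) hT
  calc ∑ ν ∈ range q, ∑ n ∈ S.filter (fun n => n % q = ν), ∑ c ∈ C n, f n c
      ≤ ∑ _ν ∈ range q, K * T := sum_le_sum h2
    _ = q * (K * T) := by rw [sum_const, nsmul_eq_mul, card_range]

theorem p_qs2 : S_qs2 := by
  intro hsgq hcq ι κ _ _ _ _ D d E H l j A
  obtain ⟨B, C, hC, hev⟩ := hsgq ι κ D d E H l j A
  refine ⟨B, C, hC, ?_⟩
  filter_upwards [hev, eventually_ge_atTop H.F.N0] with N hN hN0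
  intro w k q M hPm hsq hqN hM hE
  have hq1 : 1 ≤ q := Nat.pos_of_ne_zero hsq.ne_zero
  have hqr : (q : ℝ) ≠ 0 := by
    have : q ≠ 0 := by omega
    exact_mod_cast this
  have hlog : 0 ≤ Real.log (N : ℝ) := Real.log_natCast_nonneg _
  set T : ℝ := C * ((N : ℝ) ^ (1 / (d : ℝ)) *
      (N * Real.log N / (q ^ 2 * (Real.log N) ^ A) +
        (Real.log N) ^ (2 * B + 1) * (q ^ (2 * d - 2) * M))) with hTd
  have hT : 0 ≤ T := by positivity
  have key := qs2_sum (S := Ioc N (Bn E N)) hq1 (fun n => Cq2 H n q l j)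
    (fun n c => |Er2 H N w n l j q c|) ((D : ℝ) ^ q.primeFactors.card) T hT (by positivity)
    ?_ ?_ ?_
  · refine key.trans (le_of_eq ?_)
    have h1 : (q : ℝ) ^ (2 * d - 1) = q * q ^ (2 * d - 2) := by
      rw [← pow_succ']
      congr 1
      have := H.F.hd
      omega
    have h2 : (N : ℝ) * Real.log N / (q * (Real.log N) ^ A) =
        q * (N * Real.log N / (q ^ 2 * (Real.log N) ^ A)) := by
      rw [pow_two, mul_assoc, ← mul_div_assoc, mul_div_mul_left _ _ hqr]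
    rw [h1, h2, hTd]
    ring
  · intro n hn n' hn' h
    rw [mem_Ioc] at hn hn'
    exact qs2_Cq H l j q n n' (by omega) (by omega) h
  · intro n hn
    rw [mem_Ioc] at hn
    refine le_trans ?_ (hcq ι D d E H.F n q (by omega) hsq l)
    exact_mod_cast card_le_card (qs2_sub H l j q n)
  · intro n0 hn0 c hc
    have hcop : IsCoprime (q : ℤ) (H.F.L n0 l c * H.M j c) := by
      classical
      simp only [Cq2, mem_filter] at hc
      exact hc.2.2
    exact hN w k q n0 c M hPm hsq hqN hcop hM hE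

end Pool.Agent.HC.E
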