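import Pool.Agent.Lib.MP_0da313_nt.HC.W

/-!
Project HC, piece [HW rl]: the multiple sum as a sum with divisor functions.
-/

set_option autoImplicit false

namespace Pool.Agent.HC.W

open Finset
open Pool.Agent.SP80 (ex mn)
open Pool.Agent.NC.Wy (tk RR WP)

theorem rl_prod_pos (t : List ℕ) (ht : ∀ U ∈ t, 1 ≤ U) : 1 ≤ t.prod := by
  induction t with
  | nil => simp
  | cons U t ih =>
    rw [List.prod_cons]
    exact Nat.mul_pos (ht U (by simp)) (ih fun W hW => ht W (by simp [hW]))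

theorem rl_le_prod (V : ℕ) (t : List ℕ) : ∀ x : ℝ, RL t V x ≤ V * (t.prod : ℝ) := by
  induction t with
  | nil =>
    intro x
    rw [List.prod_nil, Nat.cast_one, mul_one]
    exact NC.Wy.mn_le _ _
  | cons U t ih =>
    intro x
    have h1 : RL (U :: t) V x = ∑ h ∈ range U, RL t V (h * x) := rfl
    rw [h1]
    refine (Finset.sum_le_sum fun h _ => ih _).trans (le_of_eq ?_)
    rw [Finset.sum_const, card_range, nsmul_eq_mul, List.prod_cons]
    push_cast
    ring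

theorem rl_step (k U P V : ℕ) (x : ℝ) :
    ∑ h ∈ Ico 1 U, ∑ n ∈ Icc 1 P, (tk k n : ℝ) * mn V (((h * n : ℕ) : ℝ) * x) ≤
      ∑ m ∈ Icc 1 (U * P), (tk (k + 1) m : ℝ) * mn V (m * x) := by
  have hV0 : (0 : ℝ) ≤ V := Nat.cast_nonneg V
  have e1 : ∀ m ∈ Icc 1 (U * P), (tk (k + 1) m : ℝ) * mn V (m * x) =
      ∑ d ∈ m.divisors, (tk k (m / d) : ℝ) * mn V (m * x) := by
    intro m _
    have e0 : tk (k + 1) m = ∑ d ∈ m.divisors, tk k (m / d) := rfl
    rw [← Finset.sum_mul, e0, Nat.cast_sum]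
  rw [Finset.sum_congr rfl e1, ← Finset.sum_product', Finset.sum_sigma']
  have hinj : Set.InjOn (fun p : ℕ × ℕ => (⟨p.1 * p.2, p.1⟩ : (_ : ℕ) × ℕ))
      ((Ico 1 U ×ˢ Icc 1 P : Finset (ℕ × ℕ)) : Set (ℕ × ℕ)) := by
    intro p hp q hq h
    rw [Finset.mem_coe, Finset.mem_product, Finset.mem_Ico] at hp hq
    simp only [Sigma.mk.injEq, heq_eq_eq] at h
    have e2 : p.2 = q.2 := by
      have e3 := h.1
      rw [h.2] at e3
      exact Nat.eq_of_mul_eq_mul_left (by omega) e3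
    exact Prod.ext h.2 e2
  have e2 : ∑ p ∈ Ico 1 U ×ˢ Icc 1 P, (tk k p.2 : ℝ) * mn V (((p.1 * p.2 : ℕ) : ℝ) * x) =
      ∑ q ∈ (Ico 1 U ×ˢ Icc 1 P).image (fun p : ℕ × ℕ => (⟨p.1 * p.2, p.1⟩ : (_ : ℕ) × ℕ)),
        (tk k (q.1 / q.2) : ℝ) * mn V (q.1 * x) := by
    rw [Finset.sum_image hinj]
    refine Finset.sum_congr rfl fun p hp => ?_
    rw [Finset.mem_product, Finset.mem_Ico] at hp
    simp only
    rw [Nat.mul_div_cancel_left _ (by omega)]
  rw [e2]
  apply Finset.sum_le_sum_of_subset_of_nonneg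
  · intro q hq
    obtain ⟨p, hp, rfl⟩ := Finset.mem_image.1 hq
    rw [Finset.mem_product, Finset.mem_Ico, Finset.mem_Icc] at hp
    obtain ⟨⟨p1, p2⟩, p3, p4⟩ := hp
    rw [Finset.mem_sigma, Finset.mem_Icc, Nat.mem_divisors]
    have hp2 : 1 ≤ p.1 * p.2 := Nat.mul_pos p1 p3
    exact ⟨⟨hp2, Nat.mul_le_mul p2.le p4⟩, dvd_mul_right _ _, Nat.one_le_iff_ne_zero.1 hp2⟩
  · intro q _ _
    exact mul_nonneg (Nat.cast_nonneg _) (NC.Wy.mn_nonneg hV0 _)

theorem p_rl : S_rl := by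
  intro t V x ht hV
  have hV0 : (0 : ℝ) ≤ V := Nat.cast_nonneg V
  revert x
  induction t with
  | nil =>
    intro x
    simp [RL, tk]
  | cons U t ih =>
    intro x
    have hU : 1 ≤ U := ht U (by simp)
    have hU0 : (0 : ℝ) < U := by exact_mod_cast hU
    have ht' : ∀ W ∈ t, 1 ≤ W := fun W hW => ht W (by simp [hW])
    have ih' := ih ht'
    have hs0 : (0 : ℝ) ≤ (t.map (fun U : ℕ => 1 / (U : ℝ))).sum := by
      apply List.sum_nonneg
      intro y hy
      obtain ⟨W, _, rfl⟩ := List.mem_map.1 hy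
      positivity
    have h1 : RL (U :: t) V x = RL t V ((0 : ℕ) * x) + ∑ h ∈ Ico 1 U, RL t V (h * x) := by
      have e1 : RL (U :: t) V x = ∑ h ∈ range U, RL t V (h * x) := rfl
      rw [e1, Finset.range_eq_Ico, Finset.sum_eq_sum_Ico_succ_bot (by omega)]
    have h2 : ∑ h ∈ Ico 1 U, RL t V (h * x) ≤
        U * (V * (t.prod : ℝ) * (t.map (fun U : ℕ => 1 / (U : ℝ))).sum) +
        ∑ h ∈ Ico 1 U, ∑ n ∈ Icc 1 t.prod, (tk t.length n : ℝ) * mn V (((h * n : ℕ) : ℝ) * x) := by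
      refine (Finset.sum_le_sum fun h _ => ih' _).trans ?_
      rw [Finset.sum_add_distrib, Finset.sum_const, nsmul_eq_mul]
      apply add_le_add
      · have e1 : ((#(Ico 1 U) : ℕ) : ℝ) ≤ U := by
          rw [Nat.card_Ico]
          exact_mod_cast Nat.sub_le _ _
        exact mul_le_mul_of_nonneg_right e1 (by positivity)
      · refine Finset.sum_le_sum fun h _ => Finset.sum_le_sum fun n _ => le_of_eq ?_
        congr 2
        push_cast
        ring
    have h3 := rl_step t.length U t.prod V x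
    have h4 := rl_le_prod V t ((0 : ℕ) * x)
    have h5 : (V : ℝ) * (((U :: t).prod : ℕ) : ℝ) *
        ((U :: t).map (fun U : ℕ => 1 / (U : ℝ))).sum = V * (t.prod : ℝ) +
        U * (V * (t.prod : ℝ) * (t.map (fun U : ℕ => 1 / (U : ℝ))).sum) := by
      rw [List.prod_cons, List.map_cons, List.sum_cons]
      push_cast
      field_simp
    rw [h1, h5, List.prod_cons, List.length_cons]
    refine (add_le_add h4 (h2.trans (add_le_add le_rfl h3))).trans (le_of_eq ?_)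
    ring

end Pool.Agent.HC.W
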