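import Pool.Agent.Lib.MP_0da313_nt.HC.E
import Pool.Agent.Lib.MP_0da313_nt.MT.Mertens

set_option autoImplicit false

/-!
Project HC, section E, piece sgq2: the mean square for a single modulus, with the additional weight
`thP (H.M j x)`. The proof is that of `NC/P/esgq.lean`.
-/

namespace Pool.Agent.HC.E

open Finset Filter Polynomial
open Pool.Agent.MP89da58 (kapD tri)
open Pool.Agent.CH (thP)
open Pool.Agent.CM (wd)
open Pool.Agent.SP80 (ex)
open Pool.Agent.TC (Lw wN)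
open Pool.Agent.GC (tz Pm)
open Pool.Agent.NC (Hn Bn Fam)
open Pool.Agent.NC.G (EL Rn)
open Pool.Agent.HC (Fam2 Cq2 Er2 ErS2)

private lemma he_sgq2_count (a b K r : ℕ) (hK : 1 ≤ K) (hab : a ≤ b) :
    (((Ioc a b).filter (fun n => n ≡ r [MOD K])).card : ℝ) ≤ ((b : ℝ) - a) / K + 1 := by
  have hK0 : (0 : ℝ) < K := by exact_mod_cast hK
  have h1 := Nat.Ioc_filter_modEq_card a b (r := K) hK r
  set x : ℤ := ⌊((b : ℚ) - r) / (K : ℚ)⌋ with hx
  set y : ℤ := ⌊((a : ℚ) - r) / (K : ℚ)⌋ with hy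
  have hxy : y ≤ x := by
    rw [hx, hy]
    apply Int.floor_le_floor
    have : (0 : ℚ) ≤ K := by positivity
    apply div_le_div_of_nonneg_right _ this
    have : (a : ℚ) ≤ b := by exact_mod_cast hab
    linarith
  rw [max_eq_left (by omega)] at h1
  have h2 : (((Ioc a b).filter (fun n => n ≡ r [MOD K])).card : ℝ) = (x : ℝ) - y := by
    have : ((((Ioc a b).filter (fun n => n ≡ r [MOD K])).card : ℤ) : ℝ) = ((x - y : ℤ) : ℝ) := by
      rw [h1]
    push_cast at this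
    exact this
  have hx1 : (x : ℚ) ≤ ((b : ℚ) - r) / (K : ℚ) := Int.floor_le _
  have hy2 : ((a : ℚ) - r) / (K : ℚ) < y + 1 := Int.lt_floor_add_one _
  have hx1' : (x : ℝ) ≤ ((b : ℝ) - r) / (K : ℝ) := by exact_mod_cast hx1
  have hy2' : ((a : ℝ) - r) / (K : ℝ) < y + 1 := by exact_mod_cast hy2
  have h3 : ((b : ℝ) - a) / K = ((b : ℝ) - r) / (K : ℝ) - ((a : ℝ) - r) / (K : ℝ) := by ring
  rw [h2, h3]
  linarith

private lemma he_sgq2_tz (y : ℝ) : 0 ≤ tz y ∧ tz y ≤ 1 := by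
  unfold GC.tz
  exact ⟨le_min zero_le_one (le_max_left _ _), min_le_left _ _⟩

private lemma he_sgq2_tz1 (y : ℝ) (h : |y - 1| ≤ 1 / 100) : tz y = 1 := by
  unfold GC.tz
  apply min_eq_left
  apply le_max_of_le_right
  linarith

private lemma he_sgq2_thP (m : ℕ) : 0 ≤ thP m ∧ (1 ≤ m → thP m ≤ Real.log m) := by
  unfold CH.thP
  constructor
  · split
    · rename_i h
      exact Real.log_nonneg (by exact_mod_cast h.one_lt.le)
    · exact le_rfl
  · intro h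
    split
    · exact le_rfl
    · exact Real.log_nonneg (by exact_mod_cast h)

private lemma he_sgq2_Lw (w m : ℕ) : 0 ≤ Lw w m ∧ Lw w m ≤ (kapD w)⁻¹ := by
  have h := (inv_pos.2 (MT.kapD_pos w)).le
  unfold TC.Lw
  split
  · exact ⟨h, le_rfl⟩
  · exact ⟨le_rfl, h⟩

variable {ι κ : Type} [Fintype ι] [DecidableEq ι] [Fintype κ] [DecidableEq κ] {D d E : ℕ}

private lemma he_sgq2_cc (H : Fam2 ι κ D d E) (l : ι) (j : κ) : 1 ≤ cc2 H l j := by
  unfold cc2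
  have h0 : (H.F.g l).coeff d ≠ 0 := by
    have h1 := H.F.hg l
    have h2 := H.F.hd
    intro h
    have h3 : (H.F.g l).leadingCoeff = 0 := by
      unfold Polynomial.leadingCoeff
      rw [h1, h]
    rw [Polynomial.leadingCoeff_eq_zero] at h3
    rw [h3, Polynomial.natDegree_zero] at h1
    omega
  exact Nat.mul_pos (Nat.mul_pos (pow_pos (Nat.factorial_pos _) 2) (Int.natAbs_pos.2 h0))
    (pow_pos (H.hu j) d)

private lemma he_sgq2_tpos (F : Fam ι D d E) (l : ι) : 0 < F.t l := by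
  have h1 := F.ht l
  have h2 : 0 < |(F.a l : ℝ)| := abs_pos.2 (by exact_mod_cast F.ha l)
  have h3 := abs_nonneg ((F.g l).coeff d : ℝ)
  have h4 : (0 : ℝ) < E := by exact_mod_cast F.hE
  unfold NC.Fam.t
  by_contra h
  push Not at h
  have h5 := mul_nonpos_of_nonneg_of_nonpos h4.le h
  linarith

private lemma he_sgq2_mod (F : Fam ι D d E) (l : ι) (n ν x c q : ℕ) (hn : n ≡ ν [MOD q])
    (hx : x ≡ c [MOD q]) : (q : ℤ) ∣ F.L n l x - F.L ν l c := by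
  have h1 : (q : ℤ) ∣ (n : ℤ) - ν := by
    have := (Nat.modEq_iff_dvd).1 hn
    rw [← dvd_neg]
    simpa using this
  have h2 : (q : ℤ) ∣ (x : ℤ) - c := by
    have := (Nat.modEq_iff_dvd).1 hx
    rw [← dvd_neg]
    simpa using this
  have h3 : (q : ℤ) ∣ (F.g l).eval (x : ℤ) - (F.g l).eval (c : ℤ) :=
    h2.trans (Polynomial.sub_dvd_eval_sub _ _ _)
  have h4 : F.L n l x - F.L ν l c =
      F.a l * ((n : ℤ) - ν) + ((F.g l).eval (x : ℤ) - (F.g l).eval (c : ℤ)) := by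
    unfold NC.Fam.L
    ring
  rw [h4]
  exact dvd_add (Dvd.dvd.mul_left h1 _) h3

private lemma he_sgq2_Rn (H : Fam2 ι κ D d E) (l : ι) (j : κ) (N w n q ν c r : ℕ) (X : ℝ)
    (hX : 0 < X)
    (hn : n ≡ ν [MOD q]) (hr : (q : ℤ) ∣ H.F.L ν l c - r)
    (hloc : ∀ x : ℕ, 0 < x → H.F.wh N x ≠ 0 →
      0 < H.F.L n l x ∧ |(H.F.L n l x : ℝ) / X - 1| ≤ 1 / 100) :
    Er2 H N w n l j q c = Rn (H.F.a l) (fun x => (H.F.g l).eval (x : ℤ))
      ((Icc 1 ⌊2 * X⌋₊).filter (fun k => k ≡ r [MOD q]))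
      ((Icc 1 (Hn d N)).filter (fun x => x ≡ c [MOD q]))
      (fun k => (thP k - Lw w k) * tz (k / X))
      (fun x => H.F.wh N x * thP (H.M j x).toNat) n := by
  unfold HC.Er2 NC.G.Rn
  refine Finset.sum_congr rfl fun x hx => ?_
  obtain ⟨hx1, hx2⟩ := mem_filter.1 hx
  obtain ⟨hx3, hx4⟩ := mem_Icc.1 hx1
  by_cases h0 : H.F.wh N x = 0
  · rw [h0, zero_mul, zero_mul]
    symm
    apply Finset.sum_eq_zero
    intro k _
    simp only [h0, zero_mul, mul_zero, ite_self]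
  · obtain ⟨h1, h2⟩ := hloc x (by omega) h0
    set k0 := (H.F.L n l x).toNat with hk0
    have hk1 : (k0 : ℤ) = H.F.L n l x := Int.toNat_of_nonneg h1.le
    have hk2 : (k0 : ℝ) = (H.F.L n l x : ℝ) := by
      have : ((k0 : ℤ) : ℝ) = (H.F.L n l x : ℝ) := by rw [hk1]
      simpa using this
    have hk3 : 1 ≤ k0 := by omega
    rw [← hk2] at h2
    have hk4 : (k0 : ℝ) ≤ 2 * X := by
      have h3 := (abs_le.1 h2).2
      have h4 : (k0 : ℝ) / X ≤ 2 := by linarith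
      rwa [div_le_iff₀ hX] at h4
    have hk5 : k0 ≡ r [MOD q] := by
      rw [Nat.modEq_iff_dvd]
      have h3 := he_sgq2_mod H.F l n ν x c q hn hx2
      have h4 : (r : ℤ) - k0 = -((H.F.L n l x - H.F.L ν l c) + (H.F.L ν l c - r)) := by
        rw [hk1]
        ring
      rw [h4]
      exact (dvd_add h3 hr).neg_right
    rw [Finset.sum_eq_single k0]
    · have h3 : (k0 : ℤ) = H.F.a l * (n : ℤ) + (H.F.g l).eval (x : ℤ) := hk1
      simp only
      rw [if_pos h3, he_sgq2_tz1 _ h2]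
      ring
    · intro k _ hk
      rw [if_neg]
      intro h3
      apply hk
      have h4 : (k : ℤ) = k0 := by
        rw [hk1, h3]
        rfl
      exact_mod_cast h4
    · intro h
      exfalso
      apply h
      rw [mem_filter, mem_Icc]
      exact ⟨⟨hk3, Nat.le_floor hk4⟩, hk5⟩

private lemma he_sgq2_logX (t : ℝ) (ht : 0 < t) : ∀ᶠ N : ℕ in atTop,
    1 / 2 * Real.log N ≤ Real.log (t * N) ∧ Real.log (t * N) ≤ 2 * Real.log N ∧
    t * N ≤ (N : ℝ) ^ 2 ∧ 1 ≤ t * N := by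
  have hcast : Tendsto (fun n : ℕ => (n : ℝ)) atTop atTop := tendsto_natCast_atTop_atTop
  filter_upwards [hcast.eventually (eventually_ge_atTop t),
    hcast.eventually (eventually_ge_atTop (1 / t ^ 2)),
    hcast.eventually (eventually_ge_atTop (1 / t)), eventually_ge_atTop 1] with N h1 h2 h2' h3
  have hN : (1 : ℝ) ≤ N := by exact_mod_cast h3
  have hN0 : (0 : ℝ) < N := by linarith
  have h4 : t * N ≤ (N : ℝ) ^ 2 := by nlinarith
  have h6 : 1 ≤ t ^ 2 * N := by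
    rw [div_le_iff₀ (by positivity)] at h2
    linarith
  have h5 : (N : ℝ) ≤ (t * N) ^ 2 := by nlinarith
  have h7 : 1 ≤ t * N := by
    rw [div_le_iff₀ ht] at h2'
    linarith
  refine ⟨?_, ?_, h4, h7⟩
  · have h8 := Real.log_le_log hN0 h5
    rw [Real.log_pow] at h8
    push_cast at h8
    linarith
  · have h8 := Real.log_le_log (by positivity) h4
    rw [Real.log_pow] at h8
    push_cast at h8
    linarith

private lemma he_sgq2_sq (X L : ℝ) (w k q r : ℕ) (hq : 1 ≤ q) (hqX : (q : ℝ) ≤ X)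
    (hL : 1 ≤ L) (h2X : Real.log (2 * X) ≤ 20 * L) (hlX : Real.log X ≤ 2 * L)
    (hlX2 : 2 ≤ Real.log X) (hX : 1 ≤ X)
    (hP : Pm X (1 / 100) 1 w k) :
    ∑ j ∈ (Icc 1 ⌊2 * X⌋₊).filter (fun j => j ≡ r [MOD q]),
      ((thP j - Lw w j) * tz (j / X)) ^ 2 ≤ 1200 * (X / q) * L ^ 2 := by
  have hq0 : (0 : ℝ) < q := by exact_mod_cast hq
  -- the density
  have hw : Real.log X ≤ w := by
    have := hP.w_ge
    rwa [pow_one] at this
  have hw2 : 2 ≤ w := by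
    have : (2 : ℝ) ≤ w := hlX2.trans hw
    exact_mod_cast this
  have hw1 : (1 : ℝ) ≤ w := by exact_mod_cast (by omega : 1 ≤ w)
  have hwX : Real.log w ≤ 1 / 100 * Real.log X := by
    have h1 : (w : ℝ) ≤ X ^ (1 / 100 : ℝ) := by
      refine le_trans ?_ hP.wk
      calc (w : ℝ) = (w : ℝ) ^ 1 := (pow_one _).symm
        _ ≤ (w : ℝ) ^ (k + 1) := pow_le_pow_right₀ hw1 (by omega)
    have h2 := Real.log_le_log (by linarith) h1
    rwa [Real.log_rpow (by linarith)] at h2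
  have hκ : (kapD w)⁻¹ ≤ 20 * L := by
    have h1 := MT.mertens w hw2
    have h2 := MT.kapD_pos w
    rw [inv_le_iff_one_le_mul₀ h2]
    have h3 : 1000 * kapD w * Real.log w ≤ 1000 * kapD w * (1 / 100 * Real.log X) :=
      mul_le_mul_of_nonneg_left hwX (by positivity)
    have h4 : 1000 * kapD w * (1 / 100 * Real.log X) ≤ 1000 * kapD w * (1 / 100 * (2 * L)) :=
      mul_le_mul_of_nonneg_left (by linarith) (by positivity)
    linarith
  have hpt : ∀ j ∈ (Icc 1 ⌊2 * X⌋₊).filter (fun j => j ≡ r [MOD q]),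
      ((thP j - Lw w j) * tz (j / X)) ^ 2 ≤ (20 * L) ^ 2 := by
    intro j hj
    obtain ⟨hj1, hj2⟩ := mem_Icc.1 (mem_filter.1 hj).1
    have hj3 : (j : ℝ) ≤ 2 * X :=
      (by exact_mod_cast hj2 : (j : ℝ) ≤ (⌊2 * X⌋₊ : ℝ)).trans (Nat.floor_le (by linarith))
    have h1 := (he_sgq2_thP j).1
    have h2 : thP j ≤ 20 * L := by
      refine ((he_sgq2_thP j).2 hj1).trans (le_trans ?_ h2X)
      exact Real.log_le_log (by exact_mod_cast hj1) hj3
    obtain ⟨h3, h4⟩ := he_sgq2_Lw w j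
    obtain ⟨h5, h6⟩ := he_sgq2_tz ((j : ℝ) / X)
    rw [sq_le_sq, abs_mul, abs_of_nonneg h5, abs_of_nonneg (by linarith : 0 ≤ 20 * L)]
    have h7 : |thP j - Lw w j| ≤ 20 * L := by
      rw [abs_le]
      constructor <;> linarith
    calc |thP j - Lw w j| * tz (j / X) ≤ |thP j - Lw w j| * 1 :=
          mul_le_mul_of_nonneg_left h6 (abs_nonneg _)
      _ ≤ 20 * L := by rw [mul_one]; exact h7
  have hcard : ((((Icc 1 ⌊2 * X⌋₊).filter (fun j => j ≡ r [MOD q])).card : ℕ) : ℝ) ≤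
      3 * (X / q) := by
    have h1 := he_sgq2_count 0 ⌊2 * X⌋₊ q r hq (Nat.zero_le _)
    have h2 : Icc 1 ⌊2 * X⌋₊ = Ioc 0 ⌊2 * X⌋₊ := rfl
    rw [h2]
    refine h1.trans ?_
    have h3 : ((⌊2 * X⌋₊ : ℕ) : ℝ) ≤ 2 * X := Nat.floor_le (by linarith)
    have h4 : (((⌊2 * X⌋₊ : ℕ) : ℝ) - ((0 : ℕ) : ℝ)) / q ≤ 2 * (X / q) := by
      rw [← mul_div_assoc]
      apply div_le_div_of_nonneg_right _ hq0.le
      push_cast
      linarith
    have h5 : 1 ≤ X / q := by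
      rw [le_div_iff₀ hq0]
      linarith
    linarith
  refine (Finset.sum_le_card_nsmul _ _ _ hpt).trans ?_
  rw [nsmul_eq_mul]
  calc _ ≤ 3 * (X / q) * (20 * L) ^ 2 := mul_le_mul_of_nonneg_right hcard (by positivity)
    _ = _ := by ring

theorem p_sgq2 : S_sgq2 := by
  intro hloc hgmi hspl ι κ _ _ _ _ D d E H l j A
  obtain ⟨B, hB⟩ := hgmi ι κ D d E H l j A
  have ht := he_sgq2_tpos H.F l
  have hcc := he_sgq2_cc H l j
  have hd := H.F.hd
  set t : ℝ := H.F.t l with htdef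
  set c0 : ℝ := (cc2 H l j : ℝ) with hc0
  have hc01 : 1 ≤ c0 := by rw [hc0]; exact_mod_cast hcc
  refine ⟨B, 2400 * t + 24 * c0 ^ 2 + 1, by positivity, ?_⟩
  have hcast : Tendsto (fun n : ℕ => (n : ℝ)) atTop atTop := tendsto_natCast_atTop_atTop
  have hlogt : Tendsto (fun N : ℕ => Real.log N) atTop atTop := Real.tendsto_log_atTop.comp hcast
  filter_upwards [hB, hloc ι D d E H.F, he_sgq2_logX t ht, he_sgq2_logX (2 * t) (by positivity),
    hlogt.eventually (eventually_ge_atTop 4),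
    hcast.eventually (eventually_ge_atTop (1 / t ^ 2)), eventually_ge_atTop 1]
    with N h1 h2 h3 h4 h5 h6 h7 w k q ν c M hPm hqs hqN hcop0 hM hMb
  have hcop : IsCoprime (q : ℤ) (H.F.L ν l c) := hcop0.of_mul_right_left
  have hcopM : IsCoprime (q : ℤ) (H.M j c) := hcop0.of_mul_right_right
  obtain ⟨hX1, hX2, hX3, hX4⟩ := h3
  obtain ⟨_, hloc2⟩ := h2
  set X : ℝ := t * N with hX
  set L : ℝ := Real.log N with hL
  set Y : ℝ := (N : ℝ) ^ (1 / (d : ℝ)) with hY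
  have hL4 : 4 ≤ L := h5
  have hN1 : (1 : ℝ) ≤ N := by exact_mod_cast h7
  have hN0 : (0 : ℝ) < N := by linarith
  have hY0 : 0 < Y := Real.rpow_pos_of_pos hN0 _
  have hq1 : 1 ≤ q := Nat.one_le_iff_ne_zero.2 hqs.ne_zero
  have hq1' : (1 : ℝ) ≤ q := by exact_mod_cast hq1
  have hq0 : (0 : ℝ) < q := by linarith
  have hd2 : (2 : ℝ) ≤ d := by exact_mod_cast hd
  -- `q ≤ N ^ (1 / 2)`
  have hqN2 : (q : ℝ) ≤ (N : ℝ) ^ (1 / 2 : ℝ) := by
    refine hqN.trans (Real.rpow_le_rpow_of_exponent_le hN1 ?_)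
    apply one_div_le_one_div_of_le (by norm_num)
    linarith
  have hsq : (N : ℝ) ^ (1 / 2 : ℝ) * (N : ℝ) ^ (1 / 2 : ℝ) = N := by
    rw [← Real.rpow_add hN0]
    norm_num
  have hq2N : (q : ℝ) * q ≤ N := by
    calc (q : ℝ) * q ≤ (N : ℝ) ^ (1 / 2 : ℝ) * (N : ℝ) ^ (1 / 2 : ℝ) :=
          mul_le_mul hqN2 hqN2 hq0.le (by positivity)
      _ = N := hsq
  have hqN3 : (q : ℝ) ≤ N := by nlinarith
  have hqX : (q : ℝ) ≤ X := by
    have h8 : 1 ≤ t ^ 2 * N := by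
      rw [div_le_iff₀ (by positivity)] at h6
      linarith
    have h9 : (q : ℝ) ^ 2 ≤ X ^ 2 := by
      calc (q : ℝ) ^ 2 ≤ N := by rw [sq]; exact hq2N
        _ ≤ (t ^ 2 * N) * N := by nlinarith
        _ = X ^ 2 := by rw [hX]; ring
    exact (pow_le_pow_iff_left₀ hq0.le (by linarith) two_ne_zero).1 h9
  -- the residue
  set r : ℕ := (H.F.L ν l c % (q : ℤ)).toNat with hr
  have hr0 : (r : ℤ) = H.F.L ν l c % (q : ℤ) :=
    Int.toNat_of_nonneg (Int.emod_nonneg _ (by exact_mod_cast hqs.ne_zero))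
  have hr1 : (q : ℤ) ∣ H.F.L ν l c - r := by
    rw [hr0]
    exact Int.dvd_self_sub_emod
  have hrq : r.Coprime q := by
    have h8 : IsCoprime (q : ℤ) (r : ℤ) := by
      obtain ⟨z, hz⟩ := hr1
      have h9 : (r : ℤ) = H.F.L ν l c + (q : ℤ) * (-z) := by linarith
      rw [h9]
      exact (IsCoprime.add_mul_left_right_iff).2 hcop
    exact (Nat.isCoprime_iff_coprime.1 h8).symm
  set g : ℕ → ℤ := fun x => (H.F.g l).eval (x : ℤ) with hg
  set Sk := (Icc 1 ⌊2 * X⌋₊).filter (fun k => k ≡ r [MOD q]) with hSk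
  set Sx := (Icc 1 (Hn d N)).filter (fun x => x ≡ c [MOD q]) with hSx
  set Sn := (Ioc N (Bn E N)).filter (fun n => n ≡ ν [MOD q]) with hSn
  set Fk : ℕ → ℝ := fun k => (thP k - Lw w k) * tz (k / X) with hFk
  set h : ℕ → ℝ := fun x => H.F.wh N x * thP (H.M j x).toNat with hh
  set T := ⌊L ^ B⌋₊ with hTdef
  have hLB : 0 < L ^ B := by positivity
  have hT : (T : ℝ) ≤ L ^ B := Nat.floor_le hLB.le
  have e1 : ∀ m ∈ Icc 1 T, 1 ≤ (fun m => cc2 H l j * m * q ^ (2 * d)) m ∧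
      q ∣ (fun m => cc2 H l j * m * q ^ (2 * d)) m := by
    intro m hm
    have hm1 := (mem_Icc.1 hm).1
    constructor
    · exact Nat.mul_pos (Nat.mul_pos hcc hm1) (pow_pos hq1 (2 * d))
    · exact Dvd.dvd.mul_left (dvd_pow_self q (by omega)) _
  have e2 : ∀ k ∈ Sk, k ≡ r [MOD q] := fun k hk => (mem_filter.1 hk).2
  have e3 : ∀ α : ℝ, ‖∑ x ∈ Sx, (h x : ℂ) * ex (-α * (g x : ℝ))‖ ≤ 2 * L * Y / q :=
    fun α => (h1 q c α hq1 hqN hcopM).1
  have e4 : ∀ α : ℝ, ‖∑ x ∈ Sx, (h x : ℂ) * ex (-α * (g x : ℝ))‖ ≤ Y / q / L ^ A ∨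
      ∃ m ∈ Icc 1 T, ∃ b : ℤ,
        |α - b / (((fun m => cc2 H l j * m * q ^ (2 * d)) m : ℕ) : ℝ)| ≤ L ^ B / N :=
    fun α => (h1 q c α hq1 hqN hcopM).2
  have e5 : ∀ m ∈ Icc 1 T, ∀ (s : ℕ) (β : ℝ), |β| ≤ L ^ B / N →
      ‖∑ k ∈ Sk.filter (fun k => k ≡ s [MOD (fun m => cc2 H l j * m * q ^ (2 * d)) m]),
        (Fk k : ℂ) * ex (β * k)‖ ≤ M := by
    intro m hm s β hβ
    have hm1 := (mem_Icc.1 hm).1
    have hm2 : (m : ℝ) ≤ L ^ B := (by exact_mod_cast (mem_Icc.1 hm).2 : (m : ℝ) ≤ T).trans hT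
    have hdvd := (e1 m hm).2
    by_cases hs : s ≡ r [MOD q]
    · have h8 : Sk.filter (fun k => k ≡ s [MOD (fun m => cc2 H l j * m * q ^ (2 * d)) m]) =
          (Icc 1 ⌊2 * X⌋₊).filter (fun k => k ≡ s [MOD cc2 H l j * m * q ^ (2 * d)]) := by
        ext k
        rw [hSk, mem_filter, mem_filter, mem_filter]
        constructor
        · rintro ⟨⟨h9, _⟩, h10⟩
          exact ⟨h9, h10⟩
        · rintro ⟨h9, h10⟩
          exact ⟨⟨h9, (h10.of_dvd hdvd).trans hs⟩, h10⟩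
      rw [h8]
      have hsq' : s.Coprime q := by
        have := hs.gcd_eq
        unfold Nat.Coprime at hrq ⊢
        rw [this, hrq]
      exact hMb m s β hm1 hm2 hsq' hβ
    · have h8 : Sk.filter (fun k => k ≡ s [MOD (fun m => cc2 H l j * m * q ^ (2 * d)) m]) = ∅ := by
        apply Finset.filter_eq_empty_iff.2
        intro k hk h9
        exact hs ((h9.of_dvd hdvd).symm.trans (e2 k hk))
      rw [h8, Finset.sum_empty, norm_zero]
      exact hM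
  have hmain := hspl (H.F.a l) g Sk Sx Sn Fk h q r T (fun m => cc2 H l j * m * q ^ (2 * d)) (L ^ B / N)
    (Y / q / L ^ A) (2 * L * Y / q) M (H.F.ha l) hq1 (by positivity) (by positivity) (by positivity) hM
    e1 e2 e3 e4 e5
  have hEr : ∑ n ∈ Sn, Rn (H.F.a l) g Sk Sx Fk h n ^ 2 = ∑ n ∈ Sn, |Er2 H N w n l j q c| ^ 2 := by
    refine Finset.sum_congr rfl fun n hn => ?_
    obtain ⟨hn1, hn2⟩ := mem_filter.1 hn
    rw [he_sgq2_Rn H l j N w n q ν c r X (by linarith) hn2 hr1 (fun x hx hx0 => hloc2 n hn1 l x hx hx0),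
      sq_abs]
  rw [hEr] at hmain
  -- the sums
  have hS : ∑ k ∈ Sk, Fk k ^ 2 ≤ 1200 * (X / q) * L ^ 2 := by
    apply he_sgq2_sq X L w k q r hq1 hqX (by linarith) ?_ hX2 (by linarith) hX4 hPm
    have : 2 * X = 2 * t * N := by rw [hX]; ring
    rw [this]
    linarith [h4.2.1]
  have hqd : (q : ℝ) ^ (2 * d) = (q : ℝ) ^ (2 * d - 2) * q ^ 2 := by
    rw [← pow_add]
    congr 1
    omega
  set V : ℝ := (q : ℝ) ^ (2 * d - 2) with hV
  have hV0 : 0 < V := by positivity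
  have hR : ∑ m ∈ Icc 1 T, (((fun m => cc2 H l j * m * q ^ (2 * d)) m : ℕ) : ℝ) *
      ((((fun m => cc2 H l j * m * q ^ (2 * d)) m : ℕ) : ℝ) / q) * M ^ 2 ≤
      c0 ^ 2 * (L ^ B) ^ 3 * (V ^ 2 * q ^ 3) * M ^ 2 := by
    have h8 : ∀ m ∈ Icc 1 T, (((fun m => cc2 H l j * m * q ^ (2 * d)) m : ℕ) : ℝ) *
      ((((fun m => cc2 H l j * m * q ^ (2 * d)) m : ℕ) : ℝ) / q) * M ^ 2 ≤
      c0 ^ 2 * (L ^ B) ^ 2 * (V ^ 2 * q ^ 3) * M ^ 2 := by
      intro m hm
      have hm2 : (m : ℝ) ≤ L ^ B := (by exact_mod_cast (mem_Icc.1 hm).2 : (m : ℝ) ≤ T).trans hT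
      have h9 : (((fun m => cc2 H l j * m * q ^ (2 * d)) m : ℕ) : ℝ) = c0 * m * (V * q ^ 2) := by
        push_cast
        rw [hqd]
      rw [h9]
      have h10 : c0 * m * (V * q ^ 2) * (c0 * m * (V * q ^ 2) / q) * M ^ 2 =
          c0 ^ 2 * (m : ℝ) ^ 2 * (V ^ 2 * q ^ 3) * M ^ 2 := by
        field_simp
      rw [h10]
      have h11 : (m : ℝ) ^ 2 ≤ (L ^ B) ^ 2 := pow_le_pow_left₀ (Nat.cast_nonneg m) hm2 2
      gcongr
    refine (Finset.sum_le_card_nsmul _ _ _ h8).trans ?_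
    rw [nsmul_eq_mul, Nat.card_Icc, Nat.add_sub_cancel]
    calc (T : ℝ) * (c0 ^ 2 * (L ^ B) ^ 2 * (V ^ 2 * q ^ 3) * M ^ 2)
        ≤ L ^ B * (c0 ^ 2 * (L ^ B) ^ 2 * (V ^ 2 * q ^ 3) * M ^ 2) :=
          mul_le_mul_of_nonneg_right hT (by positivity)
      _ = _ := by ring
  -- the number of the `n`
  have hcard : ((Sn.card : ℕ) : ℝ) ≤ 2 * (N / q) := by
    have hB1 : N ≤ Bn E N := by
      unfold NC.Bn
      exact Nat.le_add_right _ _
    have h8 := he_sgq2_count N (Bn E N) q ν hq1 hB1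
    refine h8.trans ?_
    have h9 : (Bn E N : ℝ) - N ≤ N := by
      unfold NC.Bn
      push_cast
      have h10 : ((N / (1000 * E) : ℕ) : ℝ) ≤ N := by exact_mod_cast Nat.div_le_self _ _
      linarith
    have h10 : ((Bn E N : ℝ) - N) / q ≤ N / q := div_le_div_of_nonneg_right h9 hq0.le
    have h11 : 1 ≤ (N : ℝ) / q := by
      rw [le_div_iff₀ hq0]
      linarith
    linarith
  set Z : ℝ := ∑ n ∈ Sn, |Er2 H N w n l j q c| with hZ
  have hZ0 : 0 ≤ Z := Finset.sum_nonneg fun n _ => abs_nonneg _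
  have hC := sq_sum_le_card_mul_sum_sq (s := Sn) (f := fun n => |Er2 H N w n l j q c|)
  set V2 : ℝ := ∑ n ∈ Sn, |Er2 H N w n l j q c| ^ 2 with hV2
  have hV20 : 0 ≤ V2 := Finset.sum_nonneg fun n _ => by positivity
  set P1 : ℝ := Y * (N * L / (q ^ 2 * L ^ A)) with hP1
  set P2 : ℝ := Y * (L ^ (2 * B + 1) * (V * M)) with hP2
  have hP10 : 0 ≤ P1 := by positivity
  have hP20 : 0 ≤ P2 := by positivity
  have hZ2 : Z ^ 2 ≤ 2400 * t * P1 ^ 2 + 24 * c0 ^ 2 * P2 ^ 2 := by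
    calc Z ^ 2 ≤ (Sn.card : ℝ) * V2 := hC
      _ ≤ 2 * (N / q) * ((Y / q / L ^ A) ^ 2 * (1200 * (X / q) * L ^ 2) +
          (2 * L * Y / q) ^ 2 * (3 * (L ^ B / N)) * (c0 ^ 2 * (L ^ B) ^ 3 * (V ^ 2 * q ^ 3) * M ^ 2)) := by
          apply mul_le_mul hcard _ hV20 (by positivity)
          refine hmain.trans (add_le_add ?_ ?_)
          · exact mul_le_mul_of_nonneg_left hS (by positivity)
          · exact mul_le_mul_of_nonneg_left hR (by positivity)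
      _ = 2400 * t * P1 ^ 2 + 24 * c0 ^ 2 * P2 ^ 2 := by
          have hL2B : L ^ (2 * B + 1) = (L ^ B) ^ 2 * L := by rw [pow_succ, mul_comm 2 B, pow_mul]
          rw [hP1, hP2, hX, hL2B]
          field_simp
          ring
  have hCC : (2400 * t + 24 * c0 ^ 2 + 1) ≤ (2400 * t + 24 * c0 ^ 2 + 1) ^ 2 := by
    have h8 : 1 ≤ 2400 * t + 24 * c0 ^ 2 + 1 := by
      have : 0 ≤ 2400 * t + 24 * c0 ^ 2 := by positivity
      linarith
    exact le_self_pow₀ h8 two_ne_zero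
  have hfin : Z ^ 2 ≤ ((2400 * t + 24 * c0 ^ 2 + 1) * (P1 + P2)) ^ 2 := by
    rw [mul_pow]
    have h8 : P1 ^ 2 + P2 ^ 2 ≤ (P1 + P2) ^ 2 := by
      have h12 := mul_nonneg hP10 hP20
      have h13 : (P1 + P2) ^ 2 = P1 ^ 2 + P2 ^ 2 + 2 * (P1 * P2) := by ring
      rw [h13]
      linarith
    have h9 : 2400 * t * P1 ^ 2 + 24 * c0 ^ 2 * P2 ^ 2 ≤
        (2400 * t + 24 * c0 ^ 2 + 1) * (P1 ^ 2 + P2 ^ 2) := by
      have h10 : 0 ≤ 2400 * t * P2 ^ 2 := by positivity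
      have h11 : 0 ≤ 24 * c0 ^ 2 * P1 ^ 2 := by positivity
      have h12 := sq_nonneg P1
      have h13 := sq_nonneg P2
      have h14 : (2400 * t + 24 * c0 ^ 2 + 1) * (P1 ^ 2 + P2 ^ 2) =
          2400 * t * P1 ^ 2 + 24 * c0 ^ 2 * P2 ^ 2 + (2400 * t * P2 ^ 2 + 24 * c0 ^ 2 * P1 ^ 2 +
            P1 ^ 2 + P2 ^ 2) := by ring
      rw [h14]
      linarith
    calc Z ^ 2 ≤ (2400 * t + 24 * c0 ^ 2 + 1) * (P1 ^ 2 + P2 ^ 2) := hZ2.trans h9
      _ ≤ (2400 * t + 24 * c0 ^ 2 + 1) ^ 2 * (P1 + P2) ^ 2 :=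
        mul_le_mul hCC h8 (by positivity) (by positivity)
  have hfin2 := (pow_le_pow_iff_left₀ hZ0 (by positivity) two_ne_zero).1 hfin
  refine hfin2.trans (le_of_eq ?_)
  rw [hP1, hP2]
  ring

end Pool.Agent.HC.E
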