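import Pool.Agent.Lib.MP_0da313_nt.HC.W

set_option autoImplicit false

/-!
Project HC, piece sr.
-/

namespace Pool.Agent.HC.W

theorem p_sr : S_sr := by
  intro d r q hd hr hq
  have hex : ∃ s : ℕ, 1 ≤ s ∧ q ∣ s ^ d * r := ⟨q, hq, (dvd_pow_self q (by omega)).mul_right r⟩
  classical
  obtain ⟨h1, h2⟩ := Nat.find_spec hex
  refine ⟨Nat.find hex, h1, Nat.le_of_dvd (Nat.mul_pos (Nat.pow_pos h1) hr) h2, fun m hm => ?_⟩
  rcases Nat.eq_zero_or_pos m with h0 | h0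
  · rw [h0]
    exact dvd_zero _
  have h3 : q ∣ (Nat.gcd m (Nat.find hex)) ^ d * r := by
    have h4 : q ∣ Nat.gcd (m ^ d * r) (Nat.find hex ^ d * r) := Nat.dvd_gcd hm h2
    rw [Nat.gcd_mul_right, Nat.pow_gcd_pow] at h4
    exact h4
  have h5 : Nat.find hex ≤ Nat.gcd m (Nat.find hex) :=
    Nat.find_min' hex ⟨Nat.gcd_pos_of_pos_left _ h0, h3⟩
  have h6 : Nat.gcd m (Nat.find hex) = Nat.find hex :=
    le_antisymm (Nat.le_of_dvd h1 (Nat.gcd_dvd_right _ _)) h5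
  rw [← h6]
  exact Nat.gcd_dvd_left _ _

end Pool.Agent.HC.W
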