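import Pool.Agent.Lib.MP_0da313_nt.HC.W

set_option autoImplicit false

/-!
Project HC, section W: piece t1, the type I sums.
-/

namespace Pool.Agent.HC.W

open Finset Filter Polynomial
open Pool.Agent.SP80 (ex)

private theorem t1_class (f : ℝ[X]) (Q a m v : ℕ) (hQ : 1 ≤ Q) (hm : m.Coprime Q) :
    ∃ l0 u : ℕ, u ≤ v / Q + 1 ∧
      ∑ l ∈ (Icc 1 v).filter (fun l => m * l ≡ a [MOD Q]), ex (f.eval ((m * l : ℕ) : ℝ)) =
      ∑ y ∈ range u, ex (f.eval (((m * (l0 + Q * y) : ℕ)) : ℝ)) := by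
  have : NeZero Q := ⟨by omega⟩
  obtain ⟨x, hx⟩ : ∃ x : ZMod Q, (m : ZMod Q) * x = a := by
    refine ⟨((ZMod.unitOfCoprime m hm)⁻¹ : (ZMod Q)ˣ) * a, ?_⟩
    rw [← mul_assoc]
    have h1 : (m : ZMod Q) * (((ZMod.unitOfCoprime m hm)⁻¹ : (ZMod Q)ˣ) : ZMod Q) = 1 := by
      have h2 : ((ZMod.unitOfCoprime m hm : (ZMod Q)ˣ) : ZMod Q) = m :=
        ZMod.coe_unitOfCoprime m hm
      rw [← h2]
      exact Units.mul_inv _
    rw [h1, one_mul]
  have hlt : (x - 1).val < Q := ZMod.val_lt _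
  obtain ⟨l0, hl0⟩ : ∃ l0, l0 = (x - 1).val + 1 := ⟨_, rfl⟩
  have hl1 : 1 ≤ l0 := by omega
  have hl2 : l0 ≤ Q := by omega
  have hc : ((l0 : ℕ) : ZMod Q) = x := by
    rw [hl0]
    push_cast
    rw [ZMod.natCast_zmod_val]
    ring
  have hml : m * l0 ≡ a [MOD Q] := by
    rw [← ZMod.natCast_eq_natCast_iff]
    push_cast
    rw [hc]
    exact hx
  have hiff : ∀ l : ℕ, m * l ≡ a [MOD Q] ↔ l ≡ l0 [MOD Q] := by
    intro l
    constructor
    · intro h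
      have h1 : m * l ≡ m * l0 [MOD Q] := h.trans hml.symm
      exact Nat.ModEq.cancel_left_of_coprime (by rw [Nat.gcd_comm]; exact hm) h1
    · intro h
      exact (h.mul_left m).trans hml
  refine ⟨l0, (v + Q - l0) / Q, ?_, ?_⟩
  · have h1 : (v + Q - l0) / Q ≤ (v + Q) / Q := Nat.div_le_div_right (Nat.sub_le _ _)
    have h2 : (v + Q) / Q = v / Q + 1 := Nat.add_div_right v (by omega)
    omega
  · have hset : (Icc 1 v).filter (fun l => m * l ≡ a [MOD Q]) =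
        (range ((v + Q - l0) / Q)).image (fun y => l0 + Q * y) := by
      ext l
      simp only [mem_filter, mem_Icc, mem_image, mem_range]
      constructor
      · rintro ⟨⟨h1, h2⟩, h3⟩
        rw [hiff] at h3
        have hle : l0 ≤ l := by
          by_contra hcon
          push Not at hcon
          have h4 : Q ∣ l0 - l := (Nat.modEq_iff_dvd' hcon.le).1 h3
          have h5 := Nat.le_of_dvd (by omega) h4
          omega
        obtain ⟨y, hy⟩ := (Nat.modEq_iff_dvd' hle).1 h3.symm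
        refine ⟨y, ?_, by omega⟩
        rw [← Nat.succ_le_iff, Nat.le_div_iff_mul_le (by omega)]
        have h6 : (y.succ) * Q = Q * y + Q := by
          rw [Nat.succ_mul, Nat.mul_comm]
        rw [h6]
        omega
      · rintro ⟨y, hy, rfl⟩
        rw [← Nat.succ_le_iff, Nat.le_div_iff_mul_le (by omega)] at hy
        have h6 : (y.succ) * Q = Q * y + Q := by
          rw [Nat.succ_mul, Nat.mul_comm]
        rw [h6] at hy
        refine ⟨⟨by omega, by omega⟩, ?_⟩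
        rw [hiff]
        have h7 : l0 + Q * y ≡ l0 + 0 [MOD Q] :=
          Nat.ModEq.add_left l0 ((Nat.modEq_zero_iff_dvd).2 (Dvd.intro _ rfl))
        simp at h7 ⊢
    rw [hset, sum_image]
    intro y _ y' _ h
    simp only at h
    have h8 : Q * y = Q * y' := by omega
    exact Nat.eq_of_mul_eq_mul_left (by omega) h8

private theorem t1_poly (f : ℝ[X]) (d : ℕ) (hf : f.natDegree ≤ d) (α β : ℝ) (hβ : β ≠ 0) :
    ∃ g : ℝ[X], g.natDegree ≤ d ∧ g.coeff d = f.coeff d * β ^ d ∧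
      ∀ y : ℝ, g.eval y = f.eval (β * y + α) := by
  refine ⟨f.comp (C β * X + C α), ?_, ?_, ?_⟩
  · rw [natDegree_comp, natDegree_linear hβ]
    omega
  · rcases Nat.lt_or_ge f.natDegree d with h | h
    · rw [coeff_eq_zero_of_natDegree_lt h, coeff_eq_zero_of_natDegree_lt, zero_mul]
      rw [natDegree_comp, natDegree_linear hβ]
      omega
    · have h1 : f.natDegree = d := le_antisymm hf h
      have h2 := coeff_comp_degree_mul_degree (p := f) (q := C β * X + C α)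
        (by rw [natDegree_linear hβ]; exact one_ne_zero)
      rw [natDegree_linear hβ, leadingCoeff_linear hβ, h1, mul_one] at h2
      rw [h2, leadingCoeff, h1]
  · intro y
    simp [eval_comp]

private theorem t1_frac (θ δ : ℝ) (K M R d : ℕ) (hK : 1 ≤ K) (Bd : Finset ℕ)
    (hB : ∀ m ∈ Bd, 1 ≤ m ∧ m ≤ M) (r : ℕ → ℕ) (b : ℕ → ℤ) (hr : ∀ m ∈ Bd, 1 ≤ r m ∧ r m ≤ R)
    (hb : ∀ m ∈ Bd, |θ - b m / ((K * (m ^ d * r m) : ℕ) : ℝ)| ≤ δ)
    (hδ : 2 * δ * ((K * (M ^ d * R) : ℕ) : ℝ) ^ 2 < 1) (hne : Bd.Nonempty) :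
    ∃ q1 : ℕ, 1 ≤ q1 ∧ (∃ b0 : ℤ, |θ - b0 / ((K ^ 2 * q1 : ℕ) : ℝ)| ≤ δ) ∧
      ∀ m ∈ Bd, q1 ∣ m ^ d * r m := by
  obtain ⟨m0, hm0⟩ := hne
  have hD1 : ∀ m ∈ Bd, 1 ≤ K * (m ^ d * r m) := by
    intro m hm
    have h1 := (hB m hm).1
    have h2 := (hr m hm).1
    exact Nat.one_le_iff_ne_zero.2 (by positivity)
  have hD2 : ∀ m ∈ Bd, K * (m ^ d * r m) ≤ K * (M ^ d * R) := by
    intro m hm
    exact Nat.mul_le_mul_left _ (Nat.mul_le_mul (Nat.pow_le_pow_left (hB m hm).2 d) (hr m hm).2)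
  have hδ0 : 0 ≤ δ := (abs_nonneg _).trans (hb m0 hm0)
  have heq : ∀ m ∈ Bd, b m * ((K * (m0 ^ d * r m0) : ℕ) : ℤ) = b m0 * ((K * (m ^ d * r m) : ℕ) : ℤ) := by
    intro m hm
    obtain ⟨D, hD⟩ : ∃ D, D = K * (m ^ d * r m) := ⟨_, rfl⟩
    obtain ⟨D0, hD0⟩ : ∃ D0, D0 = K * (m0 ^ d * r m0) := ⟨_, rfl⟩
    obtain ⟨T, hT⟩ : ∃ T, T = K * (M ^ d * R) := ⟨_, rfl⟩
    have a1 := hb m hm
    have a2 := hb m0 hm0
    have a3 := hD1 m hm
    have a4 := hD1 m0 hm0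
    have a5 := hD2 m hm
    have a6 := hD2 m0 hm0
    rw [← hD] at a1 a3 a5 ⊢
    rw [← hD0] at a2 a4 a6 ⊢
    rw [← hT] at a5 a6 hδ
    have e1 : (1 : ℝ) ≤ (D : ℝ) := by exact_mod_cast a3
    have e2 : (1 : ℝ) ≤ (D0 : ℝ) := by exact_mod_cast a4
    have e3 : (D : ℝ) ≤ T := by exact_mod_cast a5
    have e4 : (D0 : ℝ) ≤ T := by exact_mod_cast a6
    have e5 : |(b m : ℝ) / D - b m0 / D0| ≤ 2 * δ := by
      have h1 : (b m : ℝ) / D - b m0 / D0 = (θ - b m0 / D0) - (θ - b m / D) := by ring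
      rw [h1]
      have h2 := abs_sub (θ - (b m0 : ℝ) / D0) (θ - b m / D)
      linarith
    have e6 : ((b m * (D0 : ℤ) - b m0 * (D : ℤ) : ℤ) : ℝ) = ((b m : ℝ) / D - b m0 / D0) * (D * D0) := by
      push_cast
      field_simp
    have e7 : |((b m * (D0 : ℤ) - b m0 * (D : ℤ) : ℤ) : ℝ)| < 1 := by
      rw [e6, abs_mul, abs_of_pos (by positivity : (0 : ℝ) < D * D0)]
      calc |(b m : ℝ) / D - b m0 / D0| * (D * D0) ≤ 2 * δ * (T * T) := by
            apply mul_le_mul e5 _ (by positivity) (by positivity)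
            exact mul_le_mul e3 e4 (by positivity) (by positivity)
        _ = 2 * δ * (T : ℝ) ^ 2 := by ring
        _ < 1 := hδ
    have e8 : |b m * (D0 : ℤ) - b m0 * (D : ℤ)| < 1 := by
      exact_mod_cast e7
    have e9 := Int.abs_lt_one_iff.1 e8
    linarith
  obtain ⟨ρ, hρ⟩ : ∃ ρ : ℚ, ρ = (b m0 : ℚ) / ((K * (m0 ^ d * r m0) : ℕ) : ℚ) := ⟨_, rfl⟩
  have hρm : ∀ m ∈ Bd, ρ = ((b m : ℤ) : ℚ) / (((K * (m ^ d * r m) : ℕ) : ℤ) : ℚ) := by
    intro m hm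
    have h1 : ((K * (m ^ d * r m) : ℕ) : ℚ) ≠ 0 := by
      have := hD1 m hm
      exact_mod_cast (by omega : K * (m ^ d * r m) ≠ 0)
    have h2 : ((K * (m0 ^ d * r m0) : ℕ) : ℚ) ≠ 0 := by
      have := hD1 m0 hm0
      exact_mod_cast (by omega : K * (m0 ^ d * r m0) ≠ 0)
    have h3 : (b m : ℚ) * ((K * (m0 ^ d * r m0) : ℕ) : ℚ) = (b m0 : ℚ) * ((K * (m ^ d * r m) : ℕ) : ℚ) := by
      exact_mod_cast heq m hm
    rw [hρ, Int.cast_natCast, div_eq_div_iff h2 h1]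
    linarith
  have hdvd : ∀ m ∈ Bd, ρ.den ∣ K * (m ^ d * r m) := by
    intro m hm
    rw [hρm m hm]
    have h1 := Rat.den_dvd (b m) ((K * (m ^ d * r m) : ℕ) : ℤ)
    exact_mod_cast h1
  obtain ⟨q, hq⟩ : ∃ q, q = ρ.den := ⟨_, rfl⟩
  have hqpos : 0 < q := by rw [hq]; exact ρ.den_pos
  rw [← hq] at hdvd
  obtain ⟨e, he⟩ : ∃ e, e = Nat.gcd q (K ^ 2) := ⟨_, rfl⟩
  have hepos : 0 < e := by rw [he]; exact Nat.gcd_pos_of_pos_left _ hqpos
  obtain ⟨q1, hq1⟩ : e ∣ q := by rw [he]; exact Nat.gcd_dvd_left _ _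
  have hq1pos : 1 ≤ q1 := by
    rcases Nat.eq_zero_or_pos q1 with h | h
    · rw [h, mul_zero] at hq1; omega
    · exact h
  refine ⟨q1, hq1pos, ?_, ?_⟩
  · have h1 : q ∣ K ^ 2 * q1 := by
      rw [hq1]
      exact Nat.mul_dvd_mul_right (by rw [he]; exact Nat.gcd_dvd_right _ _) _
    obtain ⟨c, hc⟩ := h1
    refine ⟨ρ.num * c, ?_⟩
    have hc0 : (c : ℝ) ≠ 0 := by
      intro h
      have h2 : c = 0 := by exact_mod_cast h
      rw [h2, mul_zero] at hc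
      have h3 : 0 < K ^ 2 * q1 := by positivity
      omega
    have h4 : (((ρ.num * c : ℤ)) : ℝ) / ((K ^ 2 * q1 : ℕ) : ℝ) = (ρ : ℝ) := by
      rw [hc]
      push_cast
      rw [Rat.cast_def, ← hq]
      have h5 : (q : ℝ) ≠ 0 := by positivity
      field_simp
    have h6 : (ρ : ℝ) = (b m0 : ℝ) / ((K * (m0 ^ d * r m0) : ℕ) : ℝ) := by
      rw [hρ]
      push_cast
      ring
    rw [h4, h6]
    exact hb m0 hm0
  · intro m hm
    have h1 := hdvd m hm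
    have h2 : q ∣ Nat.gcd q K * (m ^ d * r m) := by
      rw [← Nat.gcd_mul_right]
      exact Nat.dvd_gcd (Dvd.intro _ rfl) h1
    have h3 : Nat.gcd q K ∣ e := by
      rw [he]
      exact Nat.dvd_gcd (Nat.gcd_dvd_left _ _)
        ((Nat.gcd_dvd_right q K).trans (dvd_pow_self K two_ne_zero))
    have h4 : e * q1 ∣ e * (m ^ d * r m) := by
      rw [← hq1]
      exact h2.trans (Nat.mul_dvd_mul_right h3 _)
    exact Nat.dvd_of_mul_dvd_mul_left hepos h4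

private theorem t1_harm (M s : ℕ) (hM : 1 ≤ M) (hs : 1 ≤ s) :
    ∑ m ∈ (Icc 1 M).filter (fun m => s ∣ m), 1 / (m : ℝ) ≤ 1 / s * (1 + Real.log M) := by
  calc ∑ m ∈ (Icc 1 M).filter (fun m => s ∣ m), 1 / (m : ℝ)
      ≤ ∑ m ∈ (Icc 1 M).image (fun k => s * k), 1 / (m : ℝ) := by
        apply sum_le_sum_of_subset_of_nonneg
        · intro m hm
          rw [mem_filter, mem_Icc] at hm
          obtain ⟨⟨h1, h2⟩, k, hk⟩ := hm
          rw [mem_image]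
          refine ⟨k, ?_, hk.symm⟩
          rw [mem_Icc]
          constructor
          · rcases Nat.eq_zero_or_pos k with h | h
            · rw [h, mul_zero] at hk; omega
            · exact h
          · calc k ≤ s * k := Nat.le_mul_of_pos_left k (by omega)
              _ ≤ M := by omega
        · intro i _ _
          positivity
    _ = ∑ k ∈ Icc 1 M, 1 / ((s * k : ℕ) : ℝ) := by
        rw [sum_image]
        intro x _ y _ h
        exact Nat.eq_of_mul_eq_mul_left (by omega) h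
    _ = 1 / s * ∑ k ∈ Icc 1 M, 1 / (k : ℝ) := by
        rw [mul_sum]
        refine sum_congr rfl fun k _ => ?_
        push_cast
        rw [one_div_mul_one_div]
    _ ≤ 1 / s * (1 + Real.log M) :=
        mul_le_mul_of_nonneg_left (NC.Wy.harm_le M hM) (by positivity)

private theorem t1_bad (hsr : R_sr) (d M R S q1 : ℕ) (hd : 1 ≤ d) (hM : 1 ≤ M) (hS : 1 ≤ S)
    (hq : S ^ d * R ≤ q1) (hq0 : 1 ≤ q1)
    (Bd : Finset ℕ) (hB : ∀ m ∈ Bd, 1 ≤ m ∧ m ≤ M) (r : ℕ → ℕ)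
    (hr : ∀ m ∈ Bd, 1 ≤ r m ∧ r m ≤ R) (hq1 : ∀ m ∈ Bd, q1 ∣ m ^ d * r m) :
    ∑ m ∈ Bd, 1 / (m : ℝ) ≤ R * (1 / S * (1 + Real.log M)) := by
  have h0 : ∀ r ∈ Icc 1 R, ∃ s : ℕ, S ≤ s ∧ ∀ m : ℕ, q1 ∣ m ^ d * r → s ∣ m := by
    intro r hr
    rw [mem_Icc] at hr
    obtain ⟨s, h1, h2, h3⟩ := hsr d r q1 hd hr.1 hq0
    refine ⟨s, ?_, h3⟩
    have h4 : S ^ d * R ≤ s ^ d * R := hq.trans (h2.trans (Nat.mul_le_mul_left _ hr.2))
    have h5 : S ^ d ≤ s ^ d := Nat.le_of_mul_le_mul_right h4 (by omega)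
    exact (Nat.pow_le_pow_iff_left (by omega)).1 h5
  choose! s hs1 hs2 using h0
  have hlog : 0 ≤ Real.log M := Real.log_nonneg (by exact_mod_cast hM)
  calc ∑ m ∈ Bd, 1 / (m : ℝ) ≤ ∑ m ∈ Bd, ∑ ρ ∈ Icc 1 R, (if s ρ ∣ m then 1 / (m : ℝ) else 0) := by
        refine sum_le_sum fun m hm => ?_
        have h1 : r m ∈ Icc 1 R := mem_Icc.2 (hr m hm)
        have h2 : s (r m) ∣ m := hs2 _ h1 m (hq1 m hm)
        calc 1 / (m : ℝ) = (if s (r m) ∣ m then 1 / (m : ℝ) else 0) := by rw [if_pos h2]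
          _ ≤ ∑ ρ ∈ Icc 1 R, (if s ρ ∣ m then 1 / (m : ℝ) else 0) :=
              single_le_sum (f := fun ρ => (if s ρ ∣ m then 1 / (m : ℝ) else 0))
                (fun i _ => by split_ifs <;> positivity) h1
    _ = ∑ ρ ∈ Icc 1 R, ∑ m ∈ Bd, (if s ρ ∣ m then 1 / (m : ℝ) else 0) := sum_comm
    _ ≤ ∑ ρ ∈ Icc 1 R, ∑ m ∈ Icc 1 M, (if s ρ ∣ m then 1 / (m : ℝ) else 0) := by
        refine sum_le_sum fun ρ _ => ?_
        apply sum_le_sum_of_subset_of_nonneg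
        · intro m hm
          exact mem_Icc.2 (hB m hm)
        · intro i _ _
          split_ifs <;> positivity
    _ ≤ ∑ ρ ∈ Icc 1 R, (1 / (S : ℝ) * (1 + Real.log M)) := by
        refine sum_le_sum fun ρ hρ => ?_
        have h1 : S ≤ s ρ := hs1 ρ hρ
        rw [← sum_filter]
        refine (t1_harm M (s ρ) hM (by omega)).trans ?_
        apply mul_le_mul_of_nonneg_right _ (by linarith)
        apply one_div_le_one_div_of_le (by exact_mod_cast hS)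
        exact_mod_cast h1
    _ = R * (1 / S * (1 + Real.log M)) := by
        rw [sum_const, Nat.card_Icc, nsmul_eq_mul]
        norm_num

private theorem t1_ev (Y0 B1 A d : ℕ) : ∀ᶠ X : ℝ in atTop, 1 ≤ X ∧
    (2 : ℝ) ^ (A + B1 + 20) ≤ Real.log X ∧ (Y0 : ℝ) ≤ X ^ (1 / 2 : ℝ) ∧
    2 * ((d.factorial : ℕ) : ℝ) ^ 2 * (Real.log X) ^ (3 * (B1 + 1)) < X := by
  have hf : (0 : ℝ) < ((d.factorial : ℕ) : ℝ) ^ 2 := by
    have := Nat.factorial_pos d
    positivity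
  have h1 := (Real.isLittleO_pow_log_id_atTop (n := 3 * (B1 + 1))).bound
    (show (0 : ℝ) < 1 / (4 * ((d.factorial : ℕ) : ℝ) ^ 2) by positivity)
  filter_upwards [h1, eventually_ge_atTop 1, Real.tendsto_log_atTop.eventually_ge_atTop _,
    (tendsto_rpow_atTop (show (0 : ℝ) < 1 / 2 by norm_num)).eventually_ge_atTop _]
    with X h2 h3 h4 h5
  refine ⟨h3, h4, h5, ?_⟩
  have hl : 0 ≤ Real.log X := Real.log_nonneg h3
  rw [Real.norm_of_nonneg (pow_nonneg hl _), id, Real.norm_of_nonneg (by linarith)] at h2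
  calc 2 * ((d.factorial : ℕ) : ℝ) ^ 2 * (Real.log X) ^ (3 * (B1 + 1))
      ≤ 2 * ((d.factorial : ℕ) : ℝ) ^ 2 * (1 / (4 * ((d.factorial : ℕ) : ℝ) ^ 2) * X) :=
        mul_le_mul_of_nonneg_left h2 (by positivity)
    _ = X / 2 := by field_simp; norm_num
    _ < X := by linarith

private theorem t1_one (d A B1 Y0 : ℕ) (hd : 2 ≤ d)
    (hwa : ∀ Y : ℕ, Y0 ≤ Y → ∀ f : ℝ[X], f.natDegree ≤ d →
      (∀ u ≤ Y, ‖∑ y ∈ range u, ex (f.eval (y : ℝ))‖ ≤ Y / (Real.log Y) ^ (A + 2)) ∨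
      ∃ m ∈ Icc 1 ⌊(Real.log Y) ^ B1⌋₊, ∃ b : ℤ,
        |(d.factorial : ℝ) * f.coeff d - b / m| ≤ (Real.log Y) ^ B1 / (Y : ℝ) ^ d)
    (X : ℝ) (hX1 : 1 ≤ X) (hX2 : (2 : ℝ) ^ (A + B1 + 20) ≤ Real.log X)
    (hX3 : (Y0 : ℝ) ≤ X ^ (1 / 2 : ℝ))
    (Q a m v : ℕ) (f : ℝ[X]) (hQ : 1 ≤ Q) (hQX : (Q : ℝ) ≤ X ^ (1 / 500 : ℝ))
    (haQ : a.Coprime Q) (hf : f.natDegree ≤ d) (hm : 1 ≤ m) (hmX : (m : ℝ) ≤ X ^ (1 / 5 : ℝ))
    (hv : (v : ℝ) ≤ 2 * X / m) :
    ‖∑ l ∈ (Icc 1 v).filter (fun l => m * l ≡ a [MOD Q]), ex (f.eval ((m * l : ℕ) : ℝ))‖ ≤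
      4 * (X / Q) * (1 / m) ∧
    (‖∑ l ∈ (Icc 1 v).filter (fun l => m * l ≡ a [MOD Q]), ex (f.eval ((m * l : ℕ) : ℝ))‖ ≤
      2 ^ (A + 4) * (X / Q) / (Real.log X) ^ (A + 2) * (1 / m) ∨
     ∃ r ∈ Icc 1 ⌊(Real.log X) ^ (B1 + 1)⌋₊, ∃ b : ℤ,
       |f.coeff d - b / (((d.factorial * Q ^ d) * (m ^ d * r) : ℕ) : ℝ)| ≤
         (Real.log X) ^ (B1 + 1) / X ^ d) := by
  have hXp : 0 < X := by linarith
  have hQr : (1 : ℝ) ≤ Q := by exact_mod_cast hQ
  have hmr : (1 : ℝ) ≤ m := by exact_mod_cast hm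
  obtain ⟨L, hL⟩ : ∃ L, L = Real.log X := ⟨_, rfl⟩
  rw [← hL] at hX2 ⊢
  have hLbig : (2 : ℝ) ^ B1 ≤ L := le_trans (pow_le_pow_right₀ (by norm_num) (by omega)) hX2
  have hL20 : (2 : ℝ) ^ 20 ≤ L := le_trans (pow_le_pow_right₀ (by norm_num) (by omega)) hX2
  have hL4 : (4 : ℝ) ≤ L := by norm_num at hL20; linarith
  by_cases hc : m.Coprime Q
  swap
  · have hemp : (Icc 1 v).filter (fun l => m * l ≡ a [MOD Q]) = ∅ := by
      rw [filter_eq_empty_iff]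
      intro l _ h
      apply hc
      have h1 : Nat.gcd (m * l) Q = Nat.gcd a Q := h.gcd_eq
      have h2 : Nat.Coprime (m * l) Q := by
        rw [Nat.Coprime, h1]
        exact haQ
      exact Nat.Coprime.coprime_dvd_left (Dvd.intro _ rfl) h2
    rw [hemp, sum_empty, norm_zero]
    exact ⟨by positivity, Or.inl (by positivity)⟩
  obtain ⟨l0, u, hu, hsum⟩ := t1_class f Q a m v hQ hc
  obtain ⟨g, hg1, hg2, hg3⟩ := t1_poly f d hf (m * l0) (m * Q) (by positivity)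
  have hsum2 : ∑ l ∈ (Icc 1 v).filter (fun l => m * l ≡ a [MOD Q]), ex (f.eval ((m * l : ℕ) : ℝ)) =
      ∑ y ∈ range u, ex (g.eval (y : ℝ)) := by
    rw [hsum]
    refine sum_congr rfl fun y _ => ?_
    rw [hg3]
    congr 2
    push_cast
    ring
  rw [hsum2]
  obtain ⟨t, ht⟩ : ∃ t, t = 2 * X / m / Q := ⟨_, rfl⟩
  have htm : t * (m * Q) = 2 * X := by
    rw [ht]
    field_simp
  have hsq : (m : ℝ) * Q * X ^ (1 / 2 : ℝ) ≤ X := by
    calc (m : ℝ) * Q * X ^ (1 / 2 : ℝ) ≤ X ^ (1 / 5 : ℝ) * X ^ (1 / 500 : ℝ) * X ^ (1 / 2 : ℝ) := by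
          apply mul_le_mul_of_nonneg_right _ (by positivity)
          exact mul_le_mul hmX hQX (by positivity) (by positivity)
      _ = X ^ (1 / 5 + 1 / 500 + 1 / 2 : ℝ) := by
          rw [← Real.rpow_add hXp, ← Real.rpow_add hXp]
      _ ≤ X ^ (1 : ℝ) := Real.rpow_le_rpow_of_exponent_le hX1 (by norm_num)
      _ = X := Real.rpow_one X
  have hsq1 : (1 : ℝ) ≤ X ^ (1 / 2 : ℝ) := Real.one_le_rpow hX1 (by norm_num)
  have ht2 : 2 * X ^ (1 / 2 : ℝ) ≤ t := by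
    have h1 : (2 * X ^ (1 / 2 : ℝ)) * (m * Q) ≤ t * (m * Q) := by
      rw [htm]
      linarith
    exact le_of_mul_le_mul_right h1 (by positivity)
  obtain ⟨Y, hY⟩ : ∃ Y, Y = ⌊t⌋₊ + 1 := ⟨_, rfl⟩
  have ht0 : 0 ≤ t := by linarith
  have hY1 : t ≤ (Y : ℝ) := by
    rw [hY]
    push_cast
    exact (Nat.lt_floor_add_one t).le
  have hY2 : (Y : ℝ) ≤ 2 * t := by
    rw [hY]
    push_cast
    have := Nat.floor_le ht0
    linarith
  have huY : u ≤ Y := by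
    have h1 : v / Q ≤ ⌊t⌋₊ := by
      apply Nat.le_floor
      refine Nat.cast_div_le.trans ?_
      rw [ht]
      exact div_le_div_of_nonneg_right hv (by positivity)
    omega
  have hY0 : Y0 ≤ Y := by
    have h1 : (Y0 : ℝ) ≤ Y := by linarith
    exact_mod_cast h1
  have hYp : (0 : ℝ) < Y := by linarith
  have hlog1 : L / 2 ≤ Real.log Y := by
    have h1 : Real.log (X ^ (1 / 2 : ℝ)) ≤ Real.log Y :=
      Real.log_le_log (by positivity) (by linarith)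
    rw [Real.log_rpow hXp, ← hL] at h1
    linarith
  have hlog2 : Real.log Y ≤ 2 * L := by
    have h0 : t ≤ 2 * X := by
      rw [← htm]
      exact le_mul_of_one_le_right ht0 (one_le_mul_of_one_le_of_one_le hmr hQr)
    have h1 : Real.log Y ≤ Real.log (4 * X) := Real.log_le_log hYp (by linarith)
    rw [Real.log_mul (by norm_num) (by positivity), ← hL] at h1
    have h2 : Real.log 4 ≤ 4 - 1 := Real.log_le_sub_one_of_pos (by norm_num)
    linarith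
  have h2t : 2 * t = 4 * (X / Q) * (1 / m) := by
    rw [ht]
    ring
  refine ⟨?_, ?_⟩
  · calc ‖∑ y ∈ range u, ex (g.eval (y : ℝ))‖ ≤ ∑ y ∈ range u, ‖ex (g.eval (y : ℝ))‖ :=
          norm_sum_le _ _
      _ = (u : ℝ) := by
          rw [sum_congr rfl fun y _ => NC.Wy.norm_ex _, sum_const, card_range, nsmul_eq_mul, mul_one]
      _ ≤ (Y : ℝ) := by exact_mod_cast huY
      _ ≤ _ := by rw [← h2t]; exact hY2
  · rcases hwa Y hY0 g hg1 with h | ⟨r, hr, b, hb⟩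
    · left
      refine (h u huY).trans ?_
      calc (Y : ℝ) / Real.log Y ^ (A + 2) ≤ (2 * t) / (L / 2) ^ (A + 2) := by
            apply div_le_div₀ (by linarith) hY2 (by positivity)
            exact pow_le_pow_left₀ (by linarith) hlog1 _
        _ = 2 ^ (A + 4) * (X / Q) / L ^ (A + 2) * (1 / m) := by
            rw [h2t, div_pow]
            rw [show (2 : ℝ) ^ (A + 4) = 2 ^ (A + 2) * 4 by ring]
            field_simp
    · right
      rw [mem_Icc] at hr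
      have hpow : Real.log Y ^ B1 ≤ L ^ (B1 + 1) := by
        calc Real.log Y ^ B1 ≤ (2 * L) ^ B1 := pow_le_pow_left₀ (by linarith) hlog2 _
          _ = 2 ^ B1 * L ^ B1 := mul_pow _ _ _
          _ ≤ L * L ^ B1 := mul_le_mul_of_nonneg_right hLbig (by positivity)
          _ = L ^ (B1 + 1) := by ring
      refine ⟨r, mem_Icc.2 ⟨hr.1, hr.2.trans (Nat.floor_le_floor hpow)⟩, b, ?_⟩
      have hr0 : (1 : ℝ) ≤ r := by exact_mod_cast hr.1
      have hfac : (1 : ℝ) ≤ ((d.factorial : ℕ) : ℝ) := by exact_mod_cast Nat.factorial_pos d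
      have hP : (0 : ℝ) < (d.factorial : ℝ) * ((m : ℝ) * Q) ^ d := by positivity
      have e1 : f.coeff d - b / (((d.factorial * Q ^ d) * (m ^ d * r) : ℕ) : ℝ) =
          ((d.factorial : ℝ) * g.coeff d - b / r) / ((d.factorial : ℝ) * ((m : ℝ) * Q) ^ d) := by
        rw [hg2]
        push_cast
        rw [mul_pow]
        field_simp
      rw [e1, abs_div, abs_of_pos hP, div_le_iff₀ hP]
      refine hb.trans ?_
      rw [div_mul_eq_mul_div, div_le_div_iff₀ (by positivity) (by positivity)]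
      have e2 : X ^ d ≤ ((m : ℝ) * Q) ^ d * (Y : ℝ) ^ d := by
        rw [← mul_pow]
        apply pow_le_pow_left₀ hXp.le
        have e3 : t * (m * Q) ≤ Y * (m * Q) := mul_le_mul_of_nonneg_right hY1 (by positivity)
        rw [htm] at e3
        linarith
      calc Real.log Y ^ B1 * X ^ d ≤ L ^ (B1 + 1) * (((m : ℝ) * Q) ^ d * (Y : ℝ) ^ d) := by
            apply mul_le_mul hpow e2 (by positivity) (by positivity)
        _ ≤ (d.factorial : ℝ) * (L ^ (B1 + 1) * (((m : ℝ) * Q) ^ d * (Y : ℝ) ^ d)) :=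
            le_mul_of_one_le_left (by positivity) hfac
        _ = L ^ (B1 + 1) * ((d.factorial : ℝ) * ((m : ℝ) * Q) ^ d) * (Y : ℝ) ^ d := by ring

private theorem t1_small (d B1 M Q : ℕ) (X : ℝ) (hd : 2 ≤ d) (hX1 : 1 ≤ X) (hL1 : 1 ≤ Real.log X)
    (hX4 : 2 * ((d.factorial : ℕ) : ℝ) ^ 2 * (Real.log X) ^ (3 * (B1 + 1)) < X)
    (hQX : (Q : ℝ) ≤ X ^ (1 / 500 : ℝ)) (hMX : (M : ℝ) ≤ X ^ (1 / 5 : ℝ)) :
    2 * ((Real.log X) ^ (B1 + 1) / X ^ d) *
      (((d.factorial * Q ^ d) * (M ^ d * ⌊(Real.log X) ^ (B1 + 1)⌋₊) : ℕ) : ℝ) ^ 2 < 1 := by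
  have hXp : 0 < X := by linarith
  obtain ⟨L, hL⟩ : ∃ L, L = Real.log X := ⟨_, rfl⟩
  rw [← hL] at hL1 hX4 ⊢
  obtain ⟨z, hz⟩ : ∃ z, z = X ^ (1 / 2 : ℝ) := ⟨_, rfl⟩
  have hz1 : 1 ≤ z := by rw [hz]; exact Real.one_le_rpow hX1 (by norm_num)
  have hzz : z ^ 2 = X := by
    rw [hz, ← Real.rpow_natCast, ← Real.rpow_mul hXp.le]
    norm_num
  have hQM : ((Q : ℝ) * M) ^ 2 ≤ z := by
    calc ((Q : ℝ) * M) ^ 2 ≤ (X ^ (1 / 500 : ℝ) * X ^ (1 / 5 : ℝ)) ^ 2 := by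
          apply pow_le_pow_left₀ (by positivity)
          exact mul_le_mul hQX hMX (by positivity) (by positivity)
      _ = X ^ ((1 / 500 + 1 / 5) * 2 : ℝ) := by
          rw [← Real.rpow_add hXp, ← Real.rpow_natCast, ← Real.rpow_mul hXp.le]
          norm_num
      _ ≤ z := by
          rw [hz]
          exact Real.rpow_le_rpow_of_exponent_le hX1 (by norm_num)
  have hR : ((⌊L ^ (B1 + 1)⌋₊ : ℕ) : ℝ) ≤ L ^ (B1 + 1) := Nat.floor_le (by positivity)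
  have h1 : (((d.factorial * Q ^ d) * (M ^ d * ⌊L ^ (B1 + 1)⌋₊) : ℕ) : ℝ) ^ 2 ≤
      ((d.factorial : ℕ) : ℝ) ^ 2 * z ^ d * L ^ (2 * (B1 + 1)) := by
    push_cast
    calc ((d.factorial : ℝ) * (Q : ℝ) ^ d * ((M : ℝ) ^ d * ((⌊L ^ (B1 + 1)⌋₊ : ℕ) : ℝ))) ^ 2
        = (d.factorial : ℝ) ^ 2 * (((Q : ℝ) * M) ^ 2) ^ d * ((⌊L ^ (B1 + 1)⌋₊ : ℕ) : ℝ) ^ 2 := by
          rw [← pow_mul, mul_pow (Q : ℝ)]
          ring
      _ ≤ (d.factorial : ℝ) ^ 2 * z ^ d * (L ^ (B1 + 1)) ^ 2 := by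
          apply mul_le_mul _ (pow_le_pow_left₀ (by positivity) hR 2) (by positivity) (by positivity)
          exact mul_le_mul_of_nonneg_left (pow_le_pow_left₀ (by positivity) hQM d) (by positivity)
      _ = (d.factorial : ℝ) ^ 2 * z ^ d * L ^ (2 * (B1 + 1)) := by
          rw [← pow_mul, Nat.mul_comm (B1 + 1) 2]
  have hzd : X ≤ z ^ d := by
    rw [← hzz]
    exact pow_le_pow_right₀ hz1 hd
  have hXd : X ^ d = z ^ d * z ^ d := by
    rw [← hzz, ← pow_mul, ← pow_add]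
    congr 1
    omega
  have hzp : 0 < z ^ d := by positivity
  calc 2 * (L ^ (B1 + 1) / X ^ d) *
      (((d.factorial * Q ^ d) * (M ^ d * ⌊L ^ (B1 + 1)⌋₊) : ℕ) : ℝ) ^ 2
      ≤ 2 * (L ^ (B1 + 1) / X ^ d) *
        (((d.factorial : ℕ) : ℝ) ^ 2 * z ^ d * L ^ (2 * (B1 + 1))) :=
        mul_le_mul_of_nonneg_left h1 (by positivity)
    _ = (2 * ((d.factorial : ℕ) : ℝ) ^ 2 * L ^ (3 * (B1 + 1))) / z ^ d := by
        rw [hXd]
        rw [show L ^ (3 * (B1 + 1)) = L ^ (B1 + 1) * L ^ (2 * (B1 + 1)) by rw [← pow_add]; congr 1; ring]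
        field_simp
    _ < 1 := by
        rw [div_lt_one hzp]
        linarith

/-- [HC t1] Type I sums. -/
theorem p_t1 : S_t1 := by
  intro hwa hsr d A hd
  obtain ⟨B1, hB1⟩ := hwa d (A + 2) hd
  rw [eventually_atTop] at hB1
  obtain ⟨Y0, hY0⟩ := hB1
  refine ⟨B1 + 1 + d * (B1 + A + 5), ?_⟩
  filter_upwards [t1_ev Y0 B1 A d] with X hX
  obtain ⟨hX1, hX2, hX3, hX4⟩ := hX
  intro Q a M f v hQ hQX haQ hf hMX hv
  have hXp : 0 < X := by linarith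
  have hQr : (1 : ℝ) ≤ Q := by exact_mod_cast hQ
  have hone : ∀ m ∈ Icc 1 M, _ := fun m hm => t1_one d A B1 Y0 hd hY0 X hX1 hX2 hX3 Q a m (v m) f
    hQ hQX haQ hf (mem_Icc.1 hm).1
    (le_trans (by exact_mod_cast (mem_Icc.1 hm).2) hMX) (hv m hm)
  have hL20 : (2 : ℝ) ^ 20 ≤ Real.log X := le_trans (pow_le_pow_right₀ (by norm_num) (by omega)) hX2
  have hLA : (2 : ℝ) ^ (A + 5) ≤ Real.log X :=
    le_trans (pow_le_pow_right₀ (by norm_num) (by omega)) hX2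
  have hL1 : (1 : ℝ) ≤ Real.log X := by norm_num at hL20; linarith
  have hL4 : (4 : ℝ) ≤ Real.log X := by norm_num at hL20; linarith
  have hsm := t1_small d B1 M Q X hd hX1 hL1 hX4 hQX hMX
  rcases Nat.eq_zero_or_pos M with hM0 | hM0
  · left
    rw [hM0]
    simp only [Icc_eq_empty_of_lt (Nat.zero_lt_one), sum_empty]
    positivity
  have hlogM : 1 + Real.log M ≤ Real.log X := by
    have hMr : (0 : ℝ) < M := by exact_mod_cast hM0
    have h1 : Real.log M ≤ Real.log (X ^ (1 / 5 : ℝ)) := Real.log_le_log hMr hMX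
    rw [Real.log_rpow hXp] at h1
    linarith
  have hlogM0 : 0 ≤ Real.log M := Real.log_nonneg (by exact_mod_cast hM0)
  by_cases hMaj : Maj d (B1 + 1 + d * (B1 + A + 5)) X Q f
  · exact Or.inr hMaj
  left
  unfold Maj at hMaj
  obtain ⟨L, hL⟩ : ∃ L, L = Real.log X := ⟨_, rfl⟩
  rw [← hL] at hone hL20 hLA hL1 hL4 hlogM hMaj hsm ⊢
  obtain ⟨P, hP⟩ : ∃ P : ℕ → Prop, P = fun m => ∃ r ∈ Icc 1 ⌊L ^ (B1 + 1)⌋₊, ∃ b : ℤ,
       |f.coeff d - b / (((d.factorial * Q ^ d) * (m ^ d * r) : ℕ) : ℝ)| ≤ L ^ (B1 + 1) / X ^ d :=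
    ⟨_, rfl⟩
  classical
  -- the bad numbers
  have hbad : ∑ m ∈ (Icc 1 M).filter P, 1 / (m : ℝ) ≤ 2 / L ^ (A + 3) := by
    rcases ((Icc 1 M).filter P).eq_empty_or_nonempty with he | hne
    · rw [he, sum_empty]
      positivity
    have hex : ∀ m ∈ (Icc 1 M).filter P, ∃ r : ℕ, ∃ b : ℤ, (1 ≤ r ∧ r ≤ ⌊L ^ (B1 + 1)⌋₊) ∧
        |f.coeff d - b / (((d.factorial * Q ^ d) * (m ^ d * r) : ℕ) : ℝ)| ≤
          L ^ (B1 + 1) / X ^ d := by
      intro m hm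
      rw [mem_filter, hP] at hm
      obtain ⟨r, hr, b, hb⟩ := hm.2
      exact ⟨r, b, mem_Icc.1 hr, hb⟩
    choose! r b hr hb using hex
    have hBd : ∀ m ∈ (Icc 1 M).filter P, 1 ≤ m ∧ m ≤ M := fun m hm =>
      mem_Icc.1 (mem_filter.1 hm).1
    have hK : 1 ≤ d.factorial * Q ^ d := by
      have := Nat.factorial_pos d
      exact Nat.one_le_iff_ne_zero.2 (by positivity)
    obtain ⟨q1, hq1, ⟨b0, hb0⟩, hdv⟩ := t1_frac (f.coeff d) (L ^ (B1 + 1) / X ^ d)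
      (d.factorial * Q ^ d) M ⌊L ^ (B1 + 1)⌋₊ d hK _ hBd r b hr hb hsm hne
    have hq1big : L ^ (B1 + 1 + d * (B1 + A + 5)) < q1 := by
      by_contra hcon
      push Not at hcon
      apply hMaj
      refine ⟨q1, mem_Icc.2 ⟨hq1, Nat.le_floor hcon⟩, b0, ?_⟩
      have h1 : d.factorial ^ 2 * q1 * Q ^ (2 * d) = (d.factorial * Q ^ d) ^ 2 * q1 := by
        rw [Nat.mul_comm 2 d, pow_mul]
        ring
      rw [h1]
      refine hb0.trans ?_
      apply div_le_div_of_nonneg_right _ (by positivity)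
      exact pow_le_pow_right₀ hL1 (by omega)
    obtain ⟨S, hS⟩ : ∃ S, S = ⌊L ^ (B1 + A + 5)⌋₊ := ⟨_, rfl⟩
    have hLN : 1 ≤ L ^ (B1 + A + 5) := one_le_pow₀ hL1
    have hS1 : 1 ≤ S := by
      rw [hS]
      exact Nat.le_floor (by exact_mod_cast hLN)
    have hSr : (S : ℝ) ≤ L ^ (B1 + A + 5) := by rw [hS]; exact Nat.floor_le (by positivity)
    have hS2 : L ^ (B1 + A + 5) ≤ 2 * S := by
      have h1 : L ^ (B1 + A + 5) < S + 1 := by rw [hS]; exact Nat.lt_floor_add_one _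
      have h2 : (1 : ℝ) ≤ S := by exact_mod_cast hS1
      linarith
    have hR : ((⌊L ^ (B1 + 1)⌋₊ : ℕ) : ℝ) ≤ L ^ (B1 + 1) := Nat.floor_le (by positivity)
    have hq : S ^ d * ⌊L ^ (B1 + 1)⌋₊ ≤ q1 := by
      have h1 : ((S ^ d * ⌊L ^ (B1 + 1)⌋₊ : ℕ) : ℝ) ≤ q1 := by
        push_cast
        calc (S : ℝ) ^ d * ((⌊L ^ (B1 + 1)⌋₊ : ℕ) : ℝ) ≤ (L ^ (B1 + A + 5)) ^ d * L ^ (B1 + 1) :=
              mul_le_mul (pow_le_pow_left₀ (by positivity) hSr d) hR (by positivity) (by positivity)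
          _ = L ^ (B1 + 1 + d * (B1 + A + 5)) := by
              rw [← pow_mul, ← pow_add]
              congr 1
              ring
          _ ≤ q1 := hq1big.le
      exact_mod_cast h1
    refine (t1_bad hsr d M _ S q1 (by omega) hM0 hS1 hq hq1 _ hBd r hr hdv).trans ?_
    have hSp : (0 : ℝ) < S := by exact_mod_cast hS1
    calc ((⌊L ^ (B1 + 1)⌋₊ : ℕ) : ℝ) * (1 / S * (1 + Real.log M))
        ≤ L ^ (B1 + 1) * (2 / L ^ (B1 + A + 5) * L) := by
          apply mul_le_mul hR _ (by positivity) (by positivity)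
          apply mul_le_mul _ hlogM (by positivity) (by positivity)
          rw [div_le_div_iff₀ hSp (by positivity)]
          linarith
      _ = 2 / L ^ (A + 3) := by
          rw [show L ^ (B1 + A + 5) = L ^ (B1 + 1) * L * L ^ (A + 3) by ring]
          field_simp
  have hsum : ∑ m ∈ Icc 1 M, ‖∑ l ∈ (Icc 1 (v m)).filter (fun l => m * l ≡ a [MOD Q]),
      ex (f.eval ((m * l : ℕ) : ℝ))‖ ≤
      2 ^ (A + 4) * (X / Q) / L ^ (A + 2) * ∑ m ∈ Icc 1 M, 1 / (m : ℝ) +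
        4 * (X / Q) * ∑ m ∈ (Icc 1 M).filter P, 1 / (m : ℝ) := by
    rw [mul_sum, mul_sum, sum_filter, ← sum_add_distrib]
    refine sum_le_sum fun m hm => ?_
    obtain ⟨h1, h2⟩ := hone m hm
    have hm1 : (1 : ℝ) ≤ m := by exact_mod_cast (mem_Icc.1 hm).1
    by_cases hPm : P m
    · rw [if_pos hPm]
      have h3 : 0 ≤ 2 ^ (A + 4) * (X / Q) / L ^ (A + 2) * (1 / (m : ℝ)) := by positivity
      linarith
    · rw [if_neg hPm, add_zero]
      rcases h2 with h2 | h2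
      · exact h2
      · exact absurd (by rw [hP]; exact h2) hPm
  have hharm : ∑ m ∈ Icc 1 M, 1 / (m : ℝ) ≤ L := (NC.Wy.harm_le M hM0).trans hlogM
  have hXQ : 0 < X / Q := by positivity
  calc _ ≤ 2 ^ (A + 4) * (X / Q) / L ^ (A + 2) * ∑ m ∈ Icc 1 M, 1 / (m : ℝ) +
        4 * (X / Q) * ∑ m ∈ (Icc 1 M).filter P, 1 / (m : ℝ) := hsum
    _ ≤ 2 ^ (A + 4) * (X / Q) / L ^ (A + 2) * L + 4 * (X / Q) * (2 / L ^ (A + 3)) := by
        apply add_le_add
        · exact mul_le_mul_of_nonneg_left hharm (by positivity)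
        · exact mul_le_mul_of_nonneg_left hbad (by positivity)
    _ = X / Q / L ^ A * (2 ^ (A + 4) / L + 8 / L ^ 3) := by
        field_simp
        ring
    _ ≤ X / Q / L ^ A * 1 := by
        apply mul_le_mul_of_nonneg_left _ (by positivity)
        have h1 : (2 : ℝ) ^ (A + 4) / L ≤ 1 / 2 := by
          rw [div_le_div_iff₀ (by positivity) (by norm_num)]
          rw [show (2 : ℝ) ^ (A + 4) * 2 = 2 ^ (A + 5) by ring]
          linarith
        have h2 : 8 / L ^ 3 ≤ 1 / 2 := by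
          have h3 : (4 : ℝ) ^ 3 ≤ L ^ 3 := pow_le_pow_left₀ (by norm_num) hL4 3
          rw [div_le_div_iff₀ (by positivity) (by norm_num)]
          linarith
        linarith
    _ = X / Q / L ^ A := mul_one _

end Pool.Agent.HC.W
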