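import Pool.Agent.Lib.MP_0da313_nt.HC.W

set_option autoImplicit false

/-!
Project HC, section W, piece t2: one block of the Type II sum.
-/

namespace Pool.Agent.HC.W

open Finset Filter Polynomial
open Pool.Agent.SP80 (ex mn)

private theorem t2_fin (A : ℕ) {S a b T M L Q U V X l c D : ℝ}
    (h : S ^ 4 ≤ (a * b) ^ 2 * T) (ha0 : 0 ≤ a) (hb0 : 0 ≤ b) (ha : a ≤ M * l ^ 6)
    (hb : b ≤ L * l ^ 6) (hD : 0 < D) (hc : 0 ≤ c) (hT : T * D ≤ c * (U * V) ^ 2)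
    (hQ : 0 < Q) (hX : 0 < X) (hl : 0 < l) (hUV0 : 0 ≤ U * V) (hM : 0 ≤ M)
    (hUV : U * V * Q ^ 2 ≤ 4 * (M * L))
    (hfin : 16 * c * l ^ 24 * (M * L) ^ 4 ≤ (X / l ^ A) ^ 4 * D) : S ≤ X / Q / l ^ A := by
  have h1 : (S * Q) ^ 4 * D ≤ (X / l ^ A) ^ 4 * D := by
    refine le_trans ?_ hfin
    have h2 : a * b ≤ M * L * l ^ 12 := by
      calc a * b ≤ (M * l ^ 6) * (L * l ^ 6) := mul_le_mul ha hb hb0 (by positivity)
        _ = M * L * l ^ 12 := by ring
    have h3 : (a * b) ^ 2 ≤ (M * L * l ^ 12) ^ 2 := pow_le_pow_left₀ (by positivity) h2 2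
    have h4 : (U * V * Q ^ 2) ^ 2 ≤ (4 * (M * L)) ^ 2 :=
      pow_le_pow_left₀ (by positivity) hUV 2
    calc (S * Q) ^ 4 * D = S ^ 4 * (Q ^ 4 * D) := by ring
      _ ≤ ((a * b) ^ 2 * T) * (Q ^ 4 * D) := mul_le_mul_of_nonneg_right h (by positivity)
      _ = (T * D) * ((a * b) ^ 2 * Q ^ 4) := by ring
      _ ≤ (c * (U * V) ^ 2) * ((a * b) ^ 2 * Q ^ 4) :=
          mul_le_mul_of_nonneg_right hT (by positivity)
      _ = (a * b) ^ 2 * (c * (U * V * Q ^ 2) ^ 2) := by ring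
      _ ≤ (M * L * l ^ 12) ^ 2 * (c * (4 * (M * L)) ^ 2) :=
          mul_le_mul h3 (mul_le_mul_of_nonneg_left h4 hc) (by positivity) (by positivity)
      _ = 16 * c * l ^ 24 * (M * L) ^ 4 := by ring
  have h5 : (S * Q) ^ 4 ≤ (X / l ^ A) ^ 4 := le_of_mul_le_mul_right h1 hD
  have h6 : S * Q ≤ X / l ^ A := le_of_pow_le_pow_left₀ (by norm_num) (by positivity) h5
  rw [div_div, mul_comm Q, ← div_div, le_div_iff₀ hQ]
  exact h6

private theorem t2_gg (d C1 C2 : ℕ) {W l : ℝ} {U V n : ℕ} (hl : 1 ≤ l)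
    (hlc : 4 * (d : ℝ) + 6 * (d + 1) * (2 * d + 1) ^ ((2 * d - 1) * (2 * d - 1)) ≤ l)
    (hU : 1 ≤ U) (hV : 1 ≤ V)
    (hlogW : 1 + Real.log W ≤ (2 * d + 1) * l) (hlogW0 : 0 ≤ Real.log W)
    (hlogn : 1 + Real.log n ≤ (d + 1) * l)
    (h1U : 1 / (U : ℝ) ≤ 1 / l ^ (C1 * d + 2 * (C2 + (2 * d - 1) * (2 * d - 1) + 6)))
    (h1V : 1 / (V : ℝ) ≤ 1 / l ^ (C1 * d + 2 * (C2 + (2 * d - 1) * (2 * d - 1) + 6)))
    (h1W : 1 / W ≤ 1 / l ^ (C1 * d + 2 * (C2 + (2 * d - 1) * (2 * d - 1) + 6)))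
    (h1n : 1 / (n : ℝ) ≤ 1 / l ^ (C1 * d + 2 * (C2 + (2 * d - 1) * (2 * d - 1) + 6)))
    (hnUV : (n : ℝ) * (l ^ (C2 + (2 * d - 1) * (2 * d - 1) + 6)) ^ 2 ≤ ((U : ℝ) * V) ^ d) :
    (2 * d * (1 / (U : ℝ) + 1 / V) + 3 * (1 + Real.log W) ^ ((2 * d - 1) * (2 * d - 1)) *
      (1 + Real.log n) * Real.sqrt (1 / n + 1 / V + 1 / W + n / ((U : ℝ) * V) ^ d)) * l ^ C2 ≤
      1 := by
  set k : ℕ := (2 * d - 1) * (2 * d - 1) with hk
  set P : ℝ := l ^ (C2 + k + 6) with hP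
  have hl0 : 0 < l := by linarith
  have hP1 : 1 ≤ P := one_le_pow₀ hl
  have hP0 : 0 < P := by linarith
  have hB : P ^ 2 ≤ l ^ (C1 * d + 2 * (C2 + k + 6)) := by
    rw [hP, ← pow_mul]
    exact pow_le_pow_right₀ hl (by omega)
  have hB2 : 1 / l ^ (C1 * d + 2 * (C2 + k + 6)) ≤ 1 / P ^ 2 :=
    one_div_le_one_div_of_le (by positivity) hB
  have hP2 : 1 / P ^ 2 ≤ 1 / P :=
    one_div_le_one_div_of_le hP0 (by nlinarith)
  have hU0 : (0 : ℝ) < U := by exact_mod_cast hU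
  have hV0 : (0 : ℝ) < V := by exact_mod_cast hV
  have hsqrt : Real.sqrt (1 / n + 1 / V + 1 / W + n / ((U : ℝ) * V) ^ d) ≤ 2 / P := by
    refine Real.sqrt_le_iff.2 ⟨by positivity, ?_⟩
    have h1 : (n : ℝ) / ((U : ℝ) * V) ^ d ≤ 1 / P ^ 2 := by
      rw [div_le_div_iff₀ (by positivity) (by positivity), one_mul]
      exact hnUV
    have h2 : (2 / P) ^ 2 = 1 / P ^ 2 + 1 / P ^ 2 + 1 / P ^ 2 + 1 / P ^ 2 := by
      field_simp
      norm_num
    rw [h2]
    linarith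
  have hlogn0 : 0 ≤ Real.log n := Real.log_natCast_nonneg n
  have h1 : 2 * (d : ℝ) * (1 / (U : ℝ) + 1 / V) ≤ 4 * d / P := by
    have : 1 / (U : ℝ) + 1 / V ≤ 2 / P := by
      have e : 2 / P = 1 / P + 1 / P := by ring
      rw [e]
      linarith
    calc 2 * (d : ℝ) * (1 / (U : ℝ) + 1 / V) ≤ 2 * d * (2 / P) :=
          mul_le_mul_of_nonneg_left this (by positivity)
      _ = 4 * d / P := by ring
  have h2 : 3 * (1 + Real.log W) ^ k * (1 + Real.log n) *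
      Real.sqrt (1 / n + 1 / V + 1 / W + n / ((U : ℝ) * V) ^ d) ≤
      3 * ((2 * d + 1) * l) ^ k * ((d + 1) * l) * (2 / P) := by
    have e1 : (1 + Real.log W) ^ k ≤ ((2 * d + 1) * l) ^ k :=
      pow_le_pow_left₀ (by linarith) hlogW k
    have e2 : 3 * (1 + Real.log W) ^ k ≤ 3 * ((2 * d + 1) * l) ^ k := by linarith
    have e3 : 3 * (1 + Real.log W) ^ k * (1 + Real.log n) ≤
        3 * ((2 * d + 1) * l) ^ k * ((d + 1) * l) :=
      mul_le_mul e2 hlogn (by linarith) (by positivity)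
    exact mul_le_mul e3 hsqrt (Real.sqrt_nonneg _) (by positivity)
  have h3 : 3 * ((2 * (d : ℝ) + 1) * l) ^ k * ((d + 1) * l) * (2 / P) =
      6 * (d + 1) * (2 * d + 1) ^ k * l ^ (k + 1) / P := by
    rw [mul_pow, pow_succ l k]
    ring
  have h4 : 4 * (d : ℝ) / P ≤ 4 * d * l ^ (k + 1) / P := by
    have : 1 ≤ l ^ (k + 1) := one_le_pow₀ hl
    have e : 4 * (d : ℝ) ≤ 4 * d * l ^ (k + 1) := le_mul_of_one_le_right (by positivity) this
    exact div_le_div_of_nonneg_right e hP0.le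
  have h5 : (2 * d * (1 / (U : ℝ) + 1 / V) + 3 * (1 + Real.log W) ^ k *
      (1 + Real.log n) * Real.sqrt (1 / n + 1 / V + 1 / W + n / ((U : ℝ) * V) ^ d)) ≤
      l * l ^ (k + 1) / P := by
    have e : l ^ (k + 1) * (4 * (d : ℝ) + 6 * (d + 1) * (2 * d + 1) ^ k) / P ≤
        l * l ^ (k + 1) / P := by
      rw [mul_comm l]
      exact div_le_div_of_nonneg_right
        (mul_le_mul_of_nonneg_left hlc (by positivity)) hP0.le
    refine le_trans ?_ e
    have e2 : l ^ (k + 1) * (4 * (d : ℝ) + 6 * (d + 1) * (2 * d + 1) ^ k) / P =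
        4 * d * l ^ (k + 1) / P + 6 * (d + 1) * (2 * d + 1) ^ k * l ^ (k + 1) / P := by ring
    rw [e2, ← h3]
    linarith
  calc _ ≤ l * l ^ (k + 1) / P * l ^ C2 := mul_le_mul_of_nonneg_right h5 (by positivity)
    _ = l ^ (C2 + k + 2) / P := by
        rw [show C2 + k + 2 = 1 + (k + 1) + C2 by ring, pow_add, pow_add, pow_one]
        ring
    _ ≤ 1 := by
        rw [div_le_one hP0, hP]
        exact pow_le_pow_right₀ hl (by omega)

private theorem t2_TT (f : ℝ[X]) (Q m0 l0 U V Y : ℕ) :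
    TT f Q m0 l0 U V Y ≤ ((U : ℝ) * V) ^ 2 := by
  unfold TT
  have h1 : ∀ i1 i2 : ℕ, ‖∑ j ∈ (range U).filter (fun j =>
      (m0 + Q * j) * (l0 + Q * i1) ≤ Y ∧ (m0 + Q * j) * (l0 + Q * i2) ≤ Y),
      ex (f.eval (((m0 + Q * j) * (l0 + Q * i1) : ℕ) : ℝ) -
        f.eval (((m0 + Q * j) * (l0 + Q * i2) : ℕ) : ℝ))‖ ^ 2 ≤ (U : ℝ) ^ 2 := by
    intro i1 i2
    refine pow_le_pow_left₀ (norm_nonneg _) ?_ 2
    refine (norm_sum_le _ _).trans ?_
    calc ∑ j ∈ (range U).filter (fun j =>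
          (m0 + Q * j) * (l0 + Q * i1) ≤ Y ∧ (m0 + Q * j) * (l0 + Q * i2) ≤ Y),
          ‖ex (f.eval (((m0 + Q * j) * (l0 + Q * i1) : ℕ) : ℝ) -
            f.eval (((m0 + Q * j) * (l0 + Q * i2) : ℕ) : ℝ))‖
        = ∑ j ∈ (range U).filter (fun j =>
          (m0 + Q * j) * (l0 + Q * i1) ≤ Y ∧ (m0 + Q * j) * (l0 + Q * i2) ≤ Y), (1 : ℝ) := by
          refine Finset.sum_congr rfl fun j _ => ?_
          exact NC.Wy.norm_ex _
      _ = (((range U).filter (fun j =>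
          (m0 + Q * j) * (l0 + Q * i1) ≤ Y ∧ (m0 + Q * j) * (l0 + Q * i2) ≤ Y)).card : ℝ) := by
          rw [Finset.sum_const, nsmul_eq_mul, mul_one]
      _ ≤ (U : ℝ) := by
          have := Finset.card_filter_le (range U) (fun j =>
            (m0 + Q * j) * (l0 + Q * i1) ≤ Y ∧ (m0 + Q * j) * (l0 + Q * i2) ≤ Y)
          rw [Finset.card_range] at this
          exact_mod_cast this
  calc _ ≤ ∑ _i1 ∈ range V, ∑ _i2 ∈ range V, (U : ℝ) ^ 2 :=
        Finset.sum_le_sum fun i1 _ => Finset.sum_le_sum fun i2 _ => h1 i1 i2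
    _ = ((U : ℝ) * V) ^ 2 := by
        simp only [Finset.sum_const, Finset.card_range, nsmul_eq_mul]
        ring

private theorem t2_TT0 (f : ℝ[X]) (Q m0 l0 U V Y : ℕ) : 0 ≤ TT f Q m0 l0 U V Y := by
  unfold TT
  exact Finset.sum_nonneg fun i1 _ => Finset.sum_nonneg fun i2 _ => by positivity

theorem p_t2 : S_t2 := by
  intro hT hgb hcs d A hd
  obtain ⟨C, hC⟩ := hT d hd
  set e : ℕ := 2 ^ (2 * d - 3) with he
  have he0 : e ≠ 0 := by positivity
  have h2e : 2 ^ (2 * d - 2) = 2 * e := by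
    rw [he, ← pow_succ']
    congr 1
    omega
  have hd2e : d ≤ 2 * e := by
    rw [← h2e]
    calc d ≤ 2 * d - 2 := by omega
      _ ≤ 2 ^ (2 * d - 2) := Nat.lt_two_pow_self.le
  set C' : ℝ := C + 1 with hC'
  have hC'1 : 1 ≤ C' := by
    have : (0 : ℝ) ≤ C := Nat.cast_nonneg C
    linarith
  set C2 : ℕ := e * (4 * A + 60) with hC2
  set k : ℕ := (2 * d - 1) * (2 * d - 1) with hk
  set C3 : ℕ := C2 + k + 6 with hC3
  set B : ℕ := (A + 7) * d + 2 * C3 with hB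
  refine ⟨B, ?_⟩
  have hev := (isLittleO_log_rpow_rpow_atTop (B : ℝ) (by norm_num : (0 : ℝ) < 1 / 12)).bound
    (by norm_num : (0 : ℝ) < 1)
  filter_upwards [hev, Real.tendsto_log_atTop.eventually (eventually_ge_atTop
    (max 2 (max (256 * C') (4 * (d : ℝ) + 6 * (d + 1) * (2 * d + 1) ^ k)))),
    eventually_ge_atTop 8] with X hX1 hX2 hX3
  intro Q a M L Y f α β hQ hQX ha hf hMX hLX hML hα hβ
  have hX0 : 0 < X := by linarith
  have hX1' : 1 ≤ X := by linarith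
  set l : ℝ := Real.log X with hl
  have hl2 : 2 ≤ l := (le_max_left _ _).trans hX2
  have hlC : 256 * C' ≤ l := ((le_max_left _ _).trans (le_max_right _ _)).trans hX2
  have hlc : 4 * (d : ℝ) + 6 * (d + 1) * (2 * d + 1) ^ k ≤ l :=
    ((le_max_right _ _).trans (le_max_right _ _)).trans hX2
  have hl1 : 1 ≤ l := by linarith
  have hl0 : 0 < l := by linarith
  have hlB : l ^ B ≤ X ^ (1 / 12 : ℝ) := by
    rw [Real.rpow_natCast, Real.norm_of_nonneg (pow_nonneg hl0.le B), one_mul,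
      Real.norm_of_nonneg (Real.rpow_nonneg hX0.le _)] at hX1
    exact hX1
  have hlB1 : 1 ≤ l ^ B := one_le_pow₀ hl1
  have hlB0 : 0 < l ^ B := by linarith
  -- sizes
  have hQ0 : (0 : ℝ) < Q := by exact_mod_cast hQ
  have hQ1 : (1 : ℝ) ≤ Q := by exact_mod_cast hQ
  have hQM' : X ^ (1 / 12 : ℝ) * Q ≤ X ^ (1 / 11 : ℝ) := by
    calc X ^ (1 / 12 : ℝ) * Q ≤ X ^ (1 / 12 : ℝ) * X ^ (1 / 500 : ℝ) :=
          mul_le_mul_of_nonneg_left hQX (Real.rpow_nonneg hX0.le _)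
      _ = X ^ (1 / 12 + 1 / 500 : ℝ) := (Real.rpow_add hX0 _ _).symm
      _ ≤ X ^ (1 / 11 : ℝ) := Real.rpow_le_rpow_of_exponent_le hX1' (by norm_num)
  have hX12 : 1 ≤ X ^ (1 / 12 : ℝ) := Real.one_le_rpow hX1' (by norm_num)
  have hQX11 : (Q : ℝ) ≤ X ^ (1 / 11 : ℝ) := by
    calc (Q : ℝ) ≤ X ^ (1 / 12 : ℝ) * Q := le_mul_of_one_le_left hQ0.le hX12
      _ ≤ _ := hQM'
  have hQM : Q ≤ M := by exact_mod_cast hQX11.trans hMX
  have hQL : Q ≤ L := by exact_mod_cast hQX11.trans hLX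
  set U : ℕ := M / Q + 1 with hU
  set V : ℕ := L / Q + 1 with hV
  have hU1 : 1 ≤ U := Nat.le_add_left 1 _
  have hV1 : 1 ≤ V := Nat.le_add_left 1 _
  have hsz : ∀ N : ℕ, Q ≤ N → N ≤ (N / Q + 1) * Q ∧ (N / Q + 1) * Q ≤ 2 * N := by
    intro N hN
    constructor
    · rw [mul_comm]
      exact (Nat.lt_mul_div_succ N hQ).le
    · have := Nat.div_mul_le_self N Q
      rw [add_mul, one_mul]
      omega
  have hUQ1 : (M : ℝ) ≤ U * Q := by exact_mod_cast (hsz M hQM).1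
  have hUQ2 : (U : ℝ) * Q ≤ 2 * M := by exact_mod_cast (hsz M hQM).2
  have hVQ1 : (L : ℝ) ≤ V * Q := by exact_mod_cast (hsz L hQL).1
  have hVQ2 : (V : ℝ) * Q ≤ 2 * L := by exact_mod_cast (hsz L hQL).2
  have hU0 : (0 : ℝ) < U := by exact_mod_cast hU1
  have hV0 : (0 : ℝ) < V := by exact_mod_cast hV1
  have hM0 : (0 : ℝ) ≤ M := Nat.cast_nonneg M
  have hL0 : (0 : ℝ) ≤ L := Nat.cast_nonneg L
  have hUV4 : (U : ℝ) * V * (Q : ℝ) ^ 2 ≤ 4 * ((M : ℝ) * L) := by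
    calc (U : ℝ) * V * (Q : ℝ) ^ 2 = (U * Q) * (V * Q) := by ring
      _ ≤ (2 * M) * (2 * L) := mul_le_mul hUQ2 hVQ2 (by positivity) (by positivity)
      _ = _ := by ring
  have hUVM : (M : ℝ) * L ≤ U * V * (Q : ℝ) ^ 2 := by
    calc (M : ℝ) * L ≤ (U * Q) * (V * Q) := mul_le_mul hUQ1 hVQ1 hL0 (by positivity)
      _ = _ := by ring
  have hMLX : (M : ℝ) * L ≤ 2 * X := by exact_mod_cast hML
  have hUX : X ^ (1 / 12 : ℝ) ≤ U :=
    le_of_mul_le_mul_right ((hQM'.trans hMX).trans hUQ1) hQ0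
  have hVX : X ^ (1 / 12 : ℝ) ≤ V :=
    le_of_mul_le_mul_right ((hQM'.trans hLX).trans hVQ1) hQ0
  have hcs' := hcs f Q a M L Y α β
  have hSa0 : 0 ≤ ∑ m ∈ Ioc M (2 * M), ‖α m‖ ^ 2 := Finset.sum_nonneg fun _ _ => sq_nonneg _
  have hSb0 : 0 ≤ ∑ m ∈ Ioc L (2 * L), ‖β m‖ ^ 2 := Finset.sum_nonneg fun _ _ => sq_nonneg _
  have hXA : (X / l ^ A) ^ 4 * l ^ (4 * A) = X ^ 4 := by
    rw [div_pow, ← pow_mul, mul_comm A 4, div_mul_cancel₀]
    positivity
  by_cases hcase : (M : ℝ) * L * l ^ (A + 7) < X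
  · -- few pairs
    left
    refine t2_fin A (D := 1) (c := 1) (hcs' (((U : ℝ) * V) ^ 2) hQ ha
      fun m0 l0 => t2_TT f Q m0 l0 U V Y) hSa0 hSb0 hα hβ one_pos zero_le_one
      (by rw [mul_one, one_mul]) hQ0 hX0 hl0 (by positivity) hM0 hUV4 ?_
    have h1 : ((M : ℝ) * L * l ^ (A + 7)) ^ 4 ≤ X ^ 4 := pow_le_pow_left₀ (by positivity) hcase.le 4
    have h2 : (16 : ℝ) ≤ l ^ 4 := by
      calc (16 : ℝ) = 2 ^ 4 := by norm_num
        _ ≤ l ^ 4 := pow_le_pow_left₀ (by norm_num) hl2 4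
    rw [mul_one, mul_one]
    have h3 : (0 : ℝ) < l ^ (4 * A) := by positivity
    refine le_of_mul_le_mul_right ?_ h3
    rw [hXA]
    refine le_trans ?_ h1
    calc 16 * l ^ 24 * ((M : ℝ) * L) ^ 4 * l ^ (4 * A) ≤
          l ^ 4 * l ^ 24 * ((M : ℝ) * L) ^ 4 * l ^ (4 * A) := by gcongr
      _ = ((M : ℝ) * L * l ^ (A + 7)) ^ 4 := by ring
  · -- many pairs
    rw [not_lt] at hcase
    set x : ℝ := (d.factorial : ℝ) ^ 2 * f.coeff d * (Q : ℝ) ^ (2 * d) with hx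
    have hQd1 : 1 ≤ (Q : ℝ) ^ (2 * d) := one_le_pow₀ hQ1
    have hQd0 : 0 < (Q : ℝ) ^ (2 * d) := by linarith
    -- `Q ^ (2 d) l ^ B ≤ X ^ d`
    have hs1 : 1 ≤ X ^ (1 / 2 : ℝ) := Real.one_le_rpow hX1' (by norm_num)
    have hss : X ^ (1 / 2 : ℝ) * X ^ (1 / 2 : ℝ) = X := by
      rw [← Real.rpow_add hX0]
      norm_num
    have hQ2 : (Q : ℝ) ^ 2 ≤ X ^ (1 / 2 : ℝ) := by
      calc (Q : ℝ) ^ 2 ≤ (X ^ (1 / 500 : ℝ)) ^ 2 := pow_le_pow_left₀ hQ0.le hQX 2
        _ = X ^ (1 / 500 + 1 / 500 : ℝ) := by rw [Real.rpow_add hX0, sq]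
        _ ≤ X ^ (1 / 2 : ℝ) := Real.rpow_le_rpow_of_exponent_le hX1' (by norm_num)
    have hQlX : (Q : ℝ) ^ (2 * d) * l ^ B ≤ X ^ d := by
      have h1 : (Q : ℝ) ^ (2 * d) ≤ (X ^ (1 / 2 : ℝ)) ^ d := by
        rw [pow_mul]
        exact pow_le_pow_left₀ (by positivity) hQ2 d
      have h2 : l ^ B ≤ (X ^ (1 / 2 : ℝ)) ^ d := by
        calc l ^ B ≤ X ^ (1 / 12 : ℝ) := hlB
          _ ≤ X ^ (1 / 2 : ℝ) := Real.rpow_le_rpow_of_exponent_le hX1' (by norm_num)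
          _ = (X ^ (1 / 2 : ℝ)) ^ 1 := (pow_one _).symm
          _ ≤ (X ^ (1 / 2 : ℝ)) ^ d := pow_le_pow_right₀ hs1 (by omega)
      calc (Q : ℝ) ^ (2 * d) * l ^ B ≤ (X ^ (1 / 2 : ℝ)) ^ d * (X ^ (1 / 2 : ℝ)) ^ d :=
            mul_le_mul h1 h2 hlB0.le (by positivity)
        _ = X ^ d := by rw [← mul_pow, hss]
    have hden : 0 < (Q : ℝ) ^ (2 * d) * l ^ B := by positivity
    set K : ℕ := ⌊X ^ d / ((Q : ℝ) ^ (2 * d) * l ^ B)⌋₊ with hK
    have hKpos : 0 < K := Nat.floor_pos.2 (by rw [le_div_iff₀ hden, one_mul]; exact hQlX)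
    have hKle : (K : ℝ) ≤ X ^ d / ((Q : ℝ) ^ (2 * d) * l ^ B) := Nat.floor_le (by positivity)
    have hKlt : X ^ d / ((Q : ℝ) ^ (2 * d) * l ^ B) < K + 1 := Nat.lt_floor_add_one _
    obtain ⟨r, hr1, hr2⟩ := Real.exists_rat_abs_sub_le_and_den_le x hKpos
    set n : ℕ := r.den with hn
    have hnpos : 0 < n := r.den_pos
    have hn0 : (0 : ℝ) < n := by exact_mod_cast hnpos
    have hn1 : (1 : ℝ) ≤ n := by exact_mod_cast hnpos
    have hnK : (n : ℝ) ≤ K := by exact_mod_cast hr2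
    have hrcast : (r : ℝ) = (r.num : ℝ) / n := by
      rw [Rat.cast_def]
    have hcop : IsCoprime r.num (n : ℤ) := by
      rw [Int.isCoprime_iff_gcd_eq_one]
      exact r.reduced
    rw [hrcast] at hr1
    by_cases hbig : l ^ B ≤ n
    · left
      have happ : |x - (r.num : ℝ) / n| ≤ 1 / (n : ℝ) ^ 2 := by
        refine hr1.trans ?_
        apply one_div_le_one_div_of_le (by positivity)
        rw [sq]
        apply mul_le_mul_of_nonneg_right _ hn0.le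
        linarith
      have hg := hgb d U V n x r.num hd hU1 hV1 hnpos hcop happ
      -- the bound for `GG`
      have hinv : ∀ y : ℝ, l ^ B ≤ y → 1 / y ≤ 1 / l ^ B := fun y hy =>
        one_div_le_one_div_of_le hlB0 hy
      set W : ℝ := (U : ℝ) ^ d * (V : ℝ) ^ (d - 1) with hW
      have hUr1 : (1 : ℝ) ≤ U := by exact_mod_cast hU1
      have hVr1 : (1 : ℝ) ≤ V := by exact_mod_cast hV1
      have hWV : (V : ℝ) ≤ W := by
        calc (V : ℝ) = (V : ℝ) ^ 1 := (pow_one _).symm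
          _ ≤ (V : ℝ) ^ (d - 1) := pow_le_pow_right₀ hVr1 (by omega)
          _ ≤ W := le_mul_of_one_le_left (by positivity) (one_le_pow₀ hUr1)
      have hW1 : 1 ≤ W := hVr1.trans hWV
      have hUVX : (U : ℝ) * V ≤ X ^ 2 := by
        calc (U : ℝ) * V ≤ U * V * (Q : ℝ) ^ 2 :=
              le_mul_of_one_le_right (by positivity) (one_le_pow₀ hQ1)
          _ ≤ 4 * ((M : ℝ) * L) := hUV4
          _ ≤ 8 * X := by linarith
          _ ≤ X ^ 2 := by
              rw [sq]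
              exact mul_le_mul_of_nonneg_right hX3 hX0.le
      have hWX : W ≤ (X ^ 2) ^ d := by
        calc W ≤ (U : ℝ) ^ d * (V : ℝ) ^ d :=
              mul_le_mul_of_nonneg_left (pow_le_pow_right₀ hVr1 (by omega)) (by positivity)
          _ = ((U : ℝ) * V) ^ d := (mul_pow _ _ _).symm
          _ ≤ (X ^ 2) ^ d := pow_le_pow_left₀ (by positivity) hUVX d
      have hlogW : Real.log W ≤ 2 * d * l := by
        calc Real.log W ≤ Real.log ((X ^ 2) ^ d) := Real.log_le_log (by linarith) hWX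
          _ = 2 * d * l := by
              rw [Real.log_pow, Real.log_pow]
              push_cast
              ring
      have hnX : (n : ℝ) ≤ X ^ d := by
        refine hnK.trans (hKle.trans ?_)
        rw [div_le_iff₀ hden]
        refine le_mul_of_one_le_right (by positivity) ?_
        calc (1 : ℝ) = 1 * 1 := (one_mul 1).symm
          _ ≤ (Q : ℝ) ^ (2 * d) * l ^ B := mul_le_mul hQd1 hlB1 zero_le_one (by positivity)
      have hlogn : Real.log n ≤ d * l := by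
        calc Real.log n ≤ Real.log (X ^ d) := Real.log_le_log hn0 hnX
          _ = d * l := Real.log_pow _ _
      have hnUV : (n : ℝ) * (l ^ C3) ^ 2 ≤ ((U : ℝ) * V) ^ d := by
        have h1 : (n : ℝ) * ((Q : ℝ) ^ (2 * d) * l ^ B) ≤ X ^ d := by
          have := hnK.trans hKle
          rwa [le_div_iff₀ hden] at this
        have h2 : X ^ d ≤ ((U : ℝ) * V) ^ d * ((Q : ℝ) ^ (2 * d) * l ^ ((A + 7) * d)) := by
          calc X ^ d ≤ ((M : ℝ) * L * l ^ (A + 7)) ^ d := pow_le_pow_left₀ hX0.le hcase d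
            _ ≤ (U * V * (Q : ℝ) ^ 2 * l ^ (A + 7)) ^ d := by
                refine pow_le_pow_left₀ (by positivity) ?_ d
                exact mul_le_mul_of_nonneg_right hUVM (by positivity)
            _ = _ := by
                rw [mul_pow, mul_pow, ← pow_mul, ← pow_mul]
                ring
        have h3 : l ^ B = l ^ ((A + 7) * d) * (l ^ C3) ^ 2 := by
          rw [hB, pow_add, ← pow_mul, mul_comm 2 C3]
        rw [h3] at h1
        have h4 : 0 < (Q : ℝ) ^ (2 * d) * l ^ ((A + 7) * d) := by positivity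
        refine le_of_mul_le_mul_right ?_ h4
        calc (n : ℝ) * (l ^ C3) ^ 2 * ((Q : ℝ) ^ (2 * d) * l ^ ((A + 7) * d)) =
              n * ((Q : ℝ) ^ (2 * d) * (l ^ ((A + 7) * d) * (l ^ C3) ^ 2)) := by ring
          _ ≤ _ := h1.trans h2
      have hlogW' : 1 + Real.log W ≤ (2 * d + 1) * l := by
        have e1 : (2 * (d : ℝ) + 1) * l = 2 * d * l + l := by ring
        rw [e1]
        linarith only [hlogW, hl1]
      have hlogn' : 1 + Real.log n ≤ (d + 1) * l := by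
        have e1 : ((d : ℝ) + 1) * l = d * l + l := by ring
        rw [e1]
        linarith only [hlogn, hl1]
      have hbr := t2_gg d (A + 7) C2 (W := W) (l := l) (U := U) (V := V) (n := n) hl1 hlc hU1 hV1
        hlogW' (Real.log_nonneg hW1) hlogn' (hinv _ (hlB.trans hUX))
        (hinv _ (hlB.trans hVX)) (hinv _ ((hlB.trans hVX).trans hWV)) (hinv _ hbig) hnUV
      have hGG : GG d U V x * l ^ C2 ≤ ((U : ℝ) * V) ^ d := by
        calc GG d U V x * l ^ C2 ≤ _ := mul_le_mul_of_nonneg_right hg (by positivity)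
          _ = ((U : ℝ) * V) ^ d * ((2 * d * (1 / (U : ℝ) + 1 / V) +
              3 * (1 + Real.log W) ^ ((2 * d - 1) * (2 * d - 1)) *
              (1 + Real.log n) * Real.sqrt (1 / n + 1 / V + 1 / W + n / ((U : ℝ) * V) ^ d)) *
              l ^ C2) := by rw [mul_assoc]
          _ ≤ ((U : ℝ) * V) ^ d * 1 := mul_le_mul_of_nonneg_left hbr (by positivity)
          _ = _ := mul_one _
      -- the bound for `TT`
      have hTT : ∀ m0 l0 : ℕ, TT f Q m0 l0 U V Y ≤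
          C' * ((U : ℝ) * V) ^ 2 / l ^ (4 * A + 60) := by
        intro m0 l0
        have h1 := hC f Q m0 l0 U V Y hf hU1 hV1
        rw [← hx, h2e] at h1
        have h2 : (TT f Q m0 l0 U V Y) ^ e * l ^ C2 ≤ C * ((U : ℝ) * V) ^ (2 * e) := by
          calc (TT f Q m0 l0 U V Y) ^ e * l ^ C2 ≤
                (C * ((U : ℝ) * V) ^ (2 * e - d) * GG d U V x) * l ^ C2 :=
                mul_le_mul_of_nonneg_right h1 (by positivity)
            _ = C * ((U : ℝ) * V) ^ (2 * e - d) * (GG d U V x * l ^ C2) := by ring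
            _ ≤ C * ((U : ℝ) * V) ^ (2 * e - d) * ((U : ℝ) * V) ^ d :=
                mul_le_mul_of_nonneg_left hGG (by positivity)
            _ = C * ((U : ℝ) * V) ^ (2 * e) := by
                rw [mul_assoc, ← pow_add]
                congr 2
                omega
        have h3 : (TT f Q m0 l0 U V Y) ^ e ≤ (C' * ((U : ℝ) * V) ^ 2 / l ^ (4 * A + 60)) ^ e := by
          rw [div_pow, le_div_iff₀ (by positivity), ← pow_mul, mul_comm (4 * A + 60) e, ← hC2]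
          refine h2.trans ?_
          have h5 : (C' * ((U : ℝ) * V) ^ 2) ^ e = C' ^ e * ((U : ℝ) * V) ^ (2 * e) := by
            rw [mul_pow C', ← pow_mul]
          rw [h5]
          refine mul_le_mul_of_nonneg_right ?_ (by positivity)
          calc (C : ℝ) ≤ C' := by rw [hC']; linarith
            _ = C' ^ 1 := (pow_one _).symm
            _ ≤ C' ^ e := pow_le_pow_right₀ hC'1 (by omega)
        exact le_of_pow_le_pow_left₀ he0 (by positivity) h3
      refine t2_fin A (D := l ^ (4 * A + 60)) (c := C')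
        (hcs' _ hQ ha hTT) hSa0 hSb0 hα hβ (by positivity) (by linarith)
        (le_of_eq (div_mul_cancel₀ _ (by positivity))) hQ0 hX0 hl0 (by positivity) hM0
        hUV4 ?_
      have h1 : ((M : ℝ) * L) ^ 4 ≤ (2 * X) ^ 4 := pow_le_pow_left₀ (by positivity) hMLX 4
      have h2 : 256 * C' ≤ l ^ 36 := by
        calc 256 * C' ≤ l := hlC
          _ = l ^ 1 := (pow_one l).symm
          _ ≤ l ^ 36 := pow_le_pow_right₀ hl1 (by norm_num)
      rw [pow_add, ← mul_assoc, hXA]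
      calc 16 * C' * l ^ 24 * ((M : ℝ) * L) ^ 4 ≤ 16 * C' * l ^ 24 * (2 * X) ^ 4 :=
            mul_le_mul_of_nonneg_left h1 (by positivity)
        _ = (256 * C') * (l ^ 24 * X ^ 4) := by ring
        _ ≤ l ^ 36 * (l ^ 24 * X ^ 4) := mul_le_mul_of_nonneg_right h2 (by positivity)
        _ = X ^ 4 * l ^ 60 := by ring
    · right
      push Not at hbig
      refine ⟨n, mem_Icc.2 ⟨hnpos, Nat.le_floor hbig.le⟩, r.num, ?_⟩
      have hfac : (0 : ℝ) < (d.factorial : ℝ) ^ 2 := by positivity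
      have hfac1 : (1 : ℝ) ≤ (d.factorial : ℝ) ^ 2 := by
        have : (1 : ℝ) ≤ (d.factorial : ℝ) := by exact_mod_cast Nat.factorial_pos d
        exact one_le_pow₀ this
      have h1 : f.coeff d - (r.num : ℝ) / ((d.factorial ^ 2 * n * Q ^ (2 * d) : ℕ) : ℝ) =
          (x - (r.num : ℝ) / n) / ((d.factorial : ℝ) ^ 2 * (Q : ℝ) ^ (2 * d)) := by
        rw [hx]
        push_cast
        field_simp
      rw [h1, abs_div, abs_of_pos (show (0 : ℝ) < (d.factorial : ℝ) ^ 2 * (Q : ℝ) ^ (2 * d) by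
        positivity), div_le_div_iff₀ (by positivity) (by positivity)]
      have h2 : X ^ d ≤ (K + 1) * ((Q : ℝ) ^ (2 * d) * l ^ B) := by
        rw [div_lt_iff₀ hden] at hKlt
        exact hKlt.le
      calc |x - (r.num : ℝ) / n| * X ^ d ≤
            1 / ((K + 1) * n) * ((K + 1) * ((Q : ℝ) ^ (2 * d) * l ^ B)) :=
            mul_le_mul hr1 h2 (by positivity) (by positivity)
        _ = 1 / n * ((Q : ℝ) ^ (2 * d) * l ^ B) := by field_simp
        _ ≤ (d.factorial : ℝ) ^ 2 * ((Q : ℝ) ^ (2 * d) * l ^ B) := by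
            refine mul_le_mul_of_nonneg_right ?_ (by positivity)
            exact ((div_le_one hn0).2 hn1).trans hfac1
        _ = l ^ B * ((d.factorial : ℝ) ^ 2 * (Q : ℝ) ^ (2 * d)) := by ring

end Pool.Agent.HC.W
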