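import Pool.Agent.Lib.MP_0da313_nt.HC.W

set_option autoImplicit false

/-!
Project HC, section W, piece wa: Weyl's inequality as an alternative.
-/

namespace Pool.Agent.HC.W

open Finset Filter Polynomial
open Pool.Agent.SP80 (ex mn)

theorem p_wa : S_wa := by
  intro d A hd
  obtain ⟨B, hB⟩ := NC.Wy.weyl d A hd
  refine ⟨B, ?_⟩
  filter_upwards [hB, NC.Wy.pow_log_le (B + 1), eventually_ge_atTop 3] with Y h1 hY2 hY3
  intro f hfdeg
  have hYr : (3 : ℝ) ≤ Y := by exact_mod_cast hY3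
  have hYpos : (0 : ℝ) < Y := by linarith
  have hlogYone : 1 ≤ Real.log Y := by
    rw [Real.le_log_iff_exp_le hYpos]
    linarith [Real.exp_one_lt_d9]
  set P : ℝ := Real.log Y ^ B with hP
  have hP1 : 1 ≤ P := one_le_pow₀ hlogYone
  have hP0 : 0 < P := by linarith
  have hYd : P ≤ (Y : ℝ) ^ d := by
    have h2 : P ≤ Real.log Y ^ (B + 1) := pow_le_pow_right₀ hlogYone (by omega)
    have h3 : (Y : ℝ) ≤ (Y : ℝ) ^ d := by
      calc (Y : ℝ) = (Y : ℝ) ^ 1 := (pow_one _).symm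
        _ ≤ (Y : ℝ) ^ d := pow_le_pow_right₀ (by linarith) (by omega)
    linarith
  set Q : ℕ := ⌊(Y : ℝ) ^ d / P⌋₊ with hQ
  have hQpos : 0 < Q := Nat.floor_pos.2 (by rw [le_div_iff₀ hP0]; linarith)
  have hQle : (Q : ℝ) ≤ (Y : ℝ) ^ d / P := Nat.floor_le (by positivity)
  have hQlt : (Y : ℝ) ^ d / P < Q + 1 := Nat.lt_floor_add_one _
  obtain ⟨r, hr1, hr2⟩ := Real.exists_rat_abs_sub_le_and_den_le
    ((d.factorial : ℝ) * f.coeff d) hQpos
  set m : ℕ := r.den with hm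
  have hmpos : 0 < m := r.den_pos
  have hm0' : (0 : ℝ) < m := by exact_mod_cast hmpos
  have hm1 : (1 : ℝ) ≤ m := by exact_mod_cast hmpos
  have hmQ : (m : ℝ) ≤ Q := by exact_mod_cast hr2
  have hrcast : (r : ℝ) = (r.num : ℝ) / m := by
    rw [Rat.cast_def]
  have hcop : IsCoprime r.num (m : ℤ) := by
    rw [Int.isCoprime_iff_gcd_eq_one]
    exact r.reduced
  rw [hrcast] at hr1
  have happ : |(d.factorial : ℝ) * f.coeff d - (r.num : ℝ) / m| ≤ 1 / (m : ℝ) ^ 2 := by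
    refine hr1.trans ?_
    apply one_div_le_one_div_of_le (by positivity)
    rw [sq]
    apply mul_le_mul_of_nonneg_right _ hm0'.le
    linarith
  have hmP : m * P ≤ (Y : ℝ) ^ d := by
    have h1 : (m : ℝ) ≤ (Y : ℝ) ^ d / P := hmQ.trans hQle
    rwa [le_div_iff₀ hP0] at h1
  by_cases hbig : P ≤ m
  · left
    exact h1 f m r.num hfdeg hmpos hcop hbig hmP happ
  · right
    push Not at hbig
    refine ⟨m, mem_Icc.2 ⟨hmpos, Nat.le_floor hbig.le⟩, r.num, ?_⟩
    refine hr1.trans ?_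
    rw [div_le_div_iff₀ (by positivity) (by positivity), one_mul]
    have h4 : (Y : ℝ) ^ d ≤ (Q + 1) * P := by
      rw [div_lt_iff₀ hP0] at hQlt
      exact hQlt.le
    calc (Y : ℝ) ^ d ≤ (Q + 1) * P := h4
      _ ≤ ((Q + 1) * m) * P := by
          apply mul_le_mul_of_nonneg_right _ hP0.le
          exact le_mul_of_one_le_right (by positivity) hm1
      _ = P * ((Q + 1) * m) := by ring

end Pool.Agent.HC.W
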