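import Pool.Agent.Lib.MP_0da313_nt.HC.W

set_option autoImplicit false

/-!
Project HC, piece wd: Weyl's differencing, keeping the linear sums.
-/

namespace Pool.Agent.HC.W

open Finset Filter Polynomial
open Pool.Agent.SP80 (ex mn)
open Pool.Agent.NC.Wy (RR WP)

theorem p_wd : S_wd := by
  intro hms
  obtain ⟨hms1, -, -, -, -, -, -, -⟩ := hms
  intro k
  induction k with
  | zero =>
    intro θ f hf U u hU hu
    obtain ⟨γ, hγ⟩ := hf
    have h1 : ∑ y ∈ range u, ex (f y) = ex γ * ∑ y ∈ range u, ex ((y : ℝ) * θ) := by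
      rw [Finset.mul_sum]
      refine Finset.sum_congr rfl fun y _ => ?_
      rw [hγ, NC.Wy.ex_add, mul_comm]
    have h4 : (2 : ℝ) ^ (2 ^ 0 - 1) * (U : ℝ) ^ (2 ^ 0 - (0 + 1)) *
        MS 0 U (fun s p => ‖∑ y ∈ range (u - s),
          ex ((y : ℝ) * (((0 + 1).factorial : ℝ) * p * θ))‖) 0 1 =
        ‖∑ y ∈ range u, ex ((y : ℝ) * θ)‖ := by
      simp [MS]
    rw [h4, h1, norm_mul, NC.Wy.norm_ex, one_mul, pow_zero, pow_one]
  | succ k ih =>
    intro θ f hf U u hU hu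
    have hU0 : (0 : ℝ) < U := by exact_mod_cast hU
    set s : ℕ → ℝ := fun h => ‖∑ y ∈ range (u - h), ex (f (y + h) - f y)‖ with hs
    have hs0 : ∀ h, 0 ≤ s h := fun h => norm_nonneg _
    have h1 : ‖∑ y ∈ range u, ex (f y)‖ ^ 2 ≤ 2 * ∑ h ∈ range U, s h := by
      refine (NC.Wy.diff_one f u).trans ?_
      apply mul_le_mul_of_nonneg_left _ (by norm_num)
      apply Finset.sum_le_sum_of_subset_of_nonneg
      · exact Finset.range_subset_range.2 hu
      · intro h _ _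
        exact hs0 h
    set M : ℝ := MS (k + 1) U (fun s p => ‖∑ y ∈ range (u - s),
      ex ((y : ℝ) * (((k + 1 + 1).factorial : ℝ) * p * θ))‖) 0 1 with hM
    have hMeq : M = ∑ h ∈ range U, MS k U (fun a b => ‖∑ y ∈ range (u - (a + h)),
        ex ((y : ℝ) * (((k + 1 + 1).factorial : ℝ) * ((b * h : ℕ) : ℝ) * θ))‖) 0 1 := by
      rw [hM]
      show ∑ h ∈ range U, MS k U (fun s p => ‖∑ y ∈ range (u - s),
        ex ((y : ℝ) * (((k + 1 + 1).factorial : ℝ) * p * θ))‖) (0 + h) (1 * h) = _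
      refine Finset.sum_congr rfl fun h _ => ?_
      exact hms1 k U _ 0 h 1 h
    have h2 : ∀ h ∈ range U, s h ^ (2 ^ k) ≤ 2 ^ (2 ^ k - 1) * (U : ℝ) ^ (2 ^ k - (k + 1)) *
        MS k U (fun a b => ‖∑ y ∈ range (u - (a + h)),
        ex ((y : ℝ) * (((k + 1 + 1).factorial : ℝ) * ((b * h : ℕ) : ℝ) * θ))‖) 0 1 := by
      intro h _
      have e1 := ih ((k + 2) * h * θ) (fun y => f (y + h) - f y) (hf h) U (u - h) hU (by omega)
      have e2 : (fun (a b : ℕ) => ‖∑ y ∈ range (u - h - a),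
            ex ((y : ℝ) * (((k + 1).factorial : ℝ) * b * ((k + 2) * h * θ)))‖) =
          (fun a b => ‖∑ y ∈ range (u - (a + h)),
            ex ((y : ℝ) * (((k + 1 + 1).factorial : ℝ) * ((b * h : ℕ) : ℝ) * θ))‖) := by
        funext a b
        have e3 : u - h - a = u - (a + h) := by omega
        have e4 : ((k + 1).factorial : ℝ) * b * ((k + 2) * h * θ) =
            ((k + 1 + 1).factorial : ℝ) * ((b * h : ℕ) : ℝ) * θ := by
          rw [Nat.factorial_succ (k + 1)]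
          push_cast
          ring
        rw [e3, e4]
      rw [e2] at e1
      exact e1
    have hpow : 1 ≤ 2 ^ k := Nat.one_le_two_pow
    have hk2 : k + 1 ≤ 2 ^ k := Nat.lt_two_pow_self
    have h3 := pow_sum_div_card_le_sum_pow (s := range U) (f := s) (fun h _ => hs0 h) (2 ^ k - 1)
    rw [Nat.sub_add_cancel hpow, card_range, div_le_iff₀ (by positivity)] at h3
    have h4 : ∑ h ∈ range U, s h ^ (2 ^ k) ≤
        2 ^ (2 ^ k - 1) * (U : ℝ) ^ (2 ^ k - (k + 1)) * M := by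
      refine (Finset.sum_le_sum h2).trans (le_of_eq ?_)
      rw [← Finset.mul_sum, hMeq]
    have hS0 : 0 ≤ ∑ h ∈ range U, s h := Finset.sum_nonneg fun h _ => hs0 h
    calc ‖∑ y ∈ range u, ex (f y)‖ ^ (2 ^ (k + 1))
        = (‖∑ y ∈ range u, ex (f y)‖ ^ 2) ^ (2 ^ k) := by
          rw [← pow_mul]
          congr 1
          ring
      _ ≤ (2 * ∑ h ∈ range U, s h) ^ (2 ^ k) := pow_le_pow_left₀ (by positivity) h1 _
      _ = 2 ^ (2 ^ k) * (∑ h ∈ range U, s h) ^ (2 ^ k) := mul_pow _ _ _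
      _ ≤ 2 ^ (2 ^ k) * ((2 ^ (2 ^ k - 1) * (U : ℝ) ^ (2 ^ k - (k + 1)) * M) *
            (U : ℝ) ^ (2 ^ k - 1)) := by
          apply mul_le_mul_of_nonneg_left _ (by positivity)
          exact h3.trans (mul_le_mul_of_nonneg_right h4 (by positivity))
      _ = 2 ^ (2 ^ (k + 1) - 1) * (U : ℝ) ^ (2 ^ (k + 1) - (k + 1 + 1)) * M := by
          have e1 : (2 : ℝ) ^ (2 ^ k) * 2 ^ (2 ^ k - 1) = 2 ^ (2 ^ (k + 1) - 1) := by
            rw [← pow_add]
            congr 1
            rw [pow_succ]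
            omega
          have e2 : (U : ℝ) ^ (2 ^ k - (k + 1)) * (U : ℝ) ^ (2 ^ k - 1) =
              (U : ℝ) ^ (2 ^ (k + 1) - (k + 1 + 1)) := by
            rw [← pow_add]
            congr 1
            rw [pow_succ]
            omega
          rw [← e1, ← e2]
          ring

end Pool.Agent.HC.W
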