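import Pool.Agent.Lib.MP_0da313_nt.HC.M

set_option autoImplicit false

/-!
[HS win2]: location of the values of the linear members.
-/

namespace Pool.Agent.HC.M

open Finset Filter Polynomial
open Pool.Agent.MP89da58 (tri)
open Pool.Agent.CM (wd)
open Pool.Agent.NC (Fam Hn)

variable {ι : Type} [Fintype ι] [DecidableEq ι] {D d E : ℕ}

private theorem win2_win (F : Fam ι D d E) {N x : ℕ} (hN : 0 < N) (hx : 0 < x)
    (h : F.wh N x ≠ 0) : ∃ τ : ℝ, |τ| ≤ 1 / 1000 ∧ (x : ℝ) ^ d = F.s * N * Real.exp τ := by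
  have hd : (0 : ℝ) < d := by exact_mod_cast (lt_of_lt_of_le two_pos F.hd)
  have hE : (1 : ℝ) ≤ E := by exact_mod_cast F.hE
  have hN' : (0 : ℝ) < N := by exact_mod_cast hN
  have hx' : (0 : ℝ) < x := by exact_mod_cast hx
  have hs : 0 < F.s := lt_of_lt_of_le (by norm_num) F.hs0
  have hX : 0 < F.X N := Real.rpow_pos_of_pos (mul_pos hs hN') _
  have hXd : F.X N ^ d = F.s * N := by
    rw [Fam.X, ← Real.rpow_natCast, ← Real.rpow_mul (mul_pos hs hN').le, one_div,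
      inv_mul_cancel₀ hd.ne', Real.rpow_one]
  have h1 : |1000 * (d : ℝ) * E * Real.log (x / F.X N)| < 1 := by
    by_contra hcon
    apply h
    rw [Fam.wh, wd, tri]
    exact max_eq_left (by linarith)
  refine ⟨d * Real.log (x / F.X N), ?_, ?_⟩
  · rw [abs_mul, abs_mul, abs_mul, abs_of_pos (by norm_num : (0 : ℝ) < 1000), abs_of_pos hd,
      abs_of_pos (by linarith : (0 : ℝ) < E)] at h1
    rw [abs_mul, abs_of_pos hd, le_div_iff₀ (by norm_num)]
    have h0 : 0 ≤ (d : ℝ) * |Real.log (x / F.X N)| := mul_nonneg hd.le (abs_nonneg _)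
    nlinarith
  · have h2 : (x : ℝ) = F.X N * Real.exp (Real.log (x / F.X N)) := by
      rw [Real.exp_log (by positivity)]
      field_simp
    calc (x : ℝ) ^ d = (F.X N * Real.exp (Real.log (x / F.X N))) ^ d := by rw [← h2]
      _ = F.X N ^ d * Real.exp (d * Real.log (x / F.X N)) := by
          rw [mul_pow, ← Real.exp_nat_mul]
      _ = _ := by rw [hXd]

private theorem win2_le (F : Fam ι D d E) {N x : ℕ} (hN : 0 < N) (hx : 0 < x)
    (h : F.wh N x ≠ 0) : (N : ℝ) ^ (1 / (d : ℝ)) / 8 ≤ x ∧ (x : ℝ) ≤ (N : ℝ) ^ (1 / (d : ℝ)) := by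
  obtain ⟨τ, h3, h2⟩ := win2_win F hN hx h
  have hd0 : d ≠ 0 := by have := F.hd; omega
  have hd : (0 : ℝ) < d := by exact_mod_cast (lt_of_lt_of_le two_pos F.hd)
  have hN' : (0 : ℝ) < N := by exact_mod_cast hN
  have hx' : (0 : ℝ) < x := by exact_mod_cast hx
  have h5 := Real.abs_exp_sub_one_le (x := τ) (by linarith)
  have h6 := abs_le.1 h5
  have hs := F.hs1
  have hs0 := F.hs0
  have hxe : (x : ℝ) = ((x : ℝ) ^ d) ^ (1 / (d : ℝ)) := by
    rw [one_div, Real.pow_rpow_inv_natCast hx'.le hd0]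
  constructor
  · have h7 : 1 / 2 ≤ Real.exp τ := by linarith [h6.1]
    have h8 : (N : ℝ) / 8 ≤ (x : ℝ) ^ d := by
      rw [h2]
      have h9 : 1 / 8 ≤ F.s * Real.exp τ := by nlinarith
      nlinarith
    have h9 : ((N : ℝ) ^ (1 / (d : ℝ)) / 8) ^ d ≤ (x : ℝ) ^ d := by
      refine le_trans ?_ h8
      rw [div_pow, ← Real.rpow_natCast, ← Real.rpow_mul hN'.le, one_div,
        inv_mul_cancel₀ hd.ne', Real.rpow_one]
      have h10 : (8 : ℝ) ≤ 8 ^ d := by
        calc (8 : ℝ) = 8 ^ 1 := (pow_one _).symm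
          _ ≤ 8 ^ d := pow_le_pow_right₀ (by norm_num) (by have := F.hd; omega)
      exact div_le_div_of_nonneg_left hN'.le (by norm_num) h10
    exact (pow_le_pow_iff_left₀ (by positivity) hx'.le hd0).1 h9
  · have h7 : Real.exp τ ≤ 2 := by linarith [h6.2]
    have h8 : (x : ℝ) ^ d ≤ N := by
      rw [h2]
      have h9 : F.s * Real.exp τ ≤ 1 := by nlinarith [Real.exp_pos τ]
      nlinarith
    rw [hxe]
    exact Real.rpow_le_rpow (by positivity) h8 (by positivity)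

theorem p_win2 : S_win2 := by
  intro ι κ _ _ _ _ D d E H
  have hd : (0 : ℝ) < d := by exact_mod_cast (lt_of_lt_of_le two_pos H.F.hd)
  have hY : Tendsto (fun N : ℕ => (N : ℝ) ^ (1 / (d : ℝ))) atTop atTop :=
    (tendsto_rpow_atTop (by positivity)).comp tendsto_natCast_atTop_atTop
  have hev : ∀ᶠ N : ℕ in atTop, ∀ j : κ,
      256 + 16 * |(H.v j : ℝ)| + 8 * ((H.u j : ℝ) + |(H.v j : ℝ)|) ^ 2 ≤
        (N : ℝ) ^ (1 / (d : ℝ)) := by
    rw [eventually_all]
    exact fun j => hY.eventually_ge_atTop _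
  filter_upwards [hev, eventually_gt_atTop 0] with N hNY hN x hx1 hw j
  have hN' : (0 : ℝ) < N := by exact_mod_cast hN
  obtain ⟨h1, h2⟩ := win2_le H.F hN hx1 hw
  have h3 := hNY j
  set Y : ℝ := (N : ℝ) ^ (1 / (d : ℝ)) with hYdef
  set u : ℝ := (H.u j : ℝ) with hu
  set v : ℝ := (H.v j : ℝ) with hv
  have hu1 : (1 : ℝ) ≤ u := Nat.one_le_cast.2 (H.hu j)
  have hv0 : 0 ≤ |v| := abs_nonneg v
  have hv1 := neg_abs_le v
  have hv2 := le_abs_self v
  have hxr : (0 : ℝ) < x := by exact_mod_cast hx1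
  have hMx : (H.M j x : ℝ) = u * x + v := by
    unfold Fam2.M
    push_cast
    rfl
  have hw0 : 0 ≤ 8 * (u + |v|) ^ 2 := by positivity
  have hY256 : 256 ≤ Y := by linarith
  have hY0 : 0 < Y := by linarith
  have hH1 : (Hn d N : ℝ) ≤ Y := Nat.floor_le hY0.le
  have hH2 : Y / 2 ≤ (Hn d N : ℝ) := by
    have := Nat.lt_floor_add_one Y
    have h4 : Y < (Hn d N : ℝ) + 1 := this
    linarith
  have hH0 : 0 < (Hn d N : ℝ) := by linarith
  have hYN : Y ^ 2 ≤ N := by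
    have e : Y ^ d = N := by
      rw [hYdef, ← Real.rpow_natCast, ← Real.rpow_mul hN'.le, one_div,
        inv_mul_cancel₀ hd.ne', Real.rpow_one]
    rw [← e]
    exact pow_le_pow_right₀ (by linarith) H.F.hd
  have hup : u * x + v ≤ (u + |v|) * Y := by
    have : u * x ≤ u * Y := mul_le_mul_of_nonneg_left h2 (by linarith)
    nlinarith
  have hlo : Y / 8 - |v| ≤ u * x + v := by
    have : (1 : ℝ) * x ≤ u * x := mul_le_mul_of_nonneg_right hu1 hxr.le
    linarith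
  have hs1 : 16 ≤ Real.sqrt Y := by
    apply Real.le_sqrt_of_sq_le
    linarith
  have hsY : Real.sqrt Y * Real.sqrt Y = Y := Real.mul_self_sqrt hY0.le
  rw [hMx]
  refine ⟨?_, ?_, ?_⟩
  · calc (Hn d N : ℝ) ^ (1 / 2 : ℝ) ≤ Y ^ (1 / 2 : ℝ) :=
        Real.rpow_le_rpow hH0.le hH1 (by norm_num)
      _ = Real.sqrt Y := (Real.sqrt_eq_rpow Y).symm
      _ ≤ Y / 8 - |v| := by nlinarith
      _ ≤ u * x + v := hlo
  · have e1 : (Hn d N : ℝ) ^ (3 / 2 : ℝ) = (Hn d N : ℝ) * Real.sqrt (Hn d N : ℝ) := by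
      rw [Real.sqrt_eq_rpow, show (3 / 2 : ℝ) = 1 + 1 / 2 by norm_num, Real.rpow_add hH0,
        Real.rpow_one]
    have h5 : 2 * (u + |v|) ≤ Real.sqrt (Hn d N : ℝ) := by
      apply Real.le_sqrt_of_sq_le
      nlinarith
    rw [e1]
    calc u * x + v ≤ (u + |v|) * Y := hup
      _ = Y / 2 * (2 * (u + |v|)) := by ring
      _ ≤ (Hn d N : ℝ) * Real.sqrt (Hn d N : ℝ) :=
        mul_le_mul hH2 h5 (by positivity) hH0.le
  · have h6 : u + |v| ≤ Y := by
      nlinarith [sq_nonneg (u + |v| - 1)]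
    calc u * x + v ≤ (u + |v|) * Y := hup
      _ ≤ Y * Y := mul_le_mul_of_nonneg_right h6 hY0.le
      _ = Y ^ 2 := (sq Y).symm
      _ ≤ N := hYN

end Pool.Agent.HC.M
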