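import Pool.Agent.Lib.MP_0da313_nt.HC.E
import Pool.Agent.Lib.MP_89da58_nt.BvW

set_option autoImplicit false

/-!
Project HC, section E, piece EX2: the interface `HC.R_EX2`.
-/

namespace Pool.Agent.HC.E

open Finset Filter Polynomial
open Pool.Agent.MP89da58 (kapD tri sum_omega_le)
open Pool.Agent.CH (thP)
open Pool.Agent.CM (wd)
open Pool.Agent.SP80 (ex)
open Pool.Agent.TC (Lw wN)
open Pool.Agent.GC (tz Pm)
open Pool.Agent.NC (Fam Hn Bn)
open Pool.Agent.HC (Fam2 Cq2 Er2 ErS2)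
open Pool.Agent.NC.G (EL Rn)

private lemma he_EX_t_pos {ι : Type} [Fintype ι] [DecidableEq ι] {D d E : ℕ} (F : Fam ι D d E)
    (l : ι) : 0 < F.t l := by
  have h1 := F.ht l
  have h2 : 0 < |(F.a l : ℝ)| := abs_pos.2 (by exact_mod_cast F.ha l)
  have h3 : 0 ≤ |((F.g l).coeff d : ℝ)| := abs_nonneg _
  have hE : (1 : ℝ) ≤ E := by exact_mod_cast F.hE
  have e : F.t l = F.a l + (F.g l).coeff d * F.s := rfl
  rw [← e] at h1
  by_contra hcon
  push Not at hcon
  have h4 : (E : ℝ) * F.t l ≤ 0 := mul_nonpos_of_nonneg_of_nonpos (by linarith) hcon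
  linarith

private lemma he_EX_cc {ι κ : Type} [Fintype ι] [DecidableEq ι] [Fintype κ] [DecidableEq κ]
    {D d E : ℕ} (H : Fam2 ι κ D d E) (l : ι) (j : κ) : 1 ≤ cc2 H l j := by
  unfold cc2
  have h1 : (H.F.g l).coeff d ≠ 0 := by
    have h2 := H.F.hg l
    have h3 := H.F.hd
    intro h
    have h5 : (H.F.g l).leadingCoeff = 0 := by
      rw [leadingCoeff, h2]
      exact h
    have h4 : H.F.g l = 0 := leadingCoeff_eq_zero.1 h5
    rw [h4, natDegree_zero] at h2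
    omega
  have h6 : 0 < H.u j := H.hu j
  exact Nat.mul_pos (Nat.mul_pos (pow_pos (Nat.factorial_pos d) 2) (Int.natAbs_pos.2 h1))
    (pow_pos h6 d)

private lemma he_EX_mono {X ε : ℝ} {K K' w k : ℕ} (hK : K ≤ K') (h1 : 1 ≤ Real.log X)
    (h : Pm X ε K' w k) : Pm X ε K w k := by
  refine ⟨(pow_le_pow_right₀ h1 hK).trans h.w_ge, ?_, h.even, h.wk⟩
  refine le_trans ?_ h.k_ge
  exact mul_le_mul_of_nonneg_right (by exact_mod_cast hK) (Real.log_nonneg h1)

private lemma he_EX_alg {x1 x2 C Y u v z q r : ℝ} :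
    x1 * (C * (x2 * (Y * (u / (q * v) + z * r)))) =
      C * Y * (u / v) * (x1 * x2 / q) + C * Y * z * (x1 * x2 * r) := by
  have h : u / (q * v) = u / v * (1 / q) := by
    rw [div_mul_div_comm, mul_one, mul_comm v q]
  rw [h]
  ring

/-- the final numerical estimate -/
private lemma he_EX_num {N t C Y L LX S Z n : ℝ} {A B k : ℕ} (hN : 0 < N) (ht : 0 < t)
    (hC : 0 ≤ C) (hY : 0 < Y) (hL : 1 ≤ L) (hLX : L / 2 ≤ LX)
    (hbig : C * 2 ^ k + C * t * 2 ^ (2 * A + 2 * B + 3) ≤ L ^ 2)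
    (hn : n * (Y / L ^ A) ≤ S)
    (hS : S ≤ C * Y * (N * L / L ^ (2 * A + k + 3)) * (1 + L) ^ k + C * Y * L ^ (2 * B + 1) * Z)
    (hZ : Z ≤ t * N / LX ^ (2 * A + 2 * B + 3)) :
    n ≤ N / L ^ A := by
  have hL0 : 0 < L := by linarith
  have hX0 : 0 < LX := by linarith
  have h1 : t * N / LX ^ (2 * A + 2 * B + 3) ≤ t * N / (L / 2) ^ (2 * A + 2 * B + 3) := by gcongr
  have h2 : (1 + L) ^ k ≤ (2 * L) ^ k := by
    apply pow_le_pow_left₀ (by linarith)
    linarith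
  have h3 : S ≤ C * Y * (N * L / L ^ (2 * A + k + 3)) * (2 * L) ^ k +
      C * Y * L ^ (2 * B + 1) * (t * N / (L / 2) ^ (2 * A + 2 * B + 3)) := by
    refine hS.trans (add_le_add ?_ ?_)
    · exact mul_le_mul_of_nonneg_left h2 (by positivity)
    · exact mul_le_mul_of_nonneg_left (hZ.trans h1) (by positivity)
  have h4 : C * Y * (N * L / L ^ (2 * A + k + 3)) * (2 * L) ^ k +
      C * Y * L ^ (2 * B + 1) * (t * N / (L / 2) ^ (2 * A + 2 * B + 3)) =
      (C * 2 ^ k + C * t * 2 ^ (2 * A + 2 * B + 3)) * (Y * N / L ^ (2 * A + 2)) := by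
    rw [div_pow, mul_pow]
    field_simp
    ring
  have h5 : n * (Y / L ^ A) ≤ (N / L ^ A) * (Y / L ^ A) := by
    calc n * (Y / L ^ A) ≤ _ := hn.trans h3
      _ = (C * 2 ^ k + C * t * 2 ^ (2 * A + 2 * B + 3)) * (Y * N / L ^ (2 * A + 2)) := h4
      _ ≤ L ^ 2 * (Y * N / L ^ (2 * A + 2)) := by gcongr
      _ = (N / L ^ A) * (Y / L ^ A) := by
          field_simp
          ring
  exact le_of_mul_le_mul_right h5 (by positivity)

theorem p_EX2 : S_EX2 := by
  classical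
  intro hqs hmj hpm ι κ _ _ _ _ D d E H l j A b
  obtain ⟨B, C, hC, hq⟩ := hqs ι κ D d E H l j (2 * A + b * D + 3)
  have hd2N : 2 ≤ d := H.F.hd
  obtain ⟨K0, hK⟩ := hmj (2 * d) (cc2 H l j) (2 * A + 2 * B + 3) (b * D) (B + 1) (by omega)
    (he_EX_cc H l j)
  refine ⟨max K0 1 + 1, fun B1 hB1 => ?_⟩
  have ht := he_EX_t_pos H.F l
  have htN : Tendsto (fun N : ℕ => H.F.t l * (N : ℝ)) atTop atTop :=
    tendsto_natCast_atTop_atTop.const_mul_atTop ht
  have hlogN : Tendsto (fun N : ℕ => Real.log (N : ℝ)) atTop atTop :=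
    Real.tendsto_log_atTop.comp tendsto_natCast_atTop_atTop
  have hd2 : (2 : ℝ) ≤ d := by exact_mod_cast hd2N
  have hd0 : (0 : ℝ) < d := by linarith
  have e1 : ∀ᶠ N : ℕ in atTop, C * 2 ^ (b * D) + C * H.F.t l * 2 ^ (2 * A + 2 * B + 3) ≤
      Real.log N ^ 2 := by
    filter_upwards [hlogN.eventually_ge_atTop
      (C * 2 ^ (b * D) + C * H.F.t l * 2 ^ (2 * A + 2 * B + 3)),
      hlogN.eventually_ge_atTop 1] with N h1 h2
    nlinarith
  filter_upwards [htN.eventually hK, hq, hpm (max K0 1) B1 (H.F.t l) ht hB1, e1,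
    hlogN.eventually_ge_atTop (2 * |Real.log (H.F.t l)|), hlogN.eventually_ge_atTop 2,
    hlogN.eventually_ge_atTop (2 ^ (B + 1) * (H.F.t l + 1)),
    eventually_ge_atTop 1] with N hK hq hpm e1 e2 e3 e4 hN1
  obtain ⟨k, hk⟩ := hpm
  have hN0 : (0 : ℝ) < N := by exact_mod_cast hN1
  have hN1R : (1 : ℝ) ≤ N := by exact_mod_cast hN1
  set X : ℝ := H.F.t l * N with hX
  set L : ℝ := Real.log N with hL
  have hX0 : 0 < X := mul_pos ht hN0
  have hL0 : 0 < L := by linarith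
  have hlogX : Real.log X = Real.log (H.F.t l) + L := by
    rw [hX, Real.log_mul ht.ne' hN0.ne']
  have hab := neg_abs_le (Real.log (H.F.t l))
  have hlX : L / 2 ≤ Real.log X := by
    rw [hlogX]
    linarith
  have hlX1 : 1 ≤ Real.log X := by linarith
  have hk0 : Pm X (1 / 100) K0 (wN B1 N) k := he_EX_mono (le_max_left _ _) hlX1 hk
  have hk1 : Pm X (1 / 100) 1 (wN B1 N) k := he_EX_mono (le_max_right _ _) hlX1 hk
  obtain ⟨e, he0, he1, he2⟩ := hK (wN B1 N) k hk0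
  set w := wN B1 N with hw
  -- the ranges
  have hpow : (N : ℝ) ^ (1 / (1000 * d) : ℝ) ≤ X ^ (1 / (100 * ((2 * d : ℕ) : ℝ))) := by
    rw [Nat.cast_mul, Nat.cast_ofNat, Real.rpow_def_of_pos hN0, Real.rpow_def_of_pos hX0]
    apply Real.exp_le_exp.2
    calc Real.log N * (1 / (1000 * d)) = (L / 2) * (1 / (500 * d)) := by
          rw [← hL]
          field_simp
          ring
      _ ≤ Real.log X * (1 / (500 * d)) := by gcongr
      _ ≤ Real.log X * (1 / (100 * (2 * d))) := by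
          have : (1 : ℝ) / (500 * d) ≤ 1 / (100 * (2 * d)) := by
            apply one_div_le_one_div_of_le (by positivity)
            linarith
          exact mul_le_mul_of_nonneg_left this (by linarith)
  have hpw : L ^ B * (H.F.t l + 1) ≤ Real.log X ^ (B + 1) := by
    have h1 : (L / 2) ^ (B + 1) ≤ Real.log X ^ (B + 1) :=
      pow_le_pow_left₀ (by linarith) hlX _
    have h2 : L ^ B * (H.F.t l + 1) ≤ (L / 2) ^ (B + 1) := by
      rw [div_pow, le_div_iff₀ (by positivity), pow_succ L B]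
      calc L ^ B * (H.F.t l + 1) * 2 ^ (B + 1) = L ^ B * (2 ^ (B + 1) * (H.F.t l + 1)) := by ring
        _ ≤ L ^ B * L := by gcongr
    exact h2.trans h1
  have hpw1 : L ^ B ≤ Real.log X ^ (B + 1) := by
    refine le_trans ?_ hpw
    have : 0 ≤ L ^ B * H.F.t l := by positivity
    linarith
  have hpw2 : L ^ B / N ≤ Real.log X ^ (B + 1) / X := by
    rw [div_le_div_iff₀ hN0 hX0]
    calc L ^ B * X = (L ^ B * H.F.t l) * N := by rw [hX]; ring
      _ ≤ Real.log X ^ (B + 1) * N := by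
          apply mul_le_mul_of_nonneg_right _ hN0.le
          refine le_trans ?_ hpw
          have : 0 ≤ L ^ B := by positivity
          linarith
  set Y : ℝ := (N : ℝ) ^ (1 / (d : ℝ)) with hYd
  have hY : 0 < Y := by positivity
  set Q := (Icc 1 ⌊(N : ℝ) ^ (1 / (1000 * d) : ℝ)⌋₊).filter Squarefree with hQ
  have hS0 : ∀ n, 0 ≤ ErS2 H N w n b l j := fun n => by
    unfold ErS2
    exact Finset.sum_nonneg fun q _ =>
      mul_nonneg (by positivity) (Finset.sum_nonneg fun c _ => abs_nonneg _)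
  have hmain : ∑ n ∈ Ioc N (Bn E N), ErS2 H N w n b l j ≤
      C * Y * (N * L / L ^ (2 * A + b * D + 3)) * (1 + L) ^ (b * D) +
      C * Y * L ^ (2 * B + 1) * ∑ q ∈ Q, ((b * D : ℕ) : ℝ) ^ q.primeFactors.card *
        ((q : ℝ) ^ (2 * d - 1) * e q) := by
    have h0 : ∑ n ∈ Ioc N (Bn E N), ErS2 H N w n b l j = ∑ q ∈ Q, ∑ n ∈ Ioc N (Bn E N),
        (b : ℝ) ^ q.primeFactors.card * ∑ c ∈ Cq2 H n q l j, |Er2 H N w n l j q c| := by
      unfold ErS2
      rw [← hQ, Finset.sum_comm]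
    rw [h0]
    have h1 : ∀ q ∈ Q, ∑ n ∈ Ioc N (Bn E N),
        (b : ℝ) ^ q.primeFactors.card * ∑ c ∈ Cq2 H n q l j, |Er2 H N w n l j q c| ≤
        C * Y * (N * L / L ^ (2 * A + b * D + 3)) *
          (((b * D : ℕ) : ℝ) ^ q.primeFactors.card / q) +
        C * Y * L ^ (2 * B + 1) * (((b * D : ℕ) : ℝ) ^ q.primeFactors.card *
          ((q : ℝ) ^ (2 * d - 1) * e q)) := by
      intro q hq'
      rw [hQ, Finset.mem_filter, Finset.mem_Icc] at hq'
      have hq1 : (q : ℝ) ≤ (N : ℝ) ^ (1 / (1000 * d) : ℝ) :=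
        (Nat.cast_le.2 hq'.1.2).trans (Nat.floor_le (by positivity))
      have hq0 : (0 : ℝ) < q := by exact_mod_cast hq'.1.1
      rw [← Finset.mul_sum]
      have h2 := hq w k q (e q) hk1 hq'.2 hq1 (he0 q)
        (fun m s β hm1 hm hs hβ => he1 q m s β hq'.2 (hq1.trans hpow) hm1 (hm.trans hpw1) hs
          (hβ.trans hpw2))
      refine (mul_le_mul_of_nonneg_left h2 (by positivity)).trans_eq ?_
      rw [Nat.cast_mul, mul_pow]
      exact he_EX_alg
    refine (Finset.sum_le_sum h1).trans ?_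
    rw [Finset.sum_add_distrib, ← Finset.mul_sum, ← Finset.mul_sum]
    refine add_le_add ?_ le_rfl
    apply mul_le_mul_of_nonneg_left _ (by positivity)
    have h3 : 1 ≤ ⌊(N : ℝ) ^ (1 / (1000 * d) : ℝ)⌋₊ := by
      rw [Nat.one_le_floor_iff]
      exact Real.one_le_rpow hN1R (by positivity)
    refine (sum_omega_le (b * D) _ h3).trans ?_
    have h4 : ((⌊(N : ℝ) ^ (1 / (1000 * d) : ℝ)⌋₊ : ℕ) : ℝ) ≤ N := by
      refine (Nat.floor_le (by positivity)).trans ?_
      calc (N : ℝ) ^ (1 / (1000 * d) : ℝ) ≤ (N : ℝ) ^ (1 : ℝ) := by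
            apply Real.rpow_le_rpow_of_exponent_le hN1R
            rw [div_le_one (by positivity)]
            linarith
        _ = N := Real.rpow_one _
    have h5 : (1 : ℝ) ≤ ((⌊(N : ℝ) ^ (1 / (1000 * d) : ℝ)⌋₊ : ℕ) : ℝ) := by exact_mod_cast h3
    have h6 : 0 ≤ Real.log ((⌊(N : ℝ) ^ (1 / (1000 * d) : ℝ)⌋₊ : ℕ) : ℝ) := Real.log_nonneg h5
    have h7 : Real.log ((⌊(N : ℝ) ^ (1 / (1000 * d) : ℝ)⌋₊ : ℕ) : ℝ) ≤ L :=
      Real.log_le_log (by linarith) h4
    apply pow_le_pow_left₀ (by linarith)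
    linarith
  have hZ : ∑ q ∈ Q, ((b * D : ℕ) : ℝ) ^ q.primeFactors.card * ((q : ℝ) ^ (2 * d - 1) * e q) ≤
      H.F.t l * N / Real.log X ^ (2 * A + 2 * B + 3) := by
    refine le_trans ?_ he2
    apply Finset.sum_le_sum_of_subset_of_nonneg
    · intro q hq'
      rw [hQ, Finset.mem_filter, Finset.mem_Icc] at hq'
      rw [Finset.mem_filter, Finset.mem_Icc]
      exact ⟨⟨hq'.1.1, hq'.1.2.trans (Nat.floor_le_floor hpow)⟩, hq'.2⟩
    · intro q _ _
      exact mul_nonneg (by positivity) (mul_nonneg (by positivity) (he0 q))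
  have hmk : (((Ioc N (Bn E N)).filter (fun n => Y / L ^ A < ErS2 H N w n b l j)).card : ℝ) *
      (Y / L ^ A) ≤ ∑ n ∈ Ioc N (Bn E N), ErS2 H N w n b l j := by
    calc (((Ioc N (Bn E N)).filter (fun n => Y / L ^ A < ErS2 H N w n b l j)).card : ℝ) *
      (Y / L ^ A)
        = ∑ _n ∈ (Ioc N (Bn E N)).filter (fun n => Y / L ^ A < ErS2 H N w n b l j),
            (Y / L ^ A) := by
          rw [Finset.sum_const, nsmul_eq_mul]
      _ ≤ ∑ n ∈ (Ioc N (Bn E N)).filter (fun n => Y / L ^ A < ErS2 H N w n b l j),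
            ErS2 H N w n b l j :=
          Finset.sum_le_sum fun n hn => (Finset.mem_filter.1 hn).2.le
      _ ≤ ∑ n ∈ Ioc N (Bn E N), ErS2 H N w n b l j :=
          Finset.sum_le_sum_of_subset_of_nonneg (Finset.filter_subset _ _) fun n _ _ => hS0 n
  exact he_EX_num hN0 ht hC hY (by linarith) hlX e1 hmk hmain hZ

end Pool.Agent.HC.E
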