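import Pool.Agent.Lib.MP_0da313_nt.HC.W

set_option autoImplicit false

/-!
Project HC, piece T: the bound for `TT` by a multiple sum.
-/

namespace Pool.Agent.HC.W

open Finset Filter Polynomial
open Pool.Agent.SP80 (ex mn)
open Pool.Agent.NC.Wy (tk RR WP)

private theorem T_dc (p : ℕ → Prop) (hp : ∀ i j, i ≤ j → p j → p i) (U : ℕ) :
    ∃ u ≤ U, ∀ j, (j < U ∧ p j) ↔ j < u := by
  classical
  induction U with
  | zero => exact ⟨0, le_rfl, fun j => by simp⟩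
  | succ U ih =>
    obtain ⟨u, hu, h⟩ := ih
    by_cases hU : p U
    · refine ⟨U + 1, le_rfl, fun j => ⟨fun hj => hj.1, fun hj => ⟨hj, hp j U (by omega) hU⟩⟩⟩
    · refine ⟨u, by omega, fun j => ⟨fun hj => ?_, fun hj => ?_⟩⟩
      · rw [← h]
        refine ⟨?_, hj.2⟩
        rcases Nat.lt_or_ge j U with h1 | h1
        · exact h1
        · have : j = U := by omega
          exact absurd (this ▸ hj.2) hU
      · have := (h j).2 hj
        exact ⟨by omega, this.2⟩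

private theorem T_coeff (f q : ℝ[X]) (d : ℕ) (hf : f.natDegree ≤ d) (hq : q.natDegree ≤ 1) :
    (f.comp q).natDegree ≤ d ∧ (f.comp q).coeff d = f.coeff d * (q.coeff 1) ^ d := by
  constructor
  · rw [Polynomial.natDegree_comp]
    calc f.natDegree * q.natDegree ≤ d * 1 := Nat.mul_le_mul hf hq
      _ = d := mul_one d
  · rw [Polynomial.comp_eq_sum_left, Polynomial.sum_over_range' f (by simp) (d + 1) (by omega),
      Polynomial.finsetSum_coeff, Finset.sum_range_succ, Finset.sum_eq_zero, zero_add,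
      Polynomial.coeff_C_mul]
    · have h := Polynomial.coeff_pow_of_natDegree_le (m := d) hq
      rw [mul_one] at h
      rw [h]
    · intro n hn
      rw [Finset.mem_range] at hn
      have h : (q ^ n).coeff d = 0 := by
        apply Polynomial.coeff_eq_zero_of_natDegree_lt
        calc (q ^ n).natDegree ≤ n * q.natDegree := Polynomial.natDegree_pow_le
          _ ≤ n * 1 := Nat.mul_le_mul_left _ hq
          _ < d := by omega
      rw [Polynomial.coeff_C_mul, h, mul_zero]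

private theorem T_pm {ι : Type} (s : Finset ι) (hs : s.Nonempty) (f : ι → ℝ)
    (hf : ∀ i ∈ s, 0 ≤ f i) (m : ℕ) :
    (∑ i ∈ s, f i) ^ (m + 1) ≤ (s.card : ℝ) ^ m * ∑ i ∈ s, f i ^ (m + 1) := by
  have h := pow_sum_div_card_le_sum_pow (s := s) (f := f) hf m
  have hc : (0 : ℝ) < s.card := by exact_mod_cast hs.card_pos
  rw [div_le_iff₀ (by positivity)] at h
  rw [mul_comm]
  exact h

private theorem T_one (F : ℕ → ℝ) (hF : ∀ y, 0 ≤ F y) (U y1 : ℕ) (hy : y1 < U) :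
    ∑ y2 ∈ range U, F (if y2 ≤ y1 then y1 - y2 else y2 - y1) ≤ 2 * ∑ y ∈ range U, F y := by
  have h1 : ∑ y2 ∈ (range U).filter (fun y2 => y2 ≤ y1), F (y1 - y2) ≤ ∑ y ∈ range U, F y := by
    have hinj : Set.InjOn (fun y2 => y1 - y2)
        ((range U).filter (fun y2 => y2 ≤ y1) : Finset ℕ) := by
      intro a ha b hb hab
      simp only [coe_filter, Finset.mem_range, Set.mem_ofPred_eq] at ha hb hab
      omega
    rw [← Finset.sum_image (f := F) hinj]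
    apply Finset.sum_le_sum_of_subset_of_nonneg
    · intro z hz
      rw [Finset.mem_image] at hz
      obtain ⟨a, ha, rfl⟩ := hz
      rw [Finset.mem_range]
      omega
    · intro i _ _
      exact hF i
  have h2 : ∑ y2 ∈ (range U).filter (fun y2 => ¬ y2 ≤ y1), F (y2 - y1) ≤
      ∑ y ∈ range U, F y := by
    have hinj : Set.InjOn (fun y2 => y2 - y1)
        ((range U).filter (fun y2 => ¬ y2 ≤ y1) : Finset ℕ) := by
      intro a ha b hb hab
      simp only [coe_filter, Finset.mem_range, Set.mem_ofPred_eq] at ha hb hab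
      omega
    rw [← Finset.sum_image (f := F) hinj]
    apply Finset.sum_le_sum_of_subset_of_nonneg
    · intro z hz
      rw [Finset.mem_image] at hz
      obtain ⟨a, ha, rfl⟩ := hz
      rw [Finset.mem_filter, Finset.mem_range] at ha
      rw [Finset.mem_range]
      omega
    · intro i _ _
      exact hF i
  have h3 : ∑ y2 ∈ range U, F (if y2 ≤ y1 then y1 - y2 else y2 - y1) =
      ∑ y2 ∈ (range U).filter (fun y2 => y2 ≤ y1), F (y1 - y2) +
        ∑ y2 ∈ (range U).filter (fun y2 => ¬ y2 ≤ y1), F (y2 - y1) := by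
    rw [← Finset.sum_filter_add_sum_filter_not (range U) (fun y2 => y2 ≤ y1)]
    congr 1
    · refine Finset.sum_congr rfl fun y hy => ?_
      rw [Finset.mem_filter] at hy
      rw [if_pos hy.2]
    · refine Finset.sum_congr rfl fun y hy => ?_
      rw [Finset.mem_filter] at hy
      rw [if_neg hy.2]
  rw [h3]
  linarith

private theorem T_list (k U : ℕ) (t : List ℕ) :
    List.replicate k U ++ U :: t = List.replicate (k + 1) U ++ t := by
  induction k with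
  | zero => rfl
  | succ k ih =>
    rw [List.replicate_succ, List.cons_append, ih, List.replicate_succ (n := k + 1),
      List.cons_append]

private theorem T_inner (hms : R_ms) (n : ℕ) (θ : ℝ) (Q l0 U V s p : ℕ) (u : ℕ → ℕ)
    (hu : ∀ i j, i ≤ j → u j ≤ u i) (hU : 1 ≤ U) (hV : 1 ≤ V) :
    (∑ y1 ∈ range U, ∑ y2 ∈ range U,
      ‖∑ i ∈ (range V).filter (fun i => y1 + s < u i ∧ y2 + s < u i),
        ex (((n + 1 + 1).factorial : ℝ) * p * (θ * ((Q : ℝ) * (l0 + Q * i)) ^ (n + 2)) *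
          ((y1 : ℝ) - y2))‖ ^ 2) ^ (2 ^ n) ≤
    (((U : ℝ) ^ 2) ^ (2 ^ n - 1) * (2 ^ (2 ^ (n + 1) - 1) *
      (V : ℝ) ^ (2 ^ (n + 1) - (n + 2)) * (2 * U))) *
      RL (U :: List.replicate (n + 1) V) V
        (p * (((n + 2).factorial : ℝ) ^ 2 * θ * (Q : ℝ) ^ (2 * (n + 2)))) := by
  obtain ⟨-, -, -, -, -, -, hRR, hRL⟩ := hms
  set Θ : ℝ := ((n + 2).factorial : ℝ) ^ 2 * θ * (Q : ℝ) ^ (2 * (n + 2)) with hΘ
  set A : ℕ → ℕ → ℝ := fun y1 y2 =>
    ‖∑ i ∈ (range V).filter (fun i => y1 + s < u i ∧ y2 + s < u i),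
        ex (((n + 1 + 1).factorial : ℝ) * p * (θ * ((Q : ℝ) * (l0 + Q * i)) ^ (n + 2)) *
          ((y1 : ℝ) - y2))‖ with hA
  set F : ℕ → ℝ := fun y => RR (n + 1) V (y * (p * Θ)) with hF
  have hF0 : ∀ y, 0 ≤ F y := fun y => NC.Wy.RR_nonneg _ _ _
  set κ : ℝ := 2 ^ (2 ^ (n + 1) - 1) * (V : ℝ) ^ (2 ^ (n + 1) - (n + 2)) with hκ
  have hκ0 : 0 ≤ κ := by positivity
  -- a single pair
  have h1 : ∀ y1 y2, A y1 y2 ^ (2 ^ (n + 1)) ≤
      κ * F (if y2 ≤ y1 then y1 - y2 else y2 - y1) := by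
    intro y1 y2
    obtain ⟨V', hV', hV2⟩ := T_dc (fun i => y1 + s < u i ∧ y2 + s < u i)
      (fun i j hij h => ⟨lt_of_lt_of_le h.1 (hu i j hij), lt_of_lt_of_le h.2 (hu i j hij)⟩) V
    have e1 : (range V).filter (fun i => y1 + s < u i ∧ y2 + s < u i) = range V' := by
      ext i
      rw [Finset.mem_filter, Finset.mem_range, Finset.mem_range]
      exact hV2 i
    set q : ℝ[X] := C ((Q : ℝ) * l0) + C ((Q : ℝ) ^ 2) * X with hq
    have hq1 : q.natDegree ≤ 1 := by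
      rw [hq]
      compute_degree
    have hqc : q.coeff 1 = (Q : ℝ) ^ 2 := by
      rw [hq, Polynomial.coeff_add, Polynomial.coeff_C_mul, Polynomial.coeff_X_one,
        Polynomial.coeff_C_of_ne_zero (by norm_num)]
      ring
    set G : ℝ[X] := (C (((n + 1 + 1).factorial : ℝ) * p * θ * ((y1 : ℝ) - y2)) *
      X ^ (n + 2)).comp q with hG
    have hG1 := T_coeff (C (((n + 1 + 1).factorial : ℝ) * p * θ * ((y1 : ℝ) - y2)) *
      X ^ (n + 2)) q (n + 2) (Polynomial.natDegree_C_mul_X_pow_le _ _) hq1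
    rw [← hG] at hG1
    have hGc : G.coeff (n + 1 + 1) = ((n + 1 + 1).factorial : ℝ) * p * θ * ((y1 : ℝ) - y2) *
        ((Q : ℝ) ^ 2) ^ (n + 2) := by
      have := hG1.2
      rw [hqc, Polynomial.coeff_C_mul, Polynomial.coeff_X_pow, if_pos rfl, mul_one] at this
      exact this
    have hwp := NC.Wy.wp_poly (n + 1) G hG1.1
    have hwd := NC.Wy.weyl_diff (n + 1) _ _ hwp V V' hV hV'
    have e2 : ∑ y ∈ range V', ex (G.eval (y : ℝ)) =
        ∑ i ∈ range V', ex (((n + 1 + 1).factorial : ℝ) * p *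
          (θ * ((Q : ℝ) * (l0 + Q * i)) ^ (n + 2)) * ((y1 : ℝ) - y2)) := by
      refine Finset.sum_congr rfl fun i _ => ?_
      congr 1
      rw [hG, hq]
      simp only [Polynomial.eval_comp, Polynomial.eval_mul, Polynomial.eval_C,
        Polynomial.eval_pow, Polynomial.eval_X, Polynomial.eval_add]
      ring
    have e3 : RR (n + 1) V (((n + 1 + 1).factorial : ℝ) * G.coeff (n + 1 + 1)) =
        F (if y2 ≤ y1 then y1 - y2 else y2 - y1) := by
      rw [hGc]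
      by_cases h : y2 ≤ y1
      · rw [if_pos h, hF]
        change _ = RR (n + 1) V (((y1 - y2 : ℕ) : ℝ) * (p * Θ))
        congr 1
        rw [Nat.cast_sub h, hΘ]
        ring
      · rw [if_neg h, hF]
        change _ = RR (n + 1) V (((y2 - y1 : ℕ) : ℝ) * (p * Θ))
        rw [hRR, hRR, ← (hRL (List.replicate (n + 1) V) V (((y2 - y1 : ℕ) : ℝ) * (p * Θ))).1]
        congr 1
        rw [Nat.cast_sub (by omega), hΘ]
        ring
    rw [e2, e3] at hwd
    change ‖∑ i ∈ (range V).filter (fun i => y1 + s < u i ∧ y2 + s < u i),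
        ex (((n + 1 + 1).factorial : ℝ) * p * (θ * ((Q : ℝ) * (l0 + Q * i)) ^ (n + 2)) *
          ((y1 : ℝ) - y2))‖ ^ (2 ^ (n + 1)) ≤ _
    rw [e1]
    exact hwd
  -- power mean
  have h2 : (∑ y1 ∈ range U, ∑ y2 ∈ range U, A y1 y2 ^ 2) ^ (2 ^ n) ≤
      ((U : ℝ) ^ 2) ^ (2 ^ n - 1) * ∑ y1 ∈ range U, ∑ y2 ∈ range U, A y1 y2 ^ (2 ^ (n + 1)) := by
    have h3 := T_pm (range U ×ˢ range U)
      ⟨(0, 0), Finset.mem_product.2 ⟨Finset.mem_range.2 hU, Finset.mem_range.2 hU⟩⟩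
      (fun x => A x.1 x.2 ^ 2) (fun _ _ => sq_nonneg _) (2 ^ n - 1)
    rw [Nat.sub_add_cancel Nat.one_le_two_pow, Finset.card_product, Finset.card_range,
      Finset.sum_product, Finset.sum_product] at h3
    have e1 : ((U * U : ℕ) : ℝ) = (U : ℝ) ^ 2 := by
      push_cast
      ring
    rw [e1] at h3
    refine h3.trans (le_of_eq ?_)
    congr 1
    refine Finset.sum_congr rfl fun y1 _ => Finset.sum_congr rfl fun y2 _ => ?_
    rw [← pow_mul]
    congr 1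
    ring
  have h4 : ∑ y1 ∈ range U, ∑ y2 ∈ range U, A y1 y2 ^ (2 ^ (n + 1)) ≤
      κ * (2 * U) * ∑ y ∈ range U, F y := by
    calc ∑ y1 ∈ range U, ∑ y2 ∈ range U, A y1 y2 ^ (2 ^ (n + 1))
        ≤ ∑ y1 ∈ range U, κ * (2 * ∑ y ∈ range U, F y) := by
          refine Finset.sum_le_sum fun y1 hy1 => ?_
          refine (Finset.sum_le_sum fun y2 _ => h1 y1 y2).trans ?_
          rw [← Finset.mul_sum]
          exact mul_le_mul_of_nonneg_left (T_one F hF0 U y1 (Finset.mem_range.1 hy1)) hκ0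
      _ = κ * (2 * U) * ∑ y ∈ range U, F y := by
          rw [Finset.sum_const, Finset.card_range, nsmul_eq_mul]
          ring
  have h5 : RL (U :: List.replicate (n + 1) V) V (p * Θ) = ∑ y ∈ range U, F y := by
    change ∑ h ∈ range U, RL (List.replicate (n + 1) V) V (h * (p * Θ)) = _
    refine Finset.sum_congr rfl fun y _ => ?_
    rw [← hRR]
  rw [h5]
  refine h2.trans ?_
  rw [mul_assoc]
  exact mul_le_mul_of_nonneg_left h4 (by positivity)

private theorem T_poly (f : ℝ[X]) (d Q m0 l0 i : ℕ) (hf : f.natDegree ≤ d) :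
    ∃ P : ℝ[X], P.natDegree ≤ d ∧ P.coeff d = f.coeff d * ((Q : ℝ) * (l0 + Q * i)) ^ d ∧
      ∀ y : ℕ, P.eval (y : ℝ) = f.eval (((m0 + Q * y) * (l0 + Q * i) : ℕ) : ℝ) := by
  set q : ℝ[X] := C ((m0 : ℝ) * (l0 + Q * i)) + C ((Q : ℝ) * (l0 + Q * i)) * X with hq
  have hq1 : q.natDegree ≤ 1 := by
    rw [hq]
    compute_degree
  have hqc : q.coeff 1 = (Q : ℝ) * (l0 + Q * i) := by
    rw [hq, Polynomial.coeff_add, Polynomial.coeff_C_mul, Polynomial.coeff_X_one,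
      Polynomial.coeff_C_of_ne_zero (by norm_num)]
    ring
  have h := T_coeff f q d hf hq1
  rw [hqc] at h
  refine ⟨f.comp q, h.1, h.2, fun y => ?_⟩
  rw [Polynomial.eval_comp]
  congr 1
  rw [hq, Polynomial.eval_add, Polynomial.eval_mul, Polynomial.eval_C, Polynomial.eval_C,
    Polynomial.eval_X]
  push_cast
  ring

private theorem T_fin (a n : ℕ) (U V R T g : ℝ) (ha : 1 ≤ a) (h1 : n + 2 ≤ 2 * a) (hU : 0 ≤ U)
    (hV : 0 ≤ V) (hR : 0 ≤ R) (hT : 0 ≤ T)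
    (s1 : T ^ (2 * a) ≤ (V ^ 2) ^ (2 * a - 1) * (2 ^ (4 * a - 2) * U ^ (4 * a - (n + 3)) * R))
    (s2 : R ^ a ≤ (U ^ (n + 1)) ^ (a - 1) * (((U ^ 2) ^ (a - 1) * (2 ^ (2 * a - 1) *
      V ^ (2 * a - (n + 2)) * (2 * U))) * g)) :
    T ^ (2 * a * a) ≤ 2 ^ (4 * a * a) * (U * V) ^ (4 * a * a - (n + 2)) * g := by
  obtain ⟨b, rfl⟩ : ∃ b, a = b + 1 := ⟨a - 1, by omega⟩
  obtain ⟨z, hz⟩ : ∃ z, 2 * (b + 1) = n + 2 + z := ⟨2 * (b + 1) - (n + 2), by omega⟩
  obtain ⟨w, hw⟩ : ∃ w, 4 * (b + 1) = n + 3 + w := ⟨4 * (b + 1) - (n + 3), by omega⟩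
  have hz' : 2 * (b + 1) - (n + 2) = z := by omega
  have hw' : 4 * (b + 1) - (n + 3) = w := by omega
  have h2 : 4 * (b + 1) - 2 = 4 * b + 2 := by omega
  have h3 : 2 * (b + 1) - 1 = 2 * b + 1 := by omega
  have h4 : b + 1 - 1 = b := by omega
  rw [h3, h2, hw'] at s1
  rw [h4, h3, hz'] at s2
  have eU : 4 * (b + 1) * (b + 1) - (n + 2) = w * (b + 1) + (n + 1) * b + 2 * b + 1 := by
    apply Nat.sub_eq_of_eq_add
    rw [hw]
    ring
  have eV : 4 * (b + 1) * (b + 1) - (n + 2) = 2 * (2 * b + 1) * (b + 1) + z := by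
    apply Nat.sub_eq_of_eq_add
    have : 4 * (b + 1) * (b + 1) = 2 * (2 * b + 1) * (b + 1) + 2 * (b + 1) := by ring
    rw [this, hz]
    ring
  have e2 : 4 * (b + 1) * (b + 1) = (4 * b + 2) * (b + 1) + (2 * b + 1) + 1 := by ring
  calc T ^ (2 * (b + 1) * (b + 1)) = (T ^ (2 * (b + 1))) ^ (b + 1) := by rw [← pow_mul]
    _ ≤ ((V ^ 2) ^ (2 * b + 1) * (2 ^ (4 * b + 2) * U ^ w * R)) ^ (b + 1) :=
      pow_le_pow_left₀ (by positivity) s1 _
    _ = V ^ (2 * (2 * b + 1) * (b + 1)) * 2 ^ ((4 * b + 2) * (b + 1)) * U ^ (w * (b + 1)) *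
        R ^ (b + 1) := by
      rw [mul_pow, mul_pow, mul_pow, ← pow_mul, ← pow_mul, ← pow_mul, ← pow_mul]
      ring
    _ ≤ V ^ (2 * (2 * b + 1) * (b + 1)) * 2 ^ ((4 * b + 2) * (b + 1)) * U ^ (w * (b + 1)) *
        ((U ^ (n + 1)) ^ b * (((U ^ 2) ^ b * (2 ^ (2 * b + 1) * V ^ z * (2 * U))) * g)) :=
      mul_le_mul_of_nonneg_left s2 (by positivity)
    _ = 2 ^ (4 * (b + 1) * (b + 1)) * (U * V) ^ (4 * (b + 1) * (b + 1) - (n + 2)) * g := by
      have hUU : U ^ (4 * (b + 1) * (b + 1) - (n + 2)) =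
          U ^ (w * (b + 1) + (n + 1) * b + 2 * b + 1) := by rw [eU]
      have hVV : V ^ (4 * (b + 1) * (b + 1) - (n + 2)) =
          V ^ (2 * (2 * b + 1) * (b + 1) + z) := by rw [eV]
      rw [mul_pow U V, hUU, hVV, e2]
      ring

/-- **HC T** -/
theorem p_T : S_T := by
  intro hms hgw d hd
  obtain ⟨n, rfl⟩ : ∃ n, d = n + 2 := ⟨d - 2, by omega⟩
  refine ⟨2 ^ (4 * 2 ^ n * 2 ^ n), ?_⟩
  intro f Q m0 l0 U V Y hf hU hV
  have hdc : ∀ i, ∃ u ≤ U, ∀ j, (j < U ∧ (m0 + Q * j) * (l0 + Q * i) ≤ Y) ↔ j < u := fun i =>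
    T_dc (fun j => (m0 + Q * j) * (l0 + Q * i) ≤ Y) (fun a b hab h =>
      (Nat.mul_le_mul_right _ (Nat.add_le_add_left (Nat.mul_le_mul_left _ hab) _)).trans h) U
  choose u hu1 hu2 using hdc
  have hanti : ∀ i j, i ≤ j → u j ≤ u i := by
    intro i j hij
    by_contra hlt
    have hlt' : u i < u j := by omega
    have h1 := (hu2 j (u i)).2 hlt'
    have h2 := (hu2 i (u i)).1 ⟨h1.1,
      (Nat.mul_le_mul_left _ (Nat.add_le_add_left (Nat.mul_le_mul_left _ hij) _)).trans h1.2⟩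
    exact lt_irrefl _ h2
  set φ : ℕ → ℕ → ℝ := fun y i => f.eval (((m0 + Q * y) * (l0 + Q * i) : ℕ) : ℝ) with hφ
  set c : ℕ → ℝ := fun i => f.coeff (n + 2) * ((Q : ℝ) * (l0 + Q * i)) ^ (n + 2) with hc
  have hWP : ∀ i1 i2, WP (n + 1) (c i1 - c i2) (fun y => φ y i1 - φ y i2) := by
    intro i1 i2
    obtain ⟨P1, a1, b1, e1⟩ := T_poly f (n + 2) Q m0 l0 i1 hf
    obtain ⟨P2, a2, b2, e2⟩ := T_poly f (n + 2) Q m0 l0 i2 hf
    have h := NC.Wy.wp_poly (n + 1) (P1 - P2)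
      ((Polynomial.natDegree_sub_le _ _).trans (max_le a1 a2))
    have h1 : (P1 - P2).coeff (n + 1 + 1) = c i1 - c i2 := by
      rw [Polynomial.coeff_sub, b1, b2]
    have h2 : (fun y : ℕ => (P1 - P2).eval (y : ℝ)) = fun y => φ y i1 - φ y i2 := by
      funext y
      rw [Polynomial.eval_sub, e1, e2]
    rw [h1, h2] at h
    exact h
  have hgw' := hgw (n + 1) U V φ c u hU hu1 hWP
  have hTT : TT f Q m0 l0 U V Y = ∑ i1 ∈ range V, ∑ i2 ∈ range V,
      ‖∑ y ∈ range (min (u i1) (u i2)), ex (φ y i1 - φ y i2)‖ ^ 2 := by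
    unfold TT
    refine Finset.sum_congr rfl fun i1 _ => Finset.sum_congr rfl fun i2 _ => ?_
    have h : (range U).filter (fun j => (m0 + Q * j) * (l0 + Q * i1) ≤ Y ∧
        (m0 + Q * j) * (l0 + Q * i2) ≤ Y) = range (min (u i1) (u i2)) := by
      ext j
      rw [Finset.mem_filter, Finset.mem_range, Finset.mem_range, lt_min_iff, ← hu2, ← hu2]
      tauto
    rw [h]
  set R : ℝ := MS (n + 1) U (fun s p => ∑ y1 ∈ range U, ∑ y2 ∈ range U,
      ‖∑ i ∈ (range V).filter (fun i => y1 + s < u i ∧ y2 + s < u i),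
        ex (((n + 1 + 1).factorial : ℝ) * p * c i * ((y1 : ℝ) - y2))‖ ^ 2) 0 1 with hR
  have hTT0 : 0 ≤ TT f Q m0 l0 U V Y := by
    rw [hTT]
    exact Finset.sum_nonneg fun _ _ => Finset.sum_nonneg fun _ _ => sq_nonneg _
  have hpow1 : 2 ^ (n + 1) = 2 * 2 ^ n := by ring
  have hpow2 : 2 ^ (n + 1 + 1) = 4 * 2 ^ n := by ring
  have hn1 : n + 1 ≤ 2 ^ n := Nat.lt_two_pow_self
  -- the first step
  have s1 : (TT f Q m0 l0 U V Y) ^ (2 * 2 ^ n) ≤ ((V : ℝ) ^ 2) ^ (2 * 2 ^ n - 1) *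
      (2 ^ (4 * 2 ^ n - 2) * (U : ℝ) ^ (4 * 2 ^ n - (n + 3)) * R) := by
    have h3 := T_pm (range V ×ˢ range V)
      ⟨(0, 0), Finset.mem_product.2 ⟨Finset.mem_range.2 hV, Finset.mem_range.2 hV⟩⟩
      (fun x => ‖∑ y ∈ range (min (u x.1) (u x.2)), ex (φ y x.1 - φ y x.2)‖ ^ 2)
      (fun _ _ => sq_nonneg _) (2 * 2 ^ n - 1)
    rw [Nat.sub_add_cancel (by omega), Finset.card_product, Finset.card_range,
      Finset.sum_product, Finset.sum_product] at h3
    have e1 : ((V * V : ℕ) : ℝ) = (V : ℝ) ^ 2 := by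
      push_cast
      ring
    rw [e1] at h3
    rw [hTT]
    refine h3.trans ?_
    apply mul_le_mul_of_nonneg_left _ (by positivity)
    have e2 : ∑ x ∈ range V, ∑ y ∈ range V,
        (‖∑ y_1 ∈ range (min (u x) (u y)), ex (φ y_1 x - φ y_1 y)‖ ^ 2) ^ (2 * 2 ^ n) =
        ∑ i1 ∈ range V, ∑ i2 ∈ range V,
          ‖∑ y ∈ range (min (u i1) (u i2)), ex (φ y i1 - φ y i2)‖ ^ (2 ^ (n + 1 + 1)) := by
      refine Finset.sum_congr rfl fun i1 _ => Finset.sum_congr rfl fun i2 _ => ?_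
      rw [← pow_mul]
      congr 1
      ring
    have e3 : (2 : ℝ) ^ (2 ^ (n + 1 + 1) - 2) * (U : ℝ) ^ (2 ^ (n + 1 + 1) - (n + 1 + 2)) * R =
        2 ^ (4 * 2 ^ n - 2) * (U : ℝ) ^ (4 * 2 ^ n - (n + 3)) * R := by rw [hpow2]
    exact (le_of_eq e2).trans (hgw'.trans (le_of_eq e3))
  have hms' := hms
  obtain ⟨-, hmono, -, hsc, hpm, hrl, -, hRL⟩ := hms
  have hR0 : 0 ≤ R := (hpm (n + 1) U 0 _ (fun a b => Finset.sum_nonneg fun _ _ =>
    Finset.sum_nonneg fun _ _ => sq_nonneg _) 0 1).1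
  -- the second step
  set Θ : ℝ := ((n + 2).factorial : ℝ) ^ 2 * f.coeff (n + 2) * (Q : ℝ) ^ (2 * (n + 2)) with hΘ
  have s2 : R ^ (2 ^ n) ≤ ((U : ℝ) ^ (n + 1)) ^ (2 ^ n - 1) *
      ((((U : ℝ) ^ 2) ^ (2 ^ n - 1) * (2 ^ (2 * 2 ^ n - 1) *
        (V : ℝ) ^ (2 * 2 ^ n - (n + 2)) * (2 * U))) * GG (n + 2) U V Θ) := by
    have h3 := (hpm (n + 1) U (2 ^ n - 1) (fun s p => ∑ y1 ∈ range U, ∑ y2 ∈ range U,
      ‖∑ i ∈ (range V).filter (fun i => y1 + s < u i ∧ y2 + s < u i),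
        ex (((n + 1 + 1).factorial : ℝ) * p * c i * ((y1 : ℝ) - y2))‖ ^ 2)
      (fun a b => Finset.sum_nonneg fun _ _ =>
        Finset.sum_nonneg fun _ _ => sq_nonneg _) 0 1).2
    rw [Nat.sub_add_cancel Nat.one_le_two_pow] at h3
    refine h3.trans ?_
    apply mul_le_mul_of_nonneg_left _ (by positivity)
    refine (hmono (n + 1) U _ (fun _ b => (((U : ℝ) ^ 2) ^ (2 ^ n - 1) *
      (2 ^ (2 ^ (n + 1) - 1) * (V : ℝ) ^ (2 ^ (n + 1) - (n + 2)) * (2 * U))) *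
      RL (U :: List.replicate (n + 1) V) V (b * Θ)) (fun s p => ?_) 0 1).trans ?_
    · exact T_inner hms' n (f.coeff (n + 2)) Q l0 U V s p u hanti hU hV
    · rw [hsc, hrl, T_list, hpow1]
      apply le_of_eq
      congr 1
      rw [Nat.cast_one, one_mul]
      rfl
  have hfin := T_fin (2 ^ n) n U V R (TT f Q m0 l0 U V Y) (GG (n + 2) U V Θ)
    Nat.one_le_two_pow (by omega) (by positivity) (by positivity) hR0 hTT0 s1 s2
  have e1 : 2 ^ (2 * (n + 2) - 3) = 2 * 2 ^ n * 2 ^ n := by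
    have : 2 * (n + 2) - 3 = 1 + n + n := by omega
    rw [this, pow_add, pow_add, pow_one]
  have e2 : 2 ^ (2 * (n + 2) - 2) = 4 * 2 ^ n * 2 ^ n := by
    have : 2 * (n + 2) - 2 = 2 + n + n := by omega
    rw [this, pow_add, pow_add]
    norm_num
  rw [e1, e2]
  push_cast
  exact hfin

end Pool.Agent.HC.W
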