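import Pool.Agent.Lib.MP_0da313_nt.HC.F
import Pool.Agent.Lib.MP_0da313_nt.NC.R.cn

set_option autoImplicit false

/-!
[HF cn4]: the final count for a good `n`.
-/

namespace Pool.Agent.HC.F

open Finset Filter Polynomial
open Pool.Agent.MP89da58 (bil pw nn supp part kapD tri mem_part)
open Pool.Agent.MT (PJf dvI ZI)
open Pool.Agent.BVall (om PK lev RepB Dens mem_PK)
open Pool.Agent.Lib.MP_0da313_nt (Admissible lineRestrict val singV W small)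
open Pool.Agent.CH (thP)
open Pool.Agent.CM (z0)
open Pool.Agent.CM.F (Pre)
open Pool.Agent.TC (wN)
open Pool.Agent.TC.W (qf WP2)
open Pool.Agent.TC.F (tc_cn2_thP_nonneg tc_cn2_thP_prime tc_cn2_link tc_cn2_core tc_cn2_e12
  tc_cn2_e1)
open Pool.Agent.NC (Hn Bn ErS)
open Pool.Agent.NC.F (ns_cn_num ns_cn_V ns_cn_V1 ns_cn_H)
open Pool.Agent.NC.Q (qr od)
open Pool.Agent.NC.A (sl Par3)
open Pool.Agent.NC.M (mN)
open Pool.Agent.HC (Fam2 ErS2 DN2 rn2 rp2 Wt4)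

/-- The combinatorial core with a weight function. -/
theorem cn4_core (S : Finset ℕ) (h a b Z : ℕ → ℝ) {A1 A2 Zm r1 r2 : ℝ}
    (hh : ∀ x ∈ S, 0 ≤ h x ∧ h x ≤ 1) (ha : ∀ x ∈ S, h x ≠ 0 → 0 ≤ a x ∧ a x ≤ A1)
    (hb : ∀ x ∈ S, h x ≠ 0 → 0 ≤ b x ∧ b x ≤ A2)
    (hZ : ∀ x ∈ S, h x ≠ 0 → 0 ≤ Z x ∧ Z x ≤ Zm) (hr1 : 0 ≤ r1) (hr2 : 0 ≤ r2) :
    ∑ x ∈ S, a x * b x * (h x * Z x) - r1 * ∑ x ∈ S, b x * (h x * Z x) -
      r2 * ∑ x ∈ S, a x * (h x * Z x) ≤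
      A1 * A2 * Zm * ((S.filter (fun x => h x ≠ 0 ∧ r1 < a x ∧ r2 < b x)).card : ℝ) := by
  classical
  have h1 := tc_cn2_core (S.filter (fun x => h x ≠ 0)) a b (fun x => h x * Z x) (A1 := A1)
    (A2 := A2) (Zm := Zm) (r1 := r1) (r2 := r2)
    (fun x hx => by
      rw [Finset.mem_filter] at hx
      exact ha x hx.1 hx.2)
    (fun x hx => by
      rw [Finset.mem_filter] at hx
      exact hb x hx.1 hx.2)
    (fun x hx => by
      rw [Finset.mem_filter] at hx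
      obtain ⟨z0, z1⟩ := hZ x hx.1 hx.2
      obtain ⟨b0, b1⟩ := hh x hx.1
      refine ⟨mul_nonneg b0 z0, ?_⟩
      calc h x * Z x ≤ 1 * Z x := mul_le_mul_of_nonneg_right b1 z0
        _ = Z x := one_mul _
        _ ≤ Zm := z1) hr1 hr2
  rw [Finset.filter_filter] at h1
  have e : ∀ f : ℕ → ℝ, (∀ x, h x = 0 → f x = 0) →
      ∑ x ∈ S.filter (fun x => h x ≠ 0), f x = ∑ x ∈ S, f x := by
    intro f hf
    rw [Finset.sum_filter]
    apply Finset.sum_congr rfl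
    intro x _
    by_cases h0 : h x = 0
    · rw [if_neg (by tauto), hf x h0]
    · rw [if_pos h0]
  rw [e _ (fun x hx => by rw [hx]; ring), e _ (fun x hx => by rw [hx]; ring),
    e _ (fun x hx => by rw [hx]; ring)] at h1
  exact h1

theorem p_cn4 : S_cn4 := by
  classical
  intro hnu hla hqp hwin hmas _ _ hwin2 hT4 hU1 hU2 hwm hpre ι κ _ _ _ _ _ _ D d E B0 B t0 hD hd
    hE hB0 ht0
  obtain ⟨K1, hK1⟩ : ∃ K : ℝ, K = (Fintype.card ι : ℝ) := ⟨_, rfl⟩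
  obtain ⟨K2, hK2⟩ : ∃ K : ℝ, K = (Fintype.card κ : ℝ) := ⟨_, rfl⟩
  have hK11 : 1 ≤ K1 := by
    rw [hK1]
    exact_mod_cast Fintype.card_pos
  have hK21 : 1 ≤ K2 := by
    rw [hK2]
    exact_mod_cast Fintype.card_pos
  obtain ⟨Zm, hZm⟩ : ∃ Z : ℝ, Z = (2 ^ (Fintype.card (ι ⊕ κ) * (B0 + 1)) * ((B : ℝ) + 1)) ^ 2 :=
    ⟨_, rfl⟩
  have hZm0 : 0 < Zm := by rw [hZm]; positivity
  have hdr : (2 : ℝ) ≤ d := by exact_mod_cast hd
  have hEr : (1 : ℝ) ≤ E := by exact_mod_cast hE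
  refine ⟨t0 ^ 2 / (16 * d * Zm * (10000 * d * E)), by positivity, ?_⟩
  intro H B1 hB1
  obtain ⟨c1, hc1⟩ : ∃ c : ℝ, c = ∏ p ∈ small (2 * D), (1 / (p : ℝ)) := ⟨_, rfl⟩
  have hc1pos : 0 < c1 := by
    rw [hc1]
    apply Finset.prod_pos
    intro p hp
    have hpp : p.Prime := (Finset.mem_filter.mp hp).2
    have : (0 : ℝ) < p := by exact_mod_cast hpp.pos
    positivity
  have hCC : 1 ≤ 10000 * d * E := by
    have : 0 < 10000 * d * E := by positivity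
    omega
  obtain ⟨Er, hErd⟩ : ∃ E : ℝ, E = K1 * K2 * (1 + 3 * (B : ℝ) ^ 2) + K1 * (1 + 3 * (B : ℝ) ^ 2) +
    K2 + 1 + K1 * K2 + K1 := ⟨_, rfl⟩
  have hBsq : 0 ≤ (B : ℝ) ^ 2 := sq_nonneg _
  have hEr0 : 0 ≤ Er := by rw [hErd]; positivity
  obtain ⟨l0, hnu⟩ := hnu D d (10000 * d * E) K1 K2 c1 t0 Er (by omega) hCC hK11 hK21 hc1pos ht0
    hEr0
  obtain ⟨-, C, hC1, hwin⟩ := hwin ι D d E H.F
  have hCr : (1 : ℝ) ≤ C := by exact_mod_cast hC1
  obtain ⟨K, hKK, hla⟩ := hla ι κ D d E H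
  obtain ⟨Z0, hZ0⟩ := eventually_atTop.1 hla
  have hcast : Tendsto (fun n : ℕ => (n : ℝ)) atTop atTop := tendsto_natCast_atTop_atTop
  have evlog : ∀ᶠ n : ℕ in atTop, max l0 1 ≤ Real.log n :=
    hcast.eventually (Real.tendsto_log_atTop.eventually_ge_atTop _)
  have ev1 : ∀ᶠ n : ℕ in atTop, (C : ℝ) * (n : ℝ) ^ (1 / 10000 : ℝ) < n := by
    filter_upwards [eventually_ge_atTop (C ^ 2 + 1)] with n hn
    have hn' : ((C : ℝ)) ^ 2 + 1 ≤ n := by exact_mod_cast hn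
    have hn1 : (1 : ℝ) ≤ n := by nlinarith [sq_nonneg (C : ℝ)]
    have e1 : (n : ℝ) ^ (1 / 10000 : ℝ) ≤ Real.sqrt n := by
      rw [Real.sqrt_eq_rpow]
      exact Real.rpow_le_rpow_of_exponent_le hn1 (by norm_num)
    have e2 : (C : ℝ) < Real.sqrt n := by
      apply Real.lt_sqrt_of_sq_lt
      linarith
    have e3 : Real.sqrt n * Real.sqrt n = n := Real.mul_self_sqrt (by linarith)
    have e4 : 0 < Real.sqrt n := by linarith
    calc (C : ℝ) * (n : ℝ) ^ (1 / 10000 : ℝ) ≤ C * Real.sqrt n :=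
          mul_le_mul_of_nonneg_left e1 (by linarith)
      _ < Real.sqrt n * Real.sqrt n := mul_lt_mul_of_pos_right e2 e4
      _ = n := e3
  filter_upwards [hwin, hmas ι D d E H.F, hwin2 ι κ D d E H,
    hT4 ι κ D d E H B0 B B1 (8 * D + 8) hD hB0 hB1,
    hU1 ι κ D d E H B0 B B1 (8 * D + 8) hD hB0 hB1,
    hU2 ι κ D d E H B0 B (8 * D + 8) hD hB0, hwm ι κ D d E H B0 B hD hB0, evlog, ev1,
    ns_cn_H d (by omega), eventually_ge_atTop (Z0 ^ B0 + 2)]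
    with N hwin hmas hwin2 hT4 hU1 hU2 hwm evlog ev1 hH hNN
  intro n hnI n' P hPar hl2 τ₁ τ₂ g g1 g2 g12 a₁ a₂ β₁ β₂ hS hτ1a hτ1b hτ2a hτ2b hErr2 hErr1
    hq1 hq2 hq12 hsl
  obtain ⟨hN0, hwin⟩ := hwin
  have hwin := hwin n hnI
  obtain ⟨hwh, -, hm1, hm2⟩ := hmas
  have hT4 := hT4 n hnI n' P hPar
  have hU1 := hU1 n hnI n' P hPar
  have hU2 := hU2 n hnI n' P hPar
  have hwm := hwm n hnI n' P hPar
  obtain ⟨hH1, hHN, hH2, hH3⟩ := hH
  have hl0 : l0 ≤ Real.log N := (le_max_left _ _).trans evlog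
  have hlog1 : 1 ≤ Real.log N := (le_max_right _ _).trans evlog
  have hnN0 : H.F.N0 ≤ n := by
    have := (Finset.mem_Ioc.1 hnI).1
    omega
  have hNR : (1 : ℝ) ≤ N := by
    have : 1 ≤ N := by omega
    exact_mod_cast this
  obtain ⟨Fp, Fm, hFp, hFm, hpt, hmt⟩ := hpre (2 * D) (by omega) n'
  have hPre : Pre D n' Fp Fm := ⟨hFp, hFm, hpt, hmt⟩
  -- `z` is large
  have hZz : Z0 ≤ z0 D n' := by
    by_contra hc
    have h1 : z0 D n' ^ B0 ≤ Z0 ^ B0 := Nat.pow_le_pow_left (not_le.1 hc).le _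
    have h2 := hPar.hzB
    omega
  have hlaP := (hZ0 (z0 D n') hZz).2 P (fun p hp => ⟨(hPar.hP p hp).1, (hPar.hP p hp).2.1⟩)
  obtain ⟨hLd1, hLd2, hsum1, hsum2, -, -, hexc⟩ := hlaP
  have hexc := hexc n
  have hqn : ∀ g : (PJf P → Option (ι ⊕ κ)) → ℝ, 0 ≤ qr (rn2 H P n) g := fun g =>
    hqp (ι ⊕ κ) (PJf P) (rn2 H P n) g (fun j l => hLd1.nn n j l) (hsum1 n)
  have hqp' : ∀ g : (PJf P → Option (ι ⊕ κ)) → ℝ, 0 ≤ qr (rp2 H P n) g := fun g =>
    hqp (ι ⊕ κ) (PJf P) (rp2 H P n) g (fun j l => hLd2.nn n j l) (hsum2 n)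
  have hzlev := CM.F.cnt_z_le_lev D n'
  have hz1 := CM.F.cnt_z_pos D n'
  have hlev1 : (1 : ℝ) ≤ lev (2 * D) n' := by exact_mod_cast hz1.trans hzlev
  have hzlevR : (z0 D n' : ℝ) ≤ lev (2 * D) n' := by exact_mod_cast hzlev
  have hz2 : 2 ≤ z0 D n' := by
    unfold z0
    calc 2 = 2 ^ 1 := rfl
      _ ≤ _ := Nat.pow_le_pow_right (by norm_num) Nat.one_le_two_pow
  have hHR : (1 : ℝ) ≤ Hn d N := by exact_mod_cast hH1
  have hHNR : (Hn d N : ℝ) ≤ N := by exact_mod_cast hHN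
  have hHe : (Hn d N : ℝ) ^ (1 / 10000 : ℝ) ≤ (N : ℝ) ^ (1 / 10000 : ℝ) :=
    Real.rpow_le_rpow (by linarith) hHNR (by norm_num)
  have hzn : (z0 D n' : ℝ) ≤ N := by
    calc (z0 D n' : ℝ) ≤ lev (2 * D) n' := hzlevR
      _ = (lev (2 * D) n' : ℝ) ^ 1 := (pow_one _).symm
      _ ≤ (lev (2 * D) n' : ℝ) ^ 3 := pow_le_pow_right₀ hlev1 (by omega)
      _ ≤ (Hn d N : ℝ) ^ (1 / 10000 : ℝ) := hPar.hlev
      _ ≤ (N : ℝ) ^ (1 / 10000 : ℝ) := hHe
      _ ≤ (N : ℝ) ^ (1 : ℝ) := Real.rpow_le_rpow_of_exponent_le hNR (by norm_num)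
      _ = N := Real.rpow_one _
  obtain ⟨k, hk⟩ : ∃ k : ℝ, k = kapD (z0 D n') := ⟨_, rfl⟩
  have hk0 : 0 < k := by
    rw [hk]
    exact Pool.Agent.MT.kapD_pos _
  have hmer : 1 ≤ 1000 * (k * Real.log N) := by
    have e1 := Pool.Agent.MT.mertens (z0 D n') hz2
    rw [← hk] at e1
    have e2 : Real.log (z0 D n') ≤ Real.log N := by
      apply Real.log_le_log _ hzn
      exact_mod_cast (by omega : 0 < z0 D n')
    calc (1 : ℝ) ≤ 1000 * k * Real.log (z0 D n') := e1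
      _ ≤ 1000 * k * Real.log N := mul_le_mul_of_nonneg_left e2 (by positivity)
      _ = _ := by ring
  have hVlo : c1 / (Real.log N) ^ (8 * D) ≤ H.F.V n n' := by
    have e1 := ns_cn_V H.F hD hnN0 hl2
    rw [← hc1] at e1
    refine le_trans (le_of_eq ?_) e1
    ring
  have hV1 := ns_cn_V1 H.F (n' := n') hnN0
  have hV0 : 0 ≤ H.F.V n n' := le_trans (by positivity) hVlo
  have hτ1p : 0 < τ₁ := lt_of_lt_of_le ht0 hτ1a
  have hτ2p : 0 < τ₂ := lt_of_lt_of_le ht0 hτ2a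
  -- logarithm of `H`
  have hh0 : 0 < Real.log (Hn d N) := by
    by_contra hc
    have h1 : 2 * (d : ℝ) * Real.log (Hn d N) ≤ 0 :=
      mul_nonpos_of_nonneg_of_nonpos (by positivity) (not_lt.1 hc)
    linarith
  have hH1' : (1 : ℝ) < Hn d N := by
    rcases lt_or_eq_of_le hHR with h | h
    · exact h
    · rw [← h, Real.log_one] at hh0
      exact absurd hh0 (lt_irrefl _)
  -- the points
  obtain ⟨X, hX⟩ : ∃ X : Finset ℕ,
    X = (Icc 1 (Hn d N)).filter (fun x : ℕ => H.F.Rg n (z0 D n') x) := ⟨_, rfl⟩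
  have hXm : ∀ x ∈ X, x ∈ Icc 1 (Hn d N) ∧ H.F.Rg n (z0 D n') x := by
    intro x hx
    rw [hX, Finset.mem_filter] at hx
    exact hx
  have hX1 : ∀ x ∈ X, 1 ≤ x := fun x hx => (Finset.mem_Icc.1 (hXm x hx).1).1
  obtain ⟨θ, hθ⟩ : ∃ θ : ι → ℕ → ℝ, θ = fun l (x : ℕ) => thP (H.F.L n l (x : ℤ)).toNat :=
    ⟨_, rfl⟩
  obtain ⟨η, hη⟩ : ∃ η : κ → ℕ → ℝ, η = fun j (x : ℕ) => thP (H.M j (x : ℤ)).toNat := ⟨_, rfl⟩
  have hθ0 : ∀ l x, 0 ≤ θ l x := fun l x => by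
    rw [hθ]
    exact tc_cn2_thP_nonneg _
  have hη0 : ∀ l x, 0 ≤ η l x := fun l x => by
    rw [hη]
    exact tc_cn2_thP_nonneg _
  obtain ⟨Z, hZ⟩ : ∃ Z : ℕ → ℝ, Z = fun x : ℕ => ZI (DN2 H P n) g (x : ℤ) ^ 2 := ⟨_, rfl⟩
  have hwmX : ∀ x ∈ X, H.F.wh N x ≠ 0 → (∀ l, θ l x ≤ 2 * Real.log N) ∧
      (∀ j, η j x ≤ 2 * Real.log (Hn d N)) ∧ Z x ≤ Zm := by
    intro x hx hx0
    obtain ⟨e1, e2, e3⟩ := hwm g hS.bd x (hX1 x hx) hx0 (hXm x hx).2
    refine ⟨fun l => ?_, fun j => ?_, ?_⟩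
    · rw [hθ]
      exact e1 l
    · rw [hη]
      exact e2 j
    · rw [hZ, hZm]
      refine e3.trans ?_
      apply pow_le_pow_left₀ (by positivity)
      exact mul_le_mul_of_nonneg_left (by linarith) (by positivity)
  have hlarge : ∀ x ∈ X, H.F.wh N x ≠ 0 → ∀ l,
      (Hn d N : ℝ) ^ (1 / 10000 : ℝ) < H.F.L n l (x : ℤ) := by
    intro x hx hx0 l
    obtain ⟨-, -, -, e1⟩ := hwin x (hX1 x hx) hx0
    have e2 := (e1 l).1
    have e4 : (C : ℝ) * (N : ℝ) ^ (1 / 10000 : ℝ) < C * H.F.L n l (x : ℤ) := ev1.trans_le e2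
    exact hHe.trans_lt (lt_of_mul_lt_mul_left e4 (by linarith))
  have hlarge2 : ∀ x ∈ X, H.F.wh N x ≠ 0 → ∀ j,
      (Hn d N : ℝ) ^ (1 / 10000 : ℝ) < H.M j (x : ℤ) := by
    intro x hx hx0 j
    have e1 := (hwin2 x (hX1 x hx) hx0 j).1
    refine lt_of_lt_of_le ?_ e1
    exact Real.rpow_lt_rpow_of_exponent_lt hH1' (by norm_num)
  have hPp : ∀ p ∈ P, p.Prime ∧ (p : ℝ) ≤ (Hn d N : ℝ) ^ (1 / 10000 : ℝ) := fun p hp =>
    ⟨(hPar.hP p hp).1, (hPar.hP p hp).2.2⟩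
  have hlk1 : ∀ x ∈ X, H.F.wh N x ≠ 0 → ∀ l, θ l x ≠ 0 →
      ∀ p : PJf P, ¬ DN2 H P n p (Sum.inl l) (x : ℤ) := by
    intro x hx hx0 l h0 p hp
    rw [hθ] at h0
    exact tc_cn2_link h0 hPp (hlarge x hx hx0 l) p p.2 hp.1
  have hlk2 : ∀ x ∈ X, H.F.wh N x ≠ 0 → ∀ j, η j x ≠ 0 →
      ∀ p : PJf P, ¬ DN2 H P n p (Sum.inr j) (x : ℤ) := by
    intro x hx hx0 j h0 p hp
    rw [hη] at h0
    exact tc_cn2_link h0 hPp (hlarge2 x hx hx0 j) p p.2 hp.1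
  have hexx : ∀ x : ℕ, ∀ (p : PJf P) (s s' : ι ⊕ κ), s ≠ s' →
      ¬ (DN2 H P n p s (x : ℤ) ∧ DN2 H P n p s' (x : ℤ)) := fun x p s s' hs => hexc p s s' _ hs
  obtain ⟨ε, hε⟩ : ∃ ε : ℝ, ε = (N : ℝ) ^ (1 / (d : ℝ)) / Real.log N ^ (8 * D + 8) := ⟨_, rfl⟩
  have hε0 : 0 ≤ ε := by rw [hε]; positivity
  obtain ⟨δ, hδ⟩ : ∃ δ : ℝ, δ = 1 / Real.log N ^ (8 * D + 8) := ⟨_, rfl⟩
  have hδ0 : 0 ≤ δ := by rw [hδ]; positivity
  have hm0 : 0 ≤ mN H.F N := by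
    unfold NC.M.mN
    exact Finset.sum_nonneg fun x _ => (hwh x).1
  -- the three sums
  have hT : 8 / 10 * (mN H.F N * (H.F.V n n' / k ^ 2)) *
      (∑ i, ∑ j, qr (rp2 H P n) (g12 i j)) - Er * ε ≤
      ∑ x ∈ X, (∑ i, θ i x) * (∑ j, η j x) * (H.F.wh N x * Z x) := by
    rw [tc_cn2_e12 X θ η (fun x => H.F.wh N x * Z x)
      (fun i j (x : ℕ) => H.F.wh N x * ZI (DN2 H P n) (g12 i j) (x : ℤ) ^ 2) (by
        intro i j x hx
        by_cases h0 : H.F.wh N x = 0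
        · simp only [h0, zero_mul]
        by_cases h1 : θ i x = 0
        · simp only [h1, zero_mul]
        by_cases h2 : η j x = 0
        · simp only [h2, mul_zero, zero_mul]
        rw [hZ]
        simp only
        rw [hS.l12 i j (DN2 H P n) (x : ℤ) (hexx x) (hlk1 x hx h0 i h1) (hlk2 x hx h0 j h2)])]
    have e1 : ∀ i j, 8 / 10 * (mN H.F N * (H.F.V n n' / k ^ 2)) * qr (rp2 H P n) (g12 i j) -
        (1 + 3 * (B : ℝ) ^ 2) * ε ≤
        ∑ x ∈ X, θ i x * η j x * (H.F.wh N x * ZI (DN2 H P n) (g12 i j) (x : ℤ) ^ 2) := by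
      intro i j
      have e2 := hT4 Fp Fm hPre i j (g12 i j) (hS.w12 i j).1 (hS.w12 i j).2 (hqp' _)
        (by linarith [(abs_le.1 (hsl i)).1])
      rw [← hk, ← hX, ← hε] at e2
      have e3 := hErr2 i j
      rw [← hε] at e3
      have e5 : 3 * (B : ℝ) ^ 2 * ErS2 H N (wN B1 N) n (6 * Fintype.card (ι ⊕ κ)) i j ≤
          3 * (B : ℝ) ^ 2 * ε := mul_le_mul_of_nonneg_left e3 (by positivity)
      have e6 : ∑ x ∈ X, θ i x * η j x * (H.F.wh N x * ZI (DN2 H P n) (g12 i j) (x : ℤ) ^ 2) =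
          ∑ x ∈ X, H.F.wh N x * (thP (H.F.L n i (x : ℤ)).toNat * thP (H.M j (x : ℤ)).toNat *
            ZI (DN2 H P n) (g12 i j) (x : ℤ) ^ 2) := by
        rw [hθ, hη]
        apply Finset.sum_congr rfl
        intro x _
        ring
      rw [e6]
      linarith
    have e7 := Finset.sum_le_sum (s := (univ : Finset ι)) (fun i _ =>
      Finset.sum_le_sum (s := (univ : Finset κ)) (fun j _ => e1 i j))
    refine le_trans ?_ e7
    simp only [Finset.sum_sub_distrib, ← Finset.mul_sum, Finset.sum_const, Finset.card_univ,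
      nsmul_eq_mul]
    rw [← hK1, ← hK2]
    have e9 : Er * ε = K1 * (K2 * ((1 + 3 * (B : ℝ) ^ 2) * ε)) +
        (K1 * (1 + 3 * (B : ℝ) ^ 2) + K2 + 1 + K1 * K2 + K1) * ε := by
      rw [hErd]; ring
    have e10 : 0 ≤ (K1 * (1 + 3 * (B : ℝ) ^ 2) + K2 + 1 + K1 * K2 + K1) * ε := by positivity
    linarith
  have hT1 : ∑ x ∈ X, (∑ i, θ i x) * (H.F.wh N x * Z x) ≤
      11 / 10 * (mN H.F N * (H.F.V n n' / k)) * (∑ i, qr (rn2 H P n) (g1 i)) + Er * ε := by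
    rw [tc_cn2_e1 X θ (fun x => H.F.wh N x * Z x)
      (fun i (x : ℕ) => H.F.wh N x * ZI (DN2 H P n) (g1 i) (x : ℤ) ^ 2) (by
        intro i x hx
        by_cases h0 : H.F.wh N x = 0
        · simp only [h0, zero_mul]
        by_cases h1 : θ i x = 0
        · simp only [h1, zero_mul]
        rw [hZ]
        simp only
        rw [hS.l1 i (DN2 H P n) (x : ℤ) (hexx x) (hlk1 x hx h0 i h1)])]
    have e1 : ∀ i, ∑ x ∈ X, θ i x * (H.F.wh N x * ZI (DN2 H P n) (g1 i) (x : ℤ) ^ 2) ≤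
        11 / 10 * (mN H.F N * (H.F.V n n' / k)) * qr (rn2 H P n) (g1 i) +
          (1 + 3 * (B : ℝ) ^ 2) * ε := by
      intro i
      have e2 := hU1 Fp Fm hPre i (g1 i) (hS.w1 i).1 (hS.w1 i).2 (hqn _)
        (abs_le.1 (hsl i)).2
      rw [← hk, ← hX, ← hε] at e2
      have e3 := hErr1 i
      rw [← hε] at e3
      have e5 : 3 * (B : ℝ) ^ 2 * ErS H.F N (wN B1 N) n (6 * Fintype.card (ι ⊕ κ)) i ≤
          3 * (B : ℝ) ^ 2 * ε := mul_le_mul_of_nonneg_left e3 (by positivity)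
      have e6 : ∑ x ∈ X, θ i x * (H.F.wh N x * ZI (DN2 H P n) (g1 i) (x : ℤ) ^ 2) =
          ∑ x ∈ X, H.F.wh N x * (thP (H.F.L n i (x : ℤ)).toNat *
            ZI (DN2 H P n) (g1 i) (x : ℤ) ^ 2) := by
        rw [hθ]
        apply Finset.sum_congr rfl
        intro x _
        ring
      rw [e6]
      linarith
    refine (Finset.sum_le_sum (fun i _ => e1 i)).trans ?_
    simp only [Finset.sum_add_distrib, ← Finset.mul_sum, Finset.sum_const, Finset.card_univ,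
      nsmul_eq_mul]
    rw [← hK1]
    have e9 : Er * ε = K1 * ((1 + 3 * (B : ℝ) ^ 2) * ε) +
        (K1 * K2 * (1 + 3 * (B : ℝ) ^ 2) + K2 + 1 + K1 * K2 + K1) * ε := by
      rw [hErd]; ring
    have e10 : 0 ≤ (K1 * K2 * (1 + 3 * (B : ℝ) ^ 2) + K2 + 1 + K1 * K2 + K1) * ε := by positivity
    linarith
  have hT2 : ∑ x ∈ X, (∑ j, η j x) * (H.F.wh N x * Z x) ≤
      11 / 10 * (mN H.F N * (H.F.V n n' / k)) * (∑ j, qr (rp2 H P n) (g2 j)) + Er * ε := by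
    rw [tc_cn2_e1 X η (fun x => H.F.wh N x * Z x)
      (fun j (x : ℕ) => H.F.wh N x * ZI (DN2 H P n) (g2 j) (x : ℤ) ^ 2) (by
        intro j x hx
        by_cases h0 : H.F.wh N x = 0
        · simp only [h0, zero_mul]
        by_cases h1 : η j x = 0
        · simp only [h1, zero_mul]
        rw [hZ]
        simp only
        rw [hS.l2 j (DN2 H P n) (x : ℤ) (hexx x) (hlk2 x hx h0 j h1)])]
    have e1 : ∀ j, ∑ x ∈ X, η j x * (H.F.wh N x * ZI (DN2 H P n) (g2 j) (x : ℤ) ^ 2) ≤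
        11 / 10 * (mN H.F N * (H.F.V n n' / k)) * qr (rp2 H P n) (g2 j) + ε := by
      intro j
      have e2 := hU2 Fp Fm hPre j (g2 j) (hS.w2 j).1 (hS.w2 j).2 (hqp' _)
      rw [← hk, ← hX, ← hε] at e2
      have e6 : ∑ x ∈ X, η j x * (H.F.wh N x * ZI (DN2 H P n) (g2 j) (x : ℤ) ^ 2) =
          ∑ x ∈ X, H.F.wh N x * (thP (H.M j (x : ℤ)).toNat *
            ZI (DN2 H P n) (g2 j) (x : ℤ) ^ 2) := by
        rw [hη]
        apply Finset.sum_congr rfl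
        intro x _
        ring
      rw [e6]
      exact e2
    refine (Finset.sum_le_sum (fun j _ => e1 j)).trans ?_
    simp only [Finset.sum_add_distrib, ← Finset.mul_sum, Finset.sum_const, Finset.card_univ,
      nsmul_eq_mul]
    rw [← hK2]
    have e9 : Er * ε = K2 * ε + (K1 * K2 * (1 + 3 * (B : ℝ) ^ 2) + K1 * (1 + 3 * (B : ℝ) ^ 2) +
        1 + K1 * K2 + K1) * ε := by
      rw [hErd]; ring
    have e10 : 0 ≤ (K1 * K2 * (1 + 3 * (B : ℝ) ^ 2) + K1 * (1 + 3 * (B : ℝ) ^ 2) +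
        1 + K1 * K2 + K1) * ε := by positivity
    linarith
  -- the quadratic forms
  have hs12 : β₁ * β₂ - Er * δ ≤ ∑ i, ∑ j, qr (rp2 H P n) (g12 i j) := by
    have e1 := hS.s12
    rw [← hδ] at e1
    have e2 : ∀ i j, qf (g12 i j) - δ ≤ qr (rp2 H P n) (g12 i j) := by
      intro i j
      have e3 := (abs_le.1 (hq12 i j)).1
      rw [← hδ] at e3
      linarith
    have e7 := Finset.sum_le_sum (s := (univ : Finset ι)) (fun i _ =>
      Finset.sum_le_sum (s := (univ : Finset κ)) (fun j _ => e2 i j))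
    refine le_trans ?_ e7
    simp only [Finset.sum_sub_distrib, Finset.sum_const, Finset.card_univ, nsmul_eq_mul]
    rw [← hK1, ← hK2]
    have e9 : Er * δ = δ + K1 * (K2 * δ) + (K1 * K2 * (1 + 3 * (B : ℝ) ^ 2) +
        K1 * (1 + 3 * (B : ℝ) ^ 2) + K2 + K1) * δ := by
      rw [hErd]; ring
    have e10 : 0 ≤ (K1 * K2 * (1 + 3 * (B : ℝ) ^ 2) +
        K1 * (1 + 3 * (B : ℝ) ^ 2) + K2 + K1) * δ := by positivity
    linarith
  have hs1 : ∑ i, qr (rn2 H P n) (g1 i) ≤ β₁ * (2 * a₂) + Er * δ := by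
    have e1 := hS.s1
    rw [← hδ] at e1
    have e2 : ∀ i, qr (rn2 H P n) (g1 i) ≤ qf (g1 i) + δ := by
      intro i
      have e3 := (abs_le.1 (hq1 i)).2
      rw [← hδ] at e3
      linarith
    refine (Finset.sum_le_sum (fun i _ => e2 i)).trans ?_
    simp only [Finset.sum_add_distrib, Finset.sum_const, Finset.card_univ, nsmul_eq_mul]
    rw [← hK1]
    have e9 : Er * δ = δ + K1 * δ + (K1 * K2 * (1 + 3 * (B : ℝ) ^ 2) +
        K1 * (1 + 3 * (B : ℝ) ^ 2) + K2 + K1 * K2) * δ := by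
      rw [hErd]; ring
    have e10 : 0 ≤ (K1 * K2 * (1 + 3 * (B : ℝ) ^ 2) +
        K1 * (1 + 3 * (B : ℝ) ^ 2) + K2 + K1 * K2) * δ := by positivity
    linarith
  have hs2 : ∑ j, qr (rp2 H P n) (g2 j) ≤ 2 * a₁ * β₂ + Er * δ := by
    have e1 := hS.s2
    rw [← hδ] at e1
    have e2 : ∀ j, qr (rp2 H P n) (g2 j) ≤ qf (g2 j) + δ := by
      intro j
      have e3 := (abs_le.1 (hq2 j)).2
      rw [← hδ] at e3
      linarith
    refine (Finset.sum_le_sum (fun j _ => e2 j)).trans ?_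
    simp only [Finset.sum_add_distrib, Finset.sum_const, Finset.card_univ, nsmul_eq_mul]
    rw [← hK2]
    have e9 : Er * δ = δ + K2 * δ + (K1 * K2 * (1 + 3 * (B : ℝ) ^ 2) +
        K1 * (1 + 3 * (B : ℝ) ^ 2) + K1 * K2 + K1) * δ := by
      rw [hErd]; ring
    have e10 : 0 ≤ (K1 * K2 * (1 + 3 * (B : ℝ) ^ 2) +
        K1 * (1 + 3 * (B : ℝ) ^ 2) + K1 * K2 + K1) * δ := by positivity
    linarith
  have hb1 := hS.b1
  have hb2 := hS.b2
  rw [← hK1, ← hk] at hb1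
  rw [← hK2, ← hk] at hb2
  have hEd : Er * δ = Er / Real.log N ^ (8 * D + 8) := by
    rw [hδ]; ring
  rw [hEd] at hs12 hs1 hs2
  rw [hε] at hT hT1 hT2
  have key := hnu (Real.log N) (Real.log (Hn d N)) (mN H.F N) ((N : ℝ) ^ (1 / (d : ℝ)))
    (H.F.V n n') k τ₁ τ₂ a₁ a₂ β₁ β₂ _ _ _ _ _ _ hl0 hH2 hH3 hm0 hm2 (by push_cast; exact hm1)
    hVlo hV1 hk0 hmer hτ1a hτ2a hτ1b hτ2b hS.a1 hS.a2 hb1 hb2 hs12 hs1 hs2 hT hT1 hT2
  -- the points with many primes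
  have hcore := cn4_core X (fun x => H.F.wh N x) (fun x => ∑ i, θ i x) (fun x => ∑ j, η j x) Z
    (A1 := 4 * d * K1 * Real.log (Hn d N)) (A2 := 2 * K2 * Real.log (Hn d N)) (Zm := Zm)
    (r1 := K1 * τ₁ * Real.log (Hn d N) / 100) (r2 := K2 * τ₂ * Real.log (Hn d N) / 100)
    (fun x _ => hwh x)
    (fun x hx hx0 => ⟨Finset.sum_nonneg fun l _ => hθ0 l x, by
      calc ∑ l, θ l x ≤ ∑ _l : ι, 2 * Real.log N :=
            Finset.sum_le_sum fun l _ => (hwmX x hx hx0).1 l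
        _ = 2 * K1 * Real.log N := by
            rw [Finset.sum_const, Finset.card_univ, nsmul_eq_mul, hK1]; ring
        _ ≤ 2 * K1 * (2 * d * Real.log (Hn d N)) := mul_le_mul_of_nonneg_left hH2 (by positivity)
        _ = _ := by ring⟩)
    (fun x hx hx0 => ⟨Finset.sum_nonneg fun l _ => hη0 l x, by
      calc ∑ l, η l x ≤ ∑ _l : κ, 2 * Real.log (Hn d N) :=
            Finset.sum_le_sum fun l _ => (hwmX x hx hx0).2.1 l
        _ = _ := by
            rw [Finset.sum_const, Finset.card_univ, nsmul_eq_mul, hK2]; ring⟩)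
    (fun x hx hx0 => ⟨by rw [hZ]; positivity, (hwmX x hx hx0).2.2⟩)
    (by positivity) (by positivity)
  have h1 := key.trans hcore
  obtain ⟨R, hR⟩ : ∃ R : ℝ, R = ((X.filter (fun x => H.F.wh N x ≠ 0 ∧
    K1 * τ₁ * Real.log (Hn d N) / 100 < ∑ i, θ i x ∧
    K2 * τ₂ * Real.log (Hn d N) / 100 < ∑ j, η j x)).card : ℝ) := ⟨_, rfl⟩
  rw [← hR] at h1
  have h2 : t0 ^ 2 / (16 * d * Zm * (10000 * d * E)) *
      ((N : ℝ) ^ (1 / (d : ℝ)) * H.F.V n n') ≤ R := by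
    have e1 : 1 / 2 * (mN H.F N * H.F.V n n') *
        (K1 * K2 * (τ₁ * τ₂) * Real.log (Hn d N) ^ 2) =
        (K1 * K2 * Real.log (Hn d N) ^ 2) * (1 / 2 * (mN H.F N * H.F.V n n') * (τ₁ * τ₂)) := by
      ring
    have e2 : 4 * d * K1 * Real.log (Hn d N) * (2 * K2 * Real.log (Hn d N)) * Zm * R =
        (K1 * K2 * Real.log (Hn d N) ^ 2) * (8 * d * Zm * R) := by ring
    rw [e1, e2] at h1
    have e3 : 1 / 2 * (mN H.F N * H.F.V n n') * (τ₁ * τ₂) ≤ 8 * d * Zm * R :=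
      le_of_mul_le_mul_left h1 (by positivity)
    have e4 : t0 ^ 2 ≤ τ₁ * τ₂ := by
      rw [pow_two]
      exact mul_le_mul hτ1a hτ2a ht0.le hτ1p.le
    have hmV : 0 ≤ mN H.F N * H.F.V n n' := mul_nonneg hm0 hV0
    have e5 : 1 / 2 * (mN H.F N * H.F.V n n') * t0 ^ 2 ≤ 8 * d * Zm * R := by
      refine le_trans ?_ e3
      exact mul_le_mul_of_nonneg_left e4 (by positivity)
    have e6 : (N : ℝ) ^ (1 / (d : ℝ)) * H.F.V n n' ≤
        (10000 * d * E) * (mN H.F N * H.F.V n n') := by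
      calc (N : ℝ) ^ (1 / (d : ℝ)) * H.F.V n n' ≤ (10000 * d * E * mN H.F N) * H.F.V n n' :=
            mul_le_mul_of_nonneg_right hm1 hV0
        _ = _ := by ring
    calc t0 ^ 2 / (16 * d * Zm * (10000 * d * E)) * ((N : ℝ) ^ (1 / (d : ℝ)) * H.F.V n n')
        ≤ t0 ^ 2 / (16 * d * Zm * (10000 * d * E)) *
            ((10000 * d * E) * (mN H.F N * H.F.V n n')) :=
          mul_le_mul_of_nonneg_left e6 (by positivity)
      _ = t0 ^ 2 * (mN H.F N * H.F.V n n') / (16 * d * Zm) := by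
          field_simp
      _ ≤ R := by
          rw [div_le_iff₀ (by positivity)]
          linarith
  refine h2.trans ?_
  rw [hR]
  have h3 : (X.filter (fun x => H.F.wh N x ≠ 0 ∧
      K1 * τ₁ * Real.log (Hn d N) / 100 < ∑ i, θ i x ∧
      K2 * τ₂ * Real.log (Hn d N) / 100 < ∑ j, η j x)) ⊆
      (Icc 1 (Hn d N)).filter (fun x : ℕ =>
        H.F.wh N x ≠ 0 ∧ H.F.Rg n (z0 D n') x ∧
        (Fintype.card ι * τ₁ / 400 ≤
          d * ((univ.filter (fun i : ι => (H.F.L n i x).natAbs.Prime)).card : ℝ) ∧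
        1 ≤ (univ.filter (fun i : ι => (H.F.L n i x).natAbs.Prime)).card) ∧
        (Fintype.card κ * τ₂ / 400 ≤
          ((univ.filter (fun j : κ => (H.M j x).natAbs.Prime)).card : ℝ) ∧
        1 ≤ (univ.filter (fun j : κ => (H.M j x).natAbs.Prime)).card)) := by
    intro x hx
    rw [Finset.mem_filter] at hx
    obtain ⟨hxX, hx0, hxs1, hxs2⟩ := hx
    rw [Finset.mem_filter]
    obtain ⟨hx1, hx2⟩ := hXm x hxX
    have n1 := ns_cn_num (fun l => θ l x) (fun i : ι => (H.F.L n i x).natAbs.Prime)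
      (l := Real.log N) (h := Real.log (Hn d N)) (τ := τ₁ / 10) (d := d) (by omega)
      (by linarith) hH2 (by linarith) (fun l => (hwmX x hxX hx0).1 l)
      (by
        intro i hi
        by_contra hc
        apply hi
        have h4 : thP (H.F.L n i (x : ℤ)).toNat ≠ 0 := by
          intro h5
          apply hc
          rw [hθ]
          exact h5.le
        have h5 := tc_cn2_thP_prime h4
        have h6 := h5.pos
        have h7 : (H.F.L n i (x : ℤ)).natAbs = (H.F.L n i (x : ℤ)).toNat := by omega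
        rw [h7]
        exact h5)
      (by
        rw [← hK1]
        refine lt_of_eq_of_lt ?_ hxs1
        ring)
    have n2 := ns_cn_num (fun j => η j x) (fun j : κ => (H.M j x).natAbs.Prime)
      (l := Real.log (Hn d N)) (h := Real.log (Hn d N)) (τ := τ₂ / 10) (d := 1) le_rfl
      hh0 (by push_cast; linarith) (by linarith) (fun j => (hwmX x hxX hx0).2.1 j)
      (by
        intro i hi
        by_contra hc
        apply hi
        have h4 : thP (H.M i (x : ℤ)).toNat ≠ 0 := by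
          intro h5
          apply hc
          rw [hη]
          exact h5.le
        have h5 := tc_cn2_thP_prime h4
        have h6 := h5.pos
        have h7 : (H.M i (x : ℤ)).natAbs = (H.M i (x : ℤ)).toNat := by omega
        rw [h7]
        exact h5)
      (by
        rw [← hK2]
        refine lt_of_eq_of_lt ?_ hxs2
        ring)
    rw [Nat.cast_one, one_mul] at n2
    refine ⟨hx1, hx0, hx2, ⟨le_trans (le_of_eq ?_) n1.1, n1.2⟩,
      ⟨le_trans (le_of_eq ?_) n2.1, n2.2⟩⟩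
    · ring
    · ring
  exact_mod_cast Finset.card_le_card h3

end Pool.Agent.HC.F
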