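import Pool.Agent.Lib.MP_0da313_nt.HC.M
import Pool.Agent.Lib.MP_0da313_nt.CM.P.dns

set_option autoImplicit false

/-!
Project HC, section M, piece dn4: lemmas for the densities for the pair `l`, `j`.
-/

namespace Pool.Agent.HC.M

open Finset Filter Polynomial
open Pool.Agent.Lib.MP_0da313_nt
open Pool.Agent.BVall (om rhoW PK Dens Cls mem_PK dvd_eval_congr)
open Pool.Agent.MP89da58 (kapD)
open Pool.Agent.MT (om_prod card_root_lin PK_eq totient_div kapD_pos)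
open Pool.Agent.CM (z0)
open Pool.Agent.NC (Bn)
open Pool.Agent.NC.A (ol sl)
open Pool.Agent.HC (Fam2 Q4 d4)

/-! ### Elementary lemmas -/

lemma hc_dn4_om_le {Q Q' : ℕ → ℤ → Prop} [∀ p, DecidablePred (Q p)]
    [∀ p, DecidablePred (Q' p)] (p : ℕ) (h : ∀ y, Q p y → Q' p y) : om Q p ≤ om Q' p := by
  unfold om
  apply Finset.card_le_card
  intro x hx
  rw [Finset.mem_filter] at hx ⊢
  exact ⟨hx.1, h _ hx.2⟩

lemma hc_dn4_cardpf (s : ℕ) (hs : 1 ≤ s) :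
    (s.primeFactors.card : ℝ) * Real.log 2 ≤ Real.log s := by
  have h1 : 2 ^ s.primeFactors.card ≤ s := by
    calc 2 ^ s.primeFactors.card = ∏ _p ∈ s.primeFactors, 2 := by rw [prod_const]
      _ ≤ ∏ p ∈ s.primeFactors, p :=
          Finset.prod_le_prod' fun p hp => (Nat.prime_of_mem_primeFactors hp).two_le
      _ ≤ s := Nat.le_of_dvd (by omega) (Nat.prod_primeFactors_dvd s)
  have h2 : ((2 : ℝ) ^ s.primeFactors.card) ≤ s := by exact_mod_cast h1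
  have h3 : Real.log ((2 : ℝ) ^ s.primeFactors.card) ≤ Real.log s :=
    Real.log_le_log (by positivity) h2
  rwa [Real.log_pow] at h3

lemma hc_dn4_log {p r : ℝ} (hp : 2 ≤ p) (hr : 0 ≤ r) :
    (r - 1) / p - (r ^ 2 + 2) * (p ^ 2)⁻¹ ≤ Real.log ((1 + r / p) * (1 - 1 / p)) := by
  have hp0 : 0 < p := by linarith
  have h1 : 0 < 1 + r / p := by positivity
  have h2 : 1 / p ≤ 1 / 2 := one_div_le_one_div_of_le (by norm_num) hp
  have h3 : 0 < 1 - 1 / p := by linarith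
  rw [Real.log_mul h1.ne' h3.ne']
  have h4 := Real.one_sub_inv_le_log_of_pos h1
  have h5 := Real.one_sub_inv_le_log_of_pos h3
  have h6 : r / p - r ^ 2 * (p ^ 2)⁻¹ ≤ 1 - (1 + r / p)⁻¹ := by
    have e : r / p - r ^ 2 * (p ^ 2)⁻¹ = r / p - (r / p) ^ 2 := by
      rw [div_pow]
      ring
    rw [e]
    set t := r / p with ht
    have ht0 : 0 ≤ t := by positivity
    have e2 : 1 - (1 + t)⁻¹ = t / (1 + t) := by
      field_simp
      ring
    rw [e2, le_div_iff₀ h1]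
    nlinarith [pow_nonneg ht0 3]
  have h7 : -(1 / p) - 2 * (p ^ 2)⁻¹ ≤ 1 - (1 - 1 / p)⁻¹ := by
    have e : -(1 / p) - 2 * (p ^ 2)⁻¹ = -(1 / p) - 2 * (1 / p) ^ 2 := by
      rw [div_pow]
      ring
    rw [e]
    set t := 1 / p with ht
    have ht0 : 0 < t := by positivity
    have e2 : 1 - (1 - t)⁻¹ = -(t / (1 - t)) := by
      field_simp
      ring
    rw [e2]
    have h8 : t / (1 - t) ≤ t + 2 * t ^ 2 := by
      rw [div_le_iff₀ h3]
      nlinarith [pow_pos ht0 2, mul_nonneg (pow_nonneg ht0.le 2) (show 0 ≤ 1 - 2 * t by linarith)]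
    linarith
  have e : (r - 1) / p - (r ^ 2 + 2) * (p ^ 2)⁻¹ =
      (r / p - r ^ 2 * (p ^ 2)⁻¹) + (-(1 / p) - 2 * (p ^ 2)⁻¹) := by
    ring
  rw [e]
  linarith

/-- the product of the local factors -/
lemma hc_dn4_prod (S : Finset ℕ) (r : ℕ → ℝ) (K1 w z : ℕ) (hw : 1 ≤ w) (hwz : w ≤ z)
    (hS : S ⊆ Ioc w z) (hS2 : ∀ p ∈ S, p.Prime) (hr0 : ∀ p ∈ S, 0 ≤ r p)
    (hr : ∀ p ∈ S, r p ≤ K1)
    (hsl : -(2 / 100) ≤ ∑ p ∈ S, (r p - 1) / p)
    (hwK : 25 * ((K1 : ℝ) ^ 2 + 2) ≤ w) :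
    9 / 10 ≤ ∏ p ∈ S, ((1 + r p / p) * (1 - 1 / (p : ℝ))) := by
  have hw0 : (0 : ℝ) < w := by exact_mod_cast hw
  have hpos : ∀ p ∈ S, 0 < (1 + r p / p) * (1 - 1 / (p : ℝ)) := by
    intro p hp
    have hp2 : (2 : ℝ) ≤ p := by exact_mod_cast (hS2 p hp).two_le
    have h2 : 1 / (p : ℝ) ≤ 1 / 2 := one_div_le_one_div_of_le (by norm_num) hp2
    have h3 : 0 < 1 - 1 / (p : ℝ) := by linarith
    have h4 : 0 ≤ r p / p := div_nonneg (hr0 p hp) (by linarith)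
    exact mul_pos (by linarith) h3
  have h1 : ∑ p ∈ S, ((r p - 1) / p - ((K1 : ℝ) ^ 2 + 2) * ((p : ℝ) ^ 2)⁻¹) ≤
      Real.log (∏ p ∈ S, ((1 + r p / p) * (1 - 1 / (p : ℝ)))) := by
    rw [Real.log_prod (fun p hp => (hpos p hp).ne')]
    apply Finset.sum_le_sum
    intro p hp
    have hp2 : (2 : ℝ) ≤ p := by exact_mod_cast (hS2 p hp).two_le
    refine le_trans ?_ (hc_dn4_log hp2 (hr0 p hp))
    have h2 : (r p) ^ 2 ≤ (K1 : ℝ) ^ 2 := pow_le_pow_left₀ (hr0 p hp) (hr p hp) 2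
    have h3 : 0 ≤ ((p : ℝ) ^ 2)⁻¹ := by positivity
    nlinarith
  rw [Finset.sum_sub_distrib, ← Finset.mul_sum] at h1
  have h2 : ∑ p ∈ S, ((p : ℝ) ^ 2)⁻¹ ≤ 1 / w := by
    have h3 : ∑ p ∈ S, ((p : ℝ) ^ 2)⁻¹ ≤ ∑ p ∈ Ioc w z, ((p : ℝ) ^ 2)⁻¹ :=
      Finset.sum_le_sum_of_subset_of_nonneg hS fun p _ _ => by positivity
    have h4 := sum_Ioc_inv_sq_le_sub (α := ℝ) (k := w) (n := z) (by omega) hwz
    have h5 : (0 : ℝ) ≤ (z : ℝ)⁻¹ := by positivity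
    rw [one_div]
    linarith
  have h3 : ((K1 : ℝ) ^ 2 + 2) * ∑ p ∈ S, ((p : ℝ) ^ 2)⁻¹ ≤ 4 / 100 := by
    have h4 := mul_le_mul_of_nonneg_left h2 (show 0 ≤ (K1 : ℝ) ^ 2 + 2 by positivity)
    refine h4.trans ?_
    rw [mul_one_div, div_le_iff₀ hw0]
    linarith
  have h4 : -(6 / 100 : ℝ) ≤ Real.log (∏ p ∈ S, ((1 + r p / p) * (1 - 1 / (p : ℝ)))) := by
    linarith
  have h5 : 0 < ∏ p ∈ S, ((1 + r p / p) * (1 - 1 / (p : ℝ))) := Finset.prod_pos hpos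
  rw [Real.le_log_iff_exp_le h5] at h4
  have h6 := Real.add_one_le_exp (-(6 / 100 : ℝ))
  linarith

/-- The value `u^d g(y)` modulo `p` for a root `y` of `u y + v`. -/
lemma hc_dn4_root (g : ℤ[X]) (u v : ℤ) : ∃ c0 : ℤ, ∀ (p y : ℤ), p ∣ u * y + v →
    p ∣ u ^ g.natDegree * g.eval y - c0 := by
  refine ⟨∑ i ∈ range (g.natDegree + 1), g.coeff i * (u ^ (g.natDegree - i) * (-v) ^ i), ?_⟩
  intro p y hp
  rw [Polynomial.eval_eq_sum_range, Finset.mul_sum, ← Finset.sum_sub_distrib]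
  apply Finset.dvd_sum
  intro i hi
  have hi' : i ≤ g.natDegree := Nat.lt_succ_iff.1 (Finset.mem_range.1 hi)
  have e1 : u ^ g.natDegree = u ^ (g.natDegree - i) * u ^ i := by
    rw [← pow_add, Nat.sub_add_cancel hi']
  have e2 : u ^ g.natDegree * (g.coeff i * y ^ i) -
      g.coeff i * (u ^ (g.natDegree - i) * (-v) ^ i) =
      g.coeff i * u ^ (g.natDegree - i) * ((u * y) ^ i - (-v) ^ i) := by
    rw [e1, mul_pow]
    ring
  rw [e2]
  apply Dvd.dvd.mul_left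
  have h1 : u * y - (-v) = u * y + v := by ring
  exact (h1 ▸ hp).trans (sub_dvd_pow_sub_pow _ _ i)

section

variable {ι κ : Type} [Fintype ι] [DecidableEq ι] [Fintype κ] [DecidableEq κ] {D d E : ℕ}
  (H : Fam2 ι κ D d E)

/-- the condition for the primes `≤ w` -/
def hc_dn4_Q (n : ℕ) (j : κ) (p : ℕ) (y : ℤ) : Prop :=
  (p : ℤ) ∣ (H.Hc n j).eval y ∧ ¬ (p : ℤ) ∣ ((H.u j : ℕ) : ℤ) * y + H.v j

instance hc_dn4_Q_dec (n : ℕ) (j : κ) (p : ℕ) : DecidablePred (hc_dn4_Q H n j p) := fun y => by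
  unfold hc_dn4_Q
  infer_instance

lemma hc_dn4_eval {n : ℕ} (hn : H.F.N0 ≤ n) (j : κ) (y : ℤ) :
    (H.F.G n).eval y = H.M j y * (H.Hc n j).eval y := by
  rw [H.hH n hn j]
  simp [Fam2.M]

lemma hc_dn4_evalL {n : ℕ} (hn : H.F.N0 ≤ n) (l : ι) (y : ℤ) :
    (H.F.G n).eval y = H.F.L n l y * (H.F.Gc n l).eval y := by
  rw [H.F.hG n hn l]
  simp [NC.Fam.L]

lemma hc_dn4_L (n : ℕ) (l : ι) (p : ℕ) (x y : ℤ) (h : (p : ℤ) ∣ x - y) :
    (p : ℤ) ∣ H.F.L n l x ↔ (p : ℤ) ∣ H.F.L n l y := by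
  have h1 := dvd_eval_congr (C (H.F.a l * n) + H.F.g l) h
  simpa [NC.Fam.L] using h1

lemma hc_dn4_M (j : κ) (p : ℕ) (x y : ℤ) (h : (p : ℤ) ∣ x - y) :
    (p : ℤ) ∣ H.M j x ↔ (p : ℤ) ∣ H.M j y := by
  have h1 := dvd_eval_congr (C ((H.u j : ℕ) : ℤ) * X + C (H.v j)) h
  simpa [Fam2.M] using h1

lemma hc_dn4_per {n w z : ℕ} (l : ι) (j : κ) (p : ℕ) (x y : ℤ) (h : (p : ℤ) ∣ x - y) :
    Q4 H n w z l j p x ↔ Q4 H n w z l j p y := by
  unfold Q4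
  rw [dvd_eval_congr (H.F.G n) h, hc_dn4_L H n l p x y h, hc_dn4_M H j p x y h]

lemma hc_dn4_lt {n : ℕ} (hn : H.F.N0 ≤ n) {p : ℕ} (hp : p.Prime) :
    om (fun p y => (p : ℤ) ∣ (H.F.G n).eval y) p < p := by
  unfold om
  exact card_roots_mod_lt (H.F.G n) p hp (H.F.hloc n hn p hp)

lemma hc_dn4_le {n : ℕ} (hn : H.F.N0 ≤ n) {p : ℕ} (hp : p.Prime) :
    om (fun p y => (p : ℤ) ∣ (H.F.G n).eval y) p ≤ D := by
  unfold om
  exact card_roots_mod_le (H.F.G n) p D hp (H.F.hdeg n hn) (H.F.hloc n hn p hp)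

lemma hc_dn4_Q_prod {n : ℕ} (hn : H.F.N0 ≤ n) (j : κ) {p : ℕ} (hp : p.Prime) :
    om (fun p y => (p : ℤ) ∣ (H.F.G n).eval y) p =
      om (hc_dn4_Q H n j) p + if p ∣ H.u j then 0 else 1 := by
  have h := om_prod (H.hH n hn j) (u := ((H.u j : ℕ) : ℤ)) (v := H.v j) (σ := 1) (Or.inl rfl)
    (fun y => by simp) (H.huv j) hp
  rw [Int.natAbs_natCast] at h
  rw [h]
  congr 1

lemma hc_dn4_Q_cls {n : ℕ} (hn : H.F.N0 ≤ n) (j : κ) :
    Cls ((H.u j : ℕ) : ℤ) (H.v j) D (hc_dn4_Q H n j) := by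
  refine ⟨?_, fun p x h => h.2, ?_, ?_, ?_⟩
  · intro p x y h
    have h1 := dvd_eval_congr (H.Hc n j) h
    have h2 := hc_dn4_M H j p x y h
    unfold Fam2.M at h2
    unfold hc_dn4_Q
    rw [h1, h2]
  · intro p hp
    have h1 := hc_dn4_Q_prod H hn j hp
    have h2 := hc_dn4_le H hn hp
    omega
  · intro p hp hd
    have h1 := hc_dn4_Q_prod H hn j hp
    have h2 := hc_dn4_lt H hn hp
    omega
  · intro p hp hd
    rw [Int.natAbs_natCast] at hd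
    have h1 := hc_dn4_Q_prod H hn j hp
    have h2 := hc_dn4_lt H hn hp
    rw [if_neg hd] at h1
    omega

lemma hc_dn4_sub {n w z p : ℕ} (hn : H.F.N0 ≤ n) {l : ι} {j : κ} (hp : p.Prime) (y : ℤ)
    (h : Q4 H n w z l j p y) : hc_dn4_Q H n j p y := by
  obtain ⟨_, h2, h3, _⟩ := h
  rw [hc_dn4_eval H hn j y] at h2
  exact ⟨((Nat.prime_iff_prime_int.1 hp).dvd_mul.1 h2).resolve_left h3, h3⟩

lemma hc_dn4_iff {n w z p : ℕ} (hn : H.F.N0 ≤ n) {l : ι} {j : κ} (hp : p.Prime)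
    (hpz : p ≤ z) (hpw : p ≤ w) (y : ℤ) : Q4 H n w z l j p y ↔ hc_dn4_Q H n j p y := by
  refine ⟨hc_dn4_sub H hn hp y, fun h => ⟨hpz, ?_, h.2, fun h1 => absurd h1 (by omega)⟩⟩
  rw [hc_dn4_eval H hn j y]
  exact h.1.mul_left _

/-- The local factor at the primes `≤ w`. -/
lemma hc_dn4_loc1 {n w z : ℕ} (hn : H.F.N0 ≤ n) (l : ι) (j : κ) {p : ℕ} (hpp : p.Prime)
    (hpz : p ≤ z) (hpw : p ≤ w) :
    (1 - (om (fun p y => (p : ℤ) ∣ (H.F.G n).eval y) p : ℝ) / p) *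
      (if p ∣ H.u j then 1 - 1 / (p : ℝ) else 1) =
    (1 - d4 H n w z l j p) * (1 - 1 / (p : ℝ)) := by
  classical
  have hp2 : (2 : ℝ) ≤ p := by exact_mod_cast hpp.two_le
  have h1 := hc_dn4_Q_prod H hn j hpp
  have e : d4 H n w z l j p = rhoW (H.u j) (hc_dn4_Q H n j) p := by
    unfold d4
    exact Pool.Agent.CM.L.dns_rho_congr _ p (hc_dn4_iff H hn hpp hpz hpw)
  rw [e]
  unfold rhoW
  rw [h1]
  by_cases hd : p ∣ H.u j
  · rw [if_pos hd, if_pos hd, if_pos hd]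
    push_cast
    ring
  · rw [if_neg hd, if_neg hd, if_neg hd, Nat.cast_sub hpp.one_le]
    push_cast
    have h2 : (p : ℝ) ≠ 0 := by linarith
    have h3 : (p : ℝ) - 1 ≠ 0 := by linarith
    field_simp
    ring

open Classical in
/-- The local factor at the primes between `w` and `z`. -/
lemma hc_dn4_loc2 {n w z : ℕ} (hn : H.F.N0 ≤ n) (l : ι) (j : κ) {p : ℕ} (hpp : p.Prime)
    (hpz : p ≤ z) (hpw : w < p) (hu : ¬ p ∣ H.u j) :
    ∃ r : ℕ, r ≤ ol H.F n l p ∧ ((ol H.F n l p ≤ r) ∨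
      (ol H.F n l p ≤ r + 1 ∧ ∃ y : ℤ, (p : ℤ) ∣ H.M j y ∧ (p : ℤ) ∣ H.F.L n l y)) ∧
    (1 - (om (fun p y => (p : ℤ) ∣ (H.F.G n).eval y) p : ℝ) / p) * (1 + (r : ℝ) / p) ≤
      (1 - d4 H n w z l j p) * (1 - 1 / (p : ℝ)) := by
  have hp2 : (2 : ℝ) ≤ p := by exact_mod_cast hpp.two_le
  have h1 := hc_dn4_Q_prod H hn j hpp
  rw [if_neg hu] at h1
  -- the roots of `L` which are not roots of `M`
  set A : Finset ℕ := (range p).filter (fun y : ℕ => (p : ℤ) ∣ H.F.L n l y ∧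
    ¬ (p : ℤ) ∣ H.M j y) with hA
  have hol : ol H.F n l p = A.card + ((range p).filter (fun y : ℕ => (p : ℤ) ∣ H.F.L n l y ∧
      (p : ℤ) ∣ H.M j y)).card := by
    unfold ol om
    rw [hA, ← Finset.card_union_of_disjoint]
    · congr 1
      ext x
      simp only [Finset.mem_filter, Finset.mem_union]
      tauto
    · rw [Finset.disjoint_left]
      intro x h2 h3
      rw [Finset.mem_filter] at h2 h3
      exact h2.2.2 h3.2.2
  have hB : ((range p).filter (fun y : ℕ => (p : ℤ) ∣ H.F.L n l y ∧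
      (p : ℤ) ∣ H.M j y)).card ≤ 1 := by
    have hr := card_root_lin (H.huv j) hpp
    rw [Int.natAbs_natCast, if_neg hu] at hr
    rw [← hr]
    apply Finset.card_le_card
    intro x hx
    rw [Finset.mem_filter] at hx ⊢
    exact ⟨hx.1, hx.2.2⟩
  have hQ : om (Q4 H n w z l j) p + A.card = om (hc_dn4_Q H n j) p := by
    unfold om
    rw [hA, ← Finset.card_union_of_disjoint]
    · congr 1
      ext x
      simp only [Finset.mem_filter, Finset.mem_union]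
      constructor
      · rintro (⟨h2, h3⟩ | ⟨h2, h3, h4⟩)
        · exact ⟨h2, hc_dn4_sub H hn hpp _ h3⟩
        · refine ⟨h2, ?_, h4⟩
          have h5 : (p : ℤ) ∣ (H.F.G n).eval (x : ℤ) := by
            rw [hc_dn4_evalL H hn l]
            exact h3.mul_right _
          rw [hc_dn4_eval H hn j] at h5
          exact ((Nat.prime_iff_prime_int.1 hpp).dvd_mul.1 h5).resolve_left h4
      · rintro ⟨h2, h3⟩
        by_cases h4 : (p : ℤ) ∣ H.F.L n l x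
        · exact Or.inr ⟨h2, h4, h3.2⟩
        · refine Or.inl ⟨h2, hpz, ?_, h3.2, fun _ => h4⟩
          rw [hc_dn4_eval H hn j]
          exact h3.1.mul_left _
    · rw [Finset.disjoint_left]
      intro x h2 h3
      rw [Finset.mem_filter] at h2 h3
      exact h2.2.2.2.2 hpw h3.2.1
  refine ⟨A.card, by omega, ?_, ?_⟩
  · by_cases hB0 : ((range p).filter (fun y : ℕ => (p : ℤ) ∣ H.F.L n l y ∧
      (p : ℤ) ∣ H.M j y)).card = 0
    · exact Or.inl (by omega)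
    · right
      refine ⟨by omega, ?_⟩
      obtain ⟨x, hx⟩ := Finset.card_pos.1 (Nat.pos_of_ne_zero hB0)
      rw [Finset.mem_filter] at hx
      exact ⟨x, hx.2.2, hx.2.1⟩
  · have hd2 : d4 H n w z l j p = (om (Q4 H n w z l j) p : ℝ) / ((p : ℝ) - 1) := by
      unfold d4 rhoW
      rw [if_neg hu, Nat.cast_sub hpp.one_le, Nat.cast_one]
    rw [hd2, h1, ← hQ]
    push_cast
    have h2 : (0 : ℝ) < p := by linarith
    have h3 : (0 : ℝ) < (p : ℝ) - 1 := by linarith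
    set q : ℝ := (om (Q4 H n w z l j) p : ℝ)
    set r : ℝ := (A.card : ℝ)
    have hq : 0 ≤ q := Nat.cast_nonneg _
    have hr : 0 ≤ r := Nat.cast_nonneg _
    have e : (1 - q / ((p : ℝ) - 1)) * (1 - 1 / p) - (1 - (q + r + 1) / p) * (1 + r / p) =
        (q + r + 1) * r / (p : ℝ) ^ 2 := by
      field_simp
      ring
    have h4 : 0 ≤ (q + r + 1) * r / (p : ℝ) ^ 2 := by positivity
    linarith

end

end Pool.Agent.HC.M
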