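import Pool.Agent.Lib.MP_0da313_nt.HC.M
import Pool.Agent.Lib.MP_0da313_nt.NC.R.pw

set_option autoImplicit false

/-!
[HS pw4]: pointwise inequalities for the lower bound.
-/

namespace Pool.Agent.HC.M

open Finset Filter Polynomial
open Pool.Agent.MP89da58 (bil pw nn supp part kapD tri)
open Pool.Agent.MT (PJf dvI ZI)
open Pool.Agent.BVall (om rhoW PK lev RepB Dens mem_PK)
open Pool.Agent.Lib.MP_0da313_nt (W small)
open Pool.Agent.CH (thP)
open Pool.Agent.CM (wd z0)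
open Pool.Agent.CM.F (Pre)
open Pool.Agent.TC (Lw wN)
open Pool.Agent.NC (Hn Bn)
open Pool.Agent.NC.A (Par3)
open Pool.Agent.NC.M (ns_pw_z ns_pw_kap ns_pw_thP_prime ns_pw_thP_nonneg ns_pw_nd ns_pw_ev1
  ns_pw_ev2 ns_pw_w ns_pw_wz ns_pw_ev3 ns_pw_Hn)
open Pool.Agent.HC (Fam2 Q4 r4)

open Classical in
/-- the two inequalities, the values of the members being large -/
theorem hs_pw4_pt {ι κ : Type} [Fintype ι] [DecidableEq ι] [Fintype κ] [DecidableEq κ]
    {D d E n n' w : ℕ} (H : Fam2 ι κ D d E)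
    (hn : H.F.N0 ≤ n) {Fp Fm : (ℕ → ℝ) → ℝ} (hF : Pre D n' Fp Fm) (l : ι) (j : κ) (x : ℤ)
    (hwz : w ≤ z0 D n') (hL : z0 D n' < (H.F.L n l x).toNat)
    (hM : z0 D n' < (H.M j x).toNat) (hMp : (H.M j x).toNat.Prime) :
    (kapD w)⁻¹ * Fm (r4 H n w (z0 D n') l j x) ≤
      Lw w (H.F.L n l x).toNat * Fm (r4 H n w (z0 D n') l j x) ∧
    thP (H.F.L n l x).toNat * Fm (r4 H n w (z0 D n') l j x) ≤
      if H.F.Rg n (z0 D n') x then thP (H.F.L n l x).toNat else 0 := by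
  set z := z0 D n' with hz
  set ρ := r4 H n w z l j x with hρ
  have h01 : ∀ p, 0 ≤ ρ p ∧ ρ p ≤ 1 := by
    intro p
    rw [hρ]
    unfold r4
    split_ifs <;> norm_num
  have hpre := (hF.pt ρ (fun p _ => h01 p)).1
  have hGl : H.F.L n l x ∣ (H.F.G n).eval x := by
    rw [H.F.hG n hn l, eval_mul]
    have : (Polynomial.C (H.F.a l * (n : ℤ)) + H.F.g l : ℤ[X]).eval x = H.F.L n l x := by
      simp [NC.Fam.L]
    rw [this]
    exact dvd_mul_right _ _
  have hW0 : ∀ p : ℕ, p.Prime → p ≤ z → ρ p = 1 → Fm ρ ≤ 0 := by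
    intro p hp hpz h1
    refine hpre.trans (le_of_eq ?_)
    unfold W
    exact Finset.prod_eq_zero (mem_PK.2 ⟨hp, hpz⟩) (by rw [h1, sub_self])
  have hMd : ∀ p : ℕ, p.Prime → p ≤ z → ¬ (p : ℤ) ∣ H.M j x := fun p hp hpz =>
    ns_pw_nd hMp hM hp hpz
  have hρ1 : ∀ p : ℕ, p.Prime → p ≤ z → (p : ℤ) ∣ (H.F.G n).eval x →
      (w < p → ¬ (p : ℤ) ∣ H.F.L n l x) → ρ p = 1 := by
    intro p hp hpz hd hi
    rw [hρ]
    unfold r4
    rw [if_pos]
    exact ⟨hpz, hd, hMd p hp hpz, hi⟩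
  have hi0 : 0 < H.F.L n l x := by omega
  constructor
  · by_cases h : ∀ p : ℕ, p.Prime → p ≤ w → ¬ p ∣ (H.F.L n l x).toNat
    · unfold Lw
      rw [if_pos h]
    · have hk := ns_pw_kap w
      unfold Lw
      rw [if_neg h, zero_mul]
      push Not at h
      obtain ⟨p, hp, hpw, hd⟩ := h
      have h1 : (p : ℤ) ∣ H.F.L n l x := by
        have h2 : (p : ℤ) ∣ ((H.F.L n l x).toNat : ℤ) := by exact_mod_cast hd
        rwa [Int.toNat_of_nonneg hi0.le] at h2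
      have h2 := hW0 p hp (by omega) (hρ1 p hp (by omega) (h1.trans hGl)
        (fun h3 => by omega))
      exact mul_nonpos_of_nonneg_of_nonpos (inv_nonneg.2 hk.le) h2
  · by_cases hp0 : thP (H.F.L n l x).toNat = 0
    · rw [hp0, zero_mul]
      split_ifs <;> exact le_refl _
    · have hip := ns_pw_thP_prime hp0
      have hth := ns_pw_thP_nonneg (H.F.L n l x).toNat
      by_cases hR : H.F.Rg n z x
      · rw [if_pos hR]
        have h1 : Fm ρ ≤ 1 := by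
          refine hpre.trans ?_
          unfold W
          exact Finset.prod_le_one (fun p _ => by have := h01 p; linarith)
            (fun p _ => by have := h01 p; linarith)
        calc thP (H.F.L n l x).toNat * Fm ρ ≤ thP (H.F.L n l x).toNat * 1 :=
              mul_le_mul_of_nonneg_left h1 hth
          _ = _ := mul_one _
      · rw [if_neg hR]
        unfold NC.Fam.Rg at hR
        push Not at hR
        obtain ⟨p, hp, hpz, hd⟩ := hR
        have h2 := hW0 p hp hpz (hρ1 p hp hpz hd (fun _ => ns_pw_nd hip hL hp hpz))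
        exact mul_nonpos_of_nonneg_of_nonpos hth h2

theorem hs_pw4_ev (d : ℕ) (hd : 2 ≤ d) : ∀ᶠ N : ℕ in atTop, 1 < (Hn d N : ℝ) := by
  have hd0 : (0 : ℝ) < 1 / (d : ℝ) := by
    have : (0 : ℝ) < d := by exact_mod_cast (by omega : 0 < d)
    positivity
  have h1 := (tendsto_natCast_atTop_atTop (R := ℝ)).eventually
    ((tendsto_rpow_atTop hd0).eventually_ge_atTop (2 : ℝ))
  filter_upwards [h1] with N h2
  have h3 : 2 ≤ Hn d N := by
    unfold Hn
    exact Nat.le_floor (by exact_mod_cast h2)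
  exact_mod_cast (by omega : 1 < Hn d N)

theorem p_pw4 : S_pw4 := by
  intro hwin hwin2 ι κ _ _ _ _ D d E H B0 B1 hD hB0 hB1
  obtain ⟨-, C, hC, hwin⟩ := hwin ι D d E H.F
  filter_upwards [hwin, hwin2 ι κ D d E H, ns_pw_ev1, ns_pw_ev2 (B1 * B0), ns_pw_ev3 C,
    eventually_ge_atTop 1, hs_pw4_ev d H.F.hd]
    with N hwin hwin2 hl hlB hCN hN1 hHn
  intro n hn n' P hPar
  have hn' := Finset.mem_Ioc.1 hn
  obtain ⟨hN0, hwin⟩ := hwin
  have hw := ns_pw_w (N := N) hB1 hl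
  have hwz : wN B1 N ≤ z0 D n' := ns_pw_wz hlB hl hPar.hzB
  refine ⟨⟨hw, hwz⟩, ?_⟩
  intro Fp Fm hF l j x hx hwh hMj
  obtain ⟨-, -, -, hLl⟩ := hwin n hn x hx hwh
  have hlev1 : (1 : ℝ) ≤ (lev (2 * D) n' : ℝ) := by
    have : 1 ≤ lev (2 * D) n' := by
      have := ns_pw_z D n'
      have h2 : 1 ≤ z0 D n' := Nat.one_le_two_pow
      omega
    exact_mod_cast this
  have hzH : (z0 D n' : ℝ) ≤ (Hn d N : ℝ) ^ (1 / 10000 : ℝ) := by
    have h1 : (z0 D n' : ℝ) ≤ (lev (2 * D) n' : ℝ) := by exact_mod_cast ns_pw_z D n'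
    have h2 : (lev (2 * D) n' : ℝ) ≤ (lev (2 * D) n' : ℝ) ^ 3 := by
      calc (lev (2 * D) n' : ℝ) = (lev (2 * D) n' : ℝ) ^ 1 := (pow_one _).symm
        _ ≤ _ := pow_le_pow_right₀ hlev1 (by norm_num)
    have h3 := hPar.hlev
    linarith
  have hz1 : (z0 D n' : ℝ) ≤ (N : ℝ) ^ (1 / 10000 : ℝ) := by
    have h4 : (Hn d N : ℝ) ^ (1 / 10000 : ℝ) ≤ (N : ℝ) ^ (1 / 10000 : ℝ) :=
      Real.rpow_le_rpow (Nat.cast_nonneg _) (ns_pw_Hn H.F.hd hN1) (by norm_num)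
    linarith
  have hL : z0 D n' < (H.F.L n l x).toNat := by
    have h1 := (hLl l).1
    have hCR : (0 : ℝ) < C := by exact_mod_cast hC
    have h2 : (C : ℝ) * (z0 D n' : ℝ) < C * (H.F.L n l x : ℝ) := by
      have h3 := mul_le_mul_of_nonneg_left hz1 hCR.le
      linarith
    have h3 : (z0 D n' : ℝ) < (H.F.L n l x : ℝ) := lt_of_mul_lt_mul_left h2 hCR.le
    have h4 : ((z0 D n' : ℕ) : ℤ) < H.F.L n l x := by exact_mod_cast h3
    omega
  have hM : z0 D n' < (H.M j x).toNat := by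
    have h1 := (hwin2 x hx hwh j).1
    have h2 : (Hn d N : ℝ) ^ (1 / 10000 : ℝ) < (Hn d N : ℝ) ^ (1 / 2 : ℝ) :=
      Real.rpow_lt_rpow_of_exponent_lt hHn (by norm_num)
    have h3 : (z0 D n' : ℝ) < (H.M j x : ℝ) := by linarith
    have h4 : ((z0 D n' : ℕ) : ℤ) < H.M j x := by exact_mod_cast h3
    omega
  exact hs_pw4_pt H (by omega) hF l j x hwz hL hM (ns_pw_thP_prime hMj)

end Pool.Agent.HC.M
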